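import Pool.Agent.Helper81.AN.Defs
import Pool.Agent.Helper42.INC.Inflate

/-!
# Project AN: the tensor tool, definitions
-/

set_option autoImplicit false

open Matrix
open scoped IsMulCommutative

namespace Pool.Agent.Helper81.AN

open Pool.Agent.Helper42.INC

/-- the subgroup generated by `(-1, z)` (the normal closure, so that it is normal) -/
def NQ (d : ℕ) {Y : Type} [Group Y] (z : Y) : Subgroup (GL (Fin d) ℂ × Y) :=
  Subgroup.normalClosure {(-1, z)}

instance (d : ℕ) {Y : Type} [Group Y] (z : Y) : (NQ d z).Normal :=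
  Subgroup.normalClosure_normal

/-- the group `(GL_d × Y) / (-1, z)` -/
abbrev QQ (d : ℕ) {Y : Type} [Group Y] (z : Y) : Type := (GL (Fin d) ℂ × Y) ⧸ NQ d z

/-- the class of a pair -/
def qmk (d : ℕ) {Y : Type} [Group Y] (z : Y) : GL (Fin d) ℂ × Y →* QQ d z := QuotientGroup.mk' _

/-- `z` is a central involution -/
structure CInv {Y : Type} [Group Y] (z : Y) : Prop where
  comm : ∀ y, z * y = y * z
  sq : z * z = 1
  ne : z ≠ 1

/-- elements of `NQ` -/
theorem mem_NQ (d : ℕ) {Y : Type} [Group Y] (z : Y) (hz : CInv z) (x : GL (Fin d) ℂ × Y) :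
    x ∈ NQ d z ↔ x = 1 ∨ x = (-1, z) := by
  constructor
  · intro h
    let N : Subgroup (GL (Fin d) ℂ × Y) :=
      { carrier := {x | x = 1 ∨ x = (-1, z)}
        one_mem' := Or.inl rfl
        mul_mem' := by
          rintro a b (rfl | rfl) (rfl | rfl)
          · left; simp
          · right; simp
          · right; simp
          · left
            ext1
            · simp
            · exact hz.sq
        inv_mem' := by
          rintro a (rfl | rfl)
          · left; simp
          · right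
            ext1
            · simp
            · exact inv_eq_of_mul_eq_one_left hz.sq }
    have hN : N.Normal := by
      refine ⟨?_⟩
      rintro a (rfl | rfl) g
      · left; simp
      · right
        ext1
        · simp
        · change g.2 * z * g.2⁻¹ = z
          rw [← hz.comm, mul_inv_cancel_right]
    have h1 : NQ d z ≤ N := Subgroup.normalClosure_le_normal (by
      rintro _ rfl
      exact Or.inr rfl)
    exact h1 h
  · rintro (rfl | rfl)
    · exact one_mem _
    · exact Subgroup.subset_normalClosure rfl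

/-- equality in `QQ` -/
theorem qmk_eq (d : ℕ) {Y : Type} [Group Y] (z : Y) (hz : CInv z) (A B : GL (Fin d) ℂ) (x y : Y) :
    qmk d z (A, x) = qmk d z (B, y) ↔ (A = B ∧ x = y) ∨ (A = -B ∧ x = z * y) := by
  have h1 : qmk d z (A, x) = qmk d z (B, y) ↔ (A, x)⁻¹ * (B, y) ∈ NQ d z := QuotientGroup.eq
  rw [h1, mem_NQ d z hz]
  constructor
  · rintro (h | h)
    · left
      have h2 := (inv_mul_eq_one.1 h)
      exact ⟨congrArg Prod.fst h2, congrArg Prod.snd h2⟩
    · right
      have h2 := inv_mul_eq_iff_eq_mul.1 h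
      have ha : B = A * -1 := congrArg Prod.fst h2
      have hb : y = x * z := congrArg Prod.snd h2
      constructor
      · rw [ha]; simp
      · rw [hb, ← hz.comm x, ← mul_assoc, hz.sq, one_mul]
  · rintro (⟨rfl, rfl⟩ | ⟨rfl, rfl⟩)
    · left
      rw [inv_mul_cancel]
    · right
      rw [inv_mul_eq_iff_eq_mul]
      ext1
      · simp
      · change y = z * y * z
        rw [hz.comm y, mul_assoc, hz.sq, mul_one]

/-- the trace function on `QQ` -/
noncomputable def tauQ {d : ℕ} {Y : Type} [Group Y] {z : Y} (ψ : Y → ℂ) (q : QQ d z) : ℂ :=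
  ((Quotient.out q).1 : Matrix (Fin d) (Fin d) ℂ).trace * ψ (Quotient.out q).2

theorem tauQ_mk {d : ℕ} {Y : Type} [Group Y] {z : Y} (hz : CInv z) (ψ : Y → ℂ)
    (hψ : ∀ y, ψ (z * y) = -ψ y) (A : GL (Fin d) ℂ) (y : Y) :
    tauQ ψ (qmk d z (A, y)) = (A : Matrix (Fin d) (Fin d) ℂ).trace * ψ y := by
  unfold tauQ
  set q := Quotient.out (qmk d z (A, y)) with hq
  have h1 : qmk d z (q.1, q.2) = qmk d z (A, y) := by
    have : (Quotient.mk _ q : QQ d z) = qmk d z (A, y) := Quotient.out_eq _
    exact this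
  rcases (qmk_eq d z hz _ _ _ _).1 h1 with ⟨h, h'⟩ | ⟨h, h'⟩
  · rw [h, h']
  · rw [h, h', hψ]
    simp

/-- characters with `χ(z) = -χ(1)`, `z` a central involution -/
theorem irrZ_neg {Y : Type} [Group Y] [Finite Y] {z : Y} (hz : CInv z) {ψ : Y → ℂ}
    (hψ : ψ ∈ IrrZ z (-1)) (y : Y) : ψ (z * y) = -ψ y := by
  obtain ⟨ν, hν⟩ := exists_central (Subgroup.center Y).subtype (fun c => c.2) hψ.1
  have hzc : z ∈ Subgroup.center Y := by
    rw [Subgroup.mem_center_iff]
    intro g
    exact (hz.comm g).symm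
  have h1 := hν ⟨z, hzc⟩ 1
  have h2 := hν ⟨z, hzc⟩ y
  simp only [Subgroup.subtype_apply, mul_one] at h1 h2
  rw [hψ.2] at h1
  obtain ⟨n, hn0, hn⟩ := irr_one hψ.1
  have hn' : ψ 1 ≠ 0 := by
    rw [hn]
    exact_mod_cast hn0.ne'
  rw [h2, ← mul_right_cancel₀ hn' h1]
  ring

end Pool.Agent.Helper81.AN
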