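import Pool.Agent.Helper81.AN.Gen
import Pool.Agent.Helper81.AN.TenDefs

/-!
# ALT-24: classification of the spin characters from an orthogonal system of generalized characters

`z` a central involution of `X`, `ε` the parity (`ε z = 1`), `V i` (`i ∈ I`, each `i` even or odd) self-associate generalized characters with
`V i (z x) = - V i x`, orthogonal, of norm `1` (`i` even) or `2` (`i` odd), `V i 1 > 0`. Suppose (upper bound) a class function `f` with `f(z x) = -f(x)`
which vanishes on odd elements and on the elements `R i` (`i ∈ I`) is zero, and (lower bound) there are linearly independent class functions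
`f i` (`i` odd) with `f i (z x) = - f i x` which vanish on even elements. Then the characters with `χ(z) = -χ(1)` are: one self-associate
character `V i` for every even `i`, and a pair `χ`, `χ ε` of non self-associate characters with `V i = χ + χ ε` for every odd `i`.

PROOF. Let `D` = space of class functions, `f(z x) = -f(x)`, zero on odd elements; `dim D ≤ |I|` (evaluation at the `R i` is injective), and the `V i` are
orthogonal for `B` with `B (V i) (V i) ≠ 0`, so linearly independent: they are a basis of `D`. Let `A` = the set of self-associate characters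
(`χ ε = χ`, equivalently zero on odd elements) in `IrrZ z (-1)`, `P` = the set of pairs `{χ, χ ε}`, `χ ε ≠ χ`. `A ∪ {χ + χ ε}` is a basis of `D` (expand an
element of `D` in irreducible characters; the multiplicities of `χ` and `χ ε` are equal). So `|A| + |P| = |I|`. Let `D'` be the space of
class functions, `f(z x) = -f(x)`, zero on even elements; `{χ - χ ε}` is a basis, so `|P| = dim D' ≥ #odd`. For `i` even
`V i ∈ Irr` (`gen_one`), `V i ∈ A`, and they are different (orthogonal), so `|A| ≥ #even`. Hence `|A| = #even`, `|P| = #odd`, `A = {V i : i even}`. Let `i` be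
odd. `V i` is orthogonal to `A`, `B (V i) (V i) = 2`, so (`gen_two`) `V i = ± χ ± χ'` with `χ`, `χ'` not in `A`; as `V i` is self-associate it has the same multiplicity at
`χ` and `χ ε`, so `χ' = χ ε` and the signs are equal; `V i 1 > 0`: both `+`. (`χ, χ' ∈ IrrZ z (-1)`: the multiplicity of `χ` in `V i` is zero unless
`χ(z) = -χ(1)`, by `V i (z x) = - V i x`.) Different odd `i` give different (orthogonal) pairs, so all pairs occur. Choose for each odd `i` one
of the two characters and call it `(i, 1)`, the other `(i, -1)`; `χ(1) = (χ ε)(1) = V i 1 / 2`.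
-/

set_option autoImplicit false

open scoped IsMulCommutative

namespace Pool.Agent.Helper81.AN

open Pool.Agent.Helper42.INC Pool.Agent.Helper7.MK

/-- labels -/
def LabI (I : Type) (odd : I → Prop) : Type := {q : I × ℤˣ // ¬ odd q.1 → q.2 = 1}

open Classical in
/-- twist -/
noncomputable def LabI.tw {I : Type} {odd : I → Prop} (q : LabI I odd) : LabI I odd :=
  ⟨(q.1.1, if odd q.1.1 then -q.1.2 else q.1.2), fun h => by
    rw [if_neg h]
    exact q.2 h⟩

section twist

variable {X : Type} [Group X]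

/-- twist by `ε` -/
noncomputable def twf (ε : X →* ℤˣ) (χ : X → ℂ) : X → ℂ :=
  fun x => (((ε x : ℤˣ) : ℤ) : ℂ) * χ x

theorem epsC_sq (ε : X →* ℤˣ) (x : X) :
    (((ε x : ℤˣ) : ℤ) : ℂ) * (((ε x : ℤˣ) : ℤ) : ℂ) = 1 := by
  rcases Int.units_eq_one_or (ε x) with h | h <;> rw [h] <;> simp

theorem epsC_inv (ε : X →* ℤˣ) (x : X) :
    (((ε x⁻¹ : ℤˣ) : ℤ) : ℂ) = (((ε x : ℤˣ) : ℤ) : ℂ) := by
  rw [map_inv]
  rcases Int.units_eq_one_or (ε x) with h | h <;> rw [h] <;> simp

theorem twf_twf (ε : X →* ℤˣ) (χ : X → ℂ) : twf ε (twf ε χ) = χ := by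
  funext x
  unfold twf
  rw [← mul_assoc, epsC_sq, one_mul]

theorem twf_one (ε : X →* ℤˣ) (χ : X → ℂ) : twf ε χ 1 = χ 1 := by
  unfold twf
  rw [map_one]
  simp

theorem B_twf [Finite X] (ε : X →* ℤˣ) (f g : X → ℂ) : B (twf ε f) g = B f (twf ε g) := by
  have := Fintype.ofFinite X
  rw [B_eq, B_eq]
  congr 1
  refine Finset.sum_congr rfl fun x _ => ?_
  unfold twf
  rw [epsC_inv]
  ring

theorem isChar_eps (ε : X →* ℤˣ) : IsChar (fun x => (((ε x : ℤˣ) : ℤ) : ℂ)) := by
  refine ⟨ℂ, inferInstance, inferInstance, inferInstance,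
    { toFun := fun x => (((ε x : ℤˣ) : ℤ) : ℂ) • LinearMap.id
      map_one' := by
        rw [map_one]
        simp
        rfl
      map_mul' := fun x y => by
        rw [map_mul]
        push_cast
        ext
        simp [mul_comm] }, ?_⟩
  funext x
  change _ = LinearMap.trace ℂ ℂ ((((ε x : ℤˣ) : ℤ) : ℂ) • LinearMap.id)
  rw [map_smul, LinearMap.trace_id]
  simp

theorem twf_irr [Finite X] (ε : X →* ℤˣ) {χ : X → ℂ} (h : χ ∈ Irr X) : twf ε χ ∈ Irr X := by
  refine IsChar.irr ((isChar_eps ε).mul (IsChar.of_irr h)) ?_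
  have h1 : B (twf ε χ) (twf ε χ) = 1 := by rw [B_twf, twf_twf, B_irr_self h]
  exact h1

theorem twf_irrZ [Finite X] (ε : X →* ℤˣ) {z : X} (hε : ε z = 1) {ν : ℂ} {χ : X → ℂ}
    (h : χ ∈ IrrZ z ν) : twf ε χ ∈ IrrZ z ν := by
  refine ⟨twf_irr ε h.1, ?_⟩
  rw [twf_one, ← h.2]
  unfold twf
  rw [hε]
  simp

theorem irrZ_of_B [Finite X] {z : X} (hz : CInv z) {f : X → ℂ} (hf : ∀ x, f (z * x) = -f x)
    {χ : X → ℂ} (hχ : χ ∈ Irr X) (hB : B f χ ≠ 0) : χ ∈ IrrZ z (-1) := by
  have := Fintype.ofFinite X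
  obtain ⟨ν, hν⟩ := exists_central (Subgroup.center X).subtype (fun c => c.2) hχ
  have hzc : z ∈ Subgroup.center X := by
    rw [Subgroup.mem_center_iff]
    intro g
    exact (hz.comm g).symm
  have hzi : z⁻¹ = z := inv_eq_of_mul_eq_one_left hz.sq
  have h1 : ∀ y, χ (z * y) = (ν ⟨z, hzc⟩ : ℂ) * χ y := fun y => hν ⟨z, hzc⟩ y
  have h2 : B f χ = -(ν ⟨z, hzc⟩ : ℂ) * B f χ := by
    rw [B_eq]
    conv_lhs => rw [← Equiv.sum_comp (Equiv.mulLeft z)]
    rw [Finset.mul_sum, Finset.mul_sum, Finset.mul_sum]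
    refine Finset.sum_congr rfl fun x _ => ?_
    rw [Equiv.coe_mulLeft, hf, mul_inv_rev, hzi, ← hz.comm, h1]
    ring
  have h3 : (ν ⟨z, hzc⟩ : ℂ) = -1 := by
    have h4 : (1 + (ν ⟨z, hzc⟩ : ℂ)) * B f χ = 0 := by linear_combination h2
    rcases mul_eq_zero.1 h4 with h5 | h5
    · linear_combination h5
    · exact absurd h5 hB
  refine ⟨hχ, ?_⟩
  have h4 := h1 1
  rw [mul_one] at h4
  rw [h4, h3]

end twist

section main

variable {X : Type} [Group X] [Finite X]

/-- a function in the span of `IrrZ z (-1)` is determined by its products -/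
theorem zero_of_B {z : X} (hz : CInv z) {f : X → ℂ} (hc : IsClass f)
    (hf : ∀ x, f (z * x) = -f x) (h : ∀ χ ∈ IrrZ z (-1), B f χ = 0) : f = 0 := by
  refine complete f hc fun χ hχ => ?_
  by_contra h1
  exact h1 (h χ (irrZ_of_B hz hf hχ h1))

/-- counting: even functions -/
theorem card_even {z : X} (hz : CInv z) (ε : X →* ℤˣ) (hε : ε z = 1) (I : Type) [Finite I]
    (hup : ∃ R : I → X, ∀ f : X → ℂ, IsClass f → (∀ x, f (z * x) = -f x) →
      (∀ x, ε x = -1 → f x = 0) → (∀ i, f (R i) = 0) → ∀ x, f x = 0)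
    (T : Type) [Finite T] (t : T → X → ℂ) (ht : ∀ a, t a ∈ IrrZ z (-1))
    (hinj : ∀ a b, t a = t b → a = b) (hinj2 : ∀ a b, twf ε (t a) = t b → a = b) :
    Nat.card T ≤ Nat.card I := by
  classical
  have := Fintype.ofFinite T
  have := Fintype.ofFinite I
  obtain ⟨R, hR⟩ := hup
  let F : (T → ℂ) →ₗ[ℂ] (X → ℂ) :=
    { toFun := fun c => ∑ a, c a • (t a + twf ε (t a))
      map_add' := fun c d => by
        rw [← Finset.sum_add_distrib]
        refine Finset.sum_congr rfl fun a _ => ?_
        rw [Pi.add_apply, add_smul]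
      map_smul' := fun r c => by
        rw [RingHom.id_apply, Finset.smul_sum]
        refine Finset.sum_congr rfl fun a _ => ?_
        rw [Pi.smul_apply, smul_assoc] }
  let E : (X → ℂ) →ₗ[ℂ] (I → ℂ) :=
    { toFun := fun f i => f (R i)
      map_add' := fun _ _ => rfl
      map_smul' := fun _ _ => rfl }
  have hF : ∀ c, F c = ∑ a, c a • (t a + twf ε (t a)) := fun c => rfl
  have hinjF : Function.Injective (E ∘ₗ F) := by
    rw [← LinearMap.ker_eq_bot, LinearMap.ker_eq_bot']
    intro c hc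
    have h0 : F c = 0 := by
      have h1 : ∀ i, F c (R i) = 0 := fun i => congrFun hc i
      have hcl : IsClass (F c) := by
        rw [hF]
        refine IsClass.sum _ _ fun a _ => IsClass.smul _ ?_
        intro g x
        rw [Pi.add_apply, Pi.add_apply, (Irr.isClass (ht a).1) g x,
          (Irr.isClass (twf_irr ε (ht a).1)) g x]
      funext x
      refine hR (F c) hcl (fun x => ?_) (fun x hx => ?_) h1 x
      · rw [hF, Finset.sum_apply, Finset.sum_apply, ← Finset.sum_neg_distrib]
        refine Finset.sum_congr rfl fun a _ => ?_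
        rw [Pi.smul_apply, Pi.smul_apply, Pi.add_apply, Pi.add_apply, irrZ_neg hz (ht a),
          irrZ_neg hz (twf_irrZ ε hε (ht a)), smul_eq_mul, smul_eq_mul]
        ring
      · rw [hF, Finset.sum_apply]
        refine Finset.sum_eq_zero fun a _ => ?_
        rw [Pi.smul_apply, Pi.add_apply]
        unfold twf
        rw [hx]
        simp
    funext b
    have h2 : B (F c) (t b) = 0 := by rw [h0, B_zero_left]
    rw [hF, B_sum_left] at h2
    have h3 : ∀ a, a ≠ b → B (c a • (t a + twf ε (t a))) (t b) = 0 := by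
      intro a hab
      rw [B_smul_left, B_add_left, B_irr_ne (ht a).1 (ht b).1 (fun h => hab (hinj _ _ h)),
        B_irr_ne (twf_irr ε (ht a).1) (ht b).1 (fun h => hab (hinj2 _ _ h)), add_zero, mul_zero]
    rw [Finset.sum_eq_single b (fun a _ hab => h3 a hab)
      (fun h => absurd (Finset.mem_univ b) h), B_smul_left, B_add_left, B_irr_self (ht b).1,
      B_irr (twf_irr ε (ht b).1) (ht b).1] at h2
    rcases mul_eq_zero.1 h2 with h4 | h4
    · exact h4
    · exfalso
      split_ifs at h4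
      · norm_num at h4
      · norm_num at h4
  have h5 := LinearMap.finrank_le_finrank_of_injective hinjF
  rw [Module.finrank_fintype_fun_eq_card, Module.finrank_fintype_fun_eq_card] at h5
  rwa [Nat.card_eq_fintype_card, Nat.card_eq_fintype_card]

/-- counting: odd functions -/
theorem card_odd {z : X} (hz : CInv z) (ε : X →* ℤˣ) (J : Type) [Finite J]
    (f : J → X → ℂ) (hc : ∀ i, IsClass (f i)) (hf : ∀ i x, f i (z * x) = -f i x)
    (ho : ∀ i x, ε x = 1 → f i x = 0) (hl : LinearIndependent ℂ f)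
    (P : Type) [Finite P] (t : P → X → ℂ)
    (hcov : ∀ χ ∈ IrrZ z (-1), twf ε χ ≠ χ → ∃ a, t a = χ ∨ t a = twf ε χ) :
    Nat.card J ≤ Nat.card P := by
  classical
  have := Fintype.ofFinite J
  have := Fintype.ofFinite P
  have hodd : ∀ i, twf ε (f i) = -f i := by
    intro i
    funext x
    unfold twf
    rcases Int.units_eq_one_or (ε x) with h | h
    · rw [Pi.neg_apply, ho i x h]
      simp
    · rw [h, Pi.neg_apply]
      simp
  let F : (J → ℂ) →ₗ[ℂ] (P → ℂ) :=
    { toFun := fun c a => B (∑ i, c i • f i) (t a)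
      map_add' := fun c d => by
        funext a
        rw [Pi.add_apply, ← B_add_left, ← Finset.sum_add_distrib]
        congr 1
        refine Finset.sum_congr rfl fun a _ => ?_
        rw [Pi.add_apply, add_smul]
      map_smul' := fun r c => by
        funext a
        rw [RingHom.id_apply, Pi.smul_apply, smul_eq_mul, ← B_smul_left, Finset.smul_sum]
        congr 1
        refine Finset.sum_congr rfl fun a _ => ?_
        rw [Pi.smul_apply, smul_assoc] }
  have hinjF : Function.Injective F := by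
    rw [← LinearMap.ker_eq_bot, LinearMap.ker_eq_bot']
    intro c hc0
    have h0 : ∑ i, c i • f i = 0 := by
      refine zero_of_B hz (IsClass.sum _ _ fun i _ => (hc i).smul _) (fun x => ?_) ?_
      · rw [Finset.sum_apply, Finset.sum_apply, ← Finset.sum_neg_distrib]
        refine Finset.sum_congr rfl fun i _ => ?_
        rw [Pi.smul_apply, Pi.smul_apply, hf, smul_neg]
      · intro χ hχ
        have h1 : B (∑ i, c i • f i) (twf ε χ) = -B (∑ i, c i • f i) χ := by
          rw [← B_twf, ← B_neg_left]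
          congr 1
          funext x
          unfold twf
          rw [Pi.neg_apply, Finset.sum_apply, Finset.mul_sum, ← Finset.sum_neg_distrib]
          refine Finset.sum_congr rfl fun i _ => ?_
          have h2 := congrFun (hodd i) x
          unfold twf at h2
          rw [Pi.neg_apply] at h2
          rw [Pi.smul_apply, smul_eq_mul]
          linear_combination (c i) * h2
        by_cases h3 : twf ε χ = χ
        · rw [h3] at h1
          linear_combination h1 / 2
        · obtain ⟨a, ha | ha⟩ := hcov χ hχ h3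
          · rw [← ha]
            exact congrFun hc0 a
          · have h4 : B (∑ i, c i • f i) (t a) = 0 := congrFun hc0 a
            rw [ha, h1] at h4
            linear_combination -h4
    funext i
    exact (Fintype.linearIndependent_iff.1 hl) c h0 i
  have h5 := LinearMap.finrank_le_finrank_of_injective hinjF
  rw [Module.finrank_fintype_fun_eq_card, Module.finrank_fintype_fun_eq_card] at h5
  rwa [Nat.card_eq_fintype_card, Nat.card_eq_fintype_card]

end main

open Classical in
theorem assem {X : Type} [Group X] [Finite X] (z : X) (hz : CInv z) (ε : X →* ℤˣ) (hε : ε z = 1)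
    (I : Type) [Finite I] (odd : I → Prop) (V : I → X → ℂ) (dg : I → ℕ)
    (hgen : ∀ i, IsGen (V i)) (hzV : ∀ i x, V i (z * x) = -V i x)
    (hεV : ∀ i x, ε x = -1 → V i x = 0)
    (hB : ∀ i j, B (V i) (V j) = if i = j then (if odd i then 2 else 1) else 0)
    (hdg : ∀ i, V i 1 = if odd i then 2 * (dg i : ℂ) else dg i) (hpos : ∀ i, 0 < dg i)
    (hup : ∃ R : I → X, ∀ f : X → ℂ, IsClass f → (∀ x, f (z * x) = -f x) →
      (∀ x, ε x = -1 → f x = 0) → (∀ i, f (R i) = 0) → ∀ x, f x = 0)
    (hlow : ∃ f : {i : I // odd i} → X → ℂ, (∀ i, IsClass (f i)) ∧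
      (∀ i x, f i (z * x) = -f i x) ∧ (∀ i x, ε x = 1 → f i x = 0) ∧ LinearIndependent ℂ f) :
    Nonempty (Lab X ε z (-1) (LabI I odd) LabI.tw (fun q => dg q.1.1)) := by
  have hfin : Finite (IrrZ z (-1)) :=
    Finite.of_injective (fun χ : IrrZ z (-1) => (⟨χ.1, χ.2.1⟩ : Irr X)) (fun a b h => by
      apply Subtype.ext
      exact congrArg (fun u : Irr X => u.1) h)
  obtain ⟨n, hn⟩ : ∃ n : IrrZ z (-1) → ℕ, Function.Injective n :=
    ⟨fun χ => (Finite.equivFin (IrrZ z (-1)) χ : ℕ), fun a b h =>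
      (Finite.equivFin (IrrZ z (-1))).injective (Fin.ext h)⟩
  obtain ⟨τ, hτ⟩ : ∃ τ : IrrZ z (-1) → IrrZ z (-1), ∀ χ, (τ χ).1 = twf ε χ.1 :=
    ⟨fun χ => ⟨twf ε χ.1, twf_irrZ ε hε χ.2⟩, fun _ => rfl⟩
  have hττ : ∀ χ, τ (τ χ) = χ := by
    intro χ
    apply Subtype.ext
    rw [hτ, hτ, twf_twf]
  have hVtw : ∀ i, twf ε (V i) = V i := by
    intro i
    funext x
    unfold twf
    rcases Int.units_eq_one_or (ε x) with h | h
    · rw [h]
      simp
    · rw [hεV i x h, mul_zero]
  have hVB : ∀ i χ, B (V i) (twf ε χ) = B (V i) χ := by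
    intro i χ
    rw [← B_twf, hVtw]
  have hVeven : ∀ i, ¬ odd i → V i ∈ IrrZ z (-1) := by
    intro i hi
    refine ⟨gen_one (hgen i) ?_ (dg i) (hpos i) ?_, ?_⟩
    · rw [hB, if_pos rfl, if_neg hi]
    · rw [hdg, if_neg hi]
    · have h := hzV i 1
      rw [mul_one] at h
      rw [h]
      ring
  -- counting
  have c1 : Nat.card ({χ : IrrZ z (-1) // τ χ = χ} ⊕ {χ : IrrZ z (-1) // n χ < n (τ χ)}) ≤
      Nat.card I := by
    refine card_even hz ε hε I hup _ (Sum.elim (fun a => a.1.1) (fun a => a.1.1)) ?_ ?_ ?_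
    · rintro (a | a)
      · exact a.1.2
      · exact a.1.2
    · rintro (a | a) (b | b) h
      · congr 1
        exact Subtype.ext (Subtype.ext h)
      · exfalso
        have h1 : a.1 = b.1 := Subtype.ext h
        have h2 := b.2
        rw [← h1, a.2] at h2
        exact lt_irrefl _ h2
      · exfalso
        have h1 : a.1 = b.1 := Subtype.ext h
        have h2 := a.2
        rw [h1, b.2] at h2
        exact lt_irrefl _ h2
      · congr 1
        exact Subtype.ext (Subtype.ext h)
    · have key : ∀ a b : IrrZ z (-1), twf ε a.1 = b.1 → τ a = b := by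
        intro a b h
        apply Subtype.ext
        rw [hτ, h]
      rintro (a | a) (b | b) h
      · congr 1
        apply Subtype.ext
        rw [← key a.1 b.1 h, a.2]
      · exfalso
        have h1 : a.1 = b.1 := by rw [← key a.1 b.1 h, a.2]
        have h2 := b.2
        rw [← h1, a.2] at h2
        exact lt_irrefl _ h2
      · exfalso
        have h1 : τ a.1 = b.1 := key a.1 b.1 h
        have h2 := a.2
        have h3 : τ b.1 = b.1 := b.2
        rw [← h1, hττ] at h3
        rw [← h3] at h2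
        exact lt_irrefl _ h2
      · exfalso
        have h1 : τ a.1 = b.1 := key a.1 b.1 h
        have h2 := a.2
        have h3 := b.2
        rw [← h1, hττ] at h3
        exact lt_asymm h2 h3
  have hne_lt : ∀ χ, τ χ ≠ χ → ¬ n χ < n (τ χ) → n (τ χ) < n (τ (τ χ)) := by
    intro χ h1 h2
    rw [hττ]
    exact lt_of_le_of_ne (not_lt.1 h2) fun h => h1 (hn h)
  have c2 : Nat.card {i : I // odd i} ≤ Nat.card {χ : IrrZ z (-1) // n χ < n (τ χ)} := by
    obtain ⟨f, hf1, hf2, hf3, hf4⟩ := hlow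
    refine card_odd hz ε {i : I // odd i} f hf1 hf2 hf3 hf4 _ (fun a => a.1.1) ?_
    intro χ hχ hne
    by_cases h : n ⟨χ, hχ⟩ < n (τ ⟨χ, hχ⟩)
    · exact ⟨⟨⟨χ, hχ⟩, h⟩, Or.inl rfl⟩
    · refine ⟨⟨τ ⟨χ, hχ⟩, hne_lt _ (fun h1 => hne ?_) h⟩, Or.inr (hτ _)⟩
      rw [← hτ ⟨χ, hχ⟩, h1]
  have c3inj : Function.Injective (fun i : {i : I // ¬ odd i} =>
      (⟨⟨V i.1, hVeven i.1 i.2⟩, Subtype.ext ((hτ _).trans (hVtw i.1))⟩ :
        {χ : IrrZ z (-1) // τ χ = χ})) := by
    intro i j h
    have h1 : V i.1 = V j.1 := congrArg (fun a => a.1.1) h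
    have h2 := hB i.1 j.1
    rw [h1, hB, if_pos rfl, if_neg j.2] at h2
    apply Subtype.ext
    by_contra h3
    rw [if_neg h3] at h2
    exact one_ne_zero h2
  have c3 := Nat.card_le_card_of_injective _ c3inj
  have c4 : Nat.card I = Nat.card {i : I // odd i} + Nat.card {i : I // ¬ odd i} := by
    rw [← Nat.card_sum]
    exact Nat.card_congr (Equiv.sumCompl odd).symm
  rw [Nat.card_sum] at c1
  have c5 : Nat.card {i : I // ¬ odd i} = Nat.card {χ : IrrZ z (-1) // τ χ = χ} := by omega
  have c6 : Nat.card {i : I // odd i} = Nat.card {χ : IrrZ z (-1) // n χ < n (τ χ)} := by omega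
  have hA : ∀ χ : IrrZ z (-1), τ χ = χ → ∃ i, ¬ odd i ∧ V i = χ.1 := by
    intro χ hχ
    obtain ⟨i, hi⟩ := ((Nat.bijective_iff_injective_and_card _).2 ⟨c3inj, c5⟩).2 ⟨χ, hχ⟩
    exact ⟨i.1, i.2, congrArg (fun a => a.1.1) hi⟩
  have hodd : ∀ i : {i : I // odd i}, ∃ χ : IrrZ z (-1), τ χ ≠ χ ∧
      V i.1 = χ.1 + twf ε χ.1 ∧ χ.1 1 = dg i.1 := by
    rintro ⟨i, hi⟩
    obtain ⟨χ, χ', s, s', hχ, hχ', hne, hx⟩ := gen_two (hgen i) (by rw [hB, if_pos rfl, if_pos hi])
    have hs0 : ∀ u : ℤˣ, ((u : ℤ) : ℂ) ≠ 0 := by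
      intro u
      rcases Int.units_eq_one_or u with h | h <;> rw [h] <;> simp
    have hV : V i = ((s : ℤ) : ℂ) • χ + ((s' : ℤ) : ℂ) • χ' := by
      funext x
      rw [hx]
      rfl
    have b1 : B (V i) χ = ((s : ℤ) : ℂ) := by
      rw [hV, B_add_left, B_smul_left, B_smul_left, B_irr_self hχ, B_irr_ne hχ' hχ hne.symm]
      ring
    have hχZ : χ ∈ IrrZ z (-1) := irrZ_of_B hz (hzV i) hχ (by rw [b1]; exact hs0 s)
    have hne2 : twf ε χ ≠ χ := by
      intro h
      obtain ⟨j, hj, hVj⟩ := hA ⟨χ, hχZ⟩ (Subtype.ext ((hτ _).trans h))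
      have h1 := hB i j
      have hij : i ≠ j := by
        rintro rfl
        exact hj hi
      rw [hVj, if_neg hij] at h1
      change B (V i) χ = 0 at h1
      rw [b1] at h1
      exact hs0 s h1
    have b2 : B (V i) (twf ε χ) = ((s : ℤ) : ℂ) := by rw [hVB, b1]
    rw [hV, B_add_left, B_smul_left, B_smul_left, B_irr_ne hχ (twf_irr ε hχ) hne2.symm,
      B_irr hχ' (twf_irr ε hχ)] at b2
    have h3 : χ' = twf ε χ := by
      by_contra h
      rw [if_neg h] at b2
      refine hs0 s ?_
      rw [← b2]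
      ring
    rw [if_pos h3] at b2
    have h4 : ((s' : ℤ) : ℂ) = ((s : ℤ) : ℂ) := by
      rw [← b2]
      ring
    obtain ⟨k, hk, hk1⟩ := irr_one hχ
    have h5 := hx 1
    rw [hdg, if_pos hi, h3, twf_one, h4, hk1] at h5
    have h6 : (dg i : ℂ) = ((s : ℤ) : ℂ) * k := by linear_combination h5 / 2
    have h7 : (dg i : ℤ) = (s : ℤ) * k := by exact_mod_cast h6
    have h8 : s = 1 := by
      rcases Int.units_eq_one_or s with h | h
      · exact h
      · exfalso
        rw [h] at h7
        have := hpos i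
        push_cast at h7
        omega
    refine ⟨⟨χ, hχZ⟩, fun h => hne2 ?_, ?_, ?_⟩
    · rw [← hτ ⟨χ, hχZ⟩, h]
    · change V i = χ + twf ε χ
      rw [hV, h4, h3, h8]
      simp
    · change χ 1 = dg i
      rw [h6, hk1, h8]
      simp
  choose c hc1 hc2 hc3 using hodd
  have hcB : ∀ i (j : {i : I // odd i}), B (V i) (c j).1 = if i = j.1 then 1 else 0 := by
    intro i j
    have h1 := hB i j.1
    rw [B_symm, hc2 j, B_add_left, B_symm, B_symm (twf ε _), hVB] at h1
    by_cases h : i = j.1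
    · rw [if_pos h] at h1 ⊢
      rw [h, if_pos j.2] at h1
      rw [h]
      linear_combination h1 / 2
    · rw [if_neg h] at h1 ⊢
      linear_combination h1 / 2
  let F : LabI I odd → IrrZ z (-1) := fun q =>
    if h : odd q.1.1 then (if q.1.2 = 1 then c ⟨q.1.1, h⟩ else τ (c ⟨q.1.1, h⟩))
    else ⟨V q.1.1, hVeven _ h⟩
  have F1 : ∀ q : LabI I odd, ¬ odd q.1.1 → (F q).1 = V q.1.1 := by
    intro q h
    simp only [F, dif_neg h]
  have F2 : ∀ (q : LabI I odd) (h : odd q.1.1), q.1.2 = 1 → F q = c ⟨q.1.1, h⟩ := by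
    intro q h h1
    simp only [F, dif_pos h, if_pos h1]
  have F3 : ∀ (q : LabI I odd) (h : odd q.1.1), q.1.2 ≠ 1 → F q = τ (c ⟨q.1.1, h⟩) := by
    intro q h h1
    simp only [F, dif_pos h, if_neg h1]
  have FB : ∀ i q, B (V i) (F q).1 = if i = q.1.1 then 1 else 0 := by
    intro i q
    by_cases h : odd q.1.1
    · by_cases h1 : q.1.2 = 1
      · rw [F2 q h h1, hcB]
      · rw [F3 q h h1, hτ, hVB, hcB]
    · rw [F1 q h, hB]
      by_cases h1 : i = q.1.1
      · rw [if_pos h1, if_pos h1, h1, if_neg h]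
      · rw [if_neg h1, if_neg h1]
  have Fdg : ∀ q : LabI I odd, (F q).1 1 = dg q.1.1 := by
    intro q
    by_cases h : odd q.1.1
    · by_cases h1 : q.1.2 = 1
      · rw [F2 q h h1, hc3]
      · rw [F3 q h h1, hτ, twf_one, hc3]
    · rw [F1 q h, hdg, if_neg h]
  have Ftw : ∀ q : LabI I odd, F (LabI.tw q) = τ (F q) := by
    intro q
    by_cases h : odd q.1.1
    · have ht1 : (LabI.tw q).1.1 = q.1.1 := rfl
      have ht2 : (LabI.tw q).1.2 = -q.1.2 := by
        unfold LabI.tw
        simp only [if_pos h]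
      by_cases h1 : q.1.2 = 1
      · rw [F2 q h h1, F3 (LabI.tw q) h (by rw [ht2, h1]; decide)]
        rfl
      · have h2 : q.1.2 = -1 := (Int.units_eq_one_or _).resolve_left h1
        rw [F3 q h h1, F2 (LabI.tw q) h (by rw [ht2, h2, neg_neg]), hττ]
        rfl
    · apply Subtype.ext
      have h2 : ¬ odd (LabI.tw q).1.1 := h
      rw [F1 _ h2, hτ, F1 q h, hVtw]
      rfl
  have Finj : Function.Injective F := by
    intro q q' h
    have h1 := FB q.1.1 q
    rw [h, FB, if_pos rfl] at h1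
    have h2 : q.1.1 = q'.1.1 := by
      by_contra h3
      rw [if_neg h3] at h1
      exact zero_ne_one h1
    apply Subtype.ext
    refine Prod.ext h2 ?_
    by_cases h3 : odd q.1.1
    · have h3' : odd q'.1.1 := h2 ▸ h3
      have h4 : (⟨q.1.1, h3⟩ : {i : I // odd i}) = ⟨q'.1.1, h3'⟩ := Subtype.ext h2
      by_cases h5 : q.1.2 = 1
      · by_cases h6 : q'.1.2 = 1
        · rw [h5, h6]
        · exfalso
          rw [F2 q h3 h5, F3 q' h3' h6, h4] at h
          exact hc1 _ h.symm
      · by_cases h6 : q'.1.2 = 1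
        · exfalso
          rw [F3 q h3 h5, F2 q' h3' h6, h4] at h
          exact hc1 _ h
        · rw [(Int.units_eq_one_or _).resolve_left h5, (Int.units_eq_one_or _).resolve_left h6]
    · rw [q.2 h3, q'.2 (h2 ▸ h3)]
  -- representatives
  obtain ⟨r, hr1, hr2⟩ : ∃ r : IrrZ z (-1) → IrrZ z (-1),
      (∀ χ, τ χ ≠ χ → n (r χ) < n (τ (r χ))) ∧ ∀ χ, r χ = χ ∨ r χ = τ χ := by
    refine ⟨fun χ => if n χ < n (τ χ) then χ else τ χ, fun χ h => ?_, fun χ => ?_⟩
    · by_cases h1 : n χ < n (τ χ)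
      · simp only [if_pos h1]
        exact h1
      · simp only [if_neg h1]
        exact hne_lt χ h h1
    · by_cases h1 : n χ < n (τ χ)
      · left
        exact if_pos h1
      · right
        exact if_neg h1
  have hrB : ∀ i χ, B (V i) (r χ).1 = B (V i) χ.1 := by
    intro i χ
    rcases hr2 χ with h | h
    · rw [h]
    · rw [h, hτ, hVB]
  have Ginj : Function.Injective (fun j : {i : I // odd i} =>
      (⟨r (c j), hr1 _ (hc1 j)⟩ : {χ : IrrZ z (-1) // n χ < n (τ χ)})) := by
    intro j j' h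
    have h1 : r (c j) = r (c j') := congrArg Subtype.val h
    have h2 := hrB j.1 (c j)
    rw [h1, hrB, hcB, hcB, if_pos rfl] at h2
    apply Subtype.ext
    by_contra h3
    rw [if_neg h3] at h2
    exact zero_ne_one h2
  have Fsurj : Function.Surjective F := by
    intro χ
    by_cases h : τ χ = χ
    · obtain ⟨i, hi, hVi⟩ := hA χ h
      refine ⟨(⟨(i, 1), fun _ => rfl⟩ : LabI I odd), Subtype.ext ?_⟩
      rw [F1 (⟨(i, 1), fun _ => rfl⟩ : LabI I odd) hi]
      exact hVi
    · obtain ⟨j, hj⟩ := ((Nat.bijective_iff_injective_and_card _).2 ⟨Ginj, c6⟩).2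
        ⟨r χ, hr1 χ h⟩
      have h1 : r (c j) = r χ := congrArg Subtype.val hj
      have h2 : χ = c j ∨ χ = τ (c j) := by
        rcases hr2 (c j) with h3 | h3 <;> rcases hr2 χ with h4 | h4
        · left
          rw [← h4, ← h1, h3]
        · right
          rw [← hττ χ, ← h4, ← h1, h3]
        · right
          rw [← h4, ← h1, h3]
        · left
          rw [← hττ χ, ← h4, ← h1, h3, hττ]
      rcases h2 with h2 | h2
      · refine ⟨(⟨(j.1, 1), fun _ => rfl⟩ : LabI I odd), ?_⟩
        rw [F2 (⟨(j.1, 1), fun _ => rfl⟩ : LabI I odd) j.2 rfl, h2]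
      · refine ⟨(⟨(j.1, -1), fun h5 => absurd j.2 h5⟩ : LabI I odd), ?_⟩
        rw [F3 (⟨(j.1, -1), fun h5 => absurd j.2 h5⟩ : LabI I odd) j.2 (show (-1 : ℤˣ) ≠ 1 by decide), h2]
  let e := Equiv.ofBijective F ⟨Finj, Fsurj⟩
  refine ⟨⟨e.symm, fun χ χ' h => ?_, fun χ => ?_⟩⟩
  · rw [Equiv.symm_apply_eq]
    change χ' = F (LabI.tw (e.symm χ))
    rw [Ftw]
    have h1 : F (e.symm χ) = χ := e.apply_symm_apply χ
    rw [h1]
    apply Subtype.ext
    rw [hτ]
    funext x
    exact h x
  · have h1 : F (e.symm χ) = χ := e.apply_symm_apply χ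
    have h2 := Fdg (e.symm χ)
    rw [h1] at h2
    exact h2

end Pool.Agent.Helper81.AN
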