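import Pool.Agent.Helper7.MK.Char

/-!
# ALT-23: generalized characters

PROOFS. `IsGen` is closed under sums and integer multiples (direct sums of representations: `IsChar` is closed under addition; `0` is the character of the zero
space). A generalized character is an integral combination of irreducible characters (Maschke; in the library: `expand` and
`B_char` in `Helper42/INC/Basic.lean`: for `χ ∈ Irr`, `B f χ` is an integer `m_χ`, and `f = Σ m_χ χ`), `B f f = Σ m_χ^2` (`B_irr`). So `B f f = 1` gives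
`f = ± χ`; `B f f = 2` gives `f = ± χ ± χ'`, `χ ≠ χ'`. The sign in `gen_one` is decided by the value at `1`.
-/

set_option autoImplicit false

namespace Pool.Agent.Helper81.AN

open Pool.Agent.Helper42.INC Pool.Agent.Helper7.MK

variable {G : Type} [Group G] [Finite G]

/-- generalized characters -/
def IsGen (f : G → ℂ) : Prop := ∃ a b : G → ℂ, IsChar a ∧ IsChar b ∧ ∀ x, f x = a x - b x

omit [Finite G] in
theorem isChar_zero' : IsChar (fun _ : G => (0 : ℂ)) := by
  refine ⟨PUnit, inferInstance, inferInstance, inferInstance, 1, ?_⟩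
  funext x
  unfold Representation.character
  rw [MonoidHom.one_apply]
  have h : (1 : Module.End ℂ PUnit) = 0 := Subsingleton.elim _ _
  rw [h, map_zero]

omit [Finite G] in
theorem isChar_add' {f g : G → ℂ} (hf : IsChar f) (hg : IsChar g) :
    IsChar (fun x => f x + g x) := by
  obtain ⟨V, _, _, _, ρ, rfl⟩ := hf
  obtain ⟨W, _, _, _, σ, rfl⟩ := hg
  refine ⟨V × W, inferInstance, inferInstance, inferInstance, ρ.prod σ, ?_⟩
  funext x
  unfold Representation.character
  change _ = LinearMap.trace ℂ (V × W) ((ρ x).prodMap (σ x))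
  rw [LinearMap.trace_prodMap']

omit [Finite G] in
theorem isChar_nsmul' {f : G → ℂ} (hf : IsChar f) (n : ℕ) : IsChar (fun x => (n : ℂ) * f x) := by
  induction n with
  | zero => simpa using isChar_zero' (G := G)
  | succ n ih =>
    have h := isChar_add' ih hf
    have h2 : (fun x => ((n + 1 : ℕ) : ℂ) * f x) = fun x => (n : ℂ) * f x + f x := by
      funext x
      push_cast
      ring
    rw [h2]
    exact h

theorem IsGen.of_char {f : G → ℂ} (h : IsChar f) : IsGen f :=
  ⟨f, fun _ => 0, h, isChar_zero', fun x => by simp⟩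

theorem IsGen.add {f g : G → ℂ} (hf : IsGen f) (hg : IsGen g) : IsGen (fun x => f x + g x) := by
  obtain ⟨a, b, ha, hb, h⟩ := hf
  obtain ⟨a', b', ha', hb', h'⟩ := hg
  refine ⟨_, _, isChar_add' ha ha', isChar_add' hb hb', fun x => ?_⟩
  simp only
  rw [h, h']
  ring

theorem IsGen.zsmul {f : G → ℂ} (hf : IsGen f) (n : ℤ) : IsGen (fun x => (n : ℂ) * f x) := by
  obtain ⟨a, b, ha, hb, h⟩ := hf
  obtain ⟨k, rfl | rfl⟩ := n.eq_nat_or_neg
  · refine ⟨_, _, isChar_nsmul' ha k, isChar_nsmul' hb k, fun x => ?_⟩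
    simp only
    rw [h]
    push_cast
    ring
  · refine ⟨_, _, isChar_nsmul' hb k, isChar_nsmul' ha k, fun x => ?_⟩
    simp only
    rw [h]
    push_cast
    ring

theorem IsGen.sum {κ : Type} (s : Finset κ) (f : κ → G → ℂ) (hf : ∀ k ∈ s, IsGen (f k)) :
    IsGen (fun x => ∑ k ∈ s, f k x) := by
  classical
  induction s using Finset.induction_on with
  | empty =>
    simp only [Finset.sum_empty]
    exact IsGen.of_char isChar_zero'
  | insert a s ha ih =>
    simp only [Finset.sum_insert ha]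
    exact (hf a (Finset.mem_insert_self a s)).add
      (ih fun k hk => hf k (Finset.mem_insert_of_mem hk))

theorem IsGen.isClass {f : G → ℂ} (hf : IsGen f) : IsClass f := by
  obtain ⟨a, b, ha, hb, h⟩ := hf
  intro g x
  rw [h, h, ha.isClass g x, hb.isClass g x]

/-- the multiplicities are integers -/
theorem IsGen.int {f : G → ℂ} (hf : IsGen f) {χ : G → ℂ} (hχ : χ ∈ Irr G) :
    ∃ m : ℤ, B f χ = m := by
  obtain ⟨a, b, ha, hb, h⟩ := hf
  obtain ⟨m, hm⟩ := ha.nat (IsChar.of_irr hχ)
  obtain ⟨n, hn⟩ := hb.nat (IsChar.of_irr hχ)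
  have hfe : f = a - b := funext h
  refine ⟨(m : ℤ) - n, ?_⟩
  rw [hfe, B_sub_left, hm, hn]
  push_cast
  rfl

/-- the expansion of a generalized character -/
theorem IsGen.exp {f : G → ℂ} (hf : IsGen f) (N : ℕ) (hN : B f f = N) :
    ∃ (S : Finset (Irr G)) (m : Irr G → ℤ), (∀ χ ∈ S, m χ ≠ 0) ∧ ∑ χ ∈ S, (m χ) ^ 2 = N ∧
      ∀ x, f x = ∑ χ ∈ S, (m χ : ℂ) * χ.1 x := by
  classical
  have := Fintype.ofFinite (Irr G)
  have hexp := expand f hf.isClass
  choose m hm using fun χ : Irr G => hf.int χ.2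
  have hsum : ∑ χ : Irr G, (m χ) ^ 2 = N := by
    have h2 : B f f = ∑ χ : Irr G, B f χ.1 * B f χ.1 := by
      nth_rewrite 1 [hexp]
      rw [B_sum_left]
      apply Finset.sum_congr rfl
      intro χ _
      rw [B_smul_left, B_symm χ.1 f]
    rw [hN] at h2
    have h3 : ((∑ χ : Irr G, (m χ) ^ 2 : ℤ) : ℂ) = ((N : ℤ) : ℂ) := by
      push_cast
      rw [h2]
      apply Finset.sum_congr rfl
      intro χ _
      rw [hm, sq]
    exact_mod_cast h3
  refine ⟨Finset.univ.filter fun χ => m χ ≠ 0, m, fun χ hχ => (Finset.mem_filter.1 hχ).2, ?_,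
    fun x => ?_⟩
  · rw [← hsum]
    refine Finset.sum_subset (Finset.filter_subset _ _) fun χ _ hχ => ?_
    have h0 : m χ = 0 := by
      by_contra h
      exact hχ (Finset.mem_filter.2 ⟨Finset.mem_univ _, h⟩)
    rw [h0]
    rfl
  · have h1 : f x = ∑ χ : Irr G, (m χ : ℂ) * χ.1 x := by
      nth_rewrite 1 [hexp]
      rw [Finset.sum_apply]
      refine Finset.sum_congr rfl fun χ _ => ?_
      rw [Pi.smul_apply, hm, smul_eq_mul]
    rw [h1]
    symm
    refine Finset.sum_subset (Finset.filter_subset _ _) fun χ _ hχ => ?_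
    have h0 : m χ = 0 := by
      by_contra h
      exact hχ (Finset.mem_filter.2 ⟨Finset.mem_univ _, h⟩)
    rw [h0]
    simp

theorem sq_int_pos {m : ℤ} (h : m ≠ 0) : 1 ≤ m ^ 2 := by
  have := sq_pos_of_ne_zero (R := ℤ) h
  omega

theorem int_sq_one {m : ℤ} (h : m ^ 2 = 1) : m = 1 ∨ m = -1 := by
  have h2 : (m - 1) * (m + 1) = 0 := by linear_combination h
  rcases mul_eq_zero.1 h2 with h3 | h3
  · left; omega
  · right; omega

theorem gen_one {f : G → ℂ} (hf : IsGen f) (h1 : B f f = 1) (n : ℕ) (hn : 0 < n)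
    (hf1 : f 1 = n) : f ∈ Irr G := by
  obtain ⟨S, m, hm, hs, hx⟩ := hf.exp 1 (by rw [h1, Nat.cast_one])
  have hcard : (S.card : ℤ) ≤ ∑ χ ∈ S, (m χ) ^ 2 := by
    rw [Finset.card_eq_sum_ones]
    push_cast
    exact Finset.sum_le_sum fun χ hχ => sq_int_pos (hm χ hχ)
  rw [hs] at hcard
  have hc : S.card = 0 ∨ S.card = 1 := by
    push_cast at hcard
    omega
  rcases hc with hc | hc
  · rw [Finset.card_eq_zero] at hc
    subst hc
    simp at hs
  · obtain ⟨χ, rfl⟩ := Finset.card_eq_one.1 hc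
    rw [Finset.sum_singleton] at hs
    have hf' : ∀ x, f x = (m χ : ℂ) * χ.1 x := by
      intro x
      rw [hx, Finset.sum_singleton]
    obtain ⟨k, hk, hk1⟩ := irr_one χ.2
    rcases int_sq_one (by exact_mod_cast hs) with h | h
    · have : f = χ.1 := by
        funext x
        rw [hf', h]
        simp
      rw [this]
      exact χ.2
    · exfalso
      have h3 := hf' 1
      rw [hf1, h, hk1] at h3
      have h4 : (n : ℤ) = -k := by
        have : ((n : ℤ) : ℂ) = ((-k : ℤ) : ℂ) := by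
          push_cast
          push_cast at h3
          rw [h3]
          ring
        exact_mod_cast this
      omega

theorem gen_two {f : G → ℂ} (hf : IsGen f) (h2 : B f f = 2) :
    ∃ (χ χ' : G → ℂ) (s s' : ℤˣ), χ ∈ Irr G ∧ χ' ∈ Irr G ∧ χ ≠ χ' ∧
      ∀ x, f x = ((s : ℤ) : ℂ) * χ x + ((s' : ℤ) : ℂ) * χ' x := by
  classical
  obtain ⟨S, m, hm, hs, hx⟩ := hf.exp 2 (by rw [h2]; norm_num)
  have hcard : (S.card : ℤ) ≤ ∑ χ ∈ S, (m χ) ^ 2 := by
    rw [Finset.card_eq_sum_ones]
    push_cast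
    exact Finset.sum_le_sum fun χ hχ => sq_int_pos (hm χ hχ)
  rw [hs] at hcard
  have hc : S.card = 0 ∨ S.card = 1 ∨ S.card = 2 := by
    push_cast at hcard
    omega
  rcases hc with hc | hc | hc
  · rw [Finset.card_eq_zero] at hc
    subst hc
    simp at hs
  · obtain ⟨χ, rfl⟩ := Finset.card_eq_one.1 hc
    rw [Finset.sum_singleton] at hs
    exfalso
    have h3 : (m χ) ^ 2 = 2 := by exact_mod_cast hs
    have h4 : m χ < 2 := by nlinarith
    have h5 : -2 < m χ := by nlinarith
    interval_cases h : m χ <;> omega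
  · obtain ⟨χ, χ', hne, rfl⟩ := Finset.card_eq_two.1 hc
    rw [Finset.sum_pair hne] at hs
    have h3 := sq_int_pos (hm χ (by simp))
    have h4 := sq_int_pos (hm χ' (by simp))
    have hs' : (m χ) ^ 2 + (m χ') ^ 2 = 2 := by exact_mod_cast hs
    have h5 : ∃ s : ℤˣ, (s : ℤ) = m χ := by
      rcases int_sq_one (m := m χ) (by omega) with h | h
      · exact ⟨1, by rw [h]; rfl⟩
      · exact ⟨-1, by rw [h]; rfl⟩
    have h6 : ∃ s : ℤˣ, (s : ℤ) = m χ' := by
      rcases int_sq_one (m := m χ') (by omega) with h | h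
      · exact ⟨1, by rw [h]; rfl⟩
      · exact ⟨-1, by rw [h]; rfl⟩
    obtain ⟨s, hs1⟩ := h5
    obtain ⟨s', hs2⟩ := h6
    refine ⟨χ.1, χ'.1, s, s', χ.2, χ'.2, fun h => hne (Subtype.ext h), fun x => ?_⟩
    rw [hx, Finset.sum_pair hne, hs1, hs2]

end Pool.Agent.Helper81.AN
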