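import Pool.Agent.Helper81.AN.VDefs
import Pool.Agent.Helper81.AN.Gen

/-!
# ALT-25: `V` is a generalized character

PROOF. `i = (S, S')`, `q = |S|`, `q' = |S'|`. Expanding `Yf`:
`Phi x * Yf S σ * Yf S' τ = Σ_{α, β} K(α) K'(β) Phi x #{(κ, κ') invariant under (σ, τ), sizes α, β}`, `x.right = (σ, τ)`, the sum over
the (finitely many) pairs `α : Fin q → ℕ`, `β : Fin q' → ℕ` of size functions of colourings. The pair `(κ, κ')` is a colouring of
`Fin v ⊕ Fin r` by `Fin q ⊕ Fin q'` (`Sum.map κ κ'`); the set `CC` of the colourings of this form with sizes `α, β` satisfies the hypotheses of `q_div`, so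
`Phi x #{...} = 2^⌊t/2⌋ φ(x)` with a character `φ` and `t = (q - z) + (q' - z')`, `z`, `z'` the numbers of zeros of `α`, `β`. As `2^z ∣ K(α)`, `2^z' ∣ K'(β)`
(`KK_dvd`) and `⌊(q + q')/2⌋ ≤ z + z' + ⌊(q + q' - z - z')/2⌋`, the coefficient `2^(-⌊(q+q')/2⌋) K(α) K'(β) 2^⌊t/2⌋` is an integer. Use
`IsGen.sum`, `IsGen.zsmul`, `IsGen.of_char`. (Group the colourings: `Σ_κ [inv] K(szc κ) = Σ_α K(α) #{κ inv, szc κ = α}`, `α` in the finite set of values of `szc`.)
-/

set_option autoImplicit false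

open Equiv

namespace Pool.Agent.Helper81.AN

open Pool.Agent.Helper42.INC Pool.Agent.Helper7.MK

/-- a pair of colourings as a colouring of the sum -/
def pcol {a b : ℕ} {v r : ℕ} (p : (Fin v → Fin a) × (Fin r → Fin b)) :
    Fin v ⊕ Fin r → Fin a ⊕ Fin b := Sum.map p.1 p.2

theorem pcol_injective {a b v r : ℕ} :
    Function.Injective (pcol : (Fin v → Fin a) × (Fin r → Fin b) → _) := by
  rintro ⟨κ, κ'⟩ ⟨μ, μ'⟩ h
  apply Prod.ext
  · funext x
    have := congrFun h (Sum.inl x)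
    simpa [pcol] using this
  · funext x
    have := congrFun h (Sum.inr x)
    simpa [pcol] using this

theorem pcol_comp {a b v r : ℕ} (p : (Fin v → Fin a) × (Fin r → Fin b))
    (l : Perm (Fin v) × Perm (Fin r)) :
    (fun i => pcol p (yh v r l i)) = pcol (fun x => p.1 (l.1 x), fun x => p.2 (l.2 x)) := by
  funext i
  rcases i with i | i <;> rfl

theorem szc_comp {ι : Type} [Fintype ι] {k : ℕ} (κ : ι → Fin k) (σ : Perm ι) :
    szc (fun x => κ (σ x)) = szc κ := by
  funext j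
  unfold szc
  refine Finset.card_bij (fun x _ => σ x) ?_ ?_ ?_
  · intro x hx
    rw [Finset.mem_filter] at hx ⊢
    exact ⟨Finset.mem_univ _, hx.2⟩
  · intro x _ y _ h
    exact σ.injective h
  · intro y hy
    rw [Finset.mem_filter] at hy
    refine ⟨σ⁻¹ y, ?_, ?_⟩
    · rw [Finset.mem_filter]
      refine ⟨Finset.mem_univ _, ?_⟩
      change κ (σ (σ⁻¹ y)) = j
      rw [← Perm.mul_apply, mul_inv_cancel, Perm.one_apply]
      exact hy.2
    · rw [← Perm.mul_apply, mul_inv_cancel, Perm.one_apply]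

theorem card_pcol {a b v r : ℕ} (p : (Fin v → Fin a) × (Fin r → Fin b)) (j : Fin a ⊕ Fin b) :
    (Finset.univ.filter (fun i => pcol p i = j)).card = Sum.elim (szc p.1) (szc p.2) j := by
  rcases j with j | j
  · rw [Sum.elim_inl]
    unfold szc
    symm
    refine Finset.card_bij (fun x _ => Sum.inl x) ?_ ?_ ?_
    · intro x hx
      rw [Finset.mem_filter] at hx ⊢
      refine ⟨Finset.mem_univ _, ?_⟩
      change Sum.inl (p.1 x) = Sum.inl j
      rw [hx.2]
    · intro x _ y _ h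
      exact Sum.inl_injective h
    · rintro (y | y) hy
      · rw [Finset.mem_filter] at hy
        refine ⟨y, ?_, rfl⟩
        rw [Finset.mem_filter]
        exact ⟨Finset.mem_univ _, Sum.inl_injective hy.2⟩
      · rw [Finset.mem_filter] at hy
        exact absurd hy.2 (by simp [pcol])
  · rw [Sum.elim_inr]
    unfold szc
    symm
    refine Finset.card_bij (fun x _ => Sum.inr x) ?_ ?_ ?_
    · intro x hx
      rw [Finset.mem_filter] at hx ⊢
      refine ⟨Finset.mem_univ _, ?_⟩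
      change Sum.inr (p.2 x) = Sum.inr j
      rw [hx.2]
    · intro x _ y _ h
      exact Sum.inr_injective h
    · rintro (y | y) hy
      · rw [Finset.mem_filter] at hy
        exact absurd hy.2 (by simp [pcol])
      · rw [Finset.mem_filter] at hy
        refine ⟨y, ?_, rfl⟩
        rw [Finset.mem_filter]
        exact ⟨Finset.mem_univ _, Sum.inr_injective hy.2⟩

/-- invariance of a pair of colourings -/
def pinv {a b v r : ℕ} (l : Perm (Fin v) × Perm (Fin r))
    (p : (Fin v → Fin a) × (Fin r → Fin b)) : Prop :=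
  (∀ x, p.1 (l.1 x) = p.1 x) ∧ ∀ x, p.2 (l.2 x) = p.2 x

theorem pair_div (a b v r : ℕ) (t : (Fin a → ℕ) × (Fin b → ℕ)) :
    ∃ φ : BP (yh v r) → ℂ, IsChar φ ∧ ∀ x : BP (yh v r),
      Phi (yh v r) x * Nat.card {p : (Fin v → Fin a) × (Fin r → Fin b) //
        (szc p.1, szc p.2) = t ∧ pinv x.right p} =
        2 ^ ((Finset.univ.filter (fun j => (Sum.elim t.1 t.2 : Fin a ⊕ Fin b → ℕ) j ≠ 0)).card / 2)
          * φ x := by
  obtain ⟨φ, hφ, h⟩ := q_div (yh v r) (Fin a ⊕ Fin b)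
    {c | ∃ p : (Fin v → Fin a) × (Fin r → Fin b), (szc p.1, szc p.2) = t ∧ c = pcol p}
    (Sum.elim t.1 t.2) (by
      rintro _ ⟨p, hp, rfl⟩ l
      refine ⟨(fun x => p.1 (l.1 x), fun x => p.2 (l.2 x)), ?_, pcol_comp p l⟩
      rw [← hp]
      exact Prod.ext (szc_comp p.1 l.1) (szc_comp p.2 l.2)) (by
      rintro _ ⟨p, hp, rfl⟩ j
      rw [card_pcol, ← hp])
  refine ⟨φ, hφ, fun x => ?_⟩
  rw [← h x]
  congr 2
  refine Nat.card_congr (Equiv.ofBijective (fun p => ⟨pcol p.1, ⟨p.1, p.2.1, rfl⟩, ?_⟩) ⟨?_, ?_⟩)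
  · rintro (i | i)
    · change Sum.inl (p.1.1 (x.right.1 i)) = Sum.inl (p.1.1 i)
      rw [p.2.2.1]
    · change Sum.inr (p.1.2 (x.right.2 i)) = Sum.inr (p.1.2 i)
      rw [p.2.2.2]
  · intro p p' h
    exact Subtype.ext (pcol_injective (congrArg Subtype.val h))
  · rintro ⟨_, ⟨p, hp, rfl⟩, hinv⟩
    refine ⟨⟨p, hp, fun i => ?_, fun i => ?_⟩, rfl⟩
    · exact Sum.inl_injective (hinv (Sum.inl i))
    · exact Sum.inr_injective (hinv (Sum.inr i))

open Classical in
theorem Yf_prod {v r : ℕ} (S S' : Finset ℕ) (hS : 0 ∉ S) (hS' : 0 ∉ S')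
    (l : Perm (Fin v) × Perm (Fin r)) :
    Yf S hS l.1 * Yf S' hS' l.2 =
      ∑ t ∈ (Finset.univ : Finset ((Fin v → Fin S.card) × (Fin r → Fin S'.card))).image
          (fun p => (szc p.1, szc p.2)),
        KK S hS t.1 * KK S' hS' t.2 *
          (Nat.card {p : (Fin v → Fin S.card) × (Fin r → Fin S'.card) //
            (szc p.1, szc p.2) = t ∧ pinv l p} : ℤ) := by
  have h1 : Yf S hS l.1 * Yf S' hS' l.2 =
      ∑ p : (Fin v → Fin S.card) × (Fin r → Fin S'.card),
        if pinv l p then KK S hS (szc p.1) * KK S' hS' (szc p.2) else 0 := by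
    rw [Fintype.sum_prod_type]
    unfold Yf
    rw [Finset.sum_mul_sum]
    refine Finset.sum_congr rfl fun κ _ => Finset.sum_congr rfl fun κ' _ => ?_
    by_cases h2 : ∀ x, κ (l.1 x) = κ x
    · by_cases h3 : ∀ x, κ' (l.2 x) = κ' x
      · rw [if_pos h2, if_pos h3, if_pos ⟨h2, h3⟩]
      · have h4 : ¬ pinv l (κ, κ') := fun h => h3 h.2
        rw [if_neg h3, if_neg h4, mul_zero]
    · have h4 : ¬ pinv l (κ, κ') := fun h => h2 h.1
      rw [if_neg h2, if_neg h4, zero_mul]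
  rw [h1]
  rw [← Finset.sum_fiberwise_of_maps_to
    (g := fun p : (Fin v → Fin S.card) × (Fin r → Fin S'.card) => (szc p.1, szc p.2))
    (fun p hp => Finset.mem_image_of_mem _ hp)]
  refine Finset.sum_congr rfl fun t _ => ?_
  have h2 : ∀ p ∈ Finset.univ.filter
      (fun p : (Fin v → Fin S.card) × (Fin r → Fin S'.card) => (szc p.1, szc p.2) = t),
      (if pinv l p then KK S hS (szc p.1) * KK S' hS' (szc p.2) else 0) =
        if pinv l p then KK S hS t.1 * KK S' hS' t.2 else 0 := by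
    intro p hp
    rw [Finset.mem_filter] at hp
    rw [← hp.2]
  rw [Finset.sum_congr rfl h2, ← Finset.sum_filter, Finset.sum_const, nsmul_eq_mul,
    Finset.filter_filter, mul_comm]
  congr 2
  rw [Nat.card_eq_fintype_card, Fintype.card_subtype]

theorem coef_int (S S' : Finset ℕ) (hS : 0 ∉ S) (hS' : 0 ∉ S')
    (t : (Fin S.card → ℕ) × (Fin S'.card → ℕ)) :
    ∃ m : ℤ, KK S hS t.1 * KK S' hS' t.2 *
      2 ^ ((Finset.univ.filter
        (fun j => (Sum.elim t.1 t.2 : Fin S.card ⊕ Fin S'.card → ℕ) j ≠ 0)).card / 2) =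
        2 ^ ((S.card + S'.card) / 2) * m := by
  obtain ⟨a, ha⟩ := KK_dvd S hS t.1
  obtain ⟨b, hb⟩ := KK_dvd S' hS' t.2
  set z := (Finset.univ.filter (fun j => t.1 j = 0)).card with hz
  set z' := (Finset.univ.filter (fun j => t.2 j = 0)).card with hz'
  have e1 : (Finset.univ.filter
      (fun j => (Sum.elim t.1 t.2 : Fin S.card ⊕ Fin S'.card → ℕ) j ≠ 0)).card + (z + z') =
      S.card + S'.card := by
    have h1 : (Finset.univ.filter
      (fun j => (Sum.elim t.1 t.2 : Fin S.card ⊕ Fin S'.card → ℕ) j = 0)).card = z + z' := by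
      rw [← Fintype.card_subtype]
      rw [Fintype.card_congr (Equiv.subtypeSum (p := fun j =>
        (Sum.elim t.1 t.2 : Fin S.card ⊕ Fin S'.card → ℕ) j = 0)), Fintype.card_sum,
        Fintype.card_subtype, Fintype.card_subtype]
      rfl
    rw [← h1, add_comm, Finset.card_filter_add_card_filter_not]
    rw [Finset.card_univ, Fintype.card_sum, Fintype.card_fin, Fintype.card_fin]
  set n := (Finset.univ.filter
      (fun j => (Sum.elim t.1 t.2 : Fin S.card ⊕ Fin S'.card → ℕ) j ≠ 0)).card with hn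
  have e2 : (S.card + S'.card) / 2 ≤ z + z' + n / 2 := by omega
  obtain ⟨d, hd⟩ := Nat.exists_eq_add_of_le e2
  refine ⟨2 ^ d * (a * b), ?_⟩
  calc KK S hS t.1 * KK S' hS' t.2 * 2 ^ (n / 2) = 2 ^ (z + z' + n / 2) * (a * b) := by
        rw [ha, hb, pow_add, pow_add]; ring
    _ = 2 ^ ((S.card + S'.card) / 2) * (2 ^ d * (a * b)) := by rw [hd, pow_add]; ring

theorem VV_gen {v r : ℕ} (i : II v r) : IsGen (VV i) := by
  classical
  obtain ⟨⟨S, hS⟩, ⟨S', hS'⟩⟩ := i
  choose φ hφ hx using fun t => pair_div S.card S'.card v r t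
  choose m hm using fun t => coef_int S S' hS.1 hS'.1 t
  have key : VV (⟨⟨S, hS⟩, ⟨S', hS'⟩⟩ : II v r) = fun x =>
      ∑ t ∈ (Finset.univ : Finset ((Fin v → Fin S.card) × (Fin r → Fin S'.card))).image
          (fun p => (szc p.1, szc p.2)), (m t : ℂ) * φ t x := by
    funext x
    change ((2 : ℂ) ^ ((S.card + S'.card) / 2))⁻¹ * (Phi (yh v r) x *
      ((Yf S hS.1 x.right.1 : ℤ) : ℂ) * ((Yf S' hS'.1 x.right.2 : ℤ) : ℂ)) = _
    have h1 := congrArg (Int.cast : ℤ → ℂ) (Yf_prod S S' hS.1 hS'.1 x.right)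
    rw [Int.cast_mul, Int.cast_sum] at h1
    rw [mul_assoc (Phi (yh v r) x), h1, Finset.mul_sum, Finset.mul_sum]
    refine Finset.sum_congr rfl fun t _ => ?_
    have h2 := hx t x
    have h3 := congrArg (Int.cast : ℤ → ℂ) (hm t)
    push_cast at h3
    push_cast
    have h4 : ((2 : ℂ) ^ ((S.card + S'.card) / 2)) ≠ 0 := pow_ne_zero _ two_ne_zero
    calc ((2 : ℂ) ^ ((S.card + S'.card) / 2))⁻¹ * (Phi (yh v r) x *
          (((KK S hS.1 t.1 : ℤ) : ℂ) * ((KK S' hS'.1 t.2 : ℤ) : ℂ) *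
            (Nat.card {p : (Fin v → Fin S.card) × (Fin r → Fin S'.card) //
              (szc p.1, szc p.2) = t ∧ pinv x.right p} : ℂ)))
        = ((2 : ℂ) ^ ((S.card + S'.card) / 2))⁻¹ *
          (((KK S hS.1 t.1 : ℤ) : ℂ) * ((KK S' hS'.1 t.2 : ℤ) : ℂ) * (Phi (yh v r) x *
            (Nat.card {p : (Fin v → Fin S.card) × (Fin r → Fin S'.card) //
              (szc p.1, szc p.2) = t ∧ pinv x.right p} : ℂ))) := by ring
      _ = ((2 : ℂ) ^ ((S.card + S'.card) / 2))⁻¹ *
          ((((KK S hS.1 t.1 : ℤ) : ℂ) * ((KK S' hS'.1 t.2 : ℤ) : ℂ) *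
            2 ^ ((Finset.univ.filter
              (fun j => (Sum.elim t.1 t.2 : Fin S.card ⊕ Fin S'.card → ℕ) j ≠ 0)).card / 2)) *
                φ t x) := by rw [h2]; ring
      _ = (m t : ℂ) * φ t x := by
        rw [h3]
        field_simp
  rw [key]
  exact IsGen.sum _ _ fun t _ => (IsGen.of_char (hφ t)).zsmul (m t)

end Pool.Agent.Helper81.AN
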