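import Pool.Agent.Helper81.AN.Rot

/-!
# ALT-08: odd elements which are not conjugate to their product with `z`

`L` a group of permutations of `ι` which contains with every element its cycles. Let `g ∈ L` be such
that every element of `L` which commutes with `g` maps every point `i` into the cycle of `i` (for `L = S_v × S_r`: the
cycle lengths in each factor are distinct), and let `c ∈ Cl ι` be such that its support has an
odd number of points in every cycle, and `c` is odd (so the number of cycles is odd). Then
`x = c g` is not conjugate to `z x`.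

PROOF. Let `C = {y ∈ X : y x y⁻¹ ∈ {x, z x}}`, a subgroup, and `δ : C → {1, z}` the homomorphism `y x y⁻¹ = δ(y) x` (`z` is
central). Let `y = b g' ∈ C`. Then `g'` commutes with `g`. On each cycle `O` of `σ = h0 g` the permutation `h0 g'` acts as
a power `σ^(k_O)` (it commutes with `σ` and maps `O` to itself). Let `σ_O ∈ L` be the cycle of `σ` on `O` (`hcyc`), `c_O` with support
`A ∩ O`, `A = supp c`, `x_O = c_O σ_O`. As in ALT-06, `x = ± ∏ x_O` and `x_O x x_O⁻¹ = z^(|A ∩ O| (|A| - |A ∩ O|)) x = x`, because `|A|`
is odd and `|A ∩ O|` is odd. So `x_O ∈ C`, `δ(x_O) = 1`. Multiplying `y` by suitable powers of the `x_O` we may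
assume `g' = 1`, `y = b ∈ Cl ι` with support `B`. As `b x b⁻¹ = b c (pact σ b)⁻¹ g` must be `x` or `z x`, `B + σ B = 0`: `B` is
a union of cycles. It is enough to compute `δ(b)` for `B = O` one cycle (`δ` is multiplicative, and `δ(z) = 1`): let `k = |O|`. Then
`pact σ b = z^(k-1) b` (`pact_cycle`), `b c b⁻¹ = z^(|O||A| - |A ∩ O|) c = z^(k - 1) c` (`comm_eq`; `|A|` and `|A ∩ O|` odd), so
`b x b⁻¹ = b c b⁻¹ * b (pact σ b)⁻¹ * g = z^(k-1) c z^(k-1) g = x`. Hence `δ = 1`.
-/

set_option autoImplicit false

open Equiv

namespace Pool.Agent.Helper81.AN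

open Pool.Agent.Helper42.INC

variable {ι : Type} [Fintype ι] [DecidableEq ι] {L : Type} [Group L] [Finite L] (h0 : L →* Perm ι)

private theorem sp_mul (g h : Cl ι) (i : ι) :
    Multiplicative.toAdd (Cl.supp (g * h)) i =
      Multiplicative.toAdd (Cl.supp g) i + Multiplicative.toAdd (Cl.supp h) i := by
  rw [map_mul, toAdd_mul, Pi.add_apply]

private theorem z2_self (a : ZMod 2) : a + a = 0 := CharTwo.add_self_eq_zero a

private theorem z2_ne {a : ZMod 2} (h : a ≠ 0) : a = 1 := by
  revert h
  revert a
  decide

private theorem sp_inv (g : Cl ι) (i : ι) :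
    Multiplicative.toAdd (Cl.supp g⁻¹) i = Multiplicative.toAdd (Cl.supp g) i := by
  rw [map_inv, toAdd_inv, Pi.neg_apply]
  exact ZMod.neg_eq_self_mod_two _

private theorem sp_zero (g : Cl ι) (h : ∀ i, Multiplicative.toAdd (Cl.supp g) i = 0) :
    g = 1 ∨ g = Cl.z := by
  apply Cl.ker_supp
  apply Multiplicative.toAdd.injective
  funext i
  rw [h i]
  rfl

private theorem exists_sp (B : ι → ZMod 2) :
    ∃ b : Cl ι, ∀ i, Multiplicative.toAdd (Cl.supp b) i = B i := by
  obtain ⟨b, hb⟩ := Cl.supp_surjective (Multiplicative.ofAdd B)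
  exact ⟨b, fun i => by rw [hb]; rfl⟩

/-- a permutation which fixes the support pointwise fixes the element -/
private theorem pact_fix_aux (σ : Perm ι) : ∀ (n : ℕ) (g : Cl ι),
    (Finset.univ.filter (fun i => Multiplicative.toAdd (Cl.supp g) i ≠ 0)).card ≤ n →
    (∀ i, Multiplicative.toAdd (Cl.supp g) i ≠ 0 → σ i = i) → pact σ g = g := by
  intro n
  induction n with
  | zero =>
    intro g hn _
    have h0 : ∀ i, Multiplicative.toAdd (Cl.supp g) i = 0 := by
      intro i
      by_contra hi
      have : i ∈ Finset.univ.filter (fun i => Multiplicative.toAdd (Cl.supp g) i ≠ 0) := by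
        simp [hi]
      rw [Finset.card_eq_zero.1 (Nat.le_zero.1 hn)] at this
      simp at this
    rcases sp_zero g h0 with rfl | rfl
    · exact map_one _
    · exact pact_z σ
  | succ n ih =>
    intro g hn hf
    by_cases hex : ∃ i, Multiplicative.toAdd (Cl.supp g) i ≠ 0
    · obtain ⟨i, hi⟩ := hex
      have hsp : ∀ j, Multiplicative.toAdd (Cl.supp (Cl.a i * g)) j =
          (Pi.single i 1 : ι → ZMod 2) j + Multiplicative.toAdd (Cl.supp g) j := by
        intro j
        rw [sp_mul, Cl.supp_a]
        rfl
      have hsub : Finset.univ.filter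
          (fun j => Multiplicative.toAdd (Cl.supp (Cl.a i * g)) j ≠ 0) ⊆
          (Finset.univ.filter (fun j => Multiplicative.toAdd (Cl.supp g) j ≠ 0)).erase i := by
        intro j hj
        rw [Finset.mem_filter] at hj
        rw [Finset.mem_erase, Finset.mem_filter]
        have hj2 := hj.2
        rw [hsp] at hj2
        by_cases hji : j = i
        · subst hji
          exfalso
          apply hj2
          rw [Pi.single_eq_same, z2_ne hi]
          decide
        · rw [Pi.single_eq_of_ne hji, zero_add] at hj2
          exact ⟨hji, Finset.mem_univ _, hj2⟩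
      have hmem : i ∈ Finset.univ.filter
          (fun j => Multiplicative.toAdd (Cl.supp g) j ≠ 0) := by
        simp [hi]
      have h1 := Finset.card_le_card hsub
      rw [Finset.card_erase_of_mem hmem] at h1
      have h2 := ih (Cl.a i * g) (by omega) (by
        intro j hj
        have := hsub (Finset.mem_filter.2 ⟨Finset.mem_univ _, hj⟩)
        rw [Finset.mem_erase, Finset.mem_filter] at this
        exact hf j this.2.2)
      rw [map_mul, pact_a, hf i hi] at h2
      exact mul_left_cancel h2
    · push Not at hex
      rcases sp_zero g hex with rfl | rfl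
      · exact map_one _
      · exact pact_z σ

private theorem pact_fix (σ : Perm ι) (g : Cl ι)
    (h : ∀ i, Multiplicative.toAdd (Cl.supp g) i ≠ 0 → σ i = i) : pact σ g = g :=
  pact_fix_aux σ _ g le_rfl h

private theorem pact_agree (σ τ : Perm ι) (g : Cl ι)
    (h : ∀ i, Multiplicative.toAdd (Cl.supp g) i ≠ 0 → σ i = τ i) : pact σ g = pact τ g := by
  have h1 : pact (τ⁻¹ * σ) g = g := by
    apply pact_fix
    intro i hi
    rw [Perm.mul_apply, h i hi]
    exact τ.symm_apply_apply i
  have h2 : σ = τ * (τ⁻¹ * σ) := by group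
  rw [h2, pact_mul, h1]

private theorem zp_zero : (Cl.zp 0 : Cl ι) = 1 := if_pos rfl

/-- the action on elements with invariant support -/
private theorem pact_invt (σ : Perm ι) (A : ι → ZMod 2)
    (hA : ∀ i, ∑ y, (if σ.SameCycle i y then A y else 0) = 1) : ∀ (n : ℕ) (b : Cl ι),
    (Finset.univ.filter (fun i => Multiplicative.toAdd (Cl.supp b) i ≠ 0)).card ≤ n →
    (∀ i, Multiplicative.toAdd (Cl.supp b) (σ i) = Multiplicative.toAdd (Cl.supp b) i) →
    pact σ b = Cl.zp (∑ i, Multiplicative.toAdd (Cl.supp b) i +
      ∑ i, Multiplicative.toAdd (Cl.supp b) i * A i) * b := by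
  have hbase : ∀ b : Cl ι, (∀ i, Multiplicative.toAdd (Cl.supp b) i = 0) →
      pact σ b = Cl.zp (∑ i, Multiplicative.toAdd (Cl.supp b) i +
      ∑ i, Multiplicative.toAdd (Cl.supp b) i * A i) * b := by
    intro b h0
    have h1 : (∑ i, Multiplicative.toAdd (Cl.supp b) i +
      ∑ i, Multiplicative.toAdd (Cl.supp b) i * A i) = 0 := by
      rw [Finset.sum_eq_zero (fun i _ => h0 i), Finset.sum_eq_zero
        (fun i _ => by rw [h0 i, zero_mul]), add_zero]
    rw [h1, zp_zero, one_mul]
    rcases sp_zero b h0 with rfl | rfl
    · exact map_one _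
    · exact pact_z σ
  intro n
  induction n with
  | zero =>
    intro b hn _
    apply hbase
    intro i
    by_contra hi
    have : i ∈ Finset.univ.filter (fun i => Multiplicative.toAdd (Cl.supp b) i ≠ 0) := by
      simp [hi]
    rw [Finset.card_eq_zero.1 (Nat.le_zero.1 hn)] at this
    simp at this
  | succ n ih =>
    intro b hn hinv
    by_cases hex : ∃ i, Multiplicative.toAdd (Cl.supp b) i ≠ 0
    · obtain ⟨i, hi⟩ := hex
      have hconst : ∀ j, σ.SameCycle i j → Multiplicative.toAdd (Cl.supp b) j =
          Multiplicative.toAdd (Cl.supp b) i := by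
        have hz : ∀ (k : ℤ) (j : ι), Multiplicative.toAdd (Cl.supp b) ((σ ^ k) j) =
            Multiplicative.toAdd (Cl.supp b) j := by
          intro k
          induction k using Int.induction_on with
          | zero => intro j; simp
          | succ k ihk =>
            intro j
            rw [zpow_add_one, Perm.mul_apply, ihk, hinv]
          | pred k ihk =>
            intro j
            rw [zpow_sub_one, Perm.mul_apply, ihk, ← hinv (σ⁻¹ j)]
            exact congrArg _ (σ.apply_symm_apply j)
        rintro j ⟨k, rfl⟩
        exact hz k i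
      obtain ⟨bO, hbO⟩ := exists_sp (fun y => if σ.SameCycle i y then (1 : ZMod 2) else 0)
      have hsp : ∀ j, Multiplicative.toAdd (Cl.supp (bO⁻¹ * b)) j =
          (if σ.SameCycle i j then (1 : ZMod 2) else 0) + Multiplicative.toAdd (Cl.supp b) j := by
        intro j
        rw [sp_mul, sp_inv, hbO]
      have hsub : Finset.univ.filter
          (fun j => Multiplicative.toAdd (Cl.supp (bO⁻¹ * b)) j ≠ 0) ⊆
          (Finset.univ.filter (fun j => Multiplicative.toAdd (Cl.supp b) j ≠ 0)).erase i := by
        intro j hj
        rw [Finset.mem_filter] at hj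
        rw [Finset.mem_erase, Finset.mem_filter]
        have hj2 := hj.2
        rw [hsp] at hj2
        by_cases hji : σ.SameCycle i j
        · exfalso
          apply hj2
          rw [if_pos hji, hconst j hji, z2_ne hi]
          decide
        · rw [if_neg hji, zero_add] at hj2
          refine ⟨?_, Finset.mem_univ _, hj2⟩
          rintro rfl
          exact hji (Perm.SameCycle.refl _ _)
      have hmem : i ∈ Finset.univ.filter
          (fun j => Multiplicative.toAdd (Cl.supp b) j ≠ 0) := by
        simp [hi]
      have h1 := Finset.card_le_card hsub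
      rw [Finset.card_erase_of_mem hmem] at h1
      have h2 := ih (bO⁻¹ * b) (by omega) (by
        intro j
        rw [hsp, hsp, hinv]
        congr 1
        have : σ.SameCycle i (σ j) ↔ σ.SameCycle i j := Perm.sameCycle_apply_right
        simp only [this])
      have h3 := pact_cycle σ i bO hbO
      have hb : b = bO * (bO⁻¹ * b) := by group
      have hlen : ((cyLen σ i - 1 : ℕ) : ZMod 2) = ∑ j, Multiplicative.toAdd (Cl.supp bO) j +
          ∑ j, Multiplicative.toAdd (Cl.supp bO) j * A j := by
        have e1 : ∑ j, Multiplicative.toAdd (Cl.supp bO) j = ((cyLen σ i : ℕ) : ZMod 2) := by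
          rw [Finset.sum_congr rfl (fun j _ => hbO j), Finset.sum_boole, cyLen,
            Nat.card_eq_fintype_card, Fintype.card_subtype]
        have e2 : ∑ j, Multiplicative.toAdd (Cl.supp bO) j * A j = 1 := by
          rw [← hA i]
          apply Finset.sum_congr rfl
          intro j _
          rw [hbO j]
          split_ifs <;> simp
        have e3 : 0 < cyLen σ i := by
          unfold cyLen
          have : Nonempty {y : ι // σ.SameCycle i y} := ⟨⟨i, Perm.SameCycle.refl _ _⟩⟩
          exact Nat.card_pos
        obtain ⟨m, hm⟩ := Nat.exists_eq_succ_of_ne_zero e3.ne'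
        rw [e1, e2, hm]
        simp only [Nat.succ_eq_add_one, Nat.add_sub_cancel, Nat.cast_add, Nat.cast_one]
        rw [add_assoc, z2_self, add_zero]
      have h4 : ∀ j, Multiplicative.toAdd (Cl.supp b) j = Multiplicative.toAdd (Cl.supp bO) j +
          Multiplicative.toAdd (Cl.supp (bO⁻¹ * b)) j := by
        intro j
        conv_lhs => rw [hb]
        rw [sp_mul]
      have h5 : (∑ j, Multiplicative.toAdd (Cl.supp b) j +
          ∑ j, Multiplicative.toAdd (Cl.supp b) j * A j) =
          (∑ j, Multiplicative.toAdd (Cl.supp bO) j +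
            ∑ j, Multiplicative.toAdd (Cl.supp bO) j * A j) +
          (∑ j, Multiplicative.toAdd (Cl.supp (bO⁻¹ * b)) j +
            ∑ j, Multiplicative.toAdd (Cl.supp (bO⁻¹ * b)) j * A j) := by
        simp only [h4, add_mul, Finset.sum_add_distrib]
        ring
      rw [h5, Cl.zp_add, ← hlen]
      generalize (∑ j, Multiplicative.toAdd (Cl.supp (bO⁻¹ * b)) j +
            ∑ j, Multiplicative.toAdd (Cl.supp (bO⁻¹ * b)) j * A j) = e2 at h2
      conv_lhs => rw [hb, map_mul, h2, h3]
      rw [mul_assoc, mul_assoc]
      congr 1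
      rw [← mul_assoc, ← Cl.zp_comm, mul_assoc, ← hb]
    · push Not at hex
      exact hbase b hex

private theorem l_zp_comm (e : ZMod 2) (y : BP h0) :
    BP.l h0 (Cl.zp e) * y = y * BP.l h0 (Cl.zp e) := by
  rw [BP.eq h0 y, ← mul_assoc, ← map_mul, Cl.zp_comm, map_mul, mul_assoc, mul_assoc,
    BP.r_mul_l, pact_zp]

private theorem key (hinj : Function.Injective h0)
    (hcyc : ∀ g : L, ∀ c ∈ (h0 g).cycleFactorsFinset, c ∈ h0.range)
    (g : L) (hg : ∀ g' : L, g' * g = g * g' → ∀ i, (h0 g).SameCycle i (h0 g' i))
    (c : Cl ι) (hc : ∑ i, Multiplicative.toAdd (Cl.supp c) i = 1)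
    (hA : ∀ i, ∑ y, (if (h0 g).SameCycle i y then Multiplicative.toAdd (Cl.supp c) y else 0) = 1)
    (e : ZMod 2) : ∀ (n : ℕ) (y : BP h0), (h0 y.right).support.card ≤ n →
    y * (BP.l h0 c * BP.r h0 g) = BP.l h0 (Cl.zp e) * ((BP.l h0 c * BP.r h0 g) * y) → e = 0 := by
  have hr : ∀ y : BP h0, y * (BP.l h0 c * BP.r h0 g) =
      BP.l h0 (Cl.zp e) * ((BP.l h0 c * BP.r h0 g) * y) → y.right * g = g * y.right := by
    intro y hy
    have := congrArg SemidirectProduct.right hy
    simpa [BP.l, BP.r] using this
  have hbase : ∀ y : BP h0, h0 y.right = 1 → y * (BP.l h0 c * BP.r h0 g) =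
      BP.l h0 (Cl.zp e) * ((BP.l h0 c * BP.r h0 g) * y) → e = 0 := by
    intro y h1 hy
    have h2 : y.right = 1 := hinj (by rw [h1, map_one])
    have h3 : y = BP.l h0 y.left := by
      conv_lhs => rw [BP.eq h0 y, h2, map_one, mul_one]
    rw [h3, ← mul_assoc, ← map_mul, mul_assoc, BP.r_mul_l, ← mul_assoc, ← map_mul, ← mul_assoc,
      ← map_mul] at hy
    have h4 : y.left * c = Cl.zp e * (c * pact (h0 g) y.left) := by
      have := mul_right_cancel hy
      rw [← mul_assoc]
      exact SemidirectProduct.inl_injective this
    have h5 : ∀ i, Multiplicative.toAdd (Cl.supp y.left) (h0 g i) =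
        Multiplicative.toAdd (Cl.supp y.left) i := by
      intro i
      have h6 := congrArg (fun u => Multiplicative.toAdd (Cl.supp u) (h0 g i)) h4
      simp only [sp_mul, supp_pact] at h6
      have h7 : Multiplicative.toAdd (Cl.supp (Cl.zp e : Cl ι)) (h0 g i) = 0 := by
        unfold Cl.zp
        split_ifs
        · rw [map_one]; rfl
        · rw [Cl.supp_z]; rfl
      rw [h7, zero_add, add_comm] at h6
      exact add_left_cancel h6
    have h8 := pact_invt (h0 g) _ hA _ y.left le_rfl h5
    have h9 := Cl.comm_eq y.left c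
    rw [hc, mul_one] at h9
    rw [h9, h8] at h4
    set f := (∑ i, Multiplicative.toAdd (Cl.supp y.left) i +
      ∑ i, Multiplicative.toAdd (Cl.supp y.left) i * Multiplicative.toAdd (Cl.supp c) i) with hf
    rw [← mul_assoc c, ← Cl.zp_comm f c, mul_assoc, ← mul_assoc (Cl.zp e), ← Cl.zp_add] at h4
    have h10 := Cl.zp_inj (mul_right_cancel h4)
    exact (left_eq_add.1 (h10.trans (add_comm _ _)))
  intro n
  induction n with
  | zero =>
    intro y hn hy
    refine hbase y ?_ hy
    rw [← Perm.support_eq_empty_iff]
    exact Finset.card_eq_zero.1 (Nat.le_zero.1 hn)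
  | succ n ih =>
    intro y hn hy
    by_cases h1 : h0 y.right = 1
    · exact hbase y h1 hy
    · obtain ⟨i, hi⟩ : ∃ i, h0 y.right i ≠ i := by
        by_contra hcon
        push Not at hcon
        exact h1 (Perm.ext hcon)
      have hcm := hr y hy
      obtain ⟨k, hk⟩ := hg y.right hcm i
      have hsi : h0 g i ≠ i := by
        intro hfix
        apply hi
        rw [← hk]
        exact Perm.zpow_apply_eq_self_of_apply_eq_self hfix k
      obtain ⟨gO, hgO⟩ := hcyc g (Perm.cycleOf (h0 g) i)
        (Perm.cycleOf_mem_cycleFactorsFinset_iff.2 (Perm.mem_support.2 hsi))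
      obtain ⟨cO, hcO⟩ := exists_sp (fun y => if (h0 g).SameCycle i y then
        Multiplicative.toAdd (Cl.supp c) y else 0)
      have hc' : ∀ j, Multiplicative.toAdd (Cl.supp (cO⁻¹ * c)) j =
          if (h0 g).SameCycle i j then 0 else Multiplicative.toAdd (Cl.supp c) j := by
        intro j
        rw [sp_mul, sp_inv, hcO]
        split_ifs
        · exact z2_self _
        · exact zero_add _
      have hgOg : gO * g = g * gO := by
        apply hinj
        rw [map_mul, map_mul, hgO]
        exact (Perm.self_mem_cycle_factors_commute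
          (Perm.cycleOf_mem_cycleFactorsFinset_iff.2 (Perm.mem_support.2 hsi))).eq
      have hO1 : pact (h0 gO) (cO⁻¹ * c) = cO⁻¹ * c := by
        apply pact_fix
        intro j hj
        rw [hc'] at hj
        rw [hgO]
        apply Perm.cycleOf_apply_of_not_sameCycle
        intro hs
        rw [if_pos hs] at hj
        exact hj rfl
      have hO2 : pact (h0 gO) cO = pact (h0 g) cO := by
        apply pact_agree
        intro j hj
        rw [hcO] at hj
        rw [hgO]
        apply Perm.SameCycle.cycleOf_apply
        by_contra hs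
        rw [if_neg hs] at hj
        exact hj rfl
      have hO3 : (cO⁻¹ * c) * pact (h0 g) cO = pact (h0 g) cO * (cO⁻¹ * c) := by
        have h2 := Cl.comm_eq (cO⁻¹ * c) (pact (h0 g) cO)
        have h3 : ∑ j, Multiplicative.toAdd (Cl.supp (cO⁻¹ * c)) j = 0 := by
          have h4 : ∑ j, Multiplicative.toAdd (Cl.supp (cO⁻¹ * c)) j +
              ∑ j, (if (h0 g).SameCycle i j then Multiplicative.toAdd (Cl.supp c) j else 0) =
              ∑ j, Multiplicative.toAdd (Cl.supp c) j := by
            rw [← Finset.sum_add_distrib]
            apply Finset.sum_congr rfl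
            intro j _
            rw [hc' j]
            split_ifs
            · exact zero_add _
            · exact add_zero _
          rw [hA i, hc] at h4
          exact add_eq_right.1 h4
        have h5 : ∑ j, Multiplicative.toAdd (Cl.supp (cO⁻¹ * c)) j *
            Multiplicative.toAdd (Cl.supp (pact (h0 g) cO)) j = 0 := by
          apply Finset.sum_eq_zero
          intro j _
          have h6 : Multiplicative.toAdd (Cl.supp (pact (h0 g) cO)) j =
              Multiplicative.toAdd (Cl.supp cO) ((h0 g)⁻¹ j) := by
            rw [← supp_pact (h0 g) cO]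
            exact congrArg _ ((h0 g).apply_symm_apply j).symm
          rw [h6, hc', hcO]
          have h7 : (h0 g).SameCycle i ((h0 g)⁻¹ j) ↔ (h0 g).SameCycle i j :=
            Perm.sameCycle_symm_apply_right
          by_cases hs : (h0 g).SameCycle i j
          · rw [if_pos hs, zero_mul]
          · rw [if_neg (fun h => hs (h7.1 h)), mul_zero]
        rw [h3, h5, zero_mul, add_zero, zp_zero, one_mul] at h2
        exact h2
      have hCom : Commute (BP.l h0 cO * BP.r h0 gO) (BP.l h0 c * BP.r h0 g) := by
        have h2 : cO * pact (h0 gO) c = c * pact (h0 g) cO := by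
          have h3 : c = cO * (cO⁻¹ * c) := by group
          conv_lhs => rw [h3, map_mul, hO1, hO2, ← hO3]
          rw [← mul_assoc, ← h3]
        change BP.l h0 cO * BP.r h0 gO * (BP.l h0 c * BP.r h0 g) =
          (BP.l h0 c * BP.r h0 g) * (BP.l h0 cO * BP.r h0 gO)
        calc BP.l h0 cO * BP.r h0 gO * (BP.l h0 c * BP.r h0 g)
            = BP.l h0 cO * (BP.r h0 gO * BP.l h0 c) * BP.r h0 g := by
              simp only [mul_assoc]
          _ = BP.l h0 (cO * pact (h0 gO) c) * BP.r h0 (gO * g) := by
              rw [BP.r_mul_l, map_mul, map_mul]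
              simp only [mul_assoc]
          _ = BP.l h0 (c * pact (h0 g) cO) * BP.r h0 (g * gO) := by rw [h2, hgOg]
          _ = BP.l h0 c * (BP.r h0 g * BP.l h0 cO) * BP.r h0 gO := by
              rw [BP.r_mul_l, map_mul, map_mul]
              simp only [mul_assoc]
          _ = _ := by simp only [mul_assoc]
      have hCk := hCom.zpow_left (-k)
      refine ih ((BP.l h0 cO * BP.r h0 gO) ^ (-k) * y) ?_ ?_
      · have hright : h0 ((BP.l h0 cO * BP.r h0 gO) ^ (-k) * y).right =
            (Perm.cycleOf (h0 g) i) ^ (-k) * h0 y.right := by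
          have h2 : ((BP.l h0 cO * BP.r h0 gO) ^ (-k) * y).right = gO ^ (-k) * y.right := by
            have h3 := map_zpow (SemidirectProduct.rightHom :
              BP h0 →* L) (BP.l h0 cO * BP.r h0 gO) (-k)
            have h4 : (SemidirectProduct.rightHom : BP h0 →* L) (BP.l h0 cO * BP.r h0 gO) =
                gO := by
              simp [BP.l, BP.r]
            rw [h4] at h3
            rw [SemidirectProduct.mul_right]
            exact congrArg (· * y.right) h3
          rw [h2, map_mul, map_zpow, hgO]
        rw [hright]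
        have hlt : (((Perm.cycleOf (h0 g) i) ^ (-k) * h0 y.right : Perm ι)).support ⊆
            (h0 y.right).support.erase i := by
          intro j hj
          rw [Perm.mem_support, Perm.mul_apply] at hj
          rw [Finset.mem_erase, Perm.mem_support]
          constructor
          · rintro rfl
            apply hj
            have h2 := Perm.cycleOf_zpow_apply_self (h0 g) j k
            rw [← hk, ← h2, zpow_neg]
            exact (((h0 g).cycleOf j) ^ k).symm_apply_apply j
          · intro hfix
            apply hj
            rw [hfix]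
            apply Perm.zpow_apply_eq_self_of_apply_eq_self
            apply Perm.cycleOf_apply_of_not_sameCycle
            rintro ⟨m, hm⟩
            apply hi
            have hcm' : Commute (h0 y.right) (h0 g ^ m) := by
              have h2 : Commute (h0 y.right) (h0 g) := by
                change h0 y.right * h0 g = h0 g * h0 y.right
                rw [← map_mul, ← map_mul, hcm]
              exact h2.zpow_right m
            have h3 := congrArg (fun s : Perm ι => s i) hcm'.eq
            simp only [Perm.mul_apply] at h3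
            rw [hm, hfix, ← hm] at h3
            exact ((h0 g ^ m).injective h3).symm
        have h2 := Finset.card_le_card hlt
        rw [Finset.card_erase_of_mem (Perm.mem_support.2 hi)] at h2
        omega
      · rw [mul_assoc, hy, ← mul_assoc, ← l_zp_comm, mul_assoc, ← mul_assoc _ _ y, hCk.eq]
        simp only [mul_assoc]

theorem not_conj (hinj : Function.Injective h0)
    (hcyc : ∀ g : L, ∀ c ∈ (h0 g).cycleFactorsFinset, c ∈ h0.range)
    (g : L) (hg : ∀ g' : L, g' * g = g * g' → ∀ i, (h0 g).SameCycle i (h0 g' i))
    (c : Cl ι) (hc : Cl.par c = -1)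
    (hA : ∀ i, ∑ y, (if (h0 g).SameCycle i y then Multiplicative.toAdd (Cl.supp c) y else 0) = 1)
    (y : BP h0) :
    y * (BP.l h0 c * BP.r h0 g) * y⁻¹ ≠ BG.z _ * (BP.l h0 c * BP.r h0 g) := by
  intro hcon
  have hc1 : ∑ i, Multiplicative.toAdd (Cl.supp c) i = 1 := by
    apply z2_ne
    intro h
    have := (Cl.par_eq c).2 h
    rw [hc] at this
    exact absurd this (by decide)
  have h1 := key h0 hinj hcyc g hg c hc1 hA 1 _ y le_rfl (by
    rw [mul_inv_eq_iff_eq_mul] at hcon
    rw [hcon, BP.z_eq, mul_assoc]
    rfl)
  exact absurd h1 (by decide)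

end Pool.Agent.Helper81.AN
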