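import Pool.Agent.Helper81.AN.VNorm
import Pool.Agent.Helper81.AN.NotConj

/-!
# ALT-28: lower bound for the number of pairs of associate spin characters

PROOF. Let `i = (S, S')` with `len i = |S| + |S'|` odd. Let `σ` be a permutation of `Fin v` with cycle lengths `S` (as a multiset; `exists_partition`), `τ` with
`S'`, `g = (σ, τ)`, `x = c g` with `c ∈ Cl` whose support has exactly one point in each cycle of `yh g` (`Cl.supp_surjective`; choose
representatives). `c` is odd, because the number of cycles is `len i` (`Cl.par_eq`). An element of `S_v × S_r` which commutes with `g` maps every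
cycle of `g` to a cycle of the same length in the same summand, so to itself, as the lengths in `S` (and in `S'`) are distinct. By
`not_conj`, `x` is not conjugate to `z x`. Let `f_i` be `1` on the conjugacy class of `x`, `-1` on the class of `z x`, `0` elsewhere: a class function,
`f_i (z y) = - f_i y`, zero on even elements (`par x = -1`, `BP.par_l`, `BP.par_r`). The supports of the `f_i` for different `i` are disjoint: elements of the support of `f_i`
have permutation part conjugate to `g`, which determines the cycle lengths `S`, `S'`. So the `f_i` are linearly independent.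
-/

set_option autoImplicit false

open Equiv

namespace Pool.Agent.Helper81.AN

open Pool.Agent.Helper42.INC Pool.Agent.Helper7.MK

private theorem same_of_nodup {α : Type} [Fintype α] [DecidableEq α] (σ σ' : Perm α)
    (h : σ' * σ = σ * σ') (hn : σ.partition.parts.Nodup) (a : α) : σ.SameCycle a (σ' a) := by
  obtain ⟨k, q, -, hq2, hp⟩ := Pool.Agent.Helper39.AN.cyc_parts σ
  rw [← hp] at hn
  have hinj := Multiset.inj_on_of_nodup_map hn
  apply (hq2 _ _).1
  refine hinj _ ?_ _ ?_ ?_
  · simp
  · simp
  apply Finset.card_bij (fun b _ => σ' b)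
  · intro b hb
    rw [Finset.mem_filter] at hb ⊢
    refine ⟨Finset.mem_univ _, ?_⟩
    rw [hq2]
    obtain ⟨m, hm⟩ := (hq2 _ _).1 hb.2
    refine ⟨m, ?_⟩
    have hc : Commute σ' (σ ^ m) := (show Commute σ' σ from h).zpow_right m
    have := congrArg (fun s : Perm α => s b) hc.eq
    simp only [Perm.mul_apply] at this
    rw [← this, hm]
  · intro b _ b' _ hb
    exact σ'.injective hb
  · intro b hb
    rw [Finset.mem_filter] at hb
    refine ⟨σ'⁻¹ b, ?_, σ'.apply_symm_apply b⟩
    rw [Finset.mem_filter]
    refine ⟨Finset.mem_univ _, ?_⟩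
    rw [hq2]
    obtain ⟨m, hm⟩ := (hq2 _ _).1 hb.2
    refine ⟨m, ?_⟩
    apply σ'.injective
    have hc : Commute σ' (σ ^ m) := (show Commute σ' σ from h).zpow_right m
    have := congrArg (fun s : Perm α => s (σ'⁻¹ b)) hc.eq
    simp only [Perm.mul_apply] at this
    rw [this, ← hm]
    exact congrArg _ (σ'.apply_symm_apply b)

/-- an element of the Clifford group with one point of its support in every cycle -/
private theorem exists_rep {α : Type} [Fintype α] [DecidableEq α] (σ : Perm α)
    (hodd : Odd (ncy σ)) : ∃ c : Cl α, Cl.par c = -1 ∧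
    ∀ i, ∑ y, (if σ.SameCycle i y then Multiplicative.toAdd (Cl.supp c) y else 0) = 1 := by
  obtain ⟨k, q, hq1, hq2, hp⟩ := Pool.Agent.Helper39.AN.cyc_parts σ
  have hk : k = ncy σ := by
    unfold ncy
    rw [← hp, Multiset.card_map, Finset.card_val, Finset.card_univ, Fintype.card_fin]
  let rep : Fin k → α := Function.surjInv hq1
  have hrep : ∀ j, q (rep j) = j := fun j => Function.surjInv_eq hq1 j
  obtain ⟨c, hc⟩ := Cl.supp_surjective
    (Multiplicative.ofAdd (fun y => if rep (q y) = y then (1 : ZMod 2) else 0))
  have hc' : ∀ y, Multiplicative.toAdd (Cl.supp c) y =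
      if rep (q y) = y then (1 : ZMod 2) else 0 := by
    intro y
    rw [hc]
    rfl
  refine ⟨c, ?_, ?_⟩
  · rcases Int.units_eq_one_or (Cl.par c) with h | h
    · exfalso
      rw [Cl.par_eq] at h
      simp only [hc'] at h
      rw [Finset.sum_boole] at h
      have h1 : (Finset.univ.filter (fun y => rep (q y) = y)).card = k := by
        have : Finset.univ.filter (fun y => rep (q y) = y) = Finset.univ.image rep := by
          ext y
          rw [Finset.mem_filter, Finset.mem_image]
          constructor
          · rintro ⟨_, h⟩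
            exact ⟨q y, Finset.mem_univ _, h⟩
          · rintro ⟨j, _, rfl⟩
            exact ⟨Finset.mem_univ _, by rw [hrep]⟩
        rw [this, Finset.card_image_of_injective _ (Function.injective_surjInv hq1),
          Finset.card_univ, Fintype.card_fin]
      rw [h1, hk, ZMod.natCast_eq_zero_iff_even] at h
      exact (Nat.not_even_iff_odd.2 hodd) h
    · exact h
  · intro i
    rw [Finset.sum_eq_single (rep (q i))]
    · rw [hc', hrep, if_pos rfl, if_pos]
      rw [← hq2, hrep]
    · intro y _ hy
      split_ifs with h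
      · rw [hc', if_neg]
        intro h1
        rw [← hq2] at h
        apply hy
        rw [h, h1]
      · rfl
    · intro h
      exact absurd (Finset.mem_univ _) h

private theorem parts_conj {α : Type} [Fintype α] [DecidableEq α] {σ τ : Perm α}
    (h : IsConj σ τ) : σ.partition.parts = τ.partition.parts := by
  rw [Equiv.Perm.partition_eq_of_isConj.1 h]

private theorem exists_parts (n : ℕ) (S : SPn n) :
    ∃ σ : Perm (Fin n), σ.partition.parts = S.1.val := by
  have h1 : ∀ m ∈ S.1.val, 0 < m := by
    intro m hm
    apply Nat.pos_of_ne_zero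
    rintro rfl
    exact S.2.1 (Finset.mem_def.2 hm)
  have h2 : S.1.val.sum = Fintype.card (Fin n) := by
    rw [Fintype.card_fin]
    have := S.2.2
    rwa [Finset.sum, Multiset.map_id'] at this
  obtain ⟨σ, hσ⟩ := exists_partition (ι := Fin n) ⟨S.1.val, fun {m} hm => h1 m hm, h2⟩
  exact ⟨σ, by rw [hσ]⟩

private theorem exists_elt {v r : ℕ} (i : II v r) (hi : Odd i.len) :
    ∃ (g : Perm (Fin v) × Perm (Fin r)) (c : Cl (Fin v ⊕ Fin r)),
      g.1.partition.parts = i.1.1.val ∧ g.2.partition.parts = i.2.1.val ∧ Cl.par c = -1 ∧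
      ∀ y : BP (yh v r), y * (BP.l _ c * BP.r _ g) * y⁻¹ ≠
        BG.z _ * (BP.l _ c * BP.r _ g) := by
  obtain ⟨σ, hσ⟩ := exists_parts v i.1
  obtain ⟨τ, hτ⟩ := exists_parts r i.2
  have hn : ncy (yh v r (σ, τ)) = i.len := by
    rw [ncy_yh]
    unfold ncy II.len
    rw [hσ, hτ, Finset.card_val, Finset.card_val]
  obtain ⟨c, hc1, hc2⟩ := exists_rep (yh v r (σ, τ)) (by rw [hn]; exact hi)
  refine ⟨(σ, τ), c, hσ, hτ, hc1, ?_⟩
  intro y
  refine not_conj (yh v r) (yh_injective v r) (fun g c hc => yh_cyc g c hc) (σ, τ) ?_ c hc1 hc2 y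
  intro g' hg' p
  have h1 := congrArg Prod.fst hg'
  have h2 := congrArg Prod.snd hg'
  simp only [Prod.fst_mul, Prod.snd_mul] at h1 h2
  rcases p with a | b
  · obtain ⟨m, hm⟩ := same_of_nodup σ g'.1 h1 (by rw [hσ]; exact i.1.1.nodup) a
    refine ⟨m, ?_⟩
    rw [← map_zpow]
    change Sum.inl ((MonoidHom.fst _ _ ((σ, τ) ^ m)) a) = Sum.inl (g'.1 a)
    rw [map_zpow]
    exact congrArg _ hm
  · obtain ⟨m, hm⟩ := same_of_nodup τ g'.2 h2 (by rw [hτ]; exact i.2.1.nodup) b
    refine ⟨m, ?_⟩
    rw [← map_zpow]
    change Sum.inr ((MonoidHom.snd _ _ ((σ, τ) ^ m)) b) = Sum.inr (g'.2 b)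
    rw [map_zpow]
    exact congrArg _ hm

theorem VV_low (v r : ℕ) : ∃ f : {i : II v r // Odd i.len} → BP (yh v r) → ℂ,
    (∀ i, IsClass (f i)) ∧ (∀ i x, f i (BG.z _ * x) = -f i x) ∧
    (∀ i x, BG.par _ x = 1 → f i x = 0) ∧ LinearIndependent ℂ f := by
  classical
  choose g c h1 h2 h3 h4 using fun i : {i : II v r // Odd i.len} => exists_elt i.1 i.2
  obtain ⟨hzc, hz2, hz1⟩ := BG.cinv ((permH (Fin v ⊕ Fin r)).comp (yh v r))
  set z : BP (yh v r) := BG.z _ with hz
  let X : {i : II v r // Odd i.len} → BP (yh v r) := fun i => BP.l _ (c i) * BP.r _ (g i)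
  have hX : ∀ i, ¬ IsConj (X i) (z * X i) := by
    intro i hi
    obtain ⟨y, hy⟩ := isConj_iff.1 hi
    exact h4 i y hy
  have hzz : ∀ x y : BP (yh v r), IsConj (z * x) (z * y) ↔ IsConj x y := by
    intro x y
    rw [isConj_iff, isConj_iff]
    refine exists_congr fun w => ?_
    rw [← mul_assoc, ← hzc w, mul_assoc z, mul_assoc z, mul_right_inj]
  have hzx : ∀ x y : BP (yh v r), IsConj (z * x) y ↔ IsConj x (z * y) := by
    intro x y
    rw [← hzz x (z * y), ← mul_assoc z z y, hz2, one_mul]
  have hpar : ∀ x y : BP (yh v r), IsConj x y → BG.par _ x = BG.par _ y := by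
    intro x y hxy
    obtain ⟨w, hw⟩ := isConj_iff.1 hxy
    rw [← hw, map_mul, map_mul, map_inv, mul_comm (BG.par _ w), mul_assoc, mul_inv_cancel, mul_one]
  have hparX : ∀ i, BG.par _ (X i) = -1 := by
    intro i
    change BG.par _ (BP.l _ (c i) * BP.r _ (g i)) = -1
    rw [map_mul, BP.par_l, BP.par_r, h3, mul_one]
  have hparz : BG.par _ z = 1 := by
    rw [hz, BP.z_eq, BP.par_l]
    exact Cl.lift_z _ _ _ _ _ _
  refine ⟨fun i x => if IsConj x (X i) then 1 else if IsConj x (z * X i) then -1 else 0,
    ?_, ?_, ?_, ?_⟩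
  · intro i w x
    have hc : IsConj (w * x * w⁻¹) x := (isConj_iff.2 ⟨w, rfl⟩ : IsConj x (w * x * w⁻¹)).symm
    have hcc : ∀ u, IsConj (w * x * w⁻¹) u ↔ IsConj x u :=
      fun u => ⟨fun h => hc.symm.trans h, fun h => hc.trans h⟩
    simp only [hcc]
  · intro i x
    simp only [hzx]
    rw [← mul_assoc z z, hz2, one_mul]
    by_cases ha : IsConj x (X i)
    · have hb : ¬ IsConj x (z * X i) := fun hb => hX i (ha.symm.trans hb)
      rw [if_neg hb, if_pos ha, if_pos ha]
    · by_cases hb : IsConj x (z * X i)
      · rw [if_pos hb, if_neg ha, if_pos hb, neg_neg]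
      · rw [if_neg hb, if_neg ha, if_neg ha, if_neg hb, neg_zero]
  · intro i x hx
    have ha : ¬ IsConj x (X i) := by
      intro ha
      have := hpar _ _ ha
      rw [hx, hparX] at this
      exact absurd this (by decide)
    have hb : ¬ IsConj x (z * X i) := by
      intro hb
      have := hpar _ _ hb
      rw [hx, map_mul, hparz, hparX] at this
      exact absurd this (by decide)
    simp only [if_neg ha, if_neg hb]
  · have hright : ∀ i j, (IsConj (X j) (X i) ∨ IsConj (X j) (z * X i)) → i = j := by
      intro i j hij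
      have hg : IsConj (g j) (g i) := by
        have hXr : ∀ i, (X i).right = g i := by
          intro i
          change (BP.l _ (c i) * BP.r _ (g i)).right = g i
          rw [SemidirectProduct.mul_right]
          exact one_mul _
        have hzr : ∀ i, (z * X i).right = g i := by
          intro i
          rw [SemidirectProduct.mul_right, hXr]
          exact one_mul _
        rcases hij with h | h
        · have := (SemidirectProduct.rightHom : BP (yh v r) →* _).map_isConj h
          simp only [SemidirectProduct.rightHom_eq_right] at this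
          rwa [hXr, hXr] at this
        · have := (SemidirectProduct.rightHom : BP (yh v r) →* _).map_isConj h
          simp only [SemidirectProduct.rightHom_eq_right] at this
          rwa [hXr, hzr] at this
      have e1 := parts_conj ((MonoidHom.fst _ _).map_isConj hg)
      have e2 := parts_conj ((MonoidHom.snd _ _).map_isConj hg)
      simp only [MonoidHom.coe_fst, MonoidHom.coe_snd] at e1 e2
      rw [h1, h1] at e1
      rw [h2, h2] at e2
      apply Subtype.ext
      apply Prod.ext
      · exact Subtype.ext (Finset.val_injective e1.symm)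
      · exact Subtype.ext (Finset.val_injective e2.symm)
    rw [linearIndependent_iff']
    intro s a ha j hj
    have := congrFun ha (X j)
    rw [Finset.sum_apply, Finset.sum_eq_single j] at this
    · simp only [Pi.smul_apply, smul_eq_mul, Pi.zero_apply] at this
      rwa [if_pos (IsConj.refl _), mul_one] at this
    · intro i _ hij
      have h5 : ¬ IsConj (X j) (X i) := fun h => hij (hright i j (Or.inl h))
      have h6 : ¬ IsConj (X j) (z * X i) := fun h => hij (hright i j (Or.inr h))
      simp only [Pi.smul_apply, smul_eq_mul]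
      rw [if_neg h5, if_neg h6, mul_zero]
    · intro h
      exact absurd hj h

end Pool.Agent.Helper81.AN
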