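import Pool.Agent.Helper81.AN.VNorm

/-!
# ALT-27: upper bound for the self-associate spin class functions

PROOF. The set `II v r` has as many elements as the set of pairs (partition of `v`, partition of `r`) with odd parts (`card_SPn`). Choose a
bijection and for each pair `(ρ, ρ')` permutations `σ`, `τ` with these partitions (`exists_partition`; odd order by `odd_iff_parts`), `R i = (1, (σ, τ))`. Let `f` be as in
the statement, `f (R i) = 0` for all `i`. Let `x` be even (`BG.par x = 1`), `f x ≠ 0`. By `supp_even` (`yh_injective`, `yh_cyc`) `x.right = (σ', τ')` has odd order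
and `x` is conjugate to `z^e (1, (σ', τ'))`, so `f (BP.r (σ', τ')) ≠ 0`; `σ'` and `τ'` have partitions with odd parts, and permutations with
the same partition are conjugate (`Equiv.Perm.partition_eq_of_isConj`), so `(1, (σ', τ'))` is conjugate to some `R i`, contradiction.
-/

set_option autoImplicit false

open Equiv

namespace Pool.Agent.Helper81.AN

open Pool.Agent.Helper42.INC Pool.Agent.Helper7.MK

private theorem odds_equiv (n : ℕ) : Nonempty (SPn n ≃
    {ρ : (Fintype.card (Fin n)).Partition // ρ ∈ Nat.Partition.odds (Fintype.card (Fin n))}) := by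
  have h := card_SPn n
  have := h.1
  rw [← Finite.card_eq]
  rw [h.2, Nat.card_eq_fintype_card, Fintype.card_coe, Fintype.card_fin]

private theorem mem_odds {n : ℕ} (σ : Perm (Fin n)) (h : Odd (orderOf σ)) :
    σ.partition ∈ Nat.Partition.odds (Fintype.card (Fin n)) := by
  unfold Nat.Partition.odds Nat.Partition.restricted
  rw [Finset.mem_filter]
  refine ⟨Finset.mem_univ _, fun i hi => ?_⟩
  exact Nat.not_even_iff_odd.mpr ((odd_iff_parts σ).1 h i hi)

theorem VV_up (v r : ℕ) : ∃ R : II v r → BP (yh v r), ∀ f : BP (yh v r) → ℂ, IsClass f →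
    (∀ x, f (BG.z _ * x) = -f x) → (∀ x, BG.par _ x = -1 → f x = 0) → (∀ i, f (R i) = 0) →
    ∀ x, f x = 0 := by
  classical
  obtain ⟨e⟩ := odds_equiv v
  obtain ⟨e'⟩ := odds_equiv r
  choose s hs using fun ρ : (Fintype.card (Fin v)).Partition => exists_partition ρ
  choose s' hs' using fun ρ : (Fintype.card (Fin r)).Partition => exists_partition ρ
  refine ⟨fun i => BP.r (yh v r) (s (e i.1).1, s' (e' i.2).1), ?_⟩
  intro f hc hz hodd hR x
  by_contra hne
  rcases Int.units_eq_one_or (BG.par _ x) with hpar | hpar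
  · obtain ⟨ho, c, ε, hx⟩ := supp_even (yh v r) (yh_injective v r) yh_cyc f hc hz x hpar hne
    have h1 : f (BP.l (yh v r) (Cl.zp ε) * BP.r (yh v r) x.right) ≠ 0 := by
      rw [hx, hc] at hne
      exact hne
    have h2 : f (BP.r (yh v r) x.right) ≠ 0 := by
      rcases Cl.z2cases ε with h | h
      · rw [h, Cl.zp_zero, map_one, one_mul] at h1
        exact h1
      · rw [h, Cl.zp_one, ← BP.z_eq, hz, neg_ne_zero] at h1
        exact h1
    have ho1 : Odd (orderOf x.right.1) := Odd.of_dvd_nat ho (orderOf_fst_dvd_orderOf)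
    have ho2 : Odd (orderOf x.right.2) := Odd.of_dvd_nat ho (orderOf_snd_dvd_orderOf)
    obtain ⟨i1, hi1⟩ := e.surjective ⟨x.right.1.partition, mem_odds _ ho1⟩
    obtain ⟨i2, hi2⟩ := e'.surjective ⟨x.right.2.partition, mem_odds _ ho2⟩
    have h3 := hR (i1, i2)
    have h4 : IsConj (s (e i1).1) x.right.1 := by
      rw [Perm.partition_eq_of_isConj, hs, hi1]
    have h5 : IsConj (s' (e' i2).1) x.right.2 := by
      rw [Perm.partition_eq_of_isConj, hs', hi2]
    obtain ⟨a, ha⟩ := isConj_iff.1 h4
    obtain ⟨b, hb⟩ := isConj_iff.1 h5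
    apply h2
    have h6 : x.right = (a, b) * (s (e i1).1, s' (e' i2).1) * (a, b)⁻¹ := by
      refine Prod.ext ?_ ?_
      · exact ha.symm
      · exact hb.symm
    rw [h6, map_mul, map_mul, map_inv, hc]
    exact h3
  · exact hne (hodd x hpar)

end Pool.Agent.Helper81.AN
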