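import Pool.Agent.Helper81.AN.VNorm
import Pool.Agent.Helper81.AN.VUp
import Pool.Agent.Helper81.AN.VLow
import Pool.Agent.Helper81.AN.VGen
import Pool.Agent.Helper81.AN.Assem

/-!
# ALT-29: the spin characters of the Young subgroup (SP_G)

PROOF. `assem` for `X = BG (youngH (Fin v) (Fin r))` (definitionally `BP (yh v r)`), `I = II v r`, `odd i = Odd i.len`, `V = VV`,
`dg i = 2^(v + r - (len i + 1)/2) g(S) g(S')` (`VV_deg`: if `len i` is even, `(len + 1)/2 = len/2` and `V i 1 = dg i`; if odd, `(len + 1)/2 = len/2 + 1` and `V i 1 = 2 dg i`;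
`(len + 1)/2 ≤ v + r` as `|S| ≤ Σ S`), positivity from `gAux_pos`. Then relabel `LabI (II v r) odd` to `LabY v r` (`Defs.lean`): `(S, S', s)`; `SP.size`, `SP.len`, `SP.g`.
-/

set_option autoImplicit false

open Equiv

namespace Pool.Agent.Helper81.AN

open Pool.Agent.Helper42.INC Pool.Agent.Helper7.MK

private theorem card_le_sum (S : Finset ℕ) (hS : 0 ∉ S) : S.card ≤ ∑ s ∈ S, s := by
  rw [Finset.card_eq_sum_ones]
  apply Finset.sum_le_sum
  intro s hs
  exact Nat.one_le_iff_ne_zero.2 (fun h => hS (h ▸ hs))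

/-- relabelling -/
private noncomputable def relab (v r : ℕ) :
    LabI (II v r) (fun i => Odd i.len) ≃ LabY v r where
  toFun q := ⟨(⟨q.1.1.1.1, q.1.1.1.2.1⟩, ⟨q.1.1.2.1, q.1.1.2.2.1⟩, q.1.2),
    q.1.1.1.2.2, q.1.1.2.2.2, fun h => q.2 (fun h' => (Nat.not_even_iff_odd.2 h') h)⟩
  invFun q := ⟨((⟨q.1.1.1, q.1.1.2, q.2.1⟩, ⟨q.1.2.1.1, q.1.2.1.2, q.2.2.1⟩), q.1.2.2),
    fun h => q.2.2.2 (Nat.not_odd_iff_even.1 h)⟩
  left_inv _ := rfl
  right_inv _ := rfl

theorem sp_G (v r : ℕ) :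
    Nonempty (Lab (BG (youngH (Fin v) (Fin r))) (BG.par _) (BG.z _) (-1) (LabY v r) LabY.tw
      LabY.dg) := by
  classical
  haveI h1 : Finite (SPn v) := (card_SPn v).1
  haveI h2 : Finite (SPn r) := (card_SPn r).1
  have hlen : ∀ i : II v r, i.len ≤ v + r := by
    intro i
    have e1 := card_le_sum i.1.1 i.1.2.1
    have e2 := card_le_sum i.2.1 i.2.2.1
    rw [i.1.2.2] at e1
    rw [i.2.2.2] at e2
    exact Nat.add_le_add e1 e2
  have hε : BG.par ((permH (Fin v ⊕ Fin r)).comp (yh v r)) (BG.z _) = 1 := by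
    rw [BP.z_eq, BP.par_l]
    unfold Cl.par
    rw [Cl.lift_z]
  obtain ⟨L⟩ := assem (X := BP (yh v r)) (BG.z _) (BG.cinv _) (BG.par _) hε (II v r)
    (fun i => Odd i.len) VV
    (fun i => 2 ^ (v + r - (i.len + 1) / 2) * gAux v i.1.1 * gAux r i.2.1)
    (fun i => VV_gen i) (fun i x => VV_z i x) (fun i x hx => VV_odd i x hx)
    (fun i j => by
      rw [VV_B i j]
      congr)
    (fun i => by
      have hl := hlen i
      rw [VV_deg i]
      have h2p : ((2 : ℂ) ^ (i.len / 2)) ≠ 0 := pow_ne_zero _ two_ne_zero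
      rw [inv_mul_eq_iff_eq_mul₀ h2p]
      push_cast
      by_cases ho : Odd i.len
      · rw [if_pos ho]
        have e1 : (i.len + 1) / 2 = i.len / 2 + 1 := by
          obtain ⟨k, hk⟩ := ho
          omega
        have e2 : v + r = i.len / 2 + 1 + (v + r - (i.len + 1) / 2) := by
          obtain ⟨k, hk⟩ := ho
          omega
        have e3 : (2 : ℂ) ^ (v + r) = 2 ^ (i.len / 2) * (2 * 2 ^ (v + r - (i.len + 1) / 2)) := by
          conv_lhs => rw [e2]
          rw [pow_add, pow_succ]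
          ring
        rw [e3]
        ring
      · rw [if_neg ho]
        rw [Nat.not_odd_iff_even] at ho
        have e2 : v + r = i.len / 2 + (v + r - (i.len + 1) / 2) := by
          obtain ⟨k, hk⟩ := ho
          omega
        have e3 : (2 : ℂ) ^ (v + r) = 2 ^ (i.len / 2) * 2 ^ (v + r - (i.len + 1) / 2) := by
          conv_lhs => rw [e2]
          rw [pow_add]
        rw [e3]
        ring)
    (fun i => by
      have p1 := gAux_pos v i.1.1 i.1.2.1 i.1.2.2
      have p2 := gAux_pos r i.2.1 i.2.2.1 i.2.2.2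
      positivity)
    (VV_up v r) (VV_low v r)
  refine ⟨⟨L.e.trans (relab v r), ?_, ?_⟩⟩
  · intro χ χ' h
    rw [Equiv.trans_apply, Equiv.trans_apply, L.twist χ χ' h]
    apply Subtype.ext
    refine Prod.ext rfl (Prod.ext rfl ?_)
    have e1 : (relab v r (LabI.tw (L.e χ))).1.2.2 = (LabI.tw (L.e χ)).1.2 := rfl
    refine e1.trans ?_
    unfold LabI.tw LabY.tw
    by_cases ho : Odd (II.len (L.e χ).1.1)
    · refine (if_pos ho).trans (Eq.symm ?_)
      exact if_neg (Nat.not_even_iff_odd.2 ho)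
    · refine (if_neg ho).trans (Eq.symm ?_)
      exact if_pos (Nat.not_odd_iff_even.1 ho)
  · intro χ
    rw [L.deg χ, Equiv.trans_apply]
    congr 1
    have e1 : ∑ s ∈ (L.e χ).1.1.1.1, s = v := (L.e χ).1.1.1.2.2
    have e2 : ∑ s ∈ (L.e χ).1.1.2.1, s = r := (L.e χ).1.1.2.2.2
    change 2 ^ (v + r - (II.len (L.e χ).1.1 + 1) / 2) * gAux v (L.e χ).1.1.1.1 *
        gAux r (L.e χ).1.1.2.1 =
      2 ^ (v + r - (II.len (L.e χ).1.1 + 1) / 2) *
        gAux (∑ s ∈ (L.e χ).1.1.1.1, s) (L.e χ).1.1.1.1 *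
        gAux (∑ s ∈ (L.e χ).1.1.2.1, s) (L.e χ).1.1.2.1
    rw [e1, e2]

end Pool.Agent.Helper81.AN
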