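import Pool.Agent.Helper81.AN.ColSum

/-!
# ALT-18: number of permutations with given cycle lengths (fixed points included)

`z ρ = ∏ m^{c_m} c_m!`, `c_m` = number of parts equal to `m`; the number of permutations `σ` of `n` points with
`σ.partition = ρ` is `n! / z ρ`.

PROOF. Mathlib: `Equiv.Perm.card_of_cycleType_mul_eq`, `Equiv.Perm.nat_card_centralizer`,
`Equiv.Perm.card_isConj_mul_eq` (in `Mathlib/GroupTheory/Perm/Centralizer.lean`) give
`#{σ : cycleType = m} * ((n - m.sum)! * m.prod * ∏ (count)!) = n!`. For `σ.partition = ρ`: `σ.cycleType = ρ.parts.filter (2 ≤ ·)`,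
and `ρ.parts` = cycle type plus `n - sum` ones, so `∏ m^{c_m} = cycleType.prod` and `c_1! = (n - sum)!`.
-/

set_option autoImplicit false

open Equiv

namespace Pool.Agent.Helper81.AN

/-- the order of the centralizer -/
def zz (l : List ℕ) : ℕ := l.prod * ∏ m ∈ l.toFinset, (l.count m).factorial

private theorem zz_eq (s : Multiset ℕ) :
    zz s.toList = s.prod * ∏ m ∈ s.toFinset, (s.count m).factorial := by
  have h : (s.toList : Multiset ℕ) = s := Multiset.coe_toList s
  have h1 : ∀ l : List ℕ, zz l = (l : Multiset ℕ).prod *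
      ∏ m ∈ (l : Multiset ℕ).toFinset, ((l : Multiset ℕ).count m).factorial := by
    intro l
    unfold zz
    rw [Multiset.prod_coe]
    congr 1
    refine Finset.prod_congr rfl fun m _ => ?_
    rw [Multiset.coe_count]
  rw [h1, h]

private theorem cz_split {n : ℕ} (ρ : n.Partition) :
    ρ.parts = ρ.parts.filter (fun x => 2 ≤ x) +
      Multiset.replicate (n - (ρ.parts.filter (fun x => 2 ≤ x)).sum) 1 := by
  have h1 : ρ.parts.filter (fun x => 2 ≤ x) + ρ.parts.filter (fun x => ¬ 2 ≤ x) = ρ.parts :=
    Multiset.filter_add_not _ _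
  have h2 : ρ.parts.filter (fun x => ¬ 2 ≤ x) =
      Multiset.replicate (ρ.parts.filter (fun x => ¬ 2 ≤ x)).card 1 := by
    rw [Multiset.eq_replicate]
    refine ⟨rfl, fun b hb => ?_⟩
    have h3 := Multiset.mem_filter.1 hb
    have h4 := ρ.parts_pos h3.1
    omega
  have h3 : (ρ.parts.filter (fun x => ¬ 2 ≤ x)).card =
      n - (ρ.parts.filter (fun x => 2 ≤ x)).sum := by
    have h4 := congrArg Multiset.sum h1
    rw [Multiset.sum_add, ρ.parts_sum, h2, Multiset.sum_replicate] at h4
    simp only [smul_eq_mul, mul_one, Multiset.card_replicate] at h4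
    omega
  rw [h2, h3] at h1
  exact h1.symm

private theorem cz_le {n : ℕ} (ρ : n.Partition) : (ρ.parts.filter (fun x => 2 ≤ x)).sum ≤ n := by
  have h1 : ρ.parts.filter (fun x => 2 ≤ x) + ρ.parts.filter (fun x => ¬ 2 ≤ x) = ρ.parts :=
    Multiset.filter_add_not _ _
  have h4 := congrArg Multiset.sum h1
  rw [Multiset.sum_add, ρ.parts_sum] at h4
  omega

private theorem cz_iff {ι : Type} [Fintype ι] [DecidableEq ι] (ρ : (Fintype.card ι).Partition)
    (σ : Perm ι) : σ.partition = ρ ↔ σ.cycleType = ρ.parts.filter (fun x => 2 ≤ x) := by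
  constructor
  · rintro rfl
    exact (Perm.filter_parts_partition_eq_cycleType).symm
  · intro h
    apply Nat.Partition.ext
    rw [Perm.parts_partition, ← Perm.sum_cycleType, h]
    exact (cz_split ρ).symm

theorem class_size {ι : Type} [Fintype ι] [DecidableEq ι] (ρ : (Fintype.card ι).Partition) :
    (Finset.univ.filter (fun σ : Perm ι => σ.partition = ρ)).card * zz ρ.parts.toList =
      (Fintype.card ι).factorial := by
  classical
  set m := ρ.parts.filter (fun x => 2 ≤ x) with hm
  have hsplit := cz_split ρ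
  rw [← hm] at hsplit
  have hm2 : ∀ a ∈ m, 2 ≤ a := fun a ha => (Multiset.mem_filter.1 ha).2
  have h1 : (Finset.univ.filter (fun σ : Perm ι => σ.partition = ρ)) =
      Finset.univ.filter (fun σ : Perm ι => σ.cycleType = m) := by
    ext σ
    rw [Finset.mem_filter, Finset.mem_filter, cz_iff]
  have h2 := Perm.card_of_cycleType_mul_eq ι m
  rw [if_pos ⟨cz_le ρ, hm2⟩] at h2
  rw [h1, ← h2, zz_eq]
  congr 1
  have hc1 : ρ.parts.count 1 = Fintype.card ι - m.sum := by
    rw [hsplit, Multiset.count_add, Multiset.count_replicate_self, Multiset.count_eq_zero_of_notMem,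
      zero_add]
    intro h
    have := hm2 1 h
    omega
  have hcx : ∀ x ∈ m.toFinset, ρ.parts.count x = m.count x := by
    intro x hx
    rw [hsplit, Multiset.count_add, Multiset.count_replicate, if_neg, add_zero]
    intro h
    have := hm2 x (Multiset.mem_toFinset.1 hx)
    omega
  have hprod : ρ.parts.prod = m.prod := by
    rw [hsplit, Multiset.prod_add, Multiset.prod_replicate, one_pow, mul_one]
  have h1m : 1 ∉ m.toFinset := by
    intro h
    have := hm2 1 (Multiset.mem_toFinset.1 h)
    omega
  have h3 : ∏ x ∈ ρ.parts.toFinset, (ρ.parts.count x).factorial =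
      ∏ x ∈ insert 1 m.toFinset, (ρ.parts.count x).factorial := by
    refine Finset.prod_subset ?_ ?_
    · intro x hx
      rw [Multiset.mem_toFinset, hsplit, Multiset.mem_add] at hx
      rcases hx with hx | hx
      · exact Finset.mem_insert_of_mem (Multiset.mem_toFinset.2 hx)
      · rw [Multiset.eq_of_mem_replicate hx]
        exact Finset.mem_insert_self _ _
    · intro x _ hx
      rw [Multiset.count_eq_zero_of_notMem (fun h => hx (Multiset.mem_toFinset.2 h)),
        Nat.factorial_zero]
  rw [h3, Finset.prod_insert h1m, hc1, Finset.prod_congr rfl fun x hx => by rw [hcx x hx], hprod]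
  ring

/-- every partition is the partition of a permutation -/
theorem exists_partition {ι : Type} [Fintype ι] [DecidableEq ι] (ρ : (Fintype.card ι).Partition) :
    ∃ σ : Perm ι, σ.partition = ρ := by
  obtain ⟨σ, hσ⟩ := (Perm.exists_with_cycleType_iff ι (m := ρ.parts.filter (fun x => 2 ≤ x))).2
    ⟨cz_le ρ, fun a ha => (Multiset.mem_filter.1 ha).2⟩
  exact ⟨σ, (cz_iff ρ σ).2 hσ⟩

end Pool.Agent.Helper81.AN
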