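import Pool.Agent.Helper81.AN.SuppEven
import Pool.Agent.Helper39.AN.CycQ

/-!
# ALT-07: the norm of self-associate spin class functions

For class functions `F`, `F'` on `Cl ι ⋊ L` with `F(z x) = -F(x)`, vanishing on odd elements:
`B F F' = |L|⁻¹ Σ_{g ∈ L of odd order} 2^(-ℓ(g)) F(g) F'(g⁻¹)`, `ℓ` = number of cycles of `h0 g` on `ι`, fixed points
included.

PROOF. `|X| = 2^(n+1) |L|` (`BG.card`). Sum over `x = c g`, first over `g`. For fixed `g` let
`S(g) = Σ_c F(c g) F'((c g)⁻¹)`. By `supp_even` the term is zero unless `g` has odd order and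
`c g = b (z^e g) b⁻¹` for some `b ∈ Cl ι`; then the term is `(-1)^e F(g) (-1)^e F'(g⁻¹) = F(g) F'(g⁻¹)`. The number of such `c`: it
is the number of elements of the set `{z^e b (pact g b)⁻¹}` (as `b g b⁻¹ = b (pact g b)⁻¹ g`). The map `b ↦ supp (b (pact g b)⁻¹) = B + g B` on
`(ZMod 2)^ι` is linear with kernel the invariant subsets, of dimension `ℓ(g)`, so its image has `2^(n-ℓ)` elements, and
`c` runs over all elements whose support is in the image: if `supp c = supp (b (pact g b)⁻¹)` then `c = z^e b (pact g b)⁻¹`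
(`Cl.eq_of_supp`). So there are `2 * 2^(n-ℓ(g))` such `c`. Total: `2^(n+1-ℓ(g)) F(g) F'(g⁻¹)`. (By `supp_even`, applied for
`F`, nothing else contributes; that these `c g` are even is clear.)
`dim` of the invariant functions `ι → ZMod 2` under `σ` is the number of cycles: `ncy σ = σ.partition.parts.card`
(cycle type plus fixed points). It is enough to know `#{B : ι → ZMod 2 | B ∘ σ = B} = 2^(ncy σ)`: `inv_card`.
-/

set_option autoImplicit false

open Equiv

namespace Pool.Agent.Helper81.AN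

open Pool.Agent.Helper42.INC

/-- number of cycles, fixed points included -/
def ncy {α : Type} [Fintype α] [DecidableEq α] (σ : Perm α) : ℕ := σ.partition.parts.card

/-- number of functions constant on the cycles -/
theorem inv_card {α : Type} [Fintype α] [DecidableEq α] (σ : Perm α) (k : ℕ) :
    Nat.card {B : α → Fin k // ∀ x, B (σ x) = B x} = k ^ ncy σ :=
  Pool.Agent.Helper39.AN.inv_card σ k

/-- elements with support in a given set -/
theorem card_supp_mem {ι : Type} [Fintype ι] [DecidableEq ι] (U : Set (Multiplicative (ι → ZMod 2))) :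
    Nat.card {c : Cl ι // Cl.supp c ∈ U} = 2 * Nat.card U := by
  let F : ZMod 2 × U → {c : Cl ι // Cl.supp c ∈ U} :=
    fun q => ⟨Cl.zp q.1 * (Cl.supp_surjective q.2.1).choose, by
      rw [map_mul, Cl.supp_zp, one_mul, (Cl.supp_surjective q.2.1).choose_spec]
      exact q.2.2⟩
  have hF : Function.Bijective F := by
    constructor
    · rintro ⟨e, s, hs⟩ ⟨f, t, ht⟩ h
      have h0 : (Cl.zp e : Cl ι) * (Cl.supp_surjective s).choose =
          Cl.zp f * (Cl.supp_surjective t).choose := congrArg Subtype.val h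
      have h1 := congrArg Cl.supp h0
      rw [map_mul, map_mul, Cl.supp_zp, Cl.supp_zp, one_mul, one_mul,
        (Cl.supp_surjective s).choose_spec, (Cl.supp_surjective t).choose_spec] at h1
      subst h1
      have h2 : (Cl.zp e : Cl ι) = Cl.zp f := mul_right_cancel h0
      rw [Cl.zp_inj h2]
    · rintro ⟨g, hg⟩
      obtain ⟨e, he⟩ := Cl.eq_of_supp' (g := g) (h := (Cl.supp_surjective (Cl.supp g)).choose)
        (Cl.supp_surjective (Cl.supp g)).choose_spec.symm
      exact ⟨(e, ⟨Cl.supp g, hg⟩), Subtype.ext he.symm⟩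
  rw [← Nat.card_eq_of_bijective F hF, Nat.card_prod, Nat.card_zmod]

/-- `s ↦ s + σ s` -/
def dlt {ι : Type} (σ : Perm ι) : (ι → ZMod 2) →+ (ι → ZMod 2) where
  toFun s := fun i => s i + s (σ⁻¹ i)
  map_zero' := by
    funext i
    simp
  map_add' s t := by
    funext i
    simp only [Pi.add_apply]
    ring

theorem card_range_dlt {ι : Type} [Fintype ι] [DecidableEq ι] (σ : Perm ι) :
    2 ^ ncy σ * Nat.card (dlt σ).range = 2 ^ Fintype.card ι := by
  have h1 := AddSubgroup.card_mul_index (dlt σ).ker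
  rw [AddSubgroup.index_ker] at h1
  have h2 : Nat.card (dlt σ).ker = 2 ^ ncy σ := by
    rw [← inv_card σ 2]
    refine Nat.card_congr (Equiv.subtypeEquivRight fun s => ?_)
    rw [AddMonoidHom.mem_ker]
    constructor
    · intro h x
      have h3 : s (σ x) + s (σ⁻¹ (σ x)) = 0 := congrFun h (σ x)
      rw [← Equiv.Perm.mul_apply, inv_mul_cancel, Equiv.Perm.one_apply] at h3
      exact (CharTwo.add_eq_zero (R := ZMod 2)).1 h3
    · intro h
      funext x
      have h3 := h (σ⁻¹ x)
      rw [← Equiv.Perm.mul_apply, mul_inv_cancel, Equiv.Perm.one_apply] at h3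
      change s x + s (σ⁻¹ x) = (0 : ZMod 2)
      exact (CharTwo.add_eq_zero (R := ZMod 2)).2 h3
  rw [← h2, h1]
  change Nat.card (ι → ZMod 2) = _
  rw [Nat.card_eq_fintype_card, Fintype.card_fun, ZMod.card]

variable {ι : Type} [Fintype ι] [DecidableEq ι] {L : Type} [Group L] [Fintype L] (h0 : L →* Perm ι)

open Classical in
theorem norm_odd (hinj : Function.Injective h0)
    (hcyc : ∀ g : L, ∀ c ∈ (h0 g).cycleFactorsFinset, c ∈ h0.range)
    (F F' : BP h0 → ℂ) (hc : IsClass F) (hz : ∀ x, F (BG.z _ * x) = -F x)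
    (ho : ∀ x, BG.par _ x = -1 → F x = 0) (hc' : IsClass F')
    (hz' : ∀ x, F' (BG.z _ * x) = -F' x) :
    B F F' = (Nat.card L : ℂ)⁻¹ * ∑ g : L, if Odd (orderOf g) then
      ((2 : ℂ) ^ ncy (h0 g))⁻¹ * (F (BP.r h0 g) * F' (BP.r h0 g⁻¹)) else 0 := by
  let _ : Fintype (Cl ι) := Fintype.ofFinite _
  have hzl : ∀ (G : BP h0 → ℂ), (∀ x, G (BG.z _ * x) = -G x) → ∀ (e : ZMod 2) (y : BP h0),
      G (BP.l h0 (Cl.zp e) * y) = (if e = 0 then 1 else -1) * G y := by
    intro G hG e y
    rcases Cl.z2cases e with rfl | rfl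
    · rw [Cl.zp_zero, map_one, one_mul, if_pos rfl, one_mul]
    · rw [Cl.zp_one, if_neg one_ne_zero, ← BP.z_eq, hG]
      ring
  have key : ∀ g : L, ∑ c : Cl ι, F (BP.l h0 c * BP.r h0 g) * F' (BP.l h0 c * BP.r h0 g)⁻¹ =
      (2 : ℂ) ^ (Fintype.card ι + 1) * (if Odd (orderOf g) then
        ((2 : ℂ) ^ ncy (h0 g))⁻¹ * (F (BP.r h0 g) * F' (BP.r h0 g⁻¹)) else 0) := by
    intro g
    have hsupp : ∀ c : Cl ι, F (BP.l h0 c * BP.r h0 g) ≠ 0 → Odd (orderOf g) ∧
        ∃ (b : Cl ι) (e : ZMod 2), BP.l h0 c * BP.r h0 g =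
          BP.l h0 b * (BP.l h0 (Cl.zp e) * BP.r h0 g) * (BP.l h0 b)⁻¹ := by
      intro c hne
      have hpar : BG.par _ (BP.l h0 c * BP.r h0 g) = 1 := by
        rcases Int.units_eq_one_or (BG.par _ (BP.l h0 c * BP.r h0 g)) with h | h
        · exact h
        · exact absurd (ho _ h) hne
      have h := supp_even h0 hinj hcyc F hc hz (BP.l h0 c * BP.r h0 g) hpar hne
      have hr : (BP.l h0 c * BP.r h0 g).right = g := by
        simp [BP.l, BP.r]
      rw [hr] at h
      exact h
    by_cases hg : Odd (orderOf g)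
    · rw [if_pos hg]
      have hT : ∀ c : Cl ι, Multiplicative.toAdd (Cl.supp c) ∈ (dlt (h0 g)).range ↔
          ∃ (b : Cl ι) (e : ZMod 2), BP.l h0 c * BP.r h0 g =
          BP.l h0 b * (BP.l h0 (Cl.zp e) * BP.r h0 g) * (BP.l h0 b)⁻¹ := by
        intro c
        have hconj : ∀ (b : Cl ι) (e : ZMod 2), BP.l h0 b * (BP.l h0 (Cl.zp e) * BP.r h0 g) *
            (BP.l h0 b)⁻¹ = BP.l h0 (Cl.zp e * (b * pact (h0 g) b⁻¹)) * BP.r h0 g := by
          intro b e
          rw [← map_inv, mul_assoc, mul_assoc, BP.r_mul_l, ← mul_assoc, ← mul_assoc, ← map_mul,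
            ← map_mul, ← Cl.zp_comm, mul_assoc (Cl.zp e)]
        have hsd : ∀ b : Cl ι, Multiplicative.toAdd (Cl.supp (b * pact (h0 g) b⁻¹)) =
            dlt (h0 g) (Multiplicative.toAdd (Cl.supp b)) := by
          intro b
          funext i
          rw [Cl.toAdd_supp_mul]
          have h := supp_pact (h0 g) b⁻¹ ((h0 g)⁻¹ i)
          rw [← Equiv.Perm.mul_apply, mul_inv_cancel, Equiv.Perm.one_apply] at h
          rw [h, map_inv]
          change _ + -(Multiplicative.toAdd (Cl.supp b) ((h0 g)⁻¹ i)) =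
            Multiplicative.toAdd (Cl.supp b) i + Multiplicative.toAdd (Cl.supp b) ((h0 g)⁻¹ i)
          rw [CharTwo.neg_eq]
        constructor
        · rintro ⟨s, hs⟩
          obtain ⟨b, hb⟩ := Cl.supp_surjective (ι := ι) (Multiplicative.ofAdd s)
          have h1 : Cl.supp c = Cl.supp (b * pact (h0 g) b⁻¹) := by
            apply Multiplicative.toAdd.injective
            rw [hsd, hb, toAdd_ofAdd, hs]
          obtain ⟨e, he⟩ := Cl.eq_of_supp h1
          exact ⟨b, e, by rw [hconj, he]⟩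
        · rintro ⟨b, e, hb⟩
          rw [hconj] at hb
          have h1 : BP.l h0 c = BP.l h0 (Cl.zp e * (b * pact (h0 g) b⁻¹)) := mul_right_cancel hb
          have h2 : c = Cl.zp e * (b * pact (h0 g) b⁻¹) := SemidirectProduct.inl_injective h1
          refine ⟨Multiplicative.toAdd (Cl.supp b), ?_⟩
          rw [← hsd, h2, map_mul Cl.supp (Cl.zp e), Cl.supp_zp, one_mul]
      have hval : ∀ c : Cl ι, F (BP.l h0 c * BP.r h0 g) * F' (BP.l h0 c * BP.r h0 g)⁻¹ =
          if Multiplicative.toAdd (Cl.supp c) ∈ (dlt (h0 g)).range then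
            F (BP.r h0 g) * F' (BP.r h0 g⁻¹) else 0 := by
        intro c
        split_ifs with h
        · obtain ⟨b, e, hb⟩ := (hT c).1 h
          rw [hb, hc, hzl F hz]
          have h1 : (BP.l h0 b * (BP.l h0 (Cl.zp e) * BP.r h0 g) * (BP.l h0 b)⁻¹)⁻¹ =
              BP.l h0 b * (BP.l h0 (Cl.zp e) * BP.r h0 g)⁻¹ * (BP.l h0 b)⁻¹ := by group
          have h2 : (BP.l h0 (Cl.zp e) * BP.r h0 g)⁻¹ = BP.l h0 (Cl.zp e) * BP.r h0 g⁻¹ := by
            have hzi : (Cl.zp e : Cl ι)⁻¹ = Cl.zp e := by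
              rw [inv_eq_iff_mul_eq_one, ← Cl.zp_add, CharTwo.add_self_eq_zero, Cl.zp_zero]
            rw [mul_inv_rev, ← map_inv, ← map_inv, hzi, BP.r_mul_l, pact_zp]
          rw [h1, hc', h2, hzl F' hz']
          rcases Cl.z2cases e with rfl | rfl
          · rw [if_pos rfl]
            ring
          · rw [if_neg one_ne_zero]
            ring
        · by_contra hne
          have h1 : F (BP.l h0 c * BP.r h0 g) ≠ 0 := fun h => hne (by rw [h, zero_mul])
          exact h ((hT c).2 (hsupp c h1).2)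
      rw [Finset.sum_congr rfl fun c _ => hval c, ← Finset.sum_filter, Finset.sum_const,
        nsmul_eq_mul]
      have hcard : (Finset.univ.filter fun c : Cl ι =>
          Multiplicative.toAdd (Cl.supp c) ∈ (dlt (h0 g)).range).card * 2 ^ ncy (h0 g) =
          2 ^ (Fintype.card ι + 1) := by
        have h1 := card_supp_mem (ι := ι) {s | Multiplicative.toAdd s ∈ (dlt (h0 g)).range}
        have h2 := card_range_dlt (h0 g)
        have h3 : Nat.card {c : Cl ι // Cl.supp c ∈
            {s : Multiplicative (ι → ZMod 2) | Multiplicative.toAdd s ∈ (dlt (h0 g)).range}} =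
            (Finset.univ.filter fun c : Cl ι =>
              Multiplicative.toAdd (Cl.supp c) ∈ (dlt (h0 g)).range).card := by
          rw [Nat.card_eq_fintype_card]
          exact Fintype.card_subtype _
        have h4 : Nat.card {s : Multiplicative (ι → ZMod 2) |
            Multiplicative.toAdd s ∈ (dlt (h0 g)).range} = Nat.card (dlt (h0 g)).range := by
          refine Nat.card_congr ((Multiplicative.toAdd).subtypeEquiv fun s => ?_)
          rfl
        rw [← h3, h1, h4, pow_succ, ← h2]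
        ring
      have hcard' : ((Finset.univ.filter fun c : Cl ι =>
          Multiplicative.toAdd (Cl.supp c) ∈ (dlt (h0 g)).range).card : ℂ) * 2 ^ ncy (h0 g) =
          2 ^ (Fintype.card ι + 1) := by exact_mod_cast hcard
      rw [← hcard']
      have h2 : (2 : ℂ) ^ ncy (h0 g) ≠ 0 := pow_ne_zero _ two_ne_zero
      field_simp
    · rw [if_neg hg, mul_zero]
      apply Finset.sum_eq_zero
      intro c _
      by_contra hne
      exact hg (hsupp c fun h => hne (by rw [h, zero_mul])).1
  have hX : Fintype (BP h0) := Fintype.ofFinite _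
  rw [B_eq, BG.card]
  have hsum : ∑ x : BP h0, F x * F' x⁻¹ =
      ∑ g : L, ∑ c : Cl ι, F (BP.l h0 c * BP.r h0 g) * F' (BP.l h0 c * BP.r h0 g)⁻¹ := by
    rw [← Fintype.sum_prod_type_right', ← Equiv.sum_comp
      (SemidirectProduct.equivProd (φ := (Cl.act (ι := ι)).comp ((permH ι).comp h0)))]
    refine Finset.sum_congr rfl fun x _ => ?_
    change F x * F' x⁻¹ = F (BP.l h0 x.left * BP.r h0 x.right) *
      F' (BP.l h0 x.left * BP.r h0 x.right)⁻¹
    rw [← BP.eq]
  rw [hsum, Finset.sum_congr rfl fun g _ => key g, ← Finset.mul_sum]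
  push_cast
  have hL : (Nat.card L : ℂ) ≠ 0 := by
    exact_mod_cast Nat.card_pos.ne'
  have h2 : (2 : ℂ) ^ (Fintype.card ι + 1) ≠ 0 := pow_ne_zero _ two_ne_zero
  field_simp

end Pool.Agent.Helper81.AN
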