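import Pool.Agent.Helper81.AN.FkDefs

/-!
# ALT-17: the coefficients of `P_1^n |0⟩` are the numbers of shifted tableaux

PROOF. `(mv 1 x)(S) = Σ_{a ∈ S, 1 ≤ a} ...`: for `a = 1`: the sign is `(-1)^#{t ∈ S : t < 1} = 1` as `0 ∉ S`, the value `x(S \ 1)`; for `a > 1`: zero if
`a - 1 ∈ S`, otherwise the sign is `(-1)^#{a - 1 < t < a} = 1` and the value is `x(S \ a ∪ {a - 1})`; there is no pair term
(`a < 1` and `1 < 2 a`). So for `0 ∉ S`: `Xc (1 :: l) S = Σ_{a ∈ S, a - 1 ∉ S} Xc l (sdown S a)` (`sdown S a = (insert (a-1) (S.erase a)).erase 0`; for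
`a = 1` it is `S.erase 1`), the recursion of `gAux` (`Defs.lean`). Induction over `Σ S`: `Σ (sdown S a) = Σ S - 1`, `0 ∉ sdown S a`;
start: `Σ S = 0`, `0 ∉ S` gives `S = ∅`, `Xc [] ∅ = 1`.
-/

set_option autoImplicit false

namespace Pool.Agent.Helper81.AN

theorem sum_sdown (S : Finset ℕ) (hS : 0 ∉ S) (a : ℕ) (ha : a ∈ S) (ha' : a - 1 ∉ S) :
    0 ∉ sdown S a ∧ (∑ s ∈ sdown S a, s) + 1 = ∑ s ∈ S, s := by
  refine ⟨by simp [sdown], ?_⟩
  unfold sdown
  have h0 : a ≠ 0 := by
    rintro rfl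
    exact hS ha
  have h1 : ∑ s ∈ (insert (a - 1) (S.erase a)).erase 0, s =
      ∑ s ∈ insert (a - 1) (S.erase a), s := Finset.sum_erase (f := fun s : ℕ => s) _ rfl
  have h2 := Finset.add_sum_erase S (fun s => s) ha
  rw [h1, Finset.sum_insert (fun h => ha' (Finset.mem_of_mem_erase h))]
  omega

private theorem sum_zero_empty (S : Finset ℕ) (hS : 0 ∉ S) (h : ∑ s ∈ S, s = 0) : S = ∅ := by
  rw [Finset.eq_empty_iff_forall_notMem]
  intro s hs
  have h1 := Finset.sum_eq_zero_iff.1 h s hs
  rw [h1] at hs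
  exact hS hs

private theorem Xc_cons (m : ℕ) (l : List ℕ) (S : Finset ℕ) :
    Xc (m :: l) S = mv ℤ m (Xc l) S := by
  unfold Xc ML
  rw [List.map_cons, List.prod_cons]
  rfl

private theorem mv_one (x : Fk ℤ) (S : Finset ℕ) (hS : 0 ∉ S) :
    mv ℤ 1 x S = ∑ a ∈ S.filter (fun a => a - 1 ∉ S), x (sdown S a) := by
  change (∑ a ∈ S.filter (fun a => 1 ≤ a), if a = 1 then
        (-1) ^ (S.filter (fun t => t < 1)).card * x (S.erase 1)
      else if a - 1 ∈ S then 0 else
        (-1) ^ nbt S (a - 1) a * x (insert (a - 1) (S.erase a))) +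
    ∑ a ∈ S.filter (fun a => a < 1 ∧ 1 < 2 * a ∧ 1 - a ∈ S),
      2 * (-1) ^ (1 - a + nbt S (1 - a) a) * x ((S.erase a).erase (1 - a)) = _
  have h1 : S.filter (fun a => a < 1 ∧ 1 < 2 * a ∧ 1 - a ∈ S) = ∅ := by
    rw [Finset.filter_eq_empty_iff]
    intro a _ h
    omega
  have h2 : S.filter (fun a => 1 ≤ a) = S := by
    rw [Finset.filter_eq_self]
    intro a ha
    rcases Nat.eq_zero_or_pos a with rfl | h
    · exact absurd ha hS
    · exact h
  rw [h1, Finset.sum_empty, add_zero, h2, Finset.sum_filter]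
  apply Finset.sum_congr rfl
  intro a ha
  have ha0 : a ≠ 0 := by
    rintro rfl
    exact hS ha
  by_cases ha1 : a = 1
  · subst ha1
    have h3 : S.filter (fun t => t < 1) = ∅ := by
      rw [Finset.filter_eq_empty_iff]
      intro t ht h
      have : t = 0 := by omega
      rw [this] at ht
      exact hS ht
    have h4 : sdown S 1 = S.erase 1 := by
      unfold sdown
      rw [Nat.sub_self, Finset.erase_insert (fun h => hS (Finset.mem_of_mem_erase h))]
    rw [if_pos rfl, h3, Finset.card_empty, pow_zero, one_mul, h4, if_pos (by simpa using hS)]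
  · rw [if_neg ha1]
    by_cases h5 : a - 1 ∈ S
    · rw [if_pos h5, if_neg (not_not.2 h5)]
    · rw [if_neg h5, if_pos h5]
      have h6 : nbt S (a - 1) a = 0 := by
        unfold nbt
        rw [Finset.card_eq_zero, Finset.filter_eq_empty_iff]
        intro t _ h
        omega
      have h7 : sdown S a = insert (a - 1) (S.erase a) := by
        unfold sdown
        apply Finset.erase_eq_of_notMem
        rw [Finset.mem_insert]
        rintro (h | h)
        · omega
        · exact hS (Finset.mem_of_mem_erase h)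
      rw [h6, pow_zero, one_mul, h7]

private theorem Xc_nil (S : Finset ℕ) : Xc [] S = if S = ∅ then 1 else 0 := rfl

private theorem Xc_ones_aux : ∀ (n : ℕ) (S : Finset ℕ), 0 ∉ S → ∑ s ∈ S, s = n →
    Xc (List.replicate n 1) S = gAux n S := by
  intro n
  induction n with
  | zero =>
    intro S hS hn
    rw [sum_zero_empty S hS hn, List.replicate_zero, Xc_nil, if_pos rfl]
    rfl
  | succ n ih =>
    intro S hS hn
    rw [List.replicate_succ, Xc_cons, mv_one _ S hS]
    change _ = ((∑ s ∈ S.filter (fun s => s - 1 ∉ S), gAux n (sdown S s) : ℕ) : ℤ)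
    rw [Nat.cast_sum]
    apply Finset.sum_congr rfl
    intro a ha
    rw [Finset.mem_filter] at ha
    obtain ⟨h1, h2⟩ := sum_sdown S hS a ha.1 ha.2
    exact ih _ h1 (by omega)

theorem Xc_ones (S : Finset ℕ) (hS : 0 ∉ S) :
    Xc (List.replicate (∑ s ∈ S, s) 1) S = gAux (∑ s ∈ S, s) S :=
  Xc_ones_aux _ S hS rfl

/-- `mv m x S` only depends on the values of `x` at three kinds of sets -/
private theorem mv_eq_zero (m : ℕ) (x : Fk ℤ) (S : Finset ℕ)
    (h1 : m ∈ S → x (S.erase m) = 0)
    (h2 : ∀ a ∈ S, m < a → a - m ∉ S → x (insert (a - m) (S.erase a)) = 0)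
    (h3 : ∀ a ∈ S, a < m → m < 2 * a → m - a ∈ S → x ((S.erase a).erase (m - a)) = 0) :
    mv ℤ m x S = 0 := by
  change (∑ a ∈ S.filter (fun a => m ≤ a), if a = m then
        (-1) ^ (S.filter (fun t => t < m)).card * x (S.erase m)
      else if a - m ∈ S then 0 else
        (-1) ^ nbt S (a - m) a * x (insert (a - m) (S.erase a))) +
    ∑ a ∈ S.filter (fun a => a < m ∧ m < 2 * a ∧ m - a ∈ S),
      2 * (-1) ^ (m - a + nbt S (m - a) a) * x ((S.erase a).erase (m - a)) = 0
  rw [Finset.sum_eq_zero, Finset.sum_eq_zero, add_zero]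
  · intro a ha
    rw [Finset.mem_filter] at ha
    rw [h3 a ha.1 ha.2.1 ha.2.2.1 ha.2.2.2, mul_zero]
  · intro a ha
    rw [Finset.mem_filter] at ha
    by_cases h4 : a = m
    · rw [if_pos h4, h1 (h4 ▸ ha.1), mul_zero]
    · rw [if_neg h4]
      split_ifs with h5
      · rfl
      · rw [h2 a ha.1 (lt_of_le_of_ne ha.2 (Ne.symm h4)) h5, mul_zero]

/-- wrong degree -/
theorem Xc_degree (l : List ℕ) (hl : ∀ m ∈ l, Odd m) (S : Finset ℕ) (hS : l.sum ≠ ∑ s ∈ S, s) :
    Xc l S = 0 := by
  induction l generalizing S with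
  | nil =>
    rw [Xc_nil, if_neg]
    rintro rfl
    exact hS (by simp)
  | cons m l ih =>
    have ih' := ih (fun m hm => hl m (List.mem_cons_of_mem _ hm))
    rw [List.sum_cons] at hS
    rw [Xc_cons]
    apply mv_eq_zero
    · intro hm
      apply ih'
      have := Finset.add_sum_erase S (fun s => s) hm
      omega
    · intro a ha hma hns
      apply ih'
      rw [Finset.sum_insert (fun h => hns (Finset.mem_of_mem_erase h))]
      have := Finset.add_sum_erase S (fun s => s) ha
      omega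
    · intro a ha hma hm2 hmem
      apply ih'
      have h1 := Finset.add_sum_erase S (fun s => s) ha
      have h2 := Finset.add_sum_erase (S.erase a) (fun s => s)
        (Finset.mem_erase.2 ⟨(by omega : m - a ≠ a), hmem⟩)
      omega

/-- no coefficient at sets which contain `0` -/
theorem Xc_zero (l : List ℕ) (hl : ∀ m ∈ l, Odd m) (S : Finset ℕ) (hS : 0 ∈ S) :
    Xc l S = 0 := by
  induction l generalizing S with
  | nil =>
    rw [Xc_nil, if_neg]
    rintro rfl
    simp at hS
  | cons m l ih =>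
    have ih' := ih (fun m hm => hl m (List.mem_cons_of_mem _ hm))
    have hm := hl m (List.mem_cons_self ..)
    have hm0 := hm.pos
    rw [Xc_cons]
    apply mv_eq_zero
    · intro _
      exact ih' _ (Finset.mem_erase.2 ⟨by omega, hS⟩)
    · intro a _ hma _
      exact ih' _ (Finset.mem_insert_of_mem (Finset.mem_erase.2 ⟨by omega, hS⟩))
    · intro a _ hma hm2 _
      exact ih' _ (Finset.mem_erase.2 ⟨by omega, Finset.mem_erase.2 ⟨by omega, hS⟩⟩)

theorem gAux_pos (n : ℕ) (S : Finset ℕ) (hS : 0 ∉ S) (hn : ∑ s ∈ S, s = n) : 0 < gAux n S := by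
  induction n generalizing S with
  | zero => exact Nat.one_pos
  | succ n ih =>
    have hne : S.Nonempty := by
      rw [Finset.nonempty_iff_ne_empty]
      rintro rfl
      simp at hn
    have h1 : S.min' hne ∈ S := Finset.min'_mem _ _
    have h2 : S.min' hne ≠ 0 := by
      intro h
      rw [h] at h1
      exact hS h1
    have h3 : S.min' hne - 1 ∉ S := by
      intro h
      have := Finset.min'_le S _ h
      omega
    obtain ⟨h4, h5⟩ := sum_sdown S hS _ h1 h3
    have h6 := ih _ h4 (by omega)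
    change 0 < ∑ s ∈ S.filter (fun s => s - 1 ∉ S), gAux n (sdown S s)
    exact Finset.sum_pos' (fun _ _ => Nat.zero_le _)
      ⟨S.min' hne, Finset.mem_filter.2 ⟨h1, h3⟩, h6⟩

end Pool.Agent.Helper81.AN
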