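import Pool.Agent.Helper81.AN.Gram
import Pool.Agent.Helper81.AN.ClassSize
import Pool.Agent.Helper81.AN.XOnes
import Pool.Agent.Helper81.AN.NormOdd

/-!
# ALT-19: orthogonality of the coefficients, summed over permutations

PROOF. Let `n = |ι|`, `D` = the set of finite sets `S` with `0 ∉ S`, `Σ S = n` (in bijection with `Nat.Partition.distincts n`), `O` = the partitions
of `n` with odd parts (`Nat.Partition.odds n`). Euler: `|O| = |D|` (`Nat.Partition.card_odds_eq_card_distincts`). For `ρ ∈ O` let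
`u_ρ = ML ℚ ρ.parts.toList (dl ∅)`; `u_ρ(S) = Xc ρ S` (`Xc_cast`), zero unless `S ∈ D` (`Xc_degree`, `Xc_zero`). `gram`:
`Σ_{S ∈ D} 2^(-|S|) Xc ρ S Xc τ S = δ_{ρτ} ∏ (m/2) ∏ c_m! = δ_{ρτ} z_ρ 2^(-ℓ(ρ))` (`zz`; lists with the same multiset are permutations of each other).
So with the `O × D` matrix `M = (Xc ρ S)`, `A = diag(2^(-|S|))`, `Z = diag(z_ρ 2^(-ℓ(ρ)))`: `M A Mᵀ = Z`. `M` is square (after
reindexing with a bijection `O ≃ D`) and `Z` is invertible, so `(A Mᵀ Z⁻¹)` is the inverse of `M`, `A Mᵀ Z⁻¹ M = 1`, i.e.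
`Σ_ρ z_ρ⁻¹ 2^(ℓ(ρ)) Xc ρ S Xc ρ S' = 2^|S| δ_{SS'}` (`Matrix.mul_eq_one_comm`). Finally sum over permutations: `odd_iff_parts`, and the number of
permutations with `σ.partition = ρ` is `n! / z_ρ` (`class_size`); `ncy σ = ρ.parts.card`.
-/

set_option autoImplicit false

open Equiv

namespace Pool.Agent.Helper81.AN

/-- the list of the cycle lengths, fixed points included -/
noncomputable def pl {ι : Type} [Fintype ι] [DecidableEq ι] (σ : Perm ι) : List ℕ :=
  σ.partition.parts.toList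

/-- strict partitions of `n` -/
def SPn (n : ℕ) : Type := {S : Finset ℕ // 0 ∉ S ∧ ∑ s ∈ S, s = n}

private def spE (n : ℕ) : SPn n ≃ {p : n.Partition // p ∈ Nat.Partition.distincts n} where
  toFun S := ⟨⟨S.1.val, by
      intro i hi
      refine Nat.pos_of_ne_zero fun h => ?_
      rw [h] at hi
      exact S.2.1 hi, by
      have h := S.2.2
      rw [Finset.sum] at h
      simpa using h⟩, by
      rw [Nat.Partition.distincts, Finset.mem_filter]
      exact ⟨Finset.mem_univ _, S.1.nodup⟩⟩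
  invFun p := ⟨⟨p.1.parts, (Finset.mem_filter.1 p.2).2⟩, by
      intro h
      exact absurd (p.1.parts_pos h) (lt_irrefl 0), by
      have h := p.1.parts_sum
      rw [Finset.sum]
      simpa using h⟩
  left_inv S := rfl
  right_inv p := rfl

/-- Euler's theorem -/
theorem card_SPn (n : ℕ) : Finite (SPn n) ∧ Nat.card (SPn n) = (Nat.Partition.odds n).card := by
  refine ⟨Finite.of_equiv _ (spE n).symm, ?_⟩
  rw [Nat.card_congr (spE n), Nat.Partition.card_odds_eq_card_distincts,
    Nat.card_eq_fintype_card, Fintype.card_coe]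

private theorem mp_eq (l : List ℕ) : (l.map (fun m => (m : ℚ) / 2)).prod =
    (l.prod : ℚ) / 2 ^ l.length := by
  induction l with
  | nil => simp
  | cons m l ih =>
    have h : (List.map (fun m : ℚ => m / 2) (do
          let a ← m :: l
          pure (a : ℚ))).prod = (m : ℚ) / 2 * (List.map (fun m : ℚ => m / 2) (do
          let a ← l
          pure (a : ℚ))).prod := by
      simp [List.bind_eq_flatMap]
    rw [h, ih, List.prod_cons, List.length_cons, pow_succ]
    push_cast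
    have h2 : (2 : ℚ) ^ l.length ≠ 0 := by positivity
    field_simp

private theorem mem_odds' {n : ℕ} {ρ : n.Partition} (h : ρ ∈ Nat.Partition.odds n) :
    ∀ m ∈ ρ.parts.toList, Odd m := by
  intro m hm
  rw [Multiset.mem_toList] at hm
  unfold Nat.Partition.odds Nat.Partition.restricted at h
  exact Nat.not_even_iff_odd.1 ((Finset.mem_filter.1 h).2 m hm)

private theorem mem_odds_iff' {n : ℕ} {ρ : n.Partition} :
    ρ ∈ Nat.Partition.odds n ↔ ∀ m ∈ ρ.parts, Odd m := by
  unfold Nat.Partition.odds Nat.Partition.restricted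
  rw [Finset.mem_filter]
  simp only [Finset.mem_univ, true_and, Nat.not_even_iff_odd]

private theorem perm_iff {n : ℕ} (ρ τ : n.Partition) :
    ρ.parts.toList.Perm τ.parts.toList ↔ ρ = τ := by
  rw [← Multiset.coe_eq_coe, Multiset.coe_toList, Multiset.coe_toList]
  constructor
  · exact fun h => Nat.Partition.ext h
  · rintro rfl; rfl

/-- the value of the norm -/
private noncomputable def nz (l : List ℕ) : ℚ := (zz l : ℚ) / 2 ^ l.length

open Classical in
private theorem gram' {n : ℕ} [Fintype (SPn n)] (ρ τ : n.Partition)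
    (hρ : ρ ∈ Nat.Partition.odds n) (hτ : τ ∈ Nat.Partition.odds n) :
    ∑ S : SPn n, ((2 : ℚ) ^ S.1.card)⁻¹ * ((Xc ρ.parts.toList S.1 : ℚ) *
      (Xc τ.parts.toList S.1 : ℚ)) = if ρ = τ then nz ρ.parts.toList else 0 := by
  have h := gram ρ.parts.toList τ.parts.toList (mem_odds' hρ) (mem_odds' hτ)
  rw [mp_eq] at h
  have h1 : ip (ML ℚ ρ.parts.toList (dl ℚ ∅)) (ML ℚ τ.parts.toList (dl ℚ ∅)) =
      ∑ S : SPn n, ((2 : ℚ) ^ S.1.card)⁻¹ * ((Xc ρ.parts.toList S.1 : ℚ) *
      (Xc τ.parts.toList S.1 : ℚ)) := by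
    unfold ip
    have hinj : Function.Injective (fun S : SPn n => S.1) := fun a b hab => Subtype.ext hab
    rw [finsum_eq_sum_of_support_subset (s := Finset.univ.map ⟨fun S : SPn n => S.1, hinj⟩)]
    · rw [Finset.sum_map]
      refine Finset.sum_congr rfl fun S _ => ?_
      simp only [Function.Embedding.coeFn_mk]
      rw [Xc_cast, Xc_cast]
    · intro S hS
      rw [Function.mem_support] at hS
      rw [Finset.coe_map, Finset.coe_univ, Set.image_univ, Set.mem_range]
      have hx : ML ℚ ρ.parts.toList (dl ℚ ∅) S ≠ 0 := by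
        intro h0
        exact hS (by rw [h0]; ring)
      rw [Xc_cast] at hx
      have h0 : 0 ∉ S := by
        intro h0
        exact hx (by rw [Xc_zero _ (mem_odds' hρ) S h0, Int.cast_zero])
      have hs : ∑ s ∈ S, s = n := by
        by_contra h2
        refine hx ?_
        rw [Xc_degree _ (mem_odds' hρ) S, Int.cast_zero]
        rw [Multiset.sum_toList, ρ.parts_sum]
        exact fun h3 => h2 h3.symm
      exact ⟨⟨S, h0, hs⟩, rfl⟩
  rw [← h1, h]
  by_cases hp : ρ = τ
  · rw [if_pos hp, if_pos ((perm_iff ρ τ).2 hp)]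
    unfold nz zz
    push_cast
    ring
  · rw [if_neg hp, if_neg (fun h2 => hp ((perm_iff ρ τ).1 h2))]

open Classical in
private theorem dual {n : ℕ} [Fintype (SPn n)] (hnz : ∀ ρ : n.Partition, nz ρ.parts.toList ≠ 0)
    (S S' : SPn n) :
    ∑ ρ ∈ Nat.Partition.odds n, (nz ρ.parts.toList)⁻¹ * ((Xc ρ.parts.toList S.1 : ℚ) *
      (Xc ρ.parts.toList S'.1 : ℚ)) = if S = S' then (2 : ℚ) ^ S.1.card else 0 := by
  have hcard : Fintype.card (SPn n) =
      Fintype.card {ρ : n.Partition // ρ ∈ Nat.Partition.odds n} := by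
    rw [Fintype.card_coe, ← (card_SPn n).2, Nat.card_eq_fintype_card]
  obtain e := Fintype.equivOfCardEq hcard
  let N : Matrix (SPn n) (SPn n) ℚ := fun i T => (Xc (e i).1.parts.toList T.1 : ℚ)
  let A : Matrix (SPn n) (SPn n) ℚ := Matrix.diagonal fun T => ((2 : ℚ) ^ T.1.card)⁻¹
  let Zi : Matrix (SPn n) (SPn n) ℚ := Matrix.diagonal fun i => (nz (e i).1.parts.toList)⁻¹
  have h1 : N * (A * N.transpose * Zi) = 1 := by
    ext i j
    rw [← mul_assoc, Matrix.mul_diagonal, ← mul_assoc, Matrix.mul_apply]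
    have h2 : ∑ T, (N * A) i T * N.transpose T j =
        ∑ T : SPn n, ((2 : ℚ) ^ T.1.card)⁻¹ * ((Xc (e i).1.parts.toList T.1 : ℚ) *
          (Xc (e j).1.parts.toList T.1 : ℚ)) := by
      refine Finset.sum_congr rfl fun T _ => ?_
      rw [Matrix.mul_diagonal, Matrix.transpose_apply]
      simp only [N]
      ring
    rw [h2, gram' _ _ (e i).2 (e j).2]
    by_cases hij : i = j
    · subst hij
      rw [if_pos rfl, Matrix.one_apply_eq, mul_inv_cancel₀ (hnz _)]
    · rw [if_neg, zero_mul, Matrix.one_apply_ne hij]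
      intro h3
      exact hij (e.injective (Subtype.ext h3))
  have h3 : (A * N.transpose * Zi) * N = 1 := mul_eq_one_comm.1 h1
  have h4 := congrFun (congrFun h3 S) S'
  rw [Matrix.mul_apply] at h4
  have h5 : ∀ i, (A * N.transpose * Zi) S i * N i S' =
      ((2 : ℚ) ^ S.1.card)⁻¹ * ((nz (e i).1.parts.toList)⁻¹ *
        ((Xc (e i).1.parts.toList S.1 : ℚ) * (Xc (e i).1.parts.toList S'.1 : ℚ))) := by
    intro i
    rw [Matrix.mul_diagonal, Matrix.diagonal_mul, Matrix.transpose_apply]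
    simp only [N]
    ring
  rw [Finset.sum_congr rfl (fun i _ => h5 i), ← Finset.mul_sum] at h4
  have h6 : ∑ i : SPn n, (nz (e i).1.parts.toList)⁻¹ *
        ((Xc (e i).1.parts.toList S.1 : ℚ) * (Xc (e i).1.parts.toList S'.1 : ℚ)) =
      ∑ ρ ∈ Nat.Partition.odds n, (nz ρ.parts.toList)⁻¹ * ((Xc ρ.parts.toList S.1 : ℚ) *
      (Xc ρ.parts.toList S'.1 : ℚ)) := by
    rw [Equiv.sum_comp e (fun ρ : {ρ : n.Partition // ρ ∈ Nat.Partition.odds n} =>
      (nz ρ.1.parts.toList)⁻¹ * ((Xc ρ.1.parts.toList S.1 : ℚ) *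
      (Xc ρ.1.parts.toList S'.1 : ℚ)))]
    exact Finset.sum_coe_sort (Nat.Partition.odds n) (fun ρ =>
      (nz ρ.parts.toList)⁻¹ * ((Xc ρ.parts.toList S.1 : ℚ) * (Xc ρ.parts.toList S'.1 : ℚ)))
  rw [h6] at h4
  have h7 : (2 : ℚ) ^ S.1.card ≠ 0 := by positivity
  have h8 : ∑ ρ ∈ Nat.Partition.odds n, (nz ρ.parts.toList)⁻¹ * ((Xc ρ.parts.toList S.1 : ℚ) *
      (Xc ρ.parts.toList S'.1 : ℚ)) =
      (2 : ℚ) ^ S.1.card * (1 : Matrix (SPn n) (SPn n) ℚ) S S' := by
    rw [← h4, mul_inv_cancel_left₀ h7]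
  rw [h8, Matrix.one_apply]
  split_ifs
  · rw [mul_one]
  · rw [mul_zero]

open Classical in
theorem ortho {ι : Type} [Fintype ι] [DecidableEq ι] (S S' : SPn (Fintype.card ι)) :
    ∑ σ : Perm ι, (if Odd (orderOf σ) then
      (2 : ℚ) ^ ncy σ * (Xc (pl σ) S.1 * Xc (pl σ) S'.1) else 0) =
      if S = S' then ((Fintype.card ι).factorial : ℚ) * 2 ^ S.1.card else 0 := by
  have hfin : Finite (SPn (Fintype.card ι)) := (card_SPn (Fintype.card ι)).1
  have : Fintype (SPn (Fintype.card ι)) := Fintype.ofFinite _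
  have hfac : (((Fintype.card ι).factorial : ℕ) : ℚ) ≠ 0 := by
    exact_mod_cast (Fintype.card ι).factorial_ne_zero
  have hcs : ∀ ρ : (Fintype.card ι).Partition,
      ((Finset.univ.filter (fun σ : Perm ι => σ.partition = ρ)).card : ℚ) *
        (zz ρ.parts.toList : ℚ) = ((Fintype.card ι).factorial : ℚ) := by
    intro ρ
    exact_mod_cast class_size ρ
  have hzz : ∀ ρ : (Fintype.card ι).Partition, (zz ρ.parts.toList : ℚ) ≠ 0 := by
    intro ρ h
    have h1 := hcs ρ
    rw [h, mul_zero] at h1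
    exact hfac h1.symm
  have hnz : ∀ ρ : (Fintype.card ι).Partition, nz ρ.parts.toList ≠ 0 := by
    intro ρ
    unfold nz
    exact div_ne_zero (hzz ρ) (by positivity)
  let G : (Fintype.card ι).Partition → ℚ := fun ρ => if ρ ∈ Nat.Partition.odds (Fintype.card ι) then
    (2 : ℚ) ^ ρ.parts.card * ((Xc ρ.parts.toList S.1 : ℚ) * (Xc ρ.parts.toList S'.1 : ℚ)) else 0
  have h1 : ∀ σ : Perm ι, (if Odd (orderOf σ) then
      (2 : ℚ) ^ ncy σ * ((Xc (pl σ) S.1 : ℚ) * (Xc (pl σ) S'.1 : ℚ)) else 0) = G σ.partition := by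
    intro σ
    by_cases h : Odd (orderOf σ)
    · simp only [G]
      rw [if_pos h, if_pos (mem_odds_iff'.2 ((odd_iff_parts σ).1 h))]
      rfl
    · simp only [G]
      rw [if_neg h, if_neg (fun h2 => h ((odd_iff_parts σ).2 (mem_odds_iff'.1 h2)))]
  rw [Finset.sum_congr rfl (fun σ _ => h1 σ),
    ← Finset.sum_fiberwise (s := Finset.univ) (g := fun σ : Perm ι => σ.partition)
      (f := fun σ => G σ.partition)]
  have h2 : ∀ ρ : (Fintype.card ι).Partition, ∑ σ ∈ Finset.univ.filter (fun σ : Perm ι => σ.partition = ρ),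
      G σ.partition = if ρ ∈ Nat.Partition.odds (Fintype.card ι) then ((Fintype.card ι).factorial : ℚ) *
        ((nz ρ.parts.toList)⁻¹ * ((Xc ρ.parts.toList S.1 : ℚ) *
          (Xc ρ.parts.toList S'.1 : ℚ))) else 0 := by
    intro ρ
    rw [Finset.sum_congr rfl (g := fun _ => G ρ) (fun σ hσ => by
      rw [(Finset.mem_filter.1 hσ).2]), Finset.sum_const, nsmul_eq_mul]
    simp only [G]
    by_cases h : ρ ∈ Nat.Partition.odds (Fintype.card ι)
    · rw [if_pos h, if_pos h, ← hcs ρ]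
      unfold nz
      rw [Multiset.length_toList, inv_div]
      have h3 := hzz ρ
      field_simp
    · rw [if_neg h, if_neg h, mul_zero]
  rw [Finset.sum_congr rfl (fun ρ _ => h2 ρ), ← Finset.sum_filter, ← Finset.mul_sum]
  have h3 : Finset.univ.filter (fun ρ : (Fintype.card ι).Partition => ρ ∈ Nat.Partition.odds (Fintype.card ι)) =
      Nat.Partition.odds (Fintype.card ι) := by
    ext ρ
    simp
  rw [h3, dual hnz S S']
  split_ifs
  · rfl
  · rw [mul_zero]

end Pool.Agent.Helper81.AN
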