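import Pool.Agent.Helper81.AN.BarN
import Pool.Agent.Helper81.AN.Ortho
import Pool.Agent.Helper24.AN.QRun

/-!
# ALT-37: strict partitions of full weight and their cores and quotients

PROOF. The map `S ↦ (r0 m S, coreS m S, (norm (mf m S i))_i)` (`norm M` = `M` shifted to charge `0`, `Helper24/AN/QRun.lean`: `charge_norm`, `size_norm`, `shift_norm`, `norm_shift`).
Well defined: `charges_small` (`0 ∉ coreS`, `Σ coreS = r`), `r0_zero`, `wtS m S = w`, `size_norm`.
Injective: the charges of the `mf m S i` are determined by `coreS m S` (they are `0, 1, -1`, and `i + 1 ∈ coreS` iff the charge of `mf i` is `1`, `p - (i+1) ∈ coreS` iff it is `-1`), so `mf m S i` is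
determined (`shift_norm`); use `mf_injective`.
Surjective: given `T`, `U` (`Σ U = r < p`), `κ`: charges `c_i = [i + 1 ∈ U] - [p - (i+1) ∈ U]`, `M_i = shift c_i (κ i)`, `S` from `mf_surjective`. All parts of `U` are `< p` and `i + 1`, `p - (i+1)` are not both in
`U` (sum `< p`), so `coreS m S = U`; `wtS m S = w` (`size_shift`); `Σ S = p w + r` by `sum_eq` (`Σ_i (p c_i (c_i - 1)/2 + (i+1) c_i) = Σ U = r`).
-/

set_option autoImplicit false

namespace Pool.Agent.Helper81.AN

open Pool.Agent.Helper24.AN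

private theorem mem_core1 {m i : ℕ} (S : Finset ℕ) (hi : i ∈ Finset.Icc 1 m) :
    i ∈ coreS m S ↔ (mi m i S).charge = 1 := by
  unfold coreS
  rw [Finset.mem_union, Finset.mem_filter, Finset.mem_image]
  rw [Finset.mem_Icc] at hi
  constructor
  · rintro (h | ⟨j, hj, hji⟩)
    · exact h.2
    · rw [Finset.mem_filter, Finset.mem_Icc] at hj
      omega
  · intro h
    exact Or.inl ⟨Finset.mem_Icc.2 hi, h⟩

private theorem mem_core2 {m i : ℕ} (S : Finset ℕ) (hi : i ∈ Finset.Icc 1 m) :
    2 * m + 1 - i ∈ coreS m S ↔ (mi m i S).charge = -1 := by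
  unfold coreS
  rw [Finset.mem_union, Finset.mem_filter, Finset.mem_image, Finset.mem_Icc]
  rw [Finset.mem_Icc] at hi
  constructor
  · rintro (h | ⟨j, hj, hji⟩)
    · omega
    · rw [Finset.mem_filter, Finset.mem_Icc] at hj
      have hij : j = i := by omega
      rw [← hij]
      exact hj.2
  · intro h
    exact Or.inr ⟨i, Finset.mem_filter.2 ⟨Finset.mem_Icc.2 hi, h⟩, rfl⟩

private theorem core_congr {m : ℕ} {S S' : Finset ℕ}
    (h : ∀ i : Fin m, (mf m S i).charge = (mf m S' i).charge) : coreS m S = coreS m S' := by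
  have h' : ∀ i ∈ Finset.Icc 1 m, (mi m i S).charge = (mi m i S').charge := by
    intro i hi
    rw [Finset.mem_Icc] at hi
    have h1 := h ⟨i - 1, by omega⟩
    unfold mf at h1
    simp only at h1
    rw [Nat.sub_add_cancel hi.1] at h1
    exact h1
  unfold coreS
  congr 1
  · exact Finset.filter_congr fun i hi => by rw [h' i hi]
  · congr 1
    exact Finset.filter_congr fun i hi => by rw [h' i hi]

private theorem charge_eq_of_core {m : ℕ} {S S' : Finset ℕ}
    (h0 : ∀ i : Fin m, (mf m S i).charge = 0 ∨ (mf m S i).charge = 1 ∨ (mf m S i).charge = -1)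
    (h0' : ∀ i : Fin m, (mf m S' i).charge = 0 ∨ (mf m S' i).charge = 1 ∨ (mf m S' i).charge = -1)
    (h : coreS m S = coreS m S') (i : Fin m) : (mf m S i).charge = (mf m S' i).charge := by
  have hi : (i : ℕ) + 1 ∈ Finset.Icc 1 m := Finset.mem_Icc.2 ⟨by omega, i.2⟩
  have h1 := mem_core1 S hi
  have h1' := mem_core1 S' hi
  have h2 := mem_core2 S hi
  have h2' := mem_core2 S' hi
  rw [h] at h1 h2
  have e1 := h1.symm.trans h1'
  have e2 := h2.symm.trans h2'
  have a := h0 i
  have a' := h0' i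
  unfold mf at a a' ⊢
  rcases a with a | a | a <;> rcases a' with a' | a' | a' <;> rw [a, a'] at e1 e2 ⊢ <;> simp at e1 e2

theorem bar_equiv (m w r : ℕ) (hr : r < 2 * m + 1) :
    ∃ e : {S : SPn ((2 * m + 1) * w + r) // wtS m S.1 = w} ≃
      {q : (Σ v : ℕ, SPn v × SPn r) × (Fin m → P0) // q.1.1 + ∑ i, (q.2 i).size = w},
      ∀ S, (e S).1.1.2.1.1 = r0 m S.1.1 ∧ (e S).1.1.2.2.1 = coreS m S.1.1 ∧
        ∀ i, ((e S).1.2 i).1 = norm (mf m S.1.1 i) := by
  classical
  have hwd : ∀ S : {S : SPn ((2 * m + 1) * w + r) // wtS m S.1 = w},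
      0 ∉ coreS m S.1.1 ∧ ∑ s ∈ coreS m S.1.1, s = r := fun S =>
    ⟨(charges_small m w r hr S.1.1 S.1.2.1 S.1.2.2 S.2).2.1,
      (charges_small m w r hr S.1.1 S.1.2.1 S.1.2.2 S.2).2.2.1⟩
  let F : {S : SPn ((2 * m + 1) * w + r) // wtS m S.1 = w} →
      {q : (Σ v : ℕ, SPn v × SPn r) × (Fin m → P0) // q.1.1 + ∑ i, (q.2 i).size = w} := fun S =>
    ⟨(⟨∑ t ∈ r0 m S.1.1, t, ⟨r0 m S.1.1, r0_zero m S.1.1 S.1.2.1, rfl⟩,
      ⟨coreS m S.1.1, hwd S⟩⟩, fun i => ⟨norm (mf m S.1.1 i), charge_norm _⟩), by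
        have h1 : wtS m S.1.1 = w := S.2
        unfold wtS at h1
        have h2 : ∀ i : Fin m, P0.size ⟨norm (mf m S.1.1 i), charge_norm _⟩ = (mf m S.1.1 i).size :=
          fun i => size_norm _
        simp only [h2]
        exact h1⟩
  have hinj : Function.Injective F := by
    intro S S' h
    have e0 : r0 m S.1.1 = r0 m S'.1.1 := congrArg (fun q => q.1.1.2.1.1) h
    have e1 : coreS m S.1.1 = coreS m S'.1.1 := congrArg (fun q => q.1.1.2.2.1) h
    have e2 : ∀ i, norm (mf m S.1.1 i) = norm (mf m S'.1.1 i) := fun i =>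
      congrArg (fun q => (q.1.2 i).1) h
    have c := (charges_small m w r hr S.1.1 S.1.2.1 S.1.2.2 S.2).1
    have c' := (charges_small m w r hr S'.1.1 S'.1.2.1 S'.1.2.2 S'.2).1
    have e3 : mf m S.1.1 = mf m S'.1.1 := by
      funext i
      rw [← shift_norm (mf m S.1.1 i), ← shift_norm (mf m S'.1.1 i), e2 i,
        charge_eq_of_core c c' e1 i]
    exact Subtype.ext (Subtype.ext (mf_injective m _ _ S.1.2.1 S'.1.2.1 e0 e3))
  have hsurj : Function.Surjective F := by
    rintro ⟨⟨⟨v, T, U⟩, κ⟩, hq⟩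
    simp only at hq
    obtain ⟨S, hS0, hSr, hSm⟩ := mf_surjective m T.1 T.2.1
      (fun i => shift ((mf m U.1 i).charge) (κ i).1)
    have hch : ∀ i : Fin m, (mf m S i).charge = (mf m U.1 i).charge := by
      intro i
      rw [hSm]
      simp only
      rw [charge_shift, (κ i).2, zero_add]
    have hwt : wtS m S = w := by
      unfold wtS
      rw [hSr, hSm, T.2.2]
      simp only [size_shift]
      exact hq
    have hU := core_small m r hr U.1 U.2.1 U.2.2
    have hsum : ∑ s ∈ S, s = (2 * m + 1) * w + r := by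
      have h1 := sum_eq m S hS0
      have h2 := sum_eq m U.1 U.2.1
      rw [hU.1, U.2.2] at h2
      rw [hwt] at h1
      simp only [hch] at h1
      have h3 : ((∑ s ∈ S, s : ℕ) : ℤ) = (((2 * m + 1) * w + r : ℕ) : ℤ) := by
        rw [h1]
        push_cast at h2 ⊢
        linarith
      exact_mod_cast h3
    have hcore : coreS m S = U.1 := by
      rw [core_congr hch]
      exact hU.2.1
    have hmf : ∀ i : Fin m, norm (mf m S i) = (κ i).1 := by
      intro i
      rw [hSm]
      exact norm_shift _ _ (κ i).2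
    refine ⟨⟨⟨S, hS0, hsum⟩, hwt⟩, ?_⟩
    apply Subtype.ext
    apply Prod.ext
    · obtain ⟨T, hT0, hTs⟩ := T
      obtain ⟨U, hU0, hUs⟩ := U
      simp only at hSr hcore
      subst hSr
      subst hcore
      subst hTs
      rfl
    · funext i
      exact Subtype.ext (hmf i)
  exact ⟨Equiv.ofBijective F ⟨hinj, hsurj⟩, fun S => ⟨rfl, rfl, fun i => rfl⟩⟩

end Pool.Agent.Helper81.AN
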