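import Pool.Agent.Helper81.AN.BarG
import Pool.Agent.Helper81.AN.BarBij

/-!
# ALT-38: bar cores and bar quotients: the labels of the spin characters of degree prime to `p` (SP_C)

PROOF. `p = 2 m + 1`. A label `l : LabY (p w + r) 0` is `(S, ∅, s)`, `Σ S = p w + r` (a strict partition of `0` is empty), `s = 1` if `|S|` is even; degree
`2^(n - (|S| + 1)/2) gAux n S` (`gAux 0 ∅ = 1`). `p ∤ l.dg` iff `p ∤ gAux n S`; by `g_mod_zero` this implies `wtS m S = w`. For `wtS m S = w`: apply `bar_equiv`: `(T, U, κ)`, `T = r0`, `U = core`, and map `l` to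
`q = ((v, (T, U, s)), κ)`, `v = Σ T`. Parity: `|S| = |T| + 2 eN + |U|` (`charges_small`), so `s` is allowed, and `tw` corresponds. Degrees: by `g_mod_sq`, `g_S^2 = (2^e N_S g_U)^2`,
`N_S = binom(w, v) multinomial(sizes) g_T ∏ f(κ i)` (`f_norm`, `size_norm`; `w = v + Σ sizes`). Hence in `ZMod p`, with `k = (|T| + |U| + 1)/2`, `(|S| + 1)/2 = e + k`:
`l.dg^2 = 4^(p w + r - e - k) 4^e (N_S g_U)^2 = 4^(p w + r - k) (N_S g_U)^2`,
`q.dg^2 = (2^(w m))^2 (2m)^(2v) (binom mult ∏ f)^2 4^(w - v) (2^(v + r - k) g_T g_U)^2 = 4^(w m) 4^(w + r - k) (N_S g_U)^2`, as `(2m)^2 = (-1)^2 = 1`; and `4^(p w) = 4^w 4^(w (p-1))`, `4^(p - 1) = 1`, `4^(w m) = (2^(p-1))^w = 1`.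
So the squares agree; in particular `p ∤ l.dg` iff `p ∤ q.dg`. Both subtypes are then identified. (All subtractions are true subtractions: `|S| ≤ Σ S` etc.)
-/

set_option autoImplicit false

namespace Pool.Agent.Helper81.AN

open Pool.Agent.Helper24.AN

private theorem card_le_sum' (S : Finset ℕ) (hS : 0 ∉ S) : S.card ≤ ∑ s ∈ S, s := by
  rw [Finset.card_eq_sum_ones]
  apply Finset.sum_le_sum
  intro s hs
  exact Nat.one_le_iff_ne_zero.2 (fun h => hS (h ▸ hs))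

/-- the target of `bar_equiv` -/
private abbrev BB (m w r : ℕ) : Type :=
  {q : (Σ v : ℕ, SPn v × SPn r) × (Fin m → P0) // q.1.1 + ∑ i, (q.2 i).size = w}

/-- number of parts -/
private def BB.len {m w r : ℕ} (q : BB m w r) : ℕ :=
  q.1.1.2.1.1.card + q.1.1.2.2.1.card

/-- a label from its parts -/
private def mkZ {m w r : ℕ} (q : BB m w r) (s : ℤˣ) (h : Even q.len → s = 1) : LabZ m w r :=
  ⟨(⟨q.1.1.1, ⟨(⟨q.1.1.2.1.1, q.1.1.2.1.2.1⟩, ⟨q.1.1.2.2.1, q.1.1.2.2.2.1⟩, s),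
    q.1.1.2.1.2.2, q.1.1.2.2.2.2, h⟩⟩, q.1.2), q.2⟩

/-- the parts of a label -/
private def unZ {m w r : ℕ} (z : LabZ m w r) : BB m w r :=
  ⟨(⟨z.1.1.1, (⟨z.1.1.2.1.1.1, z.1.1.2.1.1.2, z.1.1.2.2.1⟩,
    ⟨z.1.1.2.1.2.1.1, z.1.1.2.1.2.1.2, z.1.1.2.2.2.1⟩)⟩, z.1.2), z.2⟩

private theorem unZ_mkZ {m w r : ℕ} (q : BB m w r) (s : ℤˣ) (h : Even q.len → s = 1) :
    unZ (mkZ q s h) = q := rfl

private theorem mkZ_unZ {m w r : ℕ} (z : LabZ m w r) :
    mkZ (unZ z) z.1.1.2.1.2.2 z.1.1.2.2.2.2 = z := rfl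

private theorem mkZ_congr {m w r : ℕ} {q q' : BB m w r} (hq : q = q') {s s' : ℤˣ} (hs : s = s')
    (h : Even q.len → s = 1) (h' : Even q'.len → s' = 1) : mkZ q s h = mkZ q' s' h' := by
  subst hq
  subst hs
  rfl

/-- a label from its parts -/
private def mkA {n : ℕ} (a : SPn n) (s : ℤˣ) (h : Even a.1.card → s = 1) : LabY n 0 :=
  ⟨(⟨a.1, a.2.1⟩, ⟨∅, Finset.notMem_empty _⟩, s), a.2.2, Finset.sum_empty, h⟩

/-- the part of a label -/
private def unA {n : ℕ} (l : LabY n 0) : SPn n := ⟨l.1.1.1, l.1.1.2, l.2.1⟩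

private theorem empty_of {n : ℕ} (l : LabY n 0) : l.1.2.1 = ⟨∅, Finset.notMem_empty _⟩ := by
  apply Subtype.ext
  have h1 : l.1.2.1.1.card ≤ ∑ s ∈ l.1.2.1.1, s := card_le_sum' _ l.1.2.1.2
  have h2 : ∑ s ∈ l.1.2.1.1, s = 0 := l.2.2.1
  rw [h2, Nat.le_zero, Finset.card_eq_zero] at h1
  exact h1

private theorem par_of {n : ℕ} (l : LabY n 0) (h : Even (unA l).1.card) : l.1.2.2 = 1 := by
  apply l.2.2.2
  rw [empty_of l]
  exact h

private theorem mkA_unA {n : ℕ} (l : LabY n 0) : mkA (unA l) l.1.2.2 (par_of l) = l := by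
  apply Subtype.ext
  refine Prod.ext rfl (Prod.ext ?_ rfl)
  exact (empty_of l).symm

private theorem mkA_congr {n : ℕ} {a a' : SPn n} (ha : a = a') {s s' : ℤˣ} (hs : s = s')
    (h : Even a.1.card → s = 1) (h' : Even a'.1.card → s' = 1) : mkA a s h = mkA a' s' h' := by
  subst ha
  subst hs
  rfl

private theorem dgA {n : ℕ} (a : SPn n) (s : ℤˣ) (h : Even a.1.card → s = 1) :
    (mkA a s h).dg = 2 ^ (n - (a.1.card + 1) / 2) * gAux n a.1 := by
  have h1 : (mkA a s h).dg = 2 ^ (n + 0 - (a.1.card + 0 + 1) / 2) * gAux (∑ t ∈ a.1, t) a.1 * 1 :=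
    rfl
  rw [h1, a.2.2, add_zero, add_zero, mul_one]

private theorem dgZ {m w r : ℕ} (q : BB m w r) (s : ℤˣ) (h : Even q.len → s = 1) :
    (mkZ q s h).dg = 2 ^ (w * m) * (2 * m) ^ q.1.1.1 * w.choose q.1.1.1 *
      Nat.multinomial Finset.univ (fun i => (q.1.2 i).size) * 2 ^ (w - q.1.1.1) *
      (∏ i, (q.1.2 i).f) * (2 ^ (q.1.1.1 + r - (q.len + 1) / 2) * gAux q.1.1.1 q.1.1.2.1.1 *
        gAux r q.1.1.2.2.1) := by
  have h1 : (mkZ q s h).dg = 2 ^ (w * m) * (2 * m) ^ q.1.1.1 * w.choose q.1.1.1 *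
      Nat.multinomial Finset.univ (fun i => (q.1.2 i).size) * 2 ^ (w - q.1.1.1) *
      (∏ i, (q.1.2 i).f) * (2 ^ (q.1.1.1 + r - (q.len + 1) / 2) *
        gAux (∑ t ∈ q.1.1.2.1.1, t) q.1.1.2.1.1 *
        gAux (∑ t ∈ q.1.1.2.2.1, t) q.1.1.2.2.1) := rfl
  rw [h1, q.1.1.2.1.2.2, q.1.1.2.2.2.2]

private theorem dg_main (m : ℕ) [Fact (2 * m + 1).Prime] (hm : 0 < m) (w r : ℕ)
    (hr : r < 2 * m + 1) (a : SPn ((2 * m + 1) * w + r)) (hw : wtS m a.1 = w) (q : BB m w r)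
    (hT : q.1.1.2.1.1 = r0 m a.1) (hU : q.1.1.2.2.1 = coreS m a.1)
    (hκ : ∀ i, (q.1.2 i).1 = norm (mf m a.1 i)) (s : ℤˣ)
    (h : Even a.1.card → s = 1) (h' : Even q.len → s = 1) :
    (((mkZ q s h').dg : ℕ) : ZMod (2 * m + 1)) ^ 2 =
      ((mkA a s h).dg : ZMod (2 * m + 1)) ^ 2 := by
  obtain ⟨-, hc0, hcs, hcard⟩ := charges_small m w r hr a.1 a.2.1 a.2.2 hw
  have hg := g_mod_sq m hm w r hr a.1 a.2.1 a.2.2 hw
  have hv : ∑ t ∈ r0 m a.1, t = q.1.1.1 := by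
    rw [← hT]
    exact q.1.1.2.1.2.2
  have hsz : ∀ i, (q.1.2 i).size = (mf m a.1 i).size := by
    intro i
    change (q.1.2 i).1.size = _
    rw [hκ, size_norm]
  have hf : ∀ i, (q.1.2 i).f = (mf m a.1 i).f := by
    intro i
    change (q.1.2 i).1.f = _
    rw [hκ, f_norm]
  have hN : NS m a.1 = w.choose q.1.1.1 *
      Nat.multinomial Finset.univ (fun i => (q.1.2 i).size) * gAux q.1.1.1 q.1.1.2.1.1 *
        ∏ i, (q.1.2 i).f := by
    have hq := q.2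
    unfold NS NQ0
    simp only [hsz] at hq
    simp only [hsz, hf, hv, hT]
    rw [hq]
  have hlen : q.len = (r0 m a.1).card + (coreS m a.1).card := by
    unfold BB.len
    rw [hT, hU]
  have hlv : (r0 m a.1).card ≤ q.1.1.1 := by
    rw [← hv]
    exact card_le_sum' _ (r0_zero m a.1 a.2.1)
  have hlr : (coreS m a.1).card ≤ r := by
    have := card_le_sum' _ hc0
    rwa [hcs] at this
  have hvw : q.1.1.1 ≤ w := by
    have := q.2
    omega
  have hSn : a.1.card ≤ (2 * m + 1) * w + r := by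
    have := card_le_sum' _ a.2.1
    rwa [a.2.2] at this
  -- the number two
  have h2 : (2 : ZMod (2 * m + 1)) ≠ 0 := by
    intro h0
    have h1 : ((2 : ℕ) : ZMod (2 * m + 1)) = 0 := by exact_mod_cast h0
    rw [ZMod.natCast_eq_zero_iff] at h1
    have := Nat.le_of_dvd (by norm_num) h1
    omega
  have hF : (2 : ZMod (2 * m + 1)) ^ (2 * m) = 1 := by
    have := ZMod.pow_card_sub_one_eq_one h2
    simpa using this
  have hm1 : (2 : ZMod (2 * m + 1)) * (m : ZMod (2 * m + 1)) = -1 := by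
    have h1 : ((2 * m + 1 : ℕ) : ZMod (2 * m + 1)) = 0 := ZMod.natCast_self _
    push_cast at h1
    exact eq_neg_of_add_eq_zero_left h1
  rw [dgA, dgZ]
  set k := (q.len + 1) / 2 with hk
  have hk1 : k ≤ q.1.1.1 + r := by omega
  have hk2 : (a.1.card + 1) / 2 = eN m a.1 + k := by omega
  have hek : eN m a.1 + k ≤ (2 * m + 1) * w + r := by omega
  have hNc : ((NS m a.1 : ℕ) : ZMod (2 * m + 1)) = (w.choose q.1.1.1 : ZMod (2 * m + 1)) *
      (Nat.multinomial Finset.univ (fun i => (q.1.2 i).size) : ZMod (2 * m + 1)) *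
        (gAux q.1.1.1 q.1.1.2.1.1 : ZMod (2 * m + 1)) *
        ((∏ i, (q.1.2 i).f : ℕ) : ZMod (2 * m + 1)) := by
    rw [hN]
    push_cast
    ring
  have e1 : (((2 ^ ((2 * m + 1) * w + r - (a.1.card + 1) / 2) *
      gAux ((2 * m + 1) * w + r) a.1 : ℕ) : ZMod (2 * m + 1))) ^ 2 =
      (2 ^ (w + r - k) * ((NS m a.1 : ZMod (2 * m + 1)) *
        (gAux r (coreS m a.1) : ZMod (2 * m + 1)))) ^ 2 := by
    rw [Nat.cast_mul, mul_pow, hg, hk2]
    push_cast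
    have e2 : (2 * m + 1) * w + r - (eN m a.1 + k) + eN m a.1 = (2 * m) * w + (w + r - k) := by
      have : (2 * m + 1) * w = (2 * m) * w + w := by ring
      omega
    have e3 : (2 : ZMod (2 * m + 1)) ^ ((2 * m + 1) * w + r - (eN m a.1 + k)) * 2 ^ eN m a.1 =
        2 ^ (w + r - k) := by
      rw [← pow_add, e2, pow_add, pow_mul, hF, one_pow, one_mul]
    rw [← mul_pow, ← e3]
    ring
  rw [e1]
  have e4 : (((2 ^ (w * m) * (2 * m) ^ q.1.1.1 * w.choose q.1.1.1 *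
      Nat.multinomial Finset.univ (fun i => (q.1.2 i).size) * 2 ^ (w - q.1.1.1) *
      (∏ i, (q.1.2 i).f) * (2 ^ (q.1.1.1 + r - k) * gAux q.1.1.1 q.1.1.2.1.1 *
        gAux r q.1.1.2.2.1) : ℕ) : ZMod (2 * m + 1))) =
      2 ^ (w * m) * (-1) ^ q.1.1.1 * (2 ^ (w + r - k) * ((NS m a.1 : ZMod (2 * m + 1)) *
        (gAux r (coreS m a.1) : ZMod (2 * m + 1)))) := by
    rw [hNc, ← hU]
    have e5 : w + r - k = (w - q.1.1.1) + (q.1.1.1 + r - k) := by omega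
    rw [e5, pow_add, ← hm1]
    push_cast
    ring
  rw [e4, mul_pow, mul_pow, ← pow_mul, ← pow_mul, mul_comm q.1.1.1 2, pow_mul (-1) 2]
  have e6 : w * m * 2 = 2 * m * w := by ring
  rw [e6, pow_mul, hF, one_pow, neg_one_sq, one_pow, one_mul, one_mul]

theorem sp_C (p : ℕ) (hp : p.Prime) (m : ℕ) (hm : 2 * m + 1 = p) (hm0 : 0 < m) (w r : ℕ)
    (hr : r < p) :
    ∃ e : {l : LabY (p * w + r) 0 // ¬ p ∣ l.dg} ≃ {q : LabZ m w r // ¬ p ∣ q.dg},
      (∀ l l', l'.1 = l.1.tw → (e l').1 = (e l).1.tw) ∧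
      ∀ l, (((e l).1.dg : ℕ) : ZMod p) ^ 2 = (l.1.dg : ZMod p) ^ 2 := by
  subst hm
  haveI : Fact (2 * m + 1).Prime := ⟨hp⟩
  have hbe : ∃ e : {S : SPn ((2 * m + 1) * w + r) // wtS m S.1 = w} ≃ BB m w r,
      ∀ S, (e S).1.1.2.1.1 = r0 m S.1.1 ∧ (e S).1.1.2.2.1 = coreS m S.1.1 ∧
        ∀ i, ((e S).1.2 i).1 = norm (mf m S.1.1 i) := bar_equiv m w r hr
  obtain ⟨e0, he0⟩ := hbe
  -- the weight
  have hwt : ∀ l : LabY ((2 * m + 1) * w + r) 0, ¬ (2 * m + 1) ∣ l.dg → wtS m (unA l).1 = w := by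
    intro l hl
    by_contra hne
    apply hl
    rw [← mkA_unA l, dgA]
    apply Dvd.dvd.mul_left
    rw [← ZMod.natCast_eq_zero_iff]
    exact g_mod_zero m hm0 w r hr _ (unA l).2.1 (unA l).2.2 hne
  have hpar : ∀ a : {S : SPn ((2 * m + 1) * w + r) // wtS m S.1 = w},
      (Even (e0 a).len ↔ Even a.1.1.card) := by
    intro a
    obtain ⟨-, -, -, hcard⟩ := charges_small m w r hr a.1.1 a.1.2.1 a.1.2.2 a.2
    obtain ⟨h1, h2, -⟩ := he0 a
    unfold BB.len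
    rw [h1, h2, hcard, add_right_comm, Nat.even_add (m := _ + _) (n := 2 * _)]
    simp
  have hdg : ∀ (a : {S : SPn ((2 * m + 1) * w + r) // wtS m S.1 = w}) (s : ℤˣ)
      (h : Even a.1.1.card → s = 1) (h' : Even (e0 a).len → s = 1),
      (((mkZ (e0 a) s h').dg : ℕ) : ZMod (2 * m + 1)) ^ 2 =
        ((mkA a.1 s h).dg : ZMod (2 * m + 1)) ^ 2 := by
    intro a s h h'
    obtain ⟨h1, h2, h3⟩ := he0 a
    exact dg_main m hm0 w r hr a.1 a.2 (e0 a) h1 h2 h3 s h h'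
  have hdvd : ∀ (a : {S : SPn ((2 * m + 1) * w + r) // wtS m S.1 = w}) (s : ℤˣ)
      (h : Even a.1.1.card → s = 1) (h' : Even (e0 a).len → s = 1),
      (2 * m + 1) ∣ (mkZ (e0 a) s h').dg ↔ (2 * m + 1) ∣ (mkA a.1 s h).dg := by
    intro a s h h'
    have h1 := hdg a s h h'
    rw [← ZMod.natCast_eq_zero_iff, ← ZMod.natCast_eq_zero_iff]
    constructor
    · intro h0
      rw [h0, zero_pow two_ne_zero] at h1
      exact pow_eq_zero_iff two_ne_zero |>.1 h1.symm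
    · intro h0
      rw [h0, zero_pow two_ne_zero] at h1
      exact pow_eq_zero_iff two_ne_zero |>.1 h1
  let F : {l : LabY ((2 * m + 1) * w + r) 0 // ¬ (2 * m + 1) ∣ l.dg} →
      {q : LabZ m w r // ¬ (2 * m + 1) ∣ q.dg} := fun l =>
    ⟨mkZ (e0 ⟨unA l.1, hwt l.1 l.2⟩) l.1.1.2.2 (fun h => par_of l.1 ((hpar _).1 h)), by
      rw [hdvd ⟨unA l.1, hwt l.1 l.2⟩ l.1.1.2.2 (par_of l.1), mkA_unA]
      exact l.2⟩
  let Gf : {q : LabZ m w r // ¬ (2 * m + 1) ∣ q.dg} →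
      {l : LabY ((2 * m + 1) * w + r) 0 // ¬ (2 * m + 1) ∣ l.dg} := fun z =>
    ⟨mkA (e0.symm (unZ z.1)).1 z.1.1.1.2.1.2.2 (fun h => z.1.1.1.2.2.2.2 (by
        have h1 := (hpar (e0.symm (unZ z.1))).2 h
        rw [Equiv.apply_symm_apply] at h1
        exact h1)), by
      rw [← hdvd (e0.symm (unZ z.1)) z.1.1.1.2.1.2.2 _ (fun h => z.1.1.1.2.2.2.2 (by
        rw [Equiv.apply_symm_apply] at h
        exact h))]
      have h2 := mkZ_congr (Equiv.apply_symm_apply e0 (unZ z.1)) (rfl : z.1.1.1.2.1.2.2 = _)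
        (fun h => z.1.1.1.2.2.2.2 (by
          rw [Equiv.apply_symm_apply] at h
          exact h)) z.1.1.1.2.2.2.2
      rw [h2, mkZ_unZ]
      exact z.2⟩
  have hleft : ∀ l, Gf (F l) = l := by
    intro l
    apply Subtype.ext
    refine Eq.trans ?_ (mkA_unA l.1)
    refine mkA_congr ?_ ?_ (par_of (Gf (F l)).1) _
    · change (e0.symm (e0 ⟨unA l.1, hwt l.1 l.2⟩)).1 = unA l.1
      rw [Equiv.symm_apply_apply]
    · rfl
  have hright : ∀ z, F (Gf z) = z := by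
    intro z
    apply Subtype.ext
    refine Eq.trans ?_ (mkZ_unZ z.1)
    refine mkZ_congr ?_ ?_ (F (Gf z)).1.1.1.2.2.2.2 _
    · change e0 ⟨(e0.symm (unZ z.1)).1, _⟩ = unZ z.1
      rw [Subtype.coe_eta, Equiv.apply_symm_apply]
    · rfl
  refine ⟨⟨F, Gf, hleft, hright⟩, ?_, ?_⟩
  · intro l l' hll
    have hu : unA l'.1 = unA l.1 := by
      rw [hll]
      rfl
    have hs : l'.1.1.2.2 = if Even (l.1.1.1.len + l.1.1.2.1.len) then l.1.1.2.2
        else -l.1.1.2.2 := by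
      rw [hll]
      rfl
    have hl0 : l.1.1.2.1.len = 0 := by
      rw [empty_of l.1]
      rfl
    have hp2 := hpar ⟨unA l.1, hwt l.1 l.2⟩
    have ht : LabZ.tw (F l).1 = mkZ (e0 ⟨unA l.1, hwt l.1 l.2⟩)
        (if Even (e0 ⟨unA l.1, hwt l.1 l.2⟩).len then l.1.1.2.2 else -l.1.1.2.2)
        (fun h => by
          rw [if_pos h]
          exact par_of l.1 (hp2.1 h)) := rfl
    refine Eq.trans ?_ ht.symm
    refine mkZ_congr ?_ ?_ (F l').1.1.1.2.2.2.2 _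
    · congr 1
      exact Subtype.ext hu
    · refine Eq.trans hs ?_
      rw [hl0, add_zero]
      by_cases hc : Even l.1.1.1.len
      · rw [if_pos hc, if_pos (hp2.2 hc)]
      · rw [if_neg hc, if_neg (fun h => hc (hp2.1 h))]
  · intro l
    have := hdg ⟨unA l.1, hwt l.1 l.2⟩ l.1.1.2.2 (par_of l.1)
      (fun h => par_of l.1 ((hpar _).1 h))
    refine Eq.trans this ?_
    rw [mkA_unA]

end Pool.Agent.Helper81.AN
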