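import Pool.Agent.Helper81.AN.SpG
import Pool.Agent.Helper42.INC.Basic

/-!
# ALT-30: the spin characters for the full symmetric group (SP_G0)

PROOF. For `|ι| = n` choose a bijection `e : Fin n ⊕ Fin 0 ≃ ι`. It induces an isomorphism `Cl (Fin n ⊕ Fin 0) ≃* Cl ι` (`Cl.lift` both ways), an isomorphism
`Perm (Fin n) × Perm (Fin 0) ≃* Perm ι` (`Perm (Fin 0)` is trivial), compatible with the actions, so an isomorphism
`BG (youngH (Fin n) (Fin 0)) ≃* BG (permH ι)` which respects `BG.z` and `BG.par` (`SemidirectProduct.congr` or `SemidirectProduct.map`). Transport `Lab` along a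
group isomorphism: `Lab.congr` (characters are transported by composition; `Irr` is stable, see `Helper42/INC/Basic.lean` or `cnt_congr`).
-/

set_option autoImplicit false

open Equiv

namespace Pool.Agent.Helper81.AN

open Pool.Agent.Helper42.INC Pool.Agent.Helper7.MK

theorem Lab.congr {X Y : Type} [Group X] [Group Y] (e : X ≃* Y) (εX : X →* ℤˣ) (εY : Y →* ℤˣ)
    (hε : ∀ x, εY (e x) = εX x) (zX : X) (ν : ℂ) {L : Type} {tw : L → L} {dg : L → ℕ}
    (h : Nonempty (Lab X εX zX ν L tw dg)) : Nonempty (Lab Y εY (e zX) ν L tw dg) := by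
  obtain ⟨l⟩ := h
  let E : IrrZ (e zX) ν ≃ IrrZ zX ν :=
    { toFun := fun χ => ⟨fun x => χ.1 (e x), irr_comp e χ.2.1, by
        have := χ.2.2
        simpa using this⟩
      invFun := fun χ => ⟨fun y => χ.1 (e.symm y), irr_comp e.symm χ.2.1, by
        have := χ.2.2
        simpa using this⟩
      left_inv := fun χ => by
        apply Subtype.ext
        funext y
        simp
      right_inv := fun χ => by
        apply Subtype.ext
        funext y
        simp }
  refine ⟨⟨E.trans l.e, ?_, ?_⟩⟩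
  · intro χ χ' hχ
    refine l.twist (E χ) (E χ') fun x => ?_
    change χ'.1 (e x) = _ * χ.1 (e x)
    rw [hχ, hε]
  · intro χ
    have h := l.deg (E χ)
    change χ.1 (e 1) = _ at h
    rw [map_one] at h
    exact h

private def clMap {ι κ : Type} (e : ι → κ) (he : Function.Injective e) : Cl ι →* Cl κ :=
  Cl.lift Cl.z (fun i => Cl.a (e i)) Cl.z_sq (fun _ => Cl.a_sq _) (fun _ => Cl.z_a _)
    (fun _ _ hij => Cl.a_a fun h => hij (he h))

private def clEquiv {ι κ : Type} (e : ι ≃ κ) : Cl ι ≃* Cl κ :=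
  MonoidHom.toMulEquiv (clMap e e.injective) (clMap e.symm e.symm.injective)
    (by
      apply Cl.hom_ext
      · simp [clMap]
      · intro i
        simp [clMap])
    (by
      apply Cl.hom_ext
      · simp [clMap]
      · intro i
        simp [clMap])

private theorem clEquiv_a {ι κ : Type} (e : ι ≃ κ) (i : ι) : clEquiv e (Cl.a i) = Cl.a (e i) := by
  change clMap e e.injective (Cl.a i) = _
  simp [clMap]

private theorem clEquiv_z {ι κ : Type} (e : ι ≃ κ) : clEquiv e Cl.z = Cl.z := by
  change clMap e e.injective Cl.z = _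
  simp [clMap]

private theorem act_inr {ι : Type} (σ : Perm ι) (i : ι) :
    Cl.actHom (SemidirectProduct.inr σ : SPerm ι) (Cl.a i) = Cl.a (σ i) := by
  rw [Cl.actHom_a]
  change Cl.u 1 * _ = _
  rw [map_one, one_mul]
  rfl

theorem sp_G0 (ι : Type) [Fintype ι] (n : ℕ) (hn : Fintype.card ι = n) :
    Nonempty (Lab (BG (permH ι)) (BG.par _) (BG.z _) (-1) (LabY n 0) LabY.tw LabY.dg) := by
  classical
  let e1 : Fin n ≃ ι := (Fintype.equivFinOfCardEq hn).symm
  let e0 : Fin n ⊕ Fin 0 ≃ ι := (Equiv.sumEmpty (Fin n) (Fin 0)).trans e1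
  let fg : Perm (Fin n) × Perm (Fin 0) ≃* Perm ι :=
    (MulEquiv.prodUnique : Perm (Fin n) × Perm (Fin 0) ≃* Perm (Fin n)).trans e1.permCongrHom
  let fn : Cl (Fin n ⊕ Fin 0) ≃* Cl ι := clEquiv e0
  have hact : ∀ g : Perm (Fin n) × Perm (Fin 0),
      (((Cl.act (ι := Fin n ⊕ Fin 0)).comp (youngH (Fin n) (Fin 0))) g).trans fn =
        fn.trans (((Cl.act (ι := ι)).comp (permH ι)) (fg g)) := by
    intro g
    have key : (fn : Cl (Fin n ⊕ Fin 0) →* Cl ι).comp
        (Cl.actHom (youngH (Fin n) (Fin 0) g)) =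
        (Cl.actHom (permH ι (fg g))).comp (fn : Cl (Fin n ⊕ Fin 0) →* Cl ι) := by
      apply Cl.hom_ext
      · simp [fn, clEquiv, clMap]
      · intro i
        rcases i with i | i
        · have h2 : Perm.sumCongrHom (Fin n) (Fin 0) g (Sum.inl i) = Sum.inl (g.1 i) := rfl
          have h4 : (fg g) (e0 (Sum.inl i)) = e0 (Sum.inl (g.1 i)) := by
            change e1 (g.1 (e1.symm (e1 i))) = e1 (g.1 i)
            rw [Equiv.symm_apply_apply]
          change fn (Cl.actHom (SemidirectProduct.inr (Perm.sumCongrHom (Fin n) (Fin 0) g))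
              (Cl.a (Sum.inl i))) =
            Cl.actHom (SemidirectProduct.inr (fg g)) (fn (Cl.a (Sum.inl i)))
          rw [act_inr, h2]
          change clEquiv e0 _ = Cl.actHom _ (clEquiv e0 _)
          rw [clEquiv_a, clEquiv_a, act_inr, h4]
        · exact i.elim0
    apply MulEquiv.ext
    intro x
    exact DFunLike.congr_fun key x
  let E : BG (youngH (Fin n) (Fin 0)) ≃* BG (permH ι) := SemidirectProduct.congr fn fg hact
  have hz : E (BG.z _) = BG.z _ := by
    apply SemidirectProduct.ext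
    · exact clEquiv_z e0
    · change fg 1 = 1
      exact map_one fg
  have hp : ∀ x, BG.par (permH ι) (E x) = BG.par (youngH (Fin n) (Fin 0)) x := by
    intro x
    have hpar : (Cl.par (ι := ι)).comp (fn : Cl (Fin n ⊕ Fin 0) →* Cl ι) = Cl.par := by
      apply Cl.hom_ext
      · simp [fn, clEquiv, clMap, Cl.par]
      · intro i
        simp [fn, clEquiv, clMap, Cl.par]
    change Cl.par (fn x.left) * 1 = Cl.par x.left * 1
    rw [← hpar]
    rfl
  have h := Lab.congr E (BG.par _) (BG.par _) hp (BG.z _) (-1) (sp_G n 0)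
  rw [hz] at h
  exact h

end Pool.Agent.Helper81.AN
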