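import Pool.Agent.Helper81.AN.Idx2
import Pool.Agent.Helper24.LOC.CGal

/-!
# ALT-40: transfer to the cover, linear characters

PROOF. Let `ε = sign ∘ h : L → {±1}`, `H = ε.ker`. For `t ∈ T = π⁻¹(h(L))` let `f t ∈ L` be the element with `h (f t) = π t` (`h` injective); it is a homomorphism `T → L` with image `H` (`π.range` is the
alternating group: `π t` is even; conversely for `l ∈ H`, `h l` is even, so `h l = π k`, `k ∈ T`) and kernel `{1, z}` (`z ∈ T`). So `Irr H` corresponds to the characters of `T` with `θ(z t) = θ(t)`, i.e. `θ(z) = θ(1)`: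
inflation (`Helper42/INC/Inflate.lean`; if `z = 1` this is clear); degrees are the same. `f (α t) = s f(t) s⁻¹` (apply `h`), so `α`-invariance of the inflation is invariance under conjugation with `s`. Apply `idx2` to `X = L`, `z = 1`, `ν = 1`.
(The condition `∀ t, (t : K) = z → θ t = 1 * θ 1`, for `θ` irreducible, `z` central of order at most two, means that `θ` is constant on the cosets of `{1, z}`: `exists_central` in `Helper42/INC/Inflate.lean`. `z` is central in `K`: its
conjugates are in the kernel of `π` and different from `1`.)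
-/

set_option autoImplicit false

open Equiv

namespace Pool.Agent.Helper81.AN

open Pool.Agent.Helper42.INC

/-- counting characters of a quotient -/
theorem tr_card {X Y : Type} [Group X] [Group Y] [Finite X] [Finite Y] (f : X →* Y)
    (hf : Function.Surjective f) (PX : (X → ℂ) → Prop) (PY : (Y → ℂ) → Prop)
    (hP : ∀ η : Y → ℂ, PX (fun x => η (f x)) ↔ PY η)
    (hk : ∀ θ ∈ Irr X, PX θ → ∀ k ∈ f.ker, ∀ x, θ (k * x) = θ x) :
    Nat.card {θ : X → ℂ // θ ∈ Irr X ∧ PX θ} = Nat.card {θ : Y → ℂ // θ ∈ Irr Y ∧ PY θ} := by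
  symm
  refine Nat.card_congr (Equiv.ofBijective
    (fun θ => ⟨fun x => θ.1 (f x), irr_infl f hf θ.2.1, (hP θ.1).2 θ.2.2⟩) ⟨?_, ?_⟩)
  · intro θ θ' h
    apply Subtype.ext
    funext y
    obtain ⟨x, rfl⟩ := hf y
    exact congrFun (congrArg Subtype.val h) x
  · rintro ⟨θ, hθ, hPθ⟩
    obtain ⟨η, hη⟩ := (inflEquiv f hf).surjective ⟨⟨θ, hθ⟩, hk θ hθ hPθ⟩
    have hη' : (fun x => η.1 (f x)) = θ := congrArg (fun t => t.1.1) hη
    refine ⟨⟨η.1, η.2, (hP η.1).1 ?_⟩, Subtype.ext hη'⟩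
    rw [hη']
    exact hPθ

theorem trL (p : ℕ) [Fact p.Prime] (h2 : p ≠ 2) (ι : Type) [Fintype ι] [DecidableEq ι]
    (K : Type) [Group K] [Finite K] (π : K →* Perm ι) (hr : π.range = alternatingGroup ι)
    (z : K) (hz : ∀ k, π k = 1 ↔ (k = 1 ∨ k = z)) (L : Type) [Group L] [Finite L]
    (h : L →* Perm ι) (hinj : Function.Injective h) (s : L) (hs : Perm.sign (h s) = -1)
    (α : MulAut K) (hα : ∀ k, π (α k) = h s * π k * (h s)⁻¹) (d : ZMod p) :
    2 * cF p (h.range.comap π) α z 1 d = lN p (Perm.sign.comp h) 1 1 d ∧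
    cN p (h.range.comap π) α z 1 d = 2 * lF p (Perm.sign.comp h) 1 1 (4 * d) := by
  classical
  set T : Subgroup K := h.range.comap π with hT
  set ε : L →* ℤˣ := Perm.sign.comp h with hε
  have hspec : ∀ t : T, ∃ l : ε.ker, h l = π t := by
    intro t
    obtain ⟨l, hl⟩ := t.2
    refine ⟨⟨l, ?_⟩, hl⟩
    rw [MonoidHom.mem_ker, hε, MonoidHom.comp_apply, hl]
    have : π t ∈ alternatingGroup ι := by rw [← hr]; exact ⟨t, rfl⟩
    exact Perm.mem_alternatingGroup.1 this
  choose f0 hf0 using hspec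
  have hker_inj : ∀ x y : ε.ker, h x = h y → x = y := fun x y hxy => Subtype.ext (hinj hxy)
  let f : T →* ε.ker :=
    { toFun := f0
      map_one' := by
        apply hker_inj
        rw [hf0]
        simp
      map_mul' := by
        intro a b
        apply hker_inj
        rw [hf0]
        rw [Subgroup.coe_mul, Subgroup.coe_mul, map_mul, map_mul, hf0, hf0] }
  have hf : ∀ t : T, h (f t : L) = π t := hf0
  have hsurj : Function.Surjective f := by
    intro l
    have h1 : h l ∈ π.range := by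
      rw [hr, Perm.mem_alternatingGroup]
      exact l.2
    obtain ⟨k, hk⟩ := h1
    refine ⟨⟨k, ⟨l, hk.symm⟩⟩, ?_⟩
    apply hker_inj
    rw [hf]
    exact hk
  have hfker : ∀ t : T, f t = 1 ↔ ((t : K) = 1 ∨ (t : K) = z) := by
    intro t
    rw [← hz, ← hf]
    constructor
    · intro h1
      rw [h1]
      simp
    · intro h1
      apply hker_inj
      rw [h1]
      simp
  have hαT : ∀ t : T, α (t : K) ∈ T := by
    intro t
    refine ⟨s * f t * s⁻¹, ?_⟩
    rw [hα, map_mul, map_mul, map_inv, hf]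
  have hfα : ∀ t t' : T, (t' : K) = α t → ((f t' : ε.ker) : L) = s * f t * s⁻¹ := by
    intro t t' h1
    apply hinj
    rw [hf, h1, hα, map_mul, map_mul, map_inv, hf]
  have hz1 : ∀ η : ε.ker → ℂ, (∀ t : T, (t : K) = z → η (f t) = 1 * η (f 1)) := by
    intro η t ht
    rw [(hfker t).2 (Or.inr ht), map_one, one_mul]
  have hz2 : ∀ η : ε.ker → ℂ, (∀ t : ε.ker, (t : L) = 1 → η t = 1 * η 1) := by
    intro η t ht
    have : t = 1 := Subtype.ext ht
    rw [this, one_mul]
  have hdeg : ∀ η : ε.ker → ℂ, deg (fun t => η (f t)) = deg η := by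
    intro η
    unfold deg
    simp only [map_one]
  have hinv : ∀ η : ε.ker → ℂ, (∀ t t' : T, (t' : K) = α t → η (f t') = η (f t)) ↔
      (∀ x y : ε.ker, (y : L) = s * x * s⁻¹ → η y = η x) := by
    intro η
    constructor
    · intro h1 x y hxy
      obtain ⟨t, rfl⟩ := hsurj x
      have h3 := h1 t ⟨α t, hαT t⟩ rfl
      have h4 : f ⟨α t, hαT t⟩ = y := Subtype.ext ((hfα t _ rfl).trans hxy.symm)
      rw [← h4, h3]
    · intro h1 t t' h3
      exact h1 _ _ (hfα t t' h3)
  have hkk : ∀ θ ∈ Irr T, (∀ t : T, (t : K) = z → θ t = 1 * θ 1) →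
      ∀ k ∈ f.ker, ∀ x, θ (k * x) = θ x := by
    intro θ hθ h1
    apply Pool.Agent.Helper24.LOC.char_ker hθ
    intro k hk
    rcases (hfker k).1 hk with h3 | h3
    · have : k = 1 := Subtype.ext h3
      rw [this]
    · rw [h1 k h3, one_mul]
  obtain ⟨i1, i2⟩ := idx2 p h2 ε 1 (fun x => by rw [one_mul, mul_one]) (map_one ε) 1 s hs d
  constructor
  · rw [← i1]
    congr 1
    exact tr_card f hsurj
      (fun θ => (∀ t : T, (t : K) = z → θ t = 1 * θ 1) ∧ (deg θ : ZMod p) ^ 2 = d ∧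
        ∀ t t' : T, (t' : K) = α t → θ t' = θ t)
      (fun θ => (∀ t : ε.ker, (t : L) = 1 → θ t = 1 * θ 1) ∧ (deg θ : ZMod p) ^ 2 = d ∧
        ∀ x y : ε.ker, (y : L) = s * x * s⁻¹ → θ y = θ x)
      (fun η => by
        simp only [hdeg, hinv η]
        constructor
        · rintro ⟨_, h3, h4⟩
          exact ⟨hz2 η, h3, h4⟩
        · rintro ⟨_, h3, h4⟩
          exact ⟨hz1 η, h3, h4⟩)
      (fun θ hθ h1 => hkk θ hθ h1.1)
  · rw [← i2]
    exact tr_card f hsurj
      (fun θ => (∀ t : T, (t : K) = z → θ t = 1 * θ 1) ∧ (deg θ : ZMod p) ^ 2 = d ∧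
        ¬ ∀ t t' : T, (t' : K) = α t → θ t' = θ t)
      (fun θ => (∀ t : ε.ker, (t : L) = 1 → θ t = 1 * θ 1) ∧ (deg θ : ZMod p) ^ 2 = d ∧
        ¬ ∀ x y : ε.ker, (y : L) = s * x * s⁻¹ → θ y = θ x)
      (fun η => by
        simp only [hdeg, hinv η]
        constructor
        · rintro ⟨_, h3, h4⟩
          exact ⟨hz2 η, h3, h4⟩
        · rintro ⟨_, h3, h4⟩
          exact ⟨hz1 η, h3, h4⟩)
      (fun θ hθ h1 => hkk θ hθ h1.1)

end Pool.Agent.Helper81.AN
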