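import Pool.Agent.Helper81.AN.TenDefs

/-!
# AN-01: sum of squares of the degrees over a linear character of a normal subgroup

`C` normal in `X`, `lam : C → ℂˣ` a linear character invariant under `X`. Then
`Σ χ(1)^2 = |X| / |C|`, the sum over the irreducible characters `χ` of `X` with
`χ(c) = lam(c) χ(1)` for `c ∈ C`.

PROOF. Let `χ` be any irreducible character of `X`. Column orthogonality (or: the regular
character; in the library `sum_deg_sq` and `expand` of `Helper42/INC/Basic.lean`) gives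
`Σ_χ χ(1) χ(c⁻¹) = |X|` if `c = 1` and `0` otherwise. Multiply with `lam(c)` and sum over `c ∈ C`:
`Σ_χ χ(1) S(χ) = |X|` with `S(χ) = Σ_{c ∈ C} lam(c) χ(c⁻¹)`. If `χ(c) = lam(c) χ(1)` on `C`, then
`S(χ) = |C| χ(1)`. Otherwise `S(χ) = 0`: let `ρ` afford `χ`; the operator
`P = |C|⁻¹ Σ_c lam(c) ρ(c⁻¹)` is a projection which commutes with `ρ(X)` (`C` normal, `lam`
invariant), so it is `0` or `1` by Schur; its trace is `S(χ) / |C|`; if `P = 1` then
`ρ(c) = ρ(c) P = lam(c) P = lam(c)`, so `χ(c) = lam(c) χ(1)`.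

An alternative for Schur: `Representation.IsIrreducible.algebraMap_intertwiningMap_bijective_of_isAlgClosed`
as in `exists_central` of `Helper42/INC/Inflate.lean`.
-/

set_option autoImplicit false

namespace Pool.Agent.Helper81.AN

open Pool.Agent.Helper42.INC

/-- the irreducible characters of `X` over the linear character `lam` of the subgroup `C` -/
def IrrC {X : Type} [Group X] (C : Subgroup X) (lam : C →* ℂˣ) : Set (X → ℂ) :=
  {χ | χ ∈ Irr X ∧ ∀ c : C, χ c = (lam c : ℂ) * χ 1}

private theorem schur_sum {X : Type} [Group X] (C : Subgroup X) [Fintype C] (hC : C.Normal)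
    (lam : C →* ℂˣ) (hinv : ∀ (x : X) (c c' : C), (c' : X) = x * c * x⁻¹ → lam c' = lam c)
    {χ : X → ℂ} (hχ : χ ∈ Irr X) (hn : χ ∉ IrrC C lam) :
    ∑ c : C, (lam c : ℂ) * χ (c : X)⁻¹ = 0 := by
  have hirr := hχ
  obtain ⟨V, _, _, _, ρ, hρ, rfl⟩ := hχ
  set P : V →ₗ[ℂ] V := ∑ c : C, (lam c : ℂ) • ρ ((c : X)⁻¹) with hP
  have htr : LinearMap.trace ℂ V P = ∑ c : C, (lam c : ℂ) * ρ.character (c : X)⁻¹ := by
    rw [hP, map_sum]
    refine Finset.sum_congr rfl fun c _ => ?_
    rw [map_smul, smul_eq_mul]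
    rfl
  have hcomm : ∀ x : X, P * ρ x = ρ x * P := by
    intro x
    rw [hP, Finset.sum_mul, Finset.mul_sum, ← Equiv.sum_comp (MulAut.conjNormal x : MulAut C).toEquiv]
    refine Finset.sum_congr rfl fun c _ => ?_
    have h1 : ((MulAut.conjNormal x : MulAut C) c : X) = x * c * x⁻¹ := MulAut.conjNormal_apply x c
    have h2 : lam ((MulAut.conjNormal x : MulAut C) c) = lam c := hinv x c _ h1
    change ((lam ((MulAut.conjNormal x : MulAut C) c) : ℂˣ) : ℂ) •
      ρ (((MulAut.conjNormal x : MulAut C) c : X)⁻¹) * ρ x = _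
    rw [h1, h2, smul_mul_assoc, mul_smul_comm, ← map_mul, ← map_mul]
    congr 2
    group
  have hlam : ∀ c0 : C, ρ (c0 : X) * P = (lam c0 : ℂ) • P := by
    intro c0
    rw [hP, Finset.mul_sum, Finset.smul_sum, ← Equiv.sum_comp (Equiv.mulRight c0)]
    refine Finset.sum_congr rfl fun c _ => ?_
    rw [Equiv.coe_mulRight, mul_smul_comm, ← map_mul, smul_smul, map_mul, mul_comm (lam c)]
    congr 2
    rw [Subgroup.coe_mul, mul_inv_rev, mul_inv_cancel_left]
  let F : Representation.IntertwiningMap ρ ρ := ⟨P, fun g => hcomm g⟩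
  obtain ⟨a, ha⟩ :=
    (Representation.IsIrreducible.algebraMap_intertwiningMap_bijective_of_isAlgClosed
      (ρ := ρ)).2 F
  have hPa : P = a • LinearMap.id := by
    have : F.toLinearMap = a • LinearMap.id := by
      rw [← ha]; rfl
    exact this
  by_cases h0 : a = 0
  · rw [← htr, hPa, h0, zero_smul, map_zero]
  · exfalso
    apply hn
    refine ⟨hirr, fun c0 => ?_⟩
    have h1 := hlam c0
    rw [hPa, mul_smul_comm, smul_comm] at h1
    have h2 : ρ (c0 : X) * LinearMap.id = (lam c0 : ℂ) • LinearMap.id := by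
      have h3 := congrArg (fun t : V →ₗ[ℂ] V => a⁻¹ • t) h1
      simp only [smul_smul, inv_mul_cancel₀ h0, one_smul, inv_mul_cancel_left₀ h0] at h3
      exact h3
    have h3 : ρ (c0 : X) = (lam c0 : ℂ) • (LinearMap.id : V →ₗ[ℂ] V) := h2
    change LinearMap.trace ℂ V (ρ (c0 : X)) = (lam c0 : ℂ) * LinearMap.trace ℂ V (ρ 1)
    rw [h3, map_smul, smul_eq_mul, map_one]
    rfl

theorem sum_sq {X : Type} [Group X] [Finite X] (C : Subgroup X) (hC : C.Normal) (lam : C →* ℂˣ)
    (hinv : ∀ (x : X) (c c' : C), (c' : X) = x * c * x⁻¹ → lam c' = lam c) :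
    (Nat.card C : ℂ) * ∑ᶠ χ : IrrC C lam, (χ.1 1) ^ 2 = Nat.card X := by
  classical
  have := Fintype.ofFinite X
  have := Fintype.ofFinite C
  have := Fintype.ofFinite (Irr X)
  have hsub : IrrC C lam ⊆ Irr X := fun χ h => h.1
  have hfin : Finite (IrrC C lam) := Finite.of_injective _ (Set.inclusion_injective hsub)
  have := Fintype.ofFinite (IrrC C lam)
  set f : X → ℂ := fun x => if h : x ∈ C then (lam ⟨x, h⟩ : ℂ) else 0 with hf
  have hfc : IsClass f := by
    intro g x
    simp only [hf]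
    by_cases h : x ∈ C
    · have h' : g * x * g⁻¹ ∈ C := hC.conj_mem x h g
      rw [dif_pos h, dif_pos h', hinv g ⟨x, h⟩ ⟨g * x * g⁻¹, h'⟩ rfl]
    · have h' : g * x * g⁻¹ ∉ C := by
        intro h'
        apply h
        have h3 := hC.conj_mem _ h' g⁻¹
        have h4 : g⁻¹ * (g * x * g⁻¹) * g⁻¹⁻¹ = x := by group
        rwa [h4] at h3
      rw [dif_neg h, dif_neg h']
  have hB : ∀ χ : X → ℂ, B f χ = (Nat.card X : ℂ)⁻¹ * ∑ c : C, (lam c : ℂ) * χ (c : X)⁻¹ := by
    intro χ
    rw [B_eq]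
    congr 1
    have e1 : ∑ x, f x * χ x⁻¹ = ∑ x ∈ Finset.univ.filter (fun x => x ∈ C), f x * χ x⁻¹ := by
      symm
      apply Finset.sum_filter_of_ne
      intro x _ hx
      by_contra h
      apply hx
      simp only [hf]
      rw [dif_neg h, zero_mul]
    rw [e1, Finset.sum_subtype (p := fun x => x ∈ C) _ (by simp) (fun x => f x * χ x⁻¹)]
    refine Finset.sum_congr rfl fun c _ => ?_
    simp only [hf]
    rw [dif_pos c.2]
  have hB1 : ∀ χ ∈ IrrC C lam, B f χ = (Nat.card X : ℂ)⁻¹ * (Nat.card C * χ 1) := by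
    intro χ hχ
    rw [hB]
    congr 1
    have e2 : ∀ c : C, (lam c : ℂ) * χ (c : X)⁻¹ = χ 1 := by
      intro c
      have e3 := hχ.2 c⁻¹
      rw [Subgroup.coe_inv] at e3
      rw [e3, ← mul_assoc, ← Units.val_mul, ← map_mul, mul_inv_cancel, map_one, Units.val_one,
        one_mul]
    rw [Finset.sum_congr rfl fun c _ => e2 c, Finset.sum_const, Finset.card_univ,
      Nat.card_eq_fintype_card, nsmul_eq_mul]
  have hB0 : ∀ χ ∈ Irr X, χ ∉ IrrC C lam → B f χ = 0 := by
    intro χ hχ hn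
    rw [hB, schur_sum C hC lam hinv hχ hn, mul_zero]
  have h1 := congrFun (expand f hfc) 1
  have hf1 : f 1 = 1 := by
    simp only [hf]
    rw [dif_pos C.one_mem]
    have : (⟨1, C.one_mem⟩ : C) = 1 := rfl
    rw [this, map_one, Units.val_one]
  rw [hf1] at h1
  simp only [Finset.sum_apply, Pi.smul_apply, smul_eq_mul] at h1
  have hX : (Nat.card X : ℂ) ≠ 0 := by exact_mod_cast Nat.card_pos.ne'
  have h2 : ∑ χ : Irr X, B f χ.1 * χ.1 1 =
      ∑ χ : IrrC C lam, (Nat.card X : ℂ)⁻¹ * (Nat.card C * χ.1 1) * χ.1 1 := by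
    symm
    refine Finset.sum_of_injOn (fun χ : IrrC C lam => (⟨χ.1, hsub χ.2⟩ : Irr X)) ?_ ?_ ?_ ?_
    · intro a _ b _ hab
      exact Subtype.ext (congrArg (fun t : Irr X => t.1) hab)
    · intro a _
      exact Finset.mem_coe.2 (Finset.mem_univ _)
    · intro χ _ hχ
      have h3 : χ.1 ∉ IrrC C lam := by
        intro h4
        apply hχ
        exact ⟨⟨χ.1, h4⟩, Finset.mem_coe.2 (Finset.mem_univ _), rfl⟩
      rw [hB0 χ.1 χ.2 h3, zero_mul]
    · intro χ _
      rw [hB1 χ.1 χ.2]
  rw [h2] at h1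
  rw [finsum_eq_sum_of_fintype, Finset.mul_sum]
  have h3 : (Nat.card X : ℂ) * 1 = (Nat.card X : ℂ) *
      ∑ χ : IrrC C lam, (Nat.card X : ℂ)⁻¹ * (Nat.card C * χ.1 1) * χ.1 1 := by rw [← h1]
  rw [mul_one, Finset.mul_sum] at h3
  rw [h3]
  refine Finset.sum_congr rfl fun χ _ => ?_
  field_simp

/-- the special case of a central involution -/
theorem sum_sq_neg {Y : Type} [Group Y] [Finite Y] {z : Y} (hz : CInv z) :
    2 * ∑ᶠ ψ : IrrZ z (-1), (ψ.1 1) ^ 2 = Nat.card Y := by
  classical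
  let C : Subgroup Y :=
    { carrier := {x | x = 1 ∨ x = z}
      one_mem' := Or.inl rfl
      mul_mem' := by
        rintro a b (rfl | rfl) (rfl | rfl)
        · left; simp
        · right; simp
        · right; simp
        · left; exact hz.sq
      inv_mem' := by
        rintro a (rfl | rfl)
        · left; simp
        · right; exact inv_eq_of_mul_eq_one_left hz.sq }
  have hzC : z ∈ C := Or.inr rfl
  have hmem : ∀ c : C, (c : Y) = 1 ∨ (c : Y) = z := fun c => c.2
  have hC : C.Normal := by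
    refine ⟨?_⟩
    rintro a (rfl | rfl) g
    · left; simp
    · right
      rw [← hz.comm, mul_inv_cancel_right]
  let lam : C →* ℂˣ :=
    { toFun := fun c => if (c : Y) = 1 then 1 else -1
      map_one' := by simp
      map_mul' := by
        intro a b
        rcases hmem a with ha | ha <;> rcases hmem b with hb | hb
        · simp [ha, hb]
        · simp [ha, hb]
        · simp [ha, hb]
        · simp [ha, hb, hz.sq, hz.ne] }
  have hlz : lam ⟨z, hzC⟩ = -1 := by
    change (if z = 1 then (1 : ℂˣ) else -1) = -1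
    rw [if_neg hz.ne]
  have h1 := sum_sq C hC lam (by
    intro x c c' h
    rcases hmem c with hc | hc
    · have h2 : (c' : Y) = c := by rw [h, hc]; simp
      rw [Subtype.ext h2]
    · have h2 : (c' : Y) = c := by
        rw [h, hc, ← hz.comm, mul_inv_cancel_right]
      rw [Subtype.ext h2])
  have hcard : Nat.card C = 2 := by
    rw [Nat.card_eq_two_iff]
    refine ⟨⟨1, C.one_mem⟩, ⟨z, hzC⟩, fun h => hz.ne (congrArg Subtype.val h).symm, ?_⟩
    ext c
    simp only [Set.mem_insert_iff, Set.mem_singleton_iff, Set.mem_univ, iff_true]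
    rcases hmem c with hc | hc
    · left; exact Subtype.ext hc
    · right; exact Subtype.ext hc
  have hset : IrrC C lam = IrrZ z (-1) := by
    ext χ
    constructor
    · rintro ⟨h2, h3⟩
      refine ⟨h2, ?_⟩
      have h4 := h3 ⟨z, hzC⟩
      rw [hlz] at h4
      simpa using h4
    · rintro ⟨h2, h3⟩
      refine ⟨h2, fun c => ?_⟩
      rcases hmem c with hc | hc
      · have h4 : c = 1 := Subtype.ext hc
        rw [h4, map_one]
        simp
      · have h4 : c = ⟨z, hzC⟩ := Subtype.ext hc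
        rw [h4, hlz]
        simpa using h3
  rw [hcard, hset] at h1
  exact_mod_cast h1

end Pool.Agent.Helper81.AN
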