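import Pool.Agent.Helper81.AN.ClCard
import Pool.Agent.Helper81.AN.SumSq

/-!
# ALT-41: the basic representation of the Clifford group

`n = |ι|`. There is a homomorphism `U : Cl ι → GL_d(ℂ)`, `d = 2^⌊n/2⌋`, with `U z = -1`, whose image spans all matrices.

PROOF. Possibility A (explicit, induction on `n` by two): `n = 0`: `d = 1`, `Cl = {1, z}`, `U z = -1`; `n = 1`: `d = 1`, `U a = 1`. `n + 2`: from `U` for `n` (size `d`): size `2 d`,
`a_i ↦ [[U a_i, 0], [0, - U a_i]]`, `a_{n+1} ↦ [[0, 1], [1, 0]]`, `a_{n+2} ↦ [[0, -i], [i, 0]]`; these square to one and anticommute (`Cl.lift`). Spanning: `-i a_{n+1} a_{n+2}` is `diag(1, -1)`, so the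
projections on the two blocks are in the algebra, hence `diag(U a_i, 0)` .. all blocks.
Possibility B (characters): by `sum_sq_neg` (`|Cl ι| > 0`, `z ≠ 1`) there is an irreducible representation `U` of `Cl ι` with `z ↦ -1`. Its character `χ` vanishes at every `g` which is conjugate to `z g`, i.e. at every `g` which is
not central (`Cl.comm_eq`): the center is `{g : supp g = 0}` for `n` even, `{supp g = 0 or supp g = all}` for `n` odd. `B χ χ = 1` gives `d² = 2^n` or `2^(n-1)`. Spanning: choose `g_A` with support `A`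
for all `A` (`n` even) or all `A` with an even number of elements (`n` odd): `tr(U(g_A) U(g_B)⁻¹) = 0` for `A ≠ B`, so the `U(g_A)` are linearly independent, and there are `d²` of them.
(`ι` is an arbitrary finite type; transport from `Fin n` if you use A: `e : Fin n ≃ ι` induces `Cl (Fin n) ≃* Cl ι` by `Cl.lift`.)
-/

set_option autoImplicit false

open Matrix

namespace Pool.Agent.Helper81.AN

open Pool.Agent.Helper42.INC

/-- the size of the basic representation -/
def dU (ι : Type) [Fintype ι] : ℕ := 2 ^ (Fintype.card ι / 2)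

/-- the data of a representation by generators -/
def CData (ι m : Type) [Fintype m] [DecidableEq m] (A : ι → Matrix m m ℂ) : Prop :=
  (∀ i, A i * A i = 1) ∧ (∀ i j, i ≠ j → A i * A j = -(A j * A i)) ∧
    Algebra.adjoin ℂ (Set.range A) = ⊤

theorem cdata_step {m : Type} [Fintype m] [DecidableEq m] (n : ℕ) (A : Fin n → Matrix m m ℂ)
    (h : CData (Fin n) m A) : ∃ B : Fin (n + 2) → Matrix (m ⊕ m) (m ⊕ m) ℂ,
      CData (Fin (n + 2)) (m ⊕ m) B := by
  obtain ⟨hsq, hanti, hadj⟩ := h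
  let X : Matrix (m ⊕ m) (m ⊕ m) ℂ := fromBlocks 0 1 1 0
  let Y : Matrix (m ⊕ m) (m ⊕ m) ℂ := fromBlocks 0 (-Complex.I • 1) (Complex.I • 1) 0
  let D : Fin n → Matrix (m ⊕ m) (m ⊕ m) ℂ := fun i => fromBlocks (A i) 0 0 (-A i)
  have hXX : X * X = 1 := by
    simp only [X, fromBlocks_multiply]
    simp
  have hYY : Y * Y = 1 := by
    simp only [Y, fromBlocks_multiply]
    simp [smul_smul]
  have hXY : X * Y = -(Y * X) := by
    simp only [X, Y, fromBlocks_multiply, fromBlocks_neg]
    simp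
  have hDD : ∀ i, D i * D i = 1 := by
    intro i
    simp only [D, fromBlocks_multiply]
    simp [hsq i]
  have hDX : ∀ i, D i * X = -(X * D i) := by
    intro i
    simp only [D, X, fromBlocks_multiply, fromBlocks_neg]
    simp
  have hDY : ∀ i, D i * Y = -(Y * D i) := by
    intro i
    simp only [D, Y, fromBlocks_multiply, fromBlocks_neg]
    simp
  have hDij : ∀ i j, i ≠ j → D i * D j = -(D j * D i) := by
    intro i j hij
    simp only [D, fromBlocks_multiply, fromBlocks_neg]
    simp [hanti i j hij]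
  let B : Fin (n + 2) → Matrix (m ⊕ m) (m ⊕ m) ℂ := Fin.cons X (Fin.cons Y D)
  have hB0 : B 0 = X := rfl
  have hB1 : B (Fin.succ 0) = Y := rfl
  have hB2 : ∀ i : Fin n, B i.succ.succ = D i := fun i => rfl
  have hcases : ∀ i : Fin (n + 2), i = 0 ∨ i = Fin.succ 0 ∨ ∃ j : Fin n, i = j.succ.succ := by
    intro i
    refine Fin.cases (Or.inl rfl) (fun i => ?_) i
    refine Fin.cases (Or.inr (Or.inl rfl)) (fun i => ?_) i
    exact Or.inr (Or.inr ⟨i, rfl⟩)
  refine ⟨B, ?_, ?_, ?_⟩
  · intro i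
    rcases hcases i with rfl | rfl | ⟨j, rfl⟩
    · rw [hB0, hXX]
    · rw [hB1, hYY]
    · rw [hB2, hDD]
  · intro i j hij
    rcases hcases i with rfl | rfl | ⟨i, rfl⟩ <;> rcases hcases j with rfl | rfl | ⟨j, rfl⟩
    · exact absurd rfl hij
    · rw [hB0, hB1, hXY]
    · rw [hB0, hB2, hDX, neg_neg]
    · rw [hB0, hB1, hXY, neg_neg]
    · exact absurd rfl hij
    · rw [hB1, hB2, hDY, neg_neg]
    · rw [hB0, hB2, hDX]
    · rw [hB1, hB2, hDY]
    · rw [hB2, hB2, hDij i j (fun h => hij (by rw [h]))]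
  · set S := Algebra.adjoin ℂ (Set.range B) with hS
    have hXS : X ∈ S := Algebra.subset_adjoin ⟨0, hB0⟩
    have hYS : Y ∈ S := Algebra.subset_adjoin ⟨Fin.succ 0, hB1⟩
    have hDS : ∀ i, D i ∈ S := fun i => Algebra.subset_adjoin ⟨i.succ.succ, hB2 i⟩
    have hP : (fromBlocks 1 0 0 0 : Matrix (m ⊕ m) (m ⊕ m) ℂ) ∈ S := by
      have h1 : (fromBlocks 1 0 0 0 : Matrix (m ⊕ m) (m ⊕ m) ℂ) =
          (1 / 2 : ℂ) • (1 + (-Complex.I) • (X * Y)) := by
        simp only [X, Y, fromBlocks_multiply, fromBlocks_smul]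
        rw [← fromBlocks_one, fromBlocks_add, fromBlocks_smul]
        simp only [zero_mul, one_mul, zero_add, mul_zero, add_zero, smul_smul, smul_zero]
        have e1 : -Complex.I * Complex.I = 1 := by rw [neg_mul, Complex.I_mul_I, neg_neg]
        have e2 : -Complex.I * -Complex.I = -1 := by rw [neg_mul_neg, Complex.I_mul_I]
        rw [e1, e2]
        congr 1
        · rw [one_smul, ← two_smul ℂ (1 : Matrix m m ℂ), smul_smul]
          norm_num
        · rw [neg_smul, one_smul, add_neg_cancel, smul_zero]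
      rw [h1]
      exact S.smul_mem (S.add_mem S.one_mem (S.smul_mem (S.mul_mem hXS hYS) _)) _
    -- the upper left corner
    let T : Subalgebra ℂ (Matrix m m ℂ) :=
      { carrier := {M | fromBlocks M 0 0 0 ∈ S}
        mul_mem' := by
          intro M N hM hN
          have h1 : (fromBlocks (M * N) 0 0 0 : Matrix (m ⊕ m) (m ⊕ m) ℂ) =
              fromBlocks M 0 0 0 * fromBlocks N 0 0 0 := by
            simp [fromBlocks_multiply]
          change (fromBlocks (M * N) 0 0 0 : Matrix (m ⊕ m) (m ⊕ m) ℂ) ∈ S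
          rw [h1]
          exact S.mul_mem hM hN
        add_mem' := by
          intro M N hM hN
          have h1 : (fromBlocks (M + N) 0 0 0 : Matrix (m ⊕ m) (m ⊕ m) ℂ) =
              fromBlocks M 0 0 0 + fromBlocks N 0 0 0 := by
            simp [fromBlocks_add]
          change (fromBlocks (M + N) 0 0 0 : Matrix (m ⊕ m) (m ⊕ m) ℂ) ∈ S
          rw [h1]
          exact S.add_mem hM hN
        algebraMap_mem' := by
          intro r
          have h1 : (fromBlocks (algebraMap ℂ (Matrix m m ℂ) r) 0 0 0 :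
              Matrix (m ⊕ m) (m ⊕ m) ℂ) = r • fromBlocks 1 0 0 0 := by
            rw [fromBlocks_smul, Algebra.algebraMap_eq_smul_one]
            simp
          change (fromBlocks (algebraMap ℂ (Matrix m m ℂ) r) 0 0 0 :
              Matrix (m ⊕ m) (m ⊕ m) ℂ) ∈ S
          rw [h1]
          exact S.smul_mem hP r }
    have hT : T = ⊤ := by
      rw [eq_top_iff, ← hadj, Algebra.adjoin_le_iff]
      rintro _ ⟨i, rfl⟩
      change (fromBlocks (A i) 0 0 0 : Matrix (m ⊕ m) (m ⊕ m) ℂ) ∈ S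
      have h1 : (fromBlocks (A i) 0 0 0 : Matrix (m ⊕ m) (m ⊕ m) ℂ) = fromBlocks 1 0 0 0 * D i := by
        simp [D, fromBlocks_multiply]
      rw [h1]
      exact S.mul_mem hP (hDS i)
    have hM : ∀ M : Matrix m m ℂ, (fromBlocks M 0 0 0 : Matrix (m ⊕ m) (m ⊕ m) ℂ) ∈ S := by
      intro M
      have : M ∈ T := by
        rw [hT]
        trivial
      exact this
    rw [eq_top_iff]
    intro N _
    have h1 : N = fromBlocks N.toBlocks₁₁ 0 0 0 + fromBlocks N.toBlocks₁₂ 0 0 0 * X +
        X * fromBlocks N.toBlocks₂₁ 0 0 0 + X * fromBlocks N.toBlocks₂₂ 0 0 0 * X := by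
      conv_lhs => rw [← fromBlocks_toBlocks N]
      simp [X, fromBlocks_multiply, fromBlocks_add]
    rw [h1]
    exact S.add_mem (S.add_mem (S.add_mem (hM _) (S.mul_mem (hM _) hXS)) (S.mul_mem hXS (hM _)))
      (S.mul_mem (S.mul_mem hXS (hM _)) hXS)

theorem cdata_base (n : ℕ) (hn : n < 2) : ∃ A : Fin n → Matrix Unit Unit ℂ,
    CData (Fin n) Unit A := by
  refine ⟨fun _ => 1, fun i => by rw [one_mul], fun i j hij => ?_, ?_⟩
  · exact absurd (Fin.ext (by omega)) hij
  · rw [eq_top_iff]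
    intro M _
    have h1 : M = algebraMap ℂ (Matrix Unit Unit ℂ) (M () ()) := by
      ext i j
      rw [Algebra.algebraMap_eq_smul_one]
      simp
    rw [h1]
    exact Subalgebra.algebraMap_mem _ _

theorem exists_cdata (n : ℕ) : ∃ (m : Type) (_ : Fintype m) (_ : DecidableEq m),
    Fintype.card m = 2 ^ (n / 2) ∧ ∃ A : Fin n → Matrix m m ℂ, CData (Fin n) m A := by
  induction n using Nat.twoStepInduction with
  | zero =>
    obtain ⟨A, hA⟩ := cdata_base 0 (by norm_num)
    exact ⟨Unit, inferInstance, inferInstance, by simp, A, hA⟩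
  | one =>
    obtain ⟨A, hA⟩ := cdata_base 1 (by norm_num)
    exact ⟨Unit, inferInstance, inferInstance, by simp, A, hA⟩
  | more n ih _ =>
    obtain ⟨m, h1, h2, hc, A, hA⟩ := ih
    obtain ⟨B, hB⟩ := cdata_step n A hA
    refine ⟨m ⊕ m, inferInstance, inferInstance, ?_, B, hB⟩
    rw [Fintype.card_sum, hc, show (n + 2) / 2 = n / 2 + 1 by omega, pow_succ]
    ring

theorem exists_U (ι : Type) [Fintype ι] [DecidableEq ι] :
    ∃ U : Cl ι →* GL (Fin (dU ι)) ℂ, U Cl.z = -1 ∧
      Submodule.span ℂ {M : Matrix (Fin (dU ι)) (Fin (dU ι)) ℂ |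
        ∃ c : Cl ι, (U c : Matrix (Fin (dU ι)) (Fin (dU ι)) ℂ) = M} = ⊤ := by
  obtain ⟨m, h1, h2, hc, A, hsq, hanti, hadj⟩ := exists_cdata (Fintype.card ι)
  let e : ι ≃ Fin (Fintype.card ι) := Fintype.equivFin ι
  let f : m ≃ Fin (dU ι) := Fintype.equivFinOfCardEq hc
  let φ : Matrix m m ℂ ≃ₐ[ℂ] Matrix (Fin (dU ι)) (Fin (dU ι)) ℂ := reindexAlgEquiv ℂ ℂ f
  let a : ι → Matrix (Fin (dU ι)) (Fin (dU ι)) ℂ := fun i => φ (A (e i))
  have hasq : ∀ i, a i * a i = 1 := by
    intro i
    simp only [a]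
    rw [← map_mul, hsq, map_one]
  have haanti : ∀ i j, i ≠ j → a i * a j = -(a j * a i) := by
    intro i j hij
    simp only [a]
    rw [← map_mul, ← map_mul, hanti _ _ (fun h => hij (e.injective h)), map_neg]
  have haadj : Algebra.adjoin ℂ (Set.range a) = ⊤ := by
    have h3 : Set.range a = φ.toAlgHom '' (Set.range A) := by
      ext M
      constructor
      · rintro ⟨i, rfl⟩
        exact ⟨A (e i), ⟨e i, rfl⟩, rfl⟩
      · rintro ⟨_, ⟨i, rfl⟩, rfl⟩
        exact ⟨e.symm i, by simp [a]⟩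
    rw [h3, ← AlgHom.map_adjoin, hadj, Algebra.map_top, AlgHom.range_eq_top]
    exact φ.surjective
  let ga : ι → GL (Fin (dU ι)) ℂ := fun i => ⟨a i, a i, hasq i, hasq i⟩
  have hga : ∀ i, ga i * ga i = 1 := fun i => Units.ext (hasq i)
  have hganti : ∀ i j, i ≠ j → ga i * ga j = -1 * (ga j * ga i) := by
    intro i j hij
    apply Units.ext
    have := haanti i j hij
    simpa [ga] using this
  let U : Cl ι →* GL (Fin (dU ι)) ℂ := Cl.lift (-1) ga (by simp) (fun i => by rw [pow_two, hga])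
    (fun i => by
      rw [commutatorElement_eq_one_iff_mul_comm]
      simp)
    (fun i j hij => by
      rw [commutatorElement_def, mul_inv_eq_iff_eq_mul, mul_inv_eq_iff_eq_mul, mul_assoc]
      exact hganti i j hij)
  have hUz : U Cl.z = -1 := Cl.lift_z _ _ _ _ _ _
  have hUa : ∀ i, U (Cl.a i) = ga i := fun i => Cl.lift_a _ _ _ _ _ _ _
  refine ⟨U, hUz, ?_⟩
  let S : Subalgebra ℂ (Matrix (Fin (dU ι)) (Fin (dU ι)) ℂ) :=
    (Submodule.span ℂ {M : Matrix (Fin (dU ι)) (Fin (dU ι)) ℂ |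
        ∃ c : Cl ι, (U c : Matrix (Fin (dU ι)) (Fin (dU ι)) ℂ) = M}).toSubalgebra
      (Submodule.subset_span ⟨1, by rw [map_one]; rfl⟩)
      (by
        intro x y hx hy
        have h3 := Submodule.mul_mem_mul hx hy
        rw [Submodule.span_mul_span] at h3
        refine Submodule.span_mono ?_ h3
        rintro _ ⟨_, ⟨c, rfl⟩, _, ⟨c', rfl⟩, rfl⟩
        exact ⟨c * c', by rw [map_mul]; rfl⟩)
  have hS : S = ⊤ := by
    rw [eq_top_iff, ← haadj, Algebra.adjoin_le_iff]
    rintro _ ⟨i, rfl⟩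
    exact Submodule.subset_span ⟨Cl.a i, by rw [hUa]⟩
  rw [eq_top_iff]
  intro M _
  have h4 : M ∈ S := by
    rw [hS]
    trivial
  exact h4

end Pool.Agent.Helper81.AN
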