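import Pool.Agent.Helper81.AN.CntDefs
import Pool.Agent.Helper7.MK.Char
import Pool.Agent.Helper42.INC.Red2

/-!
# ALT-39: characters of a subgroup of index two

`ε : X → {±1}`, `H = ker ε`, `ε s = -1`, `z ∈ H` central in `X`. Clifford theory for the index two subgroup `H`.

PROOF. Let `χ ∈ Irr X`. (1) If `ε χ ≠ χ` then `χ|_H` is irreducible: `Σ_{x ∈ H} |χ(x)|^2 = ½ Σ_X (1 + ε(x)) χ(x) χ(x⁻¹)`, so `B_H(χ|_H, χ|_H) = B_X(χ, χ) + B_X(ε χ, χ) = 1`; it is invariant under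
conjugation with `s`. (2) If `ε χ = χ` then `χ` vanishes off `H`, `B_H(χ|_H, χ|_H) = 2`, and `χ|_H = θ + θ^s`, `θ^s(x) = θ(s x s⁻¹)`, `θ^s ≠ θ`. (`χ|_H` is a sum of
two different irreducible characters; it is invariant under `s`; if both were invariant ... use (3).) (3) Let `θ ∈ Irr H`, `I(θ)` the induced function (`θ(x) + θ(s x s⁻¹)` on `H`, `0` off `H`;
note `s² ∈ H`). If `θ^s ≠ θ`: `B_X(I, I) = ½ B_H(θ + θ^s, θ + θ^s) = 1`, so `I(θ)` is irreducible with `ε I = I`, `I(θ) = I(θ^s)`. If `θ^s = θ`: `B_X(I, I) = 2`: `I = χ + χ'`, `χ ≠ χ'`, `ε I = I`; by Frobenius reciprocity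
`B(χ|_H, θ) = 1`; `χ(1) + χ'(1) = 2 θ(1)` and `χ|_H ⊇ θ` give `χ|_H = θ = χ'|_H`, so `χ' = ε χ`. (`B (indHom ..)`, Frobenius reciprocity: `Helper42/INC/Clifford.lean` `B_indHom`, or directly with sums over `X = H ∪ s H`.)
So: restriction is a two-to-one map from `{χ : ε χ ≠ χ}` onto `{θ : θ^s = θ}` preserving degrees (the fibre is `{χ, ε χ}`), and `θ ↦ I(θ)` is a two-to-one map from `{θ : θ^s ≠ θ}` onto
`{χ : ε χ = χ}` (the fibre is `{θ, θ^s}`), with `deg I(θ) = 2 deg θ`. The value at `z` is compatible in both cases. Degrees: `(2 deg θ)^2 = 4 (deg θ)^2`; `4` is a unit mod `p`.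
The characters are given with values in `ℂ`; `θ ∈ Irr`.
-/

set_option autoImplicit false
set_option linter.unusedSectionVars false

namespace Pool.Agent.Helper81.AN

open Pool.Agent.Helper42.INC Pool.Agent.Helper7.MK

/-- a surjective map with fibres `{a, σ a}` -/
private theorem two_one {A B : Type} [Finite A] [Finite B] (f : A → B) (σ : A → A)
    (hσ : ∀ a, σ a ≠ a) (hσf : ∀ a, f (σ a) = f a) (hf : Function.Surjective f)
    (h : ∀ a a', f a = f a' → a' = a ∨ a' = σ a) : Nat.card A = 2 * Nat.card B := by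
  obtain ⟨g, hg⟩ := hf.hasRightInverse
  have hbij : Function.Bijective
      (fun q : B × Bool => if q.2 = true then σ (g q.1) else g q.1) := by
    constructor
    · rintro ⟨b, c⟩ ⟨b', c'⟩ h1
      have h2 : b = b' := by
        have h3 := congrArg f h1
        rcases c with _ | _ <;> rcases c' with _ | _ <;> simpa [hσf, hg b, hg b'] using h3
      subst h2
      rcases c with _ | _ <;> rcases c' with _ | _
      · rfl
      · exact absurd (by simpa using h1.symm) (hσ (g b))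
      · exact absurd (by simpa using h1) (hσ (g b))
      · rfl
    · intro a
      rcases h (g (f a)) a (hg (f a)) with h1 | h1
      · exact ⟨(f a, false), by simpa using h1.symm⟩
      · exact ⟨(f a, true), by simpa using h1.symm⟩
  rw [← Nat.card_congr (Equiv.ofBijective _ hbij), Nat.card_prod,
    Nat.card_eq_fintype_card (α := Bool), Fintype.card_bool, mul_comm]

/-- characters with a common constituent are not orthogonal -/
private theorem share {H : Type} [Group H] [Finite H] {θ ψ φ : H → ℂ} (hθ : θ ∈ Irr H)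
    (hψ : IsChar ψ) (hφ : IsChar φ) (h1 : B ψ θ ≠ 0) (h2 : B θ φ ≠ 0) : B ψ φ ≠ 0 := by
  classical
  have := Fintype.ofFinite (Irr H)
  have h3 : B ψ φ = ∑ χ : Irr H, B ψ χ.1 * B χ.1 φ := by
    conv_lhs => rw [expand ψ hψ.isClass]
    rw [B_sum_left]
    exact Finset.sum_congr rfl fun χ _ => B_smul_left _ _ _
  choose a ha using fun χ : Irr H => hψ.nat (IsChar.of_irr χ.2)
  choose b hb using fun χ : Irr H => (IsChar.of_irr χ.2).nat hφ
  have h4 : B ψ φ = ((∑ χ : Irr H, a χ * b χ : ℕ) : ℂ) := by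
    rw [h3]
    push_cast
    exact Finset.sum_congr rfl fun χ _ => by rw [ha, hb]
  rw [h4, Nat.cast_ne_zero]
  have h5 : a ⟨θ, hθ⟩ * b ⟨θ, hθ⟩ ≤ ∑ χ : Irr H, a χ * b χ :=
    Finset.single_le_sum (f := fun χ => a χ * b χ) (fun _ _ => Nat.zero_le _) (Finset.mem_univ _)
  have h6 : a ⟨θ, hθ⟩ ≠ 0 := by
    intro h
    apply h1
    rw [ha ⟨θ, hθ⟩, h, Nat.cast_zero]
  have h7 : b ⟨θ, hθ⟩ ≠ 0 := by
    intro h
    apply h2
    rw [hb ⟨θ, hθ⟩, h, Nat.cast_zero]
  have h8 : 0 < a ⟨θ, hθ⟩ * b ⟨θ, hθ⟩ := Nat.mul_pos (Nat.pos_of_ne_zero h6) (Nat.pos_of_ne_zero h7)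
  omega

section aux

variable {X : Type} [Group X] (ε : X →* ℤˣ) (s : X)

/-- extension by zero -/
private noncomputable def e0 (θ : ε.ker → ℂ) (x : X) : ℂ := by
  classical
  exact if h : x ∈ ε.ker then θ ⟨x, h⟩ else 0

private theorem e0_pos (θ : ε.ker → ℂ) (h : ε.ker) : e0 ε θ (h : X) = θ h := by
  unfold e0
  exact dif_pos h.2

private theorem e0_neg (θ : ε.ker → ℂ) {x : X} (h : x ∉ ε.ker) : e0 ε θ x = 0 := by
  unfold e0
  exact dif_neg h

private theorem e0_conj {θ : ε.ker → ℂ} (hθ : IsClass θ) {g : X} (hg : g ∈ ε.ker) (x : X) :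
    e0 ε θ (g * x * g⁻¹) = e0 ε θ x := by
  by_cases hx : x ∈ ε.ker
  · have h1 := hθ ⟨g, hg⟩ ⟨x, hx⟩
    rw [← e0_pos ε θ (⟨g, hg⟩ * ⟨x, hx⟩ * ⟨g, hg⟩⁻¹), ← e0_pos ε θ ⟨x, hx⟩] at h1
    exact h1
  · rw [e0_neg ε θ hx, e0_neg]
    intro h
    apply hx
    have h1 := ε.ker.mul_mem (ε.ker.mul_mem (ε.ker.inv_mem hg) h) hg
    have h2 : g⁻¹ * (g * x * g⁻¹) * g = x := by group
    rw [h2] at h1
    exact h1

/-- the induced function -/
private noncomputable def ind (θ : ε.ker → ℂ) (x : X) : ℂ := e0 ε θ x + e0 ε θ (s * x * s⁻¹)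

/-- restriction -/
private def res (f : X → ℂ) (h : ε.ker) : ℂ := f h

/-- conjugation by `s` -/
private noncomputable def cs : ε.ker ≃* ε.ker := MulAut.conjNormal s

private theorem cs_coe (h : ε.ker) : ((cs ε s h : ε.ker) : X) = s * h * s⁻¹ :=
  MulAut.conjNormal_apply s h

private theorem res_ind (θ : ε.ker → ℂ) (h : ε.ker) : res ε (ind ε s θ) h = θ h + θ (cs ε s h) := by
  unfold res ind
  rw [e0_pos, ← cs_coe, e0_pos]

private theorem mem_or (hs : ε s = -1) {g : X} (hg : g ∉ ε.ker) : s⁻¹ * g ∈ ε.ker ∧ s * g ∈ ε.ker := by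
  have h1 : ε g = -1 := by
    rcases Int.units_eq_one_or (ε g) with h | h
    · exact absurd (MonoidHom.mem_ker.2 h) hg
    · exact h
  rw [MonoidHom.mem_ker, MonoidHom.mem_ker, map_mul, map_mul, map_inv, hs, h1]
  exact ⟨by simp, by simp⟩

private theorem ind_off (θ : ε.ker → ℂ) {x : X} (h : x ∉ ε.ker) : ind ε s θ x = 0 := by
  unfold ind
  rw [e0_neg ε θ h, e0_neg, add_zero]
  intro h1
  apply h
  rw [MonoidHom.mem_ker] at h1 ⊢
  rw [map_mul, map_mul, map_inv, mul_comm, inv_mul_cancel_left] at h1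
  exact h1

private theorem ind_class (hs : ε s = -1) {θ : ε.ker → ℂ} (hθ : IsClass θ) : IsClass (ind ε s θ) := by
  intro g x
  have hn : ∀ y : X, y ∈ ε.ker → s * y * s⁻¹ ∈ ε.ker := by
    intro y hy
    exact (MonoidHom.normal_ker ε).conj_mem y hy s
  unfold ind
  by_cases hg : g ∈ ε.ker
  · rw [e0_conj ε hθ hg]
    have h1 : s * (g * x * g⁻¹) * s⁻¹ = (s * g * s⁻¹) * (s * x * s⁻¹) * (s * g * s⁻¹)⁻¹ := by group
    rw [h1, e0_conj ε hθ (hn g hg)]
  · obtain ⟨h2, h3⟩ := mem_or ε s hs hg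
    have h1 : g * x * g⁻¹ = (s * (s⁻¹ * g) * s⁻¹) * (s * x * s⁻¹) * (s * (s⁻¹ * g) * s⁻¹)⁻¹ := by
      group
    have h4 : s * (g * x * g⁻¹) * s⁻¹ = (s * g) * x * (s * g)⁻¹ := by group
    rw [h4, e0_conj ε hθ h3, h1, e0_conj ε hθ (hn _ h2), add_comm]

variable [Finite X]

private theorem card_two (hs : ε s = -1) : (Nat.card X : ℂ) = 2 * (Nat.card ε.ker : ℂ) := by
  have h1 : ε.ker.index = 2 := by
    rw [Subgroup.index_ker]
    have h2 : ε.range = ⊤ := by
      rw [eq_top_iff]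
      intro u _
      rcases Int.units_eq_one_or u with h | h
      · exact ⟨1, by rw [h, map_one]⟩
      · exact ⟨s, by rw [h, hs]⟩
    rw [h2, Subgroup.card_top, Nat.card_eq_fintype_card]
    rfl
  have h3 := Subgroup.card_mul_index ε.ker
  rw [h1] at h3
  rw [← h3]
  push_cast
  ring

private theorem sum_ker [Fintype X] [Fintype ε.ker] (F : X → ℂ) (hF : ∀ x, x ∉ ε.ker → F x = 0) :
    ∑ x : X, F x = ∑ h : ε.ker, F h := by
  classical
  rw [← Finset.sum_subtype (Finset.univ.filter fun x => x ∈ ε.ker) (fun x => by simp) F]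
  rw [Finset.sum_filter]
  refine Finset.sum_congr rfl fun x _ => ?_
  split_ifs with h
  · rfl
  · exact hF x h

/-- the twist -/
private def tw (f : X → ℂ) (x : X) : ℂ := (((ε x : ℤˣ) : ℤ) : ℂ) * f x

private theorem B_res (hs : ε s = -1) (f g : X → ℂ) :
    B (res ε f) (res ε g) = B f g + B (tw ε f) g := by
  classical
  have := Fintype.ofFinite X
  have := Fintype.ofFinite ε.ker
  have h0 : (Nat.card ε.ker : ℂ) ≠ 0 := by exact_mod_cast Nat.card_pos.ne'
  rw [B_eq, B_eq, B_eq, card_two ε s hs, ← mul_add, ← Finset.sum_add_distrib]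
  rw [sum_ker ε (fun x => f x * g x⁻¹ + tw ε f x * g x⁻¹)]
  · have h1 : ∑ h : ε.ker, (f h * g (h : X)⁻¹ + tw ε f h * g (h : X)⁻¹) =
        2 * ∑ h : ε.ker, res ε f h * res ε g h⁻¹ := by
      rw [Finset.mul_sum]
      refine Finset.sum_congr rfl fun h _ => ?_
      have h2 : ε (h : X) = 1 := h.2
      unfold tw res
      rw [h2, Units.val_one, Int.cast_one, one_mul, Subgroup.coe_inv]
      ring
    rw [h1]
    field_simp
  · intro x hx
    have h2 : ε x = -1 := by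
      rcases Int.units_eq_one_or (ε x) with h | h
      · exact absurd (MonoidHom.mem_ker.2 h) hx
      · exact h
    unfold tw
    rw [h2]
    push_cast
    ring

private theorem frob (hs : ε s = -1) (θ : ε.ker → ℂ) {f : X → ℂ} (hf : IsClass f) :
    B (ind ε s θ) f = B θ (res ε f) := by
  classical
  have := Fintype.ofFinite X
  have := Fintype.ofFinite ε.ker
  have h0 : (Nat.card ε.ker : ℂ) ≠ 0 := by exact_mod_cast Nat.card_pos.ne'
  rw [B_eq, B_eq, card_two ε s hs]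
  rw [sum_ker ε (fun x => ind ε s θ x * f x⁻¹)]
  · have h1 : ∑ h : ε.ker, ind ε s θ h * f (h : X)⁻¹ = 2 * ∑ h : ε.ker, θ h * res ε f h⁻¹ := by
      have h2 : ∀ h : ε.ker, ind ε s θ h * f (h : X)⁻¹ =
          θ h * res ε f h⁻¹ + θ (cs ε s h) * res ε f (cs ε s h)⁻¹ := by
        intro h
        have h3 := res_ind ε s θ h
        unfold res at h3 ⊢
        rw [h3, add_mul, Subgroup.coe_inv, Subgroup.coe_inv, cs_coe]
        congr 2
        have h4 : (s * (h : X) * s⁻¹)⁻¹ = s * (h : X)⁻¹ * s⁻¹ := by group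
        rw [h4, hf]
      have h3 : ∑ h : ε.ker, θ (cs ε s h) * res ε f (cs ε s h)⁻¹ = ∑ h : ε.ker, θ h * res ε f h⁻¹ :=
        Equiv.sum_comp (cs ε s).toEquiv (fun h => θ h * res ε f h⁻¹)
      rw [Finset.sum_congr rfl fun h _ => h2 h, Finset.sum_add_distrib, h3]
      ring
    rw [h1]
    field_simp
  · intro x hx
    rw [ind_off ε s θ hx, zero_mul]

private theorem tw_irr {χ : X → ℂ} (hχ : χ ∈ Irr X) : tw ε χ ∈ Irr X :=
  irr_linTwist ((Units.map (Int.castRingHom ℂ : ℤ →* ℂ)).comp ε) hχ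

private theorem res_char {χ : X → ℂ} (hχ : χ ∈ Irr X) : IsChar (res ε χ) :=
  (IsChar.of_irr hχ).comp ε.ker.subtype

private theorem cs_irr {θ : ε.ker → ℂ} (hθ : θ ∈ Irr ε.ker) : (fun h => θ (cs ε s h)) ∈ Irr ε.ker :=
  irr_comp (cs ε s) hθ

private theorem cs_cs (hs : ε s = -1) {θ : ε.ker → ℂ} (hθ : IsClass θ) (h : ε.ker) :
    θ (cs ε s (cs ε s h)) = θ h := by
  have h1 : s * s ∈ ε.ker := by rw [MonoidHom.mem_ker, map_mul, hs]; simp
  have h2 : cs ε s (cs ε s h) = ⟨s * s, h1⟩ * h * ⟨s * s, h1⟩⁻¹ := by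
    apply Subtype.ext
    rw [cs_coe, cs_coe]
    change s * (s * (h : X) * s⁻¹) * s⁻¹ = (s * s) * (h : X) * (s * s)⁻¹
    group
  rw [h2, hθ]

private theorem B_ind_ind (hs : ε s = -1) {θ θ' : ε.ker → ℂ} (_hθ : IsClass θ) (hθ' : IsClass θ') :
    B (ind ε s θ) (ind ε s θ') = B θ θ' + B θ (fun h => θ' (cs ε s h)) := by
  rw [frob ε s hs θ (ind_class ε s hs hθ'), B_symm, B_symm θ θ', B_symm θ (fun h => θ' (cs ε s h)),
    ← B_add_left]
  congr 1
  funext h
  exact res_ind ε s θ' h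

/-- the induced character is irreducible -/
private theorem ind_irr (hs : ε s = -1) {θ : ε.ker → ℂ} (hθ : θ ∈ Irr ε.ker)
    (hne : (fun h => θ (cs ε s h)) ≠ θ) : ind ε s θ ∈ Irr X := by
  apply irr_of_norm_one _ (ind_class ε s hs (Irr.isClass hθ))
  · intro χ hχ
    rw [frob ε s hs θ (Irr.isClass hχ)]
    exact (IsChar.of_irr hθ).nat (res_char ε hχ)
  · rw [B_ind_ind ε s hs (Irr.isClass hθ) (Irr.isClass hθ), B_irr_self hθ,
      B_irr_ne hθ (cs_irr ε s hθ) (Ne.symm hne), add_zero]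

/-- an invariant character does not lie under a self-associate character -/
private theorem no_fix (hs : ε s = -1) {θ : ε.ker → ℂ} (hθ : θ ∈ Irr ε.ker)
    (hfix : (fun h => θ (cs ε s h)) = θ) {χ : X → ℂ} (hχ : χ ∈ Irr X) (hself : tw ε χ = χ)
    (hne : B θ (res ε χ) ≠ 0) : False := by
  classical
  have := Fintype.ofFinite (Irr X)
  have hz : ∀ χ2 ∈ Irr X, χ2 ≠ χ → B (ind ε s θ) χ2 = 0 := by
    intro χ2 hχ2 h2
    by_contra hcon
    rw [frob ε s hs θ (Irr.isClass hχ2)] at hcon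
    apply share hθ (res_char ε hχ) (res_char ε hχ2) (by rw [B_symm]; exact hne) hcon
    rw [B_res ε s hs, hself, B_irr_ne hχ hχ2 (Ne.symm h2), add_zero]
  have hcl := ind_class ε s hs (Irr.isClass hθ)
  have hexp : ind ε s θ = B (ind ε s θ) χ • χ := by
    conv_lhs => rw [expand _ hcl]
    rw [Finset.sum_eq_single (⟨χ, hχ⟩ : Irr X)]
    · intro χ2 _ h2
      rw [hz χ2.1 χ2.2 (fun h => h2 (Subtype.ext h)), zero_smul]
    · intro h
      exact absurd (Finset.mem_univ _) h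
  obtain ⟨n, hn⟩ := (IsChar.of_irr hθ).nat (res_char ε hχ)
  rw [← frob ε s hs θ (Irr.isClass hχ)] at hn
  have h1 : B (ind ε s θ) (ind ε s θ) = 2 := by
    rw [B_ind_ind ε s hs (Irr.isClass hθ) (Irr.isClass hθ), hfix, B_irr_self hθ]
    norm_num
  have h2 : B (ind ε s θ) (ind ε s θ) = (n : ℂ) * n := by
    nth_rewrite 1 [hexp]
    rw [B_smul_left, B_symm χ, hn]
  rw [h1] at h2
  have h3 : n * n = 2 := by exact_mod_cast h2.symm
  have h4 : n ≤ 1 ∨ 2 ≤ n := by omega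
  rcases h4 with h4 | h4
  · nlinarith
  · nlinarith

/-- the restriction of a character which is not self-associate -/
private theorem res_irr (hs : ε s = -1) {χ : X → ℂ} (hχ : χ ∈ Irr X) (hne : tw ε χ ≠ χ) :
    res ε χ ∈ Irr ε.ker := by
  apply (res_char ε hχ).irr
  rw [B_res ε s hs, B_irr_self hχ, B_irr_ne (tw_irr ε hχ) hχ hne, add_zero]

private theorem exists_over (hs : ε s = -1) {θ : ε.ker → ℂ} (hθ : θ ∈ Irr ε.ker) :
    ∃ χ ∈ Irr X, B θ (res ε χ) ≠ 0 := by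
  by_contra hcon
  push Not at hcon
  have h1 := complete (ind ε s θ) (ind_class ε s hs (Irr.isClass hθ)) (fun χ hχ => by
    rw [frob ε s hs θ (Irr.isClass hχ)]
    exact hcon χ hχ)
  have h2 : B (ind ε s θ) (ind ε s θ) = 0 := by
    rw [h1]
    exact B_zero_left _
  rw [B_ind_ind ε s hs (Irr.isClass hθ) (Irr.isClass hθ), B_irr_self hθ,
    B_irr hθ (cs_irr ε s hθ)] at h2
  split_ifs at h2 <;> norm_num at h2

private theorem exists_under {χ : X → ℂ} (hχ : χ ∈ Irr X) :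
    ∃ θ ∈ Irr ε.ker, B θ (res ε χ) ≠ 0 := by
  by_contra hcon
  push Not at hcon
  have h1 := complete (res ε χ) (res_char ε hχ).isClass (fun θ hθ => by
    rw [B_symm]
    exact hcon θ hθ)
  obtain ⟨n, hn, hn1⟩ := irr_one hχ
  have h2 : res ε χ 1 = 0 := by rw [h1]; rfl
  have h3 : χ 1 = 0 := h2
  rw [hn1, Nat.cast_eq_zero] at h3
  omega

end aux

theorem idx2 (p : ℕ) [Fact p.Prime] (h2 : p ≠ 2) {X : Type} [Group X] [Finite X] (ε : X →* ℤˣ)
    (z : X) (hzc : ∀ x, z * x = x * z) (hεz : ε z = 1) (ν : ℂ) (s : X) (hs : ε s = -1)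
    (d : ZMod p) :
    2 * Nat.card {θ : ε.ker → ℂ // θ ∈ Irr ε.ker ∧ (∀ t : ε.ker, (t : X) = z → θ t = ν * θ 1) ∧
      (deg θ : ZMod p) ^ 2 = d ∧ ∀ x y : ε.ker, (y : X) = s * x * s⁻¹ → θ y = θ x} =
        lN p ε z ν d ∧
    Nat.card {θ : ε.ker → ℂ // θ ∈ Irr ε.ker ∧ (∀ t : ε.ker, (t : X) = z → θ t = ν * θ 1) ∧
      (deg θ : ZMod p) ^ 2 = d ∧ ¬ ∀ x y : ε.ker, (y : X) = s * x * s⁻¹ → θ y = θ x} =
        2 * lF p ε z ν (4 * d) := by
  classical
  have htw : ∀ χ : X → ℂ, (∀ x, (((ε x : ℤˣ) : ℤ) : ℂ) * χ x = χ x) ↔ tw ε χ = χ :=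
    fun χ => ⟨fun h => funext h, fun h x => congrFun h x⟩
  have hcs : ∀ θ : ε.ker → ℂ, (∀ x y : ε.ker, (y : X) = s * x * s⁻¹ → θ y = θ x) ↔
      (fun h => θ (cs ε s h)) = θ := by
    intro θ
    constructor
    · intro h
      funext x
      exact h x _ (cs_coe ε s x)
    · intro h x y hxy
      have h1 : y = cs ε s x := Subtype.ext (by rw [hxy, cs_coe])
      rw [h1]
      exact congrFun h x
  have htt : ∀ χ : X → ℂ, tw ε (tw ε χ) = χ := by
    intro χ
    funext x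
    unfold tw
    rw [← mul_assoc]
    rcases Int.units_eq_one_or (ε x) with h | h <;> rw [h] <;> simp
  obtain ⟨zH, hzH⟩ : ∃ zH : ε.ker, (zH : X) = z := ⟨⟨z, hεz⟩, rfl⟩
  have hzs : cs ε s zH = zH := by
    apply Subtype.ext
    rw [cs_coe, hzH, ← hzc, mul_inv_cancel_right]
  have hzcond : ∀ θ : ε.ker → ℂ, (∀ t : ε.ker, (t : X) = z → θ t = ν * θ 1) ↔ θ zH = ν * θ 1 := by
    intro θ
    constructor
    · exact fun h => h zH hzH
    · intro h t ht
      have h1 : t = zH := Subtype.ext (by rw [ht, hzH])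
      rw [h1, h]
  have hcs1 : cs ε s 1 = 1 := map_one _
  have hfinX : ∀ Q : (X → ℂ) → Prop, Finite {χ : X → ℂ // χ ∈ IrrZ z ν ∧ Q χ} := by
    intro Q
    refine Finite.of_injective (β := Irr X) (fun χ => ⟨χ.1, χ.2.1.1⟩) fun a b h => ?_
    exact Subtype.ext (congrArg (fun y : Irr X => y.1) h)
  have hfinH : ∀ Q : (ε.ker → ℂ) → Prop, Finite {θ : ε.ker → ℂ // θ ∈ Irr ε.ker ∧ Q θ} := by
    intro Q
    refine Finite.of_injective (β := Irr ε.ker) (fun χ => ⟨χ.1, χ.2.1⟩) fun a b h => ?_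
    exact Subtype.ext (congrArg (fun y : Irr ε.ker => y.1) h)
  have hdres : ∀ χ : X → ℂ, deg (res ε χ) = deg χ := fun χ => rfl
  have hdtw : ∀ χ : X → ℂ, deg (tw ε χ) = deg χ := by
    intro χ
    unfold deg tw
    rw [map_one, Units.val_one, Int.cast_one, one_mul]
  constructor
  · -- restriction
    have := hfinX fun χ => (deg χ : ZMod p) ^ 2 = d ∧
      ¬ ∀ x, (((ε x : ℤˣ) : ℤ) : ℂ) * χ x = χ x
    have := hfinH fun θ => (∀ t : ε.ker, (t : X) = z → θ t = ν * θ 1) ∧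
      (deg θ : ZMod p) ^ 2 = d ∧ ∀ x y : ε.ker, (y : X) = s * x * s⁻¹ → θ y = θ x
    unfold lN
    symm
    refine two_one (A := {χ : X → ℂ // χ ∈ IrrZ z ν ∧ (deg χ : ZMod p) ^ 2 = d ∧
        ¬ ∀ x, (((ε x : ℤˣ) : ℤ) : ℂ) * χ x = χ x})
      (B := {θ : ε.ker → ℂ // θ ∈ Irr ε.ker ∧ (∀ t : ε.ker, (t : X) = z → θ t = ν * θ 1) ∧
        (deg θ : ZMod p) ^ 2 = d ∧ ∀ x y : ε.ker, (y : X) = s * x * s⁻¹ → θ y = θ x})
      (fun χ => ⟨res ε χ.1, res_irr ε s hs χ.2.1.1 (fun h => χ.2.2.2 ((htw _).2 h)), ?_, ?_, ?_⟩)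
      (fun χ => ⟨tw ε χ.1, ⟨tw_irr ε χ.2.1.1, ?_⟩, ?_, ?_⟩) ?_ ?_ ?_ ?_
    · rw [hzcond]
      change χ.1 (zH : X) = ν * χ.1 1
      rw [hzH]
      exact χ.2.1.2
    · rw [hdres]
      exact χ.2.2.1
    · intro x y hxy
      change χ.1 (y : X) = χ.1 (x : X)
      rw [hxy]
      exact Irr.isClass χ.2.1.1 s x
    · unfold tw
      rw [hεz, map_one, Units.val_one, Int.cast_one, one_mul, one_mul]
      exact χ.2.1.2
    · rw [hdtw]
      exact χ.2.2.1
    · intro h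
      rw [htw, htt] at h
      exact χ.2.2.2 ((htw _).2 h.symm)
    · intro χ h
      exact χ.2.2.2 ((htw _).2 (congrArg Subtype.val h))
    · intro χ
      apply Subtype.ext
      funext h
      change tw ε χ.1 (h : X) = χ.1 (h : X)
      unfold tw
      have h2 : ε (h : X) = 1 := h.2
      rw [h2, Units.val_one, Int.cast_one, one_mul]
    · rintro ⟨θ, hθ, hθz, hθd, hθs⟩
      rw [hcs] at hθs
      obtain ⟨χ, hχ, hne⟩ := exists_over ε s hs hθ
      have hns : tw ε χ ≠ χ := fun h => no_fix ε s hs hθ hθs hχ h hne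
      have hr : res ε χ = θ := by
        by_contra hcon
        exact hne (B_irr_ne hθ (res_irr ε s hs hχ hns) (fun h => hcon h.symm))
      rw [hzcond] at hθz
      refine ⟨⟨χ, ⟨hχ, ?_⟩, ?_, fun h => hns ((htw _).1 h)⟩, Subtype.ext hr⟩
      · rw [← hr] at hθz
        change χ (zH : X) = ν * χ 1 at hθz
        rw [hzH] at hθz
        exact hθz
      · rw [← hr, hdres] at hθd
        exact hθd
    · intro χ χ' h
      have h1 : res ε χ.1 = res ε χ'.1 := congrArg Subtype.val h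
      have h2 : B (res ε χ.1) (res ε χ'.1) = 1 := by
        rw [← h1]
        exact B_irr_self (res_irr ε s hs χ.2.1.1 (fun h => χ.2.2.2 ((htw _).2 h)))
      rw [B_res ε s hs] at h2
      by_cases h3 : χ.1 = χ'.1
      · exact Or.inl (Subtype.ext h3.symm)
      · right
        rw [B_irr_ne χ.2.1.1 χ'.2.1.1 h3, zero_add] at h2
        by_contra hcon
        rw [B_irr_ne (tw_irr ε χ.2.1.1) χ'.2.1.1 (fun h4 => hcon (Subtype.ext h4.symm))] at h2
        exact zero_ne_one h2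
  · -- induction
    have := hfinX fun χ => (deg χ : ZMod p) ^ 2 = 4 * d ∧
      ∀ x, (((ε x : ℤˣ) : ℤ) : ℂ) * χ x = χ x
    have := hfinH fun θ => (∀ t : ε.ker, (t : X) = z → θ t = ν * θ 1) ∧
      (deg θ : ZMod p) ^ 2 = d ∧ ¬ ∀ x y : ε.ker, (y : X) = s * x * s⁻¹ → θ y = θ x
    have h4 : (4 : ZMod p) ≠ 0 := by
      intro h
      have h5 : ((4 : ℕ) : ZMod p) = 0 := by exact_mod_cast h
      rw [ZMod.natCast_eq_zero_iff] at h5
      have hp : p.Prime := Fact.out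
      have h6 : p ∣ 2 := by
        have : p ∣ 2 ^ 2 := by simpa using h5
        exact hp.dvd_of_dvd_pow this
      exact h2 ((Nat.prime_dvd_prime_iff_eq hp Nat.prime_two).1 h6)
    have hind1 : ∀ θ : ε.ker → ℂ, ind ε s θ 1 = 2 * θ 1 := by
      intro θ
      have h5 := res_ind ε s θ 1
      rw [hcs1] at h5
      change ind ε s θ 1 = _ at h5
      rw [h5]
      ring
    have hindz : ∀ θ : ε.ker → ℂ, ind ε s θ z = 2 * θ zH := by
      intro θ
      have h5 := res_ind ε s θ zH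
      rw [hzs] at h5
      change ind ε s θ (zH : X) = _ at h5
      rw [hzH] at h5
      rw [h5]
      ring
    have hinddeg : ∀ θ ∈ Irr ε.ker, deg (ind ε s θ) = 2 * deg θ := by
      intro θ hθ
      apply deg_eq
      rw [hind1]
      push_cast
      rw [deg_cast hθ]
    have hindtw : ∀ θ : ε.ker → ℂ, tw ε (ind ε s θ) = ind ε s θ := by
      intro θ
      funext x
      unfold tw
      by_cases hx : x ∈ ε.ker
      · have h5 : ε x = 1 := hx
        rw [h5, Units.val_one, Int.cast_one, one_mul]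
      · rw [ind_off ε s θ hx, mul_zero]
    have hindcs : ∀ θ : ε.ker → ℂ, IsClass θ → ind ε s (fun h => θ (cs ε s h)) = ind ε s θ := by
      intro θ hθ
      funext x
      by_cases hx : x ∈ ε.ker
      · have h5 := res_ind ε s θ ⟨x, hx⟩
        have h6 := res_ind ε s (fun h => θ (cs ε s h)) ⟨x, hx⟩
        simp only [cs_cs ε s hs hθ] at h6
        change ind ε s (fun h => θ (cs ε s h)) x = _ at h6
        change ind ε s θ x = _ at h5
        rw [h5, h6, add_comm]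
      · rw [ind_off ε s _ hx, ind_off ε s _ hx]
    unfold lF
    refine two_one (A := {θ : ε.ker → ℂ // θ ∈ Irr ε.ker ∧
        (∀ t : ε.ker, (t : X) = z → θ t = ν * θ 1) ∧ (deg θ : ZMod p) ^ 2 = d ∧
        ¬ ∀ x y : ε.ker, (y : X) = s * x * s⁻¹ → θ y = θ x})
      (B := {χ : X → ℂ // χ ∈ IrrZ z ν ∧ (deg χ : ZMod p) ^ 2 = 4 * d ∧
        ∀ x, (((ε x : ℤˣ) : ℤ) : ℂ) * χ x = χ x})
      (fun θ => ⟨ind ε s θ.1, ⟨ind_irr ε s hs θ.2.1 (fun h => θ.2.2.2.2 ((hcs _).2 h)), ?_⟩, ?_, ?_⟩)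
      (fun θ => ⟨fun h => θ.1 (cs ε s h), cs_irr ε s θ.2.1, ?_, ?_, ?_⟩) ?_ ?_ ?_ ?_
    · rw [hindz, hind1, (hzcond _).1 θ.2.2.1]
      ring
    · rw [hinddeg _ θ.2.1]
      push_cast
      rw [mul_pow, θ.2.2.2.1]
      norm_num
    · rw [htw]
      exact hindtw _
    · rw [hzcond]
      rw [hzs, hcs1]
      exact (hzcond _).1 θ.2.2.1
    · have h5 : deg (fun h => θ.1 (cs ε s h)) = deg θ.1 := by
        change ⌊(θ.1 (cs ε s 1)).re⌋₊ = ⌊(θ.1 1).re⌋₊
        rw [hcs1]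
      rw [h5]
      exact θ.2.2.2.1
    · intro h
      rw [hcs] at h
      apply θ.2.2.2.2
      rw [hcs]
      have h5 : (fun h => θ.1 (cs ε s (cs ε s h))) = fun h => θ.1 (cs ε s h) := h
      rw [← h5]
      funext x
      exact cs_cs ε s hs (Irr.isClass θ.2.1) x
    · intro θ h
      exact θ.2.2.2.2 ((hcs _).2 (congrArg Subtype.val h))
    · intro θ
      apply Subtype.ext
      exact hindcs _ (Irr.isClass θ.2.1)
    · rintro ⟨χ, ⟨hχ, hχz⟩, hχd, hχt⟩
      rw [htw] at hχt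
      obtain ⟨θ, hθ, hne⟩ := exists_under ε hχ
      have hns : (fun h => θ (cs ε s h)) ≠ θ := fun h => no_fix ε s hs hθ h hχ hχt hne
      have hi : ind ε s θ = χ := by
        by_contra hcon
        apply hne
        rw [← frob ε s hs θ (Irr.isClass hχ)]
        exact B_irr_ne (ind_irr ε s hs hθ hns) hχ hcon
      refine ⟨⟨θ, hθ, ?_, ?_, fun h => hns ((hcs _).1 h)⟩, Subtype.ext hi⟩
      · rw [hzcond]
        rw [← hi, hindz, hind1] at hχz
        have h5 : (2 : ℂ) ≠ 0 := two_ne_zero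
        apply mul_left_cancel₀ h5
        rw [hχz]
        ring
      · rw [← hi, hinddeg _ hθ] at hχd
        push_cast at hχd
        rw [mul_pow] at hχd
        apply mul_left_cancel₀ h4
        rw [← hχd]
        norm_num
    · intro θ θ' h
      have h5 : ind ε s θ.1 = ind ε s θ'.1 := congrArg Subtype.val h
      have h6 : B (ind ε s θ.1) (ind ε s θ'.1) = 1 := by
        rw [← h5]
        exact B_irr_self (ind_irr ε s hs θ.2.1 (fun h => θ.2.2.2.2 ((hcs _).2 h)))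
      rw [B_ind_ind ε s hs (Irr.isClass θ.2.1) (Irr.isClass θ'.2.1)] at h6
      by_cases h7 : θ.1 = θ'.1
      · exact Or.inl (Subtype.ext h7.symm)
      · right
        rw [B_irr_ne θ.2.1 θ'.2.1 h7, zero_add] at h6
        have h8 : θ.1 = fun h => θ'.1 (cs ε s h) := by
          by_contra hcon
          rw [B_irr_ne θ.2.1 (cs_irr ε s θ'.2.1) hcon] at h6
          exact zero_ne_one h6
        apply Subtype.ext
        change θ'.1 = fun h => θ.1 (cs ε s h)
        rw [h8]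
        funext x
        exact (cs_cs ε s hs (Irr.isClass θ'.2.1) x).symm

end Pool.Agent.Helper81.AN
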