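import Pool.Agent.Helper81.AN.TrMap
import Pool.Agent.Helper81.AN.Idx2
import Pool.Agent.Helper81.AN.CliffRep

/-!
# ALT-48: transfer, spin characters, odd number of points

PROOF. `n = |ι|` odd, `w` of full support: central in `Cl ι` (`omega_odd`), fixed by even permutations and mapped to `z w` by odd ones (`pact_omega`), `par w = -1`, `w² ∈ {1, z}`. `C0 = {1, z, w, z w}` (a subgroup of order four: `w ≠ 1, z` as its support is not empty, `n ≥ 1`). `d = 2^((n-1)/2) = dU ι`, `2^(n+1) = d² 4`.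
`U w` is a scalar `ν0` (`omega_scalar`), `U (z w) = -ν0`. `H = ker sgX`, `s = BP.r s`. `IrrU h0 C0 U` = the irreducible characters `θ` of `H` with `θ(z) = -θ(1)`, `θ(w) = ν0 θ(1)`.
(1) For `θ ∈ IrrU` let `θ^s(x) = θ(s x s⁻¹)`: irreducible, `θ^s(w) = θ(z w) = -ν0 θ(1)` (`s w s⁻¹ = z w`), so `θ^s ≠ θ`. `I(θ)(x) = θ(x) + θ^s(x)` on `H`, `0` off `H`: an irreducible character of `X = BP h0` with `z ↦ -1`, as in `idx2` (`B_X(I, I) = ½ B_H(θ + θ^s, θ + θ^s) = 1`; it is the induced character: a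
generalized character, positive at `1`).
(2) `I : IrrU → IrrZ (BG.z) (-1)` is a bijection: let `χ ∈ IrrZ z (-1)`. The central element `w` of `H` acts on the constituents of `χ|_H` by `± ν0` (`w² = 1` or `z`, so the scalar squares to `± 1 = ν0²`), and if `θ` is a constituent with `- ν0` then `θ^s` is one with `ν0`. So `χ|_H` has a constituent `θ ∈ IrrU`, and by Frobenius reciprocity
(`B_X(I θ, χ) = B_H(θ, χ|_H) ≠ 0`) `χ = I(θ)`. Injective: `I(θ)|_H = θ + θ^s` and only `θ` has `w ↦ ν0`. (Linear independence of irreducible characters, `B_irr`.)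
(3) `deg I(θ) = 2 deg θ`. `par I(θ) = I(θ')` where `θ' = par θ^s` (`par(x) θ(s x s⁻¹)`): `θ' ∈ IrrU` because `par(w) θ^s(w) = -(-ν0) θ(1)`; and `θ'^s = par θ^(s²) = par θ` (`s² ∈ H`, `par` is invariant under conjugation).
(4) `tr_map` with this `C0`: `e : {φ ∈ Irr T, φ(z_K) = -φ(1)} ≃ IrrU`; if `φ' = φ ∘ α` then `(e φ)(s x s⁻¹) = par(x) (e φ')(x)` (`trace_alpha`), i.e. `par (e φ)^s = e φ'`. So `φ` is `α`-invariant iff `par (e φ)^s = e φ` iff `par I(e φ) = I(e φ)`.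
(5) `deg I(e φ) = 2 · 2^((n-1)/2) deg φ`, square `2^(n+1) deg²`; `2` is a unit mod `p`. Count.
-/

set_option autoImplicit false
set_option linter.unusedSectionVars false

open Matrix Equiv

namespace Pool.Agent.Helper81.AN

open Pool.Agent.Helper42.INC Pool.Agent.Helper7.MK Pool.Agent.Helper57.AN

section aux

variable {X : Type} [Group X] (ε : X →* ℤˣ) (s : X)

/-- extension by zero -/
private noncomputable def e0 (θ : ε.ker → ℂ) (x : X) : ℂ := by
  classical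
  exact if h : x ∈ ε.ker then θ ⟨x, h⟩ else 0

private theorem e0_pos (θ : ε.ker → ℂ) (h : ε.ker) : e0 ε θ (h : X) = θ h := by
  unfold e0
  exact dif_pos h.2

private theorem e0_neg (θ : ε.ker → ℂ) {x : X} (h : x ∉ ε.ker) : e0 ε θ x = 0 := by
  unfold e0
  exact dif_neg h

private theorem e0_conj {θ : ε.ker → ℂ} (hθ : IsClass θ) {g : X} (hg : g ∈ ε.ker) (x : X) :
    e0 ε θ (g * x * g⁻¹) = e0 ε θ x := by
  by_cases hx : x ∈ ε.ker
  · have h1 := hθ ⟨g, hg⟩ ⟨x, hx⟩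
    rw [← e0_pos ε θ (⟨g, hg⟩ * ⟨x, hx⟩ * ⟨g, hg⟩⁻¹), ← e0_pos ε θ ⟨x, hx⟩] at h1
    exact h1
  · rw [e0_neg ε θ hx, e0_neg]
    intro h
    apply hx
    have h1 := ε.ker.mul_mem (ε.ker.mul_mem (ε.ker.inv_mem hg) h) hg
    have h2 : g⁻¹ * (g * x * g⁻¹) * g = x := by group
    rw [h2] at h1
    exact h1

/-- the induced function -/
private noncomputable def ind (θ : ε.ker → ℂ) (x : X) : ℂ := e0 ε θ x + e0 ε θ (s * x * s⁻¹)

/-- restriction -/
private def res (f : X → ℂ) (h : ε.ker) : ℂ := f h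

/-- conjugation by `s` -/
private noncomputable def cs : ε.ker ≃* ε.ker := MulAut.conjNormal s

private theorem cs_coe (h : ε.ker) : ((cs ε s h : ε.ker) : X) = s * h * s⁻¹ :=
  MulAut.conjNormal_apply s h

private theorem res_ind (θ : ε.ker → ℂ) (h : ε.ker) : res ε (ind ε s θ) h = θ h + θ (cs ε s h) := by
  unfold res ind
  rw [e0_pos, ← cs_coe, e0_pos]

private theorem mem_or (hs : ε s = -1) {g : X} (hg : g ∉ ε.ker) : s⁻¹ * g ∈ ε.ker ∧ s * g ∈ ε.ker := by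
  have h1 : ε g = -1 := by
    rcases Int.units_eq_one_or (ε g) with h | h
    · exact absurd (MonoidHom.mem_ker.2 h) hg
    · exact h
  rw [MonoidHom.mem_ker, MonoidHom.mem_ker, map_mul, map_mul, map_inv, hs, h1]
  exact ⟨by simp, by simp⟩

private theorem ind_off (θ : ε.ker → ℂ) {x : X} (h : x ∉ ε.ker) : ind ε s θ x = 0 := by
  unfold ind
  rw [e0_neg ε θ h, e0_neg, add_zero]
  intro h1
  apply h
  rw [MonoidHom.mem_ker] at h1 ⊢
  rw [map_mul, map_mul, map_inv, mul_comm, inv_mul_cancel_left] at h1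
  exact h1

private theorem ind_class (hs : ε s = -1) {θ : ε.ker → ℂ} (hθ : IsClass θ) : IsClass (ind ε s θ) := by
  intro g x
  have hn : ∀ y : X, y ∈ ε.ker → s * y * s⁻¹ ∈ ε.ker := by
    intro y hy
    exact (MonoidHom.normal_ker ε).conj_mem y hy s
  unfold ind
  by_cases hg : g ∈ ε.ker
  · rw [e0_conj ε hθ hg]
    have h1 : s * (g * x * g⁻¹) * s⁻¹ = (s * g * s⁻¹) * (s * x * s⁻¹) * (s * g * s⁻¹)⁻¹ := by group
    rw [h1, e0_conj ε hθ (hn g hg)]
  · obtain ⟨h2, h3⟩ := mem_or ε s hs hg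
    have h1 : g * x * g⁻¹ = (s * (s⁻¹ * g) * s⁻¹) * (s * x * s⁻¹) * (s * (s⁻¹ * g) * s⁻¹)⁻¹ := by
      group
    have h4 : s * (g * x * g⁻¹) * s⁻¹ = (s * g) * x * (s * g)⁻¹ := by group
    rw [h4, e0_conj ε hθ h3, h1, e0_conj ε hθ (hn _ h2), add_comm]

variable [Finite X]

private theorem card_two (hs : ε s = -1) : (Nat.card X : ℂ) = 2 * (Nat.card ε.ker : ℂ) := by
  have h1 : ε.ker.index = 2 := by
    rw [Subgroup.index_ker]
    have h2 : ε.range = ⊤ := by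
      rw [eq_top_iff]
      intro u _
      rcases Int.units_eq_one_or u with h | h
      · exact ⟨1, by rw [h, map_one]⟩
      · exact ⟨s, by rw [h, hs]⟩
    rw [h2, Subgroup.card_top, Nat.card_eq_fintype_card]
    rfl
  have h3 := Subgroup.card_mul_index ε.ker
  rw [h1] at h3
  rw [← h3]
  push_cast
  ring

private theorem sum_ker [Fintype X] [Fintype ε.ker] (F : X → ℂ) (hF : ∀ x, x ∉ ε.ker → F x = 0) :
    ∑ x : X, F x = ∑ h : ε.ker, F h := by
  classical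
  rw [← Finset.sum_subtype (Finset.univ.filter fun x => x ∈ ε.ker) (fun x => by simp) F]
  rw [Finset.sum_filter]
  refine Finset.sum_congr rfl fun x _ => ?_
  split_ifs with h
  · rfl
  · exact hF x h

private theorem frob (hs : ε s = -1) (θ : ε.ker → ℂ) {f : X → ℂ} (hf : IsClass f) :
    B (ind ε s θ) f = B θ (res ε f) := by
  classical
  have := Fintype.ofFinite X
  have := Fintype.ofFinite ε.ker
  have h0 : (Nat.card ε.ker : ℂ) ≠ 0 := by exact_mod_cast Nat.card_pos.ne'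
  rw [B_eq, B_eq, card_two ε s hs]
  rw [sum_ker ε (fun x => ind ε s θ x * f x⁻¹)]
  · have h1 : ∑ h : ε.ker, ind ε s θ h * f (h : X)⁻¹ = 2 * ∑ h : ε.ker, θ h * res ε f h⁻¹ := by
      have h2 : ∀ h : ε.ker, ind ε s θ h * f (h : X)⁻¹ =
          θ h * res ε f h⁻¹ + θ (cs ε s h) * res ε f (cs ε s h)⁻¹ := by
        intro h
        have h3 := res_ind ε s θ h
        unfold res at h3 ⊢
        rw [h3, add_mul, Subgroup.coe_inv, Subgroup.coe_inv, cs_coe]
        congr 2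
        have h4 : (s * (h : X) * s⁻¹)⁻¹ = s * (h : X)⁻¹ * s⁻¹ := by group
        rw [h4, hf]
      have h3 : ∑ h : ε.ker, θ (cs ε s h) * res ε f (cs ε s h)⁻¹ = ∑ h : ε.ker, θ h * res ε f h⁻¹ :=
        Equiv.sum_comp (cs ε s).toEquiv (fun h => θ h * res ε f h⁻¹)
      rw [Finset.sum_congr rfl fun h _ => h2 h, Finset.sum_add_distrib, h3]
      ring
    rw [h1]
    field_simp
  · intro x hx
    rw [ind_off ε s θ hx, zero_mul]

private theorem res_char {χ : X → ℂ} (hχ : χ ∈ Irr X) : IsChar (res ε χ) :=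
  (IsChar.of_irr hχ).comp ε.ker.subtype

private theorem cs_irr {θ : ε.ker → ℂ} (hθ : θ ∈ Irr ε.ker) : (fun h => θ (cs ε s h)) ∈ Irr ε.ker :=
  irr_comp (cs ε s) hθ

private theorem cs_cs (hs : ε s = -1) {θ : ε.ker → ℂ} (hθ : IsClass θ) (h : ε.ker) :
    θ (cs ε s (cs ε s h)) = θ h := by
  have h1 : s * s ∈ ε.ker := by rw [MonoidHom.mem_ker, map_mul, hs]; simp
  have h2 : cs ε s (cs ε s h) = ⟨s * s, h1⟩ * h * ⟨s * s, h1⟩⁻¹ := by
    apply Subtype.ext
    rw [cs_coe, cs_coe]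
    change s * (s * (h : X) * s⁻¹) * s⁻¹ = (s * s) * (h : X) * (s * s)⁻¹
    group
  rw [h2, hθ]

private theorem B_ind_ind (hs : ε s = -1) {θ θ' : ε.ker → ℂ} (_hθ : IsClass θ) (hθ' : IsClass θ') :
    B (ind ε s θ) (ind ε s θ') = B θ θ' + B θ (fun h => θ' (cs ε s h)) := by
  rw [frob ε s hs θ (ind_class ε s hs hθ'), B_symm, B_symm θ θ', B_symm θ (fun h => θ' (cs ε s h)),
    ← B_add_left]
  congr 1
  funext h
  exact res_ind ε s θ' h

/-- the induced character is irreducible -/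
private theorem ind_irr (hs : ε s = -1) {θ : ε.ker → ℂ} (hθ : θ ∈ Irr ε.ker)
    (hne : (fun h => θ (cs ε s h)) ≠ θ) : ind ε s θ ∈ Irr X := by
  apply irr_of_norm_one _ (ind_class ε s hs (Irr.isClass hθ))
  · intro χ hχ
    rw [frob ε s hs θ (Irr.isClass hχ)]
    exact (IsChar.of_irr hθ).nat (res_char ε hχ)
  · rw [B_ind_ind ε s hs (Irr.isClass hθ) (Irr.isClass hθ), B_irr_self hθ,
      B_irr_ne hθ (cs_irr ε s hθ) (Ne.symm hne), add_zero]

private theorem exists_under {χ : X → ℂ} (hχ : χ ∈ Irr X) :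
    ∃ θ ∈ Irr ε.ker, B θ (res ε χ) ≠ 0 := by
  by_contra hcon
  push Not at hcon
  have h1 := complete (res ε χ) (res_char ε hχ).isClass (fun θ hθ => by
    rw [B_symm]
    exact hcon θ hθ)
  obtain ⟨n, hn, hn1⟩ := irr_one hχ
  have h2 : res ε χ 1 = 0 := by rw [h1]; rfl
  have h3 : χ 1 = 0 := h2
  rw [hn1, Nat.cast_eq_zero] at h3
  omega

end aux

section odd

variable {X : Type} [Group X] [Finite X] (ε : X →* ℤˣ) (s : X)

/-- the characters of the kernel -/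
private def AA (zH wH : ε.ker) (ν : ℂ) : Set (ε.ker → ℂ) :=
  {θ | θ ∈ Irr ε.ker ∧ θ zH = -θ 1 ∧ θ wH = ν * θ 1}

private theorem one_ne {Y : Type} [Group Y] [Finite Y] {θ : Y → ℂ} (hθ : θ ∈ Irr Y) : θ 1 ≠ 0 := by
  obtain ⟨n, hn, hn1⟩ := irr_one hθ
  rw [hn1]
  exact_mod_cast (Nat.pos_iff_ne_zero.1 hn)

private theorem mem_irrZ {Y : Type} [Group Y] {θ : Y → ℂ} (hθ : θ ∈ Irr Y) {z : Y}
    (h : θ z = -θ 1) : θ ∈ IrrZ z (-1) := ⟨hθ, by rw [h]; ring⟩

private theorem cs_z {zH : ε.ker} (hzX : ∀ x : X, (zH : X) * x = x * zH) : cs ε s zH = zH := by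
  apply Subtype.ext
  rw [cs_coe, ← hzX, mul_inv_cancel_right]

private theorem cs_w {zH wH : ε.ker} (hws : s * (wH : X) * s⁻¹ = (zH : X) * wH) :
    cs ε s wH = zH * wH := by
  apply Subtype.ext
  rw [cs_coe, hws]
  rfl

private theorem AA_tw {zH wH : ε.ker} (hz : CInv zH)
    (hws : s * (wH : X) * s⁻¹ = (zH : X) * wH) {θ : ε.ker → ℂ} (hθ : θ ∈ Irr ε.ker)
    (h1 : θ zH = -θ 1) : θ (cs ε s wH) = -θ wH := by
  rw [cs_w ε s hws, irrZ_neg hz (mem_irrZ hθ h1)]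

private theorem AA_ne {zH wH : ε.ker} {ν : ℂ} (hν : ν ≠ 0) (hz : CInv zH)
    (hws : s * (wH : X) * s⁻¹ = (zH : X) * wH) {θ : ε.ker → ℂ} (hθ : θ ∈ AA ε zH wH ν) :
    (fun h => θ (cs ε s h)) ≠ θ := by
  intro h
  have h1 : θ (cs ε s wH) = θ wH := congrFun h wH
  rw [AA_tw ε s hz hws hθ.1 hθ.2.1, hθ.2.2] at h1
  have h2 : ν * θ 1 ≠ 0 := mul_ne_zero hν (one_ne hθ.1)
  apply h2
  have h3 : (2 : ℂ) * (ν * θ 1) = 0 := by linear_combination -h1
  exact (mul_eq_zero.1 h3).resolve_left two_ne_zero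

private theorem ind_one (θ : ε.ker → ℂ) : ind ε s θ 1 = 2 * θ 1 := by
  have h5 := res_ind ε s θ 1
  rw [map_one] at h5
  change ind ε s θ 1 = _ at h5
  rw [h5]
  ring

private theorem ind_cs (hs : ε s = -1) {θ : ε.ker → ℂ} (hθ : IsClass θ) :
    ind ε s (fun h => θ (cs ε s h)) = ind ε s θ := by
  funext x
  by_cases hx : x ∈ ε.ker
  · have h5 := res_ind ε s θ ⟨x, hx⟩
    have h6 := res_ind ε s (fun h => θ (cs ε s h)) ⟨x, hx⟩
    simp only [cs_cs ε s hs hθ] at h6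
    change ind ε s (fun h => θ (cs ε s h)) x = _ at h6
    change ind ε s θ x = _ at h5
    rw [h5, h6, add_comm]
  · rw [ind_off ε s _ hx, ind_off ε s _ hx]

private theorem AA_mem (hs : ε s = -1) {zH wH : ε.ker} {ν : ℂ} (hν : ν ≠ 0) (hz : CInv zH)
    (hzX : ∀ x : X, (zH : X) * x = x * zH)
    (hws : s * (wH : X) * s⁻¹ = (zH : X) * wH) {θ : ε.ker → ℂ} (hθ : θ ∈ AA ε zH wH ν) :
    ind ε s θ ∈ IrrZ (zH : X) (-1) := by
  refine ⟨ind_irr ε s hs hθ.1 (AA_ne ε s hν hz hws hθ), ?_⟩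
  have h5 := res_ind ε s θ zH
  rw [cs_z ε s hzX] at h5
  change ind ε s θ (zH : X) = _ at h5
  rw [h5, ind_one, hθ.2.1]
  ring

private theorem AA_inj (hs : ε s = -1) {zH wH : ε.ker} {ν : ℂ} (hν : ν ≠ 0) (hz : CInv zH)
    (hws : s * (wH : X) * s⁻¹ = (zH : X) * wH) {θ θ' : ε.ker → ℂ} (hθ : θ ∈ AA ε zH wH ν)
    (hθ' : θ' ∈ AA ε zH wH ν) (h : ind ε s θ = ind ε s θ') : θ = θ' := by
  have h6 : B (ind ε s θ) (ind ε s θ') = 1 := by
    rw [← h]
    exact B_irr_self (ind_irr ε s hs hθ.1 (AA_ne ε s hν hz hws hθ))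
  rw [B_ind_ind ε s hs (Irr.isClass hθ.1) (Irr.isClass hθ'.1)] at h6
  by_contra h7
  rw [B_irr_ne hθ.1 hθ'.1 h7, zero_add] at h6
  have h8 : θ = fun h => θ' (cs ε s h) := by
    by_contra hcon
    rw [B_irr_ne hθ.1 (cs_irr ε s hθ'.1) hcon] at h6
    exact zero_ne_one h6
  have h9 : θ wH = -θ' wH := by
    rw [h8]
    exact AA_tw ε s hz hws hθ'.1 hθ'.2.1
  have h10 : θ 1 = θ' 1 := by
    rw [h8]
    change θ' (cs ε s 1) = θ' 1
    rw [map_one]
  rw [hθ.2.2, hθ'.2.2, h10] at h9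
  have h2 : ν * θ' 1 ≠ 0 := mul_ne_zero hν (one_ne hθ'.1)
  apply h2
  have h3 : (2 : ℂ) * (ν * θ' 1) = 0 := by linear_combination h9
  exact (mul_eq_zero.1 h3).resolve_left two_ne_zero

/-- central elements act by scalars -/
private theorem cen {Y : Type} [Group Y] [Finite Y] {θ : Y → ℂ} (hθ : θ ∈ Irr Y) {c : Y}
    (hc : ∀ y, c * y = y * c) : ∃ μ : ℂ, ∀ y, θ (c * y) = μ * θ y := by
  letI : CommGroup (Subgroup.center Y) :=
    { (inferInstance : Group (Subgroup.center Y)) with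
      mul_comm := fun a b => Subtype.ext (Subgroup.mem_center_iff.1 b.2 a) }
  obtain ⟨ν, hν⟩ := exists_central (C := Subgroup.center Y) (Subgroup.center Y).subtype
    (fun c => c.2) hθ
  have hzc : c ∈ Subgroup.center Y := by
    rw [Subgroup.mem_center_iff]
    intro g
    exact (hc g).symm
  exact ⟨ν ⟨c, hzc⟩, fun y => hν ⟨c, hzc⟩ y⟩

private theorem under_z {zH : ε.ker} (hz : CInv zH) (hzXi : CInv (zH : X)) {χ : X → ℂ}
    (hχ : χ ∈ IrrZ (zH : X) (-1)) {θ : ε.ker → ℂ} (hθ : θ ∈ Irr ε.ker)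
    (hne : B θ (res ε χ) ≠ 0) : θ zH = -θ 1 := by
  classical
  have := Fintype.ofFinite ε.ker
  obtain ⟨μ, hμ⟩ := cen hθ hz.comm
  have h1 : ∑ h : ε.ker, θ (zH * h) * res ε χ (zH * h)⁻¹ = ∑ h : ε.ker, θ h * res ε χ h⁻¹ :=
    Equiv.sum_comp (Equiv.mulLeft zH) (fun h => θ h * res ε χ h⁻¹)
  have hzi : zH⁻¹ = zH := inv_eq_of_mul_eq_one_left hz.sq
  have h2 : ∀ h : ε.ker, θ (zH * h) * res ε χ (zH * h)⁻¹ = -μ * (θ h * res ε χ h⁻¹) := by
    intro h
    have h3 : res ε χ (zH * h)⁻¹ = -res ε χ h⁻¹ := by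
      rw [_root_.mul_inv_rev, hzi, ← hz.comm]
      change χ ((zH : X) * ((h⁻¹ : ε.ker) : X)) = -χ ((h⁻¹ : ε.ker) : X)
      exact irrZ_neg hzXi hχ _
    rw [hμ, h3]
    ring
  rw [Finset.sum_congr rfl fun h _ => h2 h, ← Finset.mul_sum] at h1
  have h4 : ∑ h : ε.ker, θ h * res ε χ h⁻¹ ≠ 0 := by
    intro h0
    apply hne
    rw [B_eq, h0, mul_zero]
  have h5 : -μ = 1 := mul_right_cancel₀ h4 (by rw [h1, one_mul])
  have h6 := hμ 1
  rw [mul_one] at h6
  rw [h6]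
  linear_combination -θ 1 * h5

private theorem AA_surj (hs : ε s = -1) {zH wH : ε.ker} {ν : ℂ} (hν : ν ≠ 0) (hz : CInv zH)
    (hzXi : CInv (zH : X)) (hwc : ∀ h : ε.ker, wH * h = h * wH)
    (hws : s * (wH : X) * s⁻¹ = (zH : X) * wH)
    (hww : (wH * wH = 1 ∧ ν ^ 2 = 1) ∨ (wH * wH = zH ∧ ν ^ 2 = -1)) {χ : X → ℂ}
    (hχ : χ ∈ IrrZ (zH : X) (-1)) : ∃ θ ∈ AA ε zH wH ν, ind ε s θ = χ := by
  obtain ⟨θ, hθ, hne⟩ := exists_under ε hχ.1
  have hz1 := under_z ε hz hzXi hχ hθ hne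
  obtain ⟨μ, hμ⟩ := cen hθ hwc
  have hw1 : θ wH = μ * θ 1 := by
    have h6 := hμ 1
    rwa [mul_one] at h6
  have hμ2 : μ ^ 2 = ν ^ 2 := by
    have h1 : θ (wH * wH) = μ ^ 2 * θ 1 := by
      rw [hμ, hw1]
      ring
    apply mul_right_cancel₀ (one_ne hθ)
    rw [← h1]
    rcases hww with ⟨h2, h3⟩ | ⟨h2, h3⟩
    · rw [h2, h3, one_mul]
    · rw [h2, h3, hz1]
      ring
  rw [← frob ε s hs θ (Irr.isClass hχ.1)] at hne
  rcases sq_eq_sq_iff_eq_or_eq_neg.1 hμ2 with h | h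
  · have hA : θ ∈ AA ε zH wH ν := ⟨hθ, hz1, by rw [hw1, h]⟩
    refine ⟨θ, hA, ?_⟩
    by_contra hcon
    exact hne (B_irr_ne (ind_irr ε s hs hθ (AA_ne ε s hν hz hws hA)) hχ.1 hcon)
  · have hA : (fun h => θ (cs ε s h)) ∈ AA ε zH wH ν := by
      refine ⟨cs_irr ε s hθ, ?_, ?_⟩
      · change θ (cs ε s zH) = -θ (cs ε s 1)
        rw [cs_z ε s hzXi.comm, map_one, hz1]
      · change θ (cs ε s wH) = ν * θ (cs ε s 1)
        rw [AA_tw ε s hz hws hθ hz1, map_one, hw1, h]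
        ring
    refine ⟨_, hA, ?_⟩
    by_contra hcon
    have h7 := B_irr_ne (ind_irr ε s hs hA.1 (AA_ne ε s hν hz hws hA)) hχ.1 hcon
    rw [ind_cs ε s hs (Irr.isClass hθ)] at h7
    exact hne h7

end odd

section C0

variable {ι : Type} [Fintype ι] [DecidableEq ι]

private theorem exists_sq (w : Cl ι) : ∃ e : ZMod 2, w * w = Cl.zp e := by
  rcases omega_sq w with h | h
  · exact ⟨0, by rw [h, Cl.zp_zero]⟩
  · exact ⟨1, by rw [h, Cl.zp_one]⟩

private theorem zpw_mul (w : Cl ι) {k : ZMod 2} (hk : w * w = Cl.zp k) (a b : ZMod 2) :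
    (Cl.zp a * w) * (Cl.zp b * w) = Cl.zp (a + b + k) := by
  rw [mul_assoc, ← mul_assoc w, ← Cl.zp_comm' b w, mul_assoc (Cl.zp b), hk, ← mul_assoc,
    ← Cl.zp_add', ← Cl.zp_add']

/-- the subgroup generated by `z` and `w` -/
private def CC (w : Cl ι) : Subgroup (Cl ι) where
  carrier := {c | ∃ e : ZMod 2, c = Cl.zp e ∨ c = Cl.zp e * w}
  mul_mem' := by
    rintro a b ⟨e, ha⟩ ⟨f, hb⟩
    obtain ⟨k, hk⟩ := exists_sq w
    rcases ha with rfl | rfl <;> rcases hb with rfl | rfl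
    · exact ⟨e + f, Or.inl (Cl.zp_add' e f).symm⟩
    · exact ⟨e + f, Or.inr (by rw [Cl.zp_add', mul_assoc])⟩
    · exact ⟨e + f, Or.inr (by rw [Cl.zp_add', mul_assoc, ← Cl.zp_comm' f w, ← mul_assoc])⟩
    · exact ⟨e + f + k, Or.inl (zpw_mul w hk e f)⟩
  one_mem' := ⟨0, Or.inl Cl.zp_zero.symm⟩
  inv_mem' := by
    rintro a ⟨e, ha⟩
    obtain ⟨k, hk⟩ := exists_sq w
    rcases ha with rfl | rfl
    · refine ⟨e, Or.inl (inv_eq_of_mul_eq_one_left ?_)⟩
      rw [← Cl.zp_add', CharTwo.add_self_eq_zero, Cl.zp_zero]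
    · refine ⟨e + k, Or.inr (inv_eq_of_mul_eq_one_left ?_)⟩
      have h : e + k + e + k = 0 := by
        have h1 : e + k + e + k = (e + e) + (k + k) := by ring
        rw [h1, CharTwo.add_self_eq_zero, CharTwo.add_self_eq_zero, add_zero]
      rw [zpw_mul w hk, h, Cl.zp_zero]

private theorem mem_CC {w c : Cl ι} : c ∈ CC w ↔ ∃ e : ZMod 2, c = Cl.zp e ∨ c = Cl.zp e * w :=
  Iff.rfl

private theorem zp_inj {e f : ZMod 2} (h : (Cl.zp e : Cl ι) = Cl.zp f) : e = f := by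
  rcases Cl.z2cases e with rfl | rfl <;> rcases Cl.z2cases f with rfl | rfl
  · rfl
  · rw [Cl.zp_zero, Cl.zp_one] at h
    exact absurd h.symm Cl.z_ne_one
  · rw [Cl.zp_zero, Cl.zp_one] at h
    exact absurd h Cl.z_ne_one
  · rfl

private theorem card_CC {w : Cl ι} (hw : Full w) (i : ι) : Nat.card (CC w) = 4 := by
  have hne : ∀ e f : ZMod 2, (Cl.zp e : Cl ι) ≠ Cl.zp f * w := by
    intro e f h
    have h1 := congrArg (fun c => Multiplicative.toAdd (Cl.supp c) i) h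
    simp only [Cl.toAdd_supp_mul, Cl.supp_zp, hw i] at h1
    simp at h1
  have hbij : Function.Bijective (fun q : ZMod 2 × Bool =>
      (⟨if q.2 = true then Cl.zp q.1 * w else Cl.zp q.1, by
        split_ifs
        · exact ⟨q.1, Or.inr rfl⟩
        · exact ⟨q.1, Or.inl rfl⟩⟩ : CC w)) := by
    constructor
    · rintro ⟨e, b⟩ ⟨f, c⟩ h
      have h1 := congrArg Subtype.val h
      rcases b with _ | _ <;> rcases c with _ | _
      · have h2 : (Cl.zp e : Cl ι) = Cl.zp f := by simpa using h1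
        rw [zp_inj h2]
      · exact absurd (by simpa using h1) (hne e f)
      · exact absurd (by simpa using h1.symm) (hne f e)
      · have h2 : (Cl.zp e : Cl ι) = Cl.zp f := by simpa using h1
        rw [zp_inj h2]
    · rintro ⟨c, e, hc⟩
      rcases hc with hc | hc
      · exact ⟨(e, false), Subtype.ext (by simp [hc])⟩
      · exact ⟨(e, true), Subtype.ext (by simp [hc])⟩
  rw [← Nat.card_congr (Equiv.ofBijective _ hbij), Nat.card_prod,
    Nat.card_eq_fintype_card (α := Bool), Fintype.card_bool, Nat.card_eq_fintype_card, ZMod.card]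

end C0

section BPs

variable {ι : Type} [Fintype ι] [DecidableEq ι] {L : Type} [Group L] [Finite L] (h0 : L →* Perm ι)

private theorem sg_l (c : Cl ι) : sgX h0 (BP.l h0 c) = 1 := by
  change Perm.sign (h0 (SemidirectProduct.rightHom (SemidirectProduct.inl c))) = 1
  rw [SemidirectProduct.rightHom_inl, map_one, map_one]

private theorem sg_r (g : L) : sgX h0 (BP.r h0 g) = Perm.sign (h0 g) := by
  change Perm.sign (h0 (SemidirectProduct.rightHom (SemidirectProduct.inr g))) = _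
  rw [SemidirectProduct.rightHom_inr]

private theorem sg_x (x : BP h0) : sgX h0 x = Perm.sign (h0 x.right) := rfl

private theorem left_lr (c : Cl ι) (g : L) : (BP.l h0 c * BP.r h0 g).left = c := by
  simp [BP.l, BP.r]

private theorem right_lr (c : Cl ι) (g : L) : (BP.l h0 c * BP.r h0 g).right = g := by
  simp [BP.l, BP.r]

private theorem conj_r (s : L) (x : BP h0) : BP.r h0 s * x * (BP.r h0 s)⁻¹ =
    BP.l h0 (pact (h0 s) x.left) * BP.r h0 (s * x.right * s⁻¹) := by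
  conv_lhs => rw [BP.eq h0 x]
  rw [← mul_assoc (BP.r h0 s), BP.r_mul_l, map_mul, map_mul, map_inv]
  simp only [mul_assoc]

private theorem par_x (x : BP h0) : BG.par ((permH ι).comp h0) x = Cl.par x.left := by
  conv_lhs => rw [BP.eq h0 x]
  rw [map_mul, BP.par_l, BP.par_r, mul_one]

/-- the elements of the Clifford group in the kernel -/
private def lH (c : Cl ι) : (sgX h0).ker := ⟨BP.l h0 c, sg_l h0 c⟩

private theorem lH_mul (a b : Cl ι) : lH h0 (a * b) = lH h0 a * lH h0 b :=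
  Subtype.ext (map_mul (BP.l h0) a b)

private theorem lH_one : lH h0 1 = 1 := Subtype.ext (map_one (BP.l h0))

private theorem cinv_X : CInv (BP.l h0 Cl.z) := BG.cinv (h := (permH ι).comp h0)

private theorem cinv_H : CInv (lH h0 Cl.z) := by
  refine ⟨fun y => Subtype.ext ((cinv_X h0).comm y), Subtype.ext (cinv_X h0).sq, fun h => ?_⟩
  exact (cinv_X h0).ne (congrArg Subtype.val h)

private theorem pact_even {w : Cl ι} (hw : Full w) {σ : Perm ι} (hσ : Perm.sign σ = 1) :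
    pact σ w = w := by
  rw [pact_omega w hw, hσ, map_one, one_mul]

private theorem w_comm {w : Cl ι} (hw : Full w) (hn : Odd (Fintype.card ι)) (x : (sgX h0).ker) :
    lH h0 w * x = x * lH h0 w := by
  apply Subtype.ext
  change BP.l h0 w * (x : BP h0) = (x : BP h0) * BP.l h0 w
  have hσ : Perm.sign (h0 (x : BP h0).right) = 1 := x.2
  rw [BP.eq h0 (x : BP h0), mul_assoc (BP.l h0 (x : BP h0).left), BP.r_mul_l, pact_even hw hσ,
    ← mul_assoc, ← mul_assoc, ← map_mul, ← map_mul, omega_odd w hw hn]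

private theorem w_conj {w : Cl ι} (hw : Full w) {s : L} (hs : Perm.sign (h0 s) = -1) :
    BP.r h0 s * (lH h0 w : BP h0) * (BP.r h0 s)⁻¹ = (lH h0 Cl.z : BP h0) * lH h0 w := by
  change BP.r h0 s * BP.l h0 w * (BP.r h0 s)⁻¹ = BP.l h0 Cl.z * BP.l h0 w
  rw [BP.r_mul_l, pact_omega w hw, hs, Cl.u_neg, mul_inv_cancel_right, map_mul]

private theorem tr_z {d : ℕ} {U : Cl ι →* GL (Fin d) ℂ} (hU : U Cl.z = -1) :
    (U Cl.z : Matrix (Fin d) (Fin d) ℂ) = -1 := by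
  rw [hU]
  rfl

private theorem irrU_iff {d : ℕ} (hd : 0 < d) {U : Cl ι →* GL (Fin d) ℂ} (hU : U Cl.z = -1)
    {w : Cl ι} {ν : ℂ} (hν : (U w : Matrix (Fin d) (Fin d) ℂ) = ν • 1)
    (χ : (sgX h0).ker → ℂ) :
    χ ∈ IrrU h0 (CC w) U ↔ χ ∈ AA (sgX h0) (lH h0 Cl.z) (lH h0 w) ν := by
  have hd' : (d : ℂ) ≠ 0 := by exact_mod_cast hd.ne'
  have htz : (U Cl.z : Matrix (Fin d) (Fin d) ℂ).trace = -d := by
    rw [tr_z hU, Matrix.trace_neg, Matrix.trace_one, Fintype.card_fin]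
  have htw : (U w : Matrix (Fin d) (Fin d) ℂ).trace = ν * d := by
    rw [hν, Matrix.trace_smul, Matrix.trace_one, Fintype.card_fin, smul_eq_mul]
  have ht1 : (U 1 : Matrix (Fin d) (Fin d) ℂ).trace = d := by
    rw [map_one, Units.val_one, Matrix.trace_one, Fintype.card_fin]
  have htzw : (U (Cl.z * w) : Matrix (Fin d) (Fin d) ℂ).trace = -(ν * d) := by
    rw [map_mul, Units.val_mul, tr_z hU, neg_mul, one_mul, Matrix.trace_neg, htw]
  constructor
  · rintro ⟨hχ, h⟩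
    refine ⟨hχ, ?_, ?_⟩
    · have h1 := h Cl.z ⟨1, Or.inl Cl.zp_one.symm⟩ (lH h0 Cl.z) rfl
      rw [htz] at h1
      apply mul_left_cancel₀ hd'
      rw [h1]
      ring
    · have h1 := h w ⟨0, Or.inr (by rw [Cl.zp_zero, one_mul])⟩ (lH h0 w) rfl
      rw [htw] at h1
      apply mul_left_cancel₀ hd'
      rw [h1]
      ring
  · rintro ⟨hχ, hz, hw⟩
    refine ⟨hχ, ?_⟩
    rintro c ⟨e, hc⟩ x hx
    have hxc : x = lH h0 c := Subtype.ext hx
    rcases Cl.z2cases e with rfl | rfl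
    · rw [Cl.zp_zero, one_mul] at hc
      rcases hc with rfl | rfl
      · rw [hxc, ht1, lH_one]
      · rw [hxc, htw, hw]
        ring
    · rw [Cl.zp_one] at hc
      rcases hc with rfl | rfl
      · rw [hxc, htz, hz]
        ring
      · rw [hxc, htzw, lH_mul, irrZ_neg (cinv_H h0) (mem_irrZ hχ hz), hw]
        ring

end BPs

private theorem card_gen {T X : Type} {R S : (T → ℂ) → Prop} {M : Set (X → ℂ)}
    (F : {θ : T → ℂ // R θ ∧ S θ} → X → ℂ) (hM : ∀ θ, F θ ∈ M) (hinj : Function.Injective F)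
    (hsurj : ∀ χ ∈ M, ∃ θ, F θ = χ) (P₁ P₂ : (T → ℂ) → Prop) (Q₁ Q₂ : (X → ℂ) → Prop)
    (h₁ : ∀ θ, P₁ θ.1 ↔ Q₁ (F θ)) (h₂ : ∀ θ, P₂ θ.1 ↔ Q₂ (F θ)) :
    Nat.card {θ : T → ℂ // R θ ∧ S θ ∧ P₁ θ ∧ P₂ θ} =
      Nat.card {χ : X → ℂ // χ ∈ M ∧ Q₁ χ ∧ Q₂ χ} := by
  refine Nat.card_congr (Equiv.ofBijective (fun θ : {θ : T → ℂ // R θ ∧ S θ ∧ P₁ θ ∧ P₂ θ} =>
    (⟨F ⟨θ.1, θ.2.1, θ.2.2.1⟩, hM _, (h₁ ⟨θ.1, θ.2.1, θ.2.2.1⟩).1 θ.2.2.2.1,
      (h₂ ⟨θ.1, θ.2.1, θ.2.2.1⟩).1 θ.2.2.2.2⟩ : {χ : X → ℂ // χ ∈ M ∧ Q₁ χ ∧ Q₂ χ})) ⟨?_, ?_⟩)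
  · intro a b h
    have h1 := hinj (congrArg (fun x : {χ : X → ℂ // χ ∈ M ∧ Q₁ χ ∧ Q₂ χ} => x.1) h)
    have h2 : a.1 = b.1 := congrArg (fun x : {θ : T → ℂ // R θ ∧ S θ} => x.1) h1
    exact Subtype.ext h2
  · rintro ⟨χ, hχ, hq1, hq2⟩
    obtain ⟨θ, rfl⟩ := hsurj χ hχ
    exact ⟨⟨θ.1, θ.2.1, θ.2.2, (h₁ θ).2 hq1, (h₂ θ).2 hq2⟩, rfl⟩

variable {ι : Type} [Fintype ι] [DecidableEq ι] {L : Type} [Group L] [Finite L] (h0 : L →* Perm ι)

theorem tr_odd (p : ℕ) [Fact p.Prime] (h2 : p ≠ 2) (h8 : 8 ≤ Fintype.card ι)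
    (hn : Odd (Fintype.card ι))
    (hinj : Function.Injective h0) {K : Type} [Group K] [Finite K] {π : K →* Perm ι}
    (h : Cov π) (z : K) (hz1 : z ≠ 1) (hz : ∀ k, π k = 1 ↔ (k = 1 ∨ k = z)) (s : L)
    (hs : Perm.sign (h0 s) = -1) (α : MulAut K) (hα : ∀ k, π (α k) = h0 s * π k * (h0 s)⁻¹)
    (d : ZMod p) :
    cF p (h0.range.comap π) α z (-1) d =
      lF p (BG.par ((permH ι).comp h0)) (BG.z _) (-1) (2 ^ (Fintype.card ι + 1) * d) ∧
    cN p (h0.range.comap π) α z (-1) d =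
      lN p (BG.par ((permH ι).comp h0)) (BG.z _) (-1) (2 ^ (Fintype.card ι + 1) * d) := by
  classical
  obtain ⟨w, hw⟩ := exists_full (ι := ι)
  obtain ⟨U, hU, hspan⟩ := exists_U ι
  have hd : 0 < dU ι := Nat.two_pow_pos _
  obtain ⟨ρ, hρ, hρz⟩ := exists_ext h8 h z hz1 hz hd U hU hspan
  obtain ⟨ν, hν⟩ := omega_scalar hd U hspan w hw hn
  obtain ⟨i0⟩ : Nonempty ι := by
    rw [← Fintype.card_pos_iff]
    omega
  have hC : Nat.card (CC w) = 4 := card_CC hw i0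
  obtain ⟨m, hm⟩ := hn
  have hn : Odd (Fintype.card ι) := ⟨m, hm⟩
  have hdU : dU ι = 2 ^ m := by
    unfold dU
    congr 1
    omega
  have hcard : 2 ^ (Fintype.card ι + 1) = dU ι ^ 2 * Nat.card (CC w) := by
    rw [hC, hdU, hm]
    ring
  have hUw : ∀ e : ZMod 2, ∃ μ : ℂˣ, (U (Cl.zp e) : Matrix (Fin (dU ι)) (Fin (dU ι)) ℂ) =
      (μ : ℂ) • 1 := by
    intro e
    rcases Cl.z2cases e with rfl | rfl
    · exact ⟨1, by rw [Cl.zp_zero, map_one, Units.val_one, Units.val_one, one_smul]⟩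
    · exact ⟨-1, by rw [Cl.zp_one, tr_z hU, Units.val_neg, Units.val_one, neg_smul, one_smul]⟩
  obtain ⟨e, he1, he2⟩ := tr_map h0 hinj h z hz1 hz hd U hU hspan ρ hρ hρz s hs (CC w)
    (by
      rintro c ⟨e, hc⟩ g
      rcases hc with rfl | rfl
      · exact Cl.zp_comm' e g
      · rw [mul_assoc, omega_odd w hw hn, ← mul_assoc, Cl.zp_comm' e g, mul_assoc])
    (by
      rintro c ⟨e, hc⟩ σ hσ
      rcases hc with rfl | rfl
      · exact pact_zp σ e
      · rw [map_mul, pact_zp, pact_even hw hσ])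
    (by
      rintro c ⟨e, hc⟩
      obtain ⟨μ, hμ⟩ := hUw e
      rcases hc with rfl | rfl
      · exact ⟨μ, hμ⟩
      · refine ⟨μ * ν, ?_⟩
        rw [map_mul, Units.val_mul, hμ, hν, smul_mul_smul_comm, mul_one, Units.val_mul])
    hcard
  have hs' : sgX h0 (BP.r h0 s) = -1 := by rw [sg_r, hs]
  have hν0 : (ν : ℂ) ≠ 0 := ν.ne_zero
  have hiff := irrU_iff h0 hd hU hν
  have hws := w_conj h0 hw hs
  have hww : (lH h0 w * lH h0 w = 1 ∧ (ν : ℂ) ^ 2 = 1) ∨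
      (lH h0 w * lH h0 w = lH h0 Cl.z ∧ (ν : ℂ) ^ 2 = -1) := by
    have h1 : (U (w * w) : Matrix (Fin (dU ι)) (Fin (dU ι)) ℂ) = ((ν : ℂ) ^ 2) • 1 := by
      rw [map_mul, Units.val_mul, hν, smul_mul_smul_comm, mul_one, sq]
    rcases omega_sq w with h2 | h2
    · left
      refine ⟨by rw [← lH_mul, h2, lH_one], ?_⟩
      rw [h2, map_one, Units.val_one] at h1
      have h3 := congrFun (congrFun h1 ⟨0, hd⟩) ⟨0, hd⟩
      rw [Matrix.smul_apply, Matrix.one_apply_eq, smul_eq_mul, mul_one] at h3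
      exact h3.symm
    · right
      refine ⟨by rw [← lH_mul, h2], ?_⟩
      rw [h2, tr_z hU] at h1
      have h3 := congrFun (congrFun h1 ⟨0, hd⟩) ⟨0, hd⟩
      rw [Matrix.smul_apply, Matrix.neg_apply, Matrix.one_apply_eq, smul_eq_mul, mul_one] at h3
      exact h3.symm
  obtain ⟨F, hF⟩ : ∃ F : {θ : h0.range.comap π → ℂ // θ ∈ Irr (h0.range.comap π) ∧
      ∀ t : h0.range.comap π, (t : K) = z → θ t = (-1) * θ 1} → BP h0 → ℂ,
      ∀ θ, F θ = ind (sgX h0) (BP.r h0 s) (e θ).1 := ⟨_, fun _ => rfl⟩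
  have hA : ∀ θ, (e θ).1 ∈ AA (sgX h0) (lH h0 Cl.z) (lH h0 w) ν := fun θ => (hiff _).1 (e θ).2
  have hM : ∀ θ, F θ ∈ IrrZ (BG.z ((permH ι).comp h0)) (-1) := by
    intro θ
    rw [hF]
    exact AA_mem (sgX h0) (BP.r h0 s) hs' hν0 (cinv_H h0) (cinv_X h0).comm hws (hA θ)
  have hFinj : Function.Injective F := by
    intro θ θ' hh
    rw [hF, hF] at hh
    have h1 := AA_inj (sgX h0) (BP.r h0 s) hs' hν0 (cinv_H h0) hws (hA θ) (hA θ') hh
    exact e.injective (Subtype.ext h1)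
  have hFsurj : ∀ χ ∈ IrrZ (BG.z ((permH ι).comp h0)) (-1), ∃ θ, F θ = χ := by
    intro χ hχ
    obtain ⟨θ, hθ, hθχ⟩ := AA_surj (sgX h0) (BP.r h0 s) hs' hν0 (cinv_H h0) (cinv_X h0)
      (w_comm h0 hw hn) hws hww hχ
    refine ⟨e.symm ⟨θ, (hiff θ).2 hθ⟩, ?_⟩
    rw [hF, e.apply_symm_apply]
    exact hθχ
  -- degrees
  have hdeg : ∀ θ, deg (F θ) = 2 * (dU ι * deg θ.1) := by
    intro θ
    apply deg_eq
    rw [hF, ind_one, he2]
    push_cast
    rw [deg_cast θ.2.1]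
  have hp2 : (2 : ZMod p) ≠ 0 := by
    intro h
    have h5 : ((2 : ℕ) : ZMod p) = 0 := by exact_mod_cast h
    rw [ZMod.natCast_eq_zero_iff] at h5
    have hp : p.Prime := Fact.out
    exact h2 ((Nat.prime_dvd_prime_iff_eq hp Nat.prime_two).1 h5)
  have h₁ : ∀ θ : {θ : h0.range.comap π → ℂ // θ ∈ Irr (h0.range.comap π) ∧
      ∀ t : h0.range.comap π, (t : K) = z → θ t = (-1) * θ 1},
      (deg θ.1 : ZMod p) ^ 2 = d ↔
        (deg (F θ) : ZMod p) ^ 2 = 2 ^ (Fintype.card ι + 1) * d := by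
    intro θ
    have h3 : (deg (F θ) : ZMod p) ^ 2 = 2 ^ (Fintype.card ι + 1) * (deg θ.1 : ZMod p) ^ 2 := by
      rw [hdeg, hdU, hm]
      push_cast
      ring
    rw [h3]
    exact ⟨fun h => by rw [h], fun h => mul_left_cancel₀ (pow_ne_zero _ hp2) h⟩
  -- the automorphism
  have hαT : ∀ t : h0.range.comap π, α (t : K) ∈ h0.range.comap π := by
    intro t
    obtain ⟨l, hl⟩ := t.2
    refine ⟨s * l * s⁻¹, ?_⟩
    rw [map_mul, map_mul, map_inv, hl, hα]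
  have hαi : ∀ k, π (α⁻¹ k) = (h0 s)⁻¹ * π k * h0 s := by
    intro k
    have h1 := hα (α⁻¹ k)
    rw [MulAut.apply_inv_self] at h1
    rw [h1]
    group
  have hαT' : ∀ t : h0.range.comap π, α⁻¹ (t : K) ∈ h0.range.comap π := by
    intro t
    obtain ⟨l, hl⟩ := t.2
    refine ⟨s⁻¹ * l * s, ?_⟩
    rw [map_mul, map_mul, map_inv, hl, hαi]
  obtain ⟨αT, hαTc⟩ : ∃ αT : h0.range.comap π ≃* h0.range.comap π,
      ∀ t : h0.range.comap π, ((αT t : h0.range.comap π) : K) = α t :=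
    ⟨{ toFun := fun t => ⟨α t, hαT t⟩
       invFun := fun t => ⟨α⁻¹ t, hαT' t⟩
       left_inv := fun t => Subtype.ext (MulAut.inv_apply_self _ α _)
       right_inv := fun t => Subtype.ext (MulAut.apply_inv_self _ α _)
       map_mul' := fun a b => Subtype.ext (map_mul α _ _) }, fun _ => rfl⟩
  have hαz : α z = z := by
    have h1 : π (α z) = 1 := by
      rw [hα, (hz z).2 (Or.inr rfl), mul_one, mul_inv_cancel]
    rcases (hz _).1 h1 with h2 | h2
    · exact absurd ((map_eq_one_iff α α.injective).1 h2) hz1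
    · exact h2
  obtain ⟨G, hG⟩ : ∃ G : {θ : h0.range.comap π → ℂ // θ ∈ Irr (h0.range.comap π) ∧
      ∀ t : h0.range.comap π, (t : K) = z → θ t = (-1) * θ 1} →
      {θ : h0.range.comap π → ℂ // θ ∈ Irr (h0.range.comap π) ∧
      ∀ t : h0.range.comap π, (t : K) = z → θ t = (-1) * θ 1},
      ∀ θ t, (G θ).1 t = θ.1 (αT t) :=
    ⟨fun θ => ⟨fun t => θ.1 (αT t), irr_comp αT θ.2.1, fun t ht => by
      have h1 : ((αT t : h0.range.comap π) : K) = z := by rw [hαTc, ht, hαz]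
      change θ.1 (αT t) = (-1) * θ.1 (αT 1)
      rw [θ.2.2 _ h1, map_one]⟩, fun _ _ => rfl⟩
  have hpar : ∀ θ x, (((BG.par ((permH ι).comp h0) x : ℤˣ) : ℤ) : ℂ) * F θ x = F (G θ) x := by
    intro θ x
    rw [hF, hF]
    by_cases hx : x ∈ (sgX h0).ker
    · have key : ∀ y : (sgX h0).ker, (e θ).1 (cs (sgX h0) (BP.r h0 s) y) =
          (((BG.par ((permH ι).comp h0) y : ℤˣ) : ℤ) : ℂ) * (e (G θ)).1 y := by
        intro y
        have hσ : Perm.sign (h0 (y : BP h0).right) = 1 := y.2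
        have h3 : h0 (y : BP h0).right ∈ π.range := by
          rw [h.range]
          exact Equiv.Perm.mem_alternatingGroup.2 hσ
        obtain ⟨k, hk⟩ := h3
        obtain ⟨t, ht⟩ : ∃ t : h0.range.comap π, (t : K) = k :=
          ⟨⟨k, (y : BP h0).right, hk.symm⟩, rfl⟩
        have h4 := he1 (G θ) y t (by rw [ht, hk])
        have h5 := he1 θ (cs (sgX h0) (BP.r h0 s) y) (αT t) (by
          rw [hαTc, hα, ht, hk, cs_coe, conj_r, right_lr, map_mul, map_mul, map_inv])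
        rw [h4, h5, cs_coe, conj_r, left_lr, hαTc, hG,
          trace_alpha h hd U hU hspan ρ hρ (h0 s) hs α hα, par_x]
        ring
      have h6 := res_ind (sgX h0) (BP.r h0 s) (e θ).1 ⟨x, hx⟩
      have h7 := res_ind (sgX h0) (BP.r h0 s) (e (G θ)).1 ⟨x, hx⟩
      change ind (sgX h0) (BP.r h0 s) (e θ).1 x = _ at h6
      change ind (sgX h0) (BP.r h0 s) (e (G θ)).1 x = _ at h7
      have h8 := key ⟨x, hx⟩
      have h9 := key (cs (sgX h0) (BP.r h0 s) ⟨x, hx⟩)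
      rw [cs_cs (sgX h0) (BP.r h0 s) hs' (Irr.isClass (e θ).2.1)] at h9
      have h10 : BG.par ((permH ι).comp h0) (cs (sgX h0) (BP.r h0 s) ⟨x, hx⟩ : (sgX h0).ker) =
          BG.par ((permH ι).comp h0) x := by
        rw [cs_coe, map_mul, map_mul, map_inv, mul_comm (BG.par _ (BP.r h0 s)),
          mul_inv_cancel_right]
      rw [h10] at h9
      rw [h6, h7, h8, h9]
      rcases Int.units_eq_one_or (BG.par ((permH ι).comp h0) x) with hu | hu
      · rw [hu]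
        simp
        ring
      · rw [hu]
        push_cast
        ring
    · rw [ind_off _ _ _ hx, ind_off _ _ _ hx, mul_zero]
  have h₂ : ∀ θ : {θ : h0.range.comap π → ℂ // θ ∈ Irr (h0.range.comap π) ∧
      ∀ t : h0.range.comap π, (t : K) = z → θ t = (-1) * θ 1},
      (∀ t t' : h0.range.comap π, (t' : K) = α t → θ.1 t' = θ.1 t) ↔
        ∀ x, (((BG.par ((permH ι).comp h0) x : ℤˣ) : ℤ) : ℂ) * F θ x = F θ x := by
    intro θ
    constructor
    · intro hinv x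
      rw [hpar]
      have h1 : G θ = θ := by
        apply Subtype.ext
        funext t
        rw [hG]
        exact hinv t (αT t) (hαTc t)
      rw [h1]
    · intro hinv t t' ht
      have h1 : F (G θ) = F θ := by
        funext x
        rw [← hpar, hinv]
      have h2 := hFinj h1
      have h3 : t' = αT t := Subtype.ext (by rw [ht, hαTc])
      rw [h3, ← hG, h2]
  constructor
  · exact card_gen F hM hFinj hFsurj _ _ _ _ h₁ h₂
  · exact card_gen F hM hFinj hFsurj _ _ _ _ h₁ (fun θ => not_congr (h₂ θ))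

end Pool.Agent.Helper81.AN
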