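import Pool.Agent.Helper81.AN.TrEven
import Pool.Agent.Helper81.AN.TrOdd
import Pool.Agent.Helper57.AN.FinAsm
import Pool.Agent.Helper24.LOC.Loc2

/-!
# ALT-55: the transfer of spin characters (TRS) and goodness of the alternating groups
-/

set_option autoImplicit false

open Equiv

namespace Pool.Agent.Helper81.AN

open Pool.Agent.Helper42.INC Pool.Agent.Helper57.AN Pool.Agent.Helper24.S7

theorem trS : TransS := by
  intro p _ h2 ι _ _ h8 K _ _ hperf π hr z hz1 hzc hz L _ _ h hinj s hs α hα d
  have hC : Cov π := by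
    refine ⟨hperf, hr, ?_⟩
    intro x hx
    rw [MonoidHom.mem_ker, hz] at hx
    rcases hx with rfl | rfl
    · exact one_mem _
    · exact hzc
  exact ⟨fun hn => tr_even h p h2 h8 hn hinj hC z hz1 hz s hs α hα d,
    fun hn => tr_odd h p h2 h8 hn hinj hC z hz1 hz s hs α hα d⟩

theorem locTwo : LocTwo := fun p _ m hm hm0 w r => Pool.Agent.Helper24.LOC.loc_2 p m hm hm0 w r

/-- the alternating groups of degree at least `2 p` are `p`-good -/
theorem pgood_all (p : ℕ) [Fact p.Prime] (h5 : 5 ≤ p) (m : ℕ) (hm : 2 * p ≤ m) :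
    PGood p (alternatingGroup (Fin m)) :=
  mckay_alt locTwo trS h5 m hm

end Pool.Agent.Helper81.AN
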