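import Pool.Agent.Helper81.AN.TenDefs

/-!
# ALT-04: the Clifford group: normal form, order, commutators

`Cl ι` has generators `z`, `a i` with `z` central, `z^2 = 1`, `(a i)^2 = 1`, `[a i, a j] = z` for `i ≠ j`
(see `Defs.lean`: `Cl.z_sq`, `Cl.a_sq`, `Cl.a_a`, `Cl.z_comm`, `Cl.lift`, `Cl.hom_ext`).

PROOFS.
* `supp` is defined by `Cl.lift`.
* MODEL: for `ι` with a linear order let `E = (ι → ZMod 2) × ZMod 2` with the product
  `(A, e) (B, f) = (A + B, e + f + β(A, B))`, `β(A, B) = Σ_{i < j} A_j B_i` (bilinear, so associative; the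
  inverse is `(A, e)⁻¹ = (A, e + β(A, A))`). `z = (0, 1)`, `a i = (single i, 0)`: `β(e_i, e_i) = 0`,
  `β(e_j, e_i) = 1`, `β(e_i, e_j) = 0` for `i < j`. So `Cl.lift` gives `Cl ι → E`, `z ↦ (0, 1) ≠ 1`. (A
  finite type has a linear order, `Fintype.equivFin` or `linearOrderOfSTO`; or define `β` with an
  injection `ι → ℕ`.)  This gives `z_ne_one`, and the map is onto, so `|Cl ι| ≥ 2^(n+1)`.
* `ker_supp`: every element of `Cl ι` is `z^e` times a product of distinct generators. For instance: the
  set `{g | ∃ e, ∃ l : List ι, g = z^e * (l.map a).prod}` is closed under right multiplication by generators,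
  so it is everything (`PresentedGroup`/`Subgroup.closure_induction`); choose `l` of minimal length; if
  `i` occurs twice in `l` move one copy next to the other (sign `z`) and cancel. Then `supp g` is the
  indicator of `l`, so `supp g = 1` forces `l = []`.
  ALTERNATIVE: the quotient by `⟨z⟩` is abelian of exponent two, generated by the `a i`, so
  `Cl ι / ⟨z⟩ → (ι → ZMod 2)` has an inverse (`A ↦ ∏ (a i)^{A i}`, a product in a commutative group).
* `card`: exact sequence `{1, z} → Cl ι → (ι → ZMod 2)`, `supp` is onto.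
* `comm_eq`: both sides define the commutator map; the map `g ↦ g h g⁻¹ h⁻¹` is multiplicative in
  `g` (its values are central) and so is the right side; check on generators; same for `h`. Or
  induction over `Subgroup.closure_induction` twice.
-/

set_option autoImplicit false

open Equiv
open scoped commutatorElement

namespace Pool.Agent.Helper81.AN

open Pool.Agent.Helper42.INC

variable {ι : Type}

/-- `z^e` for `e` in `ZMod 2` -/
def Cl.zp (e : ZMod 2) : Cl ι := if e = 0 then 1 else Cl.z

/-- the support (mod 2) of an element of the Clifford group -/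
def Cl.supp [DecidableEq ι] : Cl ι →* Multiplicative (ι → ZMod 2) :=
  Cl.lift 1 (fun i => Multiplicative.ofAdd (Pi.single i 1)) (by simp)
    (fun i => by
      rw [← ofAdd_nsmul, ofAdd_eq_one, two_nsmul, ← Pi.single_add]
      have : (1 + 1 : ZMod 2) = 0 := by decide
      rw [this, Pi.single_zero])
    (fun i => by
      rw [commutatorElement_eq_one_iff_mul_comm, mul_comm])
    (fun i j _ => by
      rw [commutatorElement_eq_one_iff_mul_comm, mul_comm])

@[simp] theorem Cl.supp_z [DecidableEq ι] : Cl.supp (Cl.z : Cl ι) = 1 := Cl.lift_z _ _ _ _ _ _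

@[simp] theorem Cl.supp_a [DecidableEq ι] (i : ι) :
    Cl.supp (Cl.a i : Cl ι) = Multiplicative.ofAdd (Pi.single i 1) := Cl.lift_a _ _ _ _ _ _ _

theorem Cl.zz : (Cl.z : Cl ι) * Cl.z = 1 := by
  rw [← pow_two]
  exact Cl.z_sq

theorem Cl.aa (i : ι) : (Cl.a i : Cl ι) * Cl.a i = 1 := by
  rw [← pow_two]
  exact Cl.a_sq i

/-- induction over words in the generators -/
theorem Cl.ind {p : Cl ι → Prop} (h1 : p 1) (hz : ∀ g, p g → p (Cl.z * g))
    (ha : ∀ (i : ι) (g : Cl ι), p g → p (Cl.a i * g)) (g : Cl ι) : p g := by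
  have hg : g ∈ Subgroup.closure (Set.range (PresentedGroup.of : Option ι → Cl ι)) := by
    rw [PresentedGroup.closure_range_of]
    trivial
  induction hg using Subgroup.closure_induction_left with
  | one => exact h1
  | mul_left x hx y _ hy =>
    obtain ⟨o, rfl⟩ := hx
    cases o with
    | none => exact hz _ hy
    | some i => exact ha i _ hy
  | inv_mul_cancel x hx y _ hy =>
    obtain ⟨o, rfl⟩ := hx
    cases o with
    | none =>
      have h : ((PresentedGroup.of none : Cl ι))⁻¹ = Cl.z := inv_eq_of_mul_eq_one_left Cl.zz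
      rw [h]
      exact hz _ hy
    | some i =>
      have h : ((PresentedGroup.of (some i) : Cl ι))⁻¹ = Cl.a i :=
        inv_eq_of_mul_eq_one_left (Cl.aa i)
      rw [h]
      exact ha i _ hy

/-- the bilinear form of the model -/
noncomputable def cbeta (ι : Type) [LinearOrder ι] : (ι →₀ ZMod 2) →ₗ[ZMod 2] (ι →₀ ZMod 2) →ₗ[ZMod 2] ZMod 2 :=
  Finsupp.linearCombination (ZMod 2) fun j =>
    Finsupp.linearCombination (ZMod 2) fun i => if i < j then (1 : ZMod 2) else 0

theorem cbeta_single [LinearOrder ι] (i j : ι) :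
    cbeta ι (Finsupp.single j 1) (Finsupp.single i 1) = if i < j then 1 else 0 := by
  simp [cbeta]

/-- the model of the Clifford group -/
structure CModel (ι : Type) where
  A : ι →₀ ZMod 2
  e : ZMod 2

theorem CModel.ext' {x y : CModel ι} (h1 : x.A = y.A) (h2 : x.e = y.e) : x = y := by
  cases x
  cases y
  simp_all

noncomputable instance CModel.group [LinearOrder ι] : Group (CModel ι) where
  mul x y := ⟨x.A + y.A, x.e + y.e + cbeta ι x.A y.A⟩
  one := ⟨0, 0⟩
  inv x := ⟨-x.A, -x.e + cbeta ι x.A x.A⟩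
  mul_assoc x y w := by
    apply CModel.ext'
    · exact add_assoc _ _ _
    · change x.e + y.e + cbeta ι x.A y.A + w.e + cbeta ι (x.A + y.A) w.A =
        x.e + (y.e + w.e + cbeta ι y.A w.A) + cbeta ι x.A (y.A + w.A)
      rw [map_add, LinearMap.add_apply, map_add]
      ring
  one_mul x := by
    apply CModel.ext'
    · exact zero_add _
    · change 0 + x.e + cbeta ι 0 x.A = x.e
      rw [map_zero, LinearMap.zero_apply, zero_add, add_zero]
  mul_one x := by
    apply CModel.ext'
    · exact add_zero _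
    · change x.e + 0 + cbeta ι x.A 0 = x.e
      rw [map_zero, add_zero, add_zero]
  inv_mul_cancel x := by
    apply CModel.ext'
    · exact neg_add_cancel _
    · change -x.e + cbeta ι x.A x.A + x.e + cbeta ι (-x.A) x.A = 0
      rw [map_neg, LinearMap.neg_apply]
      ring

theorem CModel.mul_def [LinearOrder ι] (x y : CModel ι) :
    x * y = ⟨x.A + y.A, x.e + y.e + cbeta ι x.A y.A⟩ := rfl

theorem CModel.one_def [LinearOrder ι] : (1 : CModel ι) = ⟨0, 0⟩ := rfl

/-- the homomorphism to the model -/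
noncomputable def Cl.toModel (ι : Type) [LinearOrder ι] : Cl ι →* CModel ι :=
  Cl.lift ⟨0, 1⟩ (fun i => ⟨Finsupp.single i 1, 0⟩)
    (by
      rw [pow_two, CModel.mul_def, CModel.one_def]
      apply CModel.ext'
      · simp
      · change (1 : ZMod 2) + 1 + cbeta ι 0 0 = 0
        rw [map_zero]
        decide)
    (by
      intro i
      rw [pow_two, CModel.mul_def, CModel.one_def]
      apply CModel.ext'
      · change Finsupp.single i (1 : ZMod 2) + Finsupp.single i 1 = 0
        rw [← Finsupp.single_add]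
        have : (1 + 1 : ZMod 2) = 0 := by decide
        rw [this, Finsupp.single_zero]
      · change (0 : ZMod 2) + 0 + cbeta ι (Finsupp.single i 1) (Finsupp.single i 1) = 0
        rw [cbeta_single]
        simp)
    (by
      intro i
      rw [commutatorElement_eq_one_iff_mul_comm, CModel.mul_def, CModel.mul_def]
      apply CModel.ext'
      · simp
      · change (1 : ZMod 2) + 0 + cbeta ι 0 (Finsupp.single i 1) =
          0 + 1 + cbeta ι (Finsupp.single i 1) 0
        rw [map_zero, LinearMap.zero_apply, map_zero]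
        decide)
    (by
      intro i j hij
      rw [commutatorElement_def, mul_inv_eq_iff_eq_mul, mul_inv_eq_iff_eq_mul]
      simp only [CModel.mul_def]
      apply CModel.ext'
      · change Finsupp.single i (1 : ZMod 2) + Finsupp.single j 1 =
          0 + Finsupp.single j 1 + Finsupp.single i 1
        rw [zero_add, add_comm]
      · change (0 : ZMod 2) + 0 + cbeta ι (Finsupp.single i 1) (Finsupp.single j 1) =
          1 + 0 + cbeta ι 0 (Finsupp.single j 1) + 0 +
            cbeta ι (0 + Finsupp.single j 1) (Finsupp.single i 1)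
        rw [zero_add (Finsupp.single j (1 : ZMod 2)), map_zero, LinearMap.zero_apply, cbeta_single,
          cbeta_single]
        rcases lt_or_gt_of_ne hij with h | h
        · rw [if_neg (not_lt.2 h.le), if_pos h]
          decide
        · rw [if_pos h, if_neg (not_lt.2 h.le)]
          decide)

theorem Cl.z_ne_one : (Cl.z : Cl ι) ≠ 1 := by
  classical
  let _ : LinearOrder ι := linearOrderOfSTO WellOrderingRel
  intro h
  have h1 : Cl.toModel ι Cl.z = 1 := by rw [h, map_one]
  have h2 : Cl.toModel ι Cl.z = ⟨0, 1⟩ := Cl.lift_z _ _ _ _ _ _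
  rw [h2, CModel.one_def] at h1
  have h3 : (1 : ZMod 2) = 0 := congrArg CModel.e h1
  exact one_ne_zero h3

theorem Cl.zp_zero : (Cl.zp 0 : Cl ι) = 1 := if_pos rfl

theorem Cl.zp_one : (Cl.zp 1 : Cl ι) = Cl.z := if_neg one_ne_zero

theorem Cl.z2cases (e : ZMod 2) : e = 0 ∨ e = 1 := by
  revert e
  decide

theorem Cl.zp_add' (e f : ZMod 2) : (Cl.zp (e + f) : Cl ι) = Cl.zp e * Cl.zp f := by
  have h2 : (1 + 1 : ZMod 2) = 0 := by decide
  rcases Cl.z2cases e with rfl | rfl <;> rcases Cl.z2cases f with rfl | rfl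
  · rw [add_zero, Cl.zp_zero, one_mul]
  · rw [zero_add, Cl.zp_zero, one_mul]
  · rw [add_zero, Cl.zp_zero, mul_one]
  · rw [h2, Cl.zp_zero, Cl.zp_one, Cl.zz]

theorem Cl.zp_comm' (e : ZMod 2) (g : Cl ι) : Cl.zp e * g = g * Cl.zp e := by
  rcases Cl.z2cases e with rfl | rfl
  · rw [Cl.zp_zero, one_mul, mul_one]
  · rw [Cl.zp_one, Cl.z_comm]

theorem Cl.a_mul_a {i j : ι} (hij : i ≠ j) : (Cl.a i : Cl ι) * Cl.a j = Cl.z * (Cl.a j * Cl.a i) := by
  have h := Cl.a_a hij
  rw [commutatorElement_def, mul_inv_eq_iff_eq_mul, mul_inv_eq_iff_eq_mul, mul_assoc] at h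
  exact h

/-- generators commute with everything up to `z` -/
theorem Cl.a_weak (i : ι) (g : Cl ι) : ∃ e : ZMod 2, Cl.a i * g = Cl.zp e * (g * Cl.a i) := by
  induction g using Cl.ind with
  | h1 => exact ⟨0, by rw [Cl.zp_zero, mul_one, one_mul, one_mul]⟩
  | hz g hg =>
    obtain ⟨e, he⟩ := hg
    refine ⟨e, ?_⟩
    rw [← mul_assoc, ← Cl.z_comm, mul_assoc, he, ← mul_assoc, ← Cl.zp_comm', mul_assoc, mul_assoc]
  | ha j g hg =>
    obtain ⟨e, he⟩ := hg
    by_cases hij : i = j
    · subst hij
      refine ⟨e, ?_⟩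
      rw [mul_assoc, ← mul_assoc (Cl.zp e), Cl.zp_comm', mul_assoc, ← he]
    · refine ⟨1 + e, ?_⟩
      rw [← mul_assoc, Cl.a_mul_a hij, Cl.zp_add', Cl.zp_one, mul_assoc, mul_assoc, he,
        ← mul_assoc (Cl.a j), ← Cl.zp_comm']
      simp only [mul_assoc]

/-- normal form -/
theorem Cl.nf [DecidableEq ι] (g : Cl ι) :
    ∃ (e : ZMod 2) (l : List ι), l.Nodup ∧ g = Cl.zp e * (l.map Cl.a).prod := by
  induction g using Cl.ind with
  | h1 => exact ⟨0, [], List.nodup_nil, by simp [Cl.zp_zero]⟩
  | hz g hg =>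
    obtain ⟨e, l, hl, rfl⟩ := hg
    exact ⟨1 + e, l, hl, by rw [Cl.zp_add', Cl.zp_one, mul_assoc]⟩
  | ha i g hg =>
    obtain ⟨e, l, hl, rfl⟩ := hg
    by_cases hi : i ∈ l
    · obtain ⟨l1, l2, rfl⟩ := List.append_of_mem hi
      obtain ⟨f, hf⟩ := Cl.a_weak i (l1.map Cl.a).prod
      refine ⟨e + f, l1 ++ l2, ?_, ?_⟩
      · exact hl.sublist (List.Sublist.append (List.Sublist.refl l1) (List.sublist_cons_self i l2))
      · rw [← mul_assoc, ← Cl.zp_comm', mul_assoc, Cl.zp_add']
        simp only [List.map_append, List.map_cons, List.prod_append, List.prod_cons]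
        rw [← mul_assoc (Cl.a i), hf]
        simp only [mul_assoc]
        rw [← mul_assoc (Cl.a i) (Cl.a i), Cl.aa, one_mul]
    · refine ⟨e, i :: l, List.nodup_cons.2 ⟨hi, hl⟩, ?_⟩
      rw [← mul_assoc, ← Cl.zp_comm', mul_assoc, List.map_cons, List.prod_cons]

theorem Cl.supp_zp [DecidableEq ι] (e : ZMod 2) : Cl.supp (Cl.zp e : Cl ι) = 1 := by
  rcases Cl.z2cases e with rfl | rfl
  · rw [Cl.zp_zero, map_one]
  · rw [Cl.zp_one, Cl.supp_z]

theorem Cl.toAdd_supp_mul [DecidableEq ι] (g h : Cl ι) (i : ι) :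
    Multiplicative.toAdd (Cl.supp (g * h)) i =
      Multiplicative.toAdd (Cl.supp g) i + Multiplicative.toAdd (Cl.supp h) i := by
  rw [map_mul]
  rfl

theorem Cl.toAdd_supp_one [DecidableEq ι] (i : ι) :
    Multiplicative.toAdd (Cl.supp (1 : Cl ι)) i = 0 := by
  rw [map_one]
  rfl

theorem Cl.toAdd_supp_z [DecidableEq ι] (i : ι) :
    Multiplicative.toAdd (Cl.supp (Cl.z : Cl ι)) i = 0 := by
  rw [Cl.supp_z]
  rfl

theorem Cl.toAdd_supp_a [DecidableEq ι] (i j : ι) :
    Multiplicative.toAdd (Cl.supp (Cl.a i : Cl ι)) j = if j = i then 1 else 0 := by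
  rw [Cl.supp_a]
  change (Pi.single i (1 : ZMod 2) : ι → ZMod 2) j = _
  rw [Pi.single_apply]

theorem Cl.supp_list [DecidableEq ι] (l : List ι) (hl : l.Nodup) (i : ι) :
    Multiplicative.toAdd (Cl.supp (l.map Cl.a).prod) i = if i ∈ l then 1 else 0 := by
  induction l with
  | nil => simp
  | cons j l ih =>
    rw [List.nodup_cons] at hl
    rw [List.map_cons, List.prod_cons, Cl.toAdd_supp_mul, ih hl.2, Cl.toAdd_supp_a]
    by_cases hij : i = j
    · subst hij
      simp [hl.1]
    · simp [hij]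

theorem Cl.ker_supp [DecidableEq ι] (g : Cl ι) (hg : Cl.supp g = 1) : g = 1 ∨ g = Cl.z := by
  obtain ⟨e, l, hl, rfl⟩ := Cl.nf g
  have hl0 : l = [] := by
    rw [List.eq_nil_iff_forall_not_mem]
    intro i hi
    have h := congrArg (fun s : Multiplicative (ι → ZMod 2) => Multiplicative.toAdd s i) hg
    rw [Cl.toAdd_supp_mul, Cl.supp_list l hl, if_pos hi, Cl.supp_zp] at h
    change (0 : ZMod 2) + 1 = 0 at h
    exact absurd h (by decide)
  subst hl0
  rcases Cl.z2cases e with rfl | rfl
  · left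
    rw [Cl.zp_zero]
    simp
  · right
    rw [Cl.zp_one]
    simp

theorem Cl.eq_of_supp' [DecidableEq ι] {g h : Cl ι} (hs : Cl.supp g = Cl.supp h) :
    ∃ e : ZMod 2, g = Cl.zp e * h := by
  have h1 : Cl.supp (g * h⁻¹) = 1 := by rw [map_mul, hs, ← map_mul, mul_inv_cancel, map_one]
  rcases Cl.ker_supp _ h1 with h2 | h2
  · exact ⟨0, by rw [Cl.zp_zero, one_mul]; exact mul_inv_eq_one.1 h2⟩
  · exact ⟨1, by rw [Cl.zp_one]; exact mul_inv_eq_iff_eq_mul.1 h2⟩

instance Cl.finite [Finite ι] : Finite (Cl ι) := by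
  classical
  let F : ZMod 2 × Set.range (Cl.supp : Cl ι →* Multiplicative (ι → ZMod 2)) → Cl ι :=
    fun q => Cl.zp q.1 * q.2.2.choose
  refine Finite.of_surjective F fun g => ?_
  have hm : Cl.supp g ∈ Set.range (Cl.supp : Cl ι →* Multiplicative (ι → ZMod 2)) := ⟨g, rfl⟩
  obtain ⟨e, he⟩ := Cl.eq_of_supp' (g := g) (h := hm.choose) hm.choose_spec.symm
  exact ⟨(e, ⟨_, hm⟩), he.symm⟩

theorem Cl.supp_surjective [Fintype ι] [DecidableEq ι] :
    Function.Surjective (Cl.supp : Cl ι →* Multiplicative (ι → ZMod 2)) := by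
  intro s
  let l : List ι := (Finset.univ.filter fun i => (Multiplicative.toAdd s : ι → ZMod 2) i = 1).toList
  refine ⟨(l.map Cl.a).prod, ?_⟩
  apply Multiplicative.toAdd.injective
  funext i
  rw [Cl.supp_list l (Finset.nodup_toList _)]
  by_cases h : (Multiplicative.toAdd s : ι → ZMod 2) i = 1
  · rw [if_pos (by simp [l, h]), h]
  · rw [if_neg (by simp [l, h])]
    exact ((Cl.z2cases _).resolve_right h).symm

theorem Cl.card [Fintype ι] : Nat.card (Cl ι) = 2 ^ (Fintype.card ι + 1) := by
  classical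
  let F : ZMod 2 × (Multiplicative (ι → ZMod 2)) → Cl ι :=
    fun q => Cl.zp q.1 * (Cl.supp_surjective q.2).choose
  have hF : Function.Bijective F := by
    constructor
    · rintro ⟨e, s⟩ ⟨f, t⟩ h
      have h1 : Cl.supp (F (e, s)) = Cl.supp (F (f, t)) := by rw [h]
      simp only [F] at h1
      rw [map_mul, map_mul, Cl.supp_zp, Cl.supp_zp, one_mul, one_mul,
        (Cl.supp_surjective s).choose_spec, (Cl.supp_surjective t).choose_spec] at h1
      subst h1
      have h2 : (Cl.zp e : Cl ι) = Cl.zp f := mul_right_cancel h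
      have h3 : e = f := by
        rcases Cl.z2cases e with rfl | rfl <;> rcases Cl.z2cases f with rfl | rfl
        · rfl
        · rw [Cl.zp_zero, Cl.zp_one] at h2
          exact absurd h2.symm Cl.z_ne_one
        · rw [Cl.zp_zero, Cl.zp_one] at h2
          exact absurd h2 Cl.z_ne_one
        · rfl
      rw [h3]
    · intro g
      obtain ⟨e, he⟩ := Cl.eq_of_supp' (g := g) (h := (Cl.supp_surjective (Cl.supp g)).choose)
        (Cl.supp_surjective (Cl.supp g)).choose_spec.symm
      exact ⟨(e, Cl.supp g), he.symm⟩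
  rw [← Nat.card_eq_of_bijective F hF, Nat.card_prod, Nat.card_zmod, pow_succ, mul_comm]
  congr 1
  change Nat.card (ι → ZMod 2) = _
  rw [Nat.card_eq_fintype_card, Fintype.card_fun, ZMod.card]

/-- the pairing in the commutation rule -/
def cpair [Fintype ι] (A B : ι → ZMod 2) : ZMod 2 := (∑ i, A i) * (∑ i, B i) + ∑ i, A i * B i

theorem cpair_add_left [Fintype ι] (A A' B : ι → ZMod 2) :
    cpair (A + A') B = cpair A B + cpair A' B := by
  unfold cpair
  simp only [Pi.add_apply, add_mul, Finset.sum_add_distrib]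
  ring

theorem cpair_add_right [Fintype ι] (A B B' : ι → ZMod 2) :
    cpair A (B + B') = cpair A B + cpair A B' := by
  unfold cpair
  simp only [Pi.add_apply, mul_add, Finset.sum_add_distrib]
  ring

theorem cpair_zero_left [Fintype ι] (B : ι → ZMod 2) : cpair (0 : ι → ZMod 2) B = 0 := by
  unfold cpair
  simp

theorem cpair_zero_right [Fintype ι] (A : ι → ZMod 2) : cpair A (0 : ι → ZMod 2) = 0 := by
  unfold cpair
  simp

theorem cpair_single [Fintype ι] [DecidableEq ι] (i j : ι) :
    cpair (Pi.single i (1 : ZMod 2)) (Pi.single j 1) = if i = j then 0 else 1 := by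
  unfold cpair
  simp only [Finset.sum_pi_single', Finset.mem_univ, if_true, mul_one]
  by_cases h : i = j
  · subst h
    rw [if_pos rfl]
    have : ∀ x : ι, (Pi.single i (1 : ZMod 2) : ι → ZMod 2) x * (Pi.single i 1 : ι → ZMod 2) x =
        (Pi.single i 1 : ι → ZMod 2) x := by
      intro x
      rw [Pi.single_apply]
      split_ifs <;> simp
    rw [Finset.sum_congr rfl fun x _ => this x]
    simp only [Finset.sum_pi_single', Finset.mem_univ, if_true]
    decide
  · rw [if_neg h]
    have : ∀ x : ι, (Pi.single i (1 : ZMod 2) : ι → ZMod 2) x * (Pi.single j 1 : ι → ZMod 2) x =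
        0 := by
      intro x
      rw [Pi.single_apply, Pi.single_apply]
      by_cases hx : x = i
      · subst hx
        simp [h]
      · simp [hx]
    rw [Finset.sum_congr rfl fun x _ => this x]
    simp

/-- the commutation rule for one generator -/
theorem Cl.comm_a [Fintype ι] [DecidableEq ι] (i : ι) (h : Cl ι) :
    Cl.a i * h = Cl.zp (cpair (Multiplicative.toAdd (Cl.supp (Cl.a i : Cl ι)))
      (Multiplicative.toAdd (Cl.supp h))) * (h * Cl.a i) := by
  induction h using Cl.ind with
  | h1 =>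
    rw [map_one, toAdd_one, cpair_zero_right, Cl.zp_zero]
    simp
  | hz g hg =>
    rw [map_mul, toAdd_mul, Cl.supp_z, toAdd_one, zero_add, ← mul_assoc, ← Cl.z_comm, mul_assoc,
      hg, ← mul_assoc, ← Cl.zp_comm', mul_assoc, mul_assoc]
  | ha j g hg =>
    rw [map_mul, toAdd_mul, cpair_add_right, Cl.zp_add']
    have h1 : Cl.a i * Cl.a j = Cl.zp (cpair (Multiplicative.toAdd (Cl.supp (Cl.a i : Cl ι)))
        (Multiplicative.toAdd (Cl.supp (Cl.a j : Cl ι)))) * (Cl.a j * Cl.a i) := by
      rw [Cl.supp_a, Cl.supp_a, toAdd_ofAdd, toAdd_ofAdd, cpair_single]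
      by_cases hij : i = j
      · subst hij
        rw [if_pos rfl, Cl.zp_zero, one_mul]
      · rw [if_neg hij, Cl.zp_one, Cl.a_mul_a hij]
    rw [← mul_assoc, h1]
    simp only [mul_assoc]
    rw [hg, ← mul_assoc (Cl.a j), ← Cl.zp_comm' _ (Cl.a j)]
    simp only [mul_assoc]

/-- the commutation rule -/
theorem Cl.comm_eq [Fintype ι] [DecidableEq ι] (g h : Cl ι) :
    g * h = Cl.zp ((∑ i, Multiplicative.toAdd (Cl.supp g) i) *
      (∑ i, Multiplicative.toAdd (Cl.supp h) i) +
      ∑ i, Multiplicative.toAdd (Cl.supp g) i * Multiplicative.toAdd (Cl.supp h) i) * (h * g) := by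
  change g * h = Cl.zp (cpair (Multiplicative.toAdd (Cl.supp g))
    (Multiplicative.toAdd (Cl.supp h))) * (h * g)
  induction g using Cl.ind with
  | h1 =>
    rw [map_one, toAdd_one, cpair_zero_left, Cl.zp_zero]
    simp
  | hz g hg =>
    rw [map_mul, toAdd_mul, Cl.supp_z, toAdd_one, zero_add, mul_assoc, hg, ← mul_assoc,
      Cl.z_comm, mul_assoc]
    congr 1
    rw [← mul_assoc, Cl.z_comm h, mul_assoc]
  | ha j g hg =>
    rw [map_mul, toAdd_mul, cpair_add_left, Cl.zp_add', mul_assoc, hg, ← mul_assoc,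
      ← Cl.zp_comm', mul_assoc, ← mul_assoc (Cl.a j), Cl.comm_a]
    rw [Cl.zp_comm' (cpair _ _) (Cl.zp (cpair _ _))]
    simp only [mul_assoc]

/-- the parity is the parity of the size of the support -/
theorem Cl.par_eq [Fintype ι] [DecidableEq ι] (g : Cl ι) :
    Cl.par g = 1 ↔ ∑ i, Multiplicative.toAdd (Cl.supp g) i = 0 := by
  induction g using Cl.ind with
  | h1 => simp
  | hz g hg =>
    rw [map_mul, show Cl.par (Cl.z : Cl ι) = 1 from Cl.lift_z _ _ _ _ _ _, one_mul, hg]
    simp only [Cl.toAdd_supp_mul, Cl.toAdd_supp_z, zero_add]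
  | ha j g hg =>
    have h1 : ∑ i, Multiplicative.toAdd (Cl.supp (Cl.a j * g)) i =
        1 + ∑ i, Multiplicative.toAdd (Cl.supp g) i := by
      simp only [Cl.toAdd_supp_mul, Cl.toAdd_supp_a, Finset.sum_add_distrib]
      simp
    rw [map_mul, show Cl.par (Cl.a j : Cl ι) = -1 from Cl.lift_a _ _ _ _ _ _ _, h1]
    rcases Int.units_eq_one_or (Cl.par g) with h | h
    · rw [hg.1 h, h]
      decide
    · have h2 : ∑ i, Multiplicative.toAdd (Cl.supp g) i = 1 := by
        refine (Cl.z2cases _).resolve_left fun h3 => ?_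
        rw [← hg, h] at h3
        exact absurd h3 (by decide)
      rw [h2, h]
      decide

/-- the support of the image under a signed permutation -/
theorem Cl.supp_act [DecidableEq ι] (x : SPerm ι) (g : Cl ι) (i : ι) :
    Multiplicative.toAdd (Cl.supp (Cl.act x g)) (x.right i) =
      Multiplicative.toAdd (Cl.supp g) i := by
  have hact : ∀ g, Cl.act x g = Cl.actHom x g := fun _ => rfl
  rw [hact]
  have hu : ∀ s : ℤˣ, (Cl.supp (Cl.u s : Cl ι)) = 1 := by
    intro s
    rcases Int.units_eq_one_or s with rfl | rfl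
    · rw [map_one, map_one]
    · have : (Cl.u (-1) : Cl ι) = Cl.z := by
        change (if (-1 : ℤˣ) = 1 then 1 else Cl.z) = Cl.z
        rw [if_neg (by decide)]
      rw [this, Cl.supp_z]
  induction g using Cl.ind with
  | h1 => rw [map_one, map_one]; rfl
  | hz g hg =>
    rw [map_mul, Cl.actHom_z, Cl.toAdd_supp_mul, Cl.toAdd_supp_mul, Cl.toAdd_supp_z,
      Cl.toAdd_supp_z, hg]
  | ha j g hg =>
    rw [map_mul, Cl.actHom_a, Cl.toAdd_supp_mul, Cl.toAdd_supp_mul, Cl.toAdd_supp_mul, hg, hu,
      Cl.toAdd_supp_a, Cl.toAdd_supp_a, toAdd_one, Pi.zero_apply, zero_add]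
    simp only [EmbeddingLike.apply_eq_iff_eq]

section BG

variable {L : Type} [Group L] (h : L →* SPerm ι)

instance BG.finite [Finite ι] [Finite L] : Finite (BG h) :=
  Finite.of_equiv _ (SemidirectProduct.equivProd (φ := (Cl.act (ι := ι)).comp h)).symm

theorem BG.card [Fintype ι] : Nat.card (BG h) = 2 ^ (Fintype.card ι + 1) * Nat.card L := by
  rw [← Cl.card, ← Nat.card_prod]
  exact Nat.card_congr (SemidirectProduct.equivProd (φ := (Cl.act (ι := ι)).comp h))

theorem BG.cinv : CInv (BG.z h) := by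
  refine ⟨fun y => ?_, ?_, fun hz => ?_⟩
  · apply SemidirectProduct.ext
    · rw [SemidirectProduct.mul_left, SemidirectProduct.mul_left]
      change Cl.z * (Cl.act (h 1)) y.left = y.left * Cl.actHom (h y.right) Cl.z
      rw [Cl.actHom_z, map_one, map_one, MulAut.one_apply, Cl.z_comm]
    · rw [SemidirectProduct.mul_right, SemidirectProduct.mul_right]
      change 1 * y.right = y.right * 1
      rw [one_mul, mul_one]
  · unfold BG.z
    rw [← map_mul, Cl.zz, map_one]
  · unfold BG.z at hz
    exact Cl.z_ne_one (SemidirectProduct.inl_injective (by rw [hz, map_one]))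

end BG

end Pool.Agent.Helper81.AN
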