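import Pool.Agent.Helper81.AN.TenIrr
import Pool.Agent.Helper81.AN.SumSq

/-!
# AN-03: the tensor tool

PROOF. The map `ψ ↦ χ_ψ = (x ↦ tauQ ψ (Φ x))` goes from `IrrZ z (-1)` to `IrrC C lam`: `ten_irr`, and for
`c ∈ C`: `χ_ψ(c) = tr(lam c) ψ(1) = lam(c) χ_ψ(1)`. It is injective by `ten_B` and `B_irr`. It multiplies
the degree by `d`. By `sum_sq_neg`: `Σ_ψ χ_ψ(1)^2 = d^2 |Y| / 2 = |X| / |C|` (`hcard`), and by `sum_sq` (the
invariance of `lam` follows from `hΦC`: for `c' = x c x⁻¹` we get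
`[(lam c', 1)] = Φ(x) [(lam c, 1)] Φ(x)⁻¹ = [(lam c, 1)]`, and `qmk_eq` with `z ≠ 1`; the scalar
matrix commutes with everything) `Σ_{χ ∈ IrrC C lam} χ(1)^2 = |X| / |C|`. All terms are positive
(`χ(1)` is a positive natural number, `irr_one`), so nothing is missing: `ψ ↦ χ_ψ` is surjective.
(`IrrC C lam` and `IrrZ z (-1)` are finite: subsets of `Irr`, see `Helper42/INC/Basic.lean`.)
-/

set_option autoImplicit false

open Matrix

namespace Pool.Agent.Helper81.AN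

open Pool.Agent.Helper42.INC

/-- the scalar matrix as an element of `GL` -/
noncomputable def scal (d : ℕ) (c : ℂˣ) : GL (Fin d) ℂ :=
  Units.map (algebraMap ℂ (Matrix (Fin d) (Fin d) ℂ)).toMonoidHom c

private theorem scal_coe (d : ℕ) (c : ℂˣ) :
    (scal d c : Matrix (Fin d) (Fin d) ℂ) = (c : ℂ) • (1 : Matrix (Fin d) (Fin d) ℂ) := by
  have h : (scal d c : Matrix (Fin d) (Fin d) ℂ) =
    algebraMap ℂ (Matrix (Fin d) (Fin d) ℂ) (c : ℂ) := rfl
  rw [h, Algebra.algebraMap_eq_smul_one]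

private theorem scal_trace (d : ℕ) (c : ℂˣ) :
    (scal d c : Matrix (Fin d) (Fin d) ℂ).trace = (c : ℂ) * d := by
  rw [scal_coe, Matrix.trace_smul, Matrix.trace_one, Fintype.card_fin, smul_eq_mul]

private theorem scal_comm (d : ℕ) (c : ℂˣ) (A : GL (Fin d) ℂ) :
    A * scal d c = scal d c * A := by
  apply Units.ext
  rw [Units.val_mul, Units.val_mul, scal_coe]
  simp

private theorem scal_inj (d : ℕ) (hd : 0 < d) {c c' : ℂˣ} (h : scal d c = scal d c') : c = c' := by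
  have h1 : (scal d c : Matrix (Fin d) (Fin d) ℂ).trace =
    (scal d c' : Matrix (Fin d) (Fin d) ℂ).trace := by rw [h]
  rw [scal_trace, scal_trace] at h1
  have hd' : (d : ℂ) ≠ 0 := by exact_mod_cast hd.ne'
  exact Units.ext (mul_right_cancel₀ hd' h1)

private theorem lam_inv {X Y : Type} [Group X] [Group Y] {z : Y} (hz : CInv z)
    (d : ℕ) (hd : 0 < d) (Φ : X →* QQ d z) (C : Subgroup X) (lam : C →* ℂˣ)
    (hΦC : ∀ c : C, Φ c = qmk d z (scal d (lam c), 1)) (x : X) (c c' : C)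
    (h : (c' : X) = x * c * x⁻¹) : lam c' = lam c := by
  obtain ⟨⟨A, y⟩, hA⟩ := QuotientGroup.mk'_surjective (NQ d z) (Φ x)
  have hA' : Φ x = qmk d z (A, y) := hA.symm
  have hcomm : Φ x * Φ c = Φ c * Φ x := by
    rw [hA', hΦC, ← map_mul, ← map_mul]
    congr 1
    ext1
    · exact scal_comm d _ A
    · simp
  have h1 : Φ c' = Φ c := by
    rw [h, map_mul, map_mul, hcomm, mul_assoc, ← map_mul, mul_inv_cancel, map_one, mul_one]
  rw [hΦC, hΦC] at h1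
  rcases (qmk_eq d z hz _ _ _ _).1 h1 with ⟨h2, -⟩ | ⟨-, h3⟩
  · exact scal_inj d hd h2
  · rw [mul_one] at h3
    exact absurd h3.symm hz.ne

private theorem irrZ_finite {Y : Type} [Group Y] [Finite Y] (z : Y) (ν : ℂ) :
    Finite (IrrZ z ν) :=
  Finite.of_injective (fun ψ : IrrZ z ν => (⟨ψ.1, ψ.2.1⟩ : Irr Y)) fun ψ ψ' h =>
    Subtype.ext (congrArg (fun t : Irr Y => t.1) h)

private theorem irrC_finite {X : Type} [Group X] [Finite X] (C : Subgroup X) (lam : C →* ℂˣ) :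
    Finite (IrrC C lam) :=
  Finite.of_injective (fun ψ : IrrC C lam => (⟨ψ.1, ψ.2.1⟩ : Irr X)) fun ψ ψ' h =>
    Subtype.ext (congrArg (fun t : Irr X => t.1) h)

/-- counting: an injective map which does not decrease the total weight is surjective -/
private theorem surj_of_sum {S T : Type} [Fintype S] [Fintype T] (f : S → T)
    (hf : Function.Injective f) (g : T → ℕ) (hg : ∀ t, 0 < g t)
    (h : ∑ s, g (f s) = ∑ t, g t) : Function.Surjective f := by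
  classical
  by_contra hcon
  unfold Function.Surjective at hcon
  push Not at hcon
  obtain ⟨t, ht⟩ := hcon
  have h1 : ∑ s, g (f s) = ∑ t ∈ Finset.univ.image f, g t := by
    rw [Finset.sum_image fun a _ b _ hab => hf hab]
  have h2 : ∑ t ∈ Finset.univ.image f, g t < ∑ t, g t := by
    refine Finset.sum_lt_sum_of_subset (Finset.subset_univ _) (Finset.mem_univ t) ?_ (hg t)
      fun _ _ _ => Nat.zero_le _
    intro hmem
    obtain ⟨s, -, hs⟩ := Finset.mem_image.1 hmem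
    exact ht s hs
  omega

theorem ten {X Y : Type} [Group X] [Finite X] [Group Y] [Finite Y] {z : Y} (hz : CInv z)
    (d : ℕ) (hd : 0 < d) (Φ : X →* QQ d z)
    (hy : ∀ y : Y, ∃ (x : X) (A : GL (Fin d) ℂ), Φ x = qmk d z (A, y))
    (hspan : Submodule.span ℂ {M : Matrix (Fin d) (Fin d) ℂ | ∃ (x : X) (A : GL (Fin d) ℂ),
      (A : Matrix (Fin d) (Fin d) ℂ) = M ∧ Φ x = qmk d z (A, 1)} = ⊤)
    (C : Subgroup X) (hC : C.Normal) (lam : C →* ℂˣ)
    (hΦC : ∀ c : C, Φ c = qmk d z (scal d (lam c), 1))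
    (hcard : 2 * Nat.card X = d ^ 2 * Nat.card Y * Nat.card C) :
    ∃ e : IrrZ z (-1) ≃ IrrC C lam,
      (∀ (ψ : IrrZ z (-1)) (x : X) (A : GL (Fin d) ℂ) (y : Y), Φ x = qmk d z (A, y) →
        (e ψ).1 x = (A : Matrix (Fin d) (Fin d) ℂ).trace * ψ.1 y) ∧
      ∀ ψ : IrrZ z (-1), (e ψ).1 1 = d * ψ.1 1 := by
  classical
  have hval : ∀ (ψ : IrrZ z (-1)) (x : X) (A : GL (Fin d) ℂ) (y : Y), Φ x = qmk d z (A, y) →
      tauQ ψ.1 (Φ x) = (A : Matrix (Fin d) (Fin d) ℂ).trace * ψ.1 y := by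
    intro ψ x A y h
    rw [h, tauQ_mk hz ψ.1 (irrZ_neg hz ψ.2)]
  have hone : ∀ ψ : IrrZ z (-1), tauQ ψ.1 (Φ 1) = d * ψ.1 1 := by
    intro ψ
    have h1 : Φ 1 = qmk d z (1, 1) := by
      rw [map_one]
      exact (map_one (qmk d z)).symm
    rw [hval ψ 1 1 1 h1, Units.val_one, Matrix.trace_one, Fintype.card_fin]
  have hC1 : ∀ (ψ : IrrZ z (-1)) (c : C), tauQ ψ.1 (Φ c) = (lam c : ℂ) * tauQ ψ.1 (Φ 1) := by
    intro ψ c
    rw [hval ψ c _ _ (hΦC c), scal_trace, hone, mul_assoc]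
  let f : IrrZ z (-1) → IrrC C lam := fun ψ =>
    ⟨fun x => tauQ ψ.1 (Φ x), ten_irr hz d hd Φ hy hspan ψ.2, fun c => hC1 ψ c⟩
  have hinj : Function.Injective f := by
    intro ψ ψ' h
    have h1 : (fun x => tauQ ψ.1 (Φ x)) = fun x => tauQ ψ'.1 (Φ x) :=
      congrArg (fun t : IrrC C lam => t.1) h
    have h2 := ten_B hz d hd Φ hy hspan ψ.2 ψ'.2
    have h3 := ten_B hz d hd Φ hy hspan ψ.2 ψ.2
    rw [← h1] at h2
    rw [h3, B_irr_self ψ.2.1] at h2
    by_contra hne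
    have h4 := B_irr_ne ψ.2.1 ψ'.2.1 fun h5 => hne (Subtype.ext h5)
    rw [h4] at h2
    exact one_ne_zero h2
  haveI : Finite (IrrZ z (-1 : ℂ)) := irrZ_finite z (-1)
  haveI : Finite (IrrC C lam) := irrC_finite C lam
  haveI : Fintype (IrrZ z (-1 : ℂ)) := Fintype.ofFinite _
  haveI : Fintype (IrrC C lam) := Fintype.ofFinite _
  have hs1 := sum_sq C hC lam (lam_inv hz d hd Φ C lam hΦC)
  have hs2 := sum_sq_neg hz
  rw [finsum_eq_sum_of_fintype] at hs1 hs2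
  have hCne : (Nat.card C : ℂ) ≠ 0 := by
    exact_mod_cast (Nat.card_pos (α := C)).ne'
  have hsum : ∑ ψ, ((f ψ).1 1) ^ 2 = ∑ χ : IrrC C lam, (χ.1 1) ^ 2 := by
    have h1 : ∑ ψ, ((f ψ).1 1) ^ 2 = (d : ℂ) ^ 2 * ∑ ψ : IrrZ z (-1 : ℂ), (ψ.1 1) ^ 2 := by
      rw [Finset.mul_sum]
      refine Finset.sum_congr rfl fun ψ _ => ?_
      have h2 : (f ψ).1 1 = d * ψ.1 1 := hone ψ
      rw [h2, mul_pow]
    have h3 : (2 : ℂ) * Nat.card X = (d : ℂ) ^ 2 * Nat.card Y * Nat.card C := by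
      exact_mod_cast hcard
    have h4 : (2 * (Nat.card C : ℂ)) * ∑ ψ, ((f ψ).1 1) ^ 2 =
        (2 * (Nat.card C : ℂ)) * ∑ χ : IrrC C lam, (χ.1 1) ^ 2 := by
      calc (2 * (Nat.card C : ℂ)) * ∑ ψ, ((f ψ).1 1) ^ 2
          = (d : ℂ) ^ 2 * (2 * ∑ ψ : IrrZ z (-1 : ℂ), (ψ.1 1) ^ 2) * Nat.card C := by
            rw [h1]
            ring
        _ = 2 * ((Nat.card C : ℂ) * ∑ χ : IrrC C lam, (χ.1 1) ^ 2) := by
            rw [hs2, ← h3, hs1]
        _ = _ := by ring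
    exact mul_left_cancel₀ (mul_ne_zero two_ne_zero hCne) h4
  have hsurj : Function.Surjective f := by
    refine surj_of_sum f hinj (fun χ => deg χ.1 ^ 2) (fun χ => pow_pos (deg_pos χ.2.1) 2) ?_
    have h5 : ∀ χ : IrrC C lam, (χ.1 1) ^ 2 = ((deg χ.1 ^ 2 : ℕ) : ℂ) := by
      intro χ
      rw [Nat.cast_pow, deg_cast χ.2.1]
    simp only [h5] at hsum
    exact_mod_cast hsum
  refine ⟨Equiv.ofBijective f ⟨hinj, hsurj⟩, fun ψ x A y h => hval ψ x A y h, fun ψ => hone ψ⟩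

end Pool.Agent.Helper81.AN
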