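import Pool.Agent.Helper81.AN.TenDefs
import Pool.Agent.Helper7.MK.Defs

/-!
# Project ALT: counting characters, definitions
-/

set_option autoImplicit false

open Equiv

namespace Pool.Agent.Helper81.AN

open Pool.Agent.Helper42.INC Pool.Agent.Helper7.MK

/-- number of self-associate characters with a given squared degree -/
noncomputable def lF (p : ℕ) {X : Type} [Group X] (ε : X →* ℤˣ) (z : X) (ν : ℂ) (d : ZMod p) : ℕ :=
  Nat.card {χ : X → ℂ // χ ∈ IrrZ z ν ∧ (deg χ : ZMod p) ^ 2 = d ∧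
    ∀ x, (((ε x : ℤˣ) : ℤ) : ℂ) * χ x = χ x}

/-- number of non self-associate characters with a given squared degree -/
noncomputable def lN (p : ℕ) {X : Type} [Group X] (ε : X →* ℤˣ) (z : X) (ν : ℂ) (d : ZMod p) : ℕ :=
  Nat.card {χ : X → ℂ // χ ∈ IrrZ z ν ∧ (deg χ : ZMod p) ^ 2 = d ∧
    ¬ ∀ x, (((ε x : ℤˣ) : ℤ) : ℂ) * χ x = χ x}

/-- number of characters of the subgroup `T` fixed by the automorphism `α` of `K`, with value
`ν θ(1)` at the central element `z`, and with a given squared degree -/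
noncomputable def cF (p : ℕ) {K : Type} [Group K] (T : Subgroup K) (α : MulAut K) (z : K) (ν : ℂ)
    (d : ZMod p) : ℕ :=
  Nat.card {θ : T → ℂ // θ ∈ Irr T ∧ (∀ t : T, (t : K) = z → θ t = ν * θ 1) ∧
    (deg θ : ZMod p) ^ 2 = d ∧ ∀ t t' : T, (t' : K) = α t → θ t' = θ t}

/-- the same for the characters which are not fixed -/
noncomputable def cN (p : ℕ) {K : Type} [Group K] (T : Subgroup K) (α : MulAut K) (z : K) (ν : ℂ)
    (d : ZMod p) : ℕ :=
  Nat.card {θ : T → ℂ // θ ∈ Irr T ∧ (∀ t : T, (t : K) = z → θ t = ν * θ 1) ∧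
    (deg θ : ZMod p) ^ 2 = d ∧ ¬ ∀ t t' : T, (t' : K) = α t → θ t' = θ t}

end Pool.Agent.Helper81.AN
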