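import Pool.Agent.Helper81.AN.FkDefs

/-!
# Project ALT: bar cores and bar quotients, definitions

`p = 2 m + 1`. `r0 m S`: the parts divisible by `p`, divided by `p`. `mi m i S` (`1 ≤ i ≤ m`): the runners `i` and `p - i` as one Maya
diagram: bead at `y ≥ 0` iff `p y + i ∈ S`, bead at `y < 0` iff `p (-1 - y) + (p - i) ∉ S`. Removing a `p`-bar from `S` is a move `t → t - 1` in `r0` or a
bead move `x → x - 1` in one of the `mi`. `Om`: the sign and power of two (checked by computer).
-/

set_option autoImplicit false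

namespace Pool.Agent.Helper81.AN

/-- runner zero -/
def r0 (m : ℕ) (S : Finset ℕ) : Finset ℕ :=
  (S.filter (fun t => t % (2 * m + 1) = 0)).image (fun t => t / (2 * m + 1))

/-- the Maya diagram of the runners `i`, `p - i` -/
def mi (m i : ℕ) (S : Finset ℕ) : Maya where
  s := {y | (0 ≤ y ∧ (2 * m + 1) * y.toNat + i ∈ S) ∨
    (y < 0 ∧ (2 * m + 1) * (-1 - y).toNat + (2 * m + 1 - i) ∉ S)}
  low := by
    refine ⟨-((S.sup id : ℕ) : ℤ) - 1, fun y hy => Or.inr ⟨by omega, fun h => ?_⟩⟩
    have h1 : (2 * m + 1) * (-1 - y).toNat + (2 * m + 1 - i) ≤ S.sup id :=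
      Finset.le_sup (f := id) h
    have h2 : (-1 - y).toNat ≤ (2 * m + 1) * (-1 - y).toNat := Nat.le_mul_of_pos_left _ (by omega)
    omega
  high := by
    refine ⟨((S.sup id : ℕ) : ℤ) + 1, fun y hy h => ?_⟩
    rcases h with h | h
    · have h1 : (2 * m + 1) * y.toNat + i ≤ S.sup id := Finset.le_sup (f := id) h.2
      have h2 : y.toNat ≤ (2 * m + 1) * y.toNat := Nat.le_mul_of_pos_left _ (by omega)
      omega
    · omega

/-- number of parts in a residue class -/
def rc (m : ℕ) (S : Finset ℕ) (j : ℕ) : ℕ := (S.filter (fun t => t % (2 * m + 1) = j)).card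

/-- number of pairs on the runners `i`, `p - i` -/
def kk (m i : ℕ) (S : Finset ℕ) : ℕ := min (rc m S i) (rc m S (2 * m + 1 - i))

/-- number of inversions -/
def invN (m : ℕ) (S : Finset ℕ) : ℕ :=
  ((S ×ˢ S).filter (fun q => q.1 < q.2 ∧ q.2 % (2 * m + 1) < q.1 % (2 * m + 1))).card

/-- number of pairs -/
def eN (m : ℕ) (S : Finset ℕ) : ℕ := ∑ i ∈ Finset.Icc 1 m, kk m i S

/-- correction of the sign -/
def EN (m : ℕ) (S : Finset ℕ) : ℕ :=
  ∑ i ∈ Finset.Icc 1 m, ∑ k ∈ Finset.range (kk m i S),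
    (i + k + ((∑ l ∈ Finset.Ico i (2 * m + 1 - i), rc m S l) - kk m i S))

/-- sign and power of two -/
def Om (m : ℕ) (S : Finset ℕ) : ℤ := (-1) ^ (invN m S + EN m S) * 2 ^ eN m S

/-- the operator `mv p` without signs and factors `2` -/
def Dm {R : Type} [CommRing R] (m : ℕ) (h : Fk R) (S : Finset ℕ) : R :=
  (∑ a ∈ S.filter (fun a => 2 * m + 1 ≤ a), if a = 2 * m + 1 then h (S.erase a)
    else if a - (2 * m + 1) ∈ S then 0 else h (insert (a - (2 * m + 1)) (S.erase a))) +
  ∑ a ∈ S.filter (fun a => a < 2 * m + 1 ∧ 2 * m + 1 < 2 * a ∧ 2 * m + 1 - a ∈ S),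
    h ((S.erase a).erase (2 * m + 1 - a))

/-- the Maya diagrams of the runners, as a family -/
def mf (m : ℕ) (S : Finset ℕ) (i : Fin m) : Maya := mi m (i + 1) S

/-- the weight: total number of bars that can be removed -/
noncomputable def wtS (m : ℕ) (S : Finset ℕ) : ℕ := (∑ t ∈ r0 m S, t) + ∑ i, (mf m S i).size

/-- number of ways to remove all bars, as a function of the quotient -/
noncomputable def NQ0 {m : ℕ} (T : Finset ℕ) (M : Fin m → Maya) : ℕ :=
  ((∑ t ∈ T, t) + ∑ i, (M i).size).choose (∑ t ∈ T, t) *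
    Nat.multinomial Finset.univ (fun i => (M i).size) *
      gAux (∑ t ∈ T, t) T * ∏ i, (M i).f

/-- number of ways to remove all bars -/
noncomputable def NS (m : ℕ) (S : Finset ℕ) : ℕ := NQ0 (r0 m S) (mf m S)

/-- the core: `i` if the charge of `mi i` is one, `p - i` if it is minus one -/
noncomputable def coreS (m : ℕ) (S : Finset ℕ) : Finset ℕ :=
  ((Finset.Icc 1 m).filter (fun i => (mi m i S).charge = 1)) ∪
    ((Finset.Icc 1 m).filter (fun i => (mi m i S).charge = -1)).image (fun i => 2 * m + 1 - i)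

end Pool.Agent.Helper81.AN
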