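import Pool.Agent.Helper81.AN.BarDefs

/-!
# ALT-31: the signs of the bar removals are coherent

`mv p (Om * h) = Om * (Dm h)`: for every removal `S → S'` of a `p`-bar (`p = 2 m + 1`) the coefficient of `mv p` times `Om S'` is `Om S`. (Checked by
computer for `p = 3, 5, 7, 11`, 34000 removals.)

PROOF. Compare `mv` (`FkDefs.lean`) with `Dm` term by term. Write `S' =` the new set.
(a) `a > p`, `a - p ∉ S`: coefficient `(-1)^(nbt S (a-p) a)`. `rc`, hence `kk`, `eN`, `EN` do not change (`a - p ≡ a`). In `invN` only pairs with the moved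
 element change, and for `t ∈ S`, `t ≠ a`: if `t < a - p` or `t > a` nothing changes; if `a - p < t < a` then `t ≢ a (mod p)` and exactly one of (`a - p < t` inversion
 in `S'`), (`t < a` inversion in `S`) holds. So `invN S' ≡ invN S + nbt S (a-p) a (mod 2)`.
(b) `a = p`: coefficient `(-1)^#{t ∈ S : t < p}`. `rc` for `j ≠ 0` does not change, so `eN`, `EN` do not change. The pairs `(t, p)`, `t < p`, `t ∈ S` (`t ≠ 0` as `0 ∉ S`) are inversions
 (`p % p = 0 < t % p`); the pairs `(p, t)` are not. So `invN S = invN S' + #{t ∈ S : t < p}`.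
(c) `a < p < 2 a`, `i = p - a ∈ S` (`1 ≤ i ≤ m`, `a = p - i`): coefficient `2 (-1)^(i + nbt S i (p-i))`. `kk i` decreases by one, other `kk` do not change: `eN S = eN S' + 1`.
 `invN S - invN S'` = number of inversions containing `i` or `p - i`: pairs `(t, i)`, `t < i`: not inversions (`t % p = t < i`); `(i, t)`, `t > i`: inversion iff `t % p < i`;
 `(t, p - i)`, `t < p - i`: no; `(p - i, t)`: inversion iff `t % p < p - i`; `(i, p - i)`: no. For `t > p - i` both together count `[t % p < i] + [t % p < p - i] ≡ [i ≤ t % p < p - i]`; for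
 `i < t < p - i`: `t % p = t`: zero. So `invN S - invN S' ≡ #{t ∈ S : t > p - i, i ≤ t % p < p - i}`.
 `EN S - EN S'`: for the index `i`: the sum over `k < kk i` of `i + k + C_i`, `C_i = Σ_{i ≤ l < p-i} rc l - kk i`, where `C_i` is the same for `S` and `S'` (`rc i` and `kk i` both
 decrease by one; `p - i` is not in the interval; `C_i` is a true subtraction since `rc i ≥ kk i`), so the difference is the last term `k = kk i S - 1`:
 `i + (kk i S - 1) + C_i = i + Σ_{i ≤ l < p-i} rc l S - 1`. For another index `i'`: `C_i'` changes by the number of elements of `{i, p - i}` in `[i', p - i')`: two if `i' < i`,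
 none if `i' > i`: even, while `kk i'` does not change. (Note `Σ_l rc l S = #{t ∈ S : i ≤ t % p < p - i}`.) Total mod 2:
 `#{t ∈ S : t > p-i, i ≤ t%p < p-i} + i + #{t ∈ S : i ≤ t%p < p-i} - 1 ≡ i - 1 + #{t ∈ S : t ≤ p - i, i ≤ t % p < p - i} = i - 1 + #{t ∈ S : i ≤ t < p - i} = i + nbt S i (p - i)`
 (`t = i` itself is counted). This is the exponent of the coefficient.
-/

set_option autoImplicit false

namespace Pool.Agent.Helper81.AN

private theorem invN_eq (m : ℕ) (S : Finset ℕ) : invN m S = ∑ x ∈ S, ∑ y ∈ S,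
    if x < y ∧ y % (2 * m + 1) < x % (2 * m + 1) then 1 else 0 := by
  rw [invN, Finset.card_filter, Finset.sum_product]

/-- the inversions of `a` with the elements of `U` -/
private def iv (m a t : ℕ) : ℕ :=
  (if t < a ∧ a % (2 * m + 1) < t % (2 * m + 1) then 1 else 0) +
    (if a < t ∧ t % (2 * m + 1) < a % (2 * m + 1) then 1 else 0)

private theorem invN_insert (m a : ℕ) (U : Finset ℕ) (ha : a ∉ U) :
    invN m (insert a U) = invN m U + ∑ t ∈ U, iv m a t := by
  rw [invN_eq, invN_eq, Finset.sum_insert ha, Finset.sum_insert ha]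
  have h1 : ∀ x ∈ U, (∑ y ∈ insert a U, if x < y ∧ y % (2 * m + 1) < x % (2 * m + 1) then 1 else 0) =
      (if x < a ∧ a % (2 * m + 1) < x % (2 * m + 1) then 1 else 0) +
        ∑ y ∈ U, if x < y ∧ y % (2 * m + 1) < x % (2 * m + 1) then 1 else 0 := fun x _ =>
    Finset.sum_insert ha
  rw [Finset.sum_congr rfl h1, Finset.sum_add_distrib]
  simp only [iv, Finset.sum_add_distrib]
  rw [if_neg (fun h => lt_irrefl a h.1)]
  omega

private theorem rc_insert (m a : ℕ) (U : Finset ℕ) (ha : a ∉ U) (j : ℕ) :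
    rc m (insert a U) j = rc m U j + if a % (2 * m + 1) = j then 1 else 0 := by
  rw [rc, rc, Finset.filter_insert]
  by_cases h : a % (2 * m + 1) = j
  · rw [if_pos h, if_pos h, Finset.card_insert_of_notMem]
    intro h1
    exact ha (Finset.mem_filter.1 h1).1
  · rw [if_neg h, if_neg h, add_zero]

private theorem sum_rc (m : ℕ) (U : Finset ℕ) (c d : ℕ) :
    ∑ l ∈ Finset.Ico c d, rc m U l =
      ∑ t ∈ U, if c ≤ t % (2 * m + 1) ∧ t % (2 * m + 1) < d then 1 else 0 := by
  have h1 : ∀ l ∈ Finset.Ico c d, rc m U l = ∑ t ∈ U, if t % (2 * m + 1) = l then 1 else 0 :=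
    fun l _ => by rw [rc, Finset.card_filter]
  rw [Finset.sum_congr rfl h1, Finset.sum_comm]
  refine Finset.sum_congr rfl fun t _ => ?_
  rw [Finset.sum_ite_eq]
  simp only [Finset.mem_Ico]

private theorem rc_congr {m : ℕ} {S T : Finset ℕ} (h : ∀ j, 0 < j → rc m S j = rc m T j) :
    eN m S = eN m T ∧ EN m S = EN m T := by
  have hk : ∀ i ∈ Finset.Icc 1 m, kk m i S = kk m i T := by
    intro i hi
    rw [Finset.mem_Icc] at hi
    rw [kk, kk, h i (by omega), h (2 * m + 1 - i) (by omega)]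
  refine ⟨Finset.sum_congr rfl hk, Finset.sum_congr rfl fun i hi => ?_⟩
  have hs : ∑ l ∈ Finset.Ico i (2 * m + 1 - i), rc m S l =
      ∑ l ∈ Finset.Ico i (2 * m + 1 - i), rc m T l := by
    refine Finset.sum_congr rfl fun l hl => ?_
    rw [Finset.mem_Icc] at hi
    rw [Finset.mem_Ico] at hl
    exact h l (by omega)
  rw [hk i hi, hs]

private theorem sgn_of_even {a b c : ℕ} (h : Even (a + b + c)) : ((-1 : ℤ)) ^ c * (-1) ^ a = (-1) ^ b := by
  rw [← pow_add]
  have h1 : ((-1 : ℤ)) ^ (a + b + c) = 1 := h.neg_one_pow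
  have h2 : ((-1 : ℤ)) ^ (c + a) * (-1) ^ b = 1 := by
    have h4 : c + a + b = a + b + c := by omega
    rw [← pow_add, h4]
    exact h1
  have h3 : ((-1 : ℤ)) ^ b * (-1) ^ b = 1 := by
    rw [← mul_pow]
    norm_num
  calc ((-1 : ℤ)) ^ (c + a) = (-1) ^ (c + a) * ((-1) ^ b * (-1) ^ b) := by rw [h3, mul_one]
    _ = ((-1) ^ (c + a) * (-1) ^ b) * (-1) ^ b := by rw [mul_assoc]
    _ = (-1) ^ b := by rw [h2, one_mul]

private theorem case_a (m b : ℕ) (U : Finset ℕ) (hb : b ∉ U) (ha : b + (2 * m + 1) ∉ U) :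
    (-1) ^ nbt (insert (b + (2 * m + 1)) U) b (b + (2 * m + 1)) * Om m (insert b U) =
      Om m (insert (b + (2 * m + 1)) U) := by
  obtain ⟨p, hp⟩ : ∃ p, p = 2 * m + 1 := ⟨_, rfl⟩
  have hpp : 0 < p := by omega
  have hr : ∀ j, rc m (insert b U) j = rc m (insert (b + (2 * m + 1)) U) j := by
    intro j
    rw [rc_insert m _ _ hb, rc_insert m _ _ ha, Nat.add_mod_right]
  obtain ⟨h1, h2⟩ := rc_congr (fun j _ => hr j)
  have hev : Even (invN m (insert b U) + invN m (insert (b + (2 * m + 1)) U) +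
      nbt (insert (b + (2 * m + 1)) U) b (b + (2 * m + 1))) := by
    have h3 : nbt (insert (b + (2 * m + 1)) U) b (b + (2 * m + 1)) =
        ∑ t ∈ U, if b < t ∧ t < b + (2 * m + 1) then 1 else 0 := by
      rw [nbt, Finset.filter_insert, if_neg (fun h => lt_irrefl _ h.2), Finset.card_filter]
    rw [invN_insert m _ _ hb, invN_insert m _ _ ha, h3]
    have h4 : invN m U + ∑ t ∈ U, iv m b t + (invN m U + ∑ t ∈ U, iv m (b + (2 * m + 1)) t) +
        (∑ t ∈ U, if b < t ∧ t < b + (2 * m + 1) then 1 else 0) = (invN m U + invN m U) +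
        ∑ t ∈ U, (iv m b t + iv m (b + (2 * m + 1)) t +
          if b < t ∧ t < b + (2 * m + 1) then 1 else 0) := by
      rw [Finset.sum_add_distrib, Finset.sum_add_distrib]
      ring
    rw [h4]
    refine Even.add ⟨_, rfl⟩ (Finset.even_sum _ fun t ht => ?_)
    have hta : t ≠ b + (2 * m + 1) := fun h => ha (h ▸ ht)
    have htb : t ≠ b := fun h => hb (h ▸ ht)
    have hmod : b < t → t < b + (2 * m + 1) → t % (2 * m + 1) ≠ b % (2 * m + 1) := by
      intro h5 h6 h7
      have h8 : (2 * m + 1) ∣ t - b := (Nat.modEq_iff_dvd' h5.le).1 h7.symm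
      have h9 := Nat.le_of_dvd (by omega) h8
      omega
    simp only [iv, Nat.add_mod_right]
    obtain ⟨x, hx⟩ : ∃ x, x = t % (2 * m + 1) := ⟨_, rfl⟩
    obtain ⟨y, hy⟩ : ∃ y, y = b % (2 * m + 1) := ⟨_, rfl⟩
    rw [← hx, ← hy] at hmod ⊢
    rw [Nat.even_iff]
    split_ifs <;> omega
  rw [Om, Om, h1, h2, ← mul_assoc]
  congr 1
  apply sgn_of_even
  have h5 : invN m (insert b U) + EN m (insert (b + (2 * m + 1)) U) +
      (invN m (insert (b + (2 * m + 1)) U) + EN m (insert (b + (2 * m + 1)) U)) +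
      nbt (insert (b + (2 * m + 1)) U) b (b + (2 * m + 1)) =
      (invN m (insert b U) + invN m (insert (b + (2 * m + 1)) U) +
      nbt (insert (b + (2 * m + 1)) U) b (b + (2 * m + 1))) +
      (EN m (insert (b + (2 * m + 1)) U) + EN m (insert (b + (2 * m + 1)) U)) := by ring
  rw [h5]
  exact Even.add hev ⟨_, rfl⟩

private theorem case_b (m : ℕ) (U : Finset ℕ) (h0 : 0 ∉ U) (ha : 2 * m + 1 ∉ U) :
    (-1) ^ ((insert (2 * m + 1) U).filter (fun t => t < 2 * m + 1)).card * Om m U =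
      Om m (insert (2 * m + 1) U) := by
  have hr : ∀ j, 0 < j → rc m U j = rc m (insert (2 * m + 1) U) j := by
    intro j hj
    rw [rc_insert m _ _ ha, Nat.mod_self, if_neg (by omega), add_zero]
  obtain ⟨h1, h2⟩ := rc_congr hr
  have h3 : invN m (insert (2 * m + 1) U) = invN m U +
      ((insert (2 * m + 1) U).filter (fun t => t < 2 * m + 1)).card := by
    rw [invN_insert m _ _ ha, Finset.filter_insert, if_neg (lt_irrefl _), Finset.card_filter]
    congr 1
    refine Finset.sum_congr rfl fun t ht => ?_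
    have ht0 : t ≠ 0 := fun h => h0 (h ▸ ht)
    rw [iv, Nat.mod_self]
    by_cases h4 : t < 2 * m + 1
    · rw [Nat.mod_eq_of_lt h4, if_pos ⟨h4, by omega⟩, if_neg (by omega), if_pos h4]
    · rw [if_neg (fun h => h4 h.1), if_neg (by omega), if_neg h4]
  rw [Om, Om, ← h1, ← h2, h3, ← mul_assoc]
  congr 1
  rw [← pow_add]
  congr 1
  omega

private theorem case_c (m i : ℕ) (U : Finset ℕ) (hi1 : 1 ≤ i) (him : i ≤ m) (hi : i ∉ U)
    (ha : 2 * m + 1 - i ∉ U) :
    2 * (-1) ^ (i + nbt (insert (2 * m + 1 - i) (insert i U)) i (2 * m + 1 - i)) * Om m U =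
      Om m (insert (2 * m + 1 - i) (insert i U)) := by
  obtain ⟨a, haa⟩ : ∃ a, a = 2 * m + 1 - i := ⟨_, rfl⟩
  rw [← haa] at ha ⊢
  have hia : i < a := by omega
  have ha' : a ∉ insert i U := by
    rw [Finset.mem_insert, not_or]
    exact ⟨by omega, ha⟩
  obtain ⟨S, hS⟩ : ∃ S, S = insert a (insert i U) := ⟨_, rfl⟩
  have hrc : ∀ j, rc m S j = rc m U j + (if i = j then 1 else 0) + (if a = j then 1 else 0) := by
    intro j
    rw [hS, rc_insert m _ _ ha', rc_insert m _ _ hi, Nat.mod_eq_of_lt (by omega : i < 2 * m + 1),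
      Nat.mod_eq_of_lt (by omega : a < 2 * m + 1)]
  have hkk1 : kk m i S = kk m i U + 1 := by
    rw [kk, kk, hrc, hrc, ← haa, if_pos rfl, if_neg (by omega), if_neg (by omega), if_pos rfl]
    omega
  have hkk2 : ∀ j ∈ Finset.Icc 1 m, j ≠ i → kk m j S = kk m j U := by
    intro j hj hji
    rw [Finset.mem_Icc] at hj
    rw [kk, kk, hrc, hrc, if_neg (by omega), if_neg (by omega), if_neg (by omega), if_neg (by omega)]
    simp only [add_zero]
  have himem : i ∈ Finset.Icc 1 m := Finset.mem_Icc.2 ⟨hi1, him⟩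
  have heN : eN m S = eN m U + 1 := by
    rw [eN, eN, ← Finset.add_sum_erase _ _ himem, ← Finset.add_sum_erase _ _ himem, hkk1,
      Finset.sum_congr rfl (fun j hj => hkk2 j (Finset.mem_of_mem_erase hj) (Finset.ne_of_mem_erase hj))]
    omega
  have hle : ∀ j ∈ Finset.Icc 1 m, ∀ T : Finset ℕ,
      kk m j T ≤ ∑ l ∈ Finset.Ico j (2 * m + 1 - j), rc m T l := by
    intro j hj T
    rw [Finset.mem_Icc] at hj
    have h1 : rc m T j ≤ ∑ l ∈ Finset.Ico j (2 * m + 1 - j), rc m T l :=
      Finset.single_le_sum (f := fun l => rc m T l) (fun _ _ => Nat.zero_le _)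
        (Finset.mem_Ico.2 ⟨le_rfl, by omega⟩)
    exact (min_le_left _ _).trans h1
  have hR : ∀ j, ∑ l ∈ Finset.Ico j (2 * m + 1 - j), rc m S l =
      (∑ l ∈ Finset.Ico j (2 * m + 1 - j), rc m U l) +
        (if j ≤ i ∧ i < 2 * m + 1 - j then 1 else 0) + (if j ≤ a ∧ a < 2 * m + 1 - j then 1 else 0) := by
    intro j
    rw [Finset.sum_congr rfl (fun l _ => hrc l), Finset.sum_add_distrib, Finset.sum_add_distrib,
      Finset.sum_ite_eq, Finset.sum_ite_eq]
    simp only [Finset.mem_Ico]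
  -- the correction
  obtain ⟨F, hF⟩ : ∃ F : ℕ → Finset ℕ → ℕ, ∀ j T, F j T = ∑ k ∈ Finset.range (kk m j T),
    (j + k + ((∑ l ∈ Finset.Ico j (2 * m + 1 - j), rc m T l) - kk m j T)) := ⟨_, fun _ _ => rfl⟩
  have hENF : ∀ T, EN m T = ∑ j ∈ Finset.Icc 1 m, F j T := by
    intro T
    rw [EN]
    exact Finset.sum_congr rfl fun j _ => (hF j T).symm
  have hFi : F i S = F i U + (i + ∑ l ∈ Finset.Ico i (2 * m + 1 - i), rc m U l) := by
    have h1 := hle i himem U
    rw [hF, hF, hkk1, hR, if_pos ⟨le_rfl, by omega⟩, if_neg (by omega), add_zero,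
      Nat.add_sub_add_right, Finset.sum_range_succ]
    omega
  have hFj : ∀ j ∈ Finset.Icc 1 m, j ≠ i → Even (F j S + F j U) := by
    intro j hj hji
    have h1 := hle j hj U
    have h2 := Finset.mem_Icc.1 hj
    rw [hF, hF, hkk2 j hj hji, hR]
    by_cases h3 : j < i
    · rw [if_pos ⟨by omega, by omega⟩, if_pos ⟨by omega, by omega⟩, ← Finset.sum_add_distrib]
      refine Finset.even_sum _ fun k _ => ?_
      rw [Nat.even_iff]
      omega
    · rw [if_neg (by omega), if_neg (by omega)]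
      exact ⟨_, rfl⟩
  have hEN : Even (EN m S + EN m U + (i + ∑ l ∈ Finset.Ico i (2 * m + 1 - i), rc m U l)) := by
    rw [hENF, hENF, ← Finset.add_sum_erase _ _ himem, ← Finset.add_sum_erase _ (fun j => F j U) himem, hFi]
    have h1 : F i U + (i + ∑ l ∈ Finset.Ico i (2 * m + 1 - i), rc m U l) +
        (∑ x ∈ (Finset.Icc 1 m).erase i, F x S) + (F i U + ∑ x ∈ (Finset.Icc 1 m).erase i, F x U) +
        (i + ∑ l ∈ Finset.Ico i (2 * m + 1 - i), rc m U l) =
        ((F i U + (i + ∑ l ∈ Finset.Ico i (2 * m + 1 - i), rc m U l)) +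
        (F i U + (i + ∑ l ∈ Finset.Ico i (2 * m + 1 - i), rc m U l))) +
        ∑ x ∈ (Finset.Icc 1 m).erase i, (F x S + F x U) := by
      rw [Finset.sum_add_distrib]
      ring
    rw [h1]
    exact Even.add ⟨_, rfl⟩ (Finset.even_sum _ fun j hj =>
      hFj j (Finset.mem_of_mem_erase hj) (Finset.ne_of_mem_erase hj))
  have hnb : nbt S i a = ∑ t ∈ U, if i < t ∧ t < a then 1 else 0 := by
    rw [nbt, hS, Finset.filter_insert, if_neg (fun h => lt_irrefl _ h.2), Finset.filter_insert,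
      if_neg (fun h => lt_irrefl _ h.1), Finset.card_filter]
  have hinv : invN m S = invN m U + ∑ t ∈ U, (iv m i t + iv m a t) := by
    rw [hS, invN_insert m _ _ ha', invN_insert m _ _ hi, Finset.sum_insert hi, Finset.sum_add_distrib]
    have h1 : iv m a i = 0 := by
      rw [iv, Nat.mod_eq_of_lt (by omega : i < 2 * m + 1), Nat.mod_eq_of_lt (by omega : a < 2 * m + 1),
        if_neg (by omega), if_neg (by omega)]
    rw [h1]
    ring
  have hev : Even (invN m U + invN m S + (∑ l ∈ Finset.Ico i (2 * m + 1 - i), rc m U l) + nbt S i a) := by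
    rw [hinv, hnb, sum_rc, ← haa]
    have h1 : invN m U + (invN m U + ∑ t ∈ U, (iv m i t + iv m a t)) +
        (∑ t ∈ U, if i ≤ t % (2 * m + 1) ∧ t % (2 * m + 1) < a then 1 else 0) +
        (∑ t ∈ U, if i < t ∧ t < a then 1 else 0) = (invN m U + invN m U) +
        ∑ t ∈ U, (iv m i t + iv m a t + (if i ≤ t % (2 * m + 1) ∧ t % (2 * m + 1) < a then 1 else 0) +
          (if i < t ∧ t < a then 1 else 0)) := by
      simp only [Finset.sum_add_distrib]
      ring
    rw [h1]
    refine Even.add ⟨_, rfl⟩ (Finset.even_sum _ fun t ht => ?_)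
    have hti : t ≠ i := fun h => hi (h ▸ ht)
    have hta : t ≠ a := fun h => ha (h ▸ ht)
    have hm1 : t < 2 * m + 1 → t % (2 * m + 1) = t := fun h => Nat.mod_eq_of_lt h
    have hm2 : t % (2 * m + 1) < 2 * m + 1 := Nat.mod_lt _ (by omega)
    simp only [iv]
    rw [Nat.mod_eq_of_lt (by omega : i < 2 * m + 1), Nat.mod_eq_of_lt (by omega : a < 2 * m + 1)]
    obtain ⟨x, hx⟩ : ∃ x, x = t % (2 * m + 1) := ⟨_, rfl⟩
    rw [← hx] at hm1 hm2 ⊢
    rw [Nat.even_iff]
    split_ifs <;> omega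
  rw [← hS, Om, Om, heN, pow_succ]
  have hsg : ((-1 : ℤ)) ^ (i + nbt S i a) * (-1) ^ (invN m U + EN m U) = (-1) ^ (invN m S + EN m S) := by
    apply sgn_of_even
    obtain ⟨R, hR'⟩ : ∃ R, R = ∑ l ∈ Finset.Ico i (2 * m + 1 - i), rc m U l := ⟨_, rfl⟩
    rw [← hR'] at hev hEN
    rw [Nat.even_iff] at hev hEN ⊢
    omega
  rw [← hsg]
  ring

theorem mv_Om (R : Type) [CommRing R] (m : ℕ) (h : Fk R) (S : Finset ℕ) (hS : 0 ∉ S) :
    mv R (2 * m + 1) (fun T => (Om m T : R) * h T) S = (Om m S : R) * Dm m h S := by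
  change (∑ a ∈ S.filter (fun a => 2 * m + 1 ≤ a), if a = 2 * m + 1 then
        (-1) ^ (S.filter (fun t => t < 2 * m + 1)).card * ((Om m (S.erase (2 * m + 1)) : R) * h (S.erase (2 * m + 1)))
      else if a - (2 * m + 1) ∈ S then 0 else
        (-1) ^ nbt S (a - (2 * m + 1)) a * ((Om m (insert (a - (2 * m + 1)) (S.erase a)) : R) *
          h (insert (a - (2 * m + 1)) (S.erase a)))) +
    ∑ a ∈ S.filter (fun a => a < 2 * m + 1 ∧ 2 * m + 1 < 2 * a ∧ 2 * m + 1 - a ∈ S),
      2 * (-1) ^ (2 * m + 1 - a + nbt S (2 * m + 1 - a) a) *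
        ((Om m ((S.erase a).erase (2 * m + 1 - a)) : R) * h ((S.erase a).erase (2 * m + 1 - a))) = _
  rw [Dm, mul_add, Finset.mul_sum, Finset.mul_sum]
  congr 1
  · refine Finset.sum_congr rfl fun a ha => ?_
    obtain ⟨haS, hap⟩ := Finset.mem_filter.1 ha
    by_cases h1 : a = 2 * m + 1
    · rw [if_pos h1, if_pos h1, h1]
      rw [h1] at haS
      have h2 := case_b m (S.erase (2 * m + 1)) (fun h => hS (Finset.mem_of_mem_erase h))
        (Finset.notMem_erase _ _)
      rw [Finset.insert_erase haS] at h2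
      rw [← h2]
      push_cast
      ring
    · rw [if_neg h1, if_neg h1]
      by_cases h2 : a - (2 * m + 1) ∈ S
      · rw [if_pos h2, if_pos h2, mul_zero]
      · rw [if_neg h2, if_neg h2]
        obtain ⟨b, rfl⟩ : ∃ b, a = b + (2 * m + 1) := ⟨a - (2 * m + 1), by omega⟩
        rw [Nat.add_sub_cancel] at h2 ⊢
        have h3 := case_a m b (S.erase (b + (2 * m + 1))) (fun h => h2 (Finset.mem_of_mem_erase h))
          (Finset.notMem_erase _ _)
        rw [Finset.insert_erase haS] at h3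
        rw [← h3]
        push_cast
        ring
  · refine Finset.sum_congr rfl fun a ha => ?_
    obtain ⟨haS, hap, hap2, haS2⟩ := Finset.mem_filter.1 ha
    obtain ⟨i, hi⟩ : ∃ i, i = 2 * m + 1 - a := ⟨_, rfl⟩
    rw [← hi] at haS2 ⊢
    have ha' : a = 2 * m + 1 - i := by omega
    have h3 := case_c m i ((S.erase a).erase i) (by omega) (by omega) (Finset.notMem_erase _ _) (by
      rw [← ha']
      intro h
      exact Finset.notMem_erase a S (Finset.mem_of_mem_erase h))
    rw [← ha', Finset.insert_erase (Finset.mem_erase.2 ⟨by omega, haS2⟩), Finset.insert_erase haS] at h3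
    rw [← h3]
    push_cast
    ring

end Pool.Agent.Helper81.AN
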