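import Pool.Agent.Helper81.AN.PPComm

/-!
# ALT-13: the `p`-th power of the first power sum modulo `p`

Over `ZMod p`, `p` an odd prime: `(mv 1)^p = mv p` on `V0`.

PROOF. Let `A = mv 1`, `B = mv p`. By `mv_phi`: `A φ_k = φ_k A + φ_{k+1}`, hence by induction `A^n φ_k = Σ_j binom(n, j) φ_{k+j} A^(n-j)`, and for
`n = p`, modulo `p`: `A^p φ_k = φ_k A^p + φ_{k+p}`. Also `B φ_k = φ_k B + φ_{k+p}`. So `D = A^p - B` commutes with all `φ_k`. `D (dl ∅)` is killed by
`φ_{-k}`, `k > 0` (`φ_{-k} D (dl ∅) = D φ_{-k} (dl ∅) = 0`), so `D (dl ∅) = c • dl ∅` (`vac_of_kill`), `c = (D (dl ∅))(∅) = 0` because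
`(mv m y)(∅) = 0` for all `y`. By `scalar_of_comm` (`2 ≠ 0` in `ZMod p`), `D x = 0` on `V0`.
(Slick version of the binomial step: `ad`: the endomorphisms `L_A` (left multiplication) and `R_A` (right multiplication) of the ring of
endomorphisms commute, so modulo `p`: `ad(A)^p = ad(A^p)`, and `ad(A)^p φ_k = φ_{k+p}`. Mathlib: `add_pow_char` for commuting
elements, `Commute.add_pow`, `sub_pow_char_of_commute`.)
-/

set_option autoImplicit false

namespace Pool.Agent.Helper81.AN

private theorem mv_empty (R : Type) [CommRing R] (m : ℕ) (y : Fk R) : mv R m y ∅ = 0 := by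
  simp [mv]

/-- the `p`-th power of the commutator with `A` in characteristic `p` -/
theorem ad_pow_char {K E : Type} [Field K] [Ring E] [Algebra K E] [Nontrivial E] (p : ℕ)
    [Fact p.Prime] [CharP K p] (A X : E) :
    ((LinearMap.mulLeft K A - LinearMap.mulRight K A) ^ p) X = A ^ p * X - X * A ^ p := by
  have hcomm : Commute (LinearMap.mulLeft K A) (LinearMap.mulRight K A) :=
    LinearMap.commute_mulLeft_right A A
  have : CharP (Module.End K E) p :=
    charP_of_injective_algebraMap (algebraMap K (Module.End K E)).injective p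
  have hsp : (LinearMap.mulLeft K A - LinearMap.mulRight K A) ^ p =
      LinearMap.mulLeft K A ^ p - LinearMap.mulRight K A ^ p :=
    sub_pow_char_of_commute (R := Module.End K E) p hcomm
  rw [hsp, LinearMap.sub_apply, LinearMap.pow_mulLeft, LinearMap.pow_mulRight]
  rfl

/-- the commutator with the `p`-th power of the first operator -/
theorem mv_one_pow_phi (p : ℕ) [Fact p.Prime] (k : ℤ) :
    (mv (ZMod p) 1) ^ p * phi (ZMod p) k - phi (ZMod p) k * (mv (ZMod p) 1) ^ p =
      phi (ZMod p) (k + p) := by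
  have hstep : ∀ k : ℤ, (LinearMap.mulLeft (ZMod p) (mv (ZMod p) 1) -
      LinearMap.mulRight (ZMod p) (mv (ZMod p) 1)) (phi (ZMod p) k) = phi (ZMod p) (k + 1) := by
    intro k
    have h := mv_phi (ZMod p) (ZMod.ringHom_surjective _) 1 odd_one k
    rw [Nat.cast_one] at h
    exact h
  have hit : ∀ (n : ℕ) (k : ℤ), ((LinearMap.mulLeft (ZMod p) (mv (ZMod p) 1) -
      LinearMap.mulRight (ZMod p) (mv (ZMod p) 1)) ^ n) (phi (ZMod p) k) =
        phi (ZMod p) (k + n) := by
    intro n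
    induction n with
    | zero => intro k; simp
    | succ n ih =>
      intro k
      rw [pow_succ, Module.End.mul_apply, hstep, ih]
      congr 1
      push_cast
      ring
  have : Nontrivial (Fk (ZMod p)) := ⟨dl (ZMod p) ∅, 0, fun h => by
    have := congrFun h ∅
    simp [dl] at this⟩
  rw [← ad_pow_char (K := ZMod p) p, hit]

theorem mv_one_pow (p : ℕ) [Fact p.Prime] (hp : Odd p) {x : Fk (ZMod p)}
    (hx : x ∈ V0 (ZMod p)) : ((mv (ZMod p) 1) ^ p) x = mv (ZMod p) p x := by
  have hpp : p.Prime := Fact.out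
  have h2 : (2 : ZMod p) ≠ 0 := by
    intro h
    have h3 : ((2 : ℕ) : ZMod p) = 0 := by exact_mod_cast h
    rw [ZMod.natCast_eq_zero_iff] at h3
    have := Nat.le_of_dvd (by norm_num) h3
    have := hpp.two_le
    obtain ⟨t, ht⟩ := hp
    omega
  have hD : ∀ k : ℤ, ((mv (ZMod p) 1) ^ p - mv (ZMod p) p) * phi (ZMod p) k =
      phi (ZMod p) k * ((mv (ZMod p) 1) ^ p - mv (ZMod p) p) := by
    intro k
    have h1 := mv_one_pow_phi p k
    have h3 := mv_phi (ZMod p) (ZMod.ringHom_surjective _) p hp k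
    rw [sub_mul, mul_sub]
    have h4 := h1.trans h3.symm
    rw [sub_eq_sub_iff_add_eq_add] at h4 ⊢
    rw [h4, add_comm]
  have hpow : ∀ (n : ℕ) (y : Fk (ZMod p)), y ∈ V0 (ZMod p) →
      ((mv (ZMod p) 1) ^ n) y ∈ V0 (ZMod p) := by
    intro n
    induction n with
    | zero => intro y hy; simpa using hy
    | succ n ih =>
      intro y hy
      rw [pow_succ, Module.End.mul_apply]
      exact ih _ (V0_mv _ hy 1 odd_one)
  have hvac : dl (ZMod p) ∅ ∈ V0 (ZMod p) := dl_mem _ ∅ (Finset.notMem_empty 0)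
  have hmem : ((mv (ZMod p) 1) ^ p - mv (ZMod p) p) (dl (ZMod p) ∅) ∈ V0 (ZMod p) := by
    rw [LinearMap.sub_apply]
    exact Submodule.sub_mem _ (hpow p _ hvac) (V0_mv _ hvac p hp)
  have hkill : ∀ k : ℤ, k < 0 →
      phi (ZMod p) k (((mv (ZMod p) 1) ^ p - mv (ZMod p) p) (dl (ZMod p) ∅)) = 0 := by
    intro k hk
    rw [← Module.End.mul_apply, ← hD, Module.End.mul_apply, phi_neg_vac _ k hk, map_zero]
  have hz : ((mv (ZMod p) 1) ^ p - mv (ZMod p) p) (dl (ZMod p) ∅) =
      (0 : ZMod p) • dl (ZMod p) ∅ := by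
    rw [vac_of_kill _ hmem hkill]
    congr 1
    obtain ⟨n, hn⟩ : ∃ n, p = n + 1 := ⟨p - 1, by have := hpp.pos; omega⟩
    rw [LinearMap.sub_apply, Pi.sub_apply, mv_empty]
    have h5 : ((mv (ZMod p) 1) ^ p) (dl (ZMod p) ∅) ∅ = 0 := by
      have h6 : (mv (ZMod p) 1) ^ p = mv (ZMod p) 1 * (mv (ZMod p) 1) ^ n := by
        rw [← pow_succ', ← hn]
      rw [h6, Module.End.mul_apply, mv_empty]
    rw [h5, sub_zero]
  have hfin := scalar_of_comm (ZMod p) h2 _ (fun k _ => hD k) 0 hz hx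
  rw [zero_smul, LinearMap.sub_apply] at hfin
  exact sub_eq_zero.1 hfin

/-- the coefficients of `P_1^(p w + r)` modulo `p` -/
theorem Xc_ones_mod (p : ℕ) [Fact p.Prime] (hp : Odd p) (w r : ℕ) (S : Finset ℕ) :
    (Xc (List.replicate (p * w + r) 1) S : ZMod p) =
      ((mv (ZMod p) p) ^ w) (fun T => (Xc (List.replicate r 1) T : ZMod p)) S := by
  have hML : ∀ n, ML (ZMod p) (List.replicate n 1) = (mv (ZMod p) 1) ^ n := by
    intro n
    unfold ML
    rw [List.map_replicate, List.prod_replicate]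
  have hpow : ∀ (n : ℕ) (y : Fk (ZMod p)), y ∈ V0 (ZMod p) →
      ((mv (ZMod p) 1) ^ n) y ∈ V0 (ZMod p) := by
    intro n
    induction n with
    | zero => intro y hy; simpa using hy
    | succ n ih =>
      intro y hy
      rw [pow_succ, Module.End.mul_apply]
      exact ih _ (V0_mv _ hy 1 odd_one)
  have hw : ∀ (w : ℕ) (y : Fk (ZMod p)), y ∈ V0 (ZMod p) →
      ((mv (ZMod p) 1) ^ (p * w)) y = ((mv (ZMod p) p) ^ w) y := by
    intro w
    induction w with
    | zero => intro y _; simp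
    | succ w ih =>
      intro y hy
      rw [Nat.mul_succ, pow_add, Module.End.mul_apply, ih _ (hpow p y hy), mv_one_pow p hp hy,
        pow_succ, Module.End.mul_apply]
  have hvac : dl (ZMod p) ∅ ∈ V0 (ZMod p) := dl_mem _ ∅ (Finset.notMem_empty 0)
  have hf : (fun T => (Xc (List.replicate r 1) T : ZMod p)) =
      ((mv (ZMod p) 1) ^ r) (dl (ZMod p) ∅) := by
    funext T
    rw [← Xc_cast, hML]
  rw [hf, ← Xc_cast, hML, pow_add, Module.End.mul_apply, hw w _ (hpow r _ hvac)]

end Pool.Agent.Helper81.AN
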