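import Pool.Agent.Helper81.AN.BarN
import Pool.Agent.Helper81.AN.BarSign
import Pool.Agent.Helper81.AN.ModP

/-!
# ALT-36: the number of shifted tableaux modulo `p`

`p = 2 m + 1` prime, `r < p`, `0 ∉ S`, `Σ S = p w + r`. If `wtS m S = w` then `g_S * Om (core) = Om S * N_S * g_core` modulo `p`, otherwise `g_S = 0` modulo `p`.

PROOF. `g_S = Xc (1^(p w + r)) S` (`Xc_ones`) `= (mv p)^w y (S)`, `y(T) = Xc (1^r) T` over `ZMod p` (`Xc_ones_mod`). CLAIM, by induction on `w`: for `0 ∉ S`, `Σ S = p w + r`: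
`((mv p)^w y)(S) = Om S * N_S * Om(core S) * g_r(core S)` if `wtS S = w`, and `0` otherwise (then `wtS S < w`, `wt_le`).
`w = 0`: `y(S) = g_r(S)` (`Xc_ones`), `core S = S`, `wtS S = 0` (`core_small`), `N_S = 1` (`NQ0_zero`), `Om S ^ 2 = 1` since `eN S = 0`.
Step: `((mv p)^(w+1) y)(S) = (mv p (y'))(S)`, `y' = (mv p)^w y`. `mv p` at `S` uses only values at sets `T` as in `Dm_supp` (`0 ∉ T`, `Σ T = p w + r`; for `mv` this follows from its definition; wlog
replace `y'` by `Om * h` with `h T = Om T⁻¹ y' T`, which is possible since `Om T` is a unit modulo `p`: `± 2^e`), so by `mv_Om`: `= Om S * Dm h (S)`, and `h T = N_T Om(core T) g_r(core T)` if `wtS T = w`, else `0`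
(induction hypothesis; `Om T * Om T⁻¹ = 1`). By `Dm_supp` `core T = core S` and `wtS T + 1 = wtS S`: if `wtS S = w + 1` then `Dm h S = (Dm N)(S) Om(core S) g_r(core S) = N_S ...` (`NS_rec`), otherwise all terms
vanish. (It may be convenient to use the lemma: `mv R p x S = mv R p x' S` if `x T = x' T` for all `T` with `0 ∉ T`, `Σ T + p = Σ S`; `mv_supp`.)
-/

set_option autoImplicit false
set_option linter.unusedVariables false

namespace Pool.Agent.Helper81.AN

theorem mv_supp (R : Type) [CommRing R] (p : ℕ) (hp : 0 < p) (x x' : Fk R) (S : Finset ℕ)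
    (hS : 0 ∉ S) (h : ∀ T, 0 ∉ T → (∑ s ∈ T, s) + p = ∑ s ∈ S, s → x T = x' T) :
    mv R p x S = mv R p x' S := by
  change (∑ a ∈ S.filter (fun a => p ≤ a), if a = p then
        (-1) ^ (S.filter (fun t => t < p)).card * x (S.erase p)
      else if a - p ∈ S then 0 else
        (-1) ^ nbt S (a - p) a * x (insert (a - p) (S.erase a))) +
    ∑ a ∈ S.filter (fun a => a < p ∧ p < 2 * a ∧ p - a ∈ S),
      2 * (-1) ^ (p - a + nbt S (p - a) a) * x ((S.erase a).erase (p - a)) =
    (∑ a ∈ S.filter (fun a => p ≤ a), if a = p then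
        (-1) ^ (S.filter (fun t => t < p)).card * x' (S.erase p)
      else if a - p ∈ S then 0 else
        (-1) ^ nbt S (a - p) a * x' (insert (a - p) (S.erase a))) +
    ∑ a ∈ S.filter (fun a => a < p ∧ p < 2 * a ∧ p - a ∈ S),
      2 * (-1) ^ (p - a + nbt S (p - a) a) * x' ((S.erase a).erase (p - a))
  congr 1
  · refine Finset.sum_congr rfl fun a ha => ?_
    rw [Finset.mem_filter] at ha
    have h1 := Finset.add_sum_erase S (fun s => s) ha.1
    by_cases hap : a = p
    · rw [if_pos hap, if_pos hap, h]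
      · exact fun h0 => hS (Finset.mem_of_mem_erase h0)
      · subst hap
        omega
    · rw [if_neg hap, if_neg hap]
      by_cases h2 : a - p ∈ S
      · rw [if_pos h2, if_pos h2]
      · rw [if_neg h2, if_neg h2, h]
        · intro h0
          rcases Finset.mem_insert.1 h0 with h3 | h3
          · omega
          · exact hS (Finset.mem_of_mem_erase h3)
        · rw [Finset.sum_insert (fun h3 => h2 (Finset.mem_of_mem_erase h3))]
          omega
  · refine Finset.sum_congr rfl fun a ha => ?_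
    rw [Finset.mem_filter] at ha
    have h1 := Finset.add_sum_erase S (fun s => s) ha.1
    have h2 := Finset.add_sum_erase (S.erase a) (fun s => s)
      (Finset.mem_erase.2 ⟨(by omega : p - a ≠ a), ha.2.2.2⟩)
    rw [h]
    · exact fun h0 => hS (Finset.mem_of_mem_erase (Finset.mem_of_mem_erase h0))
    · omega

private theorem Dm_mul_const (R : Type) [CommRing R] (m : ℕ) (h : Fk R) (K : R) (S : Finset ℕ) :
    Dm m (fun T => h T * K) S = Dm m h S * K := by
  unfold Dm
  rw [add_mul, Finset.sum_mul, Finset.sum_mul]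
  congr 1
  refine Finset.sum_congr rfl fun a _ => ?_
  split_ifs
  · rfl
  · rw [zero_mul]
  · rfl

private theorem Om_sq (R : Type) [CommRing R] (m : ℕ) (S : Finset ℕ) :
    (Om m S : R) ^ 2 = (2 ^ eN m S) ^ 2 := by
  unfold Om
  push_cast
  rw [mul_pow, ← pow_mul, mul_comm (invN m S + EN m S) 2, pow_mul, neg_one_sq, one_pow, one_mul]

private theorem claim (m : ℕ) [Fact (2 * m + 1).Prime] (r : ℕ) (hr : r < 2 * m + 1) (w : ℕ) :
    ∀ S : Finset ℕ, 0 ∉ S → ∑ s ∈ S, s = (2 * m + 1) * w + r →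
    ((mv (ZMod (2 * m + 1)) (2 * m + 1)) ^ w)
      (fun T => (Xc (List.replicate r 1) T : ZMod (2 * m + 1))) S =
      if wtS m S = w then (Om m S : ZMod (2 * m + 1)) * ((NS m S : ZMod (2 * m + 1)) *
        ((Om m (coreS m S) : ZMod (2 * m + 1)) * (gAux r (coreS m S)))) else 0 := by
  induction w with
  | zero =>
    intro S hS hs
    have hs' : ∑ s ∈ S, s = r := by omega
    obtain ⟨h1, h2, h3, h4⟩ := core_small m r hr S hS hs'
    rw [if_pos h1, h2]
    have h5 : NS m S = 1 := by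
      apply NQ0_zero
      · exact r0_zero m S hS
      · exact h1
    have h6 : Xc (List.replicate r 1) S = gAux r S := by
      have := Xc_ones S hS
      rw [hs'] at this
      exact this
    have h7 : (Om m S : ZMod (2 * m + 1)) * (Om m S : ZMod (2 * m + 1)) = 1 := by
      rw [← pow_two, Om_sq, h4, pow_zero, one_pow]
    rw [h5, pow_zero, Nat.cast_one, one_mul, ← mul_assoc, h7, one_mul]
    change (Xc (List.replicate r 1) S : ZMod (2 * m + 1)) = _
    rw [h6, Int.cast_natCast]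
  | succ w ih =>
    intro S hS hs
    rw [pow_succ', Module.End.mul_apply]
    obtain ⟨h, hh⟩ : ∃ h : Fk (ZMod (2 * m + 1)), h = fun T => if wtS m T = w then
        ((NS m T : ZMod (2 * m + 1)) *
          ((Om m (coreS m T) : ZMod (2 * m + 1)) * (gAux r (coreS m T)))) else 0 := ⟨_, rfl⟩
    have h1 := mv_supp (ZMod (2 * m + 1)) (2 * m + 1) (by omega)
      (((mv (ZMod (2 * m + 1)) (2 * m + 1)) ^ w)
        (fun T => (Xc (List.replicate r 1) T : ZMod (2 * m + 1))))
      (fun T => (Om m T : ZMod (2 * m + 1)) * h T) S hS (by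
        intro T hT hTs
        rw [ih T hT (by rw [hs, Nat.mul_succ] at hTs; omega), hh]
        simp only
        split_ifs
        · rfl
        · rw [mul_zero])
    rw [h1, mv_Om _ m h S hS]
    by_cases hw : wtS m S = w + 1
    · rw [if_pos hw]
      congr 1
      rw [Dm_supp (ZMod (2 * m + 1)) m h (fun T => (NS m T : ZMod (2 * m + 1)) *
          ((Om m (coreS m S) : ZMod (2 * m + 1)) * (gAux r (coreS m S)))) S hS,
        Dm_mul_const, NS_rec _ m S hS (by omega)]
      intro T _ _ h2 h3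
      rw [hh]
      simp only
      rw [if_pos (by omega), h3]
    · rw [if_neg hw]
      rw [Dm_supp (ZMod (2 * m + 1)) m h (fun T => (NS m T : ZMod (2 * m + 1)) * 0) S hS,
        Dm_mul_const, mul_zero, mul_zero]
      intro T _ _ h2 h3
      rw [hh]
      simp only
      rw [if_neg (by omega), mul_zero]

private theorem g_claim (m : ℕ) [Fact (2 * m + 1).Prime] (w r : ℕ) (hr : r < 2 * m + 1)
    (S : Finset ℕ) (hS : 0 ∉ S) (hs : ∑ s ∈ S, s = (2 * m + 1) * w + r) :
    (gAux ((2 * m + 1) * w + r) S : ZMod (2 * m + 1)) =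
      if wtS m S = w then (Om m S : ZMod (2 * m + 1)) * ((NS m S : ZMod (2 * m + 1)) *
        ((Om m (coreS m S) : ZMod (2 * m + 1)) * (gAux r (coreS m S)))) else 0 := by
  rw [← claim m r hr w S hS hs, ← Xc_ones_mod (2 * m + 1) ⟨m, rfl⟩ w r S]
  have h1 := Xc_ones S hS
  rw [hs] at h1
  rw [h1, Int.cast_natCast]

theorem g_mod (m : ℕ) [Fact (2 * m + 1).Prime] (hm : 0 < m) (w r : ℕ) (hr : r < 2 * m + 1)
    (S : Finset ℕ) (hS : 0 ∉ S) (hs : ∑ s ∈ S, s = (2 * m + 1) * w + r) (hw : wtS m S = w) :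
    (gAux ((2 * m + 1) * w + r) S : ZMod (2 * m + 1)) =
      (Om m S : ZMod (2 * m + 1)) * (NS m S) * ((Om m (coreS m S) : ZMod (2 * m + 1)) *
        (gAux r (coreS m S))) := by
  rw [g_claim m w r hr S hS hs, if_pos hw, mul_assoc]

theorem g_mod_zero (m : ℕ) [Fact (2 * m + 1).Prime] (hm : 0 < m) (w r : ℕ)
    (hr : r < 2 * m + 1) (S : Finset ℕ) (hS : 0 ∉ S) (hs : ∑ s ∈ S, s = (2 * m + 1) * w + r)
    (hw : wtS m S ≠ w) : (gAux ((2 * m + 1) * w + r) S : ZMod (2 * m + 1)) = 0 := by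
  rw [g_claim m w r hr S hS hs, if_neg hw]

/-- the squares -/
theorem g_mod_sq (m : ℕ) [Fact (2 * m + 1).Prime] (hm : 0 < m) (w r : ℕ) (hr : r < 2 * m + 1)
    (S : Finset ℕ) (hS : 0 ∉ S) (hs : ∑ s ∈ S, s = (2 * m + 1) * w + r) (hw : wtS m S = w) :
    (gAux ((2 * m + 1) * w + r) S : ZMod (2 * m + 1)) ^ 2 =
      (2 ^ eN m S * (NS m S) * (gAux r (coreS m S))) ^ 2 := by
  obtain ⟨-, h1, h2, -⟩ := charges_small m w r hr S hS hs hw
  obtain ⟨-, -, -, h3⟩ := core_small m r hr _ h1 h2
  have h4 : (Om m (coreS m S) : ZMod (2 * m + 1)) ^ 2 = 1 := by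
    rw [Om_sq, h3, pow_zero, one_pow]
  rw [g_mod m hm w r hr S hS hs hw, mul_pow, mul_pow, mul_pow, h4, Om_sq, one_mul, mul_pow,
    mul_pow]

end Pool.Agent.Helper81.AN
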