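import Pool.Agent.Helper81.AN.BarDefs
import Pool.Agent.Helper24.AN.MCharge

/-!
# ALT-33: removals of bars are moves in the bar quotient

PROOF of `Dm_eq`. Let `p = 2 m + 1`. The terms of `Dm` correspond to the moves:
* `a = p t ∈ S`, `t ≥ 1`: if `t = 1`: `S.erase p`, `r0` loses `1`, i.e. `sdown r0 1`; if `t ≥ 2` and `a - p ∉ S`: `t - 1 ∉ r0`, `r0` becomes `sdown r0 t`; all `mi` are unchanged.
* `a = p y + i`, `1 ≤ i ≤ m`, `y ≥ 1`, `a - p ∉ S`: bead `y ∈ M_i`, `y - 1 ∉ M_i`, `y - 1 ≥ 0`: `M_i` becomes `M_i.down y`.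
* `a = p y + (p - i)`, `y ≥ 1`, `a - p ∉ S`: hole at `-1-y`, bead at `-y`: `x = -y < 0` is a bead with `x - 1` empty; after the removal there is a hole at `-y` and a bead at `-1-y`: `M_i.down x`.
* the pair `a = p - i`, `i ∈ S`: bead at `0`, hole at `-1`: `x = 0`, `M_i.down 0`.
Conversely every move `t` of `r0` (`t ∈ r0`, `t - 1 ∉ r0`; `0 ∉ r0`) and every bead `x ∈ M_i`, `x - 1 ∉ M_i` arises exactly once. The other `mi` and `r0` do not change in each case.
So `Dm m h S` is the sum over all moves. (Suggestion: split the two sums of `Dm` according to the residue of `a`, and use `Finset.sum_bij` / `finsum_mem_eq_of_bijOn`.)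
`mf_injective`, `mf_surjective`: `S` is determined by `r0 m S` and the `mf m S i` (every residue class `≠ 0` is `i` or `p - i` for exactly one `1 ≤ i ≤ m`); conversely
take `S = p T ∪ {p y + i : 0 ≤ y ∈ M_i} ∪ {p (-1-y) + p - i : 0 > y ∉ M_i}` (finite sets, `finite_beads`, `finite_holes`).
-/

set_option autoImplicit false

namespace Pool.Agent.Helper81.AN

open Pool.Agent.Helper24.AN

private theorem euc {p q r q' r' : ℕ} (hr : r < p) (hr' : r' < p) :
    p * q + r = p * q' + r' ↔ q = q' ∧ r = r' := by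
  constructor
  · intro h
    have h1 : (p * q + r) / p = q := by
      rw [Nat.mul_add_div (by omega), Nat.div_eq_of_lt hr, add_zero]
    have h2 : (p * q' + r') / p = q' := by
      rw [Nat.mul_add_div (by omega), Nat.div_eq_of_lt hr', add_zero]
    have h3 : (p * q + r) % p = r := by
      rw [Nat.mul_add_mod, Nat.mod_eq_of_lt hr]
    have h4 : (p * q' + r') % p = r' := by
      rw [Nat.mul_add_mod, Nat.mod_eq_of_lt hr']
    exact ⟨by rw [← h1, ← h2, h], by rw [← h3, ← h4, h]⟩
  · rintro ⟨rfl, rfl⟩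
    rfl

private theorem mem_r0 {m : ℕ} {S : Finset ℕ} {t : ℕ} : t ∈ r0 m S ↔ (2 * m + 1) * t ∈ S := by
  unfold r0
  rw [Finset.mem_image]
  constructor
  · rintro ⟨a, ha, rfl⟩
    rw [Finset.mem_filter] at ha
    have h := Nat.div_add_mod a (2 * m + 1)
    rw [ha.2, add_zero] at h
    rw [h]
    exact ha.1
  · intro h
    exact ⟨(2 * m + 1) * t, Finset.mem_filter.2 ⟨h, Nat.mul_mod_right _ _⟩,
      Nat.mul_div_cancel_left _ (by omega)⟩

private theorem mem_mi {m i : ℕ} {S : Finset ℕ} {y : ℤ} : y ∈ (mi m i S).s ↔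
    (0 ≤ y ∧ (2 * m + 1) * y.toNat + i ∈ S) ∨
      (y < 0 ∧ (2 * m + 1) * (-1 - y).toNat + (2 * m + 1 - i) ∉ S) := Iff.rfl

private theorem mem_down {M : Maya} {x y : ℤ} : y ∈ (M.down x).s ↔ (y ∈ M.s ∧ y ≠ x) ∨ y = x - 1 := Iff.rfl

private theorem mem_mvT {m q r X R : ℕ} {S : Finset ℕ} (hr : r < 2 * m + 1) (hR : R < 2 * m + 1) :
    (2 * m + 1) * q + r ∈ insert ((2 * m + 1) * (X - 1) + R) (S.erase ((2 * m + 1) * X + R)) ↔
      (q = X - 1 ∧ r = R) ∨ ((2 * m + 1) * q + r ∈ S ∧ ¬ (q = X ∧ r = R)) := by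
  rw [Finset.mem_insert, Finset.mem_erase, euc hr hR, ne_eq, euc hr hR, and_comm (a := ¬ _)]

private theorem mem_mv0 {m q r R : ℕ} {S : Finset ℕ} (hr : r < 2 * m + 1) (hR : R < 2 * m + 1) (hR0 : 0 < R) :
    (2 * m + 1) * q + r ∈ (S.erase (2 * m + 1 - R)).erase R ↔
      (2 * m + 1) * q + r ∈ S ∧ ¬ (q = 0 ∧ r = R) ∧ ¬ (q = 0 ∧ r = 2 * m + 1 - R) := by
  have h1 : (2 * m + 1) * q + r = R ↔ q = 0 ∧ r = R := by
    have h := euc (q := q) (q' := 0) hr hR
    rwa [mul_zero, zero_add] at h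
  have h2 : (2 * m + 1) * q + r = 2 * m + 1 - R ↔ q = 0 ∧ r = 2 * m + 1 - R := by
    have h := euc (q := q) (q' := 0) hr (show 2 * m + 1 - R < 2 * m + 1 by omega)
    rwa [mul_zero, zero_add] at h
  rw [Finset.mem_erase, Finset.mem_erase, ne_eq, ne_eq, h1, h2]
  tauto

/-- the quotient after a move, first kind -/
private theorem quo_pos {m : ℕ} (S : Finset ℕ) (i : Fin m) {x : ℤ} (hx : 0 < x) :
    r0 m (insert ((2 * m + 1) * (x.toNat - 1) + (i + 1)) (S.erase ((2 * m + 1) * x.toNat + (i + 1)))) = r0 m S ∧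
    mf m (insert ((2 * m + 1) * (x.toNat - 1) + (i + 1)) (S.erase ((2 * m + 1) * x.toNat + (i + 1)))) =
      Function.update (mf m S) i ((mf m S i).down x) := by
  have hi := i.2
  constructor
  · ext t
    rw [mem_r0, mem_r0]
    have h := mem_mvT (m := m) (q := t) (r := 0) (X := x.toNat) (R := i + 1) (S := S) (by omega) (by omega)
    rw [add_zero] at h
    rw [h]
    constructor
    · rintro (h1 | h1)
      · omega
      · exact h1.1
    · intro h1
      exact Or.inr ⟨h1, by omega⟩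
  · funext j
    have hj := j.2
    by_cases hji : j = i
    · subst hji
      rw [Function.update_self]
      refine maya_ext fun y => ?_
      rw [mem_down]
      unfold mf
      rw [mem_mi, mem_mi, mem_mvT (by omega) (by omega), mem_mvT (by omega) (by omega)]
      by_cases h1 : (2 * m + 1) * y.toNat + (j + 1) ∈ S <;>
        by_cases h2 : (2 * m + 1) * (-1 - y).toNat + (2 * m + 1 - (j + 1)) ∈ S <;>
          simp only [h1, h2, true_and, false_and, and_true, and_false, not_true, not_false_iff, or_false, false_or, iff_true, iff_false, true_iff, false_iff, not_or, not_and, not_lt, not_le, not_not] <;> omega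
    · rw [Function.update_of_ne hji]
      have hne : (j : ℕ) ≠ i := fun h => hji (Fin.ext h)
      refine maya_ext fun y => ?_
      unfold mf
      rw [mem_mi, mem_mi, mem_mvT (by omega) (by omega), mem_mvT (by omega) (by omega)]
      by_cases h1 : (2 * m + 1) * y.toNat + (j + 1) ∈ S <;>
        by_cases h2 : (2 * m + 1) * (-1 - y).toNat + (2 * m + 1 - (j + 1)) ∈ S <;>
          simp only [h1, h2, true_and, false_and, and_true, and_false, not_true, not_false_iff, or_false, false_or, iff_true, iff_false, true_iff, false_iff, not_or, not_and, not_lt, not_le, not_not] <;> omega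

/-- the quotient after a move, second kind -/
private theorem quo_neg {m : ℕ} (S : Finset ℕ) (i : Fin m) {x : ℤ} (hx : x < 0) :
    r0 m (insert ((2 * m + 1) * ((-x).toNat - 1) + (2 * m + 1 - (i + 1)))
      (S.erase ((2 * m + 1) * (-x).toNat + (2 * m + 1 - (i + 1))))) = r0 m S ∧
    mf m (insert ((2 * m + 1) * ((-x).toNat - 1) + (2 * m + 1 - (i + 1)))
      (S.erase ((2 * m + 1) * (-x).toNat + (2 * m + 1 - (i + 1))))) =
      Function.update (mf m S) i ((mf m S i).down x) := by
  have hi := i.2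
  constructor
  · ext t
    rw [mem_r0, mem_r0]
    have h := mem_mvT (m := m) (q := t) (r := 0) (X := (-x).toNat) (R := 2 * m + 1 - (i + 1)) (S := S)
      (by omega) (by omega)
    rw [add_zero] at h
    rw [h]
    constructor
    · rintro (h1 | h1)
      · omega
      · exact h1.1
    · intro h1
      exact Or.inr ⟨h1, by omega⟩
  · funext j
    have hj := j.2
    by_cases hji : j = i
    · subst hji
      rw [Function.update_self]
      refine maya_ext fun y => ?_
      rw [mem_down]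
      unfold mf
      rw [mem_mi, mem_mi, mem_mvT (by omega) (by omega), mem_mvT (by omega) (by omega)]
      by_cases h1 : (2 * m + 1) * y.toNat + (j + 1) ∈ S <;>
        by_cases h2 : (2 * m + 1) * (-1 - y).toNat + (2 * m + 1 - (j + 1)) ∈ S <;>
          simp only [h1, h2, true_and, false_and, and_true, and_false, not_true, not_false_iff, or_false, false_or, iff_true, iff_false, true_iff, false_iff, not_or, not_and, not_lt, not_le, not_not] <;> omega
    · rw [Function.update_of_ne hji]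
      have hne : (j : ℕ) ≠ i := fun h => hji (Fin.ext h)
      refine maya_ext fun y => ?_
      unfold mf
      rw [mem_mi, mem_mi, mem_mvT (by omega) (by omega), mem_mvT (by omega) (by omega)]
      by_cases h1 : (2 * m + 1) * y.toNat + (j + 1) ∈ S <;>
        by_cases h2 : (2 * m + 1) * (-1 - y).toNat + (2 * m + 1 - (j + 1)) ∈ S <;>
          simp only [h1, h2, true_and, false_and, and_true, and_false, not_true, not_false_iff, or_false, false_or, iff_true, iff_false, true_iff, false_iff, not_or, not_and, not_lt, not_le, not_not] <;> omega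

/-- the quotient after a move, third kind -/
private theorem quo_zero {m : ℕ} (S : Finset ℕ) (i : Fin m)
    (h1 : (i : ℕ) + 1 ∈ S) (h2 : 2 * m + 1 - (i + 1) ∈ S) :
    r0 m ((S.erase (2 * m + 1 - (i + 1))).erase (i + 1)) = r0 m S ∧
    mf m ((S.erase (2 * m + 1 - (i + 1))).erase (i + 1)) =
      Function.update (mf m S) i ((mf m S i).down 0) := by
  have hi := i.2
  constructor
  · ext t
    rw [mem_r0, mem_r0]
    have h := mem_mv0 (m := m) (q := t) (r := 0) (R := i + 1) (S := S) (by omega) (by omega) (by omega)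
    rw [add_zero] at h
    rw [h]
    constructor
    · rintro h1
      exact h1.1
    · intro h1
      exact ⟨h1, by omega, by omega⟩
  · have h1' : (2 * m + 1) * 0 + ((i : ℕ) + 1) ∈ S := by
      rw [mul_zero, zero_add]
      exact h1
    have h2' : (2 * m + 1) * 0 + (2 * m + 1 - ((i : ℕ) + 1)) ∈ S := by
      rw [mul_zero, zero_add]
      exact h2
    funext j
    have hj := j.2
    by_cases hji : j = i
    · subst hji
      rw [Function.update_self]
      refine maya_ext fun y => ?_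
      rw [mem_down]
      unfold mf
      rw [mem_mi, mem_mi, mem_mv0 (by omega) (by omega) (by omega), mem_mv0 (by omega) (by omega) (by omega)]
      by_cases hy : y = 0
      · subst hy
        constructor
        · rintro (⟨_, _, h, _⟩ | ⟨h, _⟩)
          · exact absurd ⟨rfl, rfl⟩ h
          · exact absurd h (lt_irrefl _)
        · rintro (⟨_, h⟩ | h)
          · exact absurd rfl h
          · omega
      · by_cases hy1 : y = -1
        · subst hy1
          constructor
          · intro _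
            exact Or.inr (by norm_num)
          · intro _
            exact Or.inr ⟨by norm_num, fun h => h.2.2 ⟨rfl, rfl⟩⟩
        · by_cases h3 : (2 * m + 1) * y.toNat + (j + 1) ∈ S <;>
            by_cases h4 : (2 * m + 1) * (-1 - y).toNat + (2 * m + 1 - (j + 1)) ∈ S <;>
              simp only [h3, h4, true_and, false_and, and_true, and_false, not_true, not_false_iff, or_false, false_or, iff_true, iff_false, true_iff, false_iff, not_or, not_and, not_lt, not_le, not_not] <;> omega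
    · rw [Function.update_of_ne hji]
      have hne : (j : ℕ) ≠ i := fun h => hji (Fin.ext h)
      refine maya_ext fun y => ?_
      unfold mf
      rw [mem_mi, mem_mi, mem_mv0 (by omega) (by omega) (by omega), mem_mv0 (by omega) (by omega) (by omega)]
      by_cases h3 : (2 * m + 1) * y.toNat + (j + 1) ∈ S <;>
        by_cases h4 : (2 * m + 1) * (-1 - y).toNat + (2 * m + 1 - (j + 1)) ∈ S <;>
          simp only [h3, h4, true_and, false_and, and_true, and_false, not_true, not_false_iff, or_false, false_or, iff_true, iff_false, true_iff, false_iff, not_or, not_and, not_lt, not_le, not_not] <;> omega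

/-- the quotient after the removal of a part divisible by `p` -/
private theorem quo_div {m : ℕ} (S : Finset ℕ) (hS : 0 ∉ S) {t : ℕ} (ht : 2 ≤ t) :
    r0 m (insert ((2 * m + 1) * (t - 1)) (S.erase ((2 * m + 1) * t))) = sdown (r0 m S) t ∧
    mf m (insert ((2 * m + 1) * (t - 1)) (S.erase ((2 * m + 1) * t))) = mf m S := by
  have h00 : 0 ∉ r0 m S := by
    rw [mem_r0, mul_zero]
    exact hS
  have key : ∀ q r : ℕ, r < 2 * m + 1 → ((2 * m + 1) * q + r ∈ insert ((2 * m + 1) * (t - 1)) (S.erase ((2 * m + 1) * t)) ↔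
      (q = t - 1 ∧ r = 0) ∨ ((2 * m + 1) * q + r ∈ S ∧ ¬ (q = t ∧ r = 0))) := by
    intro q r hr
    have h := mem_mvT (m := m) (q := q) (r := r) (X := t) (R := 0) (S := S) hr (by omega)
    rwa [add_zero, add_zero] at h
  constructor
  · ext u
    unfold sdown
    have h := key u 0 (by omega)
    rw [add_zero] at h
    rw [mem_r0, h, Finset.mem_erase, Finset.mem_insert, Finset.mem_erase]
    by_cases hu : (2 * m + 1) * u ∈ S
    · have hu' : u ∈ r0 m S := mem_r0.2 hu
      have hu0 : u ≠ 0 := fun h0 => h00 (h0 ▸ hu')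
      simp only [hu, hu', true_and, and_true]
      omega
    · have hu' : u ∉ r0 m S := fun h0 => hu (mem_r0.1 h0)
      simp only [hu, hu', false_and, and_false, and_true, or_false]
      omega
  · funext j
    have hj := j.2
    refine maya_ext fun y => ?_
    unfold mf
    rw [mem_mi, mem_mi, key _ _ (by omega), key _ _ (by omega)]
    by_cases h1 : (2 * m + 1) * y.toNat + (j + 1) ∈ S <;>
      by_cases h2 : (2 * m + 1) * (-1 - y).toNat + (2 * m + 1 - (j + 1)) ∈ S <;>
        simp only [h1, h2, true_and, false_and, and_true, and_false, not_true, not_false_iff, or_false, false_or, iff_true, iff_false, true_iff, false_iff, not_or, not_and, not_lt, not_le, not_not] <;> omega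

private theorem quo_p {m : ℕ} (S : Finset ℕ) (hS : 0 ∉ S) :
    r0 m (S.erase (2 * m + 1)) = sdown (r0 m S) 1 ∧ mf m (S.erase (2 * m + 1)) = mf m S := by
  have h00 : 0 ∉ r0 m S := by
    rw [mem_r0, mul_zero]
    exact hS
  have key : ∀ q r : ℕ, r < 2 * m + 1 → ((2 * m + 1) * q + r ∈ S.erase (2 * m + 1) ↔
      ((2 * m + 1) * q + r ∈ S ∧ ¬ (q = 1 ∧ r = 0))) := by
    intro q r hr
    have h := euc (q := q) (q' := 1) hr (show 0 < 2 * m + 1 by omega)
    rw [mul_one, add_zero] at h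
    rw [Finset.mem_erase, ne_eq, h]
    tauto
  constructor
  · ext u
    unfold sdown
    have h := key u 0 (by omega)
    rw [add_zero] at h
    rw [mem_r0, h, Finset.mem_erase, Finset.mem_insert, Finset.mem_erase]
    by_cases hu : (2 * m + 1) * u ∈ S
    · have hu' : u ∈ r0 m S := mem_r0.2 hu
      have hu0 : u ≠ 0 := fun h0 => h00 (h0 ▸ hu')
      simp only [hu, hu', true_and, and_true]
      omega
    · have hu' : u ∉ r0 m S := fun h0 => hu (mem_r0.1 h0)
      simp only [hu, hu', false_and, and_false, or_false, false_iff, not_and]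
      omega
  · funext j
    have hj := j.2
    refine maya_ext fun y => ?_
    unfold mf
    rw [mem_mi, mem_mi, key _ _ (by omega), key _ _ (by omega)]
    by_cases h1 : (2 * m + 1) * y.toNat + (j + 1) ∈ S <;>
      by_cases h2 : (2 * m + 1) * (-1 - y).toNat + (2 * m + 1 - (j + 1)) ∈ S <;>
        simp only [h1, h2, true_and, false_and, and_true, and_false, not_true, not_false_iff, or_false, false_or, iff_true, iff_false, true_iff, false_iff, not_or, not_and, not_lt, not_le, not_not] <;> omega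

private theorem moves_finite (M : Maya) : {x : ℤ | x ∈ M.s ∧ x - 1 ∉ M.s}.Finite := by
  obtain ⟨N, hN⟩ := M.low
  obtain ⟨K, hK⟩ := M.high
  refine (Set.finite_Ico N K).subset fun x hx => ⟨?_, ?_⟩
  · by_contra h
    exact hx.2 (hN _ (by omega))
  · by_contra h
    exact hK _ (not_lt.1 h) hx.1

private theorem mv_pos {m : ℕ} {S : Finset ℕ} {i : Fin m} {x : ℤ} (hx : 0 < x) :
    (x ∈ (mf m S i).s ∧ x - 1 ∉ (mf m S i).s) ↔
      (2 * m + 1) * x.toNat + (i + 1) ∈ S ∧ (2 * m + 1) * (x.toNat - 1) + (i + 1) ∉ S := by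
  unfold mf
  rw [mem_mi, mem_mi]
  have e : (x - 1).toNat = x.toNat - 1 := by omega
  rw [e]
  constructor
  · rintro ⟨h1 | h1, h2⟩
    · exact ⟨h1.2, fun h => h2 (Or.inl ⟨by omega, h⟩)⟩
    · omega
  · rintro ⟨h1, h2⟩
    refine ⟨Or.inl ⟨hx.le, h1⟩, ?_⟩
    rintro (h3 | h3)
    · exact h2 h3.2
    · omega

private theorem mv_neg {m : ℕ} {S : Finset ℕ} {i : Fin m} {x : ℤ} (hx : x < 0) :
    (x ∈ (mf m S i).s ∧ x - 1 ∉ (mf m S i).s) ↔
      (2 * m + 1) * (-x).toNat + (2 * m + 1 - (i + 1)) ∈ S ∧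
        (2 * m + 1) * ((-x).toNat - 1) + (2 * m + 1 - (i + 1)) ∉ S := by
  unfold mf
  rw [mem_mi, mem_mi]
  have e1 : (-1 - x).toNat = (-x).toNat - 1 := by omega
  have e2 : (-1 - (x - 1)).toNat = (-x).toNat := by omega
  rw [e1, e2]
  constructor
  · rintro ⟨h1 | h1, h2⟩
    · omega
    · refine ⟨?_, h1.2⟩
      by_contra h
      exact h2 (Or.inr ⟨by omega, h⟩)
  · rintro ⟨h1, h2⟩
    refine ⟨Or.inr ⟨hx, h2⟩, ?_⟩
    rintro (h3 | h3)
    · omega
    · exact h3.2 h1

private theorem mv_zero {m : ℕ} {S : Finset ℕ} {i : Fin m} :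
    ((0 : ℤ) ∈ (mf m S i).s ∧ (0 : ℤ) - 1 ∉ (mf m S i).s) ↔
      (i : ℕ) + 1 ∈ S ∧ 2 * m + 1 - (i + 1) ∈ S := by
  unfold mf
  rw [mem_mi, mem_mi]
  have e1 : (-1 - ((0 : ℤ) - 1)).toNat = 0 := rfl
  have e2 : (0 : ℤ).toNat = 0 := rfl
  rw [e1, e2, mul_zero, zero_add, zero_add]
  constructor
  · rintro ⟨h1 | h1, h2⟩
    · refine ⟨h1.2, ?_⟩
      by_contra h
      exact h2 (Or.inr ⟨by norm_num, h⟩)
    · exact absurd h1.1 (lt_irrefl _)
  · rintro ⟨h1, h2⟩
    refine ⟨Or.inl ⟨le_refl _, h1⟩, ?_⟩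
    rintro (h3 | h3)
    · exact absurd h3.1 (by norm_num)
    · exact h3.2 h2

/-- the part `a` for the move of the bead `x` of the runner `i` -/
private def dec (m i : ℕ) (x : ℤ) : ℕ :=
  if 0 < x then (2 * m + 1) * x.toNat + (i + 1) else (2 * m + 1) * (-x).toNat + (2 * m + 1 - (i + 1))

private def setA (m : ℕ) (S : Finset ℕ) : Finset ℕ :=
  S.filter fun a => 2 * m + 1 ≤ a ∧ a % (2 * m + 1) ≠ 0 ∧ a - (2 * m + 1) ∉ S

private def setB (m : ℕ) (S : Finset ℕ) : Finset ℕ :=
  S.filter fun a => a < 2 * m + 1 ∧ 2 * m + 1 < 2 * a ∧ 2 * m + 1 - a ∈ S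

private theorem dec_mem {m : ℕ} {S : Finset ℕ} {i : Fin m} {x : ℤ}
    (h : x ∈ (mf m S i).s ∧ x - 1 ∉ (mf m S i).s) :
    (x ≠ 0 ∧ dec m i x ∈ setA m S) ∨ (x = 0 ∧ dec m i x ∈ setB m S) := by
  have hi := i.2
  rcases lt_trichotomy x 0 with hx | hx | hx
  · obtain ⟨h1, h2⟩ := (mv_neg hx).1 h
    refine Or.inl ⟨hx.ne, ?_⟩
    unfold dec setA
    rw [if_neg (by omega), Finset.mem_filter]
    obtain ⟨Y, hY⟩ : ∃ Y, (-x).toNat = Y + 1 := ⟨(-x).toNat - 1, by omega⟩
    rw [hY] at h1 h2 ⊢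
    rw [Nat.add_sub_cancel] at h2
    have e : (2 * m + 1) * (Y + 1) + (2 * m + 1 - (i + 1)) - (2 * m + 1) =
        (2 * m + 1) * Y + (2 * m + 1 - (i + 1)) := by
      rw [Nat.mul_succ]
      omega
    refine ⟨h1, ?_, ?_, ?_⟩
    · rw [Nat.mul_succ]
      omega
    · rw [Nat.mul_add_mod, Nat.mod_eq_of_lt (by omega)]
      omega
    · rw [e]
      exact h2
  · subst hx
    obtain ⟨h1, h2⟩ := mv_zero.1 h
    refine Or.inr ⟨rfl, ?_⟩
    unfold dec setB
    rw [if_neg (lt_irrefl _), Finset.mem_filter]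
    have e : (-(0 : ℤ)).toNat = 0 := rfl
    rw [e, mul_zero, zero_add]
    refine ⟨h2, by omega, by omega, ?_⟩
    have e2 : 2 * m + 1 - (2 * m + 1 - ((i : ℕ) + 1)) = i + 1 := by omega
    rw [e2]
    exact h1
  · obtain ⟨h1, h2⟩ := (mv_pos hx).1 h
    refine Or.inl ⟨hx.ne', ?_⟩
    unfold dec setA
    rw [if_pos hx, Finset.mem_filter]
    obtain ⟨Y, hY⟩ : ∃ Y, x.toNat = Y + 1 := ⟨x.toNat - 1, by omega⟩
    rw [hY] at h1 h2 ⊢
    rw [Nat.add_sub_cancel] at h2
    have e : (2 * m + 1) * (Y + 1) + ((i : ℕ) + 1) - (2 * m + 1) = (2 * m + 1) * Y + (i + 1) := by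
      rw [Nat.mul_succ]
      omega
    refine ⟨h1, ?_, ?_, ?_⟩
    · rw [Nat.mul_succ]
      omega
    · rw [Nat.mul_add_mod, Nat.mod_eq_of_lt (by omega)]
      omega
    · rw [e]
      exact h2

private theorem dec_inj {m : ℕ} {i i' : Fin m} {x x' : ℤ} (h : dec m i x = dec m i' x') : i = i' ∧ x = x' := by
  have hi := i.2
  have hi' := i'.2
  unfold dec at h
  by_cases hx : 0 < x
  · by_cases hx' : 0 < x'
    · rw [if_pos hx, if_pos hx', euc (by omega) (by omega)] at h
      exact ⟨Fin.ext (by omega), by omega⟩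
    · rw [if_pos hx, if_neg hx', euc (by omega) (by omega)] at h
      omega
  · by_cases hx' : 0 < x'
    · rw [if_neg hx, if_pos hx', euc (by omega) (by omega)] at h
      omega
    · rw [if_neg hx, if_neg hx', euc (by omega) (by omega)] at h
      exact ⟨Fin.ext (by omega), by omega⟩

private theorem dec_surj_A {m : ℕ} {S : Finset ℕ} {a : ℕ} (ha : a ∈ setA m S) :
    ∃ (i : Fin m) (x : ℤ), (x ∈ (mf m S i).s ∧ x - 1 ∉ (mf m S i).s) ∧ dec m i x = a := by
  unfold setA at ha
  rw [Finset.mem_filter] at ha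
  obtain ⟨haS, hpa, hr0, hns⟩ := ha
  obtain ⟨q, hq⟩ : ∃ q, q = a / (2 * m + 1) := ⟨_, rfl⟩
  obtain ⟨r, hr⟩ : ∃ r, r = a % (2 * m + 1) := ⟨_, rfl⟩
  have hrlt : r < 2 * m + 1 := by
    rw [hr]
    exact Nat.mod_lt _ (by omega)
  have hdiv : (2 * m + 1) * q + r = a := by
    rw [hq, hr]
    exact Nat.div_add_mod a (2 * m + 1)
  have hq1 : 1 ≤ q := by
    by_contra hcon
    have hq0 : q = 0 := by omega
    rw [hq0, mul_zero, zero_add] at hdiv
    omega
  obtain ⟨Y, rfl⟩ : ∃ Y, q = Y + 1 := ⟨q - 1, by omega⟩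
  have e : a - (2 * m + 1) = (2 * m + 1) * Y + r := by
    rw [← hdiv, Nat.mul_succ]
    omega
  rw [e] at hns
  rw [← hr] at hr0
  by_cases hrm : r ≤ m
  · refine ⟨⟨r - 1, by omega⟩, ((Y + 1 : ℕ) : ℤ), ?_, ?_⟩
    · rw [mv_pos (by omega), Int.toNat_natCast]
      have e1 : r - 1 + 1 = r := by omega
      simp only [e1, Nat.add_sub_cancel, hdiv]
      exact ⟨haS, hns⟩
    · unfold dec
      rw [if_pos (by omega), Int.toNat_natCast]
      have e1 : r - 1 + 1 = r := by omega
      simp only [e1, hdiv]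
  · have e1 : 2 * m + 1 - (2 * m + 1 - r - 1 + 1) = r := by omega
    have e2 : (-(-((Y + 1 : ℕ) : ℤ))).toNat = Y + 1 := by omega
    refine ⟨⟨2 * m + 1 - r - 1, by omega⟩, -((Y + 1 : ℕ) : ℤ), ?_, ?_⟩
    · rw [mv_neg (by omega), e2]
      simp only [e1, Nat.add_sub_cancel, hdiv]
      exact ⟨haS, hns⟩
    · unfold dec
      rw [if_neg (by omega), e2]
      simp only [e1, hdiv]

private theorem dec_surj_B {m : ℕ} {S : Finset ℕ} {a : ℕ} (ha : a ∈ setB m S) :
    ∃ (i : Fin m) (x : ℤ), (x ∈ (mf m S i).s ∧ x - 1 ∉ (mf m S i).s) ∧ dec m i x = a := by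
  unfold setB at ha
  rw [Finset.mem_filter] at ha
  obtain ⟨haS, h1, h2, h3⟩ := ha
  have e1 : 2 * m + 1 - (2 * m + 1 - a - 1 + 1) = a := by omega
  have e2 : 2 * m + 1 - a - 1 + 1 = 2 * m + 1 - a := by omega
  refine ⟨⟨2 * m + 1 - a - 1, by omega⟩, 0, ?_, ?_⟩
  · have e3 : 2 * m + 1 - (2 * m + 1 - a) = a := by omega
    rw [mv_zero]
    simp only [e2, e3]
    exact ⟨h3, haS⟩
  · unfold dec
    have e : (-(0 : ℤ)).toNat = 0 := rfl
    rw [if_neg (lt_irrefl _), e, mul_zero, zero_add]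
    simp only [e1]

private theorem dec_val {R : Type} {m : ℕ} (H : Finset ℕ → (Fin m → Maya) → R) {S : Finset ℕ} {i : Fin m} {x : ℤ}
    (h : x ∈ (mf m S i).s ∧ x - 1 ∉ (mf m S i).s) :
    H (r0 m S) (Function.update (mf m S) i ((mf m S i).down x)) =
      if 2 * m + 1 ≤ dec m i x then
        H (r0 m (insert (dec m i x - (2 * m + 1)) (S.erase (dec m i x))))
          (mf m (insert (dec m i x - (2 * m + 1)) (S.erase (dec m i x))))
      else H (r0 m ((S.erase (dec m i x)).erase (2 * m + 1 - dec m i x)))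
          (mf m ((S.erase (dec m i x)).erase (2 * m + 1 - dec m i x))) := by
  have hi := i.2
  rcases lt_trichotomy x 0 with hx | hx | hx
  · have e0 : dec m i x = (2 * m + 1) * (-x).toNat + (2 * m + 1 - (i + 1)) := by
      unfold dec
      rw [if_neg (by omega)]
    obtain ⟨Y, hY⟩ : ∃ Y, (-x).toNat = Y + 1 := ⟨(-x).toNat - 1, by omega⟩
    have e1 : dec m i x - (2 * m + 1) = (2 * m + 1) * ((-x).toNat - 1) + (2 * m + 1 - (i + 1)) := by
      rw [e0, hY, Nat.mul_succ, Nat.add_sub_cancel]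
      omega
    have e2 : 2 * m + 1 ≤ dec m i x := by
      rw [e0, hY, Nat.mul_succ]
      omega
    rw [if_pos e2, e1, e0, (quo_neg S i hx).1, (quo_neg S i hx).2]
  · subst hx
    obtain ⟨h1, h2⟩ := mv_zero.1 h
    have e0 : dec m i 0 = 2 * m + 1 - (i + 1) := by
      unfold dec
      have e : (-(0 : ℤ)).toNat = 0 := rfl
      rw [if_neg (lt_irrefl _), e, mul_zero, zero_add]
    have e1 : 2 * m + 1 - dec m i 0 = i + 1 := by
      rw [e0]
      omega
    have e2 : ¬ 2 * m + 1 ≤ dec m i 0 := by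
      rw [e0]
      omega
    rw [if_neg e2, e1, e0, (quo_zero S i h1 h2).1, (quo_zero S i h1 h2).2]
  · have e0 : dec m i x = (2 * m + 1) * x.toNat + (i + 1) := by
      unfold dec
      rw [if_pos hx]
    obtain ⟨Y, hY⟩ : ∃ Y, x.toNat = Y + 1 := ⟨x.toNat - 1, by omega⟩
    have e1 : dec m i x - (2 * m + 1) = (2 * m + 1) * (x.toNat - 1) + (i + 1) := by
      rw [e0, hY, Nat.mul_succ, Nat.add_sub_cancel]
      omega
    have e2 : 2 * m + 1 ≤ dec m i x := by
      rw [e0, hY, Nat.mul_succ]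
      omega
    rw [if_pos e2, e1, e0, (quo_pos S i hx).1, (quo_pos S i hx).2]

/-- the sum over the parts divisible by `p` -/
private theorem sum_div {R : Type} [CommRing R] (m : ℕ) (H : Finset ℕ → (Fin m → Maya) → R) (S : Finset ℕ)
    (hS : 0 ∉ S) :
    ∑ a ∈ (S.filter (fun a => 2 * m + 1 ≤ a)).filter (fun a => a % (2 * m + 1) = 0),
      (if a = 2 * m + 1 then H (r0 m (S.erase a)) (mf m (S.erase a))
        else if a - (2 * m + 1) ∈ S then 0
        else H (r0 m (insert (a - (2 * m + 1)) (S.erase a))) (mf m (insert (a - (2 * m + 1)) (S.erase a)))) =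
    ∑ t ∈ (r0 m S).filter (fun t => t - 1 ∉ r0 m S), H (sdown (r0 m S) t) (mf m S) := by
  classical
  have h00 : 0 ∉ r0 m S := by
    rw [mem_r0, mul_zero]
    exact hS
  have h1 : (S.filter (fun a => 2 * m + 1 ≤ a)).filter (fun a => a % (2 * m + 1) = 0) =
      (r0 m S).image (fun t => (2 * m + 1) * t) := by
    ext a
    rw [Finset.mem_filter, Finset.mem_filter, Finset.mem_image]
    constructor
    · rintro ⟨⟨h1, _⟩, h3⟩
      have h := Nat.div_add_mod a (2 * m + 1)
      rw [h3, add_zero] at h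
      refine ⟨a / (2 * m + 1), ?_, h⟩
      rw [mem_r0, h]
      exact h1
    · rintro ⟨t, ht, rfl⟩
      have ht0 : t ≠ 0 := fun h0 => h00 (h0 ▸ ht)
      exact ⟨⟨mem_r0.1 ht, Nat.le_mul_of_pos_right _ (by omega)⟩, Nat.mul_mod_right _ _⟩
  rw [h1, Finset.sum_image, Finset.sum_filter]
  · refine Finset.sum_congr rfl fun t ht => ?_
    have ht0 : t ≠ 0 := fun h0 => h00 (h0 ▸ ht)
    by_cases ht1 : t = 1
    · subst ht1
      rw [mul_one, if_pos rfl, if_pos h00, (quo_p S hS).1, (quo_p S hS).2]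
    · have ht2 : 2 ≤ t := by omega
      obtain ⟨Y, rfl⟩ : ∃ Y, t = Y + 1 := ⟨t - 1, by omega⟩
      have e : (2 * m + 1) * (Y + 1) - (2 * m + 1) = (2 * m + 1) * Y := by
        rw [Nat.mul_succ]
        omega
      have hne : ¬ (2 * m + 1) * (Y + 1) = 2 * m + 1 := by
        intro h
        have h2 : (2 * m + 1) * (Y + 1) = (2 * m + 1) * 1 := by rw [h, mul_one]
        have h3 := Nat.eq_of_mul_eq_mul_left (by omega) h2
        omega
      have hq := quo_div (m := m) S hS ht2
      rw [Nat.add_sub_cancel] at hq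
      rw [if_neg hne, e, Nat.add_sub_cancel, hq.1, hq.2]
      by_cases hY : (2 * m + 1) * Y ∈ S
      · rw [if_pos hY, if_neg (not_not.2 (mem_r0.2 hY))]
      · rw [if_neg hY, if_pos (fun h => hY (mem_r0.1 h))]
  · intro t _ t' _ h
    exact Nat.eq_of_mul_eq_mul_left (by omega) h

theorem Dm_eq (R : Type) [CommRing R] (m : ℕ) (H : Finset ℕ → (Fin m → Maya) → R) (S : Finset ℕ)
    (hS : 0 ∉ S) :
    Dm m (fun T => H (r0 m T) (mf m T)) S =
      (∑ t ∈ (r0 m S).filter (fun t => t - 1 ∉ r0 m S), H (sdown (r0 m S) t) (mf m S)) +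
      ∑ i : Fin m, ∑ᶠ x ∈ {x : ℤ | x ∈ (mf m S i).s ∧ x - 1 ∉ (mf m S i).s},
        H (r0 m S) (Function.update (mf m S) i ((mf m S i).down x)) := by
  classical
  unfold Dm
  rw [← Finset.sum_filter_add_sum_filter_not (S.filter (fun a => 2 * m + 1 ≤ a)) (fun a => a % (2 * m + 1) = 0),
    sum_div m H S hS, add_assoc]
  congr 1
  -- the parts not divisible by `p`
  have hA : ∑ a ∈ (S.filter (fun a => 2 * m + 1 ≤ a)).filter (fun a => ¬ a % (2 * m + 1) = 0),
      (if a = 2 * m + 1 then H (r0 m (S.erase a)) (mf m (S.erase a))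
        else if a - (2 * m + 1) ∈ S then 0
        else H (r0 m (insert (a - (2 * m + 1)) (S.erase a))) (mf m (insert (a - (2 * m + 1)) (S.erase a)))) =
      ∑ a ∈ setA m S, H (r0 m (insert (a - (2 * m + 1)) (S.erase a)))
        (mf m (insert (a - (2 * m + 1)) (S.erase a))) := by
    unfold setA
    rw [Finset.filter_filter, Finset.sum_filter, Finset.sum_filter]
    refine Finset.sum_congr rfl fun a _ => ?_
    by_cases h1 : 2 * m + 1 ≤ a
    · by_cases h2 : a % (2 * m + 1) = 0
      · rw [if_neg (fun h => h.2 h2), if_neg (fun h => h.2.1 h2)]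
      · have h3 : ¬ a = 2 * m + 1 := by
          intro h
          apply h2
          rw [h, Nat.mod_self]
        rw [if_pos ⟨h1, h2⟩, if_neg h3]
        by_cases h4 : a - (2 * m + 1) ∈ S
        · rw [if_pos h4, if_neg (fun h => h.2.2 h4)]
        · rw [if_neg h4, if_pos ⟨h1, h2, h4⟩]
    · rw [if_neg (fun h => h1 h.1), if_neg (fun h => h1 h.1)]
  set FJ : ℕ → R := fun a => if 2 * m + 1 ≤ a then
      H (r0 m (insert (a - (2 * m + 1)) (S.erase a))) (mf m (insert (a - (2 * m + 1)) (S.erase a)))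
    else H (r0 m ((S.erase a).erase (2 * m + 1 - a))) (mf m ((S.erase a).erase (2 * m + 1 - a))) with hFJ
  have hA2 : ∑ a ∈ setA m S, H (r0 m (insert (a - (2 * m + 1)) (S.erase a)))
        (mf m (insert (a - (2 * m + 1)) (S.erase a))) = ∑ a ∈ setA m S, FJ a := by
    refine Finset.sum_congr rfl fun a ha => ?_
    have h1 := (Finset.mem_filter.1 ha).2.1
    simp only [hFJ]
    rw [if_pos h1]
  have hB2 : ∑ a ∈ S.filter (fun a => a < 2 * m + 1 ∧ 2 * m + 1 < 2 * a ∧ 2 * m + 1 - a ∈ S),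
      H (r0 m ((S.erase a).erase (2 * m + 1 - a))) (mf m ((S.erase a).erase (2 * m + 1 - a))) =
      ∑ a ∈ setB m S, FJ a := by
    refine Finset.sum_congr rfl fun a ha => ?_
    have h1 := (Finset.mem_filter.1 ha).2.1
    simp only [hFJ]
    rw [if_neg (by omega)]
  have hdisj : Disjoint (setA m S) (setB m S) := by
    rw [Finset.disjoint_left]
    intro a ha hb
    have h1 := (Finset.mem_filter.1 ha).2.1
    have h2 := (Finset.mem_filter.1 hb).2.1
    omega
  rw [hA, hA2, hB2, ← Finset.sum_union hdisj]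
  have hX : ∀ i : Fin m, ∑ᶠ x ∈ {x : ℤ | x ∈ (mf m S i).s ∧ x - 1 ∉ (mf m S i).s},
      H (r0 m S) (Function.update (mf m S) i ((mf m S i).down x)) =
      ∑ x ∈ (moves_finite (mf m S i)).toFinset, H (r0 m S) (Function.update (mf m S) i ((mf m S i).down x)) :=
    fun i => finsum_mem_eq_finite_toFinset_sum _ _
  rw [Finset.sum_congr rfl fun i _ => hX i, Finset.sum_sigma']
  symm
  refine Finset.sum_bij (fun s _ => dec m s.1 s.2) ?_ ?_ ?_ ?_
  · intro s hs
    have h1 := (Set.Finite.mem_toFinset _).1 (Finset.mem_sigma.1 hs).2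
    rcases dec_mem h1 with h2 | h2
    · exact Finset.mem_union_left _ h2.2
    · exact Finset.mem_union_right _ h2.2
  · rintro ⟨i, x⟩ _ ⟨i', x'⟩ _ h
    obtain ⟨h1, h2⟩ := dec_inj h
    subst h1 h2
    rfl
  · intro a ha
    rcases Finset.mem_union.1 ha with h | h
    · obtain ⟨i, x, h1, h2⟩ := dec_surj_A h
      exact ⟨⟨i, x⟩, Finset.mem_sigma.2 ⟨Finset.mem_univ _, (Set.Finite.mem_toFinset _).2 h1⟩, h2⟩
    · obtain ⟨i, x, h1, h2⟩ := dec_surj_B h
      exact ⟨⟨i, x⟩, Finset.mem_sigma.2 ⟨Finset.mem_univ _, (Set.Finite.mem_toFinset _).2 h1⟩, h2⟩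
  · intro s hs
    have h1 := (Set.Finite.mem_toFinset _).1 (Finset.mem_sigma.1 hs).2
    simp only [hFJ]
    exact dec_val H h1

private theorem mem_mf_nat {m : ℕ} {S : Finset ℕ} {i : Fin m} (q : ℕ) :
    (q : ℤ) ∈ (mf m S i).s ↔ (2 * m + 1) * q + (i + 1) ∈ S := by
  unfold mf
  rw [mem_mi, Int.toNat_natCast]
  constructor
  · rintro (h | h)
    · exact h.2
    · omega
  · intro h
    exact Or.inl ⟨by omega, h⟩

private theorem mem_mf_neg {m : ℕ} {S : Finset ℕ} {i : Fin m} (q : ℕ) :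
    (-1 - (q : ℤ)) ∈ (mf m S i).s ↔ (2 * m + 1) * q + (2 * m + 1 - (i + 1)) ∉ S := by
  unfold mf
  rw [mem_mi]
  have e : (-1 - (-1 - (q : ℤ))).toNat = q := by omega
  rw [e]
  constructor
  · rintro (h | h)
    · omega
    · exact h.2
  · intro h
    exact Or.inr ⟨by omega, h⟩

/-- `S` is determined by the quotient -/
theorem mf_injective (m : ℕ) (S S' : Finset ℕ) (hS : 0 ∉ S) (hS' : 0 ∉ S')
    (h0 : r0 m S = r0 m S') (h1 : mf m S = mf m S') : S = S' := by
  have _ := hS
  have _ := hS'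
  ext n
  have hdiv := Nat.div_add_mod n (2 * m + 1)
  have hrlt : n % (2 * m + 1) < 2 * m + 1 := Nat.mod_lt _ (by omega)
  obtain ⟨q, hq⟩ : ∃ q, q = n / (2 * m + 1) := ⟨_, rfl⟩
  obtain ⟨r, hr⟩ : ∃ r, r = n % (2 * m + 1) := ⟨_, rfl⟩
  rw [← hq, ← hr] at hdiv
  rw [← hr] at hrlt
  rw [← hdiv]
  by_cases hr0 : r = 0
  · rw [hr0, add_zero, ← mem_r0, ← mem_r0, h0]
  · by_cases hrm : r ≤ m
    · have e1 : r - 1 + 1 = r := by omega
      have h2 := mem_mf_nat (S := S) (i := (⟨r - 1, by omega⟩ : Fin m)) q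
      have h3 := mem_mf_nat (S := S') (i := (⟨r - 1, by omega⟩ : Fin m)) q
      simp only [e1] at h2 h3
      rw [← h2, ← h3, h1]
    · have e1 : 2 * m + 1 - (2 * m + 1 - r - 1 + 1) = r := by omega
      have h2 := mem_mf_neg (S := S) (i := (⟨2 * m + 1 - r - 1, by omega⟩ : Fin m)) q
      have h3 := mem_mf_neg (S := S') (i := (⟨2 * m + 1 - r - 1, by omega⟩ : Fin m)) q
      simp only [e1] at h2 h3
      rw [← not_iff_not, ← h2, ← h3, h1]

/-- every pair (strict partition, family of Maya diagrams) is a quotient -/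
theorem mf_surjective (m : ℕ) (T : Finset ℕ) (hT : 0 ∉ T) (M : Fin m → Maya) :
    ∃ S : Finset ℕ, 0 ∉ S ∧ r0 m S = T ∧ mf m S = M := by
  classical
  let P : ℕ → ℕ → Prop := fun q r => (r = 0 ∧ q ∈ T) ∨ (∃ i : Fin m, r = i + 1 ∧ (q : ℤ) ∈ (M i).s) ∨
    (∃ i : Fin m, r = 2 * m + 1 - (i + 1) ∧ (-1 - (q : ℤ)) ∉ (M i).s)
  -- a bound
  have hb : ∃ N : ℕ, ∀ q r, P q r → q < N := by
    have h1 : ∀ i : Fin m, ∃ N : ℕ, ∀ q : ℕ, N ≤ q → (q : ℤ) ∉ (M i).s ∧ (-1 - (q : ℤ)) ∈ (M i).s := by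
      intro i
      obtain ⟨a, ha⟩ := (M i).high
      obtain ⟨b, hb⟩ := (M i).low
      refine ⟨max a.toNat (-b).toNat, fun q hq => ⟨ha _ ?_, hb _ ?_⟩⟩
      · have := le_trans (le_max_left _ _) hq
        omega
      · have := le_trans (le_max_right _ _) hq
        omega
    choose N hN using h1
    refine ⟨(T.sup id) + 1 + ∑ i, N i, ?_⟩
    rintro q r (⟨_, h⟩ | ⟨i, _, h⟩ | ⟨i, _, h⟩)
    · have h2 : q ≤ T.sup id := Finset.le_sup (f := id) h
      omega
    · by_contra hcon
      have h3 : N i ≤ ∑ i, N i := Finset.single_le_sum (f := N) (fun _ _ => Nat.zero_le _) (Finset.mem_univ i)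
      exact (hN i q (by omega)).1 h
    · by_contra hcon
      have h3 : N i ≤ ∑ i, N i := Finset.single_le_sum (f := N) (fun _ _ => Nat.zero_le _) (Finset.mem_univ i)
      exact h (hN i q (by omega)).2
  obtain ⟨N, hN⟩ := hb
  set S : Finset ℕ := (Finset.range ((2 * m + 1) * N)).filter
    (fun n => P (n / (2 * m + 1)) (n % (2 * m + 1))) with hSdef
  have hmem : ∀ q r : ℕ, r < 2 * m + 1 → ((2 * m + 1) * q + r ∈ S ↔ P q r) := by
    intro q r hr
    have h1 : ((2 * m + 1) * q + r) / (2 * m + 1) = q := by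
      rw [Nat.mul_add_div (by omega), Nat.div_eq_of_lt hr, add_zero]
    have h3 : ((2 * m + 1) * q + r) % (2 * m + 1) = r := by
      rw [Nat.mul_add_mod, Nat.mod_eq_of_lt hr]
    rw [hSdef, Finset.mem_filter, h1, h3, Finset.mem_range]
    constructor
    · exact fun h => h.2
    · intro h
      refine ⟨?_, h⟩
      have h4 := hN q r h
      calc (2 * m + 1) * q + r < (2 * m + 1) * q + (2 * m + 1) := by omega
        _ = (2 * m + 1) * (q + 1) := by rw [Nat.mul_succ]
        _ ≤ (2 * m + 1) * N := Nat.mul_le_mul_left _ h4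
  refine ⟨S, ?_, ?_, ?_⟩
  · have h := hmem 0 0 (by omega)
    rw [mul_zero, zero_add] at h
    rw [h]
    rintro (⟨_, h⟩ | ⟨i, h, _⟩ | ⟨i, h, _⟩)
    · exact hT h
    · omega
    · have := i.2
      omega
  · ext t
    have h := hmem t 0 (by omega)
    rw [add_zero] at h
    rw [mem_r0, h]
    constructor
    · rintro (⟨_, h⟩ | ⟨i, h, _⟩ | ⟨i, h, _⟩)
      · exact h
      · omega
      · have := i.2
        omega
    · exact fun h => Or.inl ⟨rfl, h⟩
  · funext i
    have hi := i.2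
    refine maya_ext fun y => ?_
    rcases le_or_gt 0 y with hy | hy
    · obtain ⟨q, rfl⟩ : ∃ q : ℕ, y = q := ⟨y.toNat, by omega⟩
      rw [mem_mf_nat, hmem q _ (by omega)]
      constructor
      · rintro (⟨h, _⟩ | ⟨j, h, hj⟩ | ⟨j, h, _⟩)
        · omega
        · have : i = j := Fin.ext (by omega)
          rw [this]
          exact hj
        · have := j.2
          omega
      · intro h
        exact Or.inr (Or.inl ⟨i, rfl, h⟩)
    · obtain ⟨q, rfl⟩ : ∃ q : ℕ, y = -1 - (q : ℤ) := ⟨(-1 - y).toNat, by omega⟩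
      rw [mem_mf_neg, hmem q _ (by omega)]
      constructor
      · intro h
        by_contra hcon
        exact h (Or.inr (Or.inr ⟨i, rfl, hcon⟩))
      · rintro h (⟨h1, _⟩ | ⟨j, h1, _⟩ | ⟨j, h1, hj⟩)
        · omega
        · have := j.2
          omega
        · have := j.2
          have hij : i = j := Fin.ext (by omega)
          rw [hij] at h
          exact hj h

end Pool.Agent.Helper81.AN
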