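import Pool.Agent.Helper81.AN.BarDefs
import Pool.Agent.Helper24.AN.MCharge
import Pool.Agent.Helper24.AN.MSize

/-!
# ALT-32: sizes and charges of the bar quotient

All formulas checked by computer. `p = 2 m + 1`, `M_i = mi m i S`, `c_i` its charge. (`Helper24/AN/MCharge.lean`: finiteness of beads and holes, `charge_cut`, `vac`, `shift`,
`size_shift`, `eq_vac_of_size`.)

PROOFS.
* `charge_mi`: beads `y ≥ 0` of `M_i` = elements of `S` in the class `i` (`y ↦ p y + i`), holes `y < 0` = elements in the class `p - i` (`y ↦ p (-1-y) + p - i`).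
* `energy`: for a Maya diagram `M` with charge `c` and integers `p`, `i`:
  `Σ_{y ≥ 0 bead} (p y + i) + Σ_{y < 0 hole} (p (-1-y) + p - i) = p (size M + c (c-1)/2) + i c`. It is enough (`charge = #beads - #holes`) that
  `Σ_{y ≥ 0 bead} y + Σ_{y < 0 hole} (-y) = size M + c (c - 1)/2 + #holes ...`; a clean way is induction over `size M`: if `size M = 0` then `M = vac c` (`eq_vac_of_size`): direct
  computation; otherwise there is a bead `x` with `x - 1` empty; moving it down decreases the size by one, keeps the charge, and decreases the left side by `p`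
  (three cases `x > 0`, `x < 0`, `x = 0`).
* `sum_eq`: split `S` by the residues modulo `p`: class `0` gives `p Σ r0`, the classes `i`, `p - i` give the energy of `M_i`.
* `card_eq`: `|S| = |r0| + Σ_i (rc i + rc (p-i))`, and `a + b = 2 min(a, b) + |a - b|`.
* `charges_small`: if `Σ S = p w + r`, `r < p`, `wtS m S = w` then `Σ_i (p c_i (c_i - 1)/2 + i c_i) = r < p`, all terms are nonnegative, and a term with `|c_i| ≥ 2` is `≥ p`: (`c ≥ 2`: `p c (c-1)/2 ≥ p`;
  `c = -d`, `d ≥ 2`: `p d (d+1)/2 - i d ≥ 3 p - 2 i ≥ p` and larger for larger `d`). So `c_i ∈ {0, 1, -1}`, terms `0`, `i`, `p - i`: hence `Σ coreS = r` (the union in `coreS` is disjoint: the first part is in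
  `[1, m]`, the second in `[m + 1, 2 m]`) and `Σ |c_i| = |coreS|`.
* `wt_le`: all terms `p c(c-1)/2 + i c` are `≥ 0` and `r < p`.
* `core_small`: for `0 ∉ T`, `Σ T = r < p`: `wtS m T = 0` and `coreS m T = T`: all parts are `< p` and `i`, `p - i` are not both in `T`. (From `sum_eq` `wtS = 0`; then `M_i` is the vacuum of charge `c_i`; `i ∈ T` iff
  bead at `0`; `p - i ∈ T` iff hole at `-1`; `r0 = ∅`.)
-/

set_option autoImplicit false

namespace Pool.Agent.Helper81.AN

open Pool.Agent.Helper24.AN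

private theorem bs_gauss (N : ℕ) : 2 * ∑ i : Fin N, ((i : ℕ) : ℤ) = (N : ℤ) * (N - 1) := by
  rw [Fin.sum_univ_eq_sum_range (fun i => (i : ℤ)) N]
  induction N with
  | zero => simp
  | succ N ih =>
    rw [Finset.sum_range_succ, mul_add, ih]
    push_cast
    ring

private theorem bs_neg (K : ℕ) : 2 * ∑ y ∈ Finset.Ico (-(K : ℤ)) 0, y = -((K : ℤ) * (K + 1)) := by
  induction K with
  | zero => simp
  | succ K ih =>
    have h1 : Finset.Ico (-((K + 1 : ℕ) : ℤ)) 0 = insert (-((K + 1 : ℕ) : ℤ)) (Finset.Ico (-(K : ℤ)) 0) := by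
      ext y
      simp only [Finset.mem_Ico, Finset.mem_insert]
      push_cast
      omega
    rw [h1, Finset.sum_insert (by simp), mul_add, ih]
    push_cast
    ring

/-- the energy of a Maya diagram -/
private theorem bs_energy (M : Maya) (B H : Finset ℤ) (hB : ∀ y, y ∈ B ↔ 0 ≤ y ∧ y ∈ M.s)
    (hH : ∀ y, y ∈ H ↔ y < 0 ∧ y ∉ M.s) :
    2 * (∑ y ∈ B, y - ∑ y ∈ H, y) =
      2 * (M.size : ℤ) + ((B.card : ℤ) - H.card) * ((B.card : ℤ) - H.card - 1) := by
  classical
  obtain ⟨N0, hN0⟩ := M.low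
  obtain ⟨K, hK⟩ : ∃ K : ℕ, ∀ x < -(K : ℤ), x ∈ M.s := ⟨(-N0).toNat, fun x hx => hN0 x (by omega)⟩
  have hHs : H ⊆ Finset.Ico (-(K : ℤ)) 0 := by
    intro y hy
    have h1 := (hH y).1 hy
    rw [Finset.mem_Ico]
    refine ⟨?_, h1.1⟩
    by_contra h2
    exact h1.2 (hK y (by omega))
  set B' : Finset ℤ := B ∪ (Finset.Ico (-(K : ℤ)) 0 \ H) with hB'
  have hdis : Disjoint B (Finset.Ico (-(K : ℤ)) 0 \ H) := by
    rw [Finset.disjoint_left]
    intro y hy hy'
    have h1 := ((hB y).1 hy).1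
    rw [Finset.mem_sdiff, Finset.mem_Ico] at hy'
    omega
  have hmem : ∀ y, y ∈ B' ↔ -(K : ℤ) ≤ y ∧ y ∈ M.s := by
    intro y
    rw [hB', Finset.mem_union, hB, Finset.mem_sdiff, Finset.mem_Ico, hH]
    constructor
    · rintro (h | ⟨h1, h2⟩)
      · exact ⟨by omega, h.2⟩
      · refine ⟨h1.1, ?_⟩
        by_contra h3
        exact h2 ⟨h1.2, h3⟩
    · rintro ⟨h1, h2⟩
      rcases lt_or_ge y 0 with h3 | h3
      · exact Or.inr ⟨⟨h1, h3⟩, fun h4 => h4.2 h2⟩
      · exact Or.inl ⟨h3, h2⟩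
  have hcard : (B'.card : ℤ) = B.card + K - H.card := by
    rw [hB', Finset.card_union_of_disjoint hdis, Finset.card_sdiff_of_subset hHs, Int.card_Ico]
    have h1 := Finset.card_le_card hHs
    rw [Int.card_Ico] at h1
    push_cast [Nat.cast_sub h1]
    have h2 : (((0 : ℤ) - (-(K : ℤ))).toNat : ℤ) = K := by
      rw [Int.toNat_of_nonneg (by omega)]
      ring
    omega
  have hsum : ∑ y ∈ B', y = ∑ y ∈ B, y + (∑ y ∈ Finset.Ico (-(K : ℤ)) 0, y - ∑ y ∈ H, y) := by
    rw [hB', Finset.sum_union hdis, ← Finset.sum_sdiff hHs]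
    ring
  let l : Fin B'.card → ℤ := fun i => (B'.equivFin.symm i : ℤ) + K
  have hinj : Function.Injective l := by
    intro a b hab
    apply B'.equivFin.symm.injective
    apply Subtype.ext
    have h1 : (B'.equivFin.symm a : ℤ) + K = (B'.equivFin.symm b : ℤ) + K := hab
    omega
  have h0 : ∀ i, 0 ≤ l i := by
    intro i
    have h1 := ((hmem _).1 (B'.equivFin.symm i).2).1
    change 0 ≤ (B'.equivFin.symm i : ℤ) + K
    omega
  have hM : mayaL (K : ℤ) l = M := by
    refine maya_ext fun x => ?_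
    change (x < -(K : ℤ) ∨ ∃ i, x + K = l i) ↔ x ∈ M.s
    constructor
    · rintro (h | ⟨i, hi⟩)
      · exact hK x h
      · have h1 := ((hmem _).1 (B'.equivFin.symm i).2).2
        have h2 : x + K = (B'.equivFin.symm i : ℤ) + K := hi
        have h3 : x = (B'.equivFin.symm i : ℤ) := by omega
        rw [h3]
        exact h1
    · intro h
      rcases lt_or_ge x (-(K : ℤ)) with h1 | h1
      · exact Or.inl h1
      · right
        refine ⟨B'.equivFin ⟨x, (hmem x).2 ⟨h1, h⟩⟩, ?_⟩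
        change x + K = (B'.equivFin.symm (B'.equivFin ⟨x, (hmem x).2 ⟨h1, h⟩⟩) : ℤ) + K
        rw [Equiv.symm_apply_apply]
  have hsz := size_mayaL (K : ℤ) l hinj h0
  rw [hM] at hsz
  have hl : ∑ i, l i = ∑ y ∈ B', y + B'.card * K := by
    change ∑ i, ((B'.equivFin.symm i : ℤ) + K) = _
    rw [Finset.sum_add_distrib, Finset.sum_const, Finset.card_univ, Fintype.card_fin, nsmul_eq_mul]
    congr 1
    rw [Equiv.sum_comp B'.equivFin.symm (fun y : B' => (y : ℤ))]
    exact Finset.sum_coe_sort B' (fun y => y)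
  rw [hl, hsum] at hsz
  have hg := bs_gauss B'.card
  have hn := bs_neg K
  rw [hcard] at hsz hg
  linarith [hsz, hg, hn]


/-- the elements of a residue class -/
private def sc (m : ℕ) (S : Finset ℕ) (j : ℕ) : Finset ℕ := S.filter (fun t => t % (2 * m + 1) = j)

private theorem mem_sc {m : ℕ} {S : Finset ℕ} {j t : ℕ} :
    t ∈ sc m S j ↔ t ∈ S ∧ t % (2 * m + 1) = j := by
  rw [sc, Finset.mem_filter]

private theorem card_sc (m : ℕ) (S : Finset ℕ) (j : ℕ) : (sc m S j).card = rc m S j := rfl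

private theorem sc_div {m : ℕ} {S : Finset ℕ} {j t : ℕ} (h : t ∈ sc m S j) :
    (2 * m + 1) * (t / (2 * m + 1)) + j = t := by
  have h1 := Nat.div_add_mod t (2 * m + 1)
  rw [(mem_sc.1 h).2] at h1
  exact h1

private theorem sc_mk {m : ℕ} {S : Finset ℕ} {j k : ℕ} (hj : j < 2 * m + 1)
    (h : (2 * m + 1) * k + j ∈ S) : (2 * m + 1) * k + j ∈ sc m S j ∧
      ((2 * m + 1) * k + j) / (2 * m + 1) = k := by
  refine ⟨mem_sc.2 ⟨h, ?_⟩, ?_⟩
  · rw [Nat.mul_add_mod, Nat.mod_eq_of_lt hj]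
  · rw [Nat.mul_add_div (by omega), Nat.div_eq_of_lt hj, add_zero]

private theorem sc_inj (m : ℕ) (S : Finset ℕ) (j : ℕ) :
    Set.InjOn (fun t : ℕ => t / (2 * m + 1)) (sc m S j : Set ℕ) := by
  intro a ha b hb hab
  have h1 := sc_div (Finset.mem_coe.1 ha)
  have h2 := sc_div (Finset.mem_coe.1 hb)
  simp only at hab
  rw [hab] at h1
  omega

/-- the beads and holes of the runners -/
private theorem bs_beads (m i : ℕ) (hi : i ∈ Finset.Icc 1 m) (S : Finset ℕ) :
    ∃ B H : Finset ℤ, (∀ y, y ∈ B ↔ 0 ≤ y ∧ y ∈ (mi m i S).s) ∧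
      (∀ y, y ∈ H ↔ y < 0 ∧ y ∉ (mi m i S).s) ∧
      B.card = rc m S i ∧ H.card = rc m S (2 * m + 1 - i) ∧
      (2 * m + 1) * ∑ y ∈ B, y = ∑ t ∈ sc m S i, (t : ℤ) - i * rc m S i ∧
      (2 * m + 1) * ∑ y ∈ H, y = -∑ t ∈ sc m S (2 * m + 1 - i), (t : ℤ) -
        i * rc m S (2 * m + 1 - i) := by
  classical
  rw [Finset.mem_Icc] at hi
  refine ⟨(sc m S i).image (fun t : ℕ => ((t / (2 * m + 1) : ℕ) : ℤ)),
    (sc m S (2 * m + 1 - i)).image (fun t : ℕ => -1 - ((t / (2 * m + 1) : ℕ) : ℤ)), ?_, ?_, ?_, ?_, ?_, ?_⟩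
  · intro y
    rw [Finset.mem_image]
    constructor
    · rintro ⟨t, ht, rfl⟩
      refine ⟨Int.natCast_nonneg _, Or.inl ⟨Int.natCast_nonneg _, ?_⟩⟩
      rw [Int.toNat_natCast, sc_div ht]
      exact (mem_sc.1 ht).1
    · rintro ⟨h0, h | h⟩
      · have h1 := sc_mk (m := m) (j := i) (by omega) h.2
        refine ⟨_, h1.1, ?_⟩
        rw [h1.2, Int.toNat_of_nonneg h0]
      · omega
  · intro y
    rw [Finset.mem_image]
    constructor
    · rintro ⟨t, ht, rfl⟩
      have hk := sc_div ht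
      generalize t / (2 * m + 1) = k at hk ⊢
      refine ⟨by omega, ?_⟩
      rintro (h | h)
      · omega
      · apply h.2
        have h1 : (-1 - (-1 - ((k : ℕ) : ℤ))).toNat = k := by omega
        rw [h1, hk]
        exact (mem_sc.1 ht).1
    · rintro ⟨h0, h⟩
      have h2 : (2 * m + 1) * (-1 - y).toNat + (2 * m + 1 - i) ∈ S := by
        by_contra h3
        exact h (Or.inr ⟨h0, h3⟩)
      have h1 := sc_mk (m := m) (j := 2 * m + 1 - i) (by omega) h2
      refine ⟨_, h1.1, ?_⟩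
      rw [h1.2, Int.toNat_of_nonneg (by omega)]
      ring
  · rw [Finset.card_image_of_injOn, card_sc]
    intro a ha b hb hab
    apply sc_inj m S i ha hb
    simp only at hab ⊢
    exact_mod_cast hab
  · rw [Finset.card_image_of_injOn, card_sc]
    intro a ha b hb hab
    apply sc_inj m S _ ha hb
    simp only at hab ⊢
    have h1 : ((a / (2 * m + 1) : ℕ) : ℤ) = ((b / (2 * m + 1) : ℕ) : ℤ) := by linarith
    exact_mod_cast h1
  · have hc : (i : ℤ) * rc m S i = ∑ _t ∈ sc m S i, (i : ℤ) := by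
      rw [Finset.sum_const, nsmul_eq_mul, mul_comm, card_sc]
    rw [Finset.sum_image, Finset.mul_sum, hc, ← Finset.sum_sub_distrib]
    · refine Finset.sum_congr rfl fun t ht => ?_
      have h1 := sc_div ht
      have h2 : ((2 * m + 1) * ((t / (2 * m + 1) : ℕ) : ℤ)) + i = t := by exact_mod_cast h1
      linarith
    · intro a ha b hb hab
      apply sc_inj m S _ ha hb
      have h1 : ((a / (2 * m + 1) : ℕ) : ℤ) = ((b / (2 * m + 1) : ℕ) : ℤ) := hab
      simp only
      exact_mod_cast h1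
  · have hc : (i : ℤ) * rc m S (2 * m + 1 - i) = ∑ _t ∈ sc m S (2 * m + 1 - i), (i : ℤ) := by
      rw [Finset.sum_const, nsmul_eq_mul, mul_comm, card_sc]
    rw [Finset.sum_image, Finset.mul_sum, hc, ← Finset.sum_neg_distrib, ← Finset.sum_sub_distrib]
    · refine Finset.sum_congr rfl fun t ht => ?_
      have h1 := sc_div ht
      have h2 : ((2 * m + 1) * ((t / (2 * m + 1) : ℕ) : ℤ)) + ((2 * m + 1 - i : ℕ) : ℤ) = t := by
        exact_mod_cast h1
      have h3 : ((2 * m + 1 - i : ℕ) : ℤ) = 2 * m + 1 - i := by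
        rw [Nat.cast_sub (by omega)]
        push_cast
        ring
      rw [h3] at h2
      linarith
    · intro a ha b hb hab
      apply sc_inj m S _ ha hb
      simp only
      have h1 : ((a / (2 * m + 1) : ℕ) : ℤ) = ((b / (2 * m + 1) : ℕ) : ℤ) := by linarith
      exact_mod_cast h1

private theorem bs_charge_of (M : Maya) (B H : Finset ℤ) (hB : ∀ y, y ∈ B ↔ 0 ≤ y ∧ y ∈ M.s)
    (hH : ∀ y, y ∈ H ↔ y < 0 ∧ y ∉ M.s) : M.charge = (B.card : ℤ) - H.card := by
  have h1 : {x : ℤ | 0 ≤ x ∧ x ∈ M.s} = (B : Set ℤ) := by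
    ext y
    exact (hB y).symm
  have h2 : {x : ℤ | x < 0 ∧ x ∉ M.s} = (H : Set ℤ) := by
    ext y
    exact (hH y).symm
  unfold Maya.charge
  rw [h1, h2, Set.ncard_coe_finset, Set.ncard_coe_finset]

/-- the two runners -/
private theorem bs_pair (m i : ℕ) (hi : i ∈ Finset.Icc 1 m) (S : Finset ℕ) :
    2 * (∑ t ∈ sc m S i, (t : ℤ) + ∑ t ∈ sc m S (2 * m + 1 - i), (t : ℤ)) =
      (2 * m + 1) * (2 * (mi m i S).size + (mi m i S).charge * ((mi m i S).charge - 1)) +
        2 * i * (mi m i S).charge := by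
  obtain ⟨B, H, hB, hH, h1, h2, h3, h4⟩ := bs_beads m i hi S
  have h5 := bs_energy (mi m i S) B H hB hH
  have h6 := bs_charge_of (mi m i S) B H hB hH
  rw [← h6] at h5
  have h7 : ((rc m S i : ℤ) - rc m S (2 * m + 1 - i)) = (mi m i S).charge := by
    rw [h6, h1, h2]
  rw [← h5]
  have h8 : (2 * (m : ℤ) + 1) * (2 * (∑ y ∈ B, y - ∑ y ∈ H, y)) =
      2 * ((2 * m + 1) * ∑ y ∈ B, y) - 2 * ((2 * m + 1) * ∑ y ∈ H, y) := by ring
  rw [h8, h3, h4, ← h7]
  ring

private theorem bs_range {A : Type} [AddCommMonoid A] (f : ℕ → A) (m : ℕ) :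
    ∑ j ∈ Finset.range (2 * m + 1), f j = f 0 + ∑ i : Fin m, (f (i + 1) + f (2 * m + 1 - (i + 1))) := by
  rw [Finset.sum_range_succ', add_comm, two_mul, Finset.sum_range_add, Finset.sum_add_distrib,
    Fin.sum_univ_eq_sum_range (fun i => f (i + 1)) m,
    Fin.sum_univ_eq_sum_range (fun i => f (m + m + 1 - (i + 1))) m]
  congr 2
  rw [← Finset.sum_range_reflect]
  refine Finset.sum_congr rfl fun j hj => ?_
  rw [Finset.mem_range] at hj
  congr 1
  omega

private theorem bs_split {A : Type} [AddCommMonoid A] (m : ℕ) (S : Finset ℕ) (g : ℕ → A) :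
    ∑ s ∈ S, g s = ∑ s ∈ sc m S 0, g s +
      ∑ i : Fin m, (∑ s ∈ sc m S (i + 1), g s + ∑ s ∈ sc m S (2 * m + 1 - (i + 1)), g s) := by
  rw [← bs_range (fun j => ∑ s ∈ sc m S j, g s) m]
  exact (Finset.sum_fiberwise_of_maps_to (fun s _ => Finset.mem_range.2 (Nat.mod_lt s (by omega)))
    g).symm

private theorem bs_r0 (m : ℕ) (S : Finset ℕ) :
    ((2 * m + 1) * ∑ t ∈ r0 m S, t = ∑ t ∈ sc m S 0, t) ∧ (r0 m S).card = (sc m S 0).card := by
  classical
  have h0 : r0 m S = (sc m S 0).image (fun t => t / (2 * m + 1)) := rfl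
  rw [h0]
  refine ⟨?_, Finset.card_image_of_injOn (sc_inj m S 0)⟩
  rw [Finset.sum_image (fun a ha b hb hab => sc_inj m S 0 ha hb hab), Finset.mul_sum]
  refine Finset.sum_congr rfl fun t ht => ?_
  have h1 := sc_div ht
  rw [add_zero] at h1
  exact h1

theorem r0_zero (m : ℕ) (S : Finset ℕ) (hS : 0 ∉ S) : 0 ∉ r0 m S := by
  intro h
  rw [r0, Finset.mem_image] at h
  obtain ⟨t, ht, h0⟩ := h
  have h1 := sc_div (m := m) (S := S) (j := 0) ht
  rw [h0] at h1
  simp only [mul_zero, add_zero] at h1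
  rw [h1] at hS
  exact hS (mem_sc.1 ht).1

theorem charge_mi (m i : ℕ) (hi : i ∈ Finset.Icc 1 m) (S : Finset ℕ) :
    (mi m i S).charge = (rc m S i : ℤ) - rc m S (2 * m + 1 - i) := by
  obtain ⟨B, H, hB, hH, h1, h2, _, _⟩ := bs_beads m i hi S
  rw [bs_charge_of _ B H hB hH, h1, h2]

private theorem bs_half (c : ℤ) : 2 * (c * (c - 1) / 2) = c * (c - 1) := by
  have h1 : Even (c * (c - 1)) := by
    have := Int.even_mul_pred_self c
    exact this
  exact Int.mul_ediv_cancel' h1.two_dvd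

private theorem bs_mem {m : ℕ} (i : Fin m) : (i : ℕ) + 1 ∈ Finset.Icc 1 m := by
  rw [Finset.mem_Icc]
  omega

theorem sum_eq (m : ℕ) (S : Finset ℕ) (hS : 0 ∉ S) :
    ((∑ s ∈ S, s : ℕ) : ℤ) = (2 * m + 1) * wtS m S + ∑ i : Fin m,
      ((2 * m + 1) * ((mf m S i).charge * ((mf m S i).charge - 1) / 2) +
        ((i : ℕ) + 1) * (mf m S i).charge) := by
  have h1 : ∀ i : Fin m, ∑ s ∈ sc m S (i + 1), (s : ℤ) + ∑ s ∈ sc m S (2 * m + 1 - (i + 1)), (s : ℤ) =
      (2 * m + 1) * (mf m S i).size + ((2 * m + 1) * ((mf m S i).charge * ((mf m S i).charge - 1) / 2) +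
        ((i : ℕ) + 1) * (mf m S i).charge) := by
    intro i
    have h2 := bs_pair m (i + 1) (bs_mem i) S
    have h3 := bs_half (mf m S i).charge
    change 2 * (∑ s ∈ sc m S (i + 1), (s : ℤ) + ∑ s ∈ sc m S (2 * m + 1 - (i + 1)), (s : ℤ)) =
      (2 * m + 1) * (2 * (mf m S i).size + (mf m S i).charge * ((mf m S i).charge - 1)) +
        2 * ((i + 1 : ℕ) : ℤ) * (mf m S i).charge at h2
    rw [← h3, show (((i : ℕ) + 1 : ℕ) : ℤ) = ((i : ℕ) : ℤ) + 1 from by push_cast; ring] at h2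
    have h4 : (2 : ℤ) ≠ 0 := two_ne_zero
    apply mul_left_cancel₀ h4
    rw [h2]
    ring
  rw [Nat.cast_sum, bs_split m S (fun s => (s : ℤ)), Finset.sum_congr rfl fun i _ => h1 i,
    Finset.sum_add_distrib, wtS]
  have h5 : ∑ s ∈ sc m S 0, (s : ℤ) = (2 * m + 1) * ∑ t ∈ r0 m S, (t : ℤ) := by
    have h6 := congrArg (fun n : ℕ => (n : ℤ)) (bs_r0 m S).1
    push_cast at h6
    exact h6.symm
  rw [h5]
  push_cast
  rw [mul_add, Finset.mul_sum (s := Finset.univ) (f := fun i => ((mf m S i).size : ℤ))]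
  ring

private theorem bs_eN (m : ℕ) (S : Finset ℕ) : eN m S = ∑ i : Fin m, kk m (i + 1) S := by
  rw [eN, Fin.sum_univ_eq_sum_range (fun i => kk m (i + 1) S) m]
  have h1 : Finset.Icc 1 m = (Finset.range m).image (fun i => i + 1) := by
    ext j
    rw [Finset.mem_Icc, Finset.mem_image]
    constructor
    · intro h
      exact ⟨j - 1, Finset.mem_range.2 (by omega), by omega⟩
    · rintro ⟨i, hi, rfl⟩
      rw [Finset.mem_range] at hi
      omega
  rw [h1, Finset.sum_image (fun a _ b _ hab => by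
    have h2 : a + 1 = b + 1 := hab
    omega)]

theorem card_eq (m : ℕ) (S : Finset ℕ) (hS : 0 ∉ S) :
    S.card = (r0 m S).card + 2 * eN m S + ∑ i : Fin m, (mf m S i).charge.natAbs := by
  have h1 := bs_split m S (fun _ => 1)
  simp only [Finset.sum_const, smul_eq_mul, mul_one, card_sc] at h1
  rw [h1, (bs_r0 m S).2, card_sc, bs_eN, add_assoc, Finset.mul_sum, ← Finset.sum_add_distrib]
  congr 1
  refine Finset.sum_congr rfl fun i _ => ?_
  have h2 : (mf m S i).charge = (rc m S (i + 1) : ℤ) - rc m S (2 * m + 1 - (i + 1)) :=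
    charge_mi m (i + 1) (bs_mem i) S
  rw [h2, kk]
  omega

/-- the terms of the sum -/
private def tt (m i : ℕ) (c : ℤ) : ℤ := (2 * m + 1) * (c * (c - 1) / 2) + (i + 1) * c

private theorem tt_cases (m i : ℕ) (hi : i < m) (c : ℤ) :
    (c = 0 ∧ tt m i c = 0) ∨ (c = 1 ∧ tt m i c = i + 1) ∨ (c = -1 ∧ tt m i c = 2 * m + 1 - (i + 1)) ∨
      2 * (m : ℤ) + 1 ≤ tt m i c := by
  have h0 := bs_half c
  have hmi : (i : ℤ) + 1 ≤ m := by exact_mod_cast hi
  have hi0 : (0 : ℤ) ≤ i := Int.natCast_nonneg i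
  rcases lt_trichotomy c 0 with hc | hc | hc
  · rcases eq_or_lt_of_le (show c ≤ -1 by omega) with h1 | h1
    · subst h1
      right; right; left
      refine ⟨rfl, ?_⟩
      unfold tt
      norm_num
      ring
    · right; right; right
      unfold tt
      obtain ⟨d, rfl⟩ : ∃ d : ℤ, c = -d := ⟨-c, by ring⟩
      have hd : 2 ≤ d := by omega
      have h2 : 2 * (-d * (-d - 1) / 2) = d * (d + 1) := by rw [h0]; ring
      nlinarith [mul_nonneg (show (0 : ℤ) ≤ d - 2 by omega) (show (0 : ℤ) ≤ d by omega),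
        mul_nonneg (show (0 : ℤ) ≤ (m : ℤ) - (i + 1) by omega) (show (0 : ℤ) ≤ d by omega),
        mul_nonneg (show (0 : ℤ) ≤ (m : ℤ) by omega)
          (mul_nonneg (show (0 : ℤ) ≤ d - 2 by omega) (show (0 : ℤ) ≤ d by omega))]
  · subst hc
    left
    refine ⟨rfl, ?_⟩
    unfold tt
    norm_num
  · rcases eq_or_lt_of_le (show 1 ≤ c by omega) with h1 | h1
    · subst h1
      right; left
      refine ⟨rfl, ?_⟩
      unfold tt
      norm_num
    · right; right; right
      unfold tt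
      have h2 : 1 ≤ c * (c - 1) / 2 := by
        have h3 : 2 ≤ c * (c - 1) := by nlinarith
        omega
      nlinarith [mul_nonneg (show (0 : ℤ) ≤ 2 * (m : ℤ) + 1 by omega) (sub_nonneg.2 h2),
        mul_nonneg (show (0 : ℤ) ≤ (i : ℤ) + 1 by omega) (show (0 : ℤ) ≤ c by omega)]

private theorem tt_nonneg (m i : ℕ) (hi : i < m) (c : ℤ) : 0 ≤ tt m i c := by
  have hmi : (i : ℤ) + 1 ≤ m := by exact_mod_cast hi
  rcases tt_cases m i hi c with h | h | h | h <;> omega

private theorem sum_eq' (m : ℕ) (S : Finset ℕ) (hS : 0 ∉ S) :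
    ((∑ s ∈ S, s : ℕ) : ℤ) = (2 * m + 1) * wtS m S + ∑ i : Fin m, tt m i (mf m S i).charge :=
  sum_eq m S hS

theorem wt_le (m w r : ℕ) (hr : r < 2 * m + 1) (S : Finset ℕ) (hS : 0 ∉ S)
    (hs : ∑ s ∈ S, s = (2 * m + 1) * w + r) : wtS m S ≤ w := by
  have h1 := sum_eq' m S hS
  have h2 : 0 ≤ ∑ i : Fin m, tt m i (mf m S i).charge :=
    Finset.sum_nonneg fun i _ => tt_nonneg m i i.2 _
  rw [hs] at h1
  push_cast at h1
  by_contra hlt
  have h3 : (w : ℤ) + 1 ≤ wtS m S := by exact_mod_cast (not_le.1 hlt)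
  have h4 : (r : ℤ) < 2 * m + 1 := by exact_mod_cast hr
  have h5 : (2 * (m : ℤ) + 1) * (w + 1) ≤ (2 * m + 1) * wtS m S :=
    mul_le_mul_of_nonneg_left h3 (by omega)
  nlinarith

private theorem bs_Icc {A : Type} [AddCommMonoid A] (m : ℕ) (f : ℕ → A) :
    ∑ i ∈ Finset.Icc 1 m, f i = ∑ i : Fin m, f (i + 1) := by
  rw [Fin.sum_univ_eq_sum_range (fun i => f (i + 1)) m]
  have h1 : Finset.Icc 1 m = (Finset.range m).image (fun i => i + 1) := by
    ext j
    rw [Finset.mem_Icc, Finset.mem_image]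
    constructor
    · intro h
      exact ⟨j - 1, Finset.mem_range.2 (by omega), by omega⟩
    · rintro ⟨i, hi, rfl⟩
      rw [Finset.mem_range] at hi
      omega
  rw [h1, Finset.sum_image (fun a _ b _ hab => by
    have h2 : a + 1 = b + 1 := hab
    omega)]

private theorem bs_core_sum (m : ℕ) (S : Finset ℕ) (g : ℕ → ℤ) :
    ∑ s ∈ coreS m S, g s = ∑ i : Fin m, ((if (mf m S i).charge = 1 then g (i + 1) else 0) +
      (if (mf m S i).charge = -1 then g (2 * m + 1 - (i + 1)) else 0)) := by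
  classical
  have hdis : Disjoint ((Finset.Icc 1 m).filter (fun i => (mi m i S).charge = 1))
      (((Finset.Icc 1 m).filter (fun i => (mi m i S).charge = -1)).image (fun i => 2 * m + 1 - i)) := by
    rw [Finset.disjoint_left]
    intro a ha hb
    rw [Finset.mem_filter, Finset.mem_Icc] at ha
    rw [Finset.mem_image] at hb
    obtain ⟨b, hb, hab⟩ := hb
    rw [Finset.mem_filter, Finset.mem_Icc] at hb
    omega
  rw [coreS, Finset.sum_union hdis, Finset.sum_image, Finset.sum_filter, Finset.sum_filter,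
    Finset.sum_add_distrib]
  · rw [bs_Icc m (fun i => if (mi m i S).charge = 1 then g i else 0),
      bs_Icc m (fun i => if (mi m i S).charge = -1 then g (2 * m + 1 - i) else 0)]
    rfl
  · intro a ha b hb hab
    have h1 := Finset.mem_Icc.1 (Finset.mem_filter.1 (Finset.mem_coe.1 ha)).1
    have h2 := Finset.mem_Icc.1 (Finset.mem_filter.1 (Finset.mem_coe.1 hb)).1
    have h3 : 2 * m + 1 - a = 2 * m + 1 - b := hab
    omega

theorem charges_small (m w r : ℕ) (hr : r < 2 * m + 1) (S : Finset ℕ) (hS : 0 ∉ S)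
    (hs : ∑ s ∈ S, s = (2 * m + 1) * w + r) (hw : wtS m S = w) :
    (∀ i : Fin m, (mf m S i).charge = 0 ∨ (mf m S i).charge = 1 ∨ (mf m S i).charge = -1) ∧ 0 ∉ coreS m S ∧ ∑ s ∈ coreS m S, s = r ∧
      S.card = (r0 m S).card + 2 * eN m S + (coreS m S).card := by
  have h1 := sum_eq' m S hS
  rw [hs, hw] at h1
  push_cast at h1
  have h2 : ∑ i : Fin m, tt m i (mf m S i).charge = r := by linarith
  have h3 : ∀ i : Fin m, tt m i (mf m S i).charge ≤ r := by
    intro i
    rw [← h2]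
    exact Finset.single_le_sum (f := fun i : Fin m => tt m i (mf m S i).charge)
      (fun j _ => tt_nonneg m j j.2 _) (Finset.mem_univ i)
  have hr' : (r : ℤ) < 2 * m + 1 := by exact_mod_cast hr
  have h4 : ∀ i : Fin m, ((mf m S i).charge = 0 ∧ tt m i (mf m S i).charge = 0) ∨
      ((mf m S i).charge = 1 ∧ tt m i (mf m S i).charge = (i : ℕ) + 1) ∨
      ((mf m S i).charge = -1 ∧ tt m i (mf m S i).charge = 2 * m + 1 - ((i : ℕ) + 1)) := by
    intro i
    have h5 := h3 i
    rcases tt_cases m i i.2 (mf m S i).charge with h | h | h | h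
    · exact Or.inl h
    · exact Or.inr (Or.inl h)
    · exact Or.inr (Or.inr h)
    · omega
  refine ⟨fun i => ?_, ?_, ?_, ?_⟩
  · rcases h4 i with h | h | h
    · exact Or.inl h.1
    · exact Or.inr (Or.inl h.1)
    · exact Or.inr (Or.inr h.1)
  · intro h0
    rw [coreS, Finset.mem_union, Finset.mem_filter, Finset.mem_Icc, Finset.mem_image] at h0
    rcases h0 with h0 | ⟨b, hb, h0⟩
    · omega
    · rw [Finset.mem_filter, Finset.mem_Icc] at hb
      omega
  · have h5 := bs_core_sum m S (fun s => (s : ℤ))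
    have h6 : ∀ i : Fin m, (if (mf m S i).charge = 1 then (((i : ℕ) + 1 : ℕ) : ℤ) else 0) +
      (if (mf m S i).charge = -1 then ((2 * m + 1 - ((i : ℕ) + 1) : ℕ) : ℤ) else 0) =
        tt m i (mf m S i).charge := by
      intro i
      have hi := i.2
      rcases h4 i with h | h | h
      · rw [h.2, h.1]
        norm_num
      · rw [h.2, h.1]
        norm_num
      · rw [h.2, h.1, if_neg (by norm_num), if_pos rfl]
        omega
    rw [Finset.sum_congr rfl fun i _ => h6 i, h2] at h5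
    have h7 : ((∑ s ∈ coreS m S, s : ℕ) : ℤ) = r := by
      rw [Nat.cast_sum]
      exact h5
    exact_mod_cast h7
  · rw [card_eq m S hS]
    congr 1
    have h5 := bs_core_sum m S (fun _ => 1)
    rw [Finset.sum_const, nsmul_eq_mul, mul_one] at h5
    have h6 : ∀ i : Fin m, (if (mf m S i).charge = 1 then (1 : ℤ) else 0) +
      (if (mf m S i).charge = -1 then (1 : ℤ) else 0) = ((mf m S i).charge.natAbs : ℤ) := by
      intro i
      rcases h4 i with h | h | h <;> rw [h.1] <;> norm_num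
    rw [Finset.sum_congr rfl fun i _ => h6 i] at h5
    rw [← Nat.cast_sum] at h5
    exact_mod_cast h5.symm

theorem core_small (m r : ℕ) (hr : r < 2 * m + 1) (T : Finset ℕ) (hT : 0 ∉ T)
    (hs : ∑ s ∈ T, s = r) : wtS m T = 0 ∧ coreS m T = T ∧ r0 m T = ∅ ∧ eN m T = 0 := by
  classical
  have hw : wtS m T = 0 := by
    have h1 := wt_le m 0 r hr T hT (by rw [hs]; ring)
    omega
  have hle : ∀ t ∈ T, 1 ≤ t ∧ t < 2 * m + 1 := by
    intro t ht
    have h1 : t ≤ ∑ s ∈ T, s := Finset.single_le_sum (f := fun s : ℕ => s) (fun _ _ => Nat.zero_le _) ht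
    refine ⟨?_, by omega⟩
    rcases Nat.eq_zero_or_pos t with h | h
    · rw [h] at ht
      exact absurd ht hT
    · exact h
  have hrc : ∀ j, j < 2 * m + 1 → rc m T j = if j ∈ T then 1 else 0 := by
    intro j hj
    rw [← card_sc]
    by_cases hjT : j ∈ T
    · rw [if_pos hjT, Finset.card_eq_one]
      refine ⟨j, ?_⟩
      ext t
      rw [mem_sc, Finset.mem_singleton]
      constructor
      · rintro ⟨ht, hm⟩
        rw [Nat.mod_eq_of_lt (hle t ht).2] at hm
        exact hm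
      · rintro rfl
        exact ⟨hjT, Nat.mod_eq_of_lt hj⟩
    · rw [if_neg hjT, Finset.card_eq_zero, Finset.eq_empty_iff_forall_notMem]
      intro t ht
      rw [mem_sc] at ht
      rw [Nat.mod_eq_of_lt (hle t ht.1).2] at ht
      rw [← ht.2] at hjT
      exact hjT ht.1
  have hnb : ∀ i, 1 ≤ i → i ≤ m → i ∈ T → 2 * m + 1 - i ∉ T := by
    intro i hi1 hi2 h1 h2
    have h3 : ({i, 2 * m + 1 - i} : Finset ℕ) ⊆ T := by
      intro t ht
      rw [Finset.mem_insert, Finset.mem_singleton] at ht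
      rcases ht with rfl | rfl
      · exact h1
      · exact h2
    have h4 := Finset.sum_le_sum_of_subset (f := fun s : ℕ => s) h3
    rw [Finset.sum_pair (by omega)] at h4
    omega
  refine ⟨hw, ?_, ?_, ?_⟩
  · ext t
    rw [coreS, Finset.mem_union, Finset.mem_filter, Finset.mem_image]
    constructor
    · rintro (⟨h1, h2⟩ | ⟨i, hi, rfl⟩)
      · rw [charge_mi m t h1] at h2
        rw [Finset.mem_Icc] at h1
        rw [hrc t (by omega), hrc (2 * m + 1 - t) (by omega)] at h2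
        by_contra h3
        rw [if_neg h3] at h2
        split_ifs at h2 <;> norm_num at h2
      · rw [Finset.mem_filter] at hi
        obtain ⟨h1, h2⟩ := hi
        rw [charge_mi m i h1] at h2
        rw [Finset.mem_Icc] at h1
        rw [hrc i (by omega), hrc (2 * m + 1 - i) (by omega)] at h2
        by_contra h3
        rw [if_neg h3] at h2
        split_ifs at h2 <;> norm_num at h2
    · intro ht
      have h1 := hle t ht
      rcases Nat.lt_or_ge m t with h2 | h2
      · right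
        have hi : 2 * m + 1 - t ∈ Finset.Icc 1 m := by
          rw [Finset.mem_Icc]
          omega
        refine ⟨2 * m + 1 - t, ?_, by omega⟩
        rw [Finset.mem_filter]
        refine ⟨hi, ?_⟩
        have h3 : 2 * m + 1 - (2 * m + 1 - t) = t := by omega
        have h4 : 2 * m + 1 - t ∉ T := by
          intro h5
          rw [Finset.mem_Icc] at hi
          have h6 := hnb (2 * m + 1 - t) hi.1 hi.2 h5
          rw [h3] at h6
          exact h6 ht
        rw [charge_mi m _ hi, h3, hrc t (by omega), hrc (2 * m + 1 - t) (by omega), if_pos ht,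
          if_neg h4]
        norm_num
      · left
        have hi : t ∈ Finset.Icc 1 m := by
          rw [Finset.mem_Icc]
          omega
        refine ⟨hi, ?_⟩
        rw [charge_mi m _ hi, hrc t (by omega), hrc (2 * m + 1 - t) (by omega), if_pos ht,
          if_neg (hnb t h1.1 h2 ht)]
        norm_num
  · rw [wtS] at hw
    have h1 : ∑ t ∈ r0 m T, t = 0 := by omega
    rw [Finset.eq_empty_iff_forall_notMem]
    intro t ht
    have h2 := (Finset.sum_eq_zero_iff.1 h1) t ht
    rw [h2] at ht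
    exact r0_zero m T hT ht
  · rw [eN]
    refine Finset.sum_eq_zero fun i hi => ?_
    rw [Finset.mem_Icc] at hi
    rw [kk, hrc i (by omega), hrc (2 * m + 1 - i) (by omega)]
    by_cases h1 : i ∈ T
    · rw [if_neg (hnb i hi.1 hi.2 h1)]
      simp
    · rw [if_neg h1]
      simp

end Pool.Agent.Helper81.AN
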