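import Mathlib

/-!
# ALT-34: shuffling moves in a product: multinomial coefficients

`J` finite, `X j` types with a size `sz j`, moves `x ↦ act j x k`, `k ∈ A j x` (finite sets), decreasing the size by one, and counting functions `cnt j`
with `cnt j x = 1` for size `0` and `cnt j x = Σ_{k ∈ A j x} cnt j (act j x k)` for positive size. Then the multinomial coefficient of the sizes times
the product of the `cnt j` satisfies the same recursion for the moves of the product.

PROOF. Let `n j = sz j (x j)`, `N = Σ n j > 0`. Multinomial recursion: `multinomial n = Σ_{j : n j > 0} multinomial (n - e_j)` (multiply by `∏ n_j!`: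
`N! = Σ_j n_j (N-1)!`; `Nat.multinomial_spec`). For `j` with `n j > 0`: `Σ_{k ∈ A j (x j)} multinomial(n - e_j) cnt(act (x j) k) ∏_{l ≠ j} cnt (x l) = multinomial (n - e_j) ∏ cnt (x l)`. For `n j = 0` there are
no moves (a move would decrease the size below `0`: `sz (act ..) + 1 = 0` is impossible), so the sum is empty.
-/

set_option autoImplicit false

namespace Pool.Agent.Helper81.AN

open Finset

private theorem prod_upd {J : Type} [Fintype J] [DecidableEq J] (f g : J → ℕ) (j : J)
    (h : ∀ l, l ≠ j → f l = g l) : f j * ∏ l, g l = g j * ∏ l, f l := by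
  rw [← Finset.mul_prod_erase univ g (mem_univ j), ← Finset.mul_prod_erase univ f (mem_univ j)]
  have h1 : ∏ l ∈ univ.erase j, f l = ∏ l ∈ univ.erase j, g l :=
    Finset.prod_congr rfl fun l hl => h l (Finset.ne_of_mem_erase hl)
  rw [h1]
  ring

private theorem sum_upd {J : Type} [Fintype J] [DecidableEq J] (f g : J → ℕ) (j : J)
    (h : ∀ l, l ≠ j → f l = g l) : f j + ∑ l, g l = g j + ∑ l, f l := by
  rw [← Finset.add_sum_erase univ g (mem_univ j), ← Finset.add_sum_erase univ f (mem_univ j)]
  have h1 : ∑ l ∈ univ.erase j, f l = ∑ l ∈ univ.erase j, g l :=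
    Finset.sum_congr rfl fun l hl => h l (Finset.ne_of_mem_erase hl)
  rw [h1]
  ring

theorem multinomial_rec {J : Type} [Fintype J] [DecidableEq J] (n : J → ℕ) (hn : 0 < ∑ j, n j) :
    Nat.multinomial univ n =
      ∑ j, if 0 < n j then Nat.multinomial univ (Function.update n j (n j - 1)) else 0 := by
  have hpos : 0 < ∏ j, (n j).factorial := Finset.prod_pos fun j _ => Nat.factorial_pos _
  apply Nat.eq_of_mul_eq_mul_left hpos
  rw [Nat.multinomial_spec, Finset.mul_sum]
  obtain ⟨N, hN⟩ := Nat.exists_eq_succ_of_ne_zero hn.ne'
  have key : ∀ j, (∏ i, (n i).factorial) *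
      (if 0 < n j then Nat.multinomial univ (Function.update n j (n j - 1)) else 0) =
      n j * N.factorial := by
    intro j
    by_cases hj : 0 < n j
    · rw [if_pos hj]
      obtain ⟨k, hk⟩ := Nat.exists_eq_succ_of_ne_zero hj.ne'
      have e1 := prod_upd (fun i => ((Function.update n j (n j - 1)) i).factorial)
        (fun i => (n i).factorial) j (fun l hl => by
          rw [Function.update_of_ne hl])
      rw [Function.update_self, hk, Nat.succ_sub_one, Nat.factorial_succ] at e1
      have e2 : ∏ i, (n i).factorial =
          n j * ∏ i, ((Function.update n j (n j - 1)) i).factorial := by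
        apply Nat.eq_of_mul_eq_mul_left (Nat.factorial_pos k)
        rw [hk, Nat.succ_sub_one, e1, Nat.succ_eq_add_one]
        ring
      have e3 := sum_upd (Function.update n j (n j - 1)) n j
        (fun l hl => Function.update_of_ne hl _ _)
      rw [Function.update_self, hN, hk, Nat.succ_sub_one] at e3
      have e4 : ∑ i, (Function.update n j (n j - 1)) i = N := by
        rw [hk, Nat.succ_sub_one]
        omega
      have e5 := Nat.multinomial_spec univ (Function.update n j (n j - 1))
      rw [e4] at e5
      rw [e2, mul_assoc, e5]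
    · rw [if_neg hj]
      have : n j = 0 := by omega
      rw [this, mul_zero, zero_mul]
  rw [Finset.sum_congr rfl fun j _ => key j, ← Finset.sum_mul, hN, Nat.factorial_succ]

theorem shuffle {J : Type} [Fintype J] [DecidableEq J] (X : J → Type) (K : J → Type)
    (sz : ∀ j, X j → ℕ) (A : ∀ j, X j → Set (K j)) (hA : ∀ j x, (A j x).Finite)
    (act : ∀ j, X j → K j → X j) (hact : ∀ j x, ∀ k ∈ A j x, sz j (act j x k) + 1 = sz j x)
    (cnt : ∀ j, X j → ℕ) (h0 : ∀ j x, sz j x = 0 → cnt j x = 1)
    (h1 : ∀ j x, 0 < sz j x → cnt j x = ∑ᶠ k ∈ A j x, cnt j (act j x k))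
    (x : ∀ j, X j) (hx : 0 < ∑ j, sz j (x j)) :
    Nat.multinomial univ (fun j => sz j (x j)) * ∏ j, cnt j (x j) =
      ∑ j, ∑ᶠ k ∈ A j (x j), Nat.multinomial univ
        (fun l => sz l (Function.update x j (act j (x j) k) l)) *
          ∏ l, cnt l (Function.update x j (act j (x j) k) l) := by
  rw [multinomial_rec _ hx, Finset.sum_mul]
  refine Finset.sum_congr rfl fun j _ => ?_
  rw [finsum_mem_eq_finite_toFinset_sum _ (hA j (x j))]
  by_cases hj : 0 < sz j (x j)
  · rw [if_pos hj]
    have e1 : ∀ k ∈ (hA j (x j)).toFinset, Nat.multinomial univ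
        (fun l => sz l (Function.update x j (act j (x j) k) l)) *
          ∏ l, cnt l (Function.update x j (act j (x j) k) l) =
        (Nat.multinomial univ (Function.update (fun j => sz j (x j)) j (sz j (x j) - 1)) *
          ∏ l ∈ univ.erase j, cnt l (x l)) * cnt j (act j (x j) k) := by
      intro k hk
      have hk' : k ∈ A j (x j) := (hA j (x j)).mem_toFinset.1 hk
      have e2 : (fun l => sz l (Function.update x j (act j (x j) k) l)) =
          Function.update (fun j => sz j (x j)) j (sz j (x j) - 1) := by
        funext l
        by_cases hl : l = j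
        · subst hl
          rw [Function.update_self, Function.update_self]
          have := hact l (x l) k hk'
          omega
        · rw [Function.update_of_ne hl, Function.update_of_ne hl]
      have e3 : ∏ l, cnt l (Function.update x j (act j (x j) k) l) =
          cnt j (act j (x j) k) * ∏ l ∈ univ.erase j, cnt l (x l) := by
        rw [← Finset.mul_prod_erase univ _ (mem_univ j), Function.update_self]
        congr 1
        refine Finset.prod_congr rfl fun l hl => ?_
        rw [Function.update_of_ne (Finset.ne_of_mem_erase hl)]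
      rw [e2, e3]
      ring
    rw [Finset.sum_congr rfl e1, ← Finset.mul_sum]
    have e4 := h1 j (x j) hj
    rw [finsum_mem_eq_finite_toFinset_sum _ (hA j (x j))] at e4
    rw [← e4, ← Finset.mul_prod_erase univ (fun j => cnt j (x j)) (mem_univ j)]
    ring
  · rw [if_neg hj, zero_mul]
    symm
    apply Finset.sum_eq_zero
    intro k hk
    exfalso
    have hk' : k ∈ A j (x j) := (hA j (x j)).mem_toFinset.1 hk
    have := hact j (x j) k hk'
    omega

end Pool.Agent.Helper81.AN
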