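import Pool.Agent.Helper81.AN.BarMove
import Pool.Agent.Helper81.AN.BarSize
import Pool.Agent.Helper81.AN.Shuf
import Pool.Agent.Helper81.AN.XOnes

/-!
# ALT-35: the number of ways to remove all bars

PROOFS.
* `choose_mult`: `(a + Σ n_i) choose a * multinomial n = multinomial` over `Option (Fin m)` of `(a; n)` (`Nat.multinomial_spec`).
* `NQ0_rec`: apply `shuffle` to `J = Option (Fin m)`: for `none` the strict partitions (`{T // 0 ∉ T}`, size `Σ T`, moves `T ↦ sdown T t`, `t ∈ T`, `t - 1 ∉ T`, `cnt T = gAux (Σ T) T`; `sum_sdown` of `XOnes`,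
  `gAux` by definition satisfies the recursion), for `some i` the Maya diagrams (size, moves `down x` for beads `x` with `x - 1` empty, `cnt = f`;
  `Maya.size (M.down x) + 1 = M.size`: the pair `(x - 1, x)` is the inversion that disappears, all others correspond).
* `NS_rec`: `Dm_eq` with `H T M = NQ0 T M`.
* `Dm_supp`: every term of `Dm` at `S` is a set `T` with `0 ∉ T`, `Σ T + p = Σ S`, `wtS T + 1 = wtS S` and `coreS T = coreS S` (charges do not change under `down`), so only the values
  of `h` at such sets matter. (From the definition of `Dm` for `Σ T`, `0 ∉ T`; for `wtS` and `coreS` use `Dm_eq`-type bookkeeping: each removal is a move of `r0` or of one `mf`.) If you prefer, prove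
  first: for each removal `S → T`: (`mf m T = mf m S` and `r0 m T = sdown (r0 m S) t`) or (`r0 m T = r0 m S` and `mf m T = update ..`).
-/

set_option autoImplicit false

namespace Pool.Agent.Helper81.AN

open Pool.Agent.Helper24.AN

private theorem mem_down (M : Maya) (x : ℤ) (hx : x ∈ M.s) (hx' : x - 1 ∉ M.s) (y : ℤ) :
    y ∈ (M.down x).s ↔ Equiv.swap (x - 1) x y ∈ M.s := by
  change ((y ∈ M.s ∧ y ≠ x) ∨ y = x - 1) ↔ _
  by_cases h1 : y = x
  · subst h1
    rw [Equiv.swap_apply_right]
    constructor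
    · rintro (h | h)
      · exact absurd rfl h.2
      · omega
    · intro h
      exact absurd h hx'
  · by_cases h2 : y = x - 1
    · subst h2
      rw [Equiv.swap_apply_left]
      exact ⟨fun _ => hx, fun _ => Or.inr rfl⟩
    · rw [Equiv.swap_apply_of_ne_of_ne h2 h1]
      constructor
      · rintro (h | h)
        · exact h.1
        · exact absurd h h2
      · intro h
        exact Or.inl ⟨h, h1⟩

private theorem swap_lt (x a b : ℤ) (h : a < b) (hab : ¬ (a = x - 1 ∧ b = x)) :
    Equiv.swap (x - 1) x a < Equiv.swap (x - 1) x b := by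
  rw [Equiv.swap_apply_def, Equiv.swap_apply_def]
  split_ifs <;> omega

private theorem size_down_aux (M : Maya) (x : ℤ) (hx : x ∈ M.s) (hx' : x - 1 ∉ M.s) :
    (M.down x).size + 1 = M.size := by
  unfold Maya.size
  have hmem : ((x - 1, x) : ℤ × ℤ) ∈ {q : ℤ × ℤ | q.1 < q.2 ∧ q.1 ∉ M.s ∧ q.2 ∈ M.s} :=
    ⟨by simp, hx', hx⟩
  rw [← Set.ncard_sdiff_singleton_add_one hmem (finite_inv M)]
  congr 1
  symm
  refine Set.ncard_congr (fun q _ => (Equiv.swap (x - 1) x q.1, Equiv.swap (x - 1) x q.2))
    ?_ ?_ ?_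
  · rintro ⟨a, b⟩ ⟨⟨h1, h2, h3⟩, h4⟩
    simp only at h1 h2 h3
    have h4' : ¬ (a = x - 1 ∧ b = x) := fun h => h4 (by rw [h.1, h.2]; rfl)
    refine ⟨swap_lt x a b h1 h4', ?_, ?_⟩
    · rw [mem_down M x hx hx', Equiv.swap_apply_self]
      exact h2
    · rw [mem_down M x hx hx', Equiv.swap_apply_self]
      exact h3
  · rintro ⟨a, b⟩ ⟨a', b'⟩ _ _ h
    rw [Prod.mk.injEq] at h
    exact Prod.ext ((Equiv.swap (x - 1) x).injective h.1) ((Equiv.swap (x - 1) x).injective h.2)
  · rintro ⟨a, b⟩ ⟨h1, h2, h3⟩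
    simp only at h1 h2 h3
    have h4 : ¬ (a = x - 1 ∧ b = x) := by
      rintro ⟨rfl, rfl⟩
      rw [mem_down M _ hx hx', Equiv.swap_apply_right] at h3
      exact hx' h3
    rw [mem_down M x hx hx'] at h2 h3
    refine ⟨(Equiv.swap (x - 1) x a, Equiv.swap (x - 1) x b), ⟨⟨swap_lt x a b h1 h4, h2, h3⟩, ?_⟩,
      ?_⟩
    · intro h
      rw [Set.mem_singleton_iff, Prod.mk.injEq] at h
      have h5 : a = x := by
        rw [← Equiv.swap_apply_self (x - 1) x a, h.1, Equiv.swap_apply_left]
      have h6 : b = x - 1 := by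
        rw [← Equiv.swap_apply_self (x - 1) x b, h.2, Equiv.swap_apply_right]
      omega
    · simp only [Equiv.swap_apply_self]

theorem size_down (M : Maya) (x : ℤ) (hx : x ∈ M.s) (hx' : x - 1 ∉ M.s) :
    (M.down x).size + 1 = M.size ∧ (M.down x).charge = M.charge := by
  refine ⟨size_down_aux M x hx hx', ?_⟩
  have e1 := charge_cut (M.down x) (x + 1)
  have e2 := charge_cut M (x + 1)
  have e3 : {y : ℤ | x + 1 ≤ y ∧ y ∈ (M.down x).s} = {y : ℤ | x + 1 ≤ y ∧ y ∈ M.s} := by
    ext y
    constructor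
    · rintro ⟨h1, h2⟩
      rw [mem_down M x hx hx', Equiv.swap_apply_of_ne_of_ne (by omega) (by omega)] at h2
      exact ⟨h1, h2⟩
    · rintro ⟨h1, h2⟩
      refine ⟨h1, ?_⟩
      rw [mem_down M x hx hx', Equiv.swap_apply_of_ne_of_ne (by omega) (by omega)]
      exact h2
  have hlt : ∀ y : ℤ, y < x + 1 → Equiv.swap (x - 1) x y < x + 1 := by
    intro y hy
    rw [Equiv.swap_apply_def]
    split_ifs <;> omega
  have e4 : Set.ncard {y : ℤ | y < x + 1 ∧ y ∉ (M.down x).s} =
      Set.ncard {y : ℤ | y < x + 1 ∧ y ∉ M.s} := by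
    refine Set.ncard_congr (fun y _ => Equiv.swap (x - 1) x y) ?_ ?_ ?_
    · rintro y ⟨h1, h2⟩
      rw [mem_down M x hx hx'] at h2
      exact ⟨hlt y h1, h2⟩
    · intro y y' _ _ h
      exact (Equiv.swap (x - 1) x).injective h
    · rintro y ⟨h1, h2⟩
      refine ⟨Equiv.swap (x - 1) x y, ⟨hlt y h1, ?_⟩, Equiv.swap_apply_self _ _ _⟩
      rw [mem_down M x hx hx', Equiv.swap_apply_self]
      exact h2
  rw [e3, e4, e2] at e1
  omega

private theorem sum_zero_empty' (S : Finset ℕ) (hS : 0 ∉ S) (h : ∑ s ∈ S, s = 0) : S = ∅ := by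
  rw [Finset.eq_empty_iff_forall_notMem]
  intro s hs
  have h1 := Finset.sum_eq_zero_iff.1 h s hs
  rw [h1] at hs
  exact hS hs

private theorem f_zero (M : Maya) (h : M.size = 0) : M.f = 1 := by
  unfold Maya.f
  rw [h]
  rfl

theorem NQ0_zero {m : ℕ} (T : Finset ℕ) (hT : 0 ∉ T) (M : Fin m → Maya)
    (h : (∑ t ∈ T, t) + ∑ i, (M i).size = 0) : NQ0 T M = 1 := by
  have h1 : ∑ t ∈ T, t = 0 := by omega
  have h2 : ∑ i, (M i).size = 0 := by omega
  have h3 : ∀ i, (M i).size = 0 := fun i => Finset.sum_eq_zero_iff.1 h2 i (Finset.mem_univ i)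
  have h4 := sum_zero_empty' T hT h1
  unfold NQ0
  rw [h1, h2, h4]
  have h5 : Nat.multinomial Finset.univ (fun i => (M i).size) = 1 := by
    have := Nat.multinomial_spec Finset.univ (fun i => (M i).size)
    rw [h2] at this
    simp only [h3, Nat.factorial_zero, Finset.prod_const_one, one_mul] at this
    simpa only [h3] using this
  rw [h5, Finset.prod_congr rfl (fun i _ => f_zero _ (h3 i)), Finset.prod_const_one]
  rfl

private theorem multi_option {m : ℕ} (n : Option (Fin m) → ℕ) :
    Nat.multinomial Finset.univ n =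
      (n none + ∑ i, n (some i)).choose (n none) *
        Nat.multinomial Finset.univ (fun i => n (some i)) := by
  have h1 := Nat.multinomial_spec Finset.univ n
  have h2 := Nat.multinomial_spec Finset.univ (fun i => n (some i))
  rw [Fintype.prod_option, Fintype.sum_option] at h1
  have h3 := Nat.add_choose_mul_factorial_mul_factorial (n none) (∑ i, n (some i))
  rw [← h3, ← h2] at h1
  have h4 : 0 < (n none).factorial * ∏ i, (n (some i)).factorial :=
    Nat.mul_pos (Nat.factorial_pos _) (Finset.prod_pos fun i _ => Nat.factorial_pos _)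
  apply Nat.eq_of_mul_eq_mul_left h4
  rw [h1, Nat.choose_symm_add]
  ring

/-- the objects -/
private abbrev XX (m : ℕ) : Option (Fin m) → Type
  | none => {T : Finset ℕ // 0 ∉ T}
  | some _ => Maya

private abbrev KKo (m : ℕ) : Option (Fin m) → Type
  | none => ℕ
  | some _ => ℤ

private noncomputable def szo (m : ℕ) : ∀ j : Option (Fin m), XX m j → ℕ
  | none => fun T => ∑ t ∈ T.1, t
  | some _ => fun M => M.size

private def Ao (m : ℕ) : ∀ j : Option (Fin m), XX m j → Set (KKo m j)
  | none => fun T => {t : ℕ | t ∈ T.1 ∧ t - 1 ∉ T.1}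
  | some _ => fun M => {x : ℤ | x ∈ M.s ∧ x - 1 ∉ M.s}

private def acto (m : ℕ) : ∀ j : Option (Fin m), XX m j → KKo m j → XX m j
  | none => fun T t => ⟨sdown T.1 t, by simp [sdown]⟩
  | some _ => fun M x => M.down x

private noncomputable def cnto (m : ℕ) : ∀ j : Option (Fin m), XX m j → ℕ
  | none => fun T => gAux (∑ t ∈ T.1, t) T.1
  | some _ => fun M => M.f

private def xo {m : ℕ} (T : Finset ℕ) (hT : 0 ∉ T) (M : Fin m → Maya) :
    ∀ j : Option (Fin m), XX m j
  | none => ⟨T, hT⟩
  | some i => M i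

private theorem finite_moves (M : Maya) : {x : ℤ | x ∈ M.s ∧ x - 1 ∉ M.s}.Finite := by
  obtain ⟨N, hN⟩ := M.low
  obtain ⟨K, hK⟩ := M.high
  refine (Set.finite_Ico N K).subset fun x hx => ⟨?_, ?_⟩
  · by_contra h
    exact hx.2 (hN _ (by omega))
  · by_contra h
    exact hK _ (not_lt.1 h) hx.1

private theorem NQ0_eq {m : ℕ} (T : Finset ℕ) (hT : 0 ∉ T) (M : Fin m → Maya) :
    NQ0 T M = Nat.multinomial Finset.univ (fun j => szo m j (xo T hT M j)) *
      ∏ j, cnto m j (xo T hT M j) := by
  rw [multi_option, Fintype.prod_option]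
  unfold NQ0
  change _ = (∑ t ∈ T, t + ∑ i, (M i).size).choose (∑ t ∈ T, t) *
    Nat.multinomial Finset.univ (fun i => (M i).size) * (gAux (∑ t ∈ T, t) T * ∏ i, (M i).f)
  ring

private theorem update_none {m : ℕ} (T : Finset ℕ) (hT : 0 ∉ T) (M : Fin m → Maya) (t : ℕ) :
    Function.update (xo T hT M) none (acto m none (xo T hT M none) t) =
      xo (sdown T t) (by simp [sdown]) M := by
  funext j
  cases j with
  | none => rw [Function.update_self]; rfl
  | some i => rw [Function.update_of_ne (by simp)]; rfl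

private theorem update_some {m : ℕ} (T : Finset ℕ) (hT : 0 ∉ T) (M : Fin m → Maya) (i : Fin m)
    (x : ℤ) :
    Function.update (xo T hT M) (some i) (acto m (some i) (xo T hT M (some i)) x) =
      xo T hT (Function.update M i ((M i).down x)) := by
  funext j
  cases j with
  | none => rw [Function.update_of_ne (by simp)]; rfl
  | some l =>
    by_cases h : l = i
    · subst h
      rw [Function.update_self]
      change (M l).down x = Function.update M l ((M l).down x) l
      rw [Function.update_self]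
    · rw [Function.update_of_ne (by simpa using h)]
      change M l = Function.update M i ((M i).down x) l
      rw [Function.update_of_ne h]

theorem NQ0_rec {m : ℕ} (T : Finset ℕ) (hT : 0 ∉ T) (M : Fin m → Maya)
    (h : 0 < (∑ t ∈ T, t) + ∑ i, (M i).size) :
    NQ0 T M = (∑ t ∈ T.filter (fun t => t - 1 ∉ T), NQ0 (sdown T t) M) +
      ∑ i : Fin m, ∑ᶠ x ∈ {x : ℤ | x ∈ (M i).s ∧ x - 1 ∉ (M i).s},
        NQ0 T (Function.update M i ((M i).down x)) := by
  have key := shuffle (XX m) (KKo m) (szo m) (Ao m) ?_ (acto m) ?_ (cnto m) ?_ ?_ (xo T hT M) ?_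
  · rw [← NQ0_eq, Fintype.sum_option] at key
    rw [key]
    congr 1
    · have hset : Ao m none (xo T hT M none) =
          ((T.filter (fun t => t - 1 ∉ T) : Finset ℕ) : Set ℕ) := by
        ext t
        rw [Finset.coe_filter]
        exact Iff.rfl
      rw [hset, finsum_mem_coe_finset]
      apply Finset.sum_congr rfl
      intro t _
      rw [update_none, ← NQ0_eq]
    · apply Finset.sum_congr rfl
      intro i _
      apply finsum_mem_congr rfl
      intro x _
      rw [update_some, ← NQ0_eq]
  · intro j x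
    cases j with
    | none =>
      refine (x.1.finite_toSet).subset ?_
      intro t ht
      exact ht.1
    | some i => exact finite_moves x
  · intro j x k hk
    cases j with
    | none => exact (sum_sdown x.1 x.2 k hk.1 hk.2).2
    | some i => exact (size_down x k hk.1 hk.2).1
  · intro j x hx
    cases j with
    | none =>
      change gAux (∑ t ∈ x.1, t) x.1 = 1
      change ∑ t ∈ x.1, t = 0 at hx
      rw [hx]
      rfl
    | some i => exact f_zero x hx
  · intro j x hx
    cases j with
    | none =>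
      change gAux (∑ t ∈ x.1, t) x.1 = _
      change 0 < ∑ t ∈ x.1, t at hx
      obtain ⟨n, hn⟩ := Nat.exists_eq_succ_of_ne_zero hx.ne'
      rw [hn]
      change ∑ s ∈ x.1.filter (fun s => s - 1 ∉ x.1), gAux n (sdown x.1 s) = _
      have hset : Ao m none x = ((x.1.filter (fun t => t - 1 ∉ x.1) : Finset ℕ) : Set ℕ) := by
        ext t
        rw [Finset.coe_filter]
        exact Iff.rfl
      rw [hset, finsum_mem_coe_finset]
      apply Finset.sum_congr rfl
      intro t ht
      rw [Finset.mem_filter] at ht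
      change gAux n (sdown x.1 t) = gAux (∑ s ∈ sdown x.1 t, s) (sdown x.1 t)
      congr 1
      have := (sum_sdown x.1 x.2 t ht.1 ht.2).2
      omega
    | some i =>
      change x.f = ∑ᶠ y ∈ {y : ℤ | y ∈ x.s ∧ y - 1 ∉ x.s}, (x.down y).f
      change 0 < x.size at hx
      obtain ⟨n, hn⟩ := Nat.exists_eq_succ_of_ne_zero hx.ne'
      unfold Maya.f
      rw [hn]
      change ∑ᶠ y ∈ {y : ℤ | y ∈ x.s ∧ y - 1 ∉ x.s}, Maya.fAux n (x.down y) = _
      apply finsum_mem_congr rfl
      intro y hy
      have := (size_down x y hy.1 hy.2).1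
      congr 1
      omega
  · rw [Fintype.sum_option]
    exact h

theorem NS_rec (R : Type) [CommRing R] (m : ℕ) (S : Finset ℕ) (hS : 0 ∉ S) (h : 0 < wtS m S) :
    Dm m (fun T => (NS m T : R)) S = (NS m S : R) := by
  have h1 := Dm_eq R m (fun T M => (NQ0 T M : R)) S hS
  have h2 := NQ0_rec (r0 m S) (r0_zero m S hS) (mf m S) h
  change Dm m (fun T => (NQ0 (r0 m T) (mf m T) : R)) S = (NQ0 (r0 m S) (mf m S) : R)
  rw [h1, h2]
  push_cast
  congr 1
  apply Finset.sum_congr rfl
  intro i _
  rw [Nat.cast_finsum_mem (finite_moves _)]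

theorem Dm_supp (R : Type) [CommRing R] (m : ℕ) (h h' : Fk R) (S : Finset ℕ) (hS : 0 ∉ S)
    (hh : ∀ T, 0 ∉ T → (∑ s ∈ T, s) + (2 * m + 1) = ∑ s ∈ S, s → wtS m T + 1 = wtS m S →
      coreS m T = coreS m S → h T = h' T) : Dm m h S = Dm m h' S := by
  classical
  let H : Finset ℕ → (Fin m → Maya) → ℤ := fun T M =>
    if ((∑ t ∈ T, t) + ∑ i, (M i).size) + 1 = wtS m S ∧
      (∀ i, (M i).charge = (mf m S i).charge) then 0 else 1
  have hH0 : ∀ T M, 0 ≤ H T M := by
    intro T M
    change 0 ≤ (if _ then (0 : ℤ) else 1)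
    split_ifs <;> simp
  have hgood : ∀ T M, H T M = 0 → ((∑ t ∈ T, t) + ∑ i, (M i).size) + 1 = wtS m S ∧
      (∀ i, (M i).charge = (mf m S i).charge) := by
    intro T M hTM
    by_contra hc
    change (if _ then (0 : ℤ) else 1) = 0 at hTM
    rw [if_neg hc] at hTM
    exact one_ne_zero hTM
  have hD : Dm m (fun T => H (r0 m T) (mf m T)) S = 0 := by
    rw [Dm_eq ℤ m H S hS]
    have e1 : ∑ t ∈ (r0 m S).filter (fun t => t - 1 ∉ r0 m S),
        H (sdown (r0 m S) t) (mf m S) = 0 := by
      apply Finset.sum_eq_zero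
      intro t ht
      rw [Finset.mem_filter] at ht
      apply if_pos
      refine ⟨?_, fun _ => rfl⟩
      have := (sum_sdown (r0 m S) (r0_zero m S hS) t ht.1 ht.2).2
      unfold wtS
      omega
    have e2 : ∀ i : Fin m, ∑ᶠ x ∈ {x : ℤ | x ∈ (mf m S i).s ∧ x - 1 ∉ (mf m S i).s},
        H (r0 m S) (Function.update (mf m S) i ((mf m S i).down x)) = 0 := by
      intro i
      apply finsum_mem_eq_zero_of_forall_eq_zero
      intro x hx
      have hsd := size_down _ x hx.1 hx.2
      apply if_pos
      constructor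
      · have e3 : ∑ j, (Function.update (mf m S) i ((mf m S i).down x) j).size + 1 =
            ∑ j, (mf m S j).size := by
          rw [← Finset.add_sum_erase _ _ (Finset.mem_univ i),
            ← Finset.add_sum_erase (f := fun j => (mf m S j).size) _ (Finset.mem_univ i),
            Function.update_self]
          rw [Finset.sum_congr (g := fun j => (mf m S j).size) rfl (fun j hj => by
            rw [Function.update_of_ne (Finset.ne_of_mem_erase hj)])]
          have := hsd.1
          omega
        unfold wtS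
        omega
      · intro j
        by_cases hj : j = i
        · subst hj
          rw [Function.update_self]
          exact hsd.2
        · rw [Function.update_of_ne hj]
    rw [e1, Finset.sum_eq_zero (fun i _ => e2 i), add_zero]
  have hn1 : ∀ a ∈ S.filter (fun a => 2 * m + 1 ≤ a), (0 : ℤ) ≤
      (if a = 2 * m + 1 then (fun T => H (r0 m T) (mf m T)) (S.erase a)
      else if a - (2 * m + 1) ∈ S then 0 else
        (fun T => H (r0 m T) (mf m T)) (insert (a - (2 * m + 1)) (S.erase a))) := by
    intro a _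
    split_ifs
    · exact hH0 _ _
    · exact le_refl _
    · exact hH0 _ _
  have hn2 : ∀ a ∈ S.filter (fun a => a < 2 * m + 1 ∧ 2 * m + 1 < 2 * a ∧ 2 * m + 1 - a ∈ S),
      (0 : ℤ) ≤ (fun T => H (r0 m T) (mf m T)) ((S.erase a).erase (2 * m + 1 - a)) :=
    fun a _ => hH0 _ _
  unfold Dm at hD
  have hs1 := Finset.sum_nonneg hn1
  have hs2 := Finset.sum_nonneg hn2
  have hz1 := (Finset.sum_eq_zero_iff_of_nonneg hn1).1 (by linarith)
  have hz2 := (Finset.sum_eq_zero_iff_of_nonneg hn2).1 (by linarith)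
  have hcore : ∀ T, (∀ i, (mf m T i).charge = (mf m S i).charge) → coreS m T = coreS m S := by
    intro T hT
    have h3 : ∀ i ∈ Finset.Icc 1 m, (mi m i T).charge = (mi m i S).charge := by
      intro i hi
      rw [Finset.mem_Icc] at hi
      have := hT ⟨i - 1, by omega⟩
      change (mi m (i - 1 + 1) T).charge = (mi m (i - 1 + 1) S).charge at this
      rwa [Nat.sub_add_cancel hi.1] at this
    unfold coreS
    rw [Finset.filter_congr (q := fun i => (mi m i S).charge = 1)
        (fun i hi => by rw [h3 i hi]),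
      Finset.filter_congr (p := fun i => (mi m i T).charge = -1)
        (q := fun i => (mi m i S).charge = -1) (fun i hi => by rw [h3 i hi])]
  unfold Dm
  congr 1
  · apply Finset.sum_congr rfl
    intro a ha
    have hz := hz1 a ha
    rw [Finset.mem_filter] at ha
    by_cases c1 : a = 2 * m + 1
    · rw [if_pos c1] at hz ⊢
      rw [if_pos c1]
      obtain ⟨g1, g2⟩ := hgood _ _ hz
      refine hh _ (fun h0 => hS (Finset.mem_of_mem_erase h0)) ?_ g1 (hcore _ g2)
      have := Finset.sum_erase_add S (fun s => s) ha.1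
      omega
    · by_cases c2 : a - (2 * m + 1) ∈ S
      · rw [if_neg c1, if_pos c2, if_neg c1, if_pos c2]
      · rw [if_neg c1, if_neg c2] at hz ⊢
        rw [if_neg c1, if_neg c2]
        obtain ⟨g1, g2⟩ := hgood _ _ hz
        refine hh _ ?_ ?_ g1 (hcore _ g2)
        · intro h0
          rcases Finset.mem_insert.1 h0 with h0 | h0
          · omega
          · exact hS (Finset.mem_of_mem_erase h0)
        · rw [Finset.sum_insert (fun h0 => c2 (Finset.mem_of_mem_erase h0))]
          have := Finset.sum_erase_add S (fun s => s) ha.1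
          omega
  · apply Finset.sum_congr rfl
    intro a ha
    have hz := hz2 a ha
    rw [Finset.mem_filter] at ha
    obtain ⟨g1, g2⟩ := hgood _ _ hz
    refine hh _ (fun h0 => hS (Finset.mem_of_mem_erase (Finset.mem_of_mem_erase h0))) ?_ g1
      (hcore _ g2)
    have e1 := Finset.sum_erase_add S (fun s => s) ha.1
    have hmem : 2 * m + 1 - a ∈ S.erase a := Finset.mem_erase.2 ⟨by omega, ha.2.2.2⟩
    have e2 := Finset.sum_erase_add (S.erase a) (fun s => s) hmem
    omega

end Pool.Agent.Helper81.AN
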