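import Pool.Agent.Helper81.AN.LabCnt
import Pool.Agent.Helper81.AN.SpG0
import Pool.Agent.Helper81.AN.SpC
import Pool.Agent.Helper24.AN.LinC
import Pool.Agent.Helper24.LOC.BPerm
import Pool.Agent.Helper24.LOC.Loc1
import Pool.Agent.Helper24.LOC.Loc2

/-!
# ALT-53: equality of the numbers of characters, global and local
-/

set_option autoImplicit false

open Equiv

namespace Pool.Agent.Helper81.AN

open Pool.Agent.Helper42.INC Pool.Agent.Helper7.MK

/-- the twist preserves the degree -/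
theorem dg_tw {X : Type} [Group X] [Finite X] (ε : X →* ℤˣ) (z : X) (hεz : ε z = 1) (ν : ℂ)
    {L : Type} {tw : L → L} {dg : L → ℕ} (h : Nonempty (Lab X ε z ν L tw dg)) (l : L) :
    dg (tw l) = dg l := by
  obtain ⟨A⟩ := h
  obtain ⟨χ, rfl⟩ := A.e.surjective l
  have h1 := A.twist χ ⟨twf ε χ.1, twf_irrZ ε hεz χ.2⟩ (fun x => rfl)
  have h2 := A.deg ⟨twf ε χ.1, twf_irrZ ε hεz χ.2⟩
  rw [h1] at h2
  change twf ε χ.1 1 = _ at h2
  rw [twf_one, A.deg χ] at h2
  exact_mod_cast h2.symm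

/-- equality of counts from labels -/
theorem cnt_lab (p : ℕ) [Fact p.Prime] {X Y : Type} [Group X] [Finite X] [Group Y] [Finite Y]
    (ε : X →* ℤˣ) (z : X) (hεz : ε z = 1) (ε' : Y →* ℤˣ) (z' : Y) (hεz' : ε' z' = 1) (ν : ℂ)
    {L L' : Type} {tw : L → L} {dg : L → ℕ} {tw' : L' → L'} {dg' : L' → ℕ}
    (hX : Nonempty (Lab X ε z ν L tw dg)) (hY : Nonempty (Lab Y ε' z' ν L' tw' dg'))
    (e : {l : L // ¬ p ∣ dg l} ≃ {l : L' // ¬ p ∣ dg' l})
    (he : ∀ l l', l'.1 = tw l.1 → (e l').1 = tw' (e l).1)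
    (hdg : ∀ l, ((dg' (e l).1 : ℕ) : ZMod p) ^ 2 = (dg l.1 : ZMod p) ^ 2) (d : ZMod p)
    (hd : d ≠ 0) :
    lF p ε z ν d = lF p ε' z' ν d ∧ lN p ε z ν d = lN p ε' z' ν d := by
  have h1 := lab_lF p ε z hεz ν hX d
  have h2 := lab_lF p ε' z' hεz' ν hY d
  have h3 := cnt_of_equiv p tw tw' dg dg' e
    (fun l hl => by rwa [dg_tw ε z hεz ν hX l]) he hdg d hd
  exact ⟨by rw [h1.1, h2.1, h3.1], by rw [h1.2, h2.2, h3.2]⟩

/-- linear characters -/
theorem cnt_lin (p : ℕ) [Fact p.Prime] (hp2 : p ≠ 2) (w r : ℕ) (hr : r < p) (d : ZMod p)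
    (hd : d ≠ 0) :
    lF p (Perm.sign.comp (MonoidHom.id (Perm (Pt p w r)))) 1 1 d =
      lF p (Perm.sign.comp (permL p w r)) 1 1 d ∧
    lN p (Perm.sign.comp (MonoidHom.id (Perm (Pt p w r)))) 1 1 d =
      lN p (Perm.sign.comp (permL p w r)) 1 1 d := by
  have hp : p.Prime := Fact.out
  obtain ⟨k, hk⟩ := hp.odd_of_ne_two hp2
  let mid : Fin p := ⟨k, by omega⟩
  have hmid : 2 * (mid : ℕ) + 1 = p := hk.symm
  have hcard : Fintype.card (Pt p w r) = p * w + r := by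
    rw [Fintype.card_sum, Fintype.card_prod, Fintype.card_fin, ZMod.card, Fintype.card_fin,
      mul_comm]
  obtain ⟨e, he, hdg⟩ := Pool.Agent.Helper24.AN.lin_C p hp mid hmid w r hr
  exact cnt_lab p (Perm.sign.comp (MonoidHom.id (Perm (Pt p w r)))) 1 (map_one _)
    (Perm.sign.comp (permL p w r)) 1 (map_one _) 1
    (Pool.Agent.Helper24.LOC.lab_perm (p * w + r) hcard)
    (Pool.Agent.Helper24.LOC.loc_1 p mid hmid w r) e he hdg d hd

/-- spin characters -/
theorem cnt_spin (p : ℕ) [Fact p.Prime] (hp2 : p ≠ 2) (w r : ℕ) (hr : r < p) (d : ZMod p)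
    (hd : d ≠ 0) :
    lF p (BG.par ((permH (Pt p w r)).comp (MonoidHom.id _))) (BG.z _) (-1) d =
      lF p (BG.par ((permH (Pt p w r)).comp (permL p w r))) (BG.z _) (-1) d ∧
    lN p (BG.par ((permH (Pt p w r)).comp (MonoidHom.id _))) (BG.z _) (-1) d =
      lN p (BG.par ((permH (Pt p w r)).comp (permL p w r))) (BG.z _) (-1) d := by
  have hp : p.Prime := Fact.out
  obtain ⟨k, hk⟩ := hp.odd_of_ne_two hp2
  have hk0 : 0 < k := by
    rcases Nat.eq_zero_or_pos k with h | h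
    · exact absurd hp (by rw [hk, h]; norm_num)
    · exact h
  have hcard : Fintype.card (Pt p w r) = p * w + r := by
    rw [Fintype.card_sum, Fintype.card_prod, Fintype.card_fin, ZMod.card, Fintype.card_fin,
      mul_comm]
  have hpz : ∀ {L : Type} [Group L] (h : L →* SPerm (Pt p w r)), BG.par h (BG.z h) = 1 := by
    intro L _ h
    unfold BG.par BG.z
    rw [SemidirectProduct.lift_inl]
    unfold Cl.par
    rw [Cl.lift_z]
  obtain ⟨e, he, hdg⟩ := sp_C p hp k hk.symm hk0 w r hr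
  exact cnt_lab p (BG.par ((permH (Pt p w r)).comp (MonoidHom.id _))) (BG.z _) (hpz _)
    (BG.par ((permH (Pt p w r)).comp (permL p w r))) (BG.z _) (hpz _) (-1)
    (sp_G0 (Pt p w r) (p * w + r) hcard)
    (Pool.Agent.Helper24.LOC.loc_2 p k hk.symm hk0 w r) e he hdg d hd

end Pool.Agent.Helper81.AN
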