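import Mathlib

/-!
# ALT-50: an equivariant bijection from equality of counts

`A`, `B` finite sets with involutions `a`, `b` and functions `f : A → D`, `g : B → D` invariant under the involutions. If for every `d` the numbers of fixed points with value `d` are equal, and the numbers of
non fixed points with value `d` are equal, then there is an equivariant bijection `A ≃ B` which respects the functions.

PROOF. Fix `d`. The fixed points in `f⁻¹(d)` and `g⁻¹(d)`: any bijection. The non fixed points: choose a set of representatives `A' ⊂ f⁻¹(d)` of the orbits `{x, a x}` of size two and `B'` in the same way; `|A'| = |B'|` (half of the number), a bijection `A' ≃ B'` extends uniquely to an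
equivariant bijection. In Lean a possible way: strong induction on `|A|` (remove one orbit from both sides), or: the quotient by the orbit relation, or: the `ZMod 2`-action and
`MulAction`-orbit types. Glue over `d` and over fixed / non fixed (`Equiv.sigmaFiberEquiv`, `Equiv.sumCompl`).
-/

set_option autoImplicit false

namespace Pool.Agent.Helper81.AN

theorem exists_equiv_of_counts {A B D : Type} [Finite A] [Finite B] (a : A → A) (b : B → B)
    (ha : ∀ x, a (a x) = x) (hb : ∀ x, b (b x) = x) (f : A → D) (g : B → D)
    (hf : ∀ x, f (a x) = f x) (hg : ∀ x, g (b x) = g x)
    (h1 : ∀ d, Nat.card {x : A // f x = d ∧ a x = x} = Nat.card {x : B // g x = d ∧ b x = x})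
    (h2 : ∀ d, Nat.card {x : A // f x = d ∧ a x ≠ x} = Nat.card {x : B // g x = d ∧ b x ≠ x}) :
    ∃ F : A ≃ B, (∀ x, F (a x) = b (F x)) ∧ ∀ x, g (F x) = f x := by
  sorry

end Pool.Agent.Helper81.AN
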