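import Pool.Agent.Helper81.AN.FkDefs
import Mathlib.GroupTheory.Perm.Cycle.Type

/-!
# ALT-15: colourings constant on cycles

For a permutation `σ` of `ι` with cycle lengths `l` (fixed points included, `σ.partition.parts`) the
colourings `κ : ι → Fin k` with `κ ∘ σ = κ` correspond to the maps from the positions of `l` to `Fin k`; the number of points of
colour `j` is the sum of the lengths of the cycles of colour `j`.

PROOF. Let `Q` be the quotient of `ι` by `SameCycle σ` (`Equiv.Perm.SameCycle.setoid`). The multiset of the cardinalities of the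
classes is `σ.partition.parts` (cycle type = cardinalities of the supports of the cycle factors, plus one `1`
for each fixed point). So there is a bijection `b : Fin l.length ≃ Q` with `l.get i` = cardinality of the class `b i`
(two lists/families with the same multiset of values). Colourings constant on cycles = maps `Q → Fin k`; count fibrewise.
ALTERNATIVE: induction on the number of cycles (`Equiv.Perm.cycle_induction_on`) or strong induction over `|ι|`.
The statement only uses the multiset of the list, so any list with this multiset may be used (`col_sum` is stated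
for every list `l` with `(l : Multiset ℕ) = σ.partition.parts`).
-/

set_option autoImplicit false

open Equiv

namespace Pool.Agent.Helper81.AN

private theorem cs_card {α : Type} [Fintype α] (u : α → ℕ) (n : ℕ) :
    Nat.card {i // u i = n} = Multiset.count n (Finset.univ.val.map u) := by
  classical
  rw [Nat.card_eq_fintype_card, Fintype.card_subtype, Multiset.count_map]
  have h : (Finset.univ.filter fun i => u i = n) = Finset.univ.filter fun i => n = u i := by
    ext i
    simp [eq_comm]
  rw [h]
  rfl

private theorem cs_equiv {α β : Type} [Fintype α] [Fintype β] (u : α → ℕ) (v : β → ℕ)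
    (h : Finset.univ.val.map u = Finset.univ.val.map v) : ∃ b : α ≃ β, ∀ i, v (b i) = u i := by
  classical
  have h1 : ∀ n, Nonempty ({i // u i = n} ≃ {i // v i = n}) := by
    intro n
    have h2 : Nat.card {i // u i = n} = Nat.card {i // v i = n} := by
      rw [cs_card, cs_card, h]
    exact Finite.card_eq.1 h2
  refine ⟨(Equiv.sigmaFiberEquiv u).symm.trans ((Equiv.sigmaCongrRight fun n => (h1 n).some).trans
    (Equiv.sigmaFiberEquiv v)), fun i => ?_⟩
  exact ((h1 (u i)).some ⟨i, rfl⟩).2

/-- the classes: nontrivial cycles and fixed points -/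
private abbrev CI {ι : Type} [Fintype ι] [DecidableEq ι] (σ : Perm ι) : Type :=
  {c // c ∈ σ.cycleFactorsFinset} ⊕ {x // x ∈ σ.supportᶜ}

private def cv {ι : Type} [Fintype ι] [DecidableEq ι] (σ : Perm ι) : CI σ → ℕ :=
  Sum.elim (fun c => c.1.support.card) fun _ => 1

private def cl {ι : Type} [Fintype ι] [DecidableEq ι] (σ : Perm ι) (x : ι) : CI σ :=
  if h : x ∈ σ.support then Sum.inl ⟨σ.cycleOf x, Perm.cycleOf_mem_cycleFactorsFinset_iff.2 h⟩
  else Sum.inr ⟨x, Finset.mem_compl.2 h⟩

private theorem cv_multiset {ι : Type} [Fintype ι] [DecidableEq ι] (σ : Perm ι) :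
    Finset.univ.val.map (cv σ) = σ.partition.parts := by
  rw [Perm.parts_partition, Perm.cycleType_def]
  have h1 : (Finset.univ : Finset (CI σ)).val = Finset.univ.val.map Sum.inl +
      Finset.univ.val.map Sum.inr := rfl
  rw [h1, Multiset.map_add, Multiset.map_map, Multiset.map_map]
  congr 1
  · have h2 : (cv σ ∘ Sum.inl) = fun c : {c // c ∈ σ.cycleFactorsFinset} =>
        (Finset.card ∘ Perm.support) c.1 := rfl
    rw [h2, Finset.univ_eq_attach]
    exact Multiset.attach_map_val' _ _
  · have h2 : (cv σ ∘ Sum.inr) = fun _ : {x // x ∈ σ.supportᶜ} => 1 := rfl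
    rw [h2, Multiset.map_const']
    congr 1
    change Fintype.card {x // x ∈ σ.supportᶜ} = _
    rw [Fintype.card_coe, Finset.card_compl]

private theorem cl_apply {ι : Type} [Fintype ι] [DecidableEq ι] (σ : Perm ι) (x : ι) :
    cl σ (σ x) = cl σ x := by
  unfold cl
  by_cases h : x ∈ σ.support
  · have h1 : σ x ∈ σ.support := Perm.apply_mem_support.2 h
    rw [dif_pos h1, dif_pos h]
    congr 2
    exact (Perm.SameCycle.cycleOf_eq (Perm.sameCycle_apply_right.2 (Perm.SameCycle.refl σ x))).symm
  · have h1 : σ x = x := Perm.notMem_support.1 h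
    simp only [h1]

private theorem cl_inj {ι : Type} [Fintype ι] [DecidableEq ι] {σ : Perm ι} {x y : ι}
    (h : cl σ x = cl σ y) : σ.SameCycle x y := by
  unfold cl at h
  by_cases hx : x ∈ σ.support
  · by_cases hy : y ∈ σ.support
    · rw [dif_pos hx, dif_pos hy] at h
      have h1 := Subtype.mk.inj (Sum.inl.inj h)
      exact (Perm.sameCycle_iff_cycleOf_eq_of_mem_support hx hy).2 h1
    · rw [dif_pos hx, dif_neg hy] at h
      cases h
  · by_cases hy : y ∈ σ.support
    · rw [dif_neg hx, dif_pos hy] at h
      cases h
    · rw [dif_neg hx, dif_neg hy] at h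
      have h1 : x = y := Subtype.mk.inj (Sum.inr.inj h)
      rw [h1]

private theorem cl_fiber {ι : Type} [Fintype ι] [DecidableEq ι] (σ : Perm ι) (q : CI σ) :
    (Finset.univ.filter fun x => cl σ x = q).card = cv σ q := by
  rcases q with ⟨c, hc⟩ | ⟨y, hy⟩
  · change _ = c.support.card
    congr 1
    ext x
    rw [Finset.mem_filter]
    constructor
    · rintro ⟨_, h⟩
      unfold cl at h
      by_cases hx : x ∈ σ.support
      · rw [dif_pos hx] at h
        have h1 : σ.cycleOf x = c := Subtype.mk.inj (Sum.inl.inj h)
        rw [← h1, Perm.mem_support_cycleOf_iff]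
        exact ⟨Perm.SameCycle.refl σ x, hx⟩
      · rw [dif_neg hx] at h
        cases h
    · intro hx
      refine ⟨Finset.mem_univ _, ?_⟩
      have h1 := Perm.cycle_is_cycleOf hx hc
      have h2 : x ∈ σ.support := by
        rw [h1, Perm.mem_support_cycleOf_iff] at hx
        exact hx.2
      unfold cl
      rw [dif_pos h2]
      congr 2
      exact h1.symm
  · change _ = 1
    rw [Finset.card_eq_one]
    refine ⟨y, ?_⟩
    ext x
    rw [Finset.mem_filter, Finset.mem_singleton]
    constructor
    · rintro ⟨_, h⟩
      unfold cl at h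
      by_cases hx : x ∈ σ.support
      · rw [dif_pos hx] at h
        cases h
      · rw [dif_neg hx] at h
        exact Subtype.mk.inj (Sum.inr.inj h)
    · rintro rfl
      refine ⟨Finset.mem_univ _, ?_⟩
      unfold cl
      rw [dif_neg (Finset.mem_compl.1 hy)]

private theorem cl_surj {ι : Type} [Fintype ι] [DecidableEq ι] (σ : Perm ι) (q : CI σ) :
    ∃ x, cl σ x = q := by
  have h1 : 0 < (Finset.univ.filter fun x => cl σ x = q).card := by
    rw [cl_fiber]
    rcases q with ⟨c, hc⟩ | ⟨y, hy⟩
    · change 0 < c.support.card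
      have h2 := (Perm.mem_cycleFactorsFinset_iff.1 hc).1
      have h3 := h2.two_le_card_support
      omega
    · exact Nat.one_pos
  obtain ⟨x, hx⟩ := Finset.card_pos.1 h1
  exact ⟨x, (Finset.mem_filter.1 hx).2⟩

private theorem const_same {ι : Type} {k : ℕ} {σ : Perm ι} {κ : ι → Fin k} (h : ∀ x, κ (σ x) = κ x)
    {x y : ι} (hxy : σ.SameCycle x y) : κ x = κ y := by
  have h1 : ∀ x, κ (σ⁻¹ x) = κ x := by
    intro x
    have h2 : σ (σ⁻¹ x) = x := σ.apply_symm_apply x
    rw [← h (σ⁻¹ x), h2]
  have h3 : ∀ (n : ℤ) (x : ι), κ ((σ ^ n) x) = κ x := by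
    intro n
    induction n using Int.induction_on with
    | zero => intro x; rfl
    | succ i ih =>
      intro x
      rw [zpow_add_one, Perm.mul_apply, ih, h]
    | pred i ih =>
      intro x
      rw [zpow_sub_one, Perm.mul_apply, ih, h1]
  obtain ⟨n, hn⟩ := hxy
  rw [← hn, h3]

theorem col_sum {ι : Type} [Fintype ι] [DecidableEq ι] (σ : Perm ι) (l : List ℕ)
    (hl : (l : Multiset ℕ) = σ.partition.parts) (k : ℕ) (G : (Fin k → ℕ) → ℤ) :
    ∑ f : Fin l.length → Fin k, G (fun j => ∑ i, if f i = j then l.get i else 0) =
      ∑ κ : ι → Fin k, if (∀ x, κ (σ x) = κ x) then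
        G (fun j => (Finset.univ.filter (fun x => κ x = j)).card) else 0 := by
  have hm : Finset.univ.val.map l.get = Finset.univ.val.map (cv σ) := by
    rw [cv_multiset, ← hl]
    rw [Fin.univ_val_map, List.ofFn_get]
  obtain ⟨b, hb⟩ := cs_equiv l.get (cv σ) hm
  rw [← Finset.sum_filter]
  refine Finset.sum_bij (fun f _ => fun x => f (b.symm (cl σ x))) ?_ ?_ ?_ ?_
  · intro f _
    rw [Finset.mem_filter]
    refine ⟨Finset.mem_univ _, fun x => ?_⟩
    change f (b.symm (cl σ (σ x))) = f (b.symm (cl σ x))
    rw [cl_apply]
  · intro f _ g _ h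
    funext i
    obtain ⟨x, hx⟩ := cl_surj σ (b i)
    have h1 := congrFun h x
    change f (b.symm (cl σ x)) = g (b.symm (cl σ x)) at h1
    rwa [hx, b.symm_apply_apply] at h1
  · intro κ hκ
    have hκ' := (Finset.mem_filter.1 hκ).2
    choose s hs using cl_surj σ
    refine ⟨fun i => κ (s (b i)), Finset.mem_univ _, ?_⟩
    funext x
    change κ (s (b (b.symm (cl σ x)))) = κ x
    rw [b.apply_symm_apply]
    exact const_same hκ' (cl_inj (hs _))
  · intro f _
    congr 1
    funext j
    change _ = (Finset.univ.filter (fun x => f (b.symm (cl σ x)) = j)).card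
    have h1 : (Finset.univ.filter (fun x => f (b.symm (cl σ x)) = j)).card =
        ∑ i : Fin l.length, (Finset.univ.filter fun x => f (b.symm (cl σ x)) = j ∧
          cl σ x = b i).card := by
      rw [Finset.card_eq_sum_card_fiberwise (f := fun x => b.symm (cl σ x)) (t := Finset.univ)
        (fun _ _ => Finset.mem_univ _)]
      refine Finset.sum_congr rfl fun i _ => ?_
      rw [Finset.filter_filter]
      congr 1
      ext x
      simp only [Finset.mem_filter, Finset.mem_univ, true_and, Equiv.symm_apply_eq]
    rw [h1]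
    refine Finset.sum_congr rfl fun i _ => ?_
    rw [← hb i, ← cl_fiber σ (b i)]
    by_cases hj : f i = j
    · rw [if_pos hj]
      congr 1
      ext x
      simp only [Finset.mem_filter, Finset.mem_univ, true_and]
      constructor
      · intro h
        exact ⟨by rw [h, b.symm_apply_apply, hj], h⟩
      · exact fun h => h.2
    · rw [if_neg hj]
      symm
      rw [Finset.card_eq_zero, Finset.filter_eq_empty_iff]
      rintro x _ ⟨h2, h3⟩
      rw [h3, b.symm_apply_apply] at h2
      exact hj h2

private theorem odd_lcm (s : Multiset ℕ) (h : ∀ m ∈ s, Odd m) : Odd s.lcm := by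
  induction s using Multiset.induction_on with
  | empty => simp
  | cons a s ih =>
    rw [Multiset.lcm_cons]
    have h1 := h a (Multiset.mem_cons_self a s)
    have h2 := ih fun m hm => h m (Multiset.mem_cons_of_mem hm)
    exact Odd.of_dvd_nat (h1.mul h2) (Nat.lcm_dvd_mul a s.lcm)

/-- odd order means that all cycle lengths are odd -/
theorem odd_iff_parts {ι : Type} [Fintype ι] [DecidableEq ι] (σ : Perm ι) :
    Odd (orderOf σ) ↔ ∀ m ∈ σ.partition.parts, Odd m := by
  rw [Perm.parts_partition, ← Perm.lcm_cycleType]
  constructor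
  · intro h m hm
    rcases Multiset.mem_add.1 hm with hm | hm
    · exact Odd.of_dvd_nat h (Multiset.dvd_lcm hm)
    · rw [Multiset.eq_of_mem_replicate hm]
      exact odd_one
  · intro h
    exact odd_lcm _ fun m hm => h m (Multiset.mem_add.2 (Or.inl hm))

end Pool.Agent.Helper81.AN
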