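import Pool.Agent.Helper7.MK.Defs

/-!
# Project AN (MP_5ecade_al, alternating factors): common definitions

* `IrrZ z ν`: irreducible characters with `χ(z) = ν χ(1)`; `Lab`: a complete description of these
  characters by labels, with the twist by a sign character and the degree.
* `Maya`: Maya diagrams (partitions with a charge); `P0`: charge `0` (= partitions); `size`, `conj`,
  `f` (number of standard tableaux).
* `SP`: strict partitions = finite sets of positive integers; `g` (number of shifted tableaux).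
* `Cl ι`: the Clifford group with generators `z`, `a i`; `BG h`: its semidirect product with a group
  acting by signed permutations.
* `LL p w r`: the local group `(C_p : C_{p-1}) wr S_w × S_r`.
-/

set_option autoImplicit false

open Equiv
open scoped commutatorElement

namespace Pool.Agent.Helper81.AN

open Pool.Agent.Helper42.INC

/-! ### characters -/

/-- irreducible characters with `χ(z) = ν χ(1)` -/
def IrrZ {X : Type} [Group X] (z : X) (ν : ℂ) : Set (X → ℂ) := {χ | χ ∈ Irr X ∧ χ z = ν * χ 1}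

/-- A complete description of the characters of `IrrZ z ν` by labels: `tw` is the twist by the sign
character `ε`, `dg` the degree. -/
structure Lab (X : Type) [Group X] (ε : X →* ℤˣ) (z : X) (ν : ℂ) (L : Type) (tw : L → L)
    (dg : L → ℕ) where
  e : IrrZ z ν ≃ L
  twist : ∀ χ χ' : IrrZ z ν, (∀ x, χ'.1 x = (((ε x : ℤˣ) : ℤ) : ℂ) * χ.1 x) → e χ' = tw (e χ)
  deg : ∀ χ : IrrZ z ν, χ.1 1 = (dg (e χ) : ℂ)

/-! ### partitions -/

/-- Maya diagrams: sets of integers (beads) which contain all small and no large integers. -/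
structure Maya where
  s : Set ℤ
  low : ∃ N : ℤ, ∀ x < N, x ∈ s
  high : ∃ N : ℤ, ∀ x, N ≤ x → x ∉ s

/-- the number of inversions: this is the size of the partition -/
noncomputable def Maya.size (M : Maya) : ℕ :=
  Set.ncard {q : ℤ × ℤ | q.1 < q.2 ∧ q.1 ∉ M.s ∧ q.2 ∈ M.s}

/-- number of beads `≥ 0` minus number of holes `< 0` -/
noncomputable def Maya.charge (M : Maya) : ℤ :=
  (Set.ncard {x : ℤ | 0 ≤ x ∧ x ∈ M.s} : ℤ) - Set.ncard {x : ℤ | x < 0 ∧ x ∉ M.s}

/-- the conjugate -/
def Maya.conj (M : Maya) : Maya where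
  s := {x | -1 - x ∉ M.s}
  low := by
    obtain ⟨N, hN⟩ := M.high
    exact ⟨-N, fun x hx => hN _ (by omega)⟩
  high := by
    obtain ⟨N, hN⟩ := M.low
    refine ⟨-N, fun x hx h => h (hN _ (by omega))⟩

/-- move the bead `x` down to `x - 1` -/
def Maya.down (M : Maya) (x : ℤ) : Maya where
  s := {y | (y ∈ M.s ∧ y ≠ x) ∨ y = x - 1}
  low := by
    obtain ⟨N, hN⟩ := M.low
    exact ⟨min N x, fun y hy => Or.inl ⟨hN y (by omega), by omega⟩⟩
  high := by
    obtain ⟨N, hN⟩ := M.high
    refine ⟨max N x, fun y hy h => ?_⟩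
    rcases h with h | h
    · exact hN y (by omega) h.1
    · omega

/-- the number of chains of `k` moves down -/
noncomputable def Maya.fAux : ℕ → Maya → ℕ
  | 0, _ => 1
  | (k + 1), M => ∑ᶠ x ∈ {x : ℤ | x ∈ M.s ∧ x - 1 ∉ M.s}, Maya.fAux k (M.down x)

/-- the number of standard tableaux -/
noncomputable def Maya.f (M : Maya) : ℕ := Maya.fAux M.size M

/-- partitions -/
def P0 : Type := {M : Maya // M.charge = 0}

/-- size of a partition -/
noncomputable def P0.size (M : P0) : ℕ := M.1.size

/-- number of standard tableaux -/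
noncomputable def P0.f (M : P0) : ℕ := M.1.f

theorem Maya.charge_conj (M : Maya) : M.conj.charge = -M.charge := by
  have h1 : Set.ncard {x : ℤ | 0 ≤ x ∧ x ∈ M.conj.s} = Set.ncard {x : ℤ | x < 0 ∧ x ∉ M.s} := by
    refine Set.ncard_congr (fun x _ => -1 - x) ?_ ?_ ?_
    · intro x hx
      exact ⟨by have := hx.1; omega, hx.2⟩
    · intro x y _ _ h
      omega
    · intro y hy
      refine ⟨-1 - y, ⟨by have := hy.1; omega, ?_⟩, by omega⟩
      change -1 - (-1 - y) ∉ M.s
      rw [sub_sub_cancel]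
      exact hy.2
  have h2 : Set.ncard {x : ℤ | x < 0 ∧ x ∉ M.conj.s} = Set.ncard {x : ℤ | 0 ≤ x ∧ x ∈ M.s} := by
    refine Set.ncard_congr (fun x _ => -1 - x) ?_ ?_ ?_
    · intro x hx
      exact ⟨by have := hx.1; omega, not_not.1 hx.2⟩
    · intro x y _ _ h
      omega
    · intro y hy
      refine ⟨-1 - y, ⟨by have := hy.1; omega, ?_⟩, by omega⟩
      change ¬ (-1 - (-1 - y) ∉ M.s)
      rw [sub_sub_cancel, not_not]
      exact hy.2
  unfold Maya.charge
  rw [h1, h2]
  ring

/-- conjugate partition -/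
def P0.conj (M : P0) : P0 := ⟨M.1.conj, by rw [Maya.charge_conj, M.2, neg_zero]⟩

theorem Maya.size_conj (M : Maya) : M.conj.size = M.size := by
  refine Set.ncard_congr (fun q _ => (-1 - q.2, -1 - q.1)) ?_ ?_ ?_
  · intro q hq
    refine ⟨by have := hq.1; simp only; omega, hq.2.2, ?_⟩
    exact not_not.1 hq.2.1
  · intro q q' _ _ h
    simp only [Prod.mk.injEq] at h
    exact Prod.ext (by omega) (by omega)
  · intro q hq
    refine ⟨(-1 - q.2, -1 - q.1), ⟨by have := hq.1; simp only; omega, ?_, ?_⟩, by simp⟩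
    · change ¬ (-1 - (-1 - q.2) ∉ M.s)
      rw [sub_sub_cancel, not_not]
      exact hq.2.2
    · change -1 - (-1 - q.1) ∉ M.s
      rw [sub_sub_cancel]
      exact hq.2.1

theorem P0.size_conj (M : P0) : M.conj.size = M.size := M.1.size_conj

/-- partitions of `n` -/
def Par (n : ℕ) : Type := {M : P0 // M.size = n}

/-- conjugate -/
def Par.tw {n : ℕ} (M : Par n) : Par n := ⟨M.1.conj, by rw [P0.size_conj, M.2]⟩

/-- degree -/
noncomputable def Par.dg {n : ℕ} (M : Par n) : ℕ := M.1.f

/-! ### strict partitions -/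

/-- strict partitions: finite sets of positive integers -/
def SP : Type := {S : Finset ℕ // 0 ∉ S}

/-- size of a strict partition -/
def SP.size (S : SP) : ℕ := ∑ s ∈ S.1, s

/-- number of parts -/
def SP.len (S : SP) : ℕ := S.1.card

/-- decrease the part `s` by one (and remove it if it becomes zero) -/
def sdown (S : Finset ℕ) (s : ℕ) : Finset ℕ := (insert (s - 1) (S.erase s)).erase 0

/-- number of chains of `k` moves down -/
def gAux : ℕ → Finset ℕ → ℕ
  | 0, _ => 1
  | (k + 1), S => ∑ s ∈ S.filter (fun s => s - 1 ∉ S), gAux k (sdown S s)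

/-- the number of standard shifted tableaux -/
def SP.g (S : SP) : ℕ := gAux S.size S.1

/-! ### the Clifford group -/

section Cl

variable (ι : Type)

/-- the relations: `z` is a central involution, the `a i` are involutions, `a i` and `a j`
commute up to `z` for `i ≠ j` -/
def clRels : Set (FreeGroup (Option ι)) :=
  {w | w = (FreeGroup.of none) ^ 2 ∨ (∃ i : ι, w = (FreeGroup.of (some i)) ^ 2) ∨
    (∃ i : ι, w = ⁅(FreeGroup.of none : FreeGroup (Option ι)), FreeGroup.of (some i)⁆) ∨
    ∃ i j : ι, i ≠ j ∧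
      w = ⁅FreeGroup.of (some i), FreeGroup.of (some j)⁆ * (FreeGroup.of none)⁻¹}

/-- the Clifford group -/
abbrev Cl : Type := PresentedGroup (clRels ι)

variable {ι}

/-- the central involution -/
def Cl.z : Cl ι := PresentedGroup.of none

/-- the generators -/
def Cl.a (i : ι) : Cl ι := PresentedGroup.of (some i)

theorem Cl.z_sq : (Cl.z : Cl ι) ^ 2 = 1 := by
  have h : (PresentedGroup.mk (clRels ι)) ((FreeGroup.of none) ^ 2) = 1 :=
    PresentedGroup.one_of_mem (Or.inl rfl)
  rwa [map_pow] at h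

theorem Cl.a_sq (i : ι) : (Cl.a i : Cl ι) ^ 2 = 1 := by
  have h : (PresentedGroup.mk (clRels ι)) ((FreeGroup.of (some i)) ^ 2) = 1 :=
    PresentedGroup.one_of_mem (Or.inr (Or.inl ⟨i, rfl⟩))
  rwa [map_pow] at h

theorem Cl.z_a (i : ι) : ⁅(Cl.z : Cl ι), Cl.a i⁆ = 1 := by
  have h : (PresentedGroup.mk (clRels ι))
      ⁅(FreeGroup.of none : FreeGroup (Option ι)), FreeGroup.of (some i)⁆ = 1 :=
    PresentedGroup.one_of_mem (Or.inr (Or.inr (Or.inl ⟨i, rfl⟩)))
  rwa [map_commutatorElement] at h

theorem Cl.a_a {i j : ι} (hij : i ≠ j) : ⁅(Cl.a i : Cl ι), Cl.a j⁆ = Cl.z := by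
  have h : (PresentedGroup.mk (clRels ι))
      (⁅FreeGroup.of (some i), FreeGroup.of (some j)⁆ * (FreeGroup.of none)⁻¹) = 1 :=
    PresentedGroup.one_of_mem (Or.inr (Or.inr (Or.inr ⟨i, j, hij, rfl⟩)))
  rw [map_mul, map_inv, map_commutatorElement] at h
  exact mul_inv_eq_one.1 h

/-- universal property -/
def Cl.lift {G : Type} [Group G] (Z : G) (A : ι → G) (hZ : Z ^ 2 = 1) (hA : ∀ i, A i ^ 2 = 1)
    (hZA : ∀ i, ⁅Z, A i⁆ = 1) (hAA : ∀ i j, i ≠ j → ⁅A i, A j⁆ = Z) : Cl ι →* G :=
  PresentedGroup.toGroup (f := fun o : Option ι => o.elim Z A) (by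
    rintro w (rfl | ⟨i, rfl⟩ | ⟨i, rfl⟩ | ⟨i, j, hij, rfl⟩)
    · simpa using hZ
    · simpa using hA i
    · simpa [map_commutatorElement] using hZA i
    · simp only [map_mul, map_inv, map_commutatorElement, FreeGroup.lift_apply_of, Option.elim]
      rw [hAA i j hij, mul_inv_cancel])

@[simp] theorem Cl.lift_z {G : Type} [Group G] (Z : G) (A : ι → G) (hZ : Z ^ 2 = 1)
    (hA : ∀ i, A i ^ 2 = 1) (hZA : ∀ i, ⁅Z, A i⁆ = 1) (hAA : ∀ i j, i ≠ j → ⁅A i, A j⁆ = Z) :
    Cl.lift Z A hZ hA hZA hAA Cl.z = Z := PresentedGroup.toGroup.of _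

@[simp] theorem Cl.lift_a {G : Type} [Group G] (Z : G) (A : ι → G) (hZ : Z ^ 2 = 1)
    (hA : ∀ i, A i ^ 2 = 1) (hZA : ∀ i, ⁅Z, A i⁆ = 1) (hAA : ∀ i j, i ≠ j → ⁅A i, A j⁆ = Z)
    (i : ι) : Cl.lift Z A hZ hA hZA hAA (Cl.a i) = A i := PresentedGroup.toGroup.of _

theorem Cl.hom_ext {G : Type} [Group G] {f g : Cl ι →* G} (hz : f Cl.z = g Cl.z)
    (ha : ∀ i, f (Cl.a i) = g (Cl.a i)) : f = g := by
  apply PresentedGroup.ext
  intro o
  cases o with
  | none => exact hz
  | some i => exact ha i

theorem Cl.z_comm (x : Cl ι) : Cl.z * x = x * Cl.z := by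
  have h : MulAut.conj (Cl.z : Cl ι) = 1 := by
    have h1 : (MulAut.conj (Cl.z : Cl ι)).toMonoidHom = MonoidHom.id (Cl ι) := by
      apply Cl.hom_ext
      · simp
      · intro i
        have := Cl.z_a (ι := ι) i
        rw [commutatorElement_eq_one_iff_mul_comm] at this
        simp [this]
    ext x
    exact DFunLike.congr_fun h1 x
  have h2 := DFunLike.congr_fun h x
  simp only [MulAut.conj_apply, MulAut.one_apply] at h2
  rw [mul_inv_eq_iff_eq_mul] at h2
  exact h2

/-- `1 ↦ 1`, `-1 ↦ z` -/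
def Cl.u : ℤˣ →* Cl ι where
  toFun s := if s = 1 then 1 else Cl.z
  map_one' := by simp
  map_mul' := by
    intro s t
    rcases Int.units_eq_one_or s with rfl | rfl <;> rcases Int.units_eq_one_or t with rfl | rfl
    · simp
    · simp
    · simp
    · have := Cl.z_sq (ι := ι)
      rw [pow_two] at this
      simp [this]

theorem Cl.u_sq (s : ℤˣ) : (Cl.u s : Cl ι) ^ 2 = 1 := by
  rw [← map_pow]
  rcases Int.units_eq_one_or s with rfl | rfl <;> simp

theorem Cl.u_comm (s : ℤˣ) (x : Cl ι) : Cl.u s * x = x * Cl.u s := by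
  rcases Int.units_eq_one_or s with rfl | rfl
  · simp
  · have : (Cl.u (-1) : Cl ι) = Cl.z := by
      change (if (-1 : ℤˣ) = 1 then 1 else Cl.z) = Cl.z
      rw [if_neg (by decide)]
    rw [this]
    exact Cl.z_comm x

/-- multiplying by central involutions does not change the square of an involution -/
theorem Cl.ua_sq (s : ℤˣ) (x : Cl ι) (hx : x ^ 2 = 1) : (Cl.u s * x) ^ 2 = 1 := by
  have h : Commute (Cl.u s) x := Cl.u_comm s x
  rw [h.mul_pow, Cl.u_sq, hx, mul_one]

/-- multiplying by central elements does not change the commutator -/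
theorem comm_central {G : Type} [Group G] (c d x y : G) (hc : ∀ g, c * g = g * c)
    (hd : ∀ g, d * g = g * d) : ⁅c * x, d * y⁆ = ⁅x, y⁆ := by
  rw [commutatorElement_def, commutatorElement_def]
  have h1 : c * x * (d * y) = d * (c * (x * y)) := by
    rw [hc x, mul_assoc, ← mul_assoc c, hc d, ← mul_assoc, ← mul_assoc, ← hd x]
    simp only [mul_assoc]
    rw [← mul_assoc c x, hc x, mul_assoc]
  have h2 : d * y * (c * x) = d * (c * (y * x)) := by
    rw [mul_assoc, ← mul_assoc y, ← hc y]
    simp only [mul_assoc]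
  have h3 : c * x * (d * y) * (c * x)⁻¹ * (d * y)⁻¹ = (c * x * (d * y)) * (d * y * (c * x))⁻¹ := by
    group
  have h4 : x * y * x⁻¹ * y⁻¹ = (x * y) * (y * x)⁻¹ := by group
  rw [h3, h4, h1, h2]
  generalize x * y = X
  generalize y * x = Y
  have h5 : d * (c * X) * (d * (c * Y))⁻¹ = d * (c * (X * Y⁻¹) * c⁻¹) * d⁻¹ := by group
  rw [h5, hc, mul_assoc (X * Y⁻¹), mul_inv_cancel, mul_one, hd, mul_assoc, mul_inv_cancel, mul_one]

variable (ι) in
/-- signed permutations: `(s, σ)` maps the `i`-th basis vector to `s (σ i)` times the `σ i`-th -/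
abbrev SPerm : Type := (ι → ℤˣ) ⋊[mulAutArrow (G := Perm ι) (M := ℤˣ)] Perm ι

/-- the endomorphism of the Clifford group given by a signed permutation -/
def Cl.actHom (x : SPerm ι) : Cl ι →* Cl ι :=
  Cl.lift Cl.z (fun i => Cl.u (x.left (x.right i)) * Cl.a (x.right i)) Cl.z_sq
    (fun i => Cl.ua_sq _ _ (Cl.a_sq _))
    (by
      intro i
      rw [commutatorElement_eq_one_iff_mul_comm, Cl.z_comm])
    (by
      intro i j hij
      rw [comm_central _ _ _ _ (Cl.u_comm _) (Cl.u_comm _)]
      exact Cl.a_a (fun h => hij (x.right.injective h)))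

@[simp] theorem Cl.actHom_z (x : SPerm ι) : Cl.actHom x Cl.z = Cl.z := Cl.lift_z _ _ _ _ _ _

@[simp] theorem Cl.actHom_a (x : SPerm ι) (i : ι) :
    Cl.actHom x (Cl.a i) = Cl.u (x.left (x.right i)) * Cl.a (x.right i) := Cl.lift_a _ _ _ _ _ _ _

@[simp] theorem Cl.actHom_u (x : SPerm ι) (s : ℤˣ) : Cl.actHom x (Cl.u s) = Cl.u s := by
  rcases Int.units_eq_one_or s with rfl | rfl
  · simp
  · have : (Cl.u (-1) : Cl ι) = Cl.z := by
      change (if (-1 : ℤˣ) = 1 then 1 else Cl.z) = Cl.z
      rw [if_neg (by decide)]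
    rw [this]
    exact Cl.actHom_z x

theorem Cl.actHom_one : Cl.actHom (1 : SPerm ι) = MonoidHom.id (Cl ι) := by
  apply Cl.hom_ext
  · simp
  · intro i
    simp

theorem Cl.actHom_mul (x y : SPerm ι) :
    Cl.actHom (x * y) = (Cl.actHom x).comp (Cl.actHom y) := by
  apply Cl.hom_ext
  · simp
  · intro i
    have h1 : (x * y).left ((x * y).right i) =
        x.left (x.right (y.right i)) * y.left (y.right i) := by
      have h2 : (mulAutArrow (G := Perm ι) (M := ℤˣ) x.right y.left) (x.right (y.right i)) =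
          y.left (y.right i) := by
        change y.left (x.right⁻¹ • (x.right (y.right i))) = _
        rw [Equiv.Perm.smul_def, ← Equiv.Perm.mul_apply, inv_mul_cancel, Equiv.Perm.one_apply]
      rw [SemidirectProduct.mul_left, SemidirectProduct.mul_right]
      change x.left _ * (mulAutArrow (G := Perm ι) (M := ℤˣ) x.right y.left) _ = _
      rw [Equiv.Perm.mul_apply, h2]
    rw [Cl.actHom_a, MonoidHom.comp_apply, Cl.actHom_a, map_mul, Cl.actHom_u, Cl.actHom_a, h1,
      map_mul, SemidirectProduct.mul_right, Equiv.Perm.mul_apply]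
    rw [← mul_assoc, Cl.u_comm (x.left _) (Cl.u _)]

/-- signed permutations act on the Clifford group -/
def Cl.act : SPerm ι →* MulAut (Cl ι) where
  toFun x :=
    { toFun := Cl.actHom x
      invFun := Cl.actHom x⁻¹
      left_inv := fun g => by
        rw [← MonoidHom.comp_apply, ← Cl.actHom_mul, inv_mul_cancel, Cl.actHom_one]
        rfl
      right_inv := fun g => by
        rw [← MonoidHom.comp_apply, ← Cl.actHom_mul, mul_inv_cancel, Cl.actHom_one]
        rfl
      map_mul' := map_mul _ }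
  map_one' := by
    ext g
    change Cl.actHom 1 g = g
    rw [Cl.actHom_one]
    rfl
  map_mul' x y := by
    ext g
    change Cl.actHom (x * y) g = Cl.actHom x (Cl.actHom y g)
    rw [Cl.actHom_mul]
    rfl

/-- the parity of an element of the Clifford group -/
def Cl.par : Cl ι →* ℤˣ := Cl.lift 1 (fun _ => -1) (by simp) (by simp) (by simp) (by simp)

theorem Cl.par_act (x : SPerm ι) (g : Cl ι) : Cl.par (Cl.act x g) = Cl.par g := by
  have h : (Cl.par (ι := ι)).comp (Cl.actHom x) = Cl.par := by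
    apply Cl.hom_ext
    · simp [Cl.par]
    · intro i
      have hu : Cl.par (Cl.u (x.left (x.right i)) : Cl ι) = 1 := by
        rcases Int.units_eq_one_or (x.left (x.right i)) with h | h
        · rw [h, map_one, map_one]
        · rw [h]
          change Cl.par (if (-1 : ℤˣ) = 1 then 1 else Cl.z) = 1
          rw [if_neg (by decide)]
          simp [Cl.par]
      rw [MonoidHom.comp_apply, Cl.actHom_a, map_mul, hu, one_mul]
      simp [Cl.par]
  exact DFunLike.congr_fun h g

end Cl

/-! ### the big groups -/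

section BG

variable {ι L : Type} [Group L]

/-- a group acting by signed permutations, together with the Clifford group -/
abbrev BG (h : L →* SPerm ι) : Type := Cl ι ⋊[(Cl.act (ι := ι)).comp h] L

/-- the central involution -/
def BG.z (h : L →* SPerm ι) : BG h := SemidirectProduct.inl Cl.z

/-- the parity -/
def BG.par (h : L →* SPerm ι) : BG h →* ℤˣ :=
  SemidirectProduct.lift Cl.par 1 (by
    intro g
    refine MonoidHom.ext fun x => ?_
    change Cl.par (Cl.act (h g) x) = (1 : ℤˣ) * Cl.par x * (1 : ℤˣ)⁻¹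
    rw [Cl.par_act, one_mul, inv_one, mul_one])

end BG

/-- the full group `Cl ι ⋊ Perm ι` -/
abbrev permH (ι : Type) : Perm ι →* SPerm ι := SemidirectProduct.inr

/-- the Young subgroup of the sum type acts on the Clifford group -/
abbrev youngH (ι₁ ι₂ : Type) : Perm ι₁ × Perm ι₂ →* SPerm (ι₁ ⊕ ι₂) :=
  (SemidirectProduct.inr : Perm (ι₁ ⊕ ι₂) →* SPerm (ι₁ ⊕ ι₂)).comp
    (Equiv.Perm.sumCongrHom ι₁ ι₂)

/-! ### the local group -/

/-- the elementary abelian group -/
abbrev EE (p w : ℕ) : Type := Multiplicative (Fin w → ZMod p)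

/-- the torus -/
abbrev UU (p w : ℕ) : Type := Fin w → (ZMod p)ˣ

/-- `(ZMod p)ˣ wr S_w` -/
abbrev WW (p w : ℕ) : Type :=
  UU p w ⋊[mulAutArrow (G := Perm (Fin w)) (M := (ZMod p)ˣ)] Perm (Fin w)

/-- `WW` acts on `ZMod p ^ w`: `(u, σ) e = (i ↦ u i * e (σ⁻¹ i))` -/
def actE (p w : ℕ) : WW p w →* MulAut (EE p w) where
  toFun x :=
    { toFun := fun e => Multiplicative.ofAdd fun i =>
        (x.left i : ZMod p) * Multiplicative.toAdd e (x.right⁻¹ i)
      invFun := fun e => Multiplicative.ofAdd fun i =>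
        ((x.left (x.right i))⁻¹ : (ZMod p)ˣ) * Multiplicative.toAdd e (x.right i)
      left_inv := fun e => by
        apply Multiplicative.toAdd.injective
        funext i
        change ((x.left (x.right i))⁻¹ : (ZMod p)ˣ) * ((x.left (x.right i) : ZMod p) *
          Multiplicative.toAdd e (x.right⁻¹ (x.right i))) = _
        rw [← mul_assoc, Units.inv_mul, one_mul, ← Equiv.Perm.mul_apply, inv_mul_cancel,
          Equiv.Perm.one_apply]
      right_inv := fun e => by
        apply Multiplicative.toAdd.injective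
        funext i
        change (x.left i : ZMod p) * (((x.left (x.right (x.right⁻¹ i)))⁻¹ : (ZMod p)ˣ) *
          Multiplicative.toAdd e (x.right (x.right⁻¹ i))) = _
        rw [← Equiv.Perm.mul_apply, mul_inv_cancel, Equiv.Perm.one_apply, ← mul_assoc,
          Units.mul_inv, one_mul]
      map_mul' := fun a b => by
        apply Multiplicative.toAdd.injective
        funext i
        change (x.left i : ZMod p) * (Multiplicative.toAdd a (x.right⁻¹ i) +
          Multiplicative.toAdd b (x.right⁻¹ i)) = (x.left i : ZMod p) *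
            Multiplicative.toAdd a (x.right⁻¹ i) + (x.left i : ZMod p) *
              Multiplicative.toAdd b (x.right⁻¹ i)
        rw [mul_add] }
  map_one' := by
    refine MulEquiv.ext fun e => ?_
    apply Multiplicative.toAdd.injective
    funext i
    change ((1 : (ZMod p)ˣ) : ZMod p) * Multiplicative.toAdd e ((1 : Perm (Fin w))⁻¹ i) = _
    rw [Units.val_one, one_mul, inv_one, Equiv.Perm.one_apply]
    rfl
  map_mul' x y := by
    refine MulEquiv.ext fun e => ?_
    apply Multiplicative.toAdd.injective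
    funext i
    change ((x.left i * y.left (x.right⁻¹ i) : (ZMod p)ˣ) : ZMod p) *
      Multiplicative.toAdd e ((x.right * y.right)⁻¹ i) =
      (x.left i : ZMod p) * ((y.left (x.right⁻¹ i) : ZMod p) *
        Multiplicative.toAdd e (y.right⁻¹ (x.right⁻¹ i)))
    rw [Units.val_mul, mul_assoc, mul_inv_rev, Equiv.Perm.mul_apply]

/-- the local group: `(C_p ⋊ C_{p-1}) wr S_w × S_r`, written with the elementary abelian group
first -/
abbrev LL (p w r : ℕ) : Type :=
  EE p w ⋊[(actE p w).comp (MonoidHom.fst (WW p w) (Perm (Fin r)))] (WW p w × Perm (Fin r))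

/-- the points on which the local group acts -/
abbrev Pt (p w r : ℕ) : Type := (Fin w × ZMod p) ⊕ Fin r

/-- `(i, x) ↦ (i, e i + x)` -/
def permE (p w r : ℕ) : EE p w →* Perm (Pt p w r) where
  toFun e :=
    { toFun := fun q => q.elim (fun a => Sum.inl (a.1, Multiplicative.toAdd e a.1 + a.2)) Sum.inr
      invFun := fun q => q.elim (fun a => Sum.inl (a.1, -Multiplicative.toAdd e a.1 + a.2)) Sum.inr
      left_inv := by
        rintro (a | a)
        · change Sum.inl (a.1, -Multiplicative.toAdd e a.1 + (Multiplicative.toAdd e a.1 + a.2)) = _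
          rw [neg_add_cancel_left]
        · rfl
      right_inv := by
        rintro (a | a)
        · change Sum.inl (a.1, Multiplicative.toAdd e a.1 + (-Multiplicative.toAdd e a.1 + a.2)) = _
          rw [add_neg_cancel_left]
        · rfl }
  map_one' := by
    ext1 q
    rcases q with a | a
    · change Sum.inl (a.1, (0 : ZMod p) + a.2) = _
      rw [zero_add]
      rfl
    · rfl
  map_mul' e e' := by
    ext1 q
    rcases q with a | a
    · change Sum.inl (a.1, Multiplicative.toAdd e a.1 + Multiplicative.toAdd e' a.1 + a.2) =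
        Sum.inl (a.1, Multiplicative.toAdd e a.1 + (Multiplicative.toAdd e' a.1 + a.2))
      rw [add_assoc]
    · rfl

/-- `(i, x) ↦ (σ i, u (σ i) * x)` -/
def permW (p w r : ℕ) : WW p w × Perm (Fin r) →* Perm (Pt p w r) where
  toFun g :=
    { toFun := fun q => q.elim
        (fun a => Sum.inl (g.1.right a.1, (g.1.left (g.1.right a.1) : ZMod p) * a.2))
        (fun j => Sum.inr (g.2 j))
      invFun := fun q => q.elim
        (fun a => Sum.inl (g.1.right⁻¹ a.1, ((g.1.left a.1)⁻¹ : (ZMod p)ˣ) * a.2))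
        (fun j => Sum.inr (g.2⁻¹ j))
      left_inv := by
        rintro (a | a)
        · change Sum.inl (g.1.right⁻¹ (g.1.right a.1),
            ((g.1.left (g.1.right a.1))⁻¹ : (ZMod p)ˣ) *
              ((g.1.left (g.1.right a.1) : ZMod p) * a.2)) = _
          rw [← mul_assoc, Units.inv_mul, one_mul, ← Equiv.Perm.mul_apply, inv_mul_cancel,
            Equiv.Perm.one_apply]
        · change Sum.inr (g.2⁻¹ (g.2 a)) = _
          rw [← Equiv.Perm.mul_apply, inv_mul_cancel, Equiv.Perm.one_apply]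
      right_inv := by
        rintro (a | a)
        · change Sum.inl (g.1.right (g.1.right⁻¹ a.1),
            (g.1.left (g.1.right (g.1.right⁻¹ a.1)) : ZMod p) *
              (((g.1.left a.1)⁻¹ : (ZMod p)ˣ) * a.2)) = _
          rw [← Equiv.Perm.mul_apply, mul_inv_cancel, Equiv.Perm.one_apply, ← mul_assoc,
            Units.mul_inv, one_mul]
        · change Sum.inr (g.2 (g.2⁻¹ a)) = _
          rw [← Equiv.Perm.mul_apply, mul_inv_cancel, Equiv.Perm.one_apply] }
  map_one' := by
    ext1 q
    rcases q with a | a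
    · change Sum.inl (a.1, ((1 : (ZMod p)ˣ) : ZMod p) * a.2) = _
      rw [Units.val_one, one_mul]
      rfl
    · rfl
  map_mul' g g' := by
    ext1 q
    rcases q with a | a
    · change Sum.inl ((g.1.right * g'.1.right) a.1,
        ((g.1.left ((g.1.right * g'.1.right) a.1) *
          g'.1.left (g.1.right⁻¹ ((g.1.right * g'.1.right) a.1)) : (ZMod p)ˣ) : ZMod p) * a.2) =
        Sum.inl (g.1.right (g'.1.right a.1),
          (g.1.left (g.1.right (g'.1.right a.1)) : ZMod p) *
            ((g'.1.left (g'.1.right a.1) : ZMod p) * a.2))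
      rw [Equiv.Perm.mul_apply, ← Equiv.Perm.mul_apply g.1.right⁻¹, inv_mul_cancel,
        Equiv.Perm.one_apply, Units.val_mul, mul_assoc]
    · rfl

/-- the local group acts on `Pt` -/
def permL (p w r : ℕ) : LL p w r →* Perm (Pt p w r) :=
  SemidirectProduct.lift (permE p w r) (permW p w r) (by
    intro g
    refine MonoidHom.ext fun e => ?_
    change permE p w r (actE p w g.1 e) = permW p w r g * permE p w r e * (permW p w r g)⁻¹
    rw [eq_mul_inv_iff_mul_eq]
    ext1 q
    rcases q with a | a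
    · change Sum.inl (g.1.right a.1, (g.1.left (g.1.right a.1) : ZMod p) *
          Multiplicative.toAdd e (g.1.right⁻¹ (g.1.right a.1)) +
            (g.1.left (g.1.right a.1) : ZMod p) * a.2) =
        Sum.inl (g.1.right a.1,
          (g.1.left (g.1.right a.1) : ZMod p) * (Multiplicative.toAdd e a.1 + a.2))
      rw [← Equiv.Perm.mul_apply g.1.right⁻¹, inv_mul_cancel, Equiv.Perm.one_apply, mul_add]
    · rfl)

/-! ### labels -/

/-- labels of the characters of the local group -/
def LabL (p w r : ℕ) : Type :=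
  {q : P0 × (Fin p → P0) // q.1.size = r ∧ ∑ i, (q.2 i).size = w}

/-- the twist -/
def LabL.tw {p w r : ℕ} (q : LabL p w r) : LabL p w r :=
  ⟨(q.1.1.conj, fun i => (q.1.2 i.rev).conj), by
    rw [P0.size_conj]
    exact q.2.1, by
    have h := Equiv.sum_comp (Fin.revPerm (n := p)) (fun i => (q.1.2 i).size)
    simp only [Fin.revPerm_apply] at h
    simp only [P0.size_conj]
    rw [h]
    exact q.2.2⟩

/-- the degree -/
noncomputable def LabL.dg {p w r : ℕ} (mid : Fin p) (q : LabL p w r) : ℕ :=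
  (p - 1) ^ (q.1.2 mid).size * Nat.multinomial Finset.univ (fun i => (q.1.2 i).size) *
    (∏ i, (q.1.2 i).f) * q.1.1.f

/-- labels of the characters of `Cl ⋊ (S_v × S_r)` -/
def LabY (v r : ℕ) : Type :=
  {q : SP × SP × ℤˣ // q.1.size = v ∧ q.2.1.size = r ∧ (Even (q.1.len + q.2.1.len) → q.2.2 = 1)}

/-- the twist -/
def LabY.tw {v r : ℕ} (q : LabY v r) : LabY v r :=
  ⟨(q.1.1, q.1.2.1, if Even (q.1.1.len + q.1.2.1.len) then q.1.2.2 else -q.1.2.2),
    q.2.1, q.2.2.1, fun h => by
      rw [if_pos h]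
      exact q.2.2.2 h⟩

/-- the degree -/
def LabY.dg {v r : ℕ} (q : LabY v r) : ℕ :=
  2 ^ (v + r - (q.1.1.len + q.1.2.1.len + 1) / 2) * q.1.1.g * q.1.2.1.g

/-- labels of the spin characters of the local group: a label for `Cl ⋊ (S_v × S_r)` for some
`v ≤ w` and `m` partitions of total size `w - v` (`m = (p - 1) / 2`) -/
def LabZ (m w r : ℕ) : Type :=
  {q : (Σ v : ℕ, LabY v r) × (Fin m → P0) // q.1.1 + ∑ i, (q.2 i).size = w}

/-- the twist -/
def LabZ.tw {m w r : ℕ} (q : LabZ m w r) : LabZ m w r :=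
  ⟨(⟨q.1.1.1, q.1.1.2.tw⟩, q.1.2), q.2⟩

/-- the degree -/
noncomputable def LabZ.dg {m w r : ℕ} (q : LabZ m w r) : ℕ :=
  2 ^ (w * m) * (2 * m) ^ q.1.1.1 * w.choose q.1.1.1 *
    Nat.multinomial Finset.univ (fun i => (q.1.2 i).size) * 2 ^ (w - q.1.1.1) *
      (∏ i, (q.1.2 i).f) * q.1.1.2.dg

end Pool.Agent.Helper81.AN
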