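import Pool.Agent.Helper7.MK.Defs

/-!
# ALT-20: anticommuting endomorphisms and divisibility of a character by powers of two

If `k` pairwise anticommuting involutions commute with a representation, its character is `2^⌊k/2⌋` times a character.

PROOF. Induction: `k = 0, 1` trivial (`φ` = the character itself). `k + 2`: let `J_1, J_2` be the first two. `V = V₊ ⊕ V₋` (eigenspaces of `J_1` for `1`, `-1`, invariant
under the group), `J_2` maps `V₊` isomorphically onto `V₋` and commutes with the group, so the character of `V` is twice the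
character of `V₊`. On `V₊` the operators `K_j = i J_1 J_2 J_j` (`j ≥ 3`, `i = √-1`) act: `J_1 K_j = i J_2 J_j = K_j J_1`; `K_j^2 = - (J_1 J_2)^2 J_j^2 = 1`; `K_j K_l + K_l K_j = - (J_1 J_2)^2 (J_j J_l + J_l J_j) = 0`;
they commute with the group. (In Lean: `V₊ = LinearMap.ker (J_1 - 1)`, or the range of the projection `(1 + J_1)/2`; trace: `tr ρ(g) = tr(ρ(g) e) + tr(ρ(g) (1-e))` with
`e = (1 + J_1)/2`, and `J_2 e J_2⁻¹ = 1 - e`, so both traces are equal, `tr ρ(g) = 2 tr(ρ(g) e) = 2 tr(ρ(g) | V₊)`.)
-/

set_option autoImplicit false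

namespace Pool.Agent.Helper81.AN

open Pool.Agent.Helper42.INC Pool.Agent.Helper7.MK

/-- restriction of an endomorphism to the fixed space of another one with which it commutes -/
private noncomputable def resE {V : Type} [AddCommGroup V] [Module ℂ V] (J A : Module.End ℂ V)
    (h : J * A = A * J) : Module.End ℂ (LinearMap.ker (J - 1)) :=
  LinearMap.restrict A (p := LinearMap.ker (J - 1)) (q := LinearMap.ker (J - 1)) (by
    intro x hx
    rw [LinearMap.mem_ker, LinearMap.sub_apply, Module.End.one_apply, sub_eq_zero] at hx ⊢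
    have h1 := congrArg (fun f : Module.End ℂ V => f x) h
    simp only [Module.End.mul_apply] at h1
    rw [h1, hx])

private theorem resE_coe {V : Type} [AddCommGroup V] [Module ℂ V] (J A : Module.End ℂ V)
    (h : J * A = A * J) (x : LinearMap.ker (J - 1)) : ((resE J A h x : LinearMap.ker (J - 1)) : V) = A x := rfl

private theorem trace_resE {V : Type} [AddCommGroup V] [Module ℂ V] [FiniteDimensional ℂ V]
    (J J' A : Module.End ℂ V) (hJ : J * J = 1) (hJ' : J' * J' = 1) (hJJ : J * J' = -(J' * J))
    (h : J * A = A * J) (h' : J' * A = A * J') :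
    LinearMap.trace ℂ V A = 2 * LinearMap.trace ℂ _ (resE J A h) := by
  set e : Module.End ℂ V := (1 / 2 : ℂ) • (1 + J) with he
  have h1 : J' * e * J' = 1 - e := by
    rw [he]
    have h2 : J' * J * J' = -J := by
      have h3 : J' * J = -(J * J') := by rw [hJJ, neg_neg]
      rw [h3, neg_mul, mul_assoc, hJ', mul_one]
    rw [mul_smul_comm, smul_mul_assoc, mul_add, add_mul, mul_one, hJ', h2]
    module
  have hmem : ∀ x, e x ∈ LinearMap.ker (J - 1) := by
    intro x
    rw [LinearMap.mem_ker, LinearMap.sub_apply, Module.End.one_apply, sub_eq_zero]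
    have h4 : J * e = e := by
      rw [he, mul_smul_comm, mul_add, mul_one, hJ, add_comm]
    exact congrArg (fun f : Module.End ℂ V => f x) h4
  let π : V →ₗ[ℂ] LinearMap.ker (J - 1) := LinearMap.codRestrict (LinearMap.ker (J - 1)) e hmem
  have h5 : A * e = (LinearMap.ker (J - 1)).subtype ∘ₗ ((resE J A h) ∘ₗ π) := by
    ext x
    rfl
  have h6 : π ∘ₗ (LinearMap.ker (J - 1)).subtype = LinearMap.id := by
    ext x
    change e x = x
    have hx : J (x : V) = x := by
      have := x.2
      rw [LinearMap.mem_ker, LinearMap.sub_apply, Module.End.one_apply, sub_eq_zero] at this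
      exact this
    rw [he, LinearMap.smul_apply, LinearMap.add_apply, Module.End.one_apply, hx]
    module
  have h7 : LinearMap.trace ℂ V (A * e) = LinearMap.trace ℂ _ (resE J A h) := by
    rw [h5, LinearMap.trace_comp_comm', LinearMap.comp_assoc, h6, LinearMap.comp_id]
  have h8 : LinearMap.trace ℂ V (A * (1 - e)) = LinearMap.trace ℂ V (A * e) := by
    rw [← h1, ← mul_assoc, ← mul_assoc, LinearMap.trace_mul_comm, ← mul_assoc, ← mul_assoc, h',
      mul_assoc A J' J', hJ', mul_one]
  have h9 : A = A * e + A * (1 - e) := by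
    rw [← mul_add, add_sub_cancel, mul_one]
  calc LinearMap.trace ℂ V A = LinearMap.trace ℂ V (A * e + A * (1 - e)) := by rw [← h9]
    _ = _ := by rw [map_add, h8, h7, two_mul]

theorem div_char {G : Type} [Group G] (k : ℕ) : ∀ {V : Type} [AddCommGroup V] [Module ℂ V]
    [FiniteDimensional ℂ V] (ρ : Representation ℂ G V) (J : Fin k → Module.End ℂ V)
    (_ : ∀ i, J i * J i = 1) (_ : ∀ i j, i ≠ j → J i * J j = -(J j * J i))
    (_ : ∀ i g, J i * ρ g = ρ g * J i),
    ∃ φ : G → ℂ, IsChar φ ∧ ∀ g, ρ.character g = 2 ^ (k / 2) * φ g := by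
  induction k using Nat.twoStepInduction with
  | zero =>
    intro V _ _ _ ρ J _ _ _
    exact ⟨ρ.character, ⟨V, inferInstance, inferInstance, inferInstance, ρ, rfl⟩, fun g => by simp⟩
  | one =>
    intro V _ _ _ ρ J _ _ _
    exact ⟨ρ.character, ⟨V, inferInstance, inferInstance, inferInstance, ρ, rfl⟩, fun g => by simp⟩
  | more k ih _ =>
    intro V _ _ _ ρ J h1 h2 h3
    let ρ' : Representation ℂ G (LinearMap.ker (J 0 - 1)) :=
      { toFun := fun g => resE (J 0) (ρ g) (h3 0 g)
        map_one' := by
          ext x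
          rw [resE_coe, map_one]
          rfl
        map_mul' := by
          intro a b
          ext x
          rw [resE_coe, map_mul]
          rfl }
    have h01 : J 0 * J 1 = -(J 1 * J 0) := h2 0 1 (by simp)
    -- the square of `J 0 * J 1`
    have hsq : (J 0 * J 1) * (J 0 * J 1) = -1 := by
      have : J 1 * J 0 = -(J 0 * J 1) := by rw [h01, neg_neg]
      rw [mul_assoc, ← mul_assoc (J 1), this, neg_mul, mul_neg, mul_assoc (J 0) (J 1) (J 1), h1,
        mul_one, h1]
    have hne0 : ∀ i : Fin k, (i.succ.succ : Fin (k + 2)) ≠ 0 := fun i => Fin.succ_ne_zero _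
    have hne1 : ∀ i : Fin k, (i.succ.succ : Fin (k + 2)) ≠ 1 := by
      intro i hi
      have := congrArg Fin.val hi
      simp at this
    have hc0 : ∀ i : Fin k, J i.succ.succ * (J 0 * J 1) = (J 0 * J 1) * J i.succ.succ := by
      intro i
      rw [← mul_assoc, h2 _ 0 (hne0 i), neg_mul, mul_assoc, h2 _ 1 (hne1 i), mul_neg, neg_neg,
        mul_assoc]
    let K : Fin k → Module.End ℂ V := fun i => Complex.I • ((J 0 * J 1) * J i.succ.succ)
    have hK0 : ∀ i, J 0 * K i = K i * J 0 := by
      intro i
      change J 0 * (Complex.I • ((J 0 * J 1) * J i.succ.succ)) =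
        (Complex.I • ((J 0 * J 1) * J i.succ.succ)) * J 0
      rw [mul_smul_comm, smul_mul_assoc]
      congr 1
      rw [mul_assoc (J 0 * J 1), h2 _ 0 (hne0 i), mul_neg, ← mul_assoc (J 0 * J 1),
        mul_assoc (J 0) (J 1) (J 0), ← neg_mul, ← mul_neg, ← h01, ← mul_assoc]
    have hKg : ∀ i g, K i * ρ g = ρ g * K i := by
      intro i g
      change (Complex.I • ((J 0 * J 1) * J i.succ.succ)) * ρ g =
        ρ g * (Complex.I • ((J 0 * J 1) * J i.succ.succ))
      rw [mul_smul_comm, smul_mul_assoc]
      congr 1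
      rw [mul_assoc, h3, ← mul_assoc, mul_assoc (J 0), h3, ← mul_assoc, h3, mul_assoc, mul_assoc,
        mul_assoc]
    have hKK : ∀ i j, K i * K j = J i.succ.succ * J j.succ.succ := by
      intro i j
      change (Complex.I • ((J 0 * J 1) * J i.succ.succ)) *
        (Complex.I • ((J 0 * J 1) * J j.succ.succ)) = _
      rw [smul_mul_smul_comm, Complex.I_mul_I, mul_assoc (J 0 * J 1), ← mul_assoc (J i.succ.succ),
        hc0, ← mul_assoc, ← mul_assoc, hsq]
      simp
    obtain ⟨φ, hφ, hφ2⟩ := ih ρ' (fun i => resE (J 0) (K i) (hK0 i)) (by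
        intro i
        ext x
        change K i (K i (x : V)) = x
        have := congrArg (fun f : Module.End ℂ V => f x) ((hKK i i).trans (h1 _))
        exact this) (by
        intro i j hij
        ext x
        change K i (K j (x : V)) = -(K j (K i (x : V)))
        have h4 : K i * K j = -(K j * K i) := by
          rw [hKK, hKK]
          exact h2 _ _ (by simpa [Fin.ext_iff] using hij)
        have := congrArg (fun f : Module.End ℂ V => f x) h4
        exact this) (by
        intro i g
        ext x
        change K i (ρ g (x : V)) = ρ g (K i (x : V))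
        exact congrArg (fun f : Module.End ℂ V => f x) (hKg i g))
    refine ⟨φ, hφ, fun g => ?_⟩
    have h5 : ρ.character g = 2 * ρ'.character g :=
      trace_resE (J 0) (J 1) (ρ g) (h1 0) (h1 1) h01 (h3 0 g) (h3 1 g)
    have h6 : (k + 2) / 2 = k / 2 + 1 := by omega
    rw [h5, hφ2, h6, pow_succ]
    ring

end Pool.Agent.Helper81.AN
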