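import Pool.Agent.Helper81.AN.PPComm

/-!
# ALT-14: expansion of the coefficients `Xc l S` and divisibility by powers of two

For `S` (`0 ∉ S`) with `q = |S|` elements there is a function `K` of the sequences of `q` natural numbers with
`2^(number of zeros of α)` dividing `K α`, `K α = 0` unless `Σ α = Σ S`, and
`Xc l S = Σ_{f : positions of l → Fin q} K (α_f)`, `α_f j` = the sum of the entries of `l` at the positions with `f = j`.

PROOF. Let `s_1 > ... > s_q` be the elements of `S` (`s : Fin q → ℕ`, decreasing; e.g. `S.orderEmbOfFin` and `Fin.rev`). Work over `ℤ`.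
(1) For every vector `x`: `x(S) = (-1)^(Σ S) (φ_{-s_q} ... φ_{-s_1} x)(∅)`: the value at `∅` of `φ_{-s_q} y` is `(-1)^(s_q) y({s_q})`, and inserting `s_j`
  into `{s_{j+1}, .., s_q}` has `nab = 0`, as `s_j` is the largest; so each step gives the sign `(-1)^(s_j)`. (`φ_{-k}` inserts `k`.)
(2) `ε(y) := y(∅)` satisfies `ε(mv m y) = 0` for `m ≥ 1` (empty sums).
(3) `φ_k mv m = mv m φ_k - φ_{k+m}` (`mv_phi` for `ℤ`). By induction over `l` (for arbitrary sequences `k : Fin q → ℤ`):
  `ε(φ_{k_q} ... φ_{k_1} P_{m_1} ... P_{m_t} (dl ∅)) = (-1)^t Σ_f ε(φ_{k_q + α_f(q)} ... φ_{k_1 + α_f(1)} (dl ∅))`: moving `P_{m_1}` to the left through all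
  `φ`'s gives minus the sum over `j` of the terms with `k_j` replaced by `k_j + m_1`, and the term with `P_{m_1}` at
  the very left is zero by (2).
(4) Put `K α = (-1)^(Σ S + Σ α) ε(φ_{α_q - s_q} ... φ_{α_1 - s_1} (dl ∅))`. As all entries of `l` are odd, `t ≡ Σ l = Σ α_f (mod 2)`, so
  the signs in (1) and (3) combine to `(-1)^(Σ S + Σ α_f)`.
(5) Degree: `φ_k` changes the sum of the elements by `k`, so `ε(φ_{k_q} .. φ_{k_1} dl ∅) ≠ 0` implies `Σ k = 0`: (the vector is a multiple of a basis
  vector `dl T`; `Σ T = Σ k`, `|T| = #{k_j > 0} - #{k_j < 0}`). So also `#{j : k_j > 0} = #{j : k_j < 0}`.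
(6) Divisibility: each `φ_k`, `k > 0`, has a factor `2`: `φ_{k_q} .. φ_{k_1} (dl ∅)` is `2^#{k_j > 0}` times an integral vector. With
  `k_j = α_j - s_j`: if `K α ≠ 0` then `#{k_j > 0} = #{k_j < 0} ≥ #{j : α_j = 0}` (as `s_j > 0`).
Suggestion: prove by induction over a list `ks` of integers that `(ks.map phi).prod (dl ∅) = (c • dl T)` with `2^#{k > 0} ∣ c` and, if
`c ≠ 0`: `(Σ T : ℤ) = ks.sum`, `|T| + #{k < 0} = #{k > 0}`.
-/

set_option autoImplicit false

namespace Pool.Agent.Helper81.AN

theorem neg_pow_length : ∀ (l : List ℕ), (∀ m ∈ l, Odd m) →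
    (-1 : ℤ) ^ l.length = (-1) ^ l.sum := by
  intro l
  induction l with
  | nil => intro _; rfl
  | cons m l ih =>
    intro hl
    rw [List.length_cons, List.sum_cons, pow_succ, pow_add, ih (fun a ha => hl a (by simp [ha])),
      (hl m (by simp)).neg_one_pow]
    ring

/-- products of fermions -/
def Ph : (q : ℕ) → (Fin q → ℤ) → Module.End ℤ (Fk ℤ)
  | 0, _ => 1
  | (q + 1), k => phi ℤ (k 0) * Ph q (fun j => k j.succ)

theorem Ph_comm (m : ℕ) (hm : Odd m) : ∀ (q : ℕ) (k : Fin q → ℤ),
    Ph q k * mv ℤ m = mv ℤ m * Ph q k -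
      ∑ j : Fin q, Ph q (fun i => k i + if i = j then (m : ℤ) else 0) := by
  have hs : Function.Surjective (Int.castRingHom ℤ) := fun z => ⟨z, by simp⟩
  intro q
  induction q with
  | zero =>
    intro k
    simp [Ph]
  | succ q ih =>
    intro k
    have h1 := mv_phi ℤ hs m hm (k 0)
    rw [Fin.sum_univ_succ]
    have h2 : Ph (q + 1) (fun i => k i + if i = 0 then (m : ℤ) else 0) =
        phi ℤ (k 0 + m) * Ph q (fun j => k j.succ) := by
      show phi ℤ (k 0 + if (0 : Fin (q + 1)) = 0 then (m : ℤ) else 0) *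
        Ph q (fun j => k j.succ + if j.succ = 0 then (m : ℤ) else 0) = _
      rw [if_pos rfl]
      congr 2
      funext j
      rw [if_neg (Fin.succ_ne_zero j), add_zero]
    have h3 : ∀ j : Fin q, Ph (q + 1) (fun i => k i + if i = j.succ then (m : ℤ) else 0) =
        phi ℤ (k 0) * Ph q (fun i => k i.succ + if i = j then (m : ℤ) else 0) := by
      intro j
      show phi ℤ (k 0 + if (0 : Fin (q + 1)) = j.succ then (m : ℤ) else 0) *
        Ph q (fun i => k i.succ + if i.succ = j.succ then (m : ℤ) else 0) = _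
      rw [if_neg (Fin.succ_ne_zero j).symm, add_zero]
      simp only [Fin.succ_inj]
    rw [h2]
    simp only [h3]
    rw [← Finset.mul_sum]
    show phi ℤ (k 0) * Ph q (fun j => k j.succ) * mv ℤ m = _
    rw [mul_assoc, ih, ← h1]
    show _ = mv ℤ m * (phi ℤ (k 0) * Ph q (fun j => k j.succ)) - _
    simp only [mul_sub, sub_mul, mul_assoc]
    abel

private theorem mv_empty (m : ℕ) (y : Fk ℤ) : mv ℤ m y ∅ = 0 := by
  simp [mv]

theorem Ph_ML {q : ℕ} : ∀ (l : List ℕ), (∀ m ∈ l, Odd m) → ∀ (k : Fin q → ℤ),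
    Ph q k (ML ℤ l (dl ℤ ∅)) ∅ = (-1) ^ l.length * ∑ f : Fin l.length → Fin q,
      Ph q (fun j => k j + ((∑ i, if f i = j then l.get i else 0 : ℕ) : ℤ)) (dl ℤ ∅) ∅ := by
  intro l
  induction l with
  | nil =>
    intro _ k
    have : ML ℤ [] = 1 := by simp [ML]
    rw [this]
    simp
  | cons m l ih =>
    intro hl k
    have hm : Odd m := hl m (by simp)
    have hl' : ∀ m ∈ l, Odd m := fun a ha => hl a (by simp [ha])
    have h1 : ML ℤ (m :: l) = mv ℤ m * ML ℤ l := by
      simp [ML]
    have h2 : Ph q k (ML ℤ (m :: l) (dl ℤ ∅)) = (Ph q k * mv ℤ m) (ML ℤ l (dl ℤ ∅)) := by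
      rw [h1]
      rfl
    rw [h2, Ph_comm m hm, LinearMap.sub_apply, LinearMap.sum_apply]
    rw [Pi.sub_apply, Finset.sum_apply]
    have h3 : (mv ℤ m * Ph q k) (ML ℤ l (dl ℤ ∅)) ∅ = 0 := mv_empty m _
    rw [h3, zero_sub]
    simp only [ih hl']
    have hpow : (-1 : ℤ) ^ (m :: l).length = -(-1) ^ l.length := by
      rw [List.length_cons, pow_succ]
      ring
    rw [← Finset.mul_sum, hpow, neg_mul, neg_inj]
    congr 1
    have hsum := (Fin.consEquiv (fun _ : Fin (l.length + 1) => Fin q)).sum_comp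
      (fun f : Fin (l.length + 1) → Fin q =>
        Ph q (fun j => k j + ((∑ i : Fin (l.length + 1), if f i = j then (m :: l).get i else 0 : ℕ) : ℤ))
          (dl ℤ ∅) ∅)
    refine Eq.trans ?_ hsum
    rw [Fintype.sum_prod_type]
    refine Finset.sum_congr rfl fun j _ => Finset.sum_congr rfl fun f _ => ?_
    refine congrArg (fun g : Fin q → ℤ => Ph q g (dl ℤ ∅) ∅) ?_
    funext i
    rw [add_assoc]
    congr 1
    have h4 : (∑ p : Fin (l.length + 1), if (Fin.consEquiv (fun _ : Fin (l.length + 1) => Fin q)) (j, f) p = i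
        then (m :: l).get p else 0 : ℕ) = (if i = j then m else 0) +
          ∑ p, if f p = i then l.get p else 0 := by
      rw [Fin.sum_univ_succ]
      congr 1
      simp only [Fin.consEquiv_apply, Fin.cons_zero]
      by_cases hij : j = i
      · subst hij
        simp
      · rw [if_neg hij, if_neg (Ne.symm hij)]
    rw [h4]
    push_cast
    rfl

theorem Ph_neg : ∀ (q : ℕ) (t : Fin q → ℕ), StrictMono t → (∀ j, 0 < t j) → ∀ (x : Fk ℤ)
    (T : Finset ℕ), (∀ u ∈ T, ∀ j, u < t j) →
    Ph q (fun j => -(t j : ℤ)) x T = (-1) ^ (∑ j, t j) * x (T ∪ Finset.univ.image t) := by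
  intro q
  induction q with
  | zero =>
    intro t _ _ x T _
    simp [Ph]
  | succ q ih =>
    intro t ht hpos x T hT
    have h0 := hpos 0
    have h1 : t 0 ∉ T := fun h => lt_irrefl _ (hT _ h 0)
    have h2 : nab T (t 0) = 0 := by
      unfold nab
      rw [Finset.card_eq_zero, Finset.filter_eq_empty_iff]
      intro u hu
      have := hT u hu 0
      omega
    have h3 : Ph (q + 1) (fun j => -(t j : ℤ)) x T =
        (-1) ^ (t 0 + nab T (t 0)) * (Ph q (fun j => -((t j.succ : ℕ) : ℤ)) x) (insert (t 0) T) := by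
      show phi ℤ (-(t 0 : ℤ)) (Ph q (fun j => -((t j.succ : ℕ) : ℤ)) x) T = _
      have e1 : ¬ (0 < -(t 0 : ℤ)) := by omega
      have e2 : ¬ (-(t 0 : ℤ) = 0) := by omega
      have e3 : (-(-(t 0 : ℤ))).toNat = t 0 := by omega
      simp only [phi, LinearMap.coe_mk, AddHom.coe_mk]
      rw [if_neg e1, if_neg e2, e3, if_neg h1]
    rw [h3, ih (fun j => t j.succ) (fun a b hab => ht (Fin.succ_lt_succ_iff.2 hab))
      (fun j => hpos _) x (insert (t 0) T), h2, Fin.sum_univ_succ, add_zero, pow_add, mul_assoc]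
    · congr 3
      ext u
      simp only [Finset.mem_union, Finset.mem_insert, Finset.mem_image, Finset.mem_univ, true_and]
      constructor
      · rintro ((rfl | h) | ⟨j, rfl⟩)
        · exact Or.inr ⟨0, rfl⟩
        · exact Or.inl h
        · exact Or.inr ⟨j.succ, rfl⟩
      · rintro (h | ⟨j, rfl⟩)
        · exact Or.inl (Or.inr h)
        · refine Fin.cases ?_ (fun j => ?_) j
          · exact Or.inl (Or.inl rfl)
          · exact Or.inr ⟨j, rfl⟩
    · intro u hu j
      rw [Finset.mem_insert] at hu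
      rcases hu with rfl | hu
      · exact ht (Fin.succ_pos j)
      · exact hT u hu _

theorem phi_dl (k : ℤ) (T : Finset ℕ) : ∃ (c : ℤ) (T' : Finset ℕ), phi ℤ k (dl ℤ T) = c • dl ℤ T' ∧
    (0 < k → 2 ∣ c) ∧ (c ≠ 0 → ((∑ s ∈ T', s : ℕ) : ℤ) = ((∑ s ∈ T, s : ℕ) : ℤ) + k ∧
      T'.card + (if k < 0 then 1 else 0) = T.card + (if 0 < k then 1 else 0)) := by
  rcases lt_trichotomy 0 k with hk | hk | hk
  · by_cases h : k.toNat ∈ T
    · refine ⟨0, ∅, ?_, fun _ => dvd_zero _, fun h => (h rfl).elim⟩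
      funext S
      simp only [phi, LinearMap.coe_mk, AddHom.coe_mk, dl, if_pos hk, zero_smul, Pi.zero_apply]
      split_ifs with h1 h2
      · exfalso
        rw [← h2] at h
        exact Finset.notMem_erase _ _ h
      · simp
      · rfl
    · refine ⟨2 * (-1) ^ nab (insert k.toNat T) k.toNat, insert k.toNat T, ?_,
        fun _ => Dvd.intro _ rfl, fun _ => ⟨?_, ?_⟩⟩
      · funext S
        simp only [phi, LinearMap.coe_mk, AddHom.coe_mk, dl, if_pos hk, Pi.smul_apply, smul_eq_mul]
        by_cases h1 : S = insert k.toNat T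
        · subst h1
          rw [if_pos (Finset.mem_insert_self _ _), Finset.erase_insert h, if_pos rfl, if_pos rfl]
        · rw [if_neg h1]
          split_ifs with h2 h3
          · exfalso
            apply h1
            rw [← h3, Finset.insert_erase h2]
          · ring
          · ring
      · rw [Finset.sum_insert h]
        push_cast
        omega
      · rw [Finset.card_insert_of_notMem h, if_neg (by omega), if_pos hk]
  · subst hk
    refine ⟨(-1) ^ T.card, T, ?_, fun h => (lt_irrefl _ h).elim, fun _ => ⟨by simp, by simp⟩⟩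
    funext S
    simp only [phi, LinearMap.coe_mk, AddHom.coe_mk, dl, lt_irrefl, if_false, if_true, Pi.smul_apply,
      smul_eq_mul]
    by_cases h1 : S = T
    · subst h1
      rfl
    · rw [if_neg h1]
      ring
  · have e1 : ¬ (0 < k) := by omega
    have e2 : ¬ (k = 0) := by omega
    by_cases h : (-k).toNat ∈ T
    · refine ⟨(-1) ^ ((-k).toNat + nab (T.erase (-k).toNat) (-k).toNat), T.erase (-k).toNat, ?_,
        fun h => (e1 h).elim, fun _ => ⟨?_, ?_⟩⟩
      · funext S
        simp only [phi, LinearMap.coe_mk, AddHom.coe_mk, dl, if_neg e1, if_neg e2, Pi.smul_apply,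
          smul_eq_mul]
        by_cases h1 : S = T.erase (-k).toNat
        · subst h1
          rw [if_neg (Finset.notMem_erase _ _), Finset.insert_erase h, if_pos rfl, if_pos rfl]
        · rw [if_neg h1]
          split_ifs with h2 h3
          · ring
          · exfalso
            apply h1
            rw [← h3, Finset.erase_insert h2]
          · ring
      · have := Finset.add_sum_erase T (fun s => s) h
        rw [← this]
        push_cast
        omega
      · rw [Finset.card_erase_of_mem h, if_pos hk, if_neg e1]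
        have := Finset.card_pos.2 ⟨_, h⟩
        omega
    · refine ⟨0, ∅, ?_, fun _ => dvd_zero _, fun h => (h rfl).elim⟩
      funext S
      simp only [phi, LinearMap.coe_mk, AddHom.coe_mk, dl, if_neg e1, if_neg e2, zero_smul,
        Pi.zero_apply]
      split_ifs with h1 h2
      · rfl
      · exfalso
        rw [← h2] at h
        exact h (Finset.mem_insert_self _ _)
      · ring

theorem Ph_dl : ∀ (q : ℕ) (k : Fin q → ℤ), ∃ (c : ℤ) (T : Finset ℕ),
    Ph q k (dl ℤ ∅) = c • dl ℤ T ∧
    (2 : ℤ) ^ (Finset.univ.filter (fun j => 0 < k j)).card ∣ c ∧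
    (c ≠ 0 → ((∑ s ∈ T, s : ℕ) : ℤ) = ∑ j, k j ∧
      T.card + (Finset.univ.filter (fun j => k j < 0)).card =
        (Finset.univ.filter (fun j => 0 < k j)).card) := by
  intro q
  induction q with
  | zero =>
    intro k
    exact ⟨1, ∅, by simp [Ph], by simp, fun _ => by simp⟩
  | succ q ih =>
    intro k
    obtain ⟨c', T', h1, h2, h3⟩ := ih (fun j => k j.succ)
    obtain ⟨c, T, h4, h5, h6⟩ := phi_dl (k 0) T'
    have e1 : (Finset.univ.filter (fun j : Fin (q + 1) => 0 < k j)).card =
        (if 0 < k 0 then 1 else 0) + (Finset.univ.filter (fun j : Fin q => 0 < k j.succ)).card := by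
      rw [Finset.card_filter, Finset.card_filter, Fin.sum_univ_succ]
    have e2 : (Finset.univ.filter (fun j : Fin (q + 1) => k j < 0)).card =
        (if k 0 < 0 then 1 else 0) + (Finset.univ.filter (fun j : Fin q => k j.succ < 0)).card := by
      rw [Finset.card_filter, Finset.card_filter, Fin.sum_univ_succ]
    refine ⟨c' * c, T, ?_, ?_, ?_⟩
    · show phi ℤ (k 0) (Ph q (fun j => k j.succ) (dl ℤ ∅)) = _
      rw [h1, map_smul, h4, smul_smul]
    · rw [e1, pow_add, mul_comm]
      refine mul_dvd_mul h2 ?_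
      split_ifs with h
      · rw [pow_one]
        exact h5 h
      · rw [pow_zero]
        exact one_dvd _
    · intro hc
      have hc1 : c' ≠ 0 := left_ne_zero_of_mul hc
      have hc2 : c ≠ 0 := right_ne_zero_of_mul hc
      obtain ⟨h7, h8⟩ := h3 hc1
      obtain ⟨h9, h10⟩ := h6 hc2
      refine ⟨?_, ?_⟩
      · rw [h9, h7, Fin.sum_univ_succ]
        ring
      · rw [e1, e2]
        omega

theorem exp_X (S : Finset ℕ) (hS : 0 ∉ S) :
    ∃ K : (Fin S.card → ℕ) → ℤ,
      (∀ α, (2 : ℤ) ^ (Finset.univ.filter (fun j => α j = 0)).card ∣ K α) ∧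
      (∀ α, K α ≠ 0 → ∑ j, α j = ∑ s ∈ S, s) ∧
      ∀ l : List ℕ, (∀ m ∈ l, Odd m) →
        Xc l S = ∑ f : Fin l.length → Fin S.card,
          K (fun j => ∑ i, if f i = j then l.get i else 0) := by
  classical
  let t : Fin S.card → ℕ := fun j => S.orderEmbOfFin rfl j
  have ht : StrictMono t := (S.orderEmbOfFin rfl).strictMono
  have htS : ∀ j, t j ∈ S := fun j => Finset.orderEmbOfFin_mem S rfl j
  have hpos : ∀ j, 0 < t j := by
    intro j
    refine Nat.pos_of_ne_zero fun h => hS ?_
    rw [← h]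
    exact htS j
  have himg : Finset.univ.image t = S := by
    ext u
    rw [Finset.mem_image]
    constructor
    · rintro ⟨j, -, rfl⟩
      exact htS j
    · intro hu
      have h1 : u ∈ Set.range (S.orderEmbOfFin rfl) := by
        rw [Finset.range_orderEmbOfFin]
        exact hu
      obtain ⟨j, hj⟩ := h1
      exact ⟨j, Finset.mem_univ _, hj⟩
  have hsum : ∑ j, t j = ∑ s ∈ S, s := by
    conv_rhs => rw [← himg]
    rw [Finset.sum_image]
    exact fun a _ b _ hab => ht.injective hab
  refine ⟨fun α => (-1) ^ (∑ s ∈ S, s + ∑ j, α j) *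
    Ph S.card (fun j => -(t j : ℤ) + (α j : ℤ)) (dl ℤ ∅) ∅, ?_, ?_, ?_⟩
  · intro α
    obtain ⟨c, T, h1, h2, h3⟩ := Ph_dl S.card (fun j => -(t j : ℤ) + (α j : ℤ))
    refine Dvd.dvd.mul_left ?_ _
    rw [h1]
    show _ ∣ c * dl ℤ T ∅
    unfold dl
    split_ifs with hT
    · rw [mul_one]
      by_cases hc : c = 0
      · rw [hc]
        exact dvd_zero _
      · refine dvd_trans (pow_dvd_pow 2 ?_) h2
        have h4 := (h3 hc).2
        rw [← hT, Finset.card_empty, zero_add] at h4
        rw [← h4]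
        refine Finset.card_le_card fun j hj => ?_
        rw [Finset.mem_filter] at hj ⊢
        refine ⟨Finset.mem_univ _, ?_⟩
        have := hpos j
        rw [hj.2]
        push_cast
        omega
    · rw [mul_zero]
      exact dvd_zero _
  · intro α hα
    obtain ⟨c, T, h1, h2, h3⟩ := Ph_dl S.card (fun j => -(t j : ℤ) + (α j : ℤ))
    have h4 : Ph S.card (fun j => -(t j : ℤ) + (α j : ℤ)) (dl ℤ ∅) ∅ ≠ 0 :=
      right_ne_zero_of_mul hα
    rw [h1] at h4
    have h5 : c * dl ℤ T ∅ ≠ 0 := h4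
    have hc : c ≠ 0 := left_ne_zero_of_mul h5
    have hT : ∅ = T := by
      by_contra hne
      apply h5
      unfold dl
      rw [if_neg hne, mul_zero]
    have h6 := (h3 hc).1
    rw [← hT, Finset.sum_empty, Finset.sum_add_distrib, Finset.sum_neg_distrib] at h6
    rw [← hsum]
    have h7 : ((∑ j, α j : ℕ) : ℤ) = ((∑ j, t j : ℕ) : ℤ) := by
      push_cast
      push_cast at h6
      linarith
    exact_mod_cast h7
  · intro l hl
    have h1 := Ph_neg S.card t ht hpos (ML ℤ l (dl ℤ ∅)) ∅ (by simp)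
    rw [Finset.empty_union, himg, hsum] at h1
    have h2 : Xc l S = (-1) ^ (∑ s ∈ S, s) *
        Ph S.card (fun j => -(t j : ℤ)) (ML ℤ l (dl ℤ ∅)) ∅ := by
      rw [h1, ← mul_assoc, ← pow_add, ← two_mul, pow_mul]
      norm_num
      rfl
    rw [h2, Ph_ML l hl, Finset.mul_sum, Finset.mul_sum]
    refine Finset.sum_congr rfl fun f _ => ?_
    show _ = (-1) ^ (∑ s ∈ S, s + ∑ j, ∑ i, if f i = j then l.get i else 0) * _
    rw [pow_add, ← mul_assoc]
    congr 2
    have h3 : (∑ j, ∑ i, if f i = j then l.get i else 0) = l.sum := by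
      rw [Finset.sum_comm]
      simp only [Finset.sum_ite_eq, Finset.mem_univ, if_true]
      rw [← List.sum_ofFn, List.ofFn_get]
    rw [h3]
    exact neg_pow_length l hl

end Pool.Agent.Helper81.AN
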