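import Pool.Agent.Helper81.AN.UPerm
import Pool.Agent.Helper57.AN.Cover

/-!
# ALT-44: the basic representation extends to the double cover

`π : K → Perm ι` a double cover of the alternating group (`Cov π`, kernel of order two generated by `z`, `|ι| ≥ 8`), `U : Cl ι → GL_d(ℂ)` with `U z = -1` and image spanning all matrices. There is `ρ : K → GL_d(ℂ)` with `ρ(k) U(c) ρ(k)⁻¹ = U(π(k) c)` and `ρ(z) = -1`.

PROOF. Let `G1 = {(A, σ) ∈ GL_d × Perm ι : σ even, A U(c) A⁻¹ = U(pact σ c) for all c}`, a subgroup. `G1 → A(ι)` is onto by `exists_M` (for even `σ`: `pz = 1`), and its kernel consists of the `(A, 1)` with `A` commuting with all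
`U(c)`, so `A` scalar: it is central in `G1`. Let `D = ⁅G1, G1⁆`. (1) `D` is finite: the center of `G1` has finite index, so the set of commutators is finite, and `Subgroup` of commutators is finite (Schur: Mathlib
`Subgroup.finite_commutator...`/`card_commutator_dvd_index_center_pow` in `Mathlib/GroupTheory/Schreier.lean`: instance `Finite (commutator G)` from `Finite (commutatorSet G)`). (2) `D → A(ι)` is onto, as `A(ι)` is perfect (`alternatingGroup` is simple non abelian, or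
`alternatingGroup_perfect`-type lemmas: `alternatingGroup.commutator...` in Mathlib), so `G1 = D * center`, hence `D = ⁅G1, G1⁆ = ⁅D, D⁆` is perfect. (3) `-1 ∈ D`: choose four different points `1, 2, 3, 4` and `T_{ij}` from `exists_T`. `a = T_12 T_34`, `b = T_13 T_24` lie over
`(1 2)(3 4)`, `(1 3)(2 4)` (`T U(a_k) T⁻¹ = - U(a_(swap k))`; the signs cancel in the product). `a T_13 a⁻¹ = T_24` and `a T_24 a⁻¹ = T_13` (conjugation by `a` permutes the `U(a_k)`, and `T_13` is `(U a_1 - U a_3)/√2`), so `a b a⁻¹ = T_24 T_13 = - T_13 T_24 = - b` (disjoint transpositions: the operators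
anticommute), so `[a, b] = -1`. (4) By `cover_bound` for `D → Perm ι` (`Cov`), the kernel has order at most two, and it contains `(-1, 1)`: order two. By `cover_unique` there is an isomorphism `e : K ≃* D` over `Perm ι`; let `ρ(k)` be the first component of `e k`. `e z` is the nontrivial element
`(-1, 1)` of the kernel.
-/

set_option autoImplicit false

open Matrix Equiv
open scoped commutatorElement

namespace Pool.Agent.Helper81.AN

open Pool.Agent.Helper57.AN

section

variable {ι : Type} [Fintype ι] [DecidableEq ι] {d : ℕ}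

/-- the operators which implement even permutations -/
def G1 (U : Cl ι →* GL (Fin d) ℂ) : Subgroup (GL (Fin d) ℂ × Perm ι) where
  carrier := {x | Perm.sign x.2 = 1 ∧ ∀ c, x.1 * U c * x.1⁻¹ = U (pact x.2 c)}
  one_mem' := by
    refine ⟨map_one _, fun c => ?_⟩
    rw [Prod.fst_one, Prod.snd_one, pact_one, one_mul, inv_one, mul_one]
  mul_mem' := by
    rintro x y ⟨hx, hx'⟩ ⟨hy, hy'⟩
    refine ⟨?_, fun c => ?_⟩
    · rw [Prod.snd_mul, map_mul, hx, hy, mul_one]
    · rw [Prod.fst_mul, Prod.snd_mul, pact_mul, ← hx', ← hy']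
      group
  inv_mem' := by
    rintro x ⟨hx, hx'⟩
    refine ⟨?_, fun c => ?_⟩
    · rw [Prod.snd_inv, map_inv, hx, inv_one]
    · have h := hx' (pact x.2⁻¹ c)
      rw [← pact_mul, mul_inv_cancel, pact_one] at h
      rw [Prod.fst_inv, Prod.snd_inv, ← h]
      group

theorem mem_G1 (U : Cl ι →* GL (Fin d) ℂ) (A : GL (Fin d) ℂ) (σ : Perm ι) :
    (A, σ) ∈ G1 U ↔ Perm.sign σ = 1 ∧ ∀ c, A * U c * A⁻¹ = U (pact σ c) := Iff.rfl

/-- the permutation -/
def qG (U : Cl ι →* GL (Fin d) ℂ) : G1 U →* Perm ι := (MonoidHom.snd _ _).comp (G1 U).subtype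

theorem qG_range (U : Cl ι →* GL (Fin d) ℂ) (hU : U Cl.z = -1) :
    (qG U).range = alternatingGroup ι := by
  ext σ
  rw [Perm.mem_alternatingGroup]
  constructor
  · rintro ⟨x, rfl⟩
    exact x.2.1
  · intro hσ
    obtain ⟨M, hM⟩ := exists_M U hU σ
    refine ⟨⟨(M, σ), hσ, fun c => ?_⟩, rfl⟩
    apply Units.ext
    rw [hM c, pz, if_pos hσ]
    simp

theorem qG_ker (U : Cl ι →* GL (Fin d) ℂ) (hspan : Submodule.span ℂ {M : Matrix (Fin d) (Fin d) ℂ |
      ∃ c : Cl ι, (U c : Matrix (Fin d) (Fin d) ℂ) = M} = ⊤) (x : G1 U) (hx : qG U x = 1)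
    (y : G1 U) : x * y = y * x := by
  have hx2 : x.1.2 = 1 := hx
  have hc : ∀ c, (x.1.1 : Matrix (Fin d) (Fin d) ℂ) * (U c : Matrix (Fin d) (Fin d) ℂ) =
      (U c : Matrix (Fin d) (Fin d) ℂ) * (x.1.1 : Matrix (Fin d) (Fin d) ℂ) := by
    intro c
    have h := x.2.2 c
    rw [hx2, pact_one, mul_inv_eq_iff_eq_mul] at h
    exact congrArg Units.val h
  have hcomm : ∀ M : Matrix (Fin d) (Fin d) ℂ, (x.1.1 : Matrix (Fin d) (Fin d) ℂ) * M =
      M * (x.1.1 : Matrix (Fin d) (Fin d) ℂ) := by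
    intro M
    have hM : M ∈ Submodule.span ℂ {M : Matrix (Fin d) (Fin d) ℂ |
      ∃ c : Cl ι, (U c : Matrix (Fin d) (Fin d) ℂ) = M} := by
      rw [hspan]
      trivial
    induction hM using Submodule.span_induction with
    | mem x hx =>
      obtain ⟨c, rfl⟩ := hx
      exact hc c
    | zero => rw [mul_zero, zero_mul]
    | add x y _ _ hx hy => rw [mul_add, add_mul, hx, hy]
    | smul a x _ hx => rw [mul_smul_comm, smul_mul_assoc, hx]
  apply Subtype.ext
  apply Prod.ext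
  · exact Units.ext (hcomm _)
  · change x.1.2 * y.1.2 = y.1.2 * x.1.2
    rw [hx2, one_mul, mul_one]

/-- two elements over the same permutation differ by a central element -/
theorem qG_diff (U : Cl ι →* GL (Fin d) ℂ) (hspan : Submodule.span ℂ
      {M : Matrix (Fin d) (Fin d) ℂ | ∃ c : Cl ι, (U c : Matrix (Fin d) (Fin d) ℂ) = M} = ⊤)
    (x x' : G1 U) (hx : qG U x = qG U x') : ∃ c : G1 U, (∀ g, c * g = g * c) ∧ x = c * x' := by
  refine ⟨x * x'⁻¹, fun g => qG_ker U hspan _ ?_ g, by rw [inv_mul_cancel_right]⟩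
  rw [map_mul, map_inv, hx, mul_inv_cancel]

theorem comm_same (U : Cl ι →* GL (Fin d) ℂ) (hspan : Submodule.span ℂ
      {M : Matrix (Fin d) (Fin d) ℂ | ∃ c : Cl ι, (U c : Matrix (Fin d) (Fin d) ℂ) = M} = ⊤)
    (x x' y y' : G1 U) (hx : qG U x = qG U x') (hy : qG U y = qG U y') : ⁅x, y⁆ = ⁅x', y'⁆ := by
  obtain ⟨c, hc, rfl⟩ := qG_diff U hspan x x' hx
  obtain ⟨c', hc', rfl⟩ := qG_diff U hspan y y' hy
  exact comm_central c c' x' y' hc hc'

theorem finite_commutatorSet (U : Cl ι →* GL (Fin d) ℂ) (hspan : Submodule.span ℂ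
      {M : Matrix (Fin d) (Fin d) ℂ | ∃ c : Cl ι, (U c : Matrix (Fin d) (Fin d) ℂ) = M} = ⊤) :
    Finite (commutatorSet (G1 U)) := by
  let s : (qG U).range → G1 U := fun σ => σ.2.choose
  have hs : ∀ σ : (qG U).range, qG U (s σ) = σ.1 := fun σ => σ.2.choose_spec
  have hsub : commutatorSet (G1 U) ⊆
      Set.range fun p : (qG U).range × (qG U).range => ⁅s p.1, s p.2⁆ := by
    rintro _ ⟨x, y, rfl⟩
    refine ⟨(⟨qG U x, x, rfl⟩, ⟨qG U y, y, rfl⟩), ?_⟩
    exact comm_same U hspan _ _ _ _ (hs _) (hs _)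
  exact (Set.toFinite _).subset hsub

/-- the kernel of the perfect part -/
def pD (U : Cl ι →* GL (Fin d) ℂ) : commutator (G1 U) →* Perm ι :=
  (qG U).comp (commutator (G1 U)).subtype

theorem map_comm (h8 : 8 ≤ Fintype.card ι) (U : Cl ι →* GL (Fin d) ℂ) (hU : U Cl.z = -1) :
    (commutator (G1 U)).map (qG U) = alternatingGroup ι := by
  rw [commutator_def, Subgroup.map_commutator, ← MonoidHom.range_eq_map, qG_range U hU]
  exact commutator_alternatingGroup_eq_self (by rw [Nat.card_eq_fintype_card]; omega)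

theorem cov_pD (h8 : 8 ≤ Fintype.card ι) (U : Cl ι →* GL (Fin d) ℂ) (hU : U Cl.z = -1)
    (hspan : Submodule.span ℂ
      {M : Matrix (Fin d) (Fin d) ℂ | ∃ c : Cl ι, (U c : Matrix (Fin d) (Fin d) ℂ) = M} = ⊤) :
    Cov (pD U) := by
  have hmap := map_comm h8 U hU
  refine ⟨?_, ?_, ?_⟩
  · have h1 : commutator (G1 U) ≤ ⁅commutator (G1 U), commutator (G1 U)⁆ := by
      have h2 : commutator (G1 U) = Subgroup.closure (commutatorSet (G1 U)) :=
        commutator_eq_closure _
      rw [h2, Subgroup.closure_le, ← h2]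
      rintro _ ⟨x, y, rfl⟩
      have hx : ∃ x' ∈ commutator (G1 U), qG U x' = qG U x := by
        have : qG U x ∈ (commutator (G1 U)).map (qG U) := by
          rw [hmap, ← qG_range U hU]
          exact ⟨x, rfl⟩
        exact this
      have hy : ∃ y' ∈ commutator (G1 U), qG U y' = qG U y := by
        have : qG U y ∈ (commutator (G1 U)).map (qG U) := by
          rw [hmap, ← qG_range U hU]
          exact ⟨y, rfl⟩
        exact this
      obtain ⟨x', hx', ex⟩ := hx
      obtain ⟨y', hy', ey⟩ := hy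
      rw [comm_same U hspan x x' y y' ex.symm ey.symm]
      exact Subgroup.commutator_mem_commutator hx' hy'
    apply Subgroup.map_injective (commutator (G1 U)).subtype_injective
    rw [Subgroup.map_commutator, ← MonoidHom.range_eq_map, Subgroup.range_subtype]
    exact le_antisymm (Subgroup.commutator_le_left _ _) h1
  · unfold pD
    rw [MonoidHom.range_comp, Subgroup.range_subtype]
    exact hmap
  · intro x hx
    rw [Subgroup.mem_center_iff]
    intro g
    apply Subtype.ext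
    exact (qG_ker U hspan x.1 hx g.1).symm

/-- products of two transpositions -/
theorem two_T (U : Cl ι →* GL (Fin d) ℂ) (hU : U Cl.z = -1) (i j k l : ι) (hij : i ≠ j)
    (hkl : k ≠ l) (S T : GL (Fin d) ℂ) (hS : ∀ m, S * U (Cl.a m) * S⁻¹ = -U (Cl.a (swap i j m)))
    (hT : ∀ m, T * U (Cl.a m) * T⁻¹ = -U (Cl.a (swap k l m))) :
    (S * T, swap i j * swap k l) ∈ G1 U := by
  refine ⟨?_, fun c => ?_⟩
  · change Perm.sign (swap i j * swap k l) = 1
    rw [map_mul, Perm.sign_swap hij, Perm.sign_swap hkl]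
    rfl
  · change S * T * U c * (S * T)⁻¹ = U (pact (swap i j * swap k l) c)
    apply Units.ext
    have h1 := swap_all U hU i j S hS (pact (swap k l) c)
    have hp : Cl.par (pact (swap k l) c) = Cl.par c := Cl.par_act _ _
    have h2 : ((S * U (pact (swap k l) c) * S⁻¹ : GL (Fin d) ℂ) : Matrix (Fin d) (Fin d) ℂ) =
        (((Cl.par c : ℤˣ) : ℤ) : ℂ) •
          ((S * T * U c * (S * T)⁻¹ : GL (Fin d) ℂ) : Matrix (Fin d) (Fin d) ℂ) := by
      have h3 : S * T * U c * (S * T)⁻¹ = S * (T * U c * T⁻¹) * S⁻¹ := by group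
      rw [h3]
      simp only [Units.val_mul]
      rw [swap_all U hU k l T hT c]
      simp only [Units.val_mul, mul_smul_comm, smul_mul_assoc]
    rw [pact_mul, h1, h2, hp, smul_smul]
    have h4 : (((Cl.par c : ℤˣ) : ℤ) : ℂ) * (((Cl.par c : ℤˣ) : ℤ) : ℂ) = 1 := by
      rcases Int.units_eq_one_or (Cl.par c) with h | h <;> rw [h] <;> simp
    rw [h4, one_smul]

set_option linter.unusedSimpArgs false in
theorem klein (i j k l : ι) (hij : i ≠ j) (hik : i ≠ k) (hil : i ≠ l) (hjk : j ≠ k)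
    (hjl : j ≠ l) (hkl : k ≠ l) :
    (swap i j * swap k l) * (swap i k * swap j l) =
      (swap i k * swap j l) * (swap i j * swap k l) := by
  ext x
  simp only [Perm.mul_apply]
  by_cases h1 : x = i
  · subst h1
    simp [swap_apply_def, hij, hik, hil, hjk, hjl, hkl, hij.symm, hik.symm, hil.symm, hjk.symm,
      hjl.symm, hkl.symm]
  · by_cases h2 : x = j
    · subst h2
      simp [swap_apply_def, hij, hik, hil, hjk, hjl, hkl, hij.symm, hik.symm, hil.symm, hjk.symm,
        hjl.symm, hkl.symm]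
    · by_cases h3 : x = k
      · subst h3
        simp [swap_apply_def, hij, hik, hil, hjk, hjl, hkl, hij.symm, hik.symm, hil.symm, hjk.symm,
          hjl.symm, hkl.symm]
      · by_cases h4 : x = l
        · subst h4
          simp [swap_apply_def, hij, hik, hil, hjk, hjl, hkl, hij.symm, hik.symm, hil.symm,
            hjk.symm, hjl.symm, hkl.symm]
        · rw [swap_apply_of_ne_of_ne h2 h4, swap_apply_of_ne_of_ne h1 h3,
            swap_apply_of_ne_of_ne h3 h4, swap_apply_of_ne_of_ne h1 h2,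
            swap_apply_of_ne_of_ne h2 h4, swap_apply_of_ne_of_ne h1 h3]

theorem neg_one_mem (h8 : 8 ≤ Fintype.card ι) (U : Cl ι →* GL (Fin d) ℂ) (hU : U Cl.z = -1) :
    ∃ m : G1 U, m ∈ commutator (G1 U) ∧ m.1 = (-1, 1) := by
  obtain ⟨e⟩ : Nonempty (Fin 8 ↪ ι) := Function.Embedding.nonempty_of_card_le (by simpa using h8)
  have hne : ∀ a b : Fin 8, a ≠ b → e a ≠ e b := fun a b h h' => h (e.injective h')
  obtain ⟨i, j, k, l, hij, hik, hil, hjk, hjl, hkl⟩ : ∃ i j k l : ι, i ≠ j ∧ i ≠ k ∧ i ≠ l ∧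
      j ≠ k ∧ j ≠ l ∧ k ≠ l :=
    ⟨e 0, e 1, e 2, e 3, hne _ _ (by decide), hne _ _ (by decide), hne _ _ (by decide),
      hne _ _ (by decide), hne _ _ (by decide), hne _ _ (by decide)⟩
  obtain ⟨Tij, _, _, hTij⟩ := exists_T U hU i j hij
  obtain ⟨Tkl, _, _, hTkl⟩ := exists_T U hU k l hkl
  obtain ⟨Tik, sik, vik, hTik⟩ := exists_T U hU i k hik
  obtain ⟨Tjl, sjl, vjl, hTjl⟩ := exists_T U hU j l hjl
  have ha := two_T U hU i j k l hij hkl Tij Tkl hTij hTkl
  have hb := two_T U hU i k j l hik hjl Tik Tjl hTik hTjl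
  have hs0 : (Real.sqrt 2 : ℂ) ≠ 0 := by
    rw [Complex.ofReal_ne_zero]
    exact (Real.sqrt_pos.2 (by norm_num)).ne'
  set a : GL (Fin d) ℂ := Tij * Tkl with hadef
  -- conjugation by `a`
  have hconj : ∀ m, a * U (Cl.a m) * a⁻¹ = U (Cl.a (swap i j (swap k l m))) := by
    intro m
    rw [ha.2, pact_a]
    rfl
  have hconj' : ∀ m, (a : Matrix (Fin d) (Fin d) ℂ) * (U (Cl.a m) : Matrix (Fin d) (Fin d) ℂ) =
      (U (Cl.a (swap i j (swap k l m))) : Matrix (Fin d) (Fin d) ℂ) *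
        (a : Matrix (Fin d) (Fin d) ℂ) := by
    intro m
    have h := hconj m
    rw [mul_inv_eq_iff_eq_mul] at h
    exact congrArg Units.val h
  have pi' : swap i j (swap k l i) = j := by
    rw [swap_apply_of_ne_of_ne hik hil, swap_apply_left]
  have pj' : swap i j (swap k l j) = i := by
    rw [swap_apply_of_ne_of_ne hjk hjl, swap_apply_right]
  have pk' : swap i j (swap k l k) = l := by
    rw [swap_apply_left, swap_apply_of_ne_of_ne hil.symm hjl.symm]
  have pl' : swap i j (swap k l l) = k := by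
    rw [swap_apply_right, swap_apply_of_ne_of_ne hik.symm hjk.symm]
  have h1 : a * Tik = Tjl * a := by
    apply Units.ext
    apply smul_right_injective _ hs0
    change (Real.sqrt 2 : ℂ) • ((a : Matrix (Fin d) (Fin d) ℂ) * (Tik : Matrix (Fin d) (Fin d) ℂ)) =
      (Real.sqrt 2 : ℂ) • ((Tjl : Matrix (Fin d) (Fin d) ℂ) * (a : Matrix (Fin d) (Fin d) ℂ))
    rw [← mul_smul_comm, ← smul_mul_assoc, vik, vjl, mul_sub, sub_mul, hconj', hconj', pi', pk']
  have h2 : a * Tjl = Tik * a := by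
    apply Units.ext
    apply smul_right_injective _ hs0
    change (Real.sqrt 2 : ℂ) • ((a : Matrix (Fin d) (Fin d) ℂ) * (Tjl : Matrix (Fin d) (Fin d) ℂ)) =
      (Real.sqrt 2 : ℂ) • ((Tik : Matrix (Fin d) (Fin d) ℂ) * (a : Matrix (Fin d) (Fin d) ℂ))
    rw [← mul_smul_comm, ← smul_mul_assoc, vik, vjl, mul_sub, sub_mul, hconj', hconj', pj', pl']
  -- the two operators anticommute
  have h3 : Tik * Tjl = -1 * (Tjl * Tik) := by
    apply Units.ext
    apply smul_right_injective _ hs0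
    apply smul_right_injective _ hs0
    have e1 : (Real.sqrt 2 : ℂ) • (Real.sqrt 2 : ℂ) •
        ((Tik : Matrix (Fin d) (Fin d) ℂ) * (Tjl : Matrix (Fin d) (Fin d) ℂ)) =
        ((U (Cl.a i) : Matrix (Fin d) (Fin d) ℂ) - (U (Cl.a k) : Matrix (Fin d) (Fin d) ℂ)) *
        ((U (Cl.a j) : Matrix (Fin d) (Fin d) ℂ) - (U (Cl.a l) : Matrix (Fin d) (Fin d) ℂ)) := by
      rw [← vik, ← vjl, smul_mul_assoc, mul_smul_comm]
    have e2 : (Real.sqrt 2 : ℂ) • (Real.sqrt 2 : ℂ) •
        ((Tjl : Matrix (Fin d) (Fin d) ℂ) * (Tik : Matrix (Fin d) (Fin d) ℂ)) =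
        ((U (Cl.a j) : Matrix (Fin d) (Fin d) ℂ) - (U (Cl.a l) : Matrix (Fin d) (Fin d) ℂ)) *
        ((U (Cl.a i) : Matrix (Fin d) (Fin d) ℂ) - (U (Cl.a k) : Matrix (Fin d) (Fin d) ℂ)) := by
      rw [← vik, ← vjl, smul_mul_assoc, mul_smul_comm]
    change (Real.sqrt 2 : ℂ) • (Real.sqrt 2 : ℂ) •
        ((Tik : Matrix (Fin d) (Fin d) ℂ) * (Tjl : Matrix (Fin d) (Fin d) ℂ)) =
      (Real.sqrt 2 : ℂ) • (Real.sqrt 2 : ℂ) • (((-1 : GL (Fin d) ℂ) : Matrix (Fin d) (Fin d) ℂ) *
        ((Tjl : Matrix (Fin d) (Fin d) ℂ) * (Tik : Matrix (Fin d) (Fin d) ℂ)))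
    rw [e1, Units.val_neg, Units.val_one, neg_one_mul, smul_neg, smul_neg, e2, sub_mul, mul_sub,
      mul_sub, sub_mul, mul_sub, mul_sub, U_anti U hU hij, U_anti U hU hil,
      U_anti U hU hjk.symm, U_anti U hU hkl]
    abel
  let x : G1 U := ⟨_, ha⟩
  let y : G1 U := ⟨_, hb⟩
  refine ⟨⁅x, y⁆, Subgroup.commutator_mem_commutator (Subgroup.mem_top _) (Subgroup.mem_top _), ?_⟩
  rw [commutatorElement_def]
  change (a * (Tik * Tjl) * a⁻¹ * (Tik * Tjl)⁻¹, (swap i j * swap k l) * (swap i k * swap j l) *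
    (swap i j * swap k l)⁻¹ * (swap i k * swap j l)⁻¹) = (-1, 1)
  apply Prod.ext
  · change a * (Tik * Tjl) * a⁻¹ * (Tik * Tjl)⁻¹ = -1
    rw [← mul_assoc a, h1, mul_assoc Tjl, h2, ← mul_assoc Tjl, mul_inv_cancel_right,
      mul_inv_eq_iff_eq_mul, h3]
    simp
  · change (swap i j * swap k l) * (swap i k * swap j l) *
      (swap i j * swap k l)⁻¹ * (swap i k * swap j l)⁻¹ = 1
    rw [klein i j k l hij hik hil hjk hjl hkl, mul_inv_cancel_right, mul_inv_cancel]

end

theorem exists_ext {ι : Type} [Fintype ι] [DecidableEq ι] (h8 : 8 ≤ Fintype.card ι) {K : Type}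
    [Group K] [Finite K] {π : K →* Perm ι} (h : Cov π) (z : K) (hz1 : z ≠ 1)
    (hz : ∀ k, π k = 1 ↔ (k = 1 ∨ k = z)) {d : ℕ} (hd : 0 < d) (U : Cl ι →* GL (Fin d) ℂ)
    (hU : U Cl.z = -1) (hspan : Submodule.span ℂ {M : Matrix (Fin d) (Fin d) ℂ |
      ∃ c : Cl ι, (U c : Matrix (Fin d) (Fin d) ℂ) = M} = ⊤) :
    ∃ ρ : K →* GL (Fin d) ℂ, (∀ k c, ρ k * U c * (ρ k)⁻¹ = U (pact (π k) c)) ∧ ρ z = -1 := by
  have hfin : Finite (commutatorSet (G1 U)) := finite_commutatorSet U hspan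
  have hcov := cov_pD h8 U hU hspan
  have hbound : Nat.card (pD U).ker ≤ 2 := cover_bound h8 hcov
  obtain ⟨m, hm, hm1⟩ := neg_one_mem h8 U hU
  have hneg : (-1 : GL (Fin d) ℂ) ≠ 1 := by
    intro h1
    have h2 : ((-1 : GL (Fin d) ℂ) : Matrix (Fin d) (Fin d) ℂ) ⟨0, hd⟩ ⟨0, hd⟩ = 1 := by
      rw [h1, Units.val_one, Matrix.one_apply_eq]
    rw [Units.val_neg, Units.val_one, Matrix.neg_apply, Matrix.one_apply_eq] at h2
    norm_num at h2
  let m' : (pD U).ker := ⟨⟨m, hm⟩, by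
    change m.1.2 = 1
    rw [hm1]⟩
  have hm' : m' ≠ 1 := by
    intro h1
    have h2 : m = 1 := congrArg (fun t : (pD U).ker => t.1.1) h1
    rw [h2] at hm1
    exact hneg (congrArg Prod.fst hm1).symm
  have hcard : Nat.card (pD U).ker = 2 := by
    refine le_antisymm hbound ?_
    have : Nontrivial (pD U).ker := ⟨m', 1, hm'⟩
    exact Finite.one_lt_card
  have hall : ∀ y : (pD U).ker, y = 1 ∨ y = m' := by
    intro y
    obtain ⟨a, b, hab, huniv⟩ := Nat.card_eq_two_iff.1 hcard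
    have h1 : ∀ t : (pD U).ker, t = a ∨ t = b := by
      intro t
      have : t ∈ ({a, b} : Set (pD U).ker) := by
        rw [huniv]
        trivial
      simpa using this
    rcases h1 1 with e1 | e1 <;> rcases h1 m' with e2 | e2 <;> rcases h1 y with e3 | e3
    · exact Or.inl (e3.trans e1.symm)
    · exact absurd (e2.trans e1.symm) hm'
    · exact Or.inl (e3.trans e1.symm)
    · exact Or.inr (e3.trans e2.symm)
    · exact Or.inr (e3.trans e2.symm)
    · exact Or.inl (e3.trans e1.symm)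
    · exact absurd (e2.trans e1.symm) hm'
    · exact Or.inl (e3.trans e1.symm)
  have hKcard : Nat.card π.ker = 2 := by
    rw [Nat.card_eq_two_iff]
    refine ⟨⟨1, map_one _⟩, ⟨z, (hz z).2 (Or.inr rfl)⟩, fun h1 => hz1 (congrArg Subtype.val h1).symm,
      ?_⟩
    ext ⟨t, ht⟩
    simp only [Set.mem_insert_iff, Set.mem_singleton_iff, Set.mem_univ, iff_true]
    rcases (hz t).1 ht with h1 | h1
    · exact Or.inl (Subtype.ext h1)
    · exact Or.inr (Subtype.ext h1)
  obtain ⟨e, he⟩ := cover_unique h8 h hKcard hcov hcard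
  let ρ : K →* GL (Fin d) ℂ := (MonoidHom.fst _ _).comp ((G1 U).subtype.comp
    ((commutator (G1 U)).subtype.comp e.toMonoidHom))
  have hρ : ∀ k, ρ k = ((e k).1.1).1 := fun _ => rfl
  refine ⟨ρ, fun k c => ?_, ?_⟩
  · have h1 := (e k).1.2.2 c
    have h2 : (e k).1.1.2 = π k := he k
    rw [h2] at h1
    exact h1
  · have h1 : pD U (e z) = 1 := by
      rw [he, hz]
      exact Or.inr rfl
    have h2 : (⟨e z, h1⟩ : (pD U).ker) ≠ 1 := by
      intro h3
      have h4 : e z = 1 := congrArg Subtype.val h3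
      exact hz1 (e.injective (h4.trans (map_one e).symm))
    rcases hall ⟨e z, h1⟩ with h3 | h3
    · exact absurd h3 h2
    · have h4 : e z = ⟨m, hm⟩ := congrArg Subtype.val h3
      rw [hρ, h4]
      change m.1.1 = -1
      rw [hm1]

end Pool.Agent.Helper81.AN
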