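import Pool.Agent.Helper81.AN.Defs

/-!
# Project ALT: the Fock space of strict partitions, definitions

Vectors are all functions on finite sets of natural numbers (the element `0` plays no role: it is
never created). `phi k` (`k ∈ ℤ`): neutral fermions, `PP m` (`m ∈ ℤ` odd): power sum operators over `ℚ`, `mv m`
(`m ≥ 1` odd): the same operators over every commutative ring, by an explicit formula (removal of
`m`-bars).
-/

set_option autoImplicit false

namespace Pool.Agent.Helper81.AN

/-- vectors of the Fock space -/
abbrev Fk (R : Type) : Type := Finset ℕ → R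

/-- number of elements larger than `k` -/
def nab (S : Finset ℕ) (k : ℕ) : ℕ := (S.filter (fun t => k < t)).card

/-- number of elements strictly between `u` and `v` -/
def nbt (S : Finset ℕ) (u v : ℕ) : ℕ := (S.filter (fun t => u < t ∧ t < v)).card

variable (R : Type) [CommRing R]

/-- the neutral fermions -/
def phi (k : ℤ) : Module.End R (Fk R) where
  toFun x := fun S =>
    if 0 < k then
      (if k.toNat ∈ S then 2 * (-1) ^ nab S k.toNat * x (S.erase k.toNat) else 0)
    else if k = 0 then (-1) ^ S.card * x S
    else (if (-k).toNat ∈ S then 0 else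
      (-1) ^ ((-k).toNat + nab S (-k).toNat) * x (insert (-k).toNat S))
  map_add' x y := by
    funext S
    simp only [Pi.add_apply]
    split_ifs <;> ring
  map_smul' c x := by
    funext S
    simp only [Pi.smul_apply, smul_eq_mul, RingHom.id_apply]
    split_ifs <;> ring

/-- the index set of the sum defining `PP m` -/
noncomputable def ppI (m : ℤ) (S : Finset ℕ) : Finset ℤ :=
  (S.image (fun t : ℕ => (t : ℤ)) ∪ Finset.Icc (-|m|) 0).filter (fun a => m < 2 * a)

/-- the power sum operators `½ Σ_{2a > m} (-1)^(m-a) φ_a φ_{m-a}` -/
noncomputable def PP (m : ℤ) : Module.End ℚ (Fk ℚ) where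
  toFun x := fun S => (1 / 2) * ∑ a ∈ ppI m S, (-1) ^ (m - a).natAbs *
    (phi ℚ a (phi ℚ (m - a) x)) S
  map_add' x y := by
    funext S
    simp only [Pi.add_apply, map_add]
    rw [← mul_add, ← Finset.sum_add_distrib]
    congr 1
    apply Finset.sum_congr rfl
    intro a _
    ring
  map_smul' c x := by
    funext S
    simp only [Pi.smul_apply, map_smul, smul_eq_mul, RingHom.id_apply]
    rw [Finset.mul_sum, Finset.mul_sum, Finset.mul_sum]
    apply Finset.sum_congr rfl
    intro a _
    ring

/-- the power sum operator for `m ≥ 1` odd, explicit formula -/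
def mv (m : ℕ) : Module.End R (Fk R) where
  toFun x := fun S =>
    (∑ a ∈ S.filter (fun a => m ≤ a), if a = m then
        (-1) ^ (S.filter (fun t => t < m)).card * x (S.erase m)
      else if a - m ∈ S then 0 else
        (-1) ^ nbt S (a - m) a * x (insert (a - m) (S.erase a))) +
    ∑ a ∈ S.filter (fun a => a < m ∧ m < 2 * a ∧ m - a ∈ S),
      2 * (-1) ^ (m - a + nbt S (m - a) a) * x ((S.erase a).erase (m - a))
  map_add' x y := by
    funext S
    simp only [Pi.add_apply]
    rw [add_add_add_comm, ← Finset.sum_add_distrib, ← Finset.sum_add_distrib]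
    congr 1
    · apply Finset.sum_congr rfl
      intro a _
      split_ifs <;> ring
    · apply Finset.sum_congr rfl
      intro a _
      ring
  map_smul' c x := by
    funext S
    simp only [Pi.smul_apply, smul_eq_mul, RingHom.id_apply]
    rw [mul_add, Finset.mul_sum, Finset.mul_sum]
    congr 1
    · apply Finset.sum_congr rfl
      intro a _
      split_ifs <;> ring
    · apply Finset.sum_congr rfl
      intro a _
      ring

/-- the basis vectors -/
def dl (S : Finset ℕ) : Fk R := fun T => if T = S then 1 else 0

/-- finite combinations of the vectors `dl S`, `0 ∉ S` -/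
def V0 : Submodule R (Fk R) := Submodule.span R {x | ∃ S : Finset ℕ, 0 ∉ S ∧ x = dl R S}

/-- products of the operators `mv m` -/
def ML (l : List ℕ) : Module.End R (Fk R) := (l.map (mv R)).prod

/-- the coefficients: `Xc l S` is the coefficient of the basis vector `S` in `∏ P_m |0⟩` -/
def Xc (l : List ℕ) (S : Finset ℕ) : ℤ := ML ℤ l (dl ℤ ∅) S

end Pool.Agent.Helper81.AN
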