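import Pool.Agent.Helper7.MK.Two

/-!
# ALT-49: matched characters when the outer automorphisms form a group of order at most two

PROOF. `D` is the representation of `K × T` on `V_θ ⊗ V_φ*` in matrix form: character `θ(k) φ(t⁻¹)` (`V_θ` affords `θ`, `V_φ` affords `φ`), irreducible. For `c` central in `K` (`c ∈ T`): `D(c, c)` is the scalar
`λ_θ(c) λ_φ(c)⁻¹ = 1` by `hcen` (central elements act by scalars). Let `A = AutTh T θ`.
CASE 1: every `β ∈ A` is `conj t` with `t ∈ T`. Put `R(β) = D(t, t)`: well defined, because `conj t = conj t'` implies `t' = t c` with `c` central. `R` is a homomorphism, `R(β) D(k, t') = D(t k t⁻¹, t t' t⁻¹) R(β)`.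
CASE 2: some `β0 ∈ A` is not of the form `conj t`, `t ∈ T`. Then `β0 = α * conj t1`, so `α = β0 * conj t1⁻¹ ∈ A` (`conj t1 ∈ A` as `θ` is a class function) and `α` is not of the form `conj t`. `D'(k, t) = D(α k, α t)` is an irreducible representation with the same character (`θ ∘ α = θ`;
`φ ∘ α = φ` on `T` by `hinv`), so there is an invertible `M` with `M D(k, t) = D(α k, α t) M`. Then `M² D(k,t) M⁻² = D(α² k, α² t) = D(t0, t0) D(k, t) D(t0, t0)⁻¹` (`α * α = conj t0`), so `M² = μ D(t0, t0)`, `μ ∈ ℂˣ` (Schur); divide `M` by a square root of `μ`: `M² = D(t0, t0)`. Put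
`R(conj t) = D(t, t)`, `R(α * conj t) = M D(t, t)`. Every element of `A` is exactly of one of the two forms, and `t` is unique up to central elements: well defined. Homomorphism: `conj t * (α * conj t') = α * conj (α⁻¹(t) t')` and `D(t, t) M = M D(α⁻¹ t, α⁻¹ t)`;
`(α * conj t) * (α * conj t') = conj (t0 α⁻¹(t) t')` and `M D(t,t) M D(t',t') = M² D(α⁻¹ t, α⁻¹ t) D(t', t')`. (`α⁻¹(t) ∈ T`.) Intertwining: clear.
Tools: `Helper42/INC/Schur.lean`, `Helper42/IR/F/*`, `Helper7/MK/*`; matrix form of a representation: e.g. `Helper42/IR/MatForm.lean` or choose a basis. Equal characters give equivalent representations: `Representation.char_orthonormal` / Mathlib.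
-/

set_option autoImplicit false

namespace Pool.Agent.Helper81.AN

open Pool.Agent.Helper42.INC Pool.Agent.Helper7.MK

private lemma exists_hom {A E : Type} [Group A] [Monoid E] (P : A → E → Prop) (hex : ∀ a, ∃ x, P a x)
    (huniq : ∀ a x y, P a x → P a y → x = y) (hone : P 1 1)
    (hmul : ∀ a b x y, P a x → P b y → P (a * b) (x * y)) : ∃ R : A →* E, ∀ a, P a (R a) := by
  choose R hR using hex
  exact ⟨{ toFun := R
           map_one' := huniq 1 _ _ (hR 1) hone
           map_mul' := fun a b => huniq (a * b) _ _ (hR (a * b)) (hmul a b _ _ (hR a) (hR b)) }, hR⟩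

private lemma schur_end {H : Type} [Group H] {V : Type} [AddCommGroup V] [Module ℂ V] [FiniteDimensional ℂ V]
    (ρ : Representation ℂ H V) (hρ : ρ.IsIrreducible) (X : Module.End ℂ V) (hX : ∀ x, X * ρ x = ρ x * X) :
    ∃ c : ℂ, X = c • (1 : Module.End ℂ V) := by
  let F : Representation.IntertwiningMap ρ ρ := ⟨X, hX⟩
  obtain ⟨c, hc⟩ :=
    (Representation.IsIrreducible.algebraMap_intertwiningMap_bijective_of_isAlgClosed (ρ := ρ)).2 F
  refine ⟨c, ?_⟩
  have : F.toLinearMap = c • LinearMap.id := by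
    rw [← hc]; rfl
  exact this

private lemma exists_intertwiner {H : Type} [Group H] [Finite H] {V : Type} [AddCommGroup V] [Module ℂ V]
    [FiniteDimensional ℂ V] (ρ : Representation ℂ H V) (hρ : ρ.IsIrreducible) (a : MulAut H)
    (ha : ∀ x, ρ.character (a x) = ρ.character x) :
    ∃ M : (Module.End ℂ V)ˣ, ∀ x, (M : Module.End ℂ V) * ρ x = ρ (a x) * (M : Module.End ℂ V) := by
  have := Fintype.ofFinite H
  let ρ' : Representation ℂ H V := ρ.comp a.toMonoidHom
  have hρ' : ρ'.IsIrreducible := by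
    rw [isIrreducible_iff] at hρ ⊢
    refine ⟨hρ.1, fun W hW => hρ.2 W (fun m v hv => ?_)⟩
    have := hW (a.symm m) v hv
    simpa [ρ'] using this
  have hchar : ρ'.character = ρ.character := by ext m; exact ha m
  have hne : Nonempty (Representation.Equiv ρ ρ') := by
    by_contra hcon
    have h1 := Representation.char_orthonormal ρ' ρ
    rw [if_neg hcon] at h1
    have h2 : B ρ'.character ρ.character = 0 := by rw [B_eq]; exact h1
    rw [hchar] at h2
    have h3 : B ρ.character ρ.character = 1 :=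
      B_irr_self ⟨V, _, _, ‹_›, ρ, hρ, rfl⟩
    rw [h3] at h2
    exact one_ne_zero h2
  obtain ⟨e⟩ := hne
  refine ⟨LinearMap.GeneralLinearGroup.ofLinearEquiv e.toLinearEquiv, fun m => ?_⟩
  ext v
  exact Representation.IntertwiningMap.isIntertwining _ _ e.toIntertwiningMap m v

/-- the automorphism of `K × T` given by an automorphism of `K` which stabilizes `T` -/
private def autProd {K : Type} [Group K] (T : Subgroup K) (α : MulAut K) (hα : ∀ x, α x ∈ T ↔ x ∈ T) :
    MulAut (K × T) :=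
  { toFun := fun x => (α x.1, ⟨α x.2, (hα _).2 x.2.2⟩)
    invFun := fun x => (α.symm x.1, ⟨α.symm x.2, (hα _).1 (by
      rw [MulEquiv.apply_symm_apply]; exact x.2.2)⟩)
    left_inv := fun x => Prod.ext (α.symm_apply_apply _) (Subtype.ext (α.symm_apply_apply _))
    right_inv := fun x => Prod.ext (α.apply_symm_apply _) (Subtype.ext (α.apply_symm_apply _))
    map_mul' := fun x y => Prod.ext (map_mul α _ _) (Subtype.ext (map_mul α _ _)) }

private lemma autProd_apply {K : Type} [Group K] (T : Subgroup K) (α : MulAut K)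
    (hα : ∀ x, α x ∈ T ↔ x ∈ T) (k : K) (t t' : T) (h : (t' : K) = α t) :
    autProd T α hα (k, t) = (α k, t') :=
  Prod.ext rfl (Subtype.ext h.symm)

private lemma conj_mem {K : Type} [Group K] (T : Subgroup K) (t : T) (x : K) :
    MulAut.conj (t : K) x ∈ T ↔ x ∈ T := by
  rw [MulAut.conj_apply]
  constructor
  · intro h
    have h2 := T.mul_mem (T.mul_mem (T.inv_mem t.2) h) t.2
    have h3 : (t : K)⁻¹ * ((t : K) * x * (t : K)⁻¹) * (t : K) = x := by group
    rwa [h3] at h2
  · intro h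
    exact T.mul_mem (T.mul_mem t.2 h) (T.inv_mem t.2)

/-- `D (c, c) = 1` for central `c` -/
private lemma diag_central {K : Type} [Group K] [Finite K] (T : Subgroup K) (θ : K → ℂ)
    (hθ : θ ∈ Irr K) (φ : T → ℂ) (hφ : φ ∈ Irr T)
    (hcen : ∀ t : T, (t : K) ∈ Subgroup.center K → θ t * φ 1 = φ t * θ 1)
    {V : Type} [AddCommGroup V] [Module ℂ V] [FiniteDimensional ℂ V]
    (ρ : Representation ℂ (K × T) V) (hρ : ρ.IsIrreducible)
    (hch : ∀ x : K × T, ρ.character x = θ x.1 * φ x.2⁻¹) (c : T) (hc : (c : K) ∈ Subgroup.center K) :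
    ρ ((c : K), c) = 1 := by
  have hcc : ∀ y : K, y * (c : K) = (c : K) * y := Subgroup.mem_center_iff.1 hc
  obtain ⟨a, ha⟩ := schur_end ρ hρ (ρ ((c : K), 1)) (fun x => by
    rw [← map_mul, ← map_mul]
    congr 1
    exact Prod.ext (hcc x.1).symm (by simp))
  obtain ⟨b, hb⟩ := schur_end ρ hρ (ρ (1, c)) (fun x => by
    rw [← map_mul, ← map_mul]
    congr 1
    exact Prod.ext (by simp) (Subtype.ext (hcc x.2).symm))
  obtain ⟨b', hb'⟩ := schur_end ρ hρ (ρ (1, c⁻¹)) (fun x => by
    rw [← map_mul, ← map_mul]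
    congr 1
    refine Prod.ext (by simp) (Subtype.ext ?_)
    change (c : K)⁻¹ * (x.2 : K) = (x.2 : K) * (c : K)⁻¹
    rw [inv_mul_eq_iff_eq_mul, ← mul_assoc, eq_mul_inv_iff_mul_eq, hcc])
  have hn := finrank_ne_zero_of_irr ρ
  obtain ⟨m1, hm1, hθ1⟩ := irr_one hθ
  obtain ⟨m2, hm2, hφ1⟩ := irr_one hφ
  have hn1 : (Module.finrank ℂ V : ℂ) = θ 1 * φ 1 := by
    have h := hch 1
    rw [Representation.char_one] at h
    simpa using h
  have t1 : a * Module.finrank ℂ V = θ c * φ 1 := by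
    have h := hch ((c : K), 1)
    rw [Representation.character, ha, map_smul, LinearMap.trace_one] at h
    simpa using h
  have t2 : b' * Module.finrank ℂ V = θ 1 * φ c := by
    have h := hch (1, c⁻¹)
    rw [Representation.character, hb', map_smul, LinearMap.trace_one] at h
    simpa using h
  have hab : a = b' := by
    apply mul_right_cancel₀ hn
    rw [t1, t2, hcen c hc, mul_comm]
  have hbb : b' * b = 1 := by
    have h : ρ (1, c⁻¹) * ρ (1, c) = 1 := by
      rw [← map_mul, ← map_one ρ]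
      congr 1
      exact Prod.ext (by simp) (by simp)
    rw [hb', hb, smul_mul_smul_comm, mul_one] at h
    have h2 := congrArg (LinearMap.trace ℂ V) h
    rw [map_smul, LinearMap.trace_one, smul_eq_mul] at h2
    exact mul_right_cancel₀ hn (h2.trans (one_mul _).symm)
  have h : ρ ((c : K), c) = ρ ((c : K), 1) * ρ (1, c) := by
    rw [← map_mul]
    congr 1
    exact Prod.ext (by simp) (by simp)
  rw [h, ha, hb, hab, smul_mul_smul_comm, hbb, one_smul, mul_one]

theorem matched_of_two {K : Type} [Group K] [Finite K] (T : Subgroup K) (θ : K → ℂ)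
    (hθ : θ ∈ Irr K) (φ : T → ℂ) (hφ : φ ∈ Irr T) (hcT : Subgroup.center K ≤ T)
    (hcen : ∀ t : T, (t : K) ∈ Subgroup.center K → θ t * φ 1 = φ t * θ 1)
    (α : MulAut K) (hαT : ∀ x, α x ∈ T ↔ x ∈ T) (hα2 : ∃ t ∈ T, α * α = MulAut.conj t)
    (hcase : ∀ β ∈ AutTh T θ, ∃ t ∈ T, β = MulAut.conj t ∨ β = α * MulAut.conj t)
    (hinv : ∀ β ∈ AutTh T θ, ∀ t t' : T, (t' : K) = β t → φ t' = φ t) :
    MatchedAut T θ φ := by
  classical
  obtain ⟨V, iV1, iV2, iV3, ρ, hρ, hch⟩ := irr_two hθ hφ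
  have hch' : ∀ x : K × T, ρ.character x = θ x.1 * φ x.2⁻¹ := fun x => (congrFun hch x).symm
  have hcls : ∀ g x : K, θ (g * x * g⁻¹) = θ x := Irr.isClass hθ
  have hcA : ∀ t : T, MulAut.conj (t : K) ∈ AutTh T θ := fun t =>
    ⟨conj_mem T t, fun x => by rw [MulAut.conj_apply]; exact hcls _ _⟩
  -- the diagonal
  have hUeq : ∀ t t' : T, MulAut.conj (t : K) = MulAut.conj (t' : K) →
      ρ ((t : K), t) = ρ ((t' : K), t') := by
    intro t t' h
    have hc : ((t'⁻¹ * t : T) : K) ∈ Subgroup.center K := by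
      rw [Subgroup.mem_center_iff]
      intro y
      have h1 := congrArg (fun f : MulAut K => f y) h
      simp only [MulAut.conj_apply] at h1
      have h2 : ((t'⁻¹ * t : T) : K) * y = y * ((t'⁻¹ * t : T) : K) := by
        change (t' : K)⁻¹ * (t : K) * y = y * ((t' : K)⁻¹ * (t : K))
        calc (t' : K)⁻¹ * (t : K) * y = (t' : K)⁻¹ * ((t : K) * y * (t : K)⁻¹) * (t : K) := by group
          _ = (t' : K)⁻¹ * ((t' : K) * y * (t' : K)⁻¹) * (t : K) := by rw [h1]
          _ = y * ((t' : K)⁻¹ * (t : K)) := by group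
      exact h2.symm
    have h1 := diag_central T θ hθ φ hφ hcen ρ hρ hch' _ hc
    have h2 : (((t : K), t) : K × T) = ((t' : K), t') * (((t'⁻¹ * t : T) : K), t'⁻¹ * t) := by
      refine Prod.ext ?_ (Subtype.ext ?_)
      · change (t : K) = (t' : K) * ((t' : K)⁻¹ * (t : K))
        group
      · change (t : K) = (t' : K) * ((t' : K)⁻¹ * (t : K))
        group
    rw [h2, map_mul, h1, mul_one]
  have hUmul : ∀ t s : T, ρ ((t : K), t) * ρ ((s : K), s) = ρ (((t * s : T) : K), t * s) := by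
    intro t s
    rw [← map_mul]
    rfl
  have hUconj : ∀ (t : T) (k : K) (s s' : T), (s' : K) = MulAut.conj (t : K) s →
      ρ ((t : K), t) * ρ (k, s) = ρ (MulAut.conj (t : K) k, s') * ρ ((t : K), t) := by
    intro t k s s' h
    rw [← map_mul, ← map_mul]
    congr 1
    refine Prod.ext ?_ (Subtype.ext ?_)
    · change (t : K) * k = (t : K) * k * (t : K)⁻¹ * (t : K)
      group
    · change (t : K) * (s : K) = (s' : K) * (t : K)
      rw [h]
      change (t : K) * (s : K) = (t : K) * s * (t : K)⁻¹ * (t : K)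
      group
  -- it suffices to find `R`
  suffices hR : ∃ R : AutTh T θ →* Module.End ℂ V,
      (∀ (β : AutTh T θ) (k : K) (t t' : T), (t' : K) = β.1 t → R β * ρ (k, t) = ρ (β.1 k, t') * R β) ∧
      (∀ (β : AutTh T θ) (t : T), β.1 = MulAut.conj (t : K) → R β = ρ ((t : K), t)) by
    obtain ⟨R, hR1, hR2⟩ := hR
    let e := (LinearMap.toMatrixAlgEquiv (Module.finBasis ℂ V)).toMulEquiv.toMonoidHom
    refine ⟨Module.finrank ℂ V, e.comp ρ, e.comp R, ?_, ?_, ?_⟩
    · intro k t
      rw [← hch' (k, t)]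
      exact (LinearMap.trace_eq_matrix_trace ℂ (Module.finBasis ℂ V) (ρ (k, t))).symm
    · intro β k t t' h
      change e (R β) * e (ρ (k, t)) = e (ρ (β.1 k, t')) * e (R β)
      rw [← map_mul, ← map_mul, hR1 β k t t' h]
    · intro β t h
      change e (R β) = e (ρ ((t : K), t))
      rw [hR2 β t h]
  by_cases hall : ∀ β ∈ AutTh T θ, ∃ t : T, β = MulAut.conj (t : K)
  · obtain ⟨R, hR⟩ := exists_hom (A := AutTh T θ) (E := Module.End ℂ V)
      (fun β X => ∃ t : T, β.1 = MulAut.conj (t : K) ∧ X = ρ ((t : K), t))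
      (fun β => by
        obtain ⟨t, ht⟩ := hall β.1 β.2
        exact ⟨_, t, ht, rfl⟩)
      (by
        rintro β X Y ⟨t, ht, rfl⟩ ⟨s, hs, rfl⟩
        exact hUeq t s (ht.symm.trans hs))
      ⟨1, by simp, by
        have : (((1 : T) : K), (1 : T)) = (1 : K × T) := rfl
        rw [this, map_one]⟩
      (by
        rintro β γ X Y ⟨t, ht, rfl⟩ ⟨s, hs, rfl⟩
        refine ⟨t * s, ?_, hUmul t s⟩
        rw [Subgroup.coe_mul, ht, hs, Subgroup.coe_mul, map_mul])
    refine ⟨R, ?_, ?_⟩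
    · intro β k s s' h
      obtain ⟨t, ht, hRt⟩ := hR β
      rw [hRt, ht]
      exact hUconj t k s s' (by rw [h, ht])
    · intro β t h
      obtain ⟨s, hs, hRs⟩ := hR β
      rw [hRs]
      exact hUeq s t (hs.symm.trans h)
  · push Not at hall
    obtain ⟨β0, hβ0, hno⟩ := hall
    have hαA : α ∈ AutTh T θ := by
      obtain ⟨t, ht, h | h⟩ := hcase β0 hβ0
      · exact absurd h (hno ⟨t, ht⟩)
      · have h1 : α = β0 * (MulAut.conj t)⁻¹ := by rw [h]; group
        rw [h1]
        exact (AutTh T θ).mul_mem hβ0 ((AutTh T θ).inv_mem (hcA ⟨t, ht⟩))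
    have hnc : ∀ t : T, α ≠ MulAut.conj (t : K) := by
      intro t h
      obtain ⟨s, hs, h' | h'⟩ := hcase β0 hβ0
      · exact absurd h' (hno ⟨s, hs⟩)
      · refine hno (t * ⟨s, hs⟩) ?_
        rw [h', h, Subgroup.coe_mul, map_mul]
    obtain ⟨t0, ht0, hα2⟩ := hα2
    -- the intertwiner
    obtain ⟨M, hM⟩ := exists_intertwiner ρ hρ (autProd T α hαT) (by
      rintro ⟨k, t⟩
      rw [hch', hch', autProd_apply T α hαT k t ⟨α t, (hαT _).2 t.2⟩ rfl]
      change θ (α k) * φ _ = θ k * φ _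
      rw [hαA.2 k]
      congr 1
      exact hinv α hαA t⁻¹ (⟨α t, (hαT _).2 t.2⟩ : T)⁻¹ (map_inv α (t : K)).symm)
    have hM' : ∀ (k : K) (t t' : T), (t' : K) = α t → (M : Module.End ℂ V) * ρ (k, t) = ρ (α k, t') * (M : Module.End ℂ V) := by
      intro k t t' h
      rw [hM, autProd_apply T α hαT k t t' h]
    have hinvU : ρ (((t0⁻¹ : K)), (⟨t0, ht0⟩ : T)⁻¹) * ρ (t0, ⟨t0, ht0⟩) = 1 := by
      rw [← map_mul, ← map_one ρ]
      congr 1
      exact Prod.ext (inv_mul_cancel _) (Subtype.ext (inv_mul_cancel _))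
    have hinvU' : ρ (t0, ⟨t0, ht0⟩) * ρ (((t0⁻¹ : K)), (⟨t0, ht0⟩ : T)⁻¹) = 1 := by
      rw [← map_mul, ← map_one ρ]
      congr 1
      exact Prod.ext (mul_inv_cancel _) (Subtype.ext (mul_inv_cancel _))
    obtain ⟨c, hc⟩ := schur_end ρ hρ
      (ρ (((t0⁻¹ : K)), (⟨t0, ht0⟩ : T)⁻¹) * ((M : Module.End ℂ V) * (M : Module.End ℂ V))) (by
        rintro ⟨k, t⟩
        have e1 := hM' k t ⟨α t, (hαT _).2 t.2⟩ rfl
        have e2 := hM' (α k) ⟨α t, (hαT _).2 t.2⟩ ⟨α (α t), (hαT _).2 ((hαT _).2 t.2)⟩ rfl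
        have e3 := hUconj ⟨t0, ht0⟩ k t ⟨α (α t), (hαT _).2 ((hαT _).2 t.2)⟩ (by
          change (α * α) (t : K) = _
          rw [hα2])
        have e4 : MulAut.conj ((⟨t0, ht0⟩ : T) : K) k = α (α k) := by
          change _ = (α * α) k
          rw [hα2]
        rw [e4] at e3
        have e5 : ρ (((t0⁻¹ : K)), (⟨t0, ht0⟩ : T)⁻¹) * ρ (α (α k), ⟨α (α t), (hαT _).2 ((hαT _).2 t.2)⟩)
            = ρ (k, t) * ρ (((t0⁻¹ : K)), (⟨t0, ht0⟩ : T)⁻¹) := by
          calc _ = ρ (((t0⁻¹ : K)), (⟨t0, ht0⟩ : T)⁻¹) *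
                (ρ (α (α k), ⟨α (α t), (hαT _).2 ((hαT _).2 t.2)⟩) * ρ (t0, ⟨t0, ht0⟩)) *
                ρ (((t0⁻¹ : K)), (⟨t0, ht0⟩ : T)⁻¹) := by
                rw [mul_assoc, mul_assoc, hinvU', mul_one]
            _ = ρ (((t0⁻¹ : K)), (⟨t0, ht0⟩ : T)⁻¹) * (ρ (t0, ⟨t0, ht0⟩) * ρ (k, t)) *
                ρ (((t0⁻¹ : K)), (⟨t0, ht0⟩ : T)⁻¹) := by
                rw [← e3]
            _ = _ := by rw [← mul_assoc, hinvU, one_mul]
        calc ρ (((t0⁻¹ : K)), (⟨t0, ht0⟩ : T)⁻¹) * ((M : Module.End ℂ V) * (M : Module.End ℂ V)) * ρ (k, t)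
            = ρ (((t0⁻¹ : K)), (⟨t0, ht0⟩ : T)⁻¹) * ((M : Module.End ℂ V) * ((M : Module.End ℂ V) * ρ (k, t))) := by
              simp only [mul_assoc]
          _ = (ρ (((t0⁻¹ : K)), (⟨t0, ht0⟩ : T)⁻¹) * ρ (α (α k), ⟨α (α t), (hαT _).2 ((hαT _).2 t.2)⟩)) *
              ((M : Module.End ℂ V) * (M : Module.End ℂ V)) := by
              rw [e1, ← mul_assoc (M : Module.End ℂ V), e2]
              simp only [mul_assoc]
          _ = _ := by rw [e5]; simp only [mul_assoc])
    have hMM : (M : Module.End ℂ V) * (M : Module.End ℂ V) = c • ρ (t0, ⟨t0, ht0⟩) := by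
      calc (M : Module.End ℂ V) * (M : Module.End ℂ V) = ρ (t0, ⟨t0, ht0⟩) *
            (ρ (((t0⁻¹ : K)), (⟨t0, ht0⟩ : T)⁻¹) * ((M : Module.End ℂ V) * (M : Module.End ℂ V))) := by
            rw [← mul_assoc, hinvU', one_mul]
        _ = _ := by rw [hc, mul_smul_comm, mul_one]
    have hnt : Nontrivial V := ((isIrreducible_iff ρ).1 hρ).1
    have hc0 : c ≠ 0 := by
      rintro rfl
      rw [zero_smul] at hMM
      exact (M * M).ne_zero hMM
    obtain ⟨s, hs⟩ := IsAlgClosed.exists_pow_nat_eq c (n := 2) (by norm_num)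
    have hs0 : s ≠ 0 := by
      rintro rfl
      rw [zero_pow (by norm_num)] at hs
      exact hc0 hs.symm
    obtain ⟨N, hNdef⟩ : ∃ N : Module.End ℂ V, N = s⁻¹ • (M : Module.End ℂ V) := ⟨_, rfl⟩
    have hNN : N * N = ρ (t0, ⟨t0, ht0⟩) := by
      rw [hNdef, smul_mul_smul_comm, hMM, smul_smul, ← hs]
      have : s⁻¹ * s⁻¹ * s ^ 2 = 1 := by field_simp
      rw [this, one_smul]
    have hN : ∀ (k : K) (t t' : T), (t' : K) = α t → N * ρ (k, t) = ρ (α k, t') * N := by
      intro k t t' h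
      rw [hNdef, smul_mul_assoc, hM' k t t' h, mul_smul_comm]
    -- the inverse image under `α`
    obtain ⟨a', ha'⟩ : ∃ a' : T → T, ∀ t : T, (t : K) = α (a' t) :=
      ⟨fun t => ⟨α.symm t, (hαT _).1 (by rw [MulEquiv.apply_symm_apply]; exact t.2)⟩,
        fun t => (α.apply_symm_apply _).symm⟩
    have hNU : ∀ t : T, ρ ((t : K), t) * N = N * ρ ((a' t : K), a' t) := by
      intro t
      rw [hN _ _ t (ha' t), ← ha' t]
    have hca : ∀ t : T, MulAut.conj (t : K) * α = α * MulAut.conj ((a' t : T) : K) := by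
      intro t
      apply MulEquiv.ext
      intro x
      change (t : K) * α x * (t : K)⁻¹ = α ((a' t : K) * x * (a' t : K)⁻¹)
      rw [map_mul, map_mul, map_inv, ← ha' t]
    obtain ⟨R, hR⟩ := exists_hom (A := AutTh T θ) (E := Module.End ℂ V)
      (fun β X => (∃ t : T, β.1 = MulAut.conj (t : K) ∧ X = ρ ((t : K), t)) ∨
        ∃ t : T, β.1 = α * MulAut.conj (t : K) ∧ X = N * ρ ((t : K), t))
      (fun β => by
        obtain ⟨t, ht, h | h⟩ := hcase β.1 β.2
        · exact ⟨_, Or.inl ⟨⟨t, ht⟩, h, rfl⟩⟩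
        · exact ⟨_, Or.inr ⟨⟨t, ht⟩, h, rfl⟩⟩)
      (by
        rintro β X Y (⟨t, ht, rfl⟩ | ⟨t, ht, rfl⟩) (⟨s, hs, rfl⟩ | ⟨s, hs, rfl⟩)
        · exact hUeq t s (ht.symm.trans hs)
        · exfalso
          refine hnc (t * s⁻¹) ?_
          rw [Subgroup.coe_mul, map_mul, ← ht, hs, Subgroup.coe_inv, map_inv]
          group
        · exfalso
          refine hnc (s * t⁻¹) ?_
          rw [Subgroup.coe_mul, map_mul, ← hs, ht, Subgroup.coe_inv, map_inv]
          group
        · rw [hUeq t s (mul_left_cancel (ht.symm.trans hs))])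
      (Or.inl ⟨1, by simp, by
        have : (((1 : T) : K), (1 : T)) = (1 : K × T) := rfl
        rw [this, map_one]⟩)
      (by
        rintro β γ X Y (⟨t, ht, rfl⟩ | ⟨t, ht, rfl⟩) (⟨s, hs, rfl⟩ | ⟨s, hs, rfl⟩)
        · refine Or.inl ⟨t * s, ?_, hUmul t s⟩
          rw [Subgroup.coe_mul, ht, hs, Subgroup.coe_mul, map_mul]
        · refine Or.inr ⟨a' t * s, ?_, ?_⟩
          · rw [Subgroup.coe_mul, ht, hs, Subgroup.coe_mul, map_mul, ← mul_assoc, hca, mul_assoc]
          · rw [← mul_assoc, hNU, mul_assoc, hUmul]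
        · refine Or.inr ⟨t * s, ?_, ?_⟩
          · rw [Subgroup.coe_mul, ht, hs, Subgroup.coe_mul, map_mul, mul_assoc]
          · rw [mul_assoc, hUmul]
        · refine Or.inl ⟨⟨t0, ht0⟩ * a' t * s, ?_, ?_⟩
          · rw [Subgroup.coe_mul, ht, hs]
            calc α * MulAut.conj (t : K) * (α * MulAut.conj (s : K)) =
                α * (MulAut.conj (t : K) * α) * MulAut.conj (s : K) := by simp only [mul_assoc]
              _ = (α * α) * MulAut.conj ((a' t : T) : K) * MulAut.conj (s : K) := by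
                rw [hca]; simp only [mul_assoc]
              _ = _ := by
                rw [hα2]
                rw [Subgroup.coe_mul, Subgroup.coe_mul, map_mul, map_mul]
          · calc N * ρ ((t : K), t) * (N * ρ ((s : K), s)) =
                    N * (ρ ((t : K), t) * N) * ρ ((s : K), s) := by
                  simp only [mul_assoc]
              _ = (N * N) * ρ ((a' t : K), a' t) * ρ ((s : K), s) := by
                rw [hNU]; simp only [mul_assoc]
              _ = _ := by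
                rw [hNN, mul_assoc, hUmul]
                have := hUmul ⟨t0, ht0⟩ (a' t * s)
                rw [← mul_assoc] at this
                exact this)
    refine ⟨R, ?_, ?_⟩
    · intro β k s s' h
      rcases hR β with ⟨t, ht, hRt⟩ | ⟨t, ht, hRt⟩
      · rw [hRt, ht]
        exact hUconj t k s s' (by rw [h, ht])
      · rw [hRt, ht, mul_assoc]
        have e1 := hUconj t k s ⟨MulAut.conj (t : K) s, (conj_mem T t _).2 s.2⟩ rfl
        rw [e1, ← mul_assoc, hN _ _ s' (by rw [h, ht]; rfl), mul_assoc]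
        rfl
    · intro β t h
      rcases hR β with ⟨u, hu, hRu⟩ | ⟨u, hu, hRu⟩
      · rw [hRu]
        exact hUeq u t (hu.symm.trans h)
      · exfalso
        refine hnc (t * u⁻¹) ?_
        rw [Subgroup.coe_mul, map_mul, ← h, hu, Subgroup.coe_inv, map_inv]
        group

end Pool.Agent.Helper81.AN
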