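import Pool.Agent.Helper81.AN.CntDefs
import Pool.Agent.Helper81.AN.CntEquiv
import Pool.Agent.Helper81.AN.Match
import Pool.Agent.Helper57.AN.GoodStd

/-!
# ALT-51: the data of `Good` from equality of counts

PROOF. `A = IrrP p K`, `B = IrrP p T`. Involutions: `a θ = θ ∘ α`, `b φ = φ ∘ α|_T`: `α * α = conj t`, `t ∈ T`, and characters are class functions, so `a a θ = θ`, `b b φ = φ` (`φ ∘ conj t = φ` as `t ∈ T`). `a θ ∈ IrrP p K`, `b φ ∈ IrrP p T` (`irr_comp`).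
`D = ℂ × ZMod p`, `f θ = (ν, deg θ ^ 2)` with `θ(z) = ν θ(1)`, `ν = ± 1` (`z` central, `z z = 1`, `exists_central`), same for `T` (`z ∈ T` is central in `T`). `f (a θ) = f θ`: `α z = z` (`α` preserves the center `{1, z}`), `deg` is the value at `1`. Degrees prime to `p` means `deg² ≠ 0` in `ZMod p`.
The counts: for `d = (ν, d')` with `ν = ± 1`, `d' ≠ 0`: `{θ ∈ IrrP p K : f θ = d, a θ = θ}` has `cF p ⊤ α z ν d'` elements (identify `K` with `⊤ : Subgroup K`) and the one for `T` has `cF p T α z ν d'`; for other `d` both are empty. `hcount`. So `exists_equiv_of_counts` gives `F : A ≃ B`, `F (a θ) = b (F θ)`, same `ν`, same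
`deg²`. EQUIVARIANCE: let `β` stabilize `T`, `θ' = θ ∘ β`. If `β = conj t`, `t ∈ T`: `θ' = θ`, and `F θ` is a class function of `T`: fine. If `β = α * conj t`: `θ' = a θ`, `(F θ')(t1) = (b F θ)(t1) = (F θ)(α t1) = (F θ)(α (t t1 t⁻¹))` fine. MATCHED: `matched_of_two` with `φ = F θ`: `hcen`: `θ(c) φ(1) = φ(c) θ(1)` for
`c ∈ {1, z}`; `hinv`: `β ∈ AutTh T θ`, `θ ∘ β = θ`, so by equivariance `F θ = F θ ∘ β`.
-/

set_option autoImplicit false

namespace Pool.Agent.Helper81.AN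

open Pool.Agent.Helper42.INC Pool.Agent.Helper7.MK Pool.Agent.Helper57.AN

open scoped IsMulCommutative in
private theorem sgn_val {X : Type} [Group X] [Finite X] {z : X} (hz : ∀ x, z * x = x * z)
    (hzz : z * z = 1) {χ : X → ℂ} (hχ : χ ∈ Irr X) : χ z / χ 1 = 1 ∨ χ z / χ 1 = -1 := by
  obtain ⟨ν, hν⟩ := exists_central (C := Subgroup.center X) (Subgroup.center X).subtype
    (fun c => c.2) hχ
  have hzc : z ∈ Subgroup.center X := Subgroup.mem_center_iff.2 (fun g => (hz g).symm)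
  have h1 : χ (z * 1) = (ν ⟨z, hzc⟩ : ℂ) * χ 1 := hν ⟨z, hzc⟩ 1
  rw [mul_one] at h1
  have h2 : ν ⟨z, hzc⟩ * ν ⟨z, hzc⟩ = 1 := by
    rw [← map_mul]
    have h3 : (⟨z, hzc⟩ : Subgroup.center X) * ⟨z, hzc⟩ = 1 := Subtype.ext hzz
    rw [h3, map_one]
  have h4 : (ν ⟨z, hzc⟩ : ℂ) * (ν ⟨z, hzc⟩ : ℂ) = 1 := by
    rw [← Units.val_mul, h2, Units.val_one]
  obtain ⟨n, hn0, hn⟩ := irr_one hχ
  have h5 : χ 1 ≠ 0 := by
    rw [hn]
    exact_mod_cast hn0.ne'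
  rw [h1, mul_div_assoc, div_self h5, mul_one]
  exact mul_self_eq_one_iff.1 h4

private def ar {K : Type} [Group K] (α : MulAut K) (S : Subgroup K)
    (hS : ∀ x, α x ∈ S ↔ x ∈ S) : S ≃* S where
  toFun t := ⟨α t, (hS t).2 t.2⟩
  invFun t := ⟨α⁻¹ t, by
    have h := hS (α⁻¹ (t : K))
    rw [MulAut.apply_inv_self] at h
    exact h.1 t.2⟩
  left_inv t := Subtype.ext (MulAut.inv_apply_self _ α t)
  right_inv t := Subtype.ext (MulAut.apply_inv_self _ α t)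
  map_mul' a b := Subtype.ext (map_mul α (a : K) (b : K))

private theorem ar_coe {K : Type} [Group K] (α : MulAut K) (S : Subgroup K)
    (hS : ∀ x, α x ∈ S ↔ x ∈ S) (t : S) : ((ar α S hS t : S) : K) = α t := rfl

private def aa (p : ℕ) {K : Type} [Group K] [Finite K] (α : MulAut K) (S : Subgroup K)
    (hS : ∀ x, α x ∈ S ↔ x ∈ S) (χ : IrrP p S) : IrrP p S :=
  ⟨fun t => χ.1 (ar α S hS t), by
    obtain ⟨n, hn, hp⟩ := χ.2.2
    exact ⟨irr_comp (ar α S hS) χ.2.1, n, by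
      show χ.1 (ar α S hS 1) = n
      rw [map_one, hn], hp⟩⟩

private theorem aa_val (p : ℕ) {K : Type} [Group K] [Finite K] (α : MulAut K) (S : Subgroup K)
    (hS : ∀ x, α x ∈ S ↔ x ∈ S) (χ : IrrP p S) (t : S) :
    (aa p α S hS χ).1 t = χ.1 (ar α S hS t) := rfl

private noncomputable def ff (p : ℕ) {K : Type} [Group K] (S : Subgroup K) (z : K) (hz : z ∈ S)
    (χ : IrrP p S) : ℂ × ZMod p := (χ.1 ⟨z, hz⟩ / χ.1 1, (deg χ.1 : ZMod p) ^ 2)

private theorem aa_fix (p : ℕ) {K : Type} [Group K] [Finite K] (α : MulAut K) (S : Subgroup K)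
    (hS : ∀ x, α x ∈ S ↔ x ∈ S) (χ : IrrP p S) :
    aa p α S hS χ = χ ↔ ∀ t t' : S, (t' : K) = α t → χ.1 t' = χ.1 t := by
  constructor
  · intro h t t' ht
    have h1 : t' = ar α S hS t := Subtype.ext ht
    rw [h1, ← aa_val p α S hS χ t, h]
  · intro h
    apply Subtype.ext
    funext t
    exact h t (ar α S hS t) rfl

private theorem irr_one_ne {X : Type} [Group X] [Finite X] {χ : X → ℂ} (hχ : χ ∈ Irr X) :
    χ 1 ≠ 0 := by
  obtain ⟨n, hn0, hn⟩ := irr_one hχ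
  rw [hn]
  exact_mod_cast hn0.ne'

private theorem mem_irrP {p : ℕ} {X : Type} [Group X] [Finite X] {χ : X → ℂ}
    (hχ : χ ∈ Irr X) {d : ZMod p} (hd : d ≠ 0) (h : (deg χ : ZMod p) ^ 2 = d) : χ ∈ IrrP p X := by
  refine ⟨hχ, deg χ, (deg_cast hχ).symm, fun hp => hd ?_⟩
  rw [← h, (ZMod.natCast_eq_zero_iff (deg χ) p).2 hp]
  exact zero_pow two_ne_zero

private theorem deg_ne {p : ℕ} [Fact p.Prime] {X : Type} [Group X] [Finite X] (χ : IrrP p X) :
    (deg χ.1 : ZMod p) ^ 2 ≠ 0 := by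
  intro h
  obtain ⟨n, hn, hp⟩ := χ.2.2
  have h1 : deg χ.1 = n := deg_eq hn
  rw [h1] at h
  exact hp ((ZMod.natCast_eq_zero_iff n p).1 (pow_eq_zero_iff two_ne_zero |>.1 h))

private theorem ff_iff (p : ℕ) {K : Type} [Group K] [Finite K] (S : Subgroup K) (z : K)
    (hz : z ∈ S) (χ : IrrP p S) (ν : ℂ) (d : ZMod p) : ff p S z hz χ = (ν, d) ↔
      (∀ t : S, (t : K) = z → χ.1 t = ν * χ.1 1) ∧ (deg χ.1 : ZMod p) ^ 2 = d := by
  unfold ff
  rw [Prod.mk.injEq, div_eq_iff (irr_one_ne χ.2.1)]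
  refine and_congr_left fun _ => ⟨fun h t ht => ?_, fun h => h _ rfl⟩
  have h1 : t = ⟨z, hz⟩ := Subtype.ext ht
  rw [h1, h]

private theorem cntF_eq (p : ℕ) {K : Type} [Group K] [Finite K] (α : MulAut K) (S : Subgroup K)
    (hS : ∀ x, α x ∈ S ↔ x ∈ S) (z : K) (hz : z ∈ S) (ν : ℂ) (d : ZMod p) (hd : d ≠ 0) :
    Nat.card {χ : IrrP p S // ff p S z hz χ = (ν, d) ∧ aa p α S hS χ = χ} = cF p S α z ν d := by
  unfold cF
  refine Nat.card_congr
    { toFun := fun χ => ⟨χ.1.1, χ.1.2.1, ((ff_iff p S z hz χ.1 ν d).1 χ.2.1).1,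
        ((ff_iff p S z hz χ.1 ν d).1 χ.2.1).2, (aa_fix p α S hS χ.1).1 χ.2.2⟩
      invFun := fun θ => ⟨⟨θ.1, mem_irrP θ.2.1 hd θ.2.2.2.1⟩,
        (ff_iff p S z hz _ ν d).2 ⟨θ.2.2.1, θ.2.2.2.1⟩, (aa_fix p α S hS _).2 θ.2.2.2.2⟩
      left_inv := fun χ => rfl
      right_inv := fun θ => rfl }

private theorem cntN_eq (p : ℕ) {K : Type} [Group K] [Finite K] (α : MulAut K) (S : Subgroup K)
    (hS : ∀ x, α x ∈ S ↔ x ∈ S) (z : K) (hz : z ∈ S) (ν : ℂ) (d : ZMod p) (hd : d ≠ 0) :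
    Nat.card {χ : IrrP p S // ff p S z hz χ = (ν, d) ∧ aa p α S hS χ ≠ χ} = cN p S α z ν d := by
  unfold cN
  refine Nat.card_congr
    { toFun := fun χ => ⟨χ.1.1, χ.1.2.1, ((ff_iff p S z hz χ.1 ν d).1 χ.2.1).1,
        ((ff_iff p S z hz χ.1 ν d).1 χ.2.1).2, fun h => χ.2.2 ((aa_fix p α S hS χ.1).2 h)⟩
      invFun := fun θ => ⟨⟨θ.1, mem_irrP θ.2.1 hd θ.2.2.2.1⟩,
        (ff_iff p S z hz _ ν d).2 ⟨θ.2.2.1, θ.2.2.2.1⟩,
        fun h => θ.2.2.2.2 ((aa_fix p α S hS _).1 h)⟩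
      left_inv := fun χ => rfl
      right_inv := fun θ => rfl }

private theorem ff_range (p : ℕ) [Fact p.Prime] {K : Type} [Group K] [Finite K] (S : Subgroup K)
    (z : K) (hz : z ∈ S) (hzc : ∀ x, z * x = x * z) (hzz : z * z = 1) (χ : IrrP p S) (d : ℂ × ZMod p)
    (h : ff p S z hz χ = d) : (d.1 = 1 ∨ d.1 = -1) ∧ d.2 ≠ 0 := by
  subst h
  refine ⟨?_, deg_ne χ⟩
  exact sgn_val (X := S) (z := ⟨z, hz⟩) (fun x => Subtype.ext (hzc x)) (Subtype.ext hzz) χ.2.1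

private theorem aa_invol (p : ℕ) {K : Type} [Group K] [Finite K] (α : MulAut K) (S : Subgroup K)
    (hS : ∀ x, α x ∈ S ↔ x ∈ S) (h2 : ∃ t ∈ S, α * α = MulAut.conj t) (χ : IrrP p S) :
    aa p α S hS (aa p α S hS χ) = χ := by
  obtain ⟨t, ht, h2⟩ := h2
  apply Subtype.ext
  funext x
  rw [aa_val, aa_val]
  have h3 : ar α S hS (ar α S hS x) = ⟨t, ht⟩ * x * (⟨t, ht⟩ : S)⁻¹ := by
    apply Subtype.ext
    show α (α x) = t * x * t⁻¹
    rw [← MulAut.mul_apply, h2, MulAut.conj_apply]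
  rw [h3]
  exact Irr.isClass χ.2.1 ⟨t, ht⟩ x

private theorem ff_aa (p : ℕ) {K : Type} [Group K] [Finite K] (α : MulAut K) (S : Subgroup K)
    (hS : ∀ x, α x ∈ S ↔ x ∈ S) (z : K) (hz : z ∈ S) (hαz : α z = z) (χ : IrrP p S) :
    ff p S z hz (aa p α S hS χ) = ff p S z hz χ := by
  unfold ff deg
  rw [aa_val, aa_val, map_one]
  have h3 : ar α S hS ⟨z, hz⟩ = ⟨z, hz⟩ := Subtype.ext hαz
  rw [h3]

private def topE (p : ℕ) {K : Type} [Group K] [Finite K] : IrrP p K ≃ IrrP p (⊤ : Subgroup K) where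
  toFun χ := ⟨fun x => χ.1 x, by
    obtain ⟨n, hn, hp⟩ := χ.2.2
    exact ⟨irr_comp (Subgroup.topEquiv (G := K)) χ.2.1, n, hn, hp⟩⟩
  invFun χ := ⟨fun x => χ.1 ⟨x, Subgroup.mem_top x⟩, by
    obtain ⟨n, hn, hp⟩ := χ.2.2
    exact ⟨irr_comp (Subgroup.topEquiv (G := K)).symm χ.2.1, n, hn, hp⟩⟩
  left_inv χ := rfl
  right_inv χ := rfl

theorem good_of_counts (p : ℕ) [Fact p.Prime]
    (K : Type) [Group K] [Finite K] (z : K) (hzz : z * z = 1)
    (hzc : ∀ k, k ∈ Subgroup.center K ↔ (k = 1 ∨ k = z)) (T : Subgroup K) (hzT : z ∈ T)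
    (α : MulAut K) (hα : ∀ x, α x ∈ T ↔ x ∈ T)
    (hα2 : ∃ t ∈ T, α * α = MulAut.conj t)
    (hβ : ∀ β : MulAut K, (∀ x, β x ∈ T ↔ x ∈ T) →
      ∃ t ∈ T, β = MulAut.conj t ∨ β = α * MulAut.conj t)
    (hcount : ∀ ν : ℂ, (ν = 1 ∨ ν = -1) → ∀ d : ZMod p, d ≠ 0 →
      cF p T α z ν d = cF p (⊤ : Subgroup K) α z ν d ∧
      cN p T α z ν d = cN p (⊤ : Subgroup K) α z ν d) :
    Dat p K T := by
  have hzcen : z ∈ Subgroup.center K := (hzc z).2 (Or.inr rfl)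
  have hzcomm : ∀ x, z * x = x * z := fun x => ((Subgroup.mem_center_iff.1 hzcen) x).symm
  have hαz : α z = z := by
    have h1 : α z ∈ Subgroup.center K := by
      rw [Subgroup.mem_center_iff]
      intro g
      have h2 := hzcomm (α⁻¹ g)
      have h3 := congrArg α h2
      rw [map_mul, map_mul, MulAut.apply_inv_self] at h3
      exact h3.symm
    rcases (hzc _).1 h1 with h2 | h2
    · have h3 : z = 1 := by
        apply α.injective
        rw [h2, map_one]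
      rw [h3, map_one]
    · exact h2
  have hST : ∀ x, α x ∈ (⊤ : Subgroup K) ↔ x ∈ (⊤ : Subgroup K) := fun x =>
    ⟨fun _ => Subgroup.mem_top _, fun _ => Subgroup.mem_top _⟩
  have hα2' : ∃ t ∈ (⊤ : Subgroup K), α * α = MulAut.conj t := by
    obtain ⟨t, _, h⟩ := hα2
    exact ⟨t, Subgroup.mem_top _, h⟩
  have hfin : ∀ (S : Subgroup K), Finite (IrrP p S) := fun S =>
    Finite.of_injective (fun χ : IrrP p S => (⟨χ.1, χ.2.1⟩ : Irr S)) (by
      intro χ χ' h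
      exact Subtype.ext (congrArg (fun t : Irr S => t.1) h))
  obtain ⟨F0, hF0, hF1⟩ := exists_equiv_of_counts (A := IrrP p (⊤ : Subgroup K)) (B := IrrP p T)
    (D := ℂ × ZMod p) (aa p α ⊤ hST) (aa p α T hα)
    (aa_invol p α ⊤ hST hα2') (aa_invol p α T hα hα2)
    (ff p ⊤ z (Subgroup.mem_top z)) (ff p T z hzT)
    (ff_aa p α ⊤ hST z (Subgroup.mem_top z) hαz) (ff_aa p α T hα z hzT hαz)
    (by
      rintro ⟨ν, d⟩
      by_cases h : (ν = 1 ∨ ν = -1) ∧ d ≠ 0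
      · rw [cntF_eq p α ⊤ hST z (Subgroup.mem_top z) ν d h.2, cntF_eq p α T hα z hzT ν d h.2]
        exact (hcount ν h.1 d h.2).1.symm
      · have e1 : IsEmpty {χ : IrrP p (⊤ : Subgroup K) //
            ff p ⊤ z (Subgroup.mem_top z) χ = (ν, d) ∧ aa p α ⊤ hST χ = χ} :=
          ⟨fun χ => h (ff_range p ⊤ z (Subgroup.mem_top z) hzcomm hzz χ.1 _ χ.2.1)⟩
        have e2 : IsEmpty {χ : IrrP p T // ff p T z hzT χ = (ν, d) ∧ aa p α T hα χ = χ} :=
          ⟨fun χ => h (ff_range p T z hzT hzcomm hzz χ.1 _ χ.2.1)⟩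
        rw [Nat.card_of_isEmpty, Nat.card_of_isEmpty])
    (by
      rintro ⟨ν, d⟩
      by_cases h : (ν = 1 ∨ ν = -1) ∧ d ≠ 0
      · rw [cntN_eq p α ⊤ hST z (Subgroup.mem_top z) ν d h.2, cntN_eq p α T hα z hzT ν d h.2]
        exact (hcount ν h.1 d h.2).2.symm
      · have e1 : IsEmpty {χ : IrrP p (⊤ : Subgroup K) //
            ff p ⊤ z (Subgroup.mem_top z) χ = (ν, d) ∧ aa p α ⊤ hST χ ≠ χ} :=
          ⟨fun χ => h (ff_range p ⊤ z (Subgroup.mem_top z) hzcomm hzz χ.1 _ χ.2.1)⟩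
        have e2 : IsEmpty {χ : IrrP p T // ff p T z hzT χ = (ν, d) ∧ aa p α T hα χ ≠ χ} :=
          ⟨fun χ => h (ff_range p T z hzT hzcomm hzz χ.1 _ χ.2.1)⟩
        rw [Nat.card_of_isEmpty, Nat.card_of_isEmpty])
  obtain ⟨F, hF⟩ : ∃ F : IrrP p K ≃ IrrP p T, F = (topE p).trans F0 := ⟨_, rfl⟩
  have hFv : ∀ θ, F θ = F0 (topE p θ) := fun θ => by rw [hF]; rfl
  have hequi : ∀ β : MulAut K, (∀ x, β x ∈ T ↔ x ∈ T) → ∀ θ θ' : IrrP p K,
      (∀ x, θ'.1 x = θ.1 (β x)) → ∀ t t' : T, (t' : K) = β t →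
        (F θ').1 t = (F θ).1 t' := by
    intro β hβT θ θ' hθ t t' ht
    obtain ⟨s, hs, h | h⟩ := hβ β hβT
    · have h1 : θ' = θ := by
        apply Subtype.ext
        funext x
        rw [hθ, h, MulAut.conj_apply]
        exact Irr.isClass θ.2.1 s x
      rw [h1]
      have h2 : t' = ⟨s, hs⟩ * t * (⟨s, hs⟩ : T)⁻¹ := by
        apply Subtype.ext
        rw [ht, h, MulAut.conj_apply]
        rfl
      rw [h2]
      exact (Irr.isClass (F θ).2.1 ⟨s, hs⟩ t).symm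
    · have h1 : topE p θ' = aa p α ⊤ hST (topE p θ) := by
        apply Subtype.ext
        funext x
        show θ'.1 (x : K) = θ.1 (α (x : K))
        rw [hθ, h, MulAut.mul_apply, MulAut.conj_apply]
        have h2 := Irr.isClass (irr_comp α θ.2.1) s (x : K)
        exact h2
      rw [hFv, h1, hF0, ← hFv]
      have h2 : t' = ar α T hα (⟨s, hs⟩ * t * (⟨s, hs⟩ : T)⁻¹) := by
        apply Subtype.ext
        rw [ht, h, MulAut.mul_apply, MulAut.conj_apply]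
        rfl
      rw [h2, ← aa_val p α T hα (F θ)]
      exact (Irr.isClass (aa p α T hα (F θ)).2.1 ⟨s, hs⟩ t).symm
  have hff : ∀ θ, ff p T z hzT (F θ) = (θ.1 z / θ.1 1, (deg θ.1 : ZMod p) ^ 2) := by
    intro θ
    rw [hFv, hF1]
    rfl
  refine ⟨F, hequi, fun θ => ?_, fun θ => ?_⟩
  · have h := congrArg Prod.snd (hff θ)
    exact h
  · refine matched_of_two T θ.1 θ.2.1 (F θ).1 (F θ).2.1 (fun k hk => ?_) (fun t ht => ?_) α hα hα2
      (fun β hb => hβ β hb.1) (fun β hb t t' ht => ?_)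
    · rcases (hzc k).1 hk with h | h
      · rw [h]
        exact T.one_mem
      · rw [h]
        exact hzT
    · rcases (hzc _).1 ht with h | h
      · have h1 : t = 1 := Subtype.ext h
        rw [h1, Subgroup.coe_one, mul_comm]
      · have h1 : t = ⟨z, hzT⟩ := Subtype.ext h
        have h2 : (F θ).1 ⟨z, hzT⟩ / (F θ).1 1 = θ.1 z / θ.1 1 := congrArg Prod.fst (hff θ)
        rw [div_eq_div_iff (irr_one_ne (F θ).2.1) (irr_one_ne θ.2.1)] at h2
        rw [h1]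
        exact h2.symm
    · exact (hequi β hb.1 θ θ (fun x => (hb.2 x).symm) t t' ht).symm

end Pool.Agent.Helper81.AN
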