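import Pool.Agent.Helper81.AN.PPComm

/-!
# ALT-16: the scalar product of the vectors `∏ P_m |0⟩`

`ip x y = Σ_S 2^(-|S|) x(S) y(S)` (finite sum on `V0`).

PROOFS.
* `ip_phi`: `ip (φ_k x) y = (-1)^k ip x (φ_{-k} y)`: check on basis vectors: for `k > 0`, `k ∉ S`: `φ_k (dl S) = 2 (-1)^(nab S k) dl (S ∪ k)`,
  `φ_{-k} (dl (S ∪ k)) = (-1)^(k + nab S k) dl S`; for `k = 0` clear.
* `ip_adj`: `PP m = ½ Σ_{2a > m} (-1)^(m-a) φ_a φ_{m-a}`; the adjoint is `½ Σ_{2a > m} (-1)^(m-a) (-1)^a (-1)^(m-a) φ_{a-m} φ_{-a} = ½ Σ (-1)^a φ_{a-m} φ_{-a}`, and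
  with `b = a - m`, `2b > -m`: `½ Σ_{2b > -m} (-1)^(b+m) φ_b φ_{-m-b} = PP (-m)` (as `(-1)^(-m-b) = (-1)^(m+b)`). Use `PP_eq_of` with large finite index sets
  (all vectors in `V0` have finite support). ALTERNATIVE: `D = PP m` and its adjoint: the operator `A` defined by `ip (PP m x) y = ip x (A y)` satisfies
  `[A, φ_k] = φ_{k-m}` and `A (dl ∅) = ...`; compare with `PP (-m)` by `scalar_of_comm`-type arguments.
* `gram`: for odd `m > 0` and a list `l'` of odd positive numbers: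
  `PP (-m) P_{l'} (dl ∅) = (m/2) * count m l' • P_{l' minus one m} (dl ∅)` (`PP_comm`, `PP_neg_vac`), by induction over `l'`. Then induction over `l`:
  `ip (P_m P_l ∅) (P_{l'} ∅) = ip (P_l ∅) (PP (-m) P_{l'} ∅) = (m/2) count m l' * ip (P_l ∅) (P_{l'.erase m} ∅)`; `m :: l ~ l'` iff `m ∈ l'` and `l ~ l'.erase m`;
  `count m l' * ∏ (counts of l'.erase m)! = ∏ (counts of l')!`.
-/

set_option autoImplicit false

namespace Pool.Agent.Helper81.AN

/-- the scalar product -/
noncomputable def ip (x y : Fk ℚ) : ℚ := ∑ᶠ S : Finset ℕ, ((2 : ℚ) ^ S.card)⁻¹ * (x S * y S)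

private theorem ip_symm (x y : Fk ℚ) : ip x y = ip y x := by
  unfold ip
  refine finsum_congr (fun S => ?_)
  ring

private theorem ip_left (x y : Fk ℚ) (𝒮 : Finset (Finset ℕ)) (h : ∀ S, x S ≠ 0 → S ∈ 𝒮) :
    ip x y = ∑ S ∈ 𝒮, ((2 : ℚ) ^ S.card)⁻¹ * (x S * y S) := by
  unfold ip
  refine finsum_eq_sum_of_support_subset _ (fun S hS => ?_)
  refine Finset.mem_coe.2 (h S (fun h0 => ?_))
  rw [Function.mem_support] at hS
  apply hS
  rw [h0, zero_mul, mul_zero]

private theorem ip_right (x y : Fk ℚ) (𝒮 : Finset (Finset ℕ)) (h : ∀ S, y S ≠ 0 → S ∈ 𝒮) :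
    ip x y = ∑ S ∈ 𝒮, ((2 : ℚ) ^ S.card)⁻¹ * (x S * y S) := by
  rw [ip_symm, ip_left y x 𝒮 h]
  refine Finset.sum_congr rfl (fun S _ => ?_)
  ring

/-- toggling the element `k` -/
private def tog (k : ℕ) (S : Finset ℕ) : Finset ℕ := if k ∈ S then S.erase k else insert k S

private theorem tog_tog (k : ℕ) (S : Finset ℕ) : tog k (tog k S) = S := by
  unfold tog
  by_cases h : k ∈ S
  · simp [h]
  · simp [h]

private def togE (k : ℕ) : Finset ℕ ≃ Finset ℕ where
  toFun := tog k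
  invFun := tog k
  left_inv := tog_tog k
  right_inv := tog_tog k

private theorem nab_insert_self (S : Finset ℕ) (k : ℕ) : nab (insert k S) k = nab S k := by
  unfold nab
  congr 1
  ext t
  simp only [Finset.mem_filter, Finset.mem_insert]
  constructor
  · rintro ⟨h1 | h1, h2⟩
    · omega
    · exact ⟨h1, h2⟩
  · rintro ⟨h1, h2⟩
    exact ⟨Or.inr h1, h2⟩

private theorem ip_phi_pos (c : ℕ) (hc : 0 < c) (x y : Fk ℚ) :
    ip (phi ℚ (c : ℤ) x) y = (-1) ^ c * ip x (phi ℚ (-(c : ℤ)) y) := by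
  unfold ip
  rw [← smul_eq_mul, smul_finsum, ← finsum_comp_equiv (togE c)]
  refine finsum_congr (fun S => ?_)
  have h1 : (0 : ℤ) < (c : ℤ) := by exact_mod_cast hc
  have h2 : ¬ (0 : ℤ) < -(c : ℤ) := by omega
  have h3 : ¬ (-(c : ℤ)) = 0 := by omega
  have h4 : (-(-(c : ℤ))).toNat = c := by simp
  have h5 : ((c : ℤ)).toNat = c := by simp
  simp only [phi, LinearMap.coe_mk, AddHom.coe_mk, h1, h2, h3, h4, h5, if_true, if_false, togE,
    Equiv.coe_fn_mk, smul_eq_mul, tog]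
  by_cases h : c ∈ S
  · simp [h]
  · have h6 : (insert c S).erase c = S := Finset.erase_insert h
    simp only [h, if_false, Finset.mem_insert_self, if_true, h6, nab_insert_self,
      Finset.card_insert_of_notMem h]
    rw [pow_succ, pow_add]
    have h7 : ((-1 : ℚ) ^ c) * (-1) ^ c = 1 := by
      rw [← mul_pow]
      simp
    have h8 : ((2 : ℚ) ^ S.card * 2)⁻¹ * 2 = ((2 : ℚ) ^ S.card)⁻¹ := by
      field_simp
    calc ((2 : ℚ) ^ S.card * 2)⁻¹ * (2 * (-1) ^ nab S c * x S * y (insert c S))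
        = (((2 : ℚ) ^ S.card * 2)⁻¹ * 2) * ((-1) ^ nab S c * x S * y (insert c S)) := by ring
      _ = ((2 : ℚ) ^ S.card)⁻¹ * ((-1) ^ nab S c * x S * y (insert c S)) * 1 := by
          rw [h8]; ring
      _ = (-1) ^ c * (((2 : ℚ) ^ S.card)⁻¹ *
          (x S * ((-1) ^ c * (-1) ^ nab S c * y (insert c S)))) := by
          linear_combination (-(((2 : ℚ) ^ S.card)⁻¹ *
            ((-1) ^ nab S c * x S * y (insert c S)))) * h7

private theorem ip_phi' (k : ℤ) (x y : Fk ℚ) :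
    ip (phi ℚ k x) y = (-1) ^ k.natAbs * ip x (phi ℚ (-k) y) := by
  rcases lt_trichotomy k 0 with hk | hk | hk
  · obtain ⟨c, hc⟩ : ∃ c : ℕ, k = -(c : ℤ) := ⟨k.natAbs, by omega⟩
    subst hc
    have hc0 : 0 < c := by omega
    have h := ip_phi_pos c hc0 y x
    rw [ip_symm, ip_symm x, neg_neg, h, Int.natAbs_neg, Int.natAbs_natCast, ← mul_assoc, ← mul_pow]
    simp
  · subst hk
    simp only [Int.natAbs_zero, pow_zero, one_mul, neg_zero]
    unfold ip
    refine finsum_congr (fun S => ?_)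
    simp only [phi, LinearMap.coe_mk, AddHom.coe_mk, lt_irrefl, if_false, if_true]
    ring
  · obtain ⟨c, hc⟩ : ∃ c : ℕ, k = (c : ℤ) := ⟨k.natAbs, by omega⟩
    subst hc
    rw [Int.natAbs_natCast]
    exact ip_phi_pos c (by exact_mod_cast hk) x y

theorem ip_phi (k : ℤ) {x y : Fk ℚ} (hx : x ∈ V0 ℚ) (hy : y ∈ V0 ℚ) :
    ip (phi ℚ k x) y = (-1) ^ k.natAbs * ip x (phi ℚ (-k) y) := by
  have _ := hx
  have _ := hy
  exact ip_phi' k x y

private theorem mp_cons (m : ℕ) (l : List ℕ) :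
    (List.map (fun m : ℚ => m / 2) (do
          let a ← m :: l
          pure (a : ℚ))).prod = (m : ℚ) / 2 * (List.map (fun m : ℚ => m / 2) (do
          let a ← l
          pure (a : ℚ))).prod := by
  simp [List.bind_eq_flatMap]

theorem ip_adj (m : ℤ) (hm : Odd m) {x y : Fk ℚ} (hx : x ∈ V0 ℚ) (hy : y ∈ V0 ℚ) :
    ip (PP m x) y = ip x (PP (-m) y) := by
  classical
  set 𝒳 := (V0_finite ℚ hx).toFinset with h𝒳
  set 𝒴 := (V0_finite ℚ hy).toFinset with h𝒴
  have m𝒳 : ∀ S, x S ≠ 0 → S ∈ 𝒳 := fun S h => by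
    rw [h𝒳, Set.Finite.mem_toFinset]
    exact h
  have m𝒴 : ∀ S, y S ≠ 0 → S ∈ 𝒴 := fun S h => by
    rw [h𝒴, Set.Finite.mem_toFinset]
    exact h
  set T : Finset ℤ := 𝒴.biUnion (ppI m) ∪ 𝒳.biUnion (fun S => (ppI (-m) S).image (· + m)) with hT
  have hT1 : ∀ a ∈ T, m < 2 * a := by
    intro a ha
    rw [hT, Finset.mem_union, Finset.mem_biUnion, Finset.mem_biUnion] at ha
    rcases ha with ⟨S, _, h⟩ | ⟨S, _, h⟩
    · unfold ppI at h
      exact (Finset.mem_filter.1 h).2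
    · obtain ⟨b, hb, rfl⟩ := Finset.mem_image.1 h
      unfold ppI at hb
      have := (Finset.mem_filter.1 hb).2
      omega
  have hT2 : ∀ S ∈ 𝒴, ppI m S ⊆ T := fun S hS a ha => by
    rw [hT, Finset.mem_union]
    exact Or.inl (Finset.mem_biUnion.2 ⟨S, hS, ha⟩)
  set T' : Finset ℤ := T.image (fun a => a - m) with hT'
  have hT'1 : ∀ b ∈ T', -m < 2 * b := by
    intro b hb
    obtain ⟨a, ha, rfl⟩ := Finset.mem_image.1 hb
    have := hT1 a ha
    omega
  have hT'2 : ∀ S ∈ 𝒳, ppI (-m) S ⊆ T' := fun S hS b hb => by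
    rw [hT', Finset.mem_image]
    refine ⟨b + m, ?_, by ring⟩
    rw [hT, Finset.mem_union]
    exact Or.inr (Finset.mem_biUnion.2 ⟨S, hS, Finset.mem_image_of_mem _ hb⟩)
  have e1 : ip (PP m x) y = (1 / 2) * ∑ a ∈ T, (-1) ^ (m - a).natAbs *
      ip (phi ℚ a (phi ℚ (m - a) x)) y := by
    rw [ip_right _ y 𝒴 m𝒴]
    have h1 : ∀ a ∈ T, (-1 : ℚ) ^ (m - a).natAbs * ip (phi ℚ a (phi ℚ (m - a) x)) y =
        ∑ S ∈ 𝒴, (-1 : ℚ) ^ (m - a).natAbs * (((2 : ℚ) ^ S.card)⁻¹ *
          ((phi ℚ a (phi ℚ (m - a) x)) S * y S)) := by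
      intro a _
      rw [ip_right _ y 𝒴 m𝒴, Finset.mul_sum]
    rw [Finset.sum_congr rfl h1, Finset.sum_comm, Finset.mul_sum]
    refine Finset.sum_congr rfl (fun S hS => ?_)
    rw [PP_eq_of m x S T (hT2 S hS) hT1, Finset.mul_sum, Finset.mul_sum, Finset.sum_mul,
      Finset.mul_sum]
    refine Finset.sum_congr rfl (fun a _ => ?_)
    ring
  have e2 : ip x (PP (-m) y) = (1 / 2) * ∑ b ∈ T', (-1) ^ (-m - b).natAbs *
      ip x (phi ℚ b (phi ℚ (-m - b) y)) := by
    rw [ip_left x _ 𝒳 m𝒳]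
    have h1 : ∀ b ∈ T', (-1 : ℚ) ^ (-m - b).natAbs * ip x (phi ℚ b (phi ℚ (-m - b) y)) =
        ∑ S ∈ 𝒳, (-1 : ℚ) ^ (-m - b).natAbs * (((2 : ℚ) ^ S.card)⁻¹ *
          (x S * (phi ℚ b (phi ℚ (-m - b) y)) S)) := by
      intro b _
      rw [ip_left x _ 𝒳 m𝒳, Finset.mul_sum]
    rw [Finset.sum_congr rfl h1, Finset.sum_comm, Finset.mul_sum]
    refine Finset.sum_congr rfl (fun S hS => ?_)
    rw [PP_eq_of (-m) y S T' (hT'2 S hS) hT'1, Finset.mul_sum, Finset.mul_sum, Finset.mul_sum,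
      Finset.mul_sum]
    refine Finset.sum_congr rfl (fun a _ => ?_)
    ring
  rw [e1, e2, hT', Finset.sum_image (fun a _ b _ h => by simpa using h)]
  congr 1
  refine Finset.sum_congr rfl (fun a _ => ?_)
  have h1 : -(m - a) = a - m := by ring
  have h2 : -m - (a - m) = -a := by ring
  rw [ip_phi', ip_phi', h1, h2, Int.natAbs_neg, mul_left_comm, ← mul_assoc ((-1 : ℚ) ^ (m - a).natAbs),
    ← mul_pow]
  simp

private theorem ML_mem (l : List ℕ) (hl : ∀ m ∈ l, Odd m) : ML ℚ l (dl ℚ ∅) ∈ V0 ℚ := by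
  induction l with
  | nil =>
    have h : ML ℚ [] (dl ℚ ∅) = dl ℚ ∅ := by simp [ML]
    rw [h]
    exact dl_mem ℚ ∅ (by simp)
  | cons m l ih =>
    have h : ML ℚ (m :: l) (dl ℚ ∅) = mv ℚ m (ML ℚ l (dl ℚ ∅)) := by simp [ML]
    rw [h]
    exact V0_mv ℚ (ih (fun k hk => hl k (List.mem_cons_of_mem m hk))) m (hl m (by simp))

private theorem ML_cons (m : ℕ) (hm : Odd m) (l : List ℕ) :
    ML ℚ (m :: l) (dl ℚ ∅) = PP (m : ℤ) (ML ℚ l (dl ℚ ∅)) := by
  rw [PP_eq_mv m hm]
  simp [ML]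

private theorem ML_perm {l l' : List ℕ} (h : l.Perm l') (hl : ∀ m ∈ l, Odd m) :
    ML ℚ l (dl ℚ ∅) = ML ℚ l' (dl ℚ ∅) := by
  funext S
  rw [Xc_cast, Xc_cast, Xc_perm h hl]

private theorem PP_neg_ML (m : ℕ) (hm : Odd m) (l : List ℕ) (hl : ∀ k ∈ l, Odd k) :
    PP (-(m : ℤ)) (ML ℚ l (dl ℚ ∅)) =
      ((m : ℚ) / 2 * l.count m) • ML ℚ (l.erase m) (dl ℚ ∅) := by
  have hm0 : 0 < m := hm.pos
  have hmo : Odd (-(m : ℤ)) := by
    rw [odd_neg]
    exact_mod_cast hm
  induction l with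
  | nil =>
    have h : ML ℚ [] (dl ℚ ∅) = dl ℚ ∅ := by simp [ML]
    rw [h, PP_neg_vac _ hmo (by omega)]
    simp
  | cons n l ih =>
    have hn : Odd n := hl n (by simp)
    have hl' : ∀ k ∈ l, Odd k := fun k hk => hl k (List.mem_cons_of_mem n hk)
    have hno : Odd (n : ℤ) := by exact_mod_cast hn
    have hc := PP_comm (-(m : ℤ)) (n : ℤ) hmo hno (ML_mem l hl')
    rw [sub_eq_iff_eq_add] at hc
    rw [ML_cons n hn, hc, ih hl', map_smul]
    by_cases h : n = m
    · subst h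
      rw [if_pos (by ring), List.erase_cons_head, List.count_cons_self, Int.cast_natCast]
      by_cases hmem : n ∈ l
      · have hp : (n :: l.erase n).Perm l := (List.perm_cons_erase hmem).symm
        rw [← ML_cons n hn, ML_perm hp (by
          intro k hk
          rcases List.mem_cons.1 hk with rfl | hk
          · exact hn
          · exact hl' k (List.mem_of_mem_erase hk)), ← add_smul]
        congr 1
        push_cast
        ring
      · rw [List.count_eq_zero_of_not_mem hmem]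
        simp
    · rw [if_neg (by omega), zero_add, List.erase_cons_tail (by simpa using h),
        List.count_cons_of_ne h, ML_cons n hn]

open Classical in
theorem gram (l l' : List ℕ) (hl : ∀ m ∈ l, Odd m) (hl' : ∀ m ∈ l', Odd m) :
    ip (ML ℚ l (dl ℚ ∅)) (ML ℚ l' (dl ℚ ∅)) =
      if l.Perm l' then (l.map (fun m => (m : ℚ) / 2)).prod *
        ∏ m ∈ l.toFinset, ((l.count m).factorial : ℚ) else 0 := by
  have hnil : ML ℚ [] (dl ℚ ∅) = dl ℚ ∅ := by simp [ML]
  induction l generalizing l' with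
  | nil =>
    cases l' with
    | nil =>
      rw [if_pos (List.Perm.refl _), hnil, ip_left (dl ℚ ∅) (dl ℚ ∅) {∅} (fun S hS => by
        rw [Finset.mem_singleton]
        by_contra h
        exact hS (by simp [dl, h]))]
      simp [dl]
    | cons n l' =>
      have hn : Odd n := hl' n (by simp)
      have hno : Odd (n : ℤ) := by exact_mod_cast hn
      rw [if_neg (by simp), hnil, ip_symm, ML_cons n hn,
        ip_adj _ hno (ML_mem l' (fun k hk => hl' k (List.mem_cons_of_mem n hk)))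
          (dl_mem ℚ ∅ (by simp)), PP_neg_vac _ (by rw [odd_neg]; exact hno)
          (by have := hn.pos; omega)]
      simp [ip]
  | cons m l ih =>
    have hm : Odd m := hl m (by simp)
    have hmo : Odd (m : ℤ) := by exact_mod_cast hm
    have hl1 : ∀ k ∈ l, Odd k := fun k hk => hl k (List.mem_cons_of_mem m hk)
    have hl2 : ∀ k ∈ l'.erase m, Odd k := fun k hk => hl' k (List.mem_of_mem_erase hk)
    have hs : ∀ (c : ℚ) (x y : Fk ℚ), ip x (c • y) = c * ip x y := by
      intro c x y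
      unfold ip
      rw [← smul_eq_mul c, smul_finsum]
      refine finsum_congr (fun S => ?_)
      simp only [Pi.smul_apply, smul_eq_mul]
      ring
    rw [ML_cons m hm, ip_adj _ hmo (ML_mem l hl1) (ML_mem l' hl'), PP_neg_ML m hm l' hl', hs,
      ih (l'.erase m) hl1 hl2]
    by_cases h : (m :: l).Perm l'
    · obtain ⟨h1, h2⟩ := List.cons_perm_iff_perm_erase.1 h
      rw [if_pos h, if_pos h2]
      have hc : l'.count m = l.count m + 1 := by
        rw [← h.count_eq m, List.count_cons_self]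
      rw [hc, mp_cons]
      have hU : (m :: l).toFinset = insert m l.toFinset := List.toFinset_cons
      have hprod : ∏ k ∈ (m :: l).toFinset, (((m :: l).count k).factorial : ℚ) =
          ((l.count m : ℚ) + 1) * ∏ k ∈ l.toFinset, ((l.count k).factorial : ℚ) := by
        have h3 : ∏ k ∈ l.toFinset, ((l.count k).factorial : ℚ) =
            ∏ k ∈ (m :: l).toFinset, ((l.count k).factorial : ℚ) := by
          refine Finset.prod_subset (by rw [hU]; exact Finset.subset_insert _ _) (fun k _ hk => ?_)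
          rw [List.mem_toFinset] at hk
          rw [List.count_eq_zero_of_not_mem hk]
          simp
        have hmU : m ∈ (m :: l).toFinset := by simp
        rw [h3, ← Finset.mul_prod_erase _ _ hmU, ← Finset.mul_prod_erase _ _ hmU,
          List.count_cons_self, Nat.factorial_succ]
        have h4 : ∏ k ∈ (m :: l).toFinset.erase m, (((m :: l).count k).factorial : ℚ) =
            ∏ k ∈ (m :: l).toFinset.erase m, ((l.count k).factorial : ℚ) := by
          refine Finset.prod_congr rfl (fun k hk => ?_)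
          rw [List.count_cons_of_ne (Finset.ne_of_mem_erase hk).symm]
        rw [h4]
        push_cast
        ring
      rw [hprod]
      push_cast
      ring
    · rw [if_neg h]
      by_cases hmem : m ∈ l'
      · rw [if_neg (fun h2 => h (List.cons_perm_iff_perm_erase.2 ⟨hmem, h2⟩)), mul_zero]
      · rw [List.count_eq_zero_of_not_mem hmem]
        simp

end Pool.Agent.Helper81.AN
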