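import Pool.Agent.Helper81.AN.Defs
import Pool.Agent.Helper24.S7.Defs

/-!
# Project AN (MP_5ecade_al, alternating factors): the statements of the big blocks

NOT a module of the final development: it lists the exact statements with `sorry`.
-/

set_option autoImplicit false

open Equiv

namespace Pool.Agent.Helper81.AN

open Pool.Agent.Helper42.INC Pool.Agent.Helper7.MK Pool.Agent.Helper24.S7

/-! ### linear characters (helper24) -/

/-- (LIN_G) the characters of the symmetric group -/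
theorem lin_G (n : ℕ) :
    Nonempty (Lab (Perm (Fin n)) Perm.sign 1 1 (Par n) Par.tw Par.dg) := by
  sorry

/-- (LIN_C) cores and quotients -/
theorem lin_C (p : ℕ) (hp : p.Prime) (mid : Fin p) (hmid : 2 * (mid : ℕ) + 1 = p) (w r : ℕ)
    (hr : r < p) :
    ∃ e : {l : Par (p * w + r) // ¬ p ∣ l.dg} ≃ {q : LabL p w r // ¬ p ∣ q.dg mid},
      (∀ l l', l'.1 = l.1.tw → (e l').1 = (e l).1.tw) ∧
      ∀ l, (((e l).1.dg mid : ℕ) : ZMod p) ^ 2 = (l.1.dg : ZMod p) ^ 2 := by
  sorry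

/-! ### characters of the local group (helper55) -/

/-- the sign of the local group -/
def sgnL (p w r : ℕ) [Fact p.Prime] : LL p w r →* ℤˣ := Perm.sign.comp (permL p w r)

/-- (LOC1) the characters of the local group -/
theorem loc_1 (p : ℕ) [Fact p.Prime] (mid : Fin p) (hmid : 2 * (mid : ℕ) + 1 = p) (w r : ℕ) :
    Nonempty (Lab (LL p w r) (sgnL p w r) 1 1 (LabL p w r) LabL.tw (LabL.dg mid)) := by
  sorry

/-- (LOC2) the spin characters of the local group, with the Clifford group of all `p w + r`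
points -/
theorem loc_2 (p : ℕ) [Fact p.Prime] (m : ℕ) (hm : 2 * m + 1 = p) (hm0 : 0 < m) (w r : ℕ) :
    Nonempty (Lab (BG ((permH (Pt p w r)).comp (permL p w r))) (BG.par _) (BG.z _) (-1)
      (LabZ m w r) LabZ.tw LabZ.dg) := by
  sorry

/-! ### spin characters, global (helper81) -/

/-- (SP_G) the spin characters of the Young subgroup with two factors, with the Clifford group -/
theorem sp_G (v r : ℕ) :
    Nonempty (Lab (BG (youngH (Fin v) (Fin r))) (BG.par _) (BG.z _) (-1) (LabY v r) LabY.tw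
      LabY.dg) := by
  sorry

/-- (SP_G0) the same for the full symmetric group -/
theorem sp_G0 (ι : Type) [Fintype ι] (n : ℕ) (hn : Fintype.card ι = n) :
    Nonempty (Lab (BG (permH ι)) (BG.par _) (BG.z _) (-1) (LabY n 0) LabY.tw LabY.dg) := by
  sorry

/-- (SP_C) bar cores and bar quotients -/
theorem sp_C (p : ℕ) (hp : p.Prime) (m : ℕ) (hm : 2 * m + 1 = p) (hm0 : 0 < m) (w r : ℕ)
    (hr : r < p) :
    ∃ e : {l : LabY (p * w + r) 0 // ¬ p ∣ l.dg} ≃ {q : LabZ m w r // ¬ p ∣ q.dg},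
      (∀ l l', l'.1 = l.1.tw → (e l').1 = (e l).1.tw) ∧
      ∀ l, (((e l).1.dg : ℕ) : ZMod p) ^ 2 = (l.1.dg : ZMod p) ^ 2 := by
  sorry

/-! ### group theory (helper24) -/

/-- (G2a) perfect central extensions of alternating groups have kernel of order at most two -/
theorem cover_bound (ι : Type) [Fintype ι] [DecidableEq ι] (h8 : 8 ≤ Fintype.card ι)
    (M : Type) [Group M] [Finite M] (hperf : ⁅(⊤ : Subgroup M), (⊤ : Subgroup M)⁆ = ⊤)
    (π : M →* Perm ι) (hr : π.range = alternatingGroup ι) (hk : π.ker ≤ Subgroup.center M) :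
    Nat.card π.ker ≤ 2 := by
  sorry

/-- (G2b) there is only one double cover -/
theorem cover_unique (ι : Type) [Fintype ι] [DecidableEq ι] (h8 : 8 ≤ Fintype.card ι)
    (M M' : Type) [Group M] [Finite M] [Group M'] [Finite M']
    (hperf : ⁅(⊤ : Subgroup M), (⊤ : Subgroup M)⁆ = ⊤)
    (hperf' : ⁅(⊤ : Subgroup M'), (⊤ : Subgroup M')⁆ = ⊤)
    (π : M →* Perm ι) (hr : π.range = alternatingGroup ι) (hk : π.ker ≤ Subgroup.center M)
    (hc : Nat.card π.ker = 2)
    (π' : M' →* Perm ι) (hr' : π'.range = alternatingGroup ι) (hk' : π'.ker ≤ Subgroup.center M')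
    (hc' : Nat.card π'.ker = 2) :
    ∃ e : M ≃* M', ∀ x, π' (e x) = π x := by
  sorry

/-- (G2c) automorphisms of the alternating group -/
theorem aut_alt (ι : Type) [Fintype ι] [DecidableEq ι] (h8 : 8 ≤ Fintype.card ι)
    (α : MulAut (alternatingGroup ι)) :
    ∃ s : Perm ι, ∀ x : alternatingGroup ι, ((α x : alternatingGroup ι) : Perm ι) =
      s * x * s⁻¹ := by
  sorry

/-- (G3a) the action of the local group is faithful -/
theorem permL_injective (p : ℕ) [Fact p.Prime] (w r : ℕ) :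
    Function.Injective (permL p w r) := by
  sorry

/-- (G3b) the normalizer of a Sylow subgroup of the symmetric group is conjugate to a subgroup of
the local group -/
theorem sylow_conj (p : ℕ) [Fact p.Prime] (h5 : 5 ≤ p) (w r : ℕ) (hr : r < p)
    (Q : Sylow p (Perm (Pt p w r))) :
    ∃ g : Perm (Pt p w r), ∀ s ∈ Subgroup.normalizer (Q : Set (Perm (Pt p w r))),
      g⁻¹ * s * g ∈ (permL p w r).range := by
  sorry

/-- (G3c) the even part of the local group determines the local group -/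
theorem norm_even (p : ℕ) [Fact p.Prime] (h5 : 5 ≤ p) (w r : ℕ) (hw : 2 ≤ w) (hr : r < p)
    (s : Perm (Pt p w r))
    (hs : ∀ x ∈ (permL p w r).range ⊓ alternatingGroup (Pt p w r),
      s * x * s⁻¹ ∈ (permL p w r).range) : s ∈ (permL p w r).range := by
  sorry

/-- (G3d) -/
theorem range_not_le (p : ℕ) [Fact p.Prime] (h5 : 5 ≤ p) (w r : ℕ) (hw : 2 ≤ w) :
    ¬ (permL p w r).range ≤ alternatingGroup (Pt p w r) := by
  sorry

/-- (G3e) -/
theorem alt_not_le (p : ℕ) [Fact p.Prime] (h5 : 5 ≤ p) (w r : ℕ) (hw : 2 ≤ w) :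
    ¬ alternatingGroup (Pt p w r) ≤ (permL p w r).range := by
  sorry

/-! ### counting characters -/

/-- number of self-associate characters with a given squared degree -/
noncomputable def lF (p : ℕ) {X : Type} [Group X] (ε : X →* ℤˣ) (z : X) (ν : ℂ) (d : ZMod p) : ℕ :=
  Nat.card {χ : X → ℂ // χ ∈ IrrZ z ν ∧ (deg χ : ZMod p) ^ 2 = d ∧
    ∀ x, (((ε x : ℤˣ) : ℤ) : ℂ) * χ x = χ x}

/-- number of non self-associate characters with a given squared degree -/
noncomputable def lN (p : ℕ) {X : Type} [Group X] (ε : X →* ℤˣ) (z : X) (ν : ℂ) (d : ZMod p) : ℕ :=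
  Nat.card {χ : X → ℂ // χ ∈ IrrZ z ν ∧ (deg χ : ZMod p) ^ 2 = d ∧
    ¬ ∀ x, (((ε x : ℤˣ) : ℤ) : ℂ) * χ x = χ x}

/-- number of characters of the subgroup `T` fixed by the automorphism `α` of `K`, with value
`ν θ(1)` at the central element `z`, and with a given squared degree -/
noncomputable def cF (p : ℕ) {K : Type} [Group K] (T : Subgroup K) (α : MulAut K) (z : K) (ν : ℂ)
    (d : ZMod p) : ℕ :=
  Nat.card {θ : T → ℂ // θ ∈ Irr T ∧ (∀ t : T, (t : K) = z → θ t = ν * θ 1) ∧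
    (deg θ : ZMod p) ^ 2 = d ∧ ∀ t t' : T, (t' : K) = α t → θ t' = θ t}

/-- the same for the characters which are not fixed -/
noncomputable def cN (p : ℕ) {K : Type} [Group K] (T : Subgroup K) (α : MulAut K) (z : K) (ν : ℂ)
    (d : ZMod p) : ℕ :=
  Nat.card {θ : T → ℂ // θ ∈ Irr T ∧ (∀ t : T, (t : K) = z → θ t = ν * θ 1) ∧
    (deg θ : ZMod p) ^ 2 = d ∧ ¬ ∀ t t' : T, (t' : K) = α t → θ t' = θ t}

/-- (TRL) transfer, linear case: `K → A(ι)` surjective with central kernel `{1, z}` (`z = 1` is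
allowed), `T` the inverse image of `h(L)`, `α` an automorphism of `K` which induces conjugation
by an odd element of `h(L)`. -/
theorem trL (p : ℕ) [Fact p.Prime] (h2 : p ≠ 2) (ι : Type) [Fintype ι] [DecidableEq ι]
    (K : Type) [Group K] [Finite K] (π : K →* Perm ι) (hr : π.range = alternatingGroup ι)
    (z : K) (hz : ∀ k, π k = 1 ↔ (k = 1 ∨ k = z)) (L : Type) [Group L] [Finite L]
    (h : L →* Perm ι) (hinj : Function.Injective h) (s : L) (hs : Perm.sign (h s) = -1)
    (α : MulAut K) (hα : ∀ k, π (α k) = h s * π k * (h s)⁻¹) (d : ZMod p) :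
    2 * cF p (h.range.comap π) α z 1 d = lN p (Perm.sign.comp h) 1 1 d ∧
    cN p (h.range.comap π) α z 1 d = 2 * lF p (Perm.sign.comp h) 1 1 (4 * d) := by
  sorry

/-- (TRS) transfer, spin case -/
theorem trS (p : ℕ) [Fact p.Prime] (h2 : p ≠ 2) (ι : Type) [Fintype ι] [DecidableEq ι]
    (h8 : 8 ≤ Fintype.card ι)
    (K : Type) [Group K] [Finite K] (hperf : ⁅(⊤ : Subgroup K), (⊤ : Subgroup K)⁆ = ⊤)
    (π : K →* Perm ι) (hr : π.range = alternatingGroup ι)
    (z : K) (hz1 : z ≠ 1) (hzc : z ∈ Subgroup.center K)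
    (hz : ∀ k, π k = 1 ↔ (k = 1 ∨ k = z)) (L : Type) [Group L] [Finite L]
    (h : L →* Perm ι) (hinj : Function.Injective h) (s : L) (hs : Perm.sign (h s) = -1)
    (α : MulAut K) (hα : ∀ k, π (α k) = h s * π k * (h s)⁻¹) (d : ZMod p) :
    (Even (Fintype.card ι) →
      2 * cF p (h.range.comap π) α z (-1) d =
        lN p (BG.par ((permH ι).comp h)) (BG.z _) (-1) (2 ^ Fintype.card ι * d) ∧
      cN p (h.range.comap π) α z (-1) d =
        2 * lF p (BG.par ((permH ι).comp h)) (BG.z _) (-1) (4 * (2 ^ Fintype.card ι * d))) ∧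
    (Odd (Fintype.card ι) →
      cF p (h.range.comap π) α z (-1) d =
        lF p (BG.par ((permH ι).comp h)) (BG.z _) (-1) (2 ^ (Fintype.card ι + 1) * d) ∧
      cN p (h.range.comap π) α z (-1) d =
        lN p (BG.par ((permH ι).comp h)) (BG.z _) (-1) (2 ^ (Fintype.card ι + 1) * d)) := by
  sorry

/-- (FIN1) equality of counts gives `Good` -/
theorem good_of_counts (p : ℕ) [Fact p.Prime] (h2 : p ≠ 2)
    (K : Type) [Group K] [Finite K] (hperf : ⁅(⊤ : Subgroup K), (⊤ : Subgroup K)⁆ = ⊤)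
    (z : K) (hzc : ∀ k, k ∈ Subgroup.center K ↔ (k = 1 ∨ k = z)) (T : Subgroup K) (hzT : z ∈ T)
    (α : MulAut K) (hα : ∀ x, α x ∈ T ↔ x ∈ T)
    (hα2 : ∃ t ∈ T, α * α = MulAut.conj t)
    (hβ : ∀ β : MulAut K, (∀ x, β x ∈ T ↔ x ∈ T) →
      ∃ t ∈ T, β = MulAut.conj t ∨ β = α * MulAut.conj t)
    (hcount : ∀ ν : ℂ, (ν = 1 ∨ ν = -1) → ∀ d : ZMod p, d ≠ 0 →
      cF p T α z ν d = cF p (⊤ : Subgroup K) α z ν d ∧
      cN p T α z ν d = cN p (⊤ : Subgroup K) α z ν d) :
    ∃ F : IrrP p K ≃ IrrP p T,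
      (∀ α : MulAut K, (∀ x, α x ∈ T ↔ x ∈ T) → ∀ θ θ' : IrrP p K,
        (∀ x, θ'.1 x = θ.1 (α x)) → ∀ t t' : T, (t' : K) = α t → (F θ').1 t = (F θ).1 t') ∧
      (∀ θ, (deg (F θ).1 : ZMod p) ^ 2 = (deg θ.1 : ZMod p) ^ 2) ∧
      ∀ θ, MatchedAut T θ.1 (F θ).1 := by
  sorry

/-! ### the class of groups (helper24) -/

/-- the admissible factors: abelian groups, groups with cyclic Sylow `p`-subgroups, alternating
groups -/
def Fac (p : ℕ) (F : Type) [Group F] : Prop :=
  (∀ a b : F, a * b = b * a) ∨ (∀ P : Sylow p F, IsCyclic P) ∨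
    ∃ m : ℕ, Nonempty (F ≃* alternatingGroup (Fin m))

/-- the groups with a subnormal series with admissible factors -/
inductive Cls (p : ℕ) : (G : Type) → [Group G] → Prop
  | triv (G : Type) [Group G] [Subsingleton G] : Cls p G
  | ext (G : Type) [Group G] (N : Subgroup G) [N.Normal]
      (hN : Cls p N) (hQ : Fac p (G ⧸ N)) : Cls p G

/-- (G1) reduction: it suffices to know that the alternating groups are good -/
theorem final_of_pgood (p : ℕ) [Fact p.Prime] (h5 : 5 ≤ p)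
    (hPG : ∀ m : ℕ, 2 * p ≤ m → PGood p (alternatingGroup (Fin m)))
    (G : Type) [Group G] [Finite G] (n : ℕ) (H : ℕ → Subgroup G) (h0 : H 0 = ⊥) (h1 : H n = ⊤)
    (hs : ∀ i < n, H i ≤ H (i + 1) ∧ ∃ _ : ((H i).subgroupOf (H (i + 1))).Normal,
      Fac p (H (i + 1) ⧸ (H i).subgroupOf (H (i + 1)))) :
    McKayCongr p G := by
  sorry

end Pool.Agent.Helper81.AN
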