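import Pool.Agent.Helper81.AN.CntDefs

/-!
# ALT-52: counting characters by labels

PROOF. `e : IrrZ z ν ≃ L`. `χ(1) = dg (e χ)`, so `deg χ = dg (e χ)` (`deg_eq`). If `ε χ = χ` then `tw (e χ) = e χ` (`twist` with `χ' = χ`). Conversely if `tw (e χ) = e χ`: `χ' = ε χ` is an irreducible character (twist by a linear character) with `χ'(z) = ε(z) χ(z) = ν χ'(1)`, so `e χ' = tw (e χ) = e χ`, `χ' = χ`. So `e` induces bijections of the
sets counted. `cnt_of_equiv`: two label sets with an equivalence of the labels of degree prime to `p` which commutes with the twists and respects squares of degrees have the same counts for `d ≠ 0`.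
-/

set_option autoImplicit false

namespace Pool.Agent.Helper81.AN

open Pool.Agent.Helper42.INC

/-- the twist of a representation by a sign character -/
private noncomputable def twRep {X : Type} [Group X] (ε : X →* ℤˣ) {V : Type} [AddCommGroup V]
    [Module ℂ V] (ρ : Representation ℂ X V) : Representation ℂ X V where
  toFun g := (((ε g : ℤˣ) : ℤ) : ℂ) • ρ g
  map_one' := by simp
  map_mul' g h := by
    rw [map_mul, map_mul, Units.val_mul, Int.cast_mul, smul_mul_smul_comm]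

private lemma eps_sq {X : Type} [Group X] (ε : X →* ℤˣ) (g : X) :
    (((ε g : ℤˣ) : ℤ) : ℂ) * (((ε g : ℤˣ) : ℤ) : ℂ) = 1 := by
  rcases Int.units_eq_one_or (ε g) with h | h <;> simp [h]

private lemma tw_irr {X : Type} [Group X] (ε : X →* ℤˣ) {χ : X → ℂ} (h : χ ∈ Irr X) :
    (fun x => (((ε x : ℤˣ) : ℤ) : ℂ) * χ x) ∈ Irr X := by
  obtain ⟨V, i1, i2, i3, ρ, hρ, rfl⟩ := h
  refine ⟨V, i1, i2, i3, twRep ε ρ, ?_, ?_⟩
  · rw [isIrreducible_iff] at hρ ⊢
    refine ⟨hρ.1, fun W hW => hρ.2 W (fun g v hv => ?_)⟩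
    have h1 : (((ε g : ℤˣ) : ℤ) : ℂ) • ρ g v ∈ W := hW g v hv
    have h2 := W.smul_mem (((ε g : ℤˣ) : ℤ) : ℂ) h1
    rwa [smul_smul, eps_sq, one_smul] at h2
  · funext x
    change _ = LinearMap.trace ℂ V ((((ε x : ℤˣ) : ℤ) : ℂ) • ρ x)
    rw [map_smul]
    rfl

private lemma card_aux {X : Type} {S : Set (X → ℂ)} {L : Type} (e : S ≃ L) {P : (X → ℂ) → Prop}
    {Q : L → Prop} (h : ∀ χ : S, P χ.1 ↔ Q (e χ)) :
    Nat.card {χ : X → ℂ // χ ∈ S ∧ P χ} = Nat.card {l : L // Q l} := by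
  refine Nat.card_congr ?_
  refine (Equiv.subtypeSubtypeEquivSubtypeInter (fun χ => χ ∈ S) P).symm.trans ?_
  exact e.subtypeEquiv h

theorem lab_lF (p : ℕ) {X : Type} [Group X] [Finite X] (ε : X →* ℤˣ) (z : X) (hεz : ε z = 1) (ν : ℂ)
    {L : Type} {tw : L → L} {dg : L → ℕ} (h : Nonempty (Lab X ε z ν L tw dg)) (d : ZMod p) :
    lF p ε z ν d = Nat.card {l : L // (dg l : ZMod p) ^ 2 = d ∧ tw l = l} ∧
    lN p ε z ν d = Nat.card {l : L // (dg l : ZMod p) ^ 2 = d ∧ tw l ≠ l} := by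
  obtain ⟨h⟩ := h
  have hdeg : ∀ χ : IrrZ z ν, deg χ.1 = dg (h.e χ) := fun χ => deg_eq (h.deg χ)
  have htw : ∀ χ : IrrZ z ν, (∀ x, (((ε x : ℤˣ) : ℤ) : ℂ) * χ.1 x = χ.1 x) ↔
      tw (h.e χ) = h.e χ := by
    intro χ
    constructor
    · intro h1
      exact (h.twist χ χ (fun x => (h1 x).symm)).symm
    · intro h1 x
      have h2 : (fun x => (((ε x : ℤˣ) : ℤ) : ℂ) * χ.1 x) ∈ IrrZ z ν := by
        refine ⟨tw_irr ε χ.2.1, ?_⟩
        change (((ε z : ℤˣ) : ℤ) : ℂ) * χ.1 z = ν * ((((ε 1 : ℤˣ) : ℤ) : ℂ) * χ.1 1)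
        rw [hεz, map_one, χ.2.2]
        simp
      have h3 := h.twist χ ⟨_, h2⟩ (fun x => rfl)
      rw [h1] at h3
      have h4 := h.e.injective h3
      exact congrFun (congrArg Subtype.val h4) x
  constructor
  · refine card_aux h.e fun χ => ?_
    rw [hdeg χ, htw χ]
  · refine card_aux h.e fun χ => ?_
    rw [hdeg χ, htw χ]

private lemma card_sub {L L' : Type} {S : L → Prop} {S' : L' → Prop} (e : Subtype S ≃ Subtype S')
    {R : L → Prop} {R' : L' → Prop} (h1 : ∀ {l}, R l → S l) (h2 : ∀ {l}, R' l → S' l)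
    (h : ∀ l : Subtype S, R l.1 ↔ R' (e l).1) :
    Nat.card {l : L // R l} = Nat.card {l : L' // R' l} := by
  refine Nat.card_congr ?_
  refine (Equiv.subtypeSubtypeEquivSubtype h1).symm.trans ?_
  refine Equiv.trans ?_ (Equiv.subtypeSubtypeEquivSubtype h2)
  exact e.subtypeEquiv h

theorem cnt_of_equiv (p : ℕ) [Fact p.Prime] {L L' : Type} (tw : L → L) (tw' : L' → L')
    (dg : L → ℕ) (dg' : L' → ℕ)
    (e : {l : L // ¬ p ∣ dg l} ≃ {l : L' // ¬ p ∣ dg' l})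
    (htw : ∀ l, ¬ p ∣ dg l → ¬ p ∣ dg (tw l))
    (he : ∀ l l', l'.1 = tw l.1 → (e l').1 = tw' (e l).1)
    (hdg : ∀ l, ((dg' (e l).1 : ℕ) : ZMod p) ^ 2 = (dg l.1 : ZMod p) ^ 2) (d : ZMod p)
    (hd : d ≠ 0) :
    Nat.card {l : L // (dg l : ZMod p) ^ 2 = d ∧ tw l = l} =
      Nat.card {l : L' // (dg' l : ZMod p) ^ 2 = d ∧ tw' l = l} ∧
    Nat.card {l : L // (dg l : ZMod p) ^ 2 = d ∧ tw l ≠ l} =
      Nat.card {l : L' // (dg' l : ZMod p) ^ 2 = d ∧ tw' l ≠ l} := by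
  have h0 : ∀ n : ℕ, (n : ZMod p) ^ 2 = d → ¬ p ∣ n := by
    intro n hn hp
    rw [(ZMod.natCast_eq_zero_iff n p).2 hp] at hn
    apply hd
    rw [← hn]
    ring
  have h1 : ∀ l : {l : L // ¬ p ∣ dg l}, tw l.1 = l.1 ↔ tw' (e l).1 = (e l).1 := by
    intro l
    have h2 := he l ⟨tw l.1, htw l.1 l.2⟩ rfl
    constructor
    · intro h3
      rw [← h2]
      congr 2
      exact Subtype.ext h3
    · intro h3
      rw [← h2] at h3
      have h4 := e.injective (Subtype.ext h3)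
      exact congrArg Subtype.val h4
  constructor
  · refine card_sub e (fun h => h0 _ h.1) (fun h => h0 _ h.1) fun l => ?_
    rw [hdg l, h1 l]
  · refine card_sub e (fun h => h0 _ h.1) (fun h => h0 _ h.1) fun l => ?_
    rw [hdg l, ne_eq, ne_eq, h1 l]

end Pool.Agent.Helper81.AN
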