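import Pool.Agent.Helper81.AN.UPerm

/-!
# ALT-43: the element of full support

`w ∈ Cl ι` with full support, `n = |ι|`.

PROOFS. `omega_comm`: `Cl.comm_eq`: the exponent is `n |B| + |B| = (n + 1) |B|` mod 2, `B = supp c`; `Cl.par_eq`. `pact_omega`: the support of `pact σ w` is full, so `pact σ w = w` or `z w` (`Cl.eq_of_supp`); the map `σ ↦ pact σ w * w⁻¹ ∈ {1, z}` is a
homomorphism (`pact σ z = z`); for a transposition `(i j)` write `w = ± a_i a_j r` with `r` of support `ι \ {i, j}` (fixed by the transposition up to ... `pact (i j) r = r` since `r` is a product of the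
`a_k`, `k ≠ i, j`, up to `z`): `pact w = ± a_j a_i r = z w`. `Equiv.Perm.swap_induction_on` or `Equiv.Perm.eq_sign_of_surjective_hom`.
`omega_scalar`: for `n` odd `w` is central in `Cl ι`, the image of `U` spans all matrices, so `U w` commutes with all matrices: scalar.
-/

set_option autoImplicit false

open Matrix Equiv

namespace Pool.Agent.Helper81.AN

variable {ι : Type} [Fintype ι] [DecidableEq ι]

/-- full support -/
def Full (w : Cl ι) : Prop := ∀ i, Multiplicative.toAdd (Cl.supp w) i = 1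

theorem exists_full : ∃ w : Cl ι, Full w := by
  obtain ⟨w, hw⟩ := Cl.supp_surjective (ι := ι) (Multiplicative.ofAdd fun _ => 1)
  exact ⟨w, fun i => by rw [hw]; rfl⟩

omit [Fintype ι] [DecidableEq ι] in
theorem Cl.u_neg : (Cl.u (-1) : Cl ι) = Cl.z := by
  change (if (-1 : ℤˣ) = 1 then 1 else Cl.z) = Cl.z
  rw [if_neg (by decide)]

theorem par_zp (c : Cl ι) :
    (Cl.zp (∑ i, Multiplicative.toAdd (Cl.supp c) i) : Cl ι) = Cl.u (Cl.par c) := by
  rcases Int.units_eq_one_or (Cl.par c) with h | h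
  · rw [h, map_one, (Cl.par_eq c).1 h, Cl.zp_zero]
  · rw [h, Cl.u_neg]
    have h2 : ∑ i, Multiplicative.toAdd (Cl.supp c) i = 1 := by
      refine (Cl.z2cases _).resolve_left fun h3 => ?_
      rw [← Cl.par_eq, h] at h3
      exact absurd h3 (by decide)
    rw [h2, Cl.zp_one]

theorem omega_pair (w : Cl ι) (hw : Full w) (c : Cl ι) :
    w * c = Cl.zp (((Fintype.card ι : ZMod 2) + 1) * ∑ i, Multiplicative.toAdd (Cl.supp c) i) *
      (c * w) := by
  rw [Cl.comm_eq w c]
  congr 2
  have h1 : ∑ i, Multiplicative.toAdd (Cl.supp w) i = (Fintype.card ι : ZMod 2) := by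
    rw [Finset.sum_congr rfl fun i _ => hw i]
    simp
  have h2 : ∑ i, Multiplicative.toAdd (Cl.supp w) i * Multiplicative.toAdd (Cl.supp c) i =
      ∑ i, Multiplicative.toAdd (Cl.supp c) i :=
    Finset.sum_congr rfl fun i _ => by rw [hw i, one_mul]
  rw [h1, h2]
  ring

theorem omega_even (w : Cl ι) (hw : Full w) (hn : Even (Fintype.card ι)) (c : Cl ι) :
    w * c = Cl.u (Cl.par c) * (c * w) := by
  have h : (Fintype.card ι : ZMod 2) = 0 := (ZMod.natCast_eq_zero_iff_even).2 hn
  rw [omega_pair w hw c, h, zero_add, one_mul, par_zp]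

theorem omega_odd (w : Cl ι) (hw : Full w) (hn : Odd (Fintype.card ι)) (c : Cl ι) :
    w * c = c * w := by
  have h : (Fintype.card ι : ZMod 2) = 1 := (ZMod.natCast_eq_one_iff_odd).2 hn
  rw [omega_pair w hw c, h, CharTwo.add_self_eq_zero, zero_mul, Cl.zp_zero, one_mul]

theorem par_omega (w : Cl ι) (hw : Full w) (hn : Odd (Fintype.card ι)) : Cl.par w = -1 := by
  rcases Int.units_eq_one_or (Cl.par w) with h | h
  · exfalso
    rw [Cl.par_eq, Finset.sum_congr rfl fun i _ => hw i] at h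
    simp only [Finset.sum_const, Finset.card_univ, nsmul_eq_mul, mul_one] at h
    rw [ZMod.natCast_eq_zero_iff_even] at h
    exact (Nat.not_even_iff_odd.2 hn) h
  · exact h

omit [Fintype ι] in
/-- an element whose support is fixed pointwise is fixed -/
theorem pact_fix (σ : Perm ι) (g : Cl ι)
    (hg : ∀ i, σ i ≠ i → Multiplicative.toAdd (Cl.supp g) i = 0) : pact σ g = g := by
  obtain ⟨e, l, hl, rfl⟩ := Cl.nf g
  have h1 : ∀ i ∈ l, σ i = i := by
    intro i hi
    by_contra hne
    have h := hg i hne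
    rw [Cl.toAdd_supp_mul, Cl.supp_zp, Cl.supp_list l hl, if_pos hi, toAdd_one, Pi.zero_apply,
      zero_add] at h
    exact one_ne_zero h
  rw [map_mul, pact_zp, map_list_prod, List.map_map]
  congr 2
  apply List.map_congr_left
  intro i hi
  change pact σ (Cl.a i) = Cl.a i
  rw [pact_a, h1 i hi]

omit [Fintype ι] in
theorem swap_omega (w : Cl ι) (hw : Full w) (i j : ι) (hij : i ≠ j) :
    pact (swap i j) w = Cl.z * w := by
  have hr : w = Cl.a i * Cl.a j * (Cl.a j * Cl.a i * w) := by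
    rw [mul_assoc (Cl.a j), mul_assoc (Cl.a i), ← mul_assoc (Cl.a j) (Cl.a j), Cl.aa, one_mul,
      ← mul_assoc, Cl.aa, one_mul]
  have hfix : pact (swap i j) (Cl.a j * Cl.a i * w) = Cl.a j * Cl.a i * w := by
    apply pact_fix
    intro k hk
    have hk' : k = i ∨ k = j := by
      by_contra hcon
      push Not at hcon
      exact hk (swap_apply_of_ne_of_ne hcon.1 hcon.2)
    rw [Cl.toAdd_supp_mul, Cl.toAdd_supp_mul, hw k, Cl.toAdd_supp_a, Cl.toAdd_supp_a]
    rcases hk' with rfl | rfl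
    · rw [if_neg hij, if_pos rfl]
      decide
    · rw [if_pos rfl, if_neg (Ne.symm hij)]
      decide
  generalize Cl.a j * Cl.a i * w = r at hr hfix
  rw [hr, map_mul, hfix, map_mul, pact_a, pact_a, swap_apply_left, swap_apply_right,
    Cl.a_mul_a (Ne.symm hij), mul_assoc Cl.z]

theorem pact_omega (w : Cl ι) (hw : Full w) (σ : Perm ι) : pact σ w = Cl.u (Perm.sign σ) * w := by
  induction σ using Equiv.Perm.swap_induction_on with
  | one => rw [pact_one, map_one, map_one, one_mul]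
  | swap_mul f x y hxy ih =>
    have hu : ∀ s : ℤˣ, pact (swap x y) (Cl.u s : Cl ι) = Cl.u s := fun s => Cl.actHom_u _ s
    rw [pact_mul, ih, map_mul, hu, swap_omega w hw x y hxy, map_mul, Equiv.Perm.sign_swap hxy,
      map_mul, Cl.u_neg, ← mul_assoc, ← Cl.z_comm]

theorem omega_sq (w : Cl ι) : w * w = 1 ∨ w * w = Cl.z := by
  apply Cl.ker_supp
  apply Multiplicative.toAdd.injective
  funext i
  rw [Cl.toAdd_supp_mul, CharTwo.add_self_eq_zero]
  rfl

theorem omega_scalar {d : ℕ} (hd : 0 < d) (U : Cl ι →* GL (Fin d) ℂ)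
    (hspan : Submodule.span ℂ {M : Matrix (Fin d) (Fin d) ℂ |
      ∃ c : Cl ι, (U c : Matrix (Fin d) (Fin d) ℂ) = M} = ⊤) (w : Cl ι) (hw : Full w)
    (hn : Odd (Fintype.card ι)) : ∃ ν : ℂˣ, (U w : Matrix (Fin d) (Fin d) ℂ) = (ν : ℂ) • 1 := by
  have hcomm : ∀ M : Matrix (Fin d) (Fin d) ℂ, (U w : Matrix (Fin d) (Fin d) ℂ) * M =
      M * (U w : Matrix (Fin d) (Fin d) ℂ) := by
    intro M
    have hM : M ∈ Submodule.span ℂ {M : Matrix (Fin d) (Fin d) ℂ |
      ∃ c : Cl ι, (U c : Matrix (Fin d) (Fin d) ℂ) = M} := by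
      rw [hspan]
      trivial
    induction hM using Submodule.span_induction with
    | mem x hx =>
      obtain ⟨c, rfl⟩ := hx
      rw [← Units.val_mul, ← Units.val_mul, ← map_mul, ← map_mul, omega_odd w hw hn c]
    | zero => rw [mul_zero, zero_mul]
    | add x y _ _ hx hy => rw [mul_add, add_mul, hx, hy]
    | smul a x _ hx => rw [mul_smul_comm, smul_mul_assoc, hx]
  have h1 : (U w : Matrix (Fin d) (Fin d) ℂ) ∈ Set.range (Matrix.scalar (Fin d)) := by
    rw [Matrix.mem_range_scalar_iff_commute_single]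
    intro i j _
    exact (hcomm _).symm
  obtain ⟨ν, hν⟩ := h1
  have hν0 : ν ≠ 0 := by
    rintro rfl
    rw [map_zero] at hν
    have h2 : (U w : Matrix (Fin d) (Fin d) ℂ) * ((U w)⁻¹ : GL (Fin d) ℂ) = 1 := by
      rw [← Units.val_mul, mul_inv_cancel, Units.val_one]
    rw [← hν, zero_mul] at h2
    have h3 := congrFun (congrFun h2 ⟨0, hd⟩) ⟨0, hd⟩
    rw [Matrix.one_apply_eq] at h3
    exact zero_ne_one h3
  refine ⟨Units.mk0 ν hν0, ?_⟩
  rw [← hν, Units.val_mk0, Matrix.scalar_apply, Matrix.smul_one_eq_diagonal]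

end Pool.Agent.Helper81.AN
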