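import Pool.Agent.Helper81.AN.PPmv

/-!
# ALT-12: the vacuum; commutators of the power sum operators

PROOFS. `V0` is spanned by the `dl S`, `0 ∉ S`. The explicit formulas show that `phi k`, `mv m`, `PP m` map `dl S` to a
finite combination of `dl T`, `0 ∉ T` (`(phi k (dl S))(T) ≠ 0` for at most one `T`; for `PP m`: `(PP m (dl S))(T) ≠ 0` forces
`T` to arise from `S` by two insertions or removals of elements of size at most `|m| + max S`; so finitely many `T`, and `0` is never
inserted or removed).
* `dl_eq`: over a field with `2 ≠ 0`, `dl S` (`0 ∉ S`, `S ≠ ∅`, `s = max S`) is `± ½ φ_s (dl (S \ s))`: `(φ_s (dl (S \ s)))(S) = 2`, other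
  values are zero. So an operator which commutes with all `φ_k`, `k > 0`, is determined on `V0` by its value on `dl ∅`:
  `scalar_of_comm` by induction over `|S|`.
* `vac_of_kill`: if `0 ∉ T`, `T` not empty, `k ∈ T`: `(φ_{-k} y)(T \ k) = ± y(T) = 0`. And `y(T) = 0` if `0 ∈ T` because `y ∈ V0`.
* `PP_comm`: `D = [PP m, PP n]` commutes with all `φ_k` (`PP_phi` and the Jacobi identity: `[D, φ_k] = φ_{k+m+n} - φ_{k+m+n} = 0`).
  For `k > 0`: `φ_{-k} (D (dl ∅)) = D (φ_{-k} (dl ∅)) = D 0 = 0`, so `D (dl ∅) = c • dl ∅`, `c = (D (dl ∅))(∅)` (`vac_of_kill`) and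
  `D x = c • x` on `V0`. To compute `c`: for `m > 0` and every `y`: `(PP m y)(∅) = 0` (`ppI m ∅ = ∅`). So if `m`, `n > 0`
  then `c = 0`. For `m = -k < 0`: `(PP (-k) y)(∅) = ½ y({k}) + ½ Σ_{0 < i < k/2} (-1)^i y({i, k - i})` (terms `a = 0` and
  `a = -i` of the definition). For `n > 0`: `y = PP n (dl ∅) = mv n (dl ∅)` has `y({k}) = 1` if `k = n` (else `0`) and
  `y({i, k - i}) = 2 (-1)^i` if `k = n`, else `0`, so `(PP (-k) PP n (dl ∅))(∅) = ½ + #{0 < i < k/2} = k/2` if `k = n`, else `0`; and
  `PP n PP (-k) (dl ∅)` vanishes at `∅`. If both are negative: `PP (-k) (dl ∅) = 0` (it lowers; `(PP (-k) (dl ∅))(T)`: the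
  terms `φ_a φ_{-k-a}`, `a > 0`: `-k-a < 0` kills `dl ∅`; `a = 0`: `φ_{-k}` kills; `-k/2 < a < 0`: `φ_{-k-a}` kills). The case
  `m > 0 > n` is the case `(n, m)` with the opposite sign.
-/

set_option autoImplicit false

namespace Pool.Agent.Helper81.AN

variable (R : Type) [CommRing R]

theorem dl_mem (S : Finset ℕ) (hS : 0 ∉ S) : dl R S ∈ V0 R :=
  Submodule.subset_span ⟨S, hS, rfl⟩

theorem V0_zero {x : Fk R} (hx : x ∈ V0 R) (T : Finset ℕ) (hT : 0 ∈ T) : x T = 0 := by
  unfold V0 at hx
  induction hx using Submodule.span_induction with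
  | mem x h =>
    obtain ⟨S, hS, rfl⟩ := h
    unfold dl
    rw [if_neg]
    rintro rfl
    exact hS hT
  | zero => rfl
  | add x y _ _ hx hy => rw [Pi.add_apply, hx, hy, add_zero]
  | smul a x _ hx => rw [Pi.smul_apply, hx, smul_zero]

theorem V0_finite {x : Fk R} (hx : x ∈ V0 R) : {T | x T ≠ 0}.Finite := by
  unfold V0 at hx
  induction hx using Submodule.span_induction with
  | mem x h =>
    obtain ⟨S, hS, rfl⟩ := h
    refine (Set.finite_singleton S).subset ?_
    intro T hT
    by_contra hne
    apply hT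
    change (if T = S then (1 : R) else 0) = 0
    rw [Set.mem_singleton_iff] at hne
    rw [if_neg hne]
  | zero =>
    refine (Set.finite_empty).subset ?_
    intro T hT
    exact hT rfl
  | add x y _ _ hx hy =>
    refine (hx.union hy).subset ?_
    intro T hT
    by_contra hne
    rw [Set.mem_union, not_or] at hne
    apply hT
    have h1 : x T = 0 := not_not.1 hne.1
    have h2 : y T = 0 := not_not.1 hne.2
    rw [Pi.add_apply, h1, h2, add_zero]
  | smul a x _ hx =>
    refine hx.subset ?_
    intro T hT h0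
    apply hT
    rw [Pi.smul_apply, h0, smul_zero]

/-- characterization of `V0` -/
private theorem V0_of {x : Fk R} (h1 : {T | x T ≠ 0}.Finite) (h2 : ∀ T : Finset ℕ, 0 ∈ T → x T = 0) :
    x ∈ V0 R := by
  have hx : x = ∑ T ∈ h1.toFinset, x T • dl R T := by
    funext S
    rw [Finset.sum_apply]
    by_cases hS : x S = 0
    · rw [hS, Finset.sum_eq_zero]
      intro T hT
      rw [Set.Finite.mem_toFinset] at hT
      change x T • (if S = T then (1 : R) else 0) = 0
      rw [if_neg, smul_zero]
      rintro rfl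
      exact hT hS
    · rw [Finset.sum_eq_single S]
      · change x S = x S • (if S = S then (1 : R) else 0)
        rw [if_pos rfl, smul_eq_mul, mul_one]
      · intro T _ hne
        change x T • (if S = T then (1 : R) else 0) = 0
        rw [if_neg (Ne.symm hne), smul_zero]
      · intro h
        exact absurd (h1.mem_toFinset.2 hS) h
  rw [hx]
  refine Submodule.sum_mem _ ?_
  intro T hT
  apply Submodule.smul_mem
  apply dl_mem
  intro h0
  exact (h1.mem_toFinset.1 hT) (h2 T h0)

private theorem phi_pos_apply (k : ℤ) (hk : 0 < k) (x : Fk R) (S : Finset ℕ) :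
    phi R k x S = if k.toNat ∈ S then 2 * (-1) ^ nab S k.toNat * x (S.erase k.toNat) else 0 := by
  change (if 0 < k then _ else _) = _
  rw [if_pos hk]

private theorem phi_zero_apply (x : Fk R) (S : Finset ℕ) :
    phi R 0 x S = (-1) ^ S.card * x S := by
  unfold phi
  simp

private theorem phi_neg_apply (k : ℤ) (hk : k < 0) (x : Fk R) (S : Finset ℕ) :
    phi R k x S = if (-k).toNat ∈ S then 0 else
      (-1) ^ ((-k).toNat + nab S (-k).toNat) * x (insert (-k).toNat S) := by
  change (if 0 < k then _ else if k = 0 then _ else _) = _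
  rw [if_neg (by omega), if_neg (by omega)]

theorem V0_phi {x : Fk R} (hx : x ∈ V0 R) (k : ℤ) : phi R k x ∈ V0 R := by
  have hf := V0_finite R hx
  have hz := fun T hT => V0_zero R hx T hT
  rcases lt_trichotomy 0 k with hk | hk | hk
  · apply V0_of
    · refine (hf.image (fun T => insert k.toNat T)).subset ?_
      intro S hS
      change phi R k x S ≠ 0 at hS
      rw [phi_pos_apply R k hk] at hS
      by_cases h : k.toNat ∈ S
      · rw [if_pos h] at hS
        refine ⟨S.erase k.toNat, ?_, Finset.insert_erase h⟩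
        intro h0
        apply hS
        rw [h0, mul_zero]
      · rw [if_neg h] at hS
        exact absurd rfl hS
    · intro S hS
      rw [phi_pos_apply R k hk]
      split_ifs
      · rw [hz _ (Finset.mem_erase.2 ⟨by omega, hS⟩), mul_zero]
      · rfl
  · subst hk
    apply V0_of
    · refine hf.subset ?_
      intro S hS
      change phi R 0 x S ≠ 0 at hS
      rw [phi_zero_apply] at hS
      intro h0
      apply hS
      rw [h0, mul_zero]
    · intro S hS
      rw [phi_zero_apply, hz S hS, mul_zero]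
  · apply V0_of
    · refine (hf.image (fun T => T.erase (-k).toNat)).subset ?_
      intro S hS
      change phi R k x S ≠ 0 at hS
      rw [phi_neg_apply R k hk] at hS
      by_cases h : (-k).toNat ∈ S
      · rw [if_pos h] at hS
        exact absurd rfl hS
      · rw [if_neg h] at hS
        refine ⟨insert (-k).toNat S, ?_, Finset.erase_insert h⟩
        intro h0
        apply hS
        rw [h0, mul_zero]
    · intro S hS
      rw [phi_neg_apply R k hk]
      split_ifs
      · rfl
      · rw [hz _ (Finset.mem_insert_of_mem hS), mul_zero]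

private theorem mv_apply (m : ℕ) (x : Fk R) (S : Finset ℕ) :
    mv R m x S = (∑ a ∈ S.filter (fun a => m ≤ a), if a = m then
        (-1) ^ (S.filter (fun t => t < m)).card * x (S.erase m)
      else if a - m ∈ S then 0 else
        (-1) ^ nbt S (a - m) a * x (insert (a - m) (S.erase a))) +
    ∑ a ∈ S.filter (fun a => a < m ∧ m < 2 * a ∧ m - a ∈ S),
      2 * (-1) ^ (m - a + nbt S (m - a) a) * x ((S.erase a).erase (m - a)) := rfl

theorem V0_mv {x : Fk R} (hx : x ∈ V0 R) (m : ℕ) (hm : Odd m) : mv R m x ∈ V0 R := by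
  have hf := V0_finite R hx
  have hz := fun T hT => V0_zero R hx T hT
  have hm0 : 0 < m := hm.pos
  apply V0_of
  · have hfin : (⋃ T ∈ {T | x T ≠ 0}, (({insert m T} : Set (Finset ℕ)) ∪
        ((fun c => insert (c + m) (T.erase c)) '' (T : Set ℕ)) ∪
        ((fun a => insert a (insert (m - a) T)) '' (Set.Iio m)))).Finite := by
      refine hf.biUnion ?_
      intro T _
      exact ((Set.finite_singleton _).union (T.finite_toSet.image _)).union
        ((Set.finite_Iio m).image _)
    refine hfin.subset ?_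
    intro S hS
    change mv R m x S ≠ 0 at hS
    by_contra hne
    apply hS
    rw [mv_apply, Finset.sum_eq_zero, Finset.sum_eq_zero, add_zero]
    · intro a ha
      rw [Finset.mem_filter] at ha
      have h0 : x ((S.erase a).erase (m - a)) = 0 := by
        by_contra h
        apply hne
        rw [Set.mem_iUnion₂]
        refine ⟨_, h, Or.inr ⟨a, ha.2.1, ?_⟩⟩
        have h1 : m - a ∈ S.erase a := Finset.mem_erase.2 ⟨by omega, ha.2.2.2⟩
        change insert a (insert (m - a) ((S.erase a).erase (m - a))) = S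
        rw [Finset.insert_erase h1, Finset.insert_erase ha.1]
      rw [h0, mul_zero]
    · intro a ha
      rw [Finset.mem_filter] at ha
      split_ifs with h1 h2
      · have h0 : x (S.erase m) = 0 := by
          by_contra h
          apply hne
          rw [Set.mem_iUnion₂]
          refine ⟨_, h, Or.inl (Or.inl ?_)⟩
          rw [Set.mem_singleton_iff, Finset.insert_erase]
          rw [← h1]
          exact ha.1
        rw [h0, mul_zero]
      · rfl
      · have h0 : x (insert (a - m) (S.erase a)) = 0 := by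
          by_contra h
          apply hne
          rw [Set.mem_iUnion₂]
          refine ⟨_, h, Or.inl (Or.inr ⟨a - m, ?_, ?_⟩)⟩
          · exact Finset.mem_coe.2 (Finset.mem_insert_self _ _)
          · have h3 : a - m ∉ S.erase a := fun h => h2 (Finset.mem_of_mem_erase h)
            change insert (a - m + m) ((insert (a - m) (S.erase a)).erase (a - m)) = S
            rw [Finset.erase_insert h3, Nat.sub_add_cancel ha.2, Finset.insert_erase ha.1]
        rw [h0, mul_zero]
  · intro S hS
    rw [mv_apply, Finset.sum_eq_zero, Finset.sum_eq_zero, add_zero]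
    · intro a ha
      rw [Finset.mem_filter] at ha
      rw [hz _ (Finset.mem_erase.2 ⟨by omega, Finset.mem_erase.2 ⟨by omega, hS⟩⟩), mul_zero]
    · intro a ha
      rw [Finset.mem_filter] at ha
      split_ifs
      · rw [hz _ (Finset.mem_erase.2 ⟨by omega, hS⟩), mul_zero]
      · rfl
      · rw [hz _ (Finset.mem_insert_of_mem (Finset.mem_erase.2 ⟨by omega, hS⟩)), mul_zero]

private theorem PP_apply (m : ℤ) (x : Fk ℚ) (S : Finset ℕ) :
    PP m x S = (1 / 2) * ∑ a ∈ ppI m S, (-1) ^ (m - a).natAbs *
      (phi ℚ a (phi ℚ (m - a) x)) S := rfl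

private theorem mem_ppI (m : ℤ) (S : Finset ℕ) (a : ℤ) :
    a ∈ ppI m S ↔ ((∃ t ∈ S, (t : ℤ) = a) ∨ (-|m| ≤ a ∧ a ≤ 0)) ∧ m < 2 * a := by
  unfold ppI
  rw [Finset.mem_filter, Finset.mem_union, Finset.mem_image, Finset.mem_Icc]

theorem V0_PP {x : Fk ℚ} (hx : x ∈ V0 ℚ) (m : ℤ) (hm : Odd m) : PP m x ∈ V0 ℚ := by
  have hf := V0_finite ℚ hx
  have hz := fun T hT => V0_zero ℚ hx T hT
  have hff : ∀ a : ℤ, phi ℚ a (phi ℚ (m - a) x) ∈ V0 ℚ := fun a => V0_phi ℚ (V0_phi ℚ hx _) _
  apply V0_of
  · have hA : (Set.Icc (-|m|) |m| ∪ ⋃ T ∈ {T | x T ≠ 0},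
        ((fun t : ℕ => m + (t : ℤ)) '' (T : Set ℕ))).Finite := by
      refine (Set.finite_Icc _ _).union ?_
      refine hf.biUnion ?_
      intro T _
      exact T.finite_toSet.image _
    have hfin : (⋃ a ∈ (Set.Icc (-|m|) |m| ∪ ⋃ T ∈ {T | x T ≠ 0},
        ((fun t : ℕ => m + (t : ℤ)) '' (T : Set ℕ))),
        {S | phi ℚ a (phi ℚ (m - a) x) S ≠ 0}).Finite := by
      refine hA.biUnion ?_
      intro a _
      exact V0_finite ℚ (hff a)
    refine hfin.subset ?_
    intro S hS
    change PP m x S ≠ 0 at hS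
    by_contra hne
    apply hS
    rw [PP_apply, Finset.sum_eq_zero, mul_zero]
    intro a ha
    rw [mem_ppI] at ha
    have h0 : phi ℚ a (phi ℚ (m - a) x) S = 0 := by
      by_contra h
      apply hne
      rw [Set.mem_iUnion₂]
      refine ⟨a, ?_, h⟩
      by_cases h1 : a ≤ |m|
      · left
        refine ⟨?_, h1⟩
        rcases ha.1 with ⟨t, _, ht⟩ | h2
        · have : (0 : ℤ) ≤ |m| := abs_nonneg m
          omega
        · exact h2.1
      · right
        have hm1 : m ≤ |m| := le_abs_self m
        have hm2 : (0 : ℤ) ≤ |m| := abs_nonneg m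
        have ha0 : 0 < a := by omega
        rw [phi_pos_apply ℚ a ha0] at h
        by_cases h3 : a.toNat ∈ S
        · rw [if_pos h3, phi_neg_apply ℚ (m - a) (by omega)] at h
          by_cases h4 : (-(m - a)).toNat ∈ S.erase a.toNat
          · rw [if_pos h4, mul_zero] at h
            exact absurd rfl h
          · rw [if_neg h4] at h
            rw [Set.mem_iUnion₂]
            refine ⟨insert (-(m - a)).toNat (S.erase a.toNat), ?_, (-(m - a)).toNat, ?_, ?_⟩
            · intro h5
              apply h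
              rw [h5, mul_zero, mul_zero]
            · exact Finset.mem_coe.2 (Finset.mem_insert_self _ _)
            · change m + (((-(m - a)).toNat : ℕ) : ℤ) = a
              omega
        · rw [if_neg h3] at h
          exact absurd rfl h
    rw [h0, mul_zero]
  · intro S hS
    rw [PP_apply, Finset.sum_eq_zero, mul_zero]
    intro a _
    rw [V0_zero ℚ (hff a) S hS, mul_zero]

theorem phi_neg_vac (k : ℤ) (hk : k < 0) : phi R k (dl R ∅) = 0 := by
  funext S
  rw [phi_neg_apply R k hk]
  split_ifs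
  · rfl
  · change _ * (if insert (-k).toNat S = ∅ then (1 : R) else 0) = 0
    rw [if_neg (Finset.insert_ne_empty _ _), mul_zero]

theorem scalar_of_comm (F : Type) [Field F] (h2 : (2 : F) ≠ 0) (D : Module.End F (Fk F))
    (hD : ∀ k : ℤ, 0 < k → D * phi F k = phi F k * D) (c : F) (h0 : D (dl F ∅) = c • dl F ∅)
    {x : Fk F} (hx : x ∈ V0 F) : D x = c • x := by
  have key : ∀ S : Finset ℕ, 0 ∉ S → D (dl F S) = c • dl F S := by
    intro S
    induction S using Finset.induction_on_max with
    | empty => intro _; exact h0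
    | insert s T hs ih =>
      intro hST
      rw [Finset.mem_insert, not_or] at hST
      have hs0 : 0 < s := Nat.pos_of_ne_zero (Ne.symm hST.1)
      have hsT : s ∉ T := fun h => lt_irrefl _ (hs s h)
      have e1 : dl F (insert s T) = (2 : F)⁻¹ • phi F (s : ℤ) (dl F T) := by
        funext U
        rw [Pi.smul_apply, phi_pos_apply F (s : ℤ) (by omega), Int.toNat_natCast]
        change (if U = insert s T then (1 : F) else 0) = _
        by_cases hU : s ∈ U
        · rw [if_pos hU]
          change _ = (2 : F)⁻¹ • (_ * (if U.erase s = T then (1 : F) else 0))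
          by_cases hU2 : U = insert s T
          · subst hU2
            rw [if_pos rfl, Finset.erase_insert hsT, if_pos rfl]
            have hn : nab (insert s T) s = 0 := by
              unfold nab
              rw [Finset.card_eq_zero, Finset.filter_eq_empty_iff]
              intro t ht
              rw [Finset.mem_insert] at ht
              rcases ht with rfl | ht
              · exact lt_irrefl _
              · exact not_lt.2 (hs t ht).le
            rw [hn, pow_zero, mul_one, mul_one, smul_eq_mul, inv_mul_cancel₀ h2]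
          · rw [if_neg hU2, if_neg, mul_zero, smul_zero]
            rintro rfl
            exact hU2 (Finset.insert_erase hU).symm
        · rw [if_neg hU, if_neg, smul_zero]
          rintro rfl
          exact hU (Finset.mem_insert_self _ _)
      have e2 : D (phi F (s : ℤ) (dl F T)) = phi F (s : ℤ) (D (dl F T)) := by
        have := LinearMap.congr_fun (hD (s : ℤ) (by omega)) (dl F T)
        simpa using this
      rw [e1, map_smul, e2, ih hST.2, map_smul, smul_comm]
  unfold V0 at hx
  induction hx using Submodule.span_induction with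
  | mem x h =>
    obtain ⟨S, hS, rfl⟩ := h
    exact key S hS
  | zero => rw [map_zero, smul_zero]
  | add x y _ _ hx hy => rw [map_add, hx, hy, smul_add]
  | smul a x _ hx => rw [map_smul, hx, smul_comm]

theorem vac_of_kill {y : Fk R} (hy : y ∈ V0 R) (hk : ∀ k : ℤ, k < 0 → phi R k y = 0) :
    y = y ∅ • dl R ∅ := by
  funext T
  rw [Pi.smul_apply]
  change y T = y ∅ • (if T = ∅ then (1 : R) else 0)
  by_cases hT : T = ∅
  · rw [if_pos hT, hT, smul_eq_mul, mul_one]
  · rw [if_neg hT, smul_zero]
    obtain ⟨k, hkT⟩ := Finset.nonempty_iff_ne_empty.2 hT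
    by_cases h0 : 0 ∈ T
    · exact V0_zero R hy T h0
    · have hk0 : 0 < k := Nat.pos_of_ne_zero (fun h => h0 (h ▸ hkT))
      have h1 := congr_fun (hk (-(k : ℤ)) (by omega)) (T.erase k)
      rw [phi_neg_apply R _ (by omega), neg_neg, Int.toNat_natCast,
        if_neg (Finset.notMem_erase k T), Finset.insert_erase hkT, Pi.zero_apply] at h1
      have h2 : ((-1 : R) ^ (k + nab (T.erase k) k)) * ((-1 : R) ^ (k + nab (T.erase k) k)) = 1 := by
        rw [← mul_pow, neg_one_mul, neg_neg, one_pow]
      calc y T = (-1 : R) ^ (k + nab (T.erase k) k) *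
            ((-1 : R) ^ (k + nab (T.erase k) k) * y T) := by rw [← mul_assoc, h2, one_mul]
        _ = 0 := by rw [h1, mul_zero]

theorem PP_neg_vac (m : ℤ) (hm : Odd m) (h0 : m < 0) : PP m (dl ℚ ∅) = 0 := by
  funext S
  rw [PP_apply, Finset.sum_eq_zero, mul_zero]
  · rfl
  · intro a ha
    rw [mem_ppI] at ha
    rw [phi_neg_vac ℚ (m - a) (by omega), map_zero, Pi.zero_apply, mul_zero]

private theorem PP_pos_empty (m : ℤ) (hm : 0 < m) (y : Fk ℚ) : PP m y ∅ = 0 := by
  rw [PP_apply, Finset.sum_eq_zero, mul_zero]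
  intro a ha
  exfalso
  rw [mem_ppI] at ha
  rcases ha.1 with ⟨t, ht, _⟩ | h
  · exact absurd ht (Finset.notMem_empty t)
  · omega

private theorem mv_vac_single (n k : ℕ) (hn : Odd n) :
    mv ℚ n (dl ℚ ∅) {k} = if k = n then 1 else 0 := by
  rw [mv_apply]
  have h2 : ∑ a ∈ ({k} : Finset ℕ).filter (fun a => a < n ∧ n < 2 * a ∧ n - a ∈ ({k} : Finset ℕ)),
      2 * (-1 : ℚ) ^ (n - a + nbt {k} (n - a) a) * dl ℚ ∅ ((({k} : Finset ℕ).erase a).erase (n - a))
      = 0 := by
    apply Finset.sum_eq_zero
    intro a ha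
    exfalso
    rw [Finset.mem_filter, Finset.mem_singleton, Finset.mem_singleton] at ha
    omega
  rw [h2, add_zero]
  by_cases hk : k = n
  · subst hk
    rw [if_pos rfl]
    have e : ({k} : Finset ℕ).filter (fun a => k ≤ a) = {k} := by
      rw [Finset.filter_eq_self]
      intro a ha
      rw [Finset.mem_singleton] at ha
      omega
    rw [e, Finset.sum_singleton, if_pos rfl]
    have e2 : ({k} : Finset ℕ).filter (fun t => t < k) = ∅ := by
      rw [Finset.filter_eq_empty_iff]
      intro a ha
      rw [Finset.mem_singleton] at ha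
      omega
    rw [e2, Finset.card_empty, pow_zero, one_mul]
    change (if ({k} : Finset ℕ).erase k = ∅ then (1 : ℚ) else 0) = 1
    rw [if_pos]
    ext a
    simp
  · rw [if_neg hk]
    apply Finset.sum_eq_zero
    intro a ha
    rw [Finset.mem_filter, Finset.mem_singleton] at ha
    rw [if_neg (by omega)]
    split_ifs
    · rfl
    · change _ * (if insert (a - n) (({k} : Finset ℕ).erase a) = ∅ then (1 : ℚ) else 0) = 0
      rw [if_neg (Finset.insert_ne_empty _ _), mul_zero]

private theorem mv_vac_pair (n i j : ℕ) (hi : 0 < i) (hij : i < j) :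
    mv ℚ n (dl ℚ ∅) {i, j} = if i + j = n then 2 * (-1) ^ i else 0 := by
  rw [mv_apply]
  have h1 : (∑ a ∈ ({i, j} : Finset ℕ).filter (fun a => n ≤ a), if a = n then
        (-1 : ℚ) ^ (({i, j} : Finset ℕ).filter (fun t => t < n)).card *
          dl ℚ ∅ (({i, j} : Finset ℕ).erase n)
      else if a - n ∈ ({i, j} : Finset ℕ) then 0 else
        (-1) ^ nbt {i, j} (a - n) a * dl ℚ ∅ (insert (a - n) (({i, j} : Finset ℕ).erase a))) = 0 := by
    apply Finset.sum_eq_zero
    intro a ha
    split_ifs
    · change _ * (if (({i, j} : Finset ℕ).erase n) = ∅ then (1 : ℚ) else 0) = 0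
      rw [if_neg, mul_zero]
      intro he
      have h3 : i ∉ ({i, j} : Finset ℕ).erase n := by rw [he]; exact Finset.notMem_empty _
      have h4 : j ∉ ({i, j} : Finset ℕ).erase n := by rw [he]; exact Finset.notMem_empty _
      simp only [Finset.mem_erase, Finset.mem_insert, Finset.mem_singleton, true_or, or_true,
        and_true, not_not] at h3 h4
      omega
    · rfl
    · change _ * (if insert (a - n) (({i, j} : Finset ℕ).erase a) = ∅ then (1 : ℚ) else 0) = 0
      rw [if_neg (Finset.insert_ne_empty _ _), mul_zero]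
  rw [h1, zero_add]
  by_cases hn : i + j = n
  · rw [if_pos hn]
    have e : ({i, j} : Finset ℕ).filter (fun a => a < n ∧ n < 2 * a ∧ n - a ∈ ({i, j} : Finset ℕ)) =
        {j} := by
      ext a
      simp only [Finset.mem_filter, Finset.mem_insert, Finset.mem_singleton]
      constructor
      · rintro ⟨h3, h4, h5, h6⟩
        omega
      · rintro rfl
        omega
    have hnj : n - j = i := by omega
    rw [e, Finset.sum_singleton, hnj]
    have e2 : (({i, j} : Finset ℕ).erase j).erase i = ∅ := by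
      ext a
      simp only [Finset.mem_erase, Finset.mem_insert, Finset.mem_singleton, Finset.notMem_empty,
        iff_false]
      tauto
    have e3 : nbt {i, j} i j = 0 := by
      unfold nbt
      rw [Finset.card_eq_zero, Finset.filter_eq_empty_iff]
      intro a ha
      simp only [Finset.mem_insert, Finset.mem_singleton] at ha
      omega
    rw [e2, e3, add_zero]
    change _ * (if (∅ : Finset ℕ) = ∅ then (1 : ℚ) else 0) = _
    rw [if_pos rfl, mul_one]
  · rw [if_neg hn]
    apply Finset.sum_eq_zero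
    intro a ha
    exfalso
    simp only [Finset.mem_filter, Finset.mem_insert, Finset.mem_singleton] at ha
    omega

/-- the lowering operator evaluated at the vacuum -/
private theorem PP_neg_term (k : ℕ) (y : Fk ℚ) (i : ℕ) (hi : 2 * i < k) :
    (-1 : ℚ) ^ (-(k : ℤ) - (-(i : ℤ))).natAbs * (phi ℚ (-(i : ℤ)) (phi ℚ (-(k : ℤ) - (-(i : ℤ))) y)) ∅
      = if i = 0 then y {k} else (-1) ^ i * (-1) ^ (k + k) * y {i, k - i} := by
  have e1 : (-(k : ℤ) - (-(i : ℤ))).natAbs = k - i := by omega
  have e2 : (-(-(k : ℤ) - (-(i : ℤ)))).toNat = k - i := by omega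
  rw [e1]
  by_cases h0 : i = 0
  · subst h0
    rw [if_pos rfl]
    have e3 : (-((0 : ℕ) : ℤ)) = 0 := by simp
    rw [e3, phi_zero_apply, phi_neg_apply ℚ _ (by omega), if_neg (Finset.notMem_empty _)]
    have e4 : (-(-(k : ℤ) - 0)).toNat = k := by omega
    rw [e4]
    have e5 : nab ∅ k = 0 := by simp [nab]
    rw [e5, Finset.card_empty, pow_zero, one_mul, Nat.sub_zero, add_zero, ← mul_assoc, ← mul_pow,
      neg_one_mul, neg_neg, one_pow, one_mul]
    rfl
  · rw [if_neg h0, phi_neg_apply ℚ (-(i : ℤ)) (by omega), if_neg (Finset.notMem_empty _), neg_neg,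
      Int.toNat_natCast, phi_neg_apply ℚ _ (by omega), e2]
    have e3 : (insert i (∅ : Finset ℕ)) = {i} := rfl
    have e4 : nab ∅ i = 0 := by simp [nab]
    have e5 : nab {i} (k - i) = 0 := by
      unfold nab
      rw [Finset.card_eq_zero, Finset.filter_eq_empty_iff]
      intro a ha
      rw [Finset.mem_singleton] at ha
      omega
    have e6 : (insert (k - i) ({i} : Finset ℕ)) = {i, k - i} := Finset.pair_comm _ _
    rw [e3, if_neg (by rw [Finset.mem_singleton]; omega), e4, e5, e6, add_zero, add_zero]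
    have e7 : (-1 : ℚ) ^ (k + k) = 1 := by rw [← two_mul, pow_mul]; norm_num
    have e8 : (-1 : ℚ) ^ (k - i) * (-1) ^ (k - i) = 1 := by
      rw [← mul_pow, neg_one_mul, neg_neg, one_pow]
    rw [e7, mul_one]
    calc (-1 : ℚ) ^ (k - i) * ((-1) ^ i * ((-1) ^ (k - i) * y {i, k - i}))
        = ((-1 : ℚ) ^ (k - i) * (-1) ^ (k - i)) * ((-1) ^ i * y {i, k - i}) := by ring
      _ = (-1) ^ i * y {i, k - i} := by rw [e8, one_mul]

private theorem PP_neg_PP_vac (k n : ℕ) (hk : Odd k) (hn : Odd n) :
    PP (-(k : ℤ)) (PP (n : ℤ) (dl ℚ ∅)) ∅ = if k = n then (n : ℚ) / 2 else 0 := by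
  rw [PP_eq_mv n hn, PP_apply]
  obtain ⟨l, hl⟩ := hk
  have hI : ppI (-(k : ℤ)) ∅ = (Finset.range (l + 1)).image (fun i : ℕ => -(i : ℤ)) := by
    ext a
    rw [mem_ppI, Finset.mem_image]
    have habs : |(-(k : ℤ))| = (k : ℤ) := by rw [abs_neg, abs_of_nonneg (by omega)]
    rw [habs]
    constructor
    · rintro ⟨h1, h2⟩
      rcases h1 with ⟨t, ht, _⟩ | h1
      · exact absurd ht (Finset.notMem_empty t)
      · refine ⟨a.natAbs, ?_, by omega⟩
        rw [Finset.mem_range]
        omega
    · rintro ⟨i, hi, rfl⟩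
      rw [Finset.mem_range] at hi
      refine ⟨Or.inr ⟨by omega, by omega⟩, by omega⟩
  rw [hI, Finset.sum_image (by intro a _ b _ h; simpa using h)]
  have hterm : ∀ i ∈ Finset.range (l + 1),
      (-1 : ℚ) ^ (-(k : ℤ) - (-(i : ℤ))).natAbs *
        (phi ℚ (-(i : ℤ)) (phi ℚ (-(k : ℤ) - (-(i : ℤ))) (mv ℚ n (dl ℚ ∅)))) ∅ =
      if k = n then (if i = 0 then 1 else 2) else 0 := by
    intro i hi
    rw [Finset.mem_range] at hi
    rw [PP_neg_term k _ i (by omega)]
    by_cases h0 : i = 0
    · rw [if_pos h0, mv_vac_single n k hn]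
      split_ifs <;> rfl
    · rw [if_neg h0, mv_vac_pair n i (k - i) (by omega) (by omega)]
      have e7 : (-1 : ℚ) ^ (k + k) = 1 := by rw [← two_mul, pow_mul]; norm_num
      have e8 : (-1 : ℚ) ^ i * (-1) ^ i = 1 := by
        rw [← mul_pow, neg_one_mul, neg_neg, one_pow]
      rw [e7, mul_one]
      by_cases hkn : k = n
      · rw [if_pos (by omega), if_pos hkn, if_neg h0]
        calc (-1 : ℚ) ^ i * (2 * (-1) ^ i) = 2 * ((-1 : ℚ) ^ i * (-1) ^ i) := by ring
          _ = 2 := by rw [e8, mul_one]
      · rw [if_neg (by omega), if_neg hkn, mul_zero]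
  rw [Finset.sum_congr rfl hterm]
  by_cases hkn : k = n
  · simp only [if_pos hkn]
    rw [Finset.sum_range_succ']
    have : ∀ i ∈ Finset.range l, (if i + 1 = 0 then (1 : ℚ) else 2) = 2 := by
      intro i _
      rw [if_neg (by omega)]
    rw [Finset.sum_congr rfl this, Finset.sum_const, Finset.card_range, if_pos rfl, nsmul_eq_mul,
      ← hkn, hl]
    push_cast
    ring
  · simp only [if_neg hkn]
    rw [Finset.sum_const_zero, mul_zero]

theorem PP_comm (m n : ℤ) (hm : Odd m) (hn : Odd n) {x : Fk ℚ} (hx : x ∈ V0 ℚ) :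
    PP m (PP n x) - PP n (PP m x) = if m + n = 0 then ((n : ℚ) / 2) • x else 0 := by
  have hPn : ∀ k : ℤ, PP n * phi ℚ k = phi ℚ k * PP n + phi ℚ (k + n) := by
    intro k
    rw [← PP_phi n hn k]
    abel
  have hPm : ∀ k : ℤ, PP m * phi ℚ k = phi ℚ k * PP m + phi ℚ (k + m) := by
    intro k
    rw [← PP_phi m hm k]
    abel
  set D : Module.End ℚ (Fk ℚ) := PP m * PP n - PP n * PP m with hDdef
  have hD : ∀ k : ℤ, D * phi ℚ k = phi ℚ k * D := by
    intro k
    have h1 : PP m * PP n * phi ℚ k = phi ℚ k * (PP m * PP n) + phi ℚ (k + m) * PP n +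
        phi ℚ (k + n) * PP m + phi ℚ (k + n + m) := by
      rw [mul_assoc, hPn, mul_add, ← mul_assoc, hPm, hPm, add_mul, mul_assoc]
      abel
    have h2 : PP n * PP m * phi ℚ k = phi ℚ k * (PP n * PP m) + phi ℚ (k + n) * PP m +
        phi ℚ (k + m) * PP n + phi ℚ (k + m + n) := by
      rw [mul_assoc, hPm, mul_add, ← mul_assoc, hPn, hPn, add_mul, mul_assoc]
      abel
    rw [hDdef, sub_mul, mul_sub, h1, h2, add_right_comm k n m]
    abel
  have hmem : D (dl ℚ ∅) ∈ V0 ℚ := by
    rw [hDdef, LinearMap.sub_apply]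
    exact Submodule.sub_mem _
      (V0_PP (V0_PP (dl_mem ℚ ∅ (Finset.notMem_empty _)) n hn) m hm)
      (V0_PP (V0_PP (dl_mem ℚ ∅ (Finset.notMem_empty _)) m hm) n hn)
  have hkill : ∀ k : ℤ, k < 0 → phi ℚ k (D (dl ℚ ∅)) = 0 := by
    intro k hk
    have := LinearMap.congr_fun (hD k) (dl ℚ ∅)
    rw [Module.End.mul_apply, Module.End.mul_apply, phi_neg_vac ℚ k hk, map_zero] at this
    exact this.symm
  have hvac := vac_of_kill ℚ hmem hkill
  have hsc := scalar_of_comm ℚ (by norm_num) D (fun k _ => hD k) _ hvac hx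
  have hDx : D x = PP m (PP n x) - PP n (PP m x) := rfl
  have hD0 : D (dl ℚ ∅) ∅ = PP m (PP n (dl ℚ ∅)) ∅ - PP n (PP m (dl ℚ ∅)) ∅ := rfl
  have hc : D (dl ℚ ∅) ∅ = if m + n = 0 then ((n : ℚ) / 2) else 0 := by
    rw [hD0]
    have hm0 : m ≠ 0 := by
      rintro rfl
      exact absurd hm (by decide)
    have hn0 : n ≠ 0 := by
      rintro rfl
      exact absurd hn (by decide)
    rcases lt_or_gt_of_ne hm0 with hmn | hmp
    · rcases lt_or_gt_of_ne hn0 with hnn | hnp
      · rw [PP_neg_vac n hn hnn, PP_neg_vac m hm hmn, map_zero, map_zero, sub_self,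
          if_neg (by omega)]
      · rw [PP_pos_empty n hnp, sub_zero]
        obtain ⟨k, rfl⟩ : ∃ k : ℕ, m = -(k : ℤ) := ⟨m.natAbs, by omega⟩
        obtain ⟨l, rfl⟩ : ∃ l : ℕ, n = (l : ℤ) := ⟨n.natAbs, by omega⟩
        have hk : Odd k := by
          have := Int.odd_iff.1 hm
          rw [Nat.odd_iff]
          omega
        have hl : Odd l := by exact_mod_cast hn
        rw [PP_neg_PP_vac k l hk hl]
        by_cases hkl : k = l
        · rw [if_pos hkl, if_pos (by omega)]
          push_cast
          rfl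
        · rw [if_neg hkl, if_neg (by omega)]
    · rcases lt_or_gt_of_ne hn0 with hnn | hnp
      · rw [PP_pos_empty m hmp, zero_sub]
        obtain ⟨k, rfl⟩ : ∃ k : ℕ, n = -(k : ℤ) := ⟨n.natAbs, by omega⟩
        obtain ⟨l, rfl⟩ : ∃ l : ℕ, m = (l : ℤ) := ⟨m.natAbs, by omega⟩
        have hk : Odd k := by
          have := Int.odd_iff.1 hn
          rw [Nat.odd_iff]
          omega
        have hl : Odd l := by exact_mod_cast hm
        rw [PP_neg_PP_vac k l hk hl]
        by_cases hkl : k = l
        · rw [if_pos hkl, if_pos (by omega), hkl]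
          push_cast
          ring
        · rw [if_neg hkl, if_neg (by omega), neg_zero]
      · rw [PP_pos_empty n hnp, PP_pos_empty m hmp, sub_zero, if_neg (by omega)]
  rw [← hDx, hsc, hc]
  split_ifs
  · rfl
  · rw [zero_smul]

/-- the coefficients do not depend on the order -/
theorem Xc_perm {l l' : List ℕ} (h : l.Perm l') (hl : ∀ m ∈ l, Odd m) (S : Finset ℕ) :
    Xc l S = Xc l' S := by
  have hV : ∀ l : List ℕ, (∀ m ∈ l, Odd m) → ML ℚ l (dl ℚ ∅) ∈ V0 ℚ := by
    intro l
    induction l with
    | nil => intro _; exact dl_mem ℚ ∅ (Finset.notMem_empty _)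
    | cons a l ih =>
      intro h
      have e : ML ℚ (a :: l) (dl ℚ ∅) = mv ℚ a (ML ℚ l (dl ℚ ∅)) := rfl
      rw [e]
      exact V0_mv ℚ (ih (fun m hm => h m (List.mem_cons_of_mem _ hm))) a
        (h a List.mem_cons_self)
  have key : ∀ {l l' : List ℕ}, l.Perm l' → (∀ m ∈ l, Odd m) →
      ML ℚ l (dl ℚ ∅) = ML ℚ l' (dl ℚ ∅) := by
    intro l l' h
    induction h with
    | nil => intro _; rfl
    | cons a h ih =>
      intro hl
      change mv ℚ a (ML ℚ _ (dl ℚ ∅)) = mv ℚ a (ML ℚ _ (dl ℚ ∅))
      rw [ih (fun m hm => hl m (List.mem_cons_of_mem _ hm))]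
    | swap a b l =>
      intro hl
      change mv ℚ b (mv ℚ a (ML ℚ l (dl ℚ ∅))) = mv ℚ a (mv ℚ b (ML ℚ l (dl ℚ ∅)))
      have hb : Odd b := hl b List.mem_cons_self
      have ha : Odd a := hl a (List.mem_cons_of_mem _ List.mem_cons_self)
      have hx := hV l (fun m hm => hl m (List.mem_cons_of_mem _ (List.mem_cons_of_mem _ hm)))
      have := PP_comm (b : ℤ) (a : ℤ) (by exact_mod_cast hb) (by exact_mod_cast ha) hx
      have ha0 := ha.pos
      have hb0 := hb.pos
      rw [if_neg (by omega), sub_eq_zero, PP_eq_mv a ha, PP_eq_mv b hb] at this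
      exact this
    | trans h1 h2 ih1 ih2 =>
      intro hl
      rw [ih1 hl, ih2 (fun m hm => hl m (h1.mem_iff.2 hm))]
  have h1 := Xc_cast ℚ l S
  have h2 := Xc_cast ℚ l' S
  rw [key h hl] at h1
  rw [h1] at h2
  exact_mod_cast h2

end Pool.Agent.Helper81.AN
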