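import Pool.Agent.Helper81.AN.PhiAnti

/-!
# ALT-10: commutator of power sums and fermions

`[PP m, phi k] = phi (k + m)` for `m` odd. (Checked by computer.)

PROOF. `PP m = ½ Σ_{2a > m} (-1)^(m-a) φ_a φ_{m-a}`: for given `S` the terms with `a` not in `ppI m S` vanish: `a` with `2a > m` not in
`ppI m S` is positive and not in `S` (if `a ≤ 0` then `m < 0`, `a > m/2 ≥ m = -|m|`, so `a ∈ Icc (-|m|) 0`), and then
`(φ_a y)(S) = 0`. So `(PP m x)(S) = ½ Σ_{a ∈ T} ...` for every finite set `T ⊇ ppI m S` of integers `a` with `2a > m`: `PP_eq_of`.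
Both `(PP m (φ_k x))(S)` and `(φ_k (PP m x))(S) = (scalar) (PP m x)(S')`, `S' = S \ k`, `S ∪ {-k}` or `S`, are such sums with
one common large `T` (contains `ppI m S`, `ppI m S'`, and `m + k`, `-k` if they satisfy `2a > m`). In the
ring of endomorphisms: `[φ_a φ_b, φ_k] = φ_a {φ_b, φ_k} - {φ_a, φ_k} φ_b`, by `phi_anti`. With `b = m - a`: the first term is nonzero
only for `b = -k`, i.e. `a = m + k`, which satisfies `2a > m` iff `2k > -m`; it gives
`½ (-1)^(m-a) 2 (-1)^k φ_{m+k} = φ_{m+k}`. The second is nonzero only for `a = -k`, which satisfies `2a > m` iff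
`2k < -m`; it gives `-½ (-1)^(m-a) 2 (-1)^k φ_{m+k} = -(-1)^m φ_{m+k} = φ_{m+k}` as `m` is odd. As `m` is odd, exactly one of
`2k > -m`, `2k < -m` holds.
-/

set_option autoImplicit false

namespace Pool.Agent.Helper81.AN

private theorem phi_zero_of (a : ℤ) (m : ℤ) (S : Finset ℕ) (y : Fk ℚ) (hm : m < 2 * a) (ha : a ∉ ppI m S) :
    phi ℚ a y S = 0 := by
  have h1 : a ∉ S.image (fun t : ℕ => (t : ℤ)) ∪ Finset.Icc (-|m|) 0 := by
    intro h
    exact ha (Finset.mem_filter.2 ⟨h, hm⟩)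
  rw [Finset.mem_union, not_or] at h1
  obtain ⟨h2, h3⟩ := h1
  have hpos : 0 < a := by
    by_contra h4
    push Not at h4
    apply h3
    rw [Finset.mem_Icc]
    refine ⟨?_, h4⟩
    rcases lt_trichotomy m 0 with h5 | h5 | h5
    · rw [abs_of_neg h5]
      omega
    · omega
    · omega
  show (if 0 < a then (if a.toNat ∈ S then 2 * (-1) ^ nab S a.toNat * y (S.erase a.toNat) else 0) else _) = _
  rw [if_pos hpos, if_neg]
  intro h4
  apply h2
  rw [Finset.mem_image]
  exact ⟨a.toNat, h4, by omega⟩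

theorem PP_eq_of (m : ℤ) (x : Fk ℚ) (S : Finset ℕ) (T : Finset ℤ) (hT : ppI m S ⊆ T)
    (hT' : ∀ a ∈ T, m < 2 * a) :
    PP m x S = (1 / 2) * ∑ a ∈ T, (-1) ^ (m - a).natAbs * (phi ℚ a (phi ℚ (m - a) x)) S := by
  have h : PP m x S = (1 / 2) * ∑ a ∈ ppI m S, (-1) ^ (m - a).natAbs * (phi ℚ a (phi ℚ (m - a) x)) S := rfl
  rw [h]
  congr 1
  refine Finset.sum_subset hT fun a ha ha' => ?_
  rw [phi_zero_of a m S _ (hT' a ha) ha', mul_zero]

/-- the value of `phi` at `S` is a multiple of a value of the argument -/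
private theorem phi_eval (k : ℤ) (S : Finset ℕ) : ∃ (c : ℚ) (S' : Finset ℕ), ∀ y : Fk ℚ, phi ℚ k y S = c * y S' := by
  by_cases h1 : 0 < k
  · by_cases h2 : k.toNat ∈ S
    · refine ⟨2 * (-1) ^ nab S k.toNat, S.erase k.toNat, fun y => ?_⟩
      show (if 0 < k then (if k.toNat ∈ S then 2 * (-1) ^ nab S k.toNat * y (S.erase k.toNat) else 0) else _) = _
      rw [if_pos h1, if_pos h2]
    · refine ⟨0, S, fun y => ?_⟩
      show (if 0 < k then (if k.toNat ∈ S then 2 * (-1) ^ nab S k.toNat * y (S.erase k.toNat) else 0) else _) = _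
      rw [if_pos h1, if_neg h2, zero_mul]
  · by_cases h2 : k = 0
    · refine ⟨(-1) ^ S.card, S, fun y => ?_⟩
      show (if 0 < k then _ else if k = 0 then (-1) ^ S.card * y S else _) = _
      rw [if_neg h1, if_pos h2]
    · by_cases h3 : (-k).toNat ∈ S
      · refine ⟨0, S, fun y => ?_⟩
        show (if 0 < k then _ else if k = 0 then _ else (if (-k).toNat ∈ S then 0 else
          (-1) ^ ((-k).toNat + nab S (-k).toNat) * y (insert (-k).toNat S))) = _
        rw [if_neg h1, if_neg h2, if_pos h3, zero_mul]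
      · refine ⟨(-1) ^ ((-k).toNat + nab S (-k).toNat), insert (-k).toNat S, fun y => ?_⟩
        show (if 0 < k then _ else if k = 0 then _ else (if (-k).toNat ∈ S then 0 else
          (-1) ^ ((-k).toNat + nab S (-k).toNat) * y (insert (-k).toNat S))) = _
        rw [if_neg h1, if_neg h2, if_neg h3]

/-- the commutator of a product of two fermions and a fermion -/
private theorem comm_two (a b k : ℤ) (x : Fk ℚ) (S : Finset ℕ) :
    phi ℚ a (phi ℚ b (phi ℚ k x)) S - phi ℚ k (phi ℚ a (phi ℚ b x)) S =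
      (if b + k = 0 then 2 * (-1) ^ b.natAbs * phi ℚ a x S else 0) -
      (if a + k = 0 then 2 * (-1) ^ a.natAbs * phi ℚ b x S else 0) := by
  have h1 : phi ℚ b (phi ℚ k x) + phi ℚ k (phi ℚ b x) =
      (if b + k = 0 then (2 * (-1 : ℚ) ^ b.natAbs) • x else 0) := by
    have h := congrArg (fun f : Module.End ℚ (Fk ℚ) => f x) (phi_anti ℚ b k)
    simp only [LinearMap.add_apply, Module.End.mul_apply] at h
    rw [h]
    split_ifs
    · simp
    · simp
  have h2 : ∀ y : Fk ℚ, phi ℚ a (phi ℚ k y) + phi ℚ k (phi ℚ a y) =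
      (if a + k = 0 then (2 * (-1 : ℚ) ^ a.natAbs) • y else 0) := by
    intro y
    have h := congrArg (fun f : Module.End ℚ (Fk ℚ) => f y) (phi_anti ℚ a k)
    simp only [LinearMap.add_apply, Module.End.mul_apply] at h
    rw [h]
    split_ifs
    · simp
    · simp
  have h3 : phi ℚ b (phi ℚ k x) = (if b + k = 0 then (2 * (-1 : ℚ) ^ b.natAbs) • x else 0) - phi ℚ k (phi ℚ b x) :=
    eq_sub_of_add_eq h1
  have h4 : phi ℚ k (phi ℚ a (phi ℚ b x)) = (if a + k = 0 then (2 * (-1 : ℚ) ^ a.natAbs) • phi ℚ b x else 0) -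
      phi ℚ a (phi ℚ k (phi ℚ b x)) := by
    rw [← h2 (phi ℚ b x)]
    abel
  rw [h3, h4, map_sub]
  simp only [Pi.sub_apply]
  have h5 : phi ℚ a (if b + k = 0 then (2 * (-1 : ℚ) ^ b.natAbs) • x else 0) S =
      (if b + k = 0 then 2 * (-1) ^ b.natAbs * phi ℚ a x S else 0) := by
    split_ifs
    · rw [map_smul, Pi.smul_apply, smul_eq_mul]
    · rw [map_zero, Pi.zero_apply]
  have h6 : (if a + k = 0 then (2 * (-1 : ℚ) ^ a.natAbs) • phi ℚ b x else 0) S =
      (if a + k = 0 then 2 * (-1) ^ a.natAbs * phi ℚ b x S else 0) := by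
    split_ifs
    · rw [Pi.smul_apply, smul_eq_mul]
    · rfl
  rw [h5, h6]
  ring

private theorem sgn_even {z : ℤ} (h : Even z) : (-1 : ℚ) ^ z.natAbs = 1 :=
  Even.neg_one_pow (Int.natAbs_even.2 h)

private theorem sgn_odd {z : ℤ} (h : Odd z) : (-1 : ℚ) ^ z.natAbs = -1 :=
  Odd.neg_one_pow (Int.natAbs_odd.2 h)

private theorem sgn_sq (z : ℤ) : (-1 : ℚ) ^ z.natAbs * (-1) ^ z.natAbs = 1 := by
  rcases Int.even_or_odd z with h | h
  · rw [sgn_even h]
    norm_num
  · rw [sgn_odd h]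
    norm_num

private theorem sgn_add {m k : ℤ} (hm : Odd m) : (-1 : ℚ) ^ (m + k).natAbs * (-1) ^ k.natAbs = -1 := by
  rcases Int.even_or_odd k with h | h
  · rw [sgn_even h, sgn_odd (hm.add_even h)]
    norm_num
  · rw [sgn_odd h, sgn_even (hm.add_odd h)]
    norm_num

theorem PP_phi (m : ℤ) (hm : Odd m) (k : ℤ) :
    PP m * phi ℚ k - phi ℚ k * PP m = phi ℚ (k + m) := by
  classical
  refine LinearMap.ext fun x => funext fun S => ?_
  obtain ⟨c, S', hc⟩ := phi_eval k S
  set T : Finset ℤ := (ppI m S ∪ ppI m S') ∪ (({m + k, -k} : Finset ℤ).filter (fun a => m < 2 * a)) with hT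
  have hT1 : ppI m S ⊆ T := fun a ha => Finset.mem_union_left _ (Finset.mem_union_left _ ha)
  have hT2 : ppI m S' ⊆ T := fun a ha => Finset.mem_union_left _ (Finset.mem_union_right _ ha)
  have hT3 : ∀ a ∈ T, m < 2 * a := by
    intro a ha
    rcases Finset.mem_union.1 ha with h | h
    · rcases Finset.mem_union.1 h with h | h
      · exact (Finset.mem_filter.1 h).2
      · exact (Finset.mem_filter.1 h).2
    · exact (Finset.mem_filter.1 h).2
  have hmk : m + k ∈ T ↔ m < 2 * (m + k) := by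
    refine ⟨hT3 _, fun h => ?_⟩
    refine Finset.mem_union_right _ (Finset.mem_filter.2 ⟨?_, h⟩)
    simp
  have hk : -k ∈ T ↔ m < 2 * (-k) := by
    refine ⟨hT3 _, fun h => ?_⟩
    refine Finset.mem_union_right _ (Finset.mem_filter.2 ⟨?_, h⟩)
    simp
  have e1 : (PP m (phi ℚ k x)) S = (1 / 2) * ∑ a ∈ T, (-1) ^ (m - a).natAbs *
      (phi ℚ a (phi ℚ (m - a) (phi ℚ k x))) S := PP_eq_of m (phi ℚ k x) S T hT1 hT3
  have e2 : (phi ℚ k (PP m x)) S = (1 / 2) * ∑ a ∈ T, (-1) ^ (m - a).natAbs *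
      (phi ℚ k (phi ℚ a (phi ℚ (m - a) x))) S := by
    rw [hc, PP_eq_of m x S' T hT2 hT3, ← mul_assoc, mul_comm c, mul_assoc, Finset.mul_sum]
    congr 1
    refine Finset.sum_congr rfl fun a _ => ?_
    rw [hc]
    ring
  have e3 : ∀ a : ℤ, (-1 : ℚ) ^ (m - a).natAbs * (phi ℚ a (phi ℚ (m - a) (phi ℚ k x))) S -
      (-1) ^ (m - a).natAbs * (phi ℚ k (phi ℚ a (phi ℚ (m - a) x))) S =
      (if a = m + k then 2 * phi ℚ (k + m) x S else 0) + (if a = -k then 2 * phi ℚ (k + m) x S else 0) := by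
    intro a
    rw [← mul_sub, comm_two a (m - a) k x S, mul_sub]
    rw [sub_eq_add_neg]
    congr 1
    · by_cases h : a = m + k
      · have h1 : m - a + k = 0 := by omega
        rw [if_pos h1, if_pos h, h, add_comm k m]
        have h2 := sgn_sq (m - (m + k))
        linear_combination (2 * phi ℚ (m + k) x S) * h2
      · have h1 : ¬ m - a + k = 0 := by omega
        rw [if_neg h1, if_neg h, mul_zero]
    · by_cases h : a = -k
      · have h1 : a + k = 0 := by omega
        rw [if_pos h1, if_pos h, h]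
        have h2 := sgn_add (k := k) hm
        have h3 : m - -k = m + k := by ring
        rw [h3, Int.natAbs_neg, add_comm k m]
        linear_combination (-(2 * phi ℚ (m + k) x S)) * h2
      · have h1 : ¬ a + k = 0 := by omega
        rw [if_neg h1, if_neg h, mul_zero, neg_zero]
  show (PP m (phi ℚ k x)) S - (phi ℚ k (PP m x)) S = phi ℚ (k + m) x S
  rw [e1, e2, ← mul_sub, ← Finset.sum_sub_distrib, Finset.sum_congr rfl fun a _ => e3 a,
    Finset.sum_add_distrib, Finset.sum_ite_eq', Finset.sum_ite_eq']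
  obtain ⟨r, hr⟩ := hm
  by_cases h : m < 2 * (m + k)
  · have h' : ¬ m < 2 * (-k) := by omega
    rw [if_pos (hmk.2 h), if_neg (fun h2 => h' (hk.1 h2))]
    ring
  · have h' : m < 2 * (-k) := by omega
    rw [if_neg (fun h2 => h (hmk.1 h2)), if_pos (hk.2 h')]
    ring

end Pool.Agent.Helper81.AN
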