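import Pool.Agent.Helper81.AN.PPPhi

/-!
# ALT-11: the explicit formula for the power sum operators, and its consequences over other rings

`PP m = mv ℚ m` for `m ≥ 1` odd (checked by computer), `mv` and `phi` are natural in the ring, so
`[mv R m, phi R k] = phi R (k + m)` over `ℤ` and over all quotients of `ℤ`.

PROOF of `PP_eq_mv`. `(PP m x)(S) = ½ Σ_{a ∈ S, 2a > m} (-1)^(m-a) (φ_a φ_{m-a} x)(S)` (`m > 0`: elements of `ppI m S` are positive;
those not in `S` do not occur in `ppI`) and `(φ_a y)(S) = 2 (-1)^(nab S a) y(S \ a)` for `a ∈ S`. Hence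
`(PP m x)(S) = Σ_{a ∈ S, 2a > m} (-1)^(m-a) (-1)^(nab S a) (φ_{m-a} x)(S \ a)`.
 * `a > m`: `c = a - m > 0`, `φ_{-c}` inserts `c` if `c ∉ S`: sign `(-1)^c (-1)^(nab S a) (-1)^(c + nab (S \ a) c)`
   `= (-1)^(nbt S c a)` (the elements `> c` other than `a` minus the elements `> a`).
 * `a = m`: `φ_0`: `(-1)^(nab S m) (-1)^(|S| - 1) = (-1)^#{t ∈ S : t < m}`.
 * `a < m`: `b = m - a`, `0 < b < a`, `φ_b` removes `b` if `b ∈ S \ a`: `2 (-1)^b (-1)^(nab S a) (-1)^(nab (S \ a) b)`
   `= 2 (-1)^(b + nbt S b a)`.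
PROOF of `mv_phi` for `R = ℤ`: apply the ring homomorphism `ℤ → ℚ`, which is injective. For `R` a quotient of `ℤ`: every vector `x`
over `R` is the image of a vector over `ℤ` (choice), use `mv_map`, `phi_map`.
-/

set_option autoImplicit false

namespace Pool.Agent.Helper81.AN

private theorem nab_erase_ppmv (S : Finset ℕ) {c a : ℕ} (h : c < a) :
    nab (S.erase a) c = nbt S c a + nab S a := by
  unfold nab nbt
  rw [← Finset.card_union_of_disjoint]
  · congr 1
    ext t
    simp only [Finset.mem_filter, Finset.mem_erase, Finset.mem_union]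
    constructor
    · rintro ⟨⟨h1, h2⟩, h3⟩
      rcases lt_or_gt_of_ne h1 with h4 | h4
      · exact Or.inl ⟨h2, h3, h4⟩
      · exact Or.inr ⟨h2, h4⟩
    · rintro (⟨h1, h2, h3⟩ | ⟨h1, h2⟩)
      · exact ⟨⟨by omega, h1⟩, h2⟩
      · exact ⟨⟨by omega, h1⟩, by omega⟩
  · rw [Finset.disjoint_left]
    intro t h1 h2
    rw [Finset.mem_filter] at h1 h2
    omega

private theorem card_erase_ppmv (S : Finset ℕ) (a : ℕ) :
    (S.erase a).card = (S.filter (fun t => t < a)).card + nab S a := by
  unfold nab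
  rw [← Finset.card_union_of_disjoint]
  · congr 1
    ext t
    simp only [Finset.mem_filter, Finset.mem_erase, Finset.mem_union]
    constructor
    · rintro ⟨h1, h2⟩
      rcases lt_or_gt_of_ne h1 with h4 | h4
      · exact Or.inl ⟨h2, h4⟩
      · exact Or.inr ⟨h2, h4⟩
    · rintro (⟨h1, h2⟩ | ⟨h1, h2⟩)
      · exact ⟨by omega, h1⟩
      · exact ⟨by omega, h1⟩
  · rw [Finset.disjoint_left]
    intro t h1 h2
    rw [Finset.mem_filter] at h1 h2
    omega

private theorem phi_pos_ppmv (R : Type) [CommRing R] {k : ℤ} (c : ℕ) (hk : k = (c : ℤ))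
    (hc : 0 < c) (x : Fk R) (S : Finset ℕ) :
    phi R k x S = if c ∈ S then 2 * (-1) ^ nab S c * x (S.erase c) else 0 := by
  subst hk
  change (if 0 < (c : ℤ) then _ else _) = _
  rw [if_pos (by exact_mod_cast hc), Int.toNat_natCast]

private theorem phi_zero_ppmv (R : Type) [CommRing R] {k : ℤ} (hk : k = 0) (x : Fk R)
    (S : Finset ℕ) : phi R k x S = (-1) ^ S.card * x S := by
  subst hk
  simp [phi]

private theorem phi_neg_ppmv (R : Type) [CommRing R] {k : ℤ} (c : ℕ) (hk : k = -(c : ℤ))
    (hc : 0 < c) (x : Fk R) (S : Finset ℕ) :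
    phi R k x S = if c ∈ S then 0 else (-1) ^ (c + nab S c) * x (insert c S) := by
  subst hk
  change (if 0 < (-(c : ℤ)) then _ else _) = _
  rw [if_neg (by omega), if_neg (by omega), neg_neg, Int.toNat_natCast]

private theorem sgn_ppmv (n : ℕ) : ((-1 : ℚ) ^ n) * (-1) ^ n = 1 := by
  rw [← mul_pow]
  norm_num

theorem PP_eq_mv (m : ℕ) (hm : Odd m) : PP (m : ℤ) = mv ℚ m := by
  have hm0 : 0 < m := hm.pos
  refine LinearMap.ext fun x => funext fun S => ?_
  have hI : ppI (m : ℤ) S = (S.filter (fun a => m < 2 * a)).image (fun t : ℕ => (t : ℤ)) := by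
    ext a
    unfold ppI
    simp only [Finset.mem_filter, Finset.mem_union, Finset.mem_image, Finset.mem_Icc]
    constructor
    · rintro ⟨⟨t, ht, rfl⟩ | ⟨h1, h2⟩, h3⟩
      · exact ⟨t, ⟨ht, by omega⟩, rfl⟩
      · omega
    · rintro ⟨t, ⟨ht, ht'⟩, rfl⟩
      exact ⟨Or.inl ⟨t, ht, rfl⟩, by omega⟩
  have h1 : PP (m : ℤ) x S = ∑ a ∈ S.filter (fun a => m < 2 * a),
      (-1) ^ ((m : ℤ) - a).natAbs * ((-1) ^ nab S a * phi ℚ ((m : ℤ) - a) x (S.erase a)) := by
    change (1 / 2) * ∑ a ∈ ppI m S, (-1) ^ ((m : ℤ) - a).natAbs *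
      (phi ℚ a (phi ℚ ((m : ℤ) - a) x)) S = _
    rw [hI, Finset.sum_image (fun a _ b _ h => by exact_mod_cast h), Finset.mul_sum]
    refine Finset.sum_congr rfl fun a ha => ?_
    rw [Finset.mem_filter] at ha
    rw [phi_pos_ppmv ℚ a rfl (by omega), if_pos ha.1]
    ring
  have h2 : S.filter (fun a => m < 2 * a) = S.filter (fun a => m ≤ a) ∪
      S.filter (fun a => a < m ∧ m < 2 * a) := by
    ext a
    simp only [Finset.mem_filter, Finset.mem_union]
    constructor
    · rintro ⟨h3, h4⟩
      rcases le_or_gt m a with h5 | h5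
      · exact Or.inl ⟨h3, h5⟩
      · exact Or.inr ⟨h3, h5, h4⟩
    · rintro (⟨h3, h4⟩ | ⟨h3, h4, h5⟩)
      · exact ⟨h3, by omega⟩
      · exact ⟨h3, h5⟩
  have h3 : Disjoint (S.filter (fun a => m ≤ a)) (S.filter (fun a => a < m ∧ m < 2 * a)) := by
    rw [Finset.disjoint_left]
    intro t h1 h2
    rw [Finset.mem_filter] at h1 h2
    omega
  rw [h1, h2, Finset.sum_union h3]
  change _ = (∑ a ∈ S.filter (fun a => m ≤ a), if a = m then
        (-1) ^ (S.filter (fun t => t < m)).card * x (S.erase m)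
      else if a - m ∈ S then 0 else
        (-1) ^ nbt S (a - m) a * x (insert (a - m) (S.erase a))) +
    ∑ a ∈ S.filter (fun a => a < m ∧ m < 2 * a ∧ m - a ∈ S),
      2 * (-1) ^ (m - a + nbt S (m - a) a) * x ((S.erase a).erase (m - a))
  congr 1
  · refine Finset.sum_congr rfl fun a ha => ?_
    rw [Finset.mem_filter] at ha
    by_cases ham : a = m
    · subst ham
      rw [if_pos rfl, phi_zero_ppmv ℚ (sub_self _), sub_self, Int.natAbs_zero, pow_zero, one_mul,
        card_erase_ppmv, pow_add]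
      linear_combination ((-1) ^ (S.filter (fun t => t < a)).card * x (S.erase a)) *
        sgn_ppmv (nab S a)
    · rw [if_neg ham, phi_neg_ppmv ℚ (a - m) (by omega) (by omega)]
      have e1 : ((m : ℤ) - a).natAbs = a - m := by omega
      have e2 : (a - m ∈ S.erase a) ↔ (a - m ∈ S) := by
        rw [Finset.mem_erase]
        constructor
        · exact fun h => h.2
        · exact fun h => ⟨by omega, h⟩
      rw [e1]
      by_cases hS : a - m ∈ S
      · rw [if_pos (e2.2 hS), if_pos hS, mul_zero, mul_zero]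
      · rw [if_neg (fun h => hS (e2.1 h)), if_neg hS, nab_erase_ppmv S (by omega), pow_add,
          pow_add]
        linear_combination ((-1) ^ nbt S (a - m) a * x (insert (a - m) (S.erase a))) *
          ((-1) ^ nab S a * (-1) ^ nab S a * sgn_ppmv (a - m) + sgn_ppmv (nab S a))
  · have h4 : S.filter (fun a => a < m ∧ m < 2 * a ∧ m - a ∈ S) =
        (S.filter (fun a => a < m ∧ m < 2 * a)).filter (fun a => m - a ∈ S) := by
      rw [Finset.filter_filter]
      refine Finset.filter_congr fun a _ => ?_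
      tauto
    rw [h4, Finset.sum_filter (fun a => m - a ∈ S)]
    refine Finset.sum_congr rfl fun a ha => ?_
    rw [Finset.mem_filter] at ha
    rw [phi_pos_ppmv ℚ (m - a) (by omega) (by omega)]
    have e1 : ((m : ℤ) - a).natAbs = m - a := by omega
    have e2 : (m - a ∈ S.erase a) ↔ (m - a ∈ S) := by
      rw [Finset.mem_erase]
      constructor
      · exact fun h => h.2
      · exact fun h => ⟨by omega, h⟩
    rw [e1]
    by_cases hS : m - a ∈ S
    · rw [if_pos (e2.2 hS), if_pos hS, nab_erase_ppmv S (by omega), pow_add, pow_add]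
      linear_combination (2 * (-1) ^ (m - a) * (-1) ^ nbt S (m - a) a *
        x ((S.erase a).erase (m - a))) * sgn_ppmv (nab S a)
    · rw [if_neg (fun h => hS (e2.1 h)), if_neg hS, mul_zero, mul_zero]

theorem mv_map {R R' : Type} [CommRing R] [CommRing R'] (f : R →+* R') (m : ℕ) (x : Fk R)
    (S : Finset ℕ) : mv R' m (fun T => f (x T)) S = f (mv R m x S) := by
  simp only [mv, LinearMap.coe_mk, AddHom.coe_mk, map_add, map_sum, apply_ite f, map_mul,
    map_pow, map_neg, map_one, map_zero, map_ofNat]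

theorem phi_map {R R' : Type} [CommRing R] [CommRing R'] (f : R →+* R') (k : ℤ) (x : Fk R)
    (S : Finset ℕ) : phi R' k (fun T => f (x T)) S = f (phi R k x S) := by
  simp only [phi, LinearMap.coe_mk, AddHom.coe_mk, apply_ite f, map_mul,
    map_pow, map_neg, map_one, map_zero, map_ofNat]

private theorem comm_map_ppmv {R R' : Type} [CommRing R] [CommRing R'] (f : R →+* R') (m : ℕ)
    (k : ℤ) (x : Fk R) (S : Finset ℕ) :
    (mv R' m * phi R' k - phi R' k * mv R' m) (fun T => f (x T)) S =
      f ((mv R m * phi R k - phi R k * mv R m) x S) := by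
  have h1 : phi R' k (fun T => f (x T)) = fun T => f (phi R k x T) :=
    funext fun T => phi_map f k x T
  have h2 : mv R' m (fun T => f (x T)) = fun T => f (mv R m x T) :=
    funext fun T => mv_map f m x T
  change mv R' m (phi R' k (fun T => f (x T))) S - phi R' k (mv R' m (fun T => f (x T))) S =
    f (mv R m (phi R k x) S - phi R k (mv R m x) S)
  rw [h1, h2, mv_map, phi_map, map_sub]

theorem mv_phi (R : Type) [CommRing R] (hs : Function.Surjective (Int.castRingHom R)) (m : ℕ)
    (hm : Odd m) (k : ℤ) : mv R m * phi R k - phi R k * mv R m = phi R (k + m) := by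
  have hQ : mv ℚ m * phi ℚ k - phi ℚ k * mv ℚ m = phi ℚ (k + m) := by
    rw [← PP_eq_mv m hm]
    exact PP_phi m (by exact_mod_cast hm) k
  have hZ : ∀ (x : Fk ℤ) (S : Finset ℕ),
      (mv ℤ m * phi ℤ k - phi ℤ k * mv ℤ m) x S = phi ℤ (k + m) x S := by
    intro x S
    have h1 := comm_map_ppmv (Int.castRingHom ℚ) m k x S
    rw [hQ, phi_map] at h1
    exact (RingHom.injective_int (Int.castRingHom ℚ)) h1.symm
  refine LinearMap.ext fun x => funext fun S => ?_
  choose g hg using hs
  have hx : x = fun T => Int.castRingHom R (g (x T)) := funext fun T => (hg (x T)).symm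
  rw [hx, comm_map_ppmv, phi_map, hZ]

private theorem ML_map_ppmv {R R' : Type} [CommRing R] [CommRing R'] (f : R →+* R')
    (l : List ℕ) (x : Fk R) (S : Finset ℕ) :
    ML R' l (fun T => f (x T)) S = f (ML R l x S) := by
  induction l generalizing S with
  | nil => rfl
  | cons a l ih =>
    have h1 : ∀ (A : Type) [CommRing A] (y : Fk A), ML A (a :: l) y = mv A a (ML A l y) := by
      intro A _ y
      unfold ML
      rw [List.map_cons, List.prod_cons]
      rfl
    rw [h1, h1, ← mv_map]
    exact congrArg (fun y => mv R' a y S) (funext fun T => ih T)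

/-- the coefficients are natural in the ring -/
theorem Xc_cast (R : Type) [CommRing R] (l : List ℕ) (S : Finset ℕ) :
    ML R l (dl R ∅) S = (Xc l S : R) := by
  have h1 : dl R ∅ = fun T => Int.castRingHom R (dl ℤ ∅ T) := by
    funext T
    unfold dl
    split_ifs <;> simp
  rw [h1, ML_map_ppmv]
  rfl

end Pool.Agent.Helper81.AN
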