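import Pool.Agent.Helper81.AN.FkDefs

/-!
# ALT-09: anticommutation relations of the neutral fermions

`phi j phi k + phi k phi j = 2 (-1)^j` if `j + k = 0`, else `0`. (Checked by computer.)

PROOF. Evaluate at `x` and `S`; cases on the signs of `j`, `k`. For `k > 0`: `phi k` removes `k` from the argument `S` (needs
`k ∈ S`) with sign `(-1)^(nab S k)` and factor `2`; `phi (-k)` inserts `k` (needs `k ∉ S`) with sign
`(-1)^(k + nab S k)`; `phi 0` multiplies by `(-1)^|S|`. If `j ≠ ± k` both orders give the same result up to the sign `-1`: the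
element treated first changes `nab` of the smaller index by one (and `|S|` by one for `phi 0`). If `j = k ≠ 0` both products are
zero. If `j = -k`, `k > 0`: exactly one of the two products is nonzero, according to `k ∈ S` or not, and the signs
multiply to `(-1)^k`, `2 (-1)^k`. If `j = k = 0`: `2`. It is enough to do `j ≤ k` (the statement is symmetric: `(-1)^j = (-1)^k` if `j + k = 0`).
Useful lemmas: `nab (S.erase a) k`, `nab (insert a S) k` for `a > k`, `a < k`, `a = k`.
-/

set_option autoImplicit false

namespace Pool.Agent.Helper81.AN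

/-- insert or remove `k` -/
private def tog (k : ℕ) (S : Finset ℕ) : Finset ℕ := if k ∈ S then S.erase k else insert k S

private theorem mem_tog (k : ℕ) (S : Finset ℕ) (t : ℕ) :
    t ∈ tog k S ↔ ((t = k ∧ t ∉ S) ∨ (t ≠ k ∧ t ∈ S)) := by
  unfold tog
  by_cases h : k ∈ S
  · rw [if_pos h, Finset.mem_erase]
    constructor
    · rintro ⟨h1, h2⟩; exact Or.inr ⟨h1, h2⟩
    · rintro (⟨h1, h2⟩ | ⟨h1, h2⟩)
      · subst h1; exact absurd h h2
      · exact ⟨h1, h2⟩
  · rw [if_neg h, Finset.mem_insert]
    constructor
    · rintro (h1 | h1)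
      · subst h1; exact Or.inl ⟨rfl, h⟩
      · refine Or.inr ⟨?_, h1⟩
        rintro rfl; exact h h1
    · rintro (⟨h1, _⟩ | ⟨_, h2⟩)
      · exact Or.inl h1
      · exact Or.inr h2

private theorem tog_tog (k : ℕ) (S : Finset ℕ) : tog k (tog k S) = S := by
  ext t
  rw [mem_tog, mem_tog]
  tauto

private theorem tog_comm (j k : ℕ) (S : Finset ℕ) : tog j (tog k S) = tog k (tog j S) := by
  ext t
  simp only [mem_tog]
  tauto

private theorem nab_tog_le {j k : ℕ} (h : j ≤ k) (S : Finset ℕ) : nab (tog j S) k = nab S k := by
  unfold nab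
  congr 1
  ext t
  simp only [Finset.mem_filter, mem_tog]
  constructor
  · rintro ⟨(⟨h1, _⟩ | ⟨_, h2⟩), h3⟩
    · omega
    · exact ⟨h2, h3⟩
  · rintro ⟨h1, h2⟩
    exact ⟨Or.inr ⟨by omega, h1⟩, h2⟩

variable {R : Type} [CommRing R]

private theorem sgn_nab_tog {j k : ℕ} (h : k < j) (S : Finset ℕ) :
    (-1 : R) ^ nab (tog j S) k = -(-1) ^ nab S k := by
  unfold nab tog
  by_cases hj : j ∈ S
  · rw [if_pos hj, Finset.filter_erase]
    have hm : j ∈ S.filter (fun t => k < t) := Finset.mem_filter.2 ⟨hj, h⟩
    have h1 := Finset.card_erase_add_one hm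
    rw [← h1, pow_succ]
    ring
  · rw [if_neg hj, Finset.filter_insert, if_pos h, Finset.card_insert_of_notMem, pow_succ]
    · ring
    · intro hm
      exact hj (Finset.mem_filter.1 hm).1

private theorem sgn_card_tog (j : ℕ) (S : Finset ℕ) :
    (-1 : R) ^ (tog j S).card = -(-1) ^ S.card := by
  unfold tog
  by_cases hj : j ∈ S
  · rw [if_pos hj]
    have h1 := Finset.card_erase_add_one hj
    rw [← h1, pow_succ]
    ring
  · rw [if_neg hj, Finset.card_insert_of_notMem hj, pow_succ]
    ring

/-- the coefficient without the sign `(-1)^(nab S |k|)` -/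
private def dd (R : Type) [CommRing R] (k : ℤ) (S : Finset ℕ) : R :=
  if 0 < k then (if k.natAbs ∈ S then 2 else 0) else (if k.natAbs ∈ S then 0 else (-1) ^ k.natAbs)

private theorem phi_ne {k : ℤ} (hk : k ≠ 0) (x : Fk R) (S : Finset ℕ) :
    phi R k x S = (-1) ^ nab S k.natAbs * dd R k S * x (tog k.natAbs S) := by
  rcases lt_or_gt_of_ne hk with h | h
  · have e : (-k).toNat = k.natAbs := by omega
    have h0 : ¬ 0 < k := by omega
    unfold dd tog
    simp only [phi, LinearMap.coe_mk, AddHom.coe_mk, if_neg h0, if_neg hk, e]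
    by_cases hS : k.natAbs ∈ S
    · simp only [if_pos hS]; ring
    · simp only [if_neg hS]; rw [pow_add]; ring
  · have e : k.toNat = k.natAbs := by omega
    unfold dd tog
    simp only [phi, LinearMap.coe_mk, AddHom.coe_mk, if_pos h, e]
    by_cases hS : k.natAbs ∈ S
    · simp only [if_pos hS]; ring
    · simp only [if_neg hS]; ring

private theorem phi_zero (x : Fk R) (S : Finset ℕ) : phi R 0 x S = (-1) ^ S.card * x S := by
  simp only [phi, LinearMap.coe_mk, AddHom.coe_mk, lt_irrefl, if_false, if_true]

private theorem dd_tog {j : ℕ} {k : ℤ} (h : j ≠ k.natAbs) (S : Finset ℕ) :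
    dd R k (tog j S) = dd R k S := by
  have h1 : k.natAbs ∈ tog j S ↔ k.natAbs ∈ S := by
    rw [mem_tog]
    constructor
    · rintro (⟨h1, _⟩ | ⟨_, h2⟩)
      · exact absurd h1.symm h
      · exact h2
    · intro h2
      exact Or.inr ⟨fun h3 => h h3.symm, h2⟩
  unfold dd
  simp only [h1]

private theorem sq_one (m : ℕ) : (-1 : R) ^ m * (-1) ^ m = 1 := by
  rw [← mul_pow]; simp

private theorem self_tog (k : ℕ) (S : Finset ℕ) : k ∈ tog k S ↔ k ∉ S := by
  rw [mem_tog]
  constructor
  · rintro (⟨_, h⟩ | ⟨h, _⟩)
    · exact h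
    · exact absurd rfl h
  · intro h; exact Or.inl ⟨rfl, h⟩

theorem phi_anti (R : Type) [CommRing R] (j k : ℤ) :
    phi R j * phi R k + phi R k * phi R j =
      if j + k = 0 then (2 * (-1 : R) ^ j.natAbs) • (1 : Module.End R (Fk R)) else 0 := by
  refine LinearMap.ext fun x => funext fun S => ?_
  have hR : (if j + k = 0 then (2 * (-1 : R) ^ j.natAbs) • (1 : Module.End R (Fk R)) else 0) x S =
      (if j + k = 0 then 2 * (-1 : R) ^ j.natAbs else 0) * x S := by
    by_cases h : j + k = 0
    · simp only [if_pos h, LinearMap.smul_apply, Module.End.one_apply, Pi.smul_apply, smul_eq_mul]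
    · simp only [if_neg h, LinearMap.zero_apply, Pi.zero_apply, zero_mul]
  rw [hR, LinearMap.add_apply, Module.End.mul_apply, Module.End.mul_apply, Pi.add_apply]
  by_cases hj : j = 0
  · subst hj
    by_cases hk : k = 0
    · subst hk
      simp only [phi_zero, add_zero, if_true, Int.natAbs_zero, pow_zero, mul_one]
      rw [← mul_assoc, sq_one]
      ring
    · rw [phi_zero, phi_ne hk, phi_ne hk, phi_zero, sgn_card_tog, if_neg (by omega)]
      ring
  · by_cases hk : k = 0
    · subst hk
      rw [phi_zero, phi_ne hj, phi_ne hj, phi_zero, sgn_card_tog, if_neg (by omega)]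
      ring
    · rw [phi_ne hj, phi_ne hk, phi_ne hk, phi_ne hj]
      rcases lt_trichotomy j.natAbs k.natAbs with h | h | h
      · rw [nab_tog_le h.le, sgn_nab_tog h, dd_tog h.ne, dd_tog h.ne', tog_comm j.natAbs,
          if_neg (by omega)]
        ring
      · rw [h, nab_tog_le le_rfl, tog_tog]
        have h1 : ∀ a b : R, (-1 : R) ^ nab S k.natAbs * a * ((-1) ^ nab S k.natAbs * b * x S) =
            a * b * x S := by
          intro a b
          calc (-1 : R) ^ nab S k.natAbs * a * ((-1) ^ nab S k.natAbs * b * x S)
              = ((-1 : R) ^ nab S k.natAbs * (-1) ^ nab S k.natAbs) * (a * b * x S) := by ring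
            _ = a * b * x S := by rw [sq_one, one_mul]
        rw [h1, h1]
        unfold dd
        simp only [h, self_tog]
        by_cases hS : k.natAbs ∈ S
        · rcases lt_or_gt_of_ne hj with h2 | h2 <;> rcases lt_or_gt_of_ne hk with h3 | h3
          · simp only [if_neg (not_lt.2 h2.le), if_neg (not_lt.2 h3.le), hS, if_true,
              not_true_eq_false, if_false, if_neg (show ¬ (j + k = 0) by omega)]
            ring
          · simp only [if_neg (not_lt.2 h2.le), if_pos h3, hS, if_true, not_true_eq_false,
              if_false, if_pos (show j + k = 0 by omega)]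
            ring
          · simp only [if_neg (not_lt.2 h3.le), if_pos h2, hS, if_true, not_true_eq_false,
              if_false, if_pos (show j + k = 0 by omega)]
            ring
          · simp only [if_pos h2, if_pos h3, hS, if_true, not_true_eq_false,
              if_false, if_neg (show ¬ (j + k = 0) by omega)]
            ring
        · rcases lt_or_gt_of_ne hj with h2 | h2 <;> rcases lt_or_gt_of_ne hk with h3 | h3
          · simp only [if_neg (not_lt.2 h2.le), if_neg (not_lt.2 h3.le), hS,
              not_false_eq_true, if_true, if_false, if_neg (show ¬ (j + k = 0) by omega)]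
            ring
          · simp only [if_neg (not_lt.2 h2.le), if_pos h3, hS, if_true, not_false_eq_true,
              if_false, if_pos (show j + k = 0 by omega)]
            ring
          · simp only [if_neg (not_lt.2 h3.le), if_pos h2, hS, if_true, not_false_eq_true,
              if_false, if_pos (show j + k = 0 by omega)]
            ring
          · simp only [if_pos h2, if_pos h3, hS, if_true, not_false_eq_true,
              if_false, if_neg (show ¬ (j + k = 0) by omega)]
            ring
      · rw [nab_tog_le h.le, sgn_nab_tog h, dd_tog h.ne, dd_tog h.ne', tog_comm j.natAbs,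
          if_neg (by omega)]
        ring

end Pool.Agent.Helper81.AN
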