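import Pool.Agent.Helper81.AN.QRep
import Pool.Agent.Helper81.AN.NormOdd

/-!
# ALT-22: the values of `Phi`

PROOFS.
* `Phi_z`: `z c (pact l g) = g` iff `c (pact l g) = z g`, and `z c (pact l g) = z g` iff `c (pact l g) = g`.
* `Phi_odd`: if `c (pact l g) = g` or `z g` then the parities give `par c = 1` (`Cl.par_act`, `Cl.par z = 1`).
* `Phi_class`: conjugation: `x · g = c (pact l g)` is an action of `X` on `Cl ι` commuting with `z`; `y` maps the solutions of `x · g = g` bijectively onto the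
  solutions of `(y x y⁻¹) · g' = g'`, and the same for `z g`.
* `Phi_r`: for `l` of odd order: `pact l g = g` iff the support of `g` is invariant (`pact_inv`, `supp_pact`), `pact l g = z g` never (the
  support would be invariant, so `pact l g = g`, `z ≠ 1`). The number of `g` with invariant support is `2 * 2^(ncy l)` (`Cl.supp` is onto with kernel `{1, z}`,
  and `inv_card` with `k = 2`).
-/

set_option autoImplicit false

open Equiv

namespace Pool.Agent.Helper81.AN

open Pool.Agent.Helper42.INC Pool.Agent.Helper7.MK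

variable {ι : Type} [Fintype ι] [DecidableEq ι] {L : Type} [Group L] [Finite L] (h0 : L →* Perm ι)

/-- the action of `BP h0` on the Clifford group -/
def cact (x : BP h0) (g : Cl ι) : Cl ι := x.left * pact (h0 x.right) g

omit [Fintype ι] [DecidableEq ι] [Finite L] in
theorem cact_mul (x y : BP h0) (g : Cl ι) : cact h0 (x * y) g = cact h0 x (cact h0 y g) := by
  unfold cact
  rw [SemidirectProduct.mul_left, SemidirectProduct.mul_right, map_mul h0, pact_mul, map_mul,
    ← mul_assoc]
  rfl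

omit [Fintype ι] [DecidableEq ι] [Finite L] in
theorem cact_one (g : Cl ι) : cact h0 1 g = g := by
  unfold cact
  rw [SemidirectProduct.one_left, SemidirectProduct.one_right, map_one, pact_one, one_mul]

omit [Fintype ι] [DecidableEq ι] [Finite L] in
theorem cact_z (x : BP h0) (g : Cl ι) : cact h0 x (Cl.z * g) = Cl.z * cact h0 x g := by
  unfold cact
  rw [map_mul, pact_z, ← mul_assoc, ← Cl.z_comm, mul_assoc]

omit [Fintype ι] [DecidableEq ι] [Finite L] in
theorem Phi_eq (x : BP h0) : Phi h0 x = (1 / 2) * ((Nat.card {g : Cl ι // cact h0 x g = g} : ℂ) -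
    Nat.card {g : Cl ι // cact h0 x g = Cl.z * g}) := rfl

theorem Phi_z (x : BP h0) : Phi h0 (BG.z _ * x) = -Phi h0 x := by
  rw [Phi_eq, Phi_eq]
  have hz : ∀ g, cact h0 (BG.z _ * x) g = Cl.z * cact h0 x g := by
    intro g
    rw [cact_mul]
    unfold cact
    rw [BP.z_eq]
    simp only [BP.l, SemidirectProduct.left_inl, SemidirectProduct.right_inl, map_one, pact_one]
  have h1 : ∀ g, cact h0 (BG.z _ * x) g = g ↔ cact h0 x g = Cl.z * g := by
    intro g
    rw [hz]
    constructor
    · intro h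
      nth_rewrite 2 [← h]
      rw [← mul_assoc, Cl.zz, one_mul]
    · intro h
      rw [h, ← mul_assoc, Cl.zz, one_mul]
  have h2 : ∀ g, cact h0 (BG.z _ * x) g = Cl.z * g ↔ cact h0 x g = g := by
    intro g
    rw [hz]
    exact mul_right_inj _
  rw [Nat.card_congr (Equiv.subtypeEquivRight h1), Nat.card_congr (Equiv.subtypeEquivRight h2)]
  ring

theorem Phi_odd (x : BP h0) (hx : BG.par _ x = -1) : Phi h0 x = 0 := by
  have hp : Cl.par x.left = -1 := by
    rw [BP.eq h0 x, map_mul, BP.par_l, BP.par_r, mul_one] at hx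
    exact hx
  have hpz : Cl.par (Cl.z : Cl ι) = 1 := Cl.lift_z _ _ _ _ _ _
  have h1 : ∀ g, cact h0 x g ≠ g := by
    intro g h
    have h2 := congrArg Cl.par h
    unfold cact at h2
    rw [map_mul, hp, show Cl.par (pact (h0 x.right) g) = Cl.par g from Cl.par_act _ _] at h2
    rcases Int.units_eq_one_or (Cl.par g) with h3 | h3 <;> rw [h3] at h2 <;>
      exact absurd h2 (by decide)
  have h1' : ∀ g, cact h0 x g ≠ Cl.z * g := by
    intro g h
    have h2 := congrArg Cl.par h
    unfold cact at h2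
    rw [map_mul, map_mul, hpz, hp,
      show Cl.par (pact (h0 x.right) g) = Cl.par g from Cl.par_act _ _] at h2
    rcases Int.units_eq_one_or (Cl.par g) with h3 | h3 <;> rw [h3] at h2 <;>
      exact absurd h2 (by decide)
  have e1 : IsEmpty {g : Cl ι // cact h0 x g = g} := ⟨fun g => h1 g.1 g.2⟩
  have e2 : IsEmpty {g : Cl ι // cact h0 x g = Cl.z * g} := ⟨fun g => h1' g.1 g.2⟩
  rw [Phi_eq, Nat.card_of_isEmpty, Nat.card_of_isEmpty]
  simp

theorem Phi_class : IsClass (Phi h0) := by
  intro g x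
  rw [Phi_eq, Phi_eq]
  have hcancel : ∀ (y : BP h0) (a b : Cl ι), cact h0 y a = cact h0 y b ↔ a = b := by
    intro y a b
    constructor
    · intro h
      have h2 := congrArg (cact h0 y⁻¹) h
      rw [← cact_mul, ← cact_mul, inv_mul_cancel, cact_one, cact_one] at h2
      exact h2
    · intro h
      rw [h]
  let E : Cl ι ≃ Cl ι :=
    { toFun := cact h0 g⁻¹
      invFun := cact h0 g
      left_inv := fun a => by rw [← cact_mul, mul_inv_cancel, cact_one]
      right_inv := fun a => by rw [← cact_mul, inv_mul_cancel, cact_one] }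
  have h1 : ∀ a, cact h0 (g * x * g⁻¹) a = a ↔ cact h0 x (E a) = E a := by
    intro a
    rw [cact_mul, cact_mul]
    change cact h0 g (cact h0 x (cact h0 g⁻¹ a)) = a ↔ cact h0 x (cact h0 g⁻¹ a) = cact h0 g⁻¹ a
    rw [← hcancel g (cact h0 x (cact h0 g⁻¹ a)) (cact h0 g⁻¹ a), ← cact_mul h0 g g⁻¹,
      mul_inv_cancel, cact_one]
  have h2 : ∀ a, cact h0 (g * x * g⁻¹) a = Cl.z * a ↔ cact h0 x (E a) = Cl.z * E a := by
    intro a
    rw [cact_mul, cact_mul]
    change cact h0 g (cact h0 x (cact h0 g⁻¹ a)) = Cl.z * a ↔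
      cact h0 x (cact h0 g⁻¹ a) = Cl.z * cact h0 g⁻¹ a
    rw [← hcancel g (cact h0 x (cact h0 g⁻¹ a)) (Cl.z * cact h0 g⁻¹ a), cact_z,
      ← cact_mul h0 g g⁻¹, mul_inv_cancel, cact_one]
  have c1 : Nat.card {a : Cl ι // cact h0 (g * x * g⁻¹) a = a} =
      Nat.card {a : Cl ι // cact h0 x a = a} :=
    Nat.card_congr (E.subtypeEquiv (q := fun a => cact h0 x a = a) h1)
  have c2 : Nat.card {a : Cl ι // cact h0 (g * x * g⁻¹) a = Cl.z * a} =
      Nat.card {a : Cl ι // cact h0 x a = Cl.z * a} :=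
    Nat.card_congr (E.subtypeEquiv (q := fun a => cact h0 x a = Cl.z * a) h2)
  rw [c1, c2]

theorem Phi_r (l : L) (hl : Odd (orderOf (h0 l))) : Phi h0 (BP.r h0 l) = 2 ^ ncy (h0 l) := by
  have hc : ∀ g, cact h0 (BP.r h0 l) g = pact (h0 l) g := by
    intro g
    unfold cact
    simp only [BP.r, SemidirectProduct.left_inr, SemidirectProduct.right_inr, one_mul]
  have hsupp : ∀ g, Cl.supp (pact (h0 l) g) = Cl.supp g →
      ∀ i, Multiplicative.toAdd (Cl.supp g) (h0 l i) = Multiplicative.toAdd (Cl.supp g) i := by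
    intro g hg i
    have h := supp_pact (h0 l) g i
    rw [hg] at h
    exact h
  have h1 : ∀ g, cact h0 (BP.r h0 l) g = g ↔
      Cl.supp g ∈ {s : Multiplicative (ι → ZMod 2) |
        ∀ i, Multiplicative.toAdd s (h0 l i) = Multiplicative.toAdd s i} := by
    intro g
    rw [hc]
    constructor
    · intro h
      exact hsupp g (by rw [h])
    · intro h
      exact pact_inv (h0 l) hl g h
  have h2 : ∀ g, cact h0 (BP.r h0 l) g ≠ Cl.z * g := by
    intro g h
    rw [hc] at h
    have h3 : pact (h0 l) g = g := pact_inv (h0 l) hl g (hsupp g (by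
      rw [h, map_mul, Cl.supp_z, one_mul]))
    rw [h3] at h
    exact Cl.z_ne_one (mul_eq_right.1 h.symm)
  have e2 : IsEmpty {g : Cl ι // cact h0 (BP.r h0 l) g = Cl.z * g} := ⟨fun g => h2 g.1 g.2⟩
  have h3 : Nat.card {s : Multiplicative (ι → ZMod 2) |
      ∀ i, Multiplicative.toAdd s (h0 l i) = Multiplicative.toAdd s i} = 2 ^ ncy (h0 l) := by
    rw [← inv_card (h0 l) 2]
    exact Nat.card_congr ((Multiplicative.toAdd).subtypeEquiv fun s => Iff.rfl)
  have h4 : Nat.card {g : Cl ι // cact h0 (BP.r h0 l) g = Cl.z * g} = 0 := Nat.card_of_isEmpty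
  have h5 : Nat.card {g : Cl ι // cact h0 (BP.r h0 l) g = g} = 2 * 2 ^ ncy (h0 l) := by
    rw [Nat.card_congr (Equiv.subtypeEquivRight h1), card_supp_mem, h3]
  rw [Phi_eq, h4, h5]
  push_cast
  ring

theorem Phi_one : Phi h0 1 = 2 ^ Fintype.card ι := by
  rw [Phi_eq]
  have h1 : Nat.card {g : Cl ι // cact h0 1 g = g} = 2 ^ (Fintype.card ι + 1) := by
    rw [← Cl.card]
    exact Nat.card_congr (Equiv.subtypeUnivEquiv (cact_one h0))
  have e2 : IsEmpty {g : Cl ι // cact h0 1 g = Cl.z * g} := ⟨fun g => by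
    have h := g.2
    rw [cact_one] at h
    exact Cl.z_ne_one (mul_eq_right.1 h.symm)⟩
  have h4 : Nat.card {g : Cl ι // cact h0 1 g = Cl.z * g} = 0 := Nat.card_of_isEmpty
  rw [h1, h4]
  push_cast
  ring

end Pool.Agent.Helper81.AN
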