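import Pool.Agent.Helper81.AN.ClCard

/-!
# ALT-05: permutations acting on elements of the Clifford group with invariant support

`pact σ : Cl ι → Cl ι` is the action of a permutation, `a i ↦ a (σ i)`, `z ↦ z`.

PROOFS.
* `pact_cycle`. Let `σ` be a permutation, `x : ι`, `k` the number of elements of the cycle of `x` (the order of `x` under
  `σ`: `k` minimal positive with `σ^k x = x`) and `c = a x * a (σ x) * ... * a (σ^(k-1) x)` (a product over
  `List.range k`). Then `pact σ c = a (σ x) ... a (σ^(k-1) x) a x`, and moving `a x` to the front past the `k - 1`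
  other (distinct) generators gives `z^(k-1) c`.
* Two elements of `Cl ι` with the same support differ by `z^e` (`ker_supp`), so the statement only depends
  on the support: `pact_of_supp`.
* `pact_inv`: `σ` of odd order: all cycles have odd length, an element whose support is invariant under `σ`
  is, up to `z^e`, a product of elements `c` as above, each fixed by `pact σ`. (Induction on the
  size of the support: if it is not empty take `x` in it, multiply by the `c` of `x`: the new support is
  the old one minus the cycle of `x`, it is still invariant.) ALTERNATIVE without cycles: the map `f : g ↦ pact σ g * g⁻¹` on the group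
  `H = {g | supp g is σ-invariant}` has values in `{1, z}` and is a homomorphism `H → {1, z}` which satisfies
  `f (pact σ g) = f g`, so `pact σ^m g = f(g)^m g` and with `m` = order of `σ` (odd), `pact σ^m g = g`, so `f(g)^m = 1`
  and `f(g) = 1`.  This is the shortest proof.
* `pact_conj_move`: `a x * (c * inr σ) * (a x)⁻¹ = a x * c * a (σ x) * inr σ` in the semidirect product.
-/

set_option autoImplicit false

open Equiv

namespace Pool.Agent.Helper81.AN

open Pool.Agent.Helper42.INC

variable {ι : Type}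

/-- the action of a permutation -/
def pact (σ : Perm ι) : MulAut (Cl ι) := Cl.act (permH ι σ)

theorem pact_mul (σ τ : Perm ι) (g : Cl ι) : pact (σ * τ) g = pact σ (pact τ g) := by
  unfold pact
  rw [map_mul, map_mul]
  rfl

theorem pact_one (g : Cl ι) : pact (1 : Perm ι) g = g := by
  unfold pact
  rw [map_one, map_one]
  rfl

theorem pact_z (σ : Perm ι) : pact σ Cl.z = Cl.z := Cl.actHom_z (permH ι σ)

theorem pact_a (σ : Perm ι) (i : ι) : pact σ (Cl.a i) = Cl.a (σ i) := by
  change Cl.actHom (permH ι σ) (Cl.a i) = _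
  rw [Cl.actHom_a]
  simp

theorem pact_zp (σ : Perm ι) (e : ZMod 2) : pact σ (Cl.zp e) = Cl.zp e := by
  unfold Cl.zp
  split_ifs
  · exact map_one _
  · exact pact_z σ

/-- the support of the image -/
theorem supp_pact [DecidableEq ι] (σ : Perm ι) (g : Cl ι) (i : ι) :
    Multiplicative.toAdd (Cl.supp (pact σ g)) (σ i) = Multiplicative.toAdd (Cl.supp g) i :=
  Cl.supp_act _ _ _

theorem Cl.zp_add (e f : ZMod 2) : (Cl.zp (e + f) : Cl ι) = Cl.zp e * Cl.zp f := Cl.zp_add' e f

theorem Cl.zp_comm (e : ZMod 2) (g : Cl ι) : Cl.zp e * g = g * Cl.zp e := Cl.zp_comm' e g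

theorem Cl.zp_inj {e f : ZMod 2} (h : (Cl.zp e : Cl ι) = Cl.zp f) : e = f := by
  rcases Cl.z2cases e with rfl | rfl <;> rcases Cl.z2cases f with rfl | rfl
  · rfl
  · rw [Cl.zp_zero, Cl.zp_one] at h
    exact absurd h.symm Cl.z_ne_one
  · rw [Cl.zp_zero, Cl.zp_one] at h
    exact absurd h Cl.z_ne_one
  · rfl

/-- equal supports -/
theorem Cl.eq_of_supp [DecidableEq ι] {g h : Cl ι} (hs : Cl.supp g = Cl.supp h) :
    ∃ e : ZMod 2, g = Cl.zp e * h := Cl.eq_of_supp' hs

/-- an element whose support is invariant under a permutation of odd order is fixed -/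
theorem pact_inv [Fintype ι] [DecidableEq ι] (σ : Perm ι) (hσ : Odd (orderOf σ)) (g : Cl ι)
    (hg : ∀ i, Multiplicative.toAdd (Cl.supp g) (σ i) = Multiplicative.toAdd (Cl.supp g) i) :
    pact σ g = g := by
  have hs : Cl.supp (pact σ g) = Cl.supp g := by
    apply Multiplicative.toAdd.injective
    funext i
    have h := supp_pact σ g (σ⁻¹ i)
    rw [← Equiv.Perm.mul_apply, mul_inv_cancel, Equiv.Perm.one_apply] at h
    rw [h, ← hg, ← Equiv.Perm.mul_apply, mul_inv_cancel, Equiv.Perm.one_apply]
  obtain ⟨e, he⟩ := Cl.eq_of_supp hs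
  have hm : ∀ m : ℕ, pact (σ ^ m) g = Cl.zp ((m : ZMod 2) * e) * g := by
    intro m
    induction m with
    | zero => rw [pow_zero, pact_one, Nat.cast_zero, zero_mul, Cl.zp_zero, one_mul]
    | succ m ih =>
      rw [pow_succ', pact_mul, ih, map_mul, pact_zp, he, ← mul_assoc, ← Cl.zp_add, Nat.cast_succ,
        add_mul, one_mul]
  have h1 := hm (orderOf σ)
  rw [pow_orderOf_eq_one, pact_one] at h1
  have h2 : ((orderOf σ : ℕ) : ZMod 2) = 1 := ZMod.natCast_eq_one_iff_odd.2 hσ
  rw [h2, one_mul] at h1
  rw [he, ← h1]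

/-- the number of elements of the cycle of `x` -/
noncomputable def cyLen [Fintype ι] [DecidableEq ι] (σ : Perm ι) (x : ι) : ℕ :=
  Nat.card {y : ι // σ.SameCycle x y}

theorem sameCycle_iff_iterate [Fintype ι] [DecidableEq ι] (σ : Perm ι) (x y : ι) :
    σ.SameCycle x y ↔ ∃ i < Function.minimalPeriod σ x, (σ ^ i) x = y := by
  constructor
  · intro h
    obtain ⟨i, _, hi⟩ := h.exists_pow_eq'
    refine ⟨i % Function.minimalPeriod σ x, Nat.mod_lt _ ?_, ?_⟩
    · refine Function.IsPeriodicPt.minimalPeriod_pos (orderOf_pos σ) ?_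
      change σ^[orderOf σ] x = x
      rw [← Equiv.Perm.coe_pow, pow_orderOf_eq_one, Equiv.Perm.one_apply]
    · rw [← hi, Equiv.Perm.coe_pow, Equiv.Perm.coe_pow, Function.iterate_mod_minimalPeriod_eq]
  · rintro ⟨i, _, rfl⟩
    exact ⟨i, by rw [zpow_natCast]⟩

theorem mp_pos [Fintype ι] [DecidableEq ι] (σ : Perm ι) (x : ι) :
    0 < Function.minimalPeriod σ x := by
  refine Function.IsPeriodicPt.minimalPeriod_pos (orderOf_pos σ) ?_
  change σ^[orderOf σ] x = x
  rw [← Equiv.Perm.coe_pow, pow_orderOf_eq_one, Equiv.Perm.one_apply]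

theorem cyLen_eq [Fintype ι] [DecidableEq ι] (σ : Perm ι) (x : ι) :
    cyLen σ x = Function.minimalPeriod σ x := by
  unfold cyLen
  let F : Fin (Function.minimalPeriod σ x) → {y : ι // σ.SameCycle x y} :=
    fun i => ⟨(σ ^ (i : ℕ)) x, (sameCycle_iff_iterate σ x _).2 ⟨i, i.2, rfl⟩⟩
  have hF : Function.Bijective F := by
    constructor
    · intro i j h
      have h1 : (σ ^ (i : ℕ)) x = (σ ^ (j : ℕ)) x := congrArg Subtype.val h
      rw [Equiv.Perm.coe_pow, Equiv.Perm.coe_pow] at h1
      exact Fin.ext (Function.iterate_injOn_Iio_minimalPeriod (Set.mem_Iio.2 i.2)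
        (Set.mem_Iio.2 j.2) h1)
    · rintro ⟨y, hy⟩
      obtain ⟨i, hi, hiy⟩ := (sameCycle_iff_iterate σ x y).1 hy
      exact ⟨⟨i, hi⟩, Subtype.ext hiy⟩
  rw [← Nat.card_eq_of_bijective F hF, Nat.card_eq_fintype_card, Fintype.card_fin]

/-- an element whose support is one cycle -/
theorem pact_cycle [Fintype ι] [DecidableEq ι] (σ : Perm ι) (x : ι) (g : Cl ι)
    (hg : ∀ y, Multiplicative.toAdd (Cl.supp g) y = if σ.SameCycle x y then 1 else 0) :
    pact σ g = Cl.zp ((cyLen σ x - 1 : ℕ) : ZMod 2) * g := by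
  classical
  rw [cyLen_eq]
  obtain ⟨k, hk⟩ : ∃ k, Function.minimalPeriod σ x = k + 1 :=
    ⟨Function.minimalPeriod σ x - 1, by have := mp_pos σ x; omega⟩
  rw [hk, Nat.add_sub_cancel]
  have hinj : ∀ i j : ℕ, i < k + 1 → j < k + 1 → (σ ^ i) x = (σ ^ j) x → i = j := by
    intro i j hi hj h
    rw [Equiv.Perm.coe_pow, Equiv.Perm.coe_pow] at h
    rw [← hk] at hi hj
    exact Function.iterate_injOn_Iio_minimalPeriod (Set.mem_Iio.2 hi) (Set.mem_Iio.2 hj) h
  -- the list of the other points of the cycle
  let l : List ι := (List.range k).map fun i => (σ ^ (i + 1)) x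
  have hl : l.Nodup := by
    refine List.Nodup.map_on ?_ List.nodup_range
    intro i hi j hj h
    rw [List.mem_range] at hi hj
    have := hinj (i + 1) (j + 1) (by omega) (by omega) h
    omega
  have hxl : x ∉ l := by
    intro h
    obtain ⟨i, hi, hix⟩ := List.mem_map.1 h
    rw [List.mem_range] at hi
    have := hinj (i + 1) 0 (by omega) (by omega) (by rw [pow_zero, Equiv.Perm.one_apply]; exact hix)
    omega
  have hmem : ∀ y, σ.SameCycle x y ↔ y = x ∨ y ∈ l := by
    intro y
    rw [sameCycle_iff_iterate, hk]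
    constructor
    · rintro ⟨i, hi, rfl⟩
      cases i with
      | zero => left; rw [pow_zero, Equiv.Perm.one_apply]
      | succ i =>
        right
        exact List.mem_map.2 ⟨i, List.mem_range.2 (by omega), rfl⟩
    · rintro (rfl | h)
      · exact ⟨0, by omega, by rw [pow_zero, Equiv.Perm.one_apply]⟩
      · obtain ⟨i, hi, hix⟩ := List.mem_map.1 h
        rw [List.mem_range] at hi
        exact ⟨i + 1, by omega, hix⟩
  -- the element
  set D : Cl ι := (l.map Cl.a).prod with hD
  have hsupD : ∀ y, Multiplicative.toAdd (Cl.supp D) y = if y ∈ l then 1 else 0 :=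
    fun y => Cl.supp_list l hl y
  have hg' : ∃ e : ZMod 2, g = Cl.zp e * (Cl.a x * D) := by
    apply Cl.eq_of_supp
    apply Multiplicative.toAdd.injective
    funext y
    rw [hg y, Cl.toAdd_supp_mul, Cl.toAdd_supp_a, hsupD]
    by_cases hy : y = x
    · subst hy
      rw [if_pos ((hmem _).2 (Or.inl rfl)), if_pos rfl, if_neg hxl, add_zero]
    · rw [if_neg hy, zero_add]
      have : σ.SameCycle x y ↔ y ∈ l := by rw [hmem]; simp [hy]
      simp only [this]
  have hxk : (σ ^ (k + 1)) x = x := by
    rw [← hk, Equiv.Perm.coe_pow, Function.iterate_minimalPeriod]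
  have hact : pact σ (Cl.a x * D) = D * Cl.a x := by
    have h1 : pact σ (Cl.a x * D) =
        ((List.range (k + 1)).map fun i => Cl.a ((σ ^ (i + 1)) x)).prod := by
      have h2 : Cl.a x * D = ((List.range (k + 1)).map fun i => Cl.a ((σ ^ i) x)).prod := by
        rw [List.range_succ_eq_map, List.map_cons, List.prod_cons, pow_zero, Equiv.Perm.one_apply,
          hD, List.map_map, List.map_map]
        rfl
      rw [h2, map_list_prod, List.map_map]
      congr 1
      apply List.map_congr_left
      intro i _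
      change pact σ (Cl.a ((σ ^ i) x)) = _
      rw [pact_a, pow_succ', Equiv.Perm.mul_apply]
    rw [h1, List.range_succ, List.map_append, List.prod_append, hD, List.map_map]
    simp only [List.map_cons, List.map_nil, List.prod_cons, List.prod_nil, mul_one, hxk]
    rfl
  have hcomm := Cl.comm_a x D
  have hpair : cpair (Multiplicative.toAdd (Cl.supp (Cl.a x : Cl ι)))
      (Multiplicative.toAdd (Cl.supp D)) = (k : ZMod 2) := by
    unfold cpair
    have h1 : ∑ i, Multiplicative.toAdd (Cl.supp (Cl.a x : Cl ι)) i = 1 := by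
      simp only [Cl.toAdd_supp_a]
      simp
    have h2 : ∑ i, Multiplicative.toAdd (Cl.supp D) i = (k : ZMod 2) := by
      simp only [hsupD]
      rw [Finset.sum_boole]
      have h3 : (Finset.univ.filter fun y => y ∈ l) = l.toFinset := by
        ext y
        simp
      rw [h3, List.toFinset_card_of_nodup hl]
      simp [l]
    have h3 : ∑ i, Multiplicative.toAdd (Cl.supp (Cl.a x : Cl ι)) i *
        Multiplicative.toAdd (Cl.supp D) i = 0 := by
      apply Finset.sum_eq_zero
      intro i _
      rw [Cl.toAdd_supp_a, hsupD]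
      by_cases hi : i = x
      · subst hi
        rw [if_neg hxl, mul_zero]
      · rw [if_neg hi, zero_mul]
    rw [h1, h2, h3, one_mul, add_zero]
  rw [hpair] at hcomm
  obtain ⟨e, he⟩ := hg'
  rw [he, map_mul, pact_zp, hact, hcomm, ← mul_assoc (Cl.zp (k : ZMod 2)), Cl.zp_comm (k : ZMod 2),
    mul_assoc (Cl.zp e), ← mul_assoc (Cl.zp (k : ZMod 2)) (Cl.zp (k : ZMod 2)), ← Cl.zp_add,
    CharTwo.add_self_eq_zero, Cl.zp_zero, one_mul]

/-- the order is odd iff all cycles are odd -/
theorem odd_order_iff [Fintype ι] [DecidableEq ι] (σ : Perm ι) :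
    Odd (orderOf σ) ↔ ∀ x, Odd (cyLen σ x) := by
  constructor
  · intro h x
    rw [cyLen_eq]
    refine Odd.of_dvd_nat h (Function.IsPeriodicPt.minimalPeriod_dvd ?_)
    change σ^[orderOf σ] x = x
    rw [← Equiv.Perm.coe_pow, pow_orderOf_eq_one, Equiv.Perm.one_apply]
  · intro h
    have hN : Odd (∏ x, cyLen σ x) := Finset.prod_induction _ Odd (fun _ _ => Odd.mul) odd_one
      fun x _ => h x
    refine Odd.of_dvd_nat hN (orderOf_dvd_of_pow_eq_one ?_)
    ext x
    have hd : Function.minimalPeriod σ x ∣ ∏ x, cyLen σ x := by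
      rw [← cyLen_eq]
      exact Finset.dvd_prod_of_mem _ (Finset.mem_univ x)
    have := (Function.isPeriodicPt_iff_minimalPeriod_dvd (f := σ) (x := x)).2 hd
    rw [Equiv.Perm.coe_pow, this, Equiv.Perm.one_apply]

section BG

variable {L : Type} [Group L] (h0 : L →* Perm ι)

/-- the group `Cl ι ⋊ L` for a group `L` of permutations -/
abbrev BP : Type := BG ((permH ι).comp h0)

/-- the elements of `L` -/
def BP.r : L →* BP h0 := SemidirectProduct.inr

/-- the elements of the Clifford group -/
def BP.l : Cl ι →* BP h0 := SemidirectProduct.inl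

theorem BP.eq (x : BP h0) : x = BP.l h0 x.left * BP.r h0 x.right :=
  (SemidirectProduct.inl_left_mul_inr_right x).symm

/-- moving `L` past the Clifford group -/
theorem BP.r_mul_l (g : L) (c : Cl ι) : BP.r h0 g * BP.l h0 c = BP.l h0 (pact (h0 g) c) * BP.r h0 g := by
  apply SemidirectProduct.ext
  · simp only [BP.r, BP.l, SemidirectProduct.mul_left, SemidirectProduct.left_inr,
      SemidirectProduct.right_inr, SemidirectProduct.left_inl, SemidirectProduct.right_inl,
      map_one, one_mul, mul_one]
    rfl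
  · simp [BP.r, BP.l]

theorem BP.z_eq : BG.z ((permH ι).comp h0) = BP.l h0 Cl.z := rfl

theorem BP.par_l (c : Cl ι) : BG.par ((permH ι).comp h0) (BP.l h0 c) = Cl.par c :=
  SemidirectProduct.lift_inl _ _ _ _

theorem BP.par_r (g : L) : BG.par ((permH ι).comp h0) (BP.r h0 g) = 1 :=
  SemidirectProduct.lift_inr _ _ _ _

end BG

end Pool.Agent.Helper81.AN
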