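import Pool.Agent.Helper81.AN.Div
import Pool.Agent.Helper81.AN.Rot

/-!
# ALT-21: the characters `Phi * (number of invariant colourings)`

`X = Cl ι ⋊ L`, `L` a group of permutations. `Phi` is the character of the regular left module of the Clifford algebra.
`CC` is a finite set of colourings `κ : ι → k` which is stable under `L` and such that the number of points of colour `j` is
a constant `n j` on `CC`. Then `Phi x * #{κ ∈ CC : κ invariant under x}` is `2^⌊t/2⌋` times a character, `t = #{j : n j ≠ 0}`.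

PROOF. Let `V` be the space of functions `F` on `CC × Cl ι` with `F(κ, z g) = -F(κ, g)`. `X` acts: for `x = (c, l)`:
`(x F)(κ, g) = F(κ ∘ l, (pact l)⁻¹ (c⁻¹ g))`. (`x · (κ, g) = (κ ∘ l⁻¹, c * pact l g)` is an action of the group `X` on the set `CC × Cl ι`
which commutes with `z`.) The trace of `x` on the functions on a finite set is the number of fixed points; on the subspace `V`
(range of the projection `F ↦ (F - F(z ·))/2`) it is `½ (#{x·(κ,g) = (κ,g)} - #{x·(κ,g) = (κ, z g)})`, which is `#{κ : κ ∘ l = κ} * Phi x`.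
For a colour `j` with `n j ≠ 0` let `(J_j F)(κ, g) = (n j)^(-1/2) Σ_{i : κ i = j} F(κ, g * a i)`. `J_j^2 = 1`: `Σ_{i,i'} F(κ, g a_i a_i')` = `n_j F(κ, g)` plus the sum over
`i ≠ i'`, which cancels in pairs, because `a_i a_i' = z a_i' a_i`. `J_j J_j' = -J_j' J_j` for `j ≠ j'` in the same way. `J_j` commutes with `X`: right
multiplications commute with left ones, and for `l ∈ L`: `g * a_i` is mapped to `pact l⁻¹ g * a_(l⁻¹ i)` and `κ i = j` iff `(κ ∘ l) (l⁻¹ i) = j`. Apply `div_char` with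
`k = t` (reindex by `Fin t`).
-/

set_option autoImplicit false

open Equiv

namespace Pool.Agent.Helper81.AN

open Pool.Agent.Helper42.INC Pool.Agent.Helper7.MK

variable {ι : Type} [Fintype ι] [DecidableEq ι] {L : Type} [Group L] [Finite L] (h0 : L →* Perm ι)

/-- the character of the Clifford algebra as a left module -/
noncomputable def Phi (x : BP h0) : ℂ :=
  (1 / 2) * ((Nat.card {g : Cl ι // x.left * pact (h0 x.right) g = g} : ℂ) -
    Nat.card {g : Cl ι // x.left * pact (h0 x.right) g = Cl.z * g})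

omit [Finite L] in
private theorem q_trace_funLeft {Ω : Type} [Fintype Ω] [DecidableEq Ω] (σ : Ω → Ω) :
    LinearMap.trace ℂ (Ω → ℂ) (LinearMap.funLeft ℂ ℂ σ) = (Nat.card {ω : Ω // σ ω = ω} : ℂ) := by
  rw [LinearMap.trace_eq_matrix_trace ℂ (Pi.basisFun ℂ Ω), Matrix.trace]
  have h1 : ∀ ω : Ω, Matrix.diag (LinearMap.toMatrix (Pi.basisFun ℂ Ω) (Pi.basisFun ℂ Ω)
      (LinearMap.funLeft ℂ ℂ σ)) ω = if σ ω = ω then 1 else 0 := by
    intro ω
    rw [Matrix.diag_apply, LinearMap.toMatrix_apply, Pi.basisFun_apply, Pi.basisFun_repr,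
      LinearMap.funLeft_apply, Pi.single_apply]
  rw [Finset.sum_congr rfl fun ω _ => h1 ω, Finset.sum_boole, Nat.card_eq_fintype_card,
    Fintype.card_subtype]

/-- antisymmetric functions -/
private def qV {Ω : Type} (Z : Ω → Ω) : Submodule ℂ (Ω → ℂ) where
  carrier := {F | ∀ ω, F (Z ω) = -F ω}
  add_mem' := by
    intro F F' h h' ω
    rw [Pi.add_apply, Pi.add_apply, h, h', neg_add]
  zero_mem' := by
    intro ω
    rw [Pi.zero_apply, Pi.zero_apply, neg_zero]
  smul_mem' := by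
    intro c F h ω
    rw [Pi.smul_apply, Pi.smul_apply, h, smul_neg]

private theorem q_trace_res {Ω : Type} [Fintype Ω] [DecidableEq Ω] (Z σ : Ω → Ω)
    (hZ : ∀ ω, Z (Z ω) = ω) (A : Module.End ℂ (qV Z))
    (hA : ∀ F : qV Z, ∀ ω, (A F).1 ω = F.1 (σ ω)) :
    LinearMap.trace ℂ (qV Z) A =
      (1 / 2 : ℂ) * ((Nat.card {ω : Ω // σ ω = ω} : ℂ) - Nat.card {ω : Ω // Z (σ ω) = ω}) := by
  let e : Module.End ℂ (Ω → ℂ) := (1 / 2 : ℂ) • (1 - LinearMap.funLeft ℂ ℂ Z)
  have he : ∀ F ω, e F ω = (1 / 2 : ℂ) * (F ω - F (Z ω)) := fun F ω => rfl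
  have hmem : ∀ F, e F ∈ qV Z := by
    intro F ω
    rw [he, he, hZ]
    ring
  let π : (Ω → ℂ) →ₗ[ℂ] qV Z := LinearMap.codRestrict (qV Z) e hmem
  have h6 : π ∘ₗ (qV Z).subtype = LinearMap.id := by
    apply LinearMap.ext
    intro F
    apply Subtype.ext
    funext ω
    change e F.1 ω = F.1 ω
    rw [he, F.2 ω]
    ring
  have h5 : (qV Z).subtype ∘ₗ (A ∘ₗ π) = (1 / 2 : ℂ) • (LinearMap.funLeft ℂ ℂ σ -
      LinearMap.funLeft ℂ ℂ (fun ω => Z (σ ω))) := by
    apply LinearMap.ext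
    intro F
    funext ω
    change (A (π F)).1 ω = (1 / 2 : ℂ) * (F (σ ω) - F (Z (σ ω)))
    rw [hA]
    exact he F (σ ω)
  have h7 : LinearMap.trace ℂ _ ((qV Z).subtype ∘ₗ (A ∘ₗ π)) = LinearMap.trace ℂ _ A := by
    rw [LinearMap.trace_comp_comm', LinearMap.comp_assoc, h6, LinearMap.comp_id]
  rw [← h7, h5, map_smul, map_sub, q_trace_funLeft, q_trace_funLeft, smul_eq_mul]

/-- the action on colourings times the Clifford group -/
private def qact (k : Type) (CC : Set (ι → k))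
    (hst : ∀ κ ∈ CC, ∀ l : L, (fun i => κ (h0 l i)) ∈ CC) (x : BP h0)
    (ω : {κ // κ ∈ CC} × Cl ι) : {κ // κ ∈ CC} × Cl ι :=
  (⟨fun i => ω.1.1 (h0 x.right⁻¹ i), hst ω.1.1 ω.1.2 _⟩, x.left * pact (h0 x.right) ω.2)

omit [Fintype ι] [DecidableEq ι] [Finite L] in
private theorem qact_one (k : Type) (CC : Set (ι → k))
    (hst : ∀ κ ∈ CC, ∀ l : L, (fun i => κ (h0 l i)) ∈ CC) (ω : {κ // κ ∈ CC} × Cl ι) :
    qact h0 k CC hst 1 ω = ω := by
  refine Prod.ext (Subtype.ext ?_) ?_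
  · funext i
    change ω.1.1 (h0 (1 : L)⁻¹ i) = ω.1.1 i
    rw [inv_one, map_one]
    rfl
  · change (1 : Cl ι) * pact (h0 (1 : L)) ω.2 = ω.2
    rw [map_one, pact_one, one_mul]

omit [Fintype ι] [DecidableEq ι] [Finite L] in
private theorem qact_mul (k : Type) (CC : Set (ι → k))
    (hst : ∀ κ ∈ CC, ∀ l : L, (fun i => κ (h0 l i)) ∈ CC) (x y : BP h0)
    (ω : {κ // κ ∈ CC} × Cl ι) :
    qact h0 k CC hst (x * y) ω = qact h0 k CC hst x (qact h0 k CC hst y ω) := by
  refine Prod.ext (Subtype.ext ?_) ?_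
  · funext i
    change ω.1.1 (h0 (x.right * y.right)⁻¹ i) = ω.1.1 (h0 y.right⁻¹ (h0 x.right⁻¹ i))
    rw [mul_inv_rev, map_mul]
    rfl
  · change x.left * pact (h0 x.right) y.left * pact (h0 (x.right * y.right)) ω.2 =
      x.left * pact (h0 x.right) (y.left * pact (h0 y.right) ω.2)
    rw [map_mul, map_mul, pact_mul, mul_assoc]

theorem q_div (k : Type) [Fintype k] [DecidableEq k] (CC : Set (ι → k)) (n : k → ℕ)
    (hst : ∀ κ ∈ CC, ∀ l : L, (fun i => κ (h0 l i)) ∈ CC)
    (hn : ∀ κ ∈ CC, ∀ j, (Finset.univ.filter (fun i => κ i = j)).card = n j) :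
    ∃ φ : BP h0 → ℂ, IsChar φ ∧ ∀ x : BP h0,
      Phi h0 x * Nat.card {κ : ι → k // κ ∈ CC ∧ ∀ i, κ (h0 x.right i) = κ i} =
        2 ^ ((Finset.univ.filter (fun j => n j ≠ 0)).card / 2) * φ x := by
  classical
  let _ : Fintype (Cl ι) := Fintype.ofFinite _
  let _ : Fintype {κ // κ ∈ CC} := Fintype.ofFinite _
  let Ω : Type := {κ // κ ∈ CC} × Cl ι
  let act : BP h0 → Ω → Ω := qact h0 k CC hst
  have act_one : ∀ ω, act 1 ω = ω := qact_one h0 k CC hst
  have act_mul : ∀ x y ω, act (x * y) ω = act x (act y ω) := qact_mul h0 k CC hst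
  let Z : Ω → Ω := fun ω => (ω.1, Cl.z * ω.2)
  have hZ : ∀ ω, Z (Z ω) = ω := by
    intro ω
    change (ω.1, Cl.z * (Cl.z * ω.2)) = ω
    rw [← mul_assoc, Cl.zz, one_mul]
  have hzc : ∀ g : Cl ι, g * Cl.z = Cl.z * g := fun g => (Cl.z_comm g).symm
  have hZact : ∀ x ω, act x (Z ω) = Z (act x ω) := by
    intro x ω
    refine Prod.ext rfl ?_
    change x.left * pact (h0 x.right) (Cl.z * ω.2) = Cl.z * (x.left * pact (h0 x.right) ω.2)
    rw [map_mul, pact_z, ← mul_assoc, hzc, mul_assoc]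
  -- the representation
  let A : BP h0 → Module.End ℂ (qV Z) := fun x =>
    LinearMap.restrict (LinearMap.funLeft ℂ ℂ (act x)) (p := qV Z) (q := qV Z) (by
      intro F hF ω
      change F (act x (Z ω)) = -F (act x ω)
      rw [hZact]
      exact hF _)
  have hA : ∀ x (F : qV Z) ω, (A x F).1 ω = F.1 (act x ω) := fun x F ω => rfl
  let ρ : Representation ℂ (BP h0) (qV Z) :=
    { toFun := fun x => A x⁻¹
      map_one' := by
        apply LinearMap.ext
        intro F
        apply Subtype.ext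
        funext ω
        rw [hA, inv_one, act_one]
        rfl
      map_mul' := by
        intro x y
        apply LinearMap.ext
        intro F
        apply Subtype.ext
        funext ω
        rw [Module.End.mul_apply, hA, hA, hA, mul_inv_rev, act_mul] }
  -- the operators
  have hs : ∀ j : k, ∃ s : ℂ, n j ≠ 0 → s * s * (n j : ℂ) = 1 := by
    intro j
    obtain ⟨s, hs⟩ := IsAlgClosed.exists_pow_nat_eq ((n j : ℂ)⁻¹) (show 0 < 2 by norm_num)
    refine ⟨s, fun h => ?_⟩
    have h2 : (n j : ℂ) ≠ 0 := by exact_mod_cast h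
    rw [← pow_two, hs, inv_mul_cancel₀ h2]
  choose s hs using hs
  let J0 : k → Module.End ℂ (Ω → ℂ) := fun j =>
    { toFun := fun F ω => s j * ∑ i ∈ Finset.univ.filter (fun i => ω.1.1 i = j),
        F (ω.1, ω.2 * Cl.a i)
      map_add' := by
        intro F F'
        funext ω
        simp only [Pi.add_apply, Finset.sum_add_distrib, mul_add]
      map_smul' := by
        intro c F
        funext ω
        simp only [Pi.smul_apply, smul_eq_mul, RingHom.id_apply, ← Finset.mul_sum]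
        ring }
  have hJ0 : ∀ j F ω, J0 j F ω = s j * ∑ i ∈ Finset.univ.filter (fun i => ω.1.1 i = j),
      F (ω.1, ω.2 * Cl.a i) := fun j F ω => rfl
  let J : k → Module.End ℂ (qV Z) := fun j =>
    LinearMap.restrict (J0 j) (p := qV Z) (q := qV Z) (by
      intro F hF ω
      rw [hJ0, hJ0, ← mul_neg, ← Finset.sum_neg_distrib]
      congr 1
      refine Finset.sum_congr rfl fun i _ => ?_
      have h1 := hF (ω.1, ω.2 * Cl.a i)
      change F (ω.1, Cl.z * (ω.2 * Cl.a i)) = _ at h1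
      change F (ω.1, Cl.z * ω.2 * Cl.a i) = _
      rw [mul_assoc]
      exact h1)
  have hJ : ∀ j (F : qV Z) ω, (J j F).1 ω = s j * ∑ i ∈ Finset.univ.filter (fun i => ω.1.1 i = j),
      F.1 (ω.1, ω.2 * Cl.a i) := fun j F ω => rfl
  have hJJ : ∀ j j' (F : qV Z) ω, (J j (J j' F)).1 ω = s j * s j' *
      ∑ i ∈ Finset.univ.filter (fun i => ω.1.1 i = j),
        ∑ i' ∈ Finset.univ.filter (fun i => ω.1.1 i = j'),
          F.1 (ω.1, ω.2 * Cl.a i * Cl.a i') := by
    intro j j' F ω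
    rw [hJ, mul_assoc (s j) (s j')]
    congr 1
    rw [Finset.mul_sum]
    exact Finset.sum_congr rfl fun i _ => hJ j' F _
  have hanti : ∀ (F : qV Z) (ω : Ω) i i', i ≠ i' →
      F.1 (ω.1, ω.2 * Cl.a i * Cl.a i') = -F.1 (ω.1, ω.2 * Cl.a i' * Cl.a i) := by
    intro F ω i i' hii
    have h1 := F.2 (ω.1, ω.2 * Cl.a i' * Cl.a i)
    rw [← h1]
    refine congrArg F.1 (Prod.ext rfl ?_)
    change ω.2 * Cl.a i * Cl.a i' = Cl.z * (ω.2 * Cl.a i' * Cl.a i)
    rw [mul_assoc, Cl.a_mul_a hii, ← mul_assoc, hzc, mul_assoc, mul_assoc]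
  have hdiag : ∀ (F : qV Z) (ω : Ω) i, F.1 (ω.1, ω.2 * Cl.a i * Cl.a i) = F.1 ω := by
    intro F ω i
    rw [mul_assoc, Cl.aa, mul_one]
  have hsq : ∀ j, n j ≠ 0 → J j * J j = 1 := by
    intro j hj
    apply LinearMap.ext
    intro F
    apply Subtype.ext
    funext ω
    rw [Module.End.mul_apply, Module.End.one_apply, hJJ]
    set S := Finset.univ.filter (fun i => ω.1.1 i = j) with hS
    have hcard : S.card = n j := hn ω.1.1 ω.1.2 j
    have h2 : (∑ i ∈ S, ∑ i' ∈ S, F.1 (ω.1, ω.2 * Cl.a i * Cl.a i')) +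
        (∑ i ∈ S, ∑ i' ∈ S, F.1 (ω.1, ω.2 * Cl.a i * Cl.a i')) = 2 * ((n j : ℂ) * F.1 ω) := by
      have h3 : (∑ i ∈ S, ∑ i' ∈ S, F.1 (ω.1, ω.2 * Cl.a i * Cl.a i')) =
          ∑ i ∈ S, ∑ i' ∈ S, F.1 (ω.1, ω.2 * Cl.a i' * Cl.a i) := Finset.sum_comm
      conv_lhs =>
        congr
        · skip
        · rw [h3]
      rw [← Finset.sum_add_distrib]
      have h4 : ∀ i ∈ S, (∑ i' ∈ S, F.1 (ω.1, ω.2 * Cl.a i * Cl.a i')) +
          (∑ i' ∈ S, F.1 (ω.1, ω.2 * Cl.a i' * Cl.a i)) = 2 * F.1 ω := by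
        intro i hi
        rw [← Finset.sum_add_distrib, Finset.sum_eq_single_of_mem i hi]
        · rw [hdiag]
          ring
        · intro i' _ hne
          rw [hanti F ω i i' hne.symm]
          ring
      rw [Finset.sum_congr rfl h4, Finset.sum_const, hcard, nsmul_eq_mul]
      ring
    have h5 : (∑ i ∈ S, ∑ i' ∈ S, F.1 (ω.1, ω.2 * Cl.a i * Cl.a i')) = (n j : ℂ) * F.1 ω := by
      linear_combination (1 / 2 : ℂ) * h2
    rw [h5, ← mul_assoc, hs j hj, one_mul]
  have hac : ∀ j j', j ≠ j' → J j * J j' = -(J j' * J j) := by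
    intro j j' hjj
    apply LinearMap.ext
    intro F
    apply Subtype.ext
    funext ω
    rw [Module.End.mul_apply, LinearMap.neg_apply, Module.End.mul_apply]
    change (J j (J j' F)).1 ω = -((J j' (J j F)).1 ω)
    rw [hJJ, hJJ, Finset.sum_comm, mul_comm (s j), ← mul_neg, ← Finset.sum_neg_distrib]
    congr 1
    refine Finset.sum_congr rfl fun i' hi' => ?_
    rw [← Finset.sum_neg_distrib]
    refine Finset.sum_congr rfl fun i hi => ?_
    rw [hanti]
    rintro rfl
    rw [Finset.mem_filter] at hi hi'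
    exact hjj (hi.2.symm.trans hi'.2)
  have hcomm : ∀ j x, J j * ρ x = ρ x * J j := by
    intro j x
    change J j * A x⁻¹ = A x⁻¹ * J j
    generalize x⁻¹ = y
    apply LinearMap.ext
    intro F
    apply Subtype.ext
    funext ω
    rw [Module.End.mul_apply, Module.End.mul_apply, hA, hJ, hJ]
    congr 1
    refine Finset.sum_bij (fun i _ => h0 y.right i) ?_ ?_ ?_ ?_
    · intro i hi
      rw [Finset.mem_filter] at hi ⊢
      refine ⟨Finset.mem_univ _, ?_⟩
      change ω.1.1 (h0 y.right⁻¹ (h0 y.right i)) = j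
      rw [← Equiv.Perm.mul_apply, ← map_mul, inv_mul_cancel, map_one]
      exact hi.2
    · intro i _ i' _ hii
      exact (h0 y.right).injective hii
    · intro i hi
      rw [Finset.mem_filter] at hi
      refine ⟨h0 y.right⁻¹ i, ?_, ?_⟩
      · rw [Finset.mem_filter]
        exact ⟨Finset.mem_univ _, hi.2⟩
      · rw [← Equiv.Perm.mul_apply, ← map_mul, mul_inv_cancel, map_one]
        rfl
    · intro i hi
      rw [hA]
      refine congrArg F.1 (Prod.ext rfl ?_)
      change y.left * pact (h0 y.right) (ω.2 * Cl.a i) =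
        y.left * pact (h0 y.right) ω.2 * Cl.a (h0 y.right i)
      rw [map_mul, pact_a, mul_assoc]
  -- the divisibility
  set T := Finset.univ.filter (fun j => n j ≠ 0) with hT
  obtain ⟨φ, hφ, hφx⟩ := div_char T.card ρ (fun i => J (T.equivFin.symm i).1)
    (fun i => hsq _ (Finset.mem_filter.1 (T.equivFin.symm i).2).2)
    (fun i i' hii => hac _ _ (fun h => hii (T.equivFin.symm.injective (Subtype.ext h))))
    (fun i x => hcomm _ x)
  refine ⟨φ, hφ, fun x => ?_⟩
  rw [← hφx x]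
  -- the character
  have hchar : ρ.character x = (1 / 2 : ℂ) * ((Nat.card {ω : Ω // act x⁻¹ ω = ω} : ℂ) -
      Nat.card {ω : Ω // Z (act x⁻¹ ω) = ω}) :=
    q_trace_res Z (act x⁻¹) hZ (ρ x) (hA x⁻¹)
  rw [hchar]
  have hinv : ∀ ω ω' : Ω, act x⁻¹ ω = ω' ↔ act x ω' = ω := by
    intro ω ω'
    constructor
    · rintro rfl
      rw [← act_mul, mul_inv_cancel, act_one]
    · rintro rfl
      rw [← act_mul, inv_mul_cancel, act_one]
  have hfix : ∀ κ : ι → k, (∀ i, κ (h0 x.right⁻¹ i) = κ i) ↔ ∀ i, κ (h0 x.right i) = κ i := by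
    intro κ
    constructor
    · intro h i
      have h1 := h (h0 x.right i)
      rw [← Equiv.Perm.mul_apply, ← map_mul, inv_mul_cancel, map_one] at h1
      exact h1.symm
    · intro h i
      have h1 := h (h0 x.right⁻¹ i)
      rw [← Equiv.Perm.mul_apply, ← map_mul, mul_inv_cancel, map_one] at h1
      exact h1.symm
  have hcount : ∀ w : Cl ι, Nat.card {ω : Ω // act x ω = (ω.1, w * ω.2)} =
      Nat.card {κ : ι → k // κ ∈ CC ∧ ∀ i, κ (h0 x.right i) = κ i} *
        Nat.card {g : Cl ι // x.left * pact (h0 x.right) g = w * g} := by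
    intro w
    rw [← Nat.card_prod]
    refine Nat.card_congr
      { toFun := fun ω => (⟨ω.1.1.1, ω.1.1.2, (hfix _).1 fun i => ?_⟩, ⟨ω.1.2, ?_⟩)
        invFun := fun q => ⟨(⟨q.1.1, q.1.2.1⟩, q.2.1), ?_⟩
        left_inv := fun ω => rfl
        right_inv := fun q => rfl }
    · have h1 := congrArg (fun q : Ω => q.1.1 i) ω.2
      exact h1
    · exact congrArg (fun q : Ω => q.2) ω.2
    · refine Prod.ext (Subtype.ext ?_) q.2.2
      funext i
      exact (hfix _).2 q.1.2.2 i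
  have hc1 : Nat.card {ω : Ω // act x⁻¹ ω = ω} =
      Nat.card {κ : ι → k // κ ∈ CC ∧ ∀ i, κ (h0 x.right i) = κ i} *
        Nat.card {g : Cl ι // x.left * pact (h0 x.right) g = g} := by
    have h1 := hcount 1
    simp only [one_mul] at h1
    rw [← h1]
    refine Nat.card_congr (Equiv.subtypeEquivRight fun ω => ?_)
    exact hinv ω ω
  have hc2 : Nat.card {ω : Ω // Z (act x⁻¹ ω) = ω} =
      Nat.card {κ : ι → k // κ ∈ CC ∧ ∀ i, κ (h0 x.right i) = κ i} *
        Nat.card {g : Cl ι // x.left * pact (h0 x.right) g = Cl.z * g} := by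
    rw [← hcount Cl.z]
    refine Nat.card_congr (Equiv.subtypeEquivRight fun ω => ?_)
    change Z (act x⁻¹ ω) = ω ↔ act x ω = Z ω
    constructor
    · intro h
      have h1 : act x⁻¹ ω = Z ω := by
        rw [← hZ (act x⁻¹ ω), h]
      have h2 := (hinv _ _).1 h1
      rw [hZact] at h2
      rw [← hZ (act x ω), h2]
    · intro h
      have h1 : act x (Z ω) = ω := by
        rw [hZact, h, hZ]
      rw [(hinv _ _).2 h1, hZ]
  rw [hc1, hc2]
  unfold Phi
  push_cast
  ring

end Pool.Agent.Helper81.AN
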