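import Pool.Agent.Helper81.AN.ExtU
import Pool.Agent.Helper81.AN.Omega

/-!
# ALT-45: the extended basic representation and automorphisms of the cover

PROOF. Let `M` be as in `exists_M` for the odd permutation `s`: `U(pact s c) = par(c) M U(c) M⁻¹`. For `k ∈ K` put `R = M⁻¹ ρ(α k) M`. Then
`R (par(c) U(c)) R⁻¹ = M⁻¹ ρ(α k) U(pact s c) ρ(α k)⁻¹ M = M⁻¹ U(pact (π (α k)) (pact s c)) M = M⁻¹ U(pact s (pact (π k) c)) M = par(c) U(pact (π k) c)` (`π (α k) s = s π k`; `par` is invariant), so `R U(c) R⁻¹ = U(pact (π k) c)`, and `ρ(k)⁻¹ R` commutes with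
all `U(c)`, hence is a scalar `μ(k)` (`hspan`). `μ : K → ℂˣ` is a homomorphism (`k ↦ M⁻¹ ρ(α k) M` and `ρ` are homomorphisms), so trivial (`K` is perfect, `ℂˣ` abelian). Trace: `tr(U(pact s c) ρ(α k)) = par(c) tr(M U(c) M⁻¹ M ρ(k) M⁻¹) = par(c) tr(U(c) ρ(k))`.
-/

set_option autoImplicit false

open Matrix Equiv

namespace Pool.Agent.Helper81.AN

open Pool.Agent.Helper57.AN

/-- a sign as a scalar matrix -/
private def raE {d : ℕ} (x : ℤˣ) : GL (Fin d) ℂ := if x = 1 then 1 else -1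

private theorem raE_val {d : ℕ} (x : ℤˣ) (A : GL (Fin d) ℂ) :
    ((raE x * A : GL (Fin d) ℂ) : Matrix (Fin d) (Fin d) ℂ) =
      (((x : ℤˣ) : ℤ) : ℂ) • (A : Matrix (Fin d) (Fin d) ℂ) := by
  rcases Int.units_eq_one_or x with rfl | rfl
  · simp [raE]
  · have h : (-1 : ℤˣ) ≠ 1 := by decide
    simp [raE, h]

private theorem raE_sq {d : ℕ} (x : ℤˣ) : (raE x : GL (Fin d) ℂ) * raE x = 1 := by
  unfold raE
  split_ifs <;> simp

private theorem raE_comm {d : ℕ} (x : ℤˣ) (A : GL (Fin d) ℂ) : raE x * A = A * raE x := by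
  unfold raE
  split_ifs <;> simp

theorem trace_alpha {ι : Type} [Fintype ι] [DecidableEq ι] {K : Type}
    [Group K] [Finite K] {π : K →* Perm ι} (h : Cov π) {d : ℕ} (hd : 0 < d)
    (U : Cl ι →* GL (Fin d) ℂ) (hU : U Cl.z = -1)
    (hspan : Submodule.span ℂ {M : Matrix (Fin d) (Fin d) ℂ |
      ∃ c : Cl ι, (U c : Matrix (Fin d) (Fin d) ℂ) = M} = ⊤) (ρ : K →* GL (Fin d) ℂ)
    (hρ : ∀ k c, ρ k * U c * (ρ k)⁻¹ = U (pact (π k) c)) (s : Perm ι) (hs : Perm.sign s = -1)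
    (α : MulAut K) (hα : ∀ k, π (α k) = s * π k * s⁻¹) (c : Cl ι) (k : K) :
    ((U (pact s c) * ρ (α k) : GL (Fin d) ℂ) : Matrix (Fin d) (Fin d) ℂ).trace =
      (((Cl.par c : ℤˣ) : ℤ) : ℂ) *
        ((U c * ρ k : GL (Fin d) ℂ) : Matrix (Fin d) (Fin d) ℂ).trace := by
  obtain ⟨M, hM⟩ := exists_M U hU s
  have hM' : ∀ c, U (pact s c) = raE (Cl.par c) * (M * U c * M⁻¹) := by
    intro c
    apply Units.ext
    rw [hM c, raE_val]
    have h1 : pz s c = Cl.par c := by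
      unfold pz
      rw [if_neg]
      rw [hs]
      decide
    rw [h1]
  have hM'' : ∀ c, M * U c * M⁻¹ = raE (Cl.par c) * U (pact s c) := by
    intro c
    rw [hM', ← mul_assoc, raE_sq, one_mul]
  have hpar : ∀ (σ : Perm ι) (c : Cl ι), Cl.par (pact σ c) = Cl.par c := fun σ c => Cl.par_act _ _
  -- conjugation by `R k`
  have hR : ∀ k c, (M⁻¹ * ρ (α k) * M) * U c * (M⁻¹ * ρ (α k) * M)⁻¹ = U (pact (π k) c) := by
    intro k c
    have e1 : (M⁻¹ * ρ (α k) * M) * U c * (M⁻¹ * ρ (α k) * M)⁻¹ =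
        M⁻¹ * (ρ (α k) * (M * U c * M⁻¹) * (ρ (α k))⁻¹) * M := by group
    have e2 : ρ (α k) * (raE (Cl.par c) * U (pact s c)) * (ρ (α k))⁻¹ =
        raE (Cl.par c) * (ρ (α k) * U (pact s c) * (ρ (α k))⁻¹) := by
      rw [← mul_assoc, ← raE_comm]
      group
    have e3 : pact (π (α k)) (pact s c) = pact s (pact (π k) c) := by
      rw [← pact_mul, ← pact_mul, hα, inv_mul_cancel_right]
    rw [e1, hM'', e2, hρ, e3, hM', hpar, ← mul_assoc (raE (Cl.par c)), raE_sq, one_mul]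
    group
  -- the quotient is central
  have hcent : ∀ (k : K) (A : GL (Fin d) ℂ), (ρ k)⁻¹ * (M⁻¹ * ρ (α k) * M) * A =
      A * ((ρ k)⁻¹ * (M⁻¹ * ρ (α k) * M)) := by
    intro k A
    have hc : ∀ c, (ρ k)⁻¹ * (M⁻¹ * ρ (α k) * M) * U c = U c * ((ρ k)⁻¹ * (M⁻¹ * ρ (α k) * M)) := by
      intro c
      have h1 := hR k c
      rw [← hρ, mul_inv_eq_iff_eq_mul] at h1
      rw [mul_assoc, h1]
      group
    have hcomm : ∀ B : Matrix (Fin d) (Fin d) ℂ,
        (((ρ k)⁻¹ * (M⁻¹ * ρ (α k) * M) : GL (Fin d) ℂ) : Matrix (Fin d) (Fin d) ℂ) * B =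
        B * (((ρ k)⁻¹ * (M⁻¹ * ρ (α k) * M) : GL (Fin d) ℂ) : Matrix (Fin d) (Fin d) ℂ) := by
      intro B
      have hB : B ∈ Submodule.span ℂ {M : Matrix (Fin d) (Fin d) ℂ |
          ∃ c : Cl ι, (U c : Matrix (Fin d) (Fin d) ℂ) = M} := by
        rw [hspan]
        trivial
      induction hB using Submodule.span_induction with
      | mem x hx =>
        obtain ⟨c, rfl⟩ := hx
        rw [← Units.val_mul, ← Units.val_mul, hc]
      | zero => rw [mul_zero, zero_mul]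
      | add x y _ _ hx hy => rw [mul_add, add_mul, hx, hy]
      | smul a x _ hx => rw [mul_smul_comm, smul_mul_assoc, hx]
    exact Units.ext (hcomm _)
  -- the homomorphism `X` is trivial
  let X : K →* GL (Fin d) ℂ :=
    { toFun := fun k => (ρ k)⁻¹ * (M⁻¹ * ρ (α k) * M)
      map_one' := by
        rw [map_one, map_one, map_one]
        group
      map_mul' := by
        intro k l
        have e1 : (ρ (k * l))⁻¹ * (M⁻¹ * ρ (α (k * l)) * M) =
            (ρ l)⁻¹ * ((ρ k)⁻¹ * (M⁻¹ * ρ (α k) * M) * (M⁻¹ * ρ (α l) * M)) := by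
          rw [map_mul, map_mul, map_mul]
          group
        rw [e1, hcent k, ← mul_assoc, hcent k] }
  have hX : ∀ k, X k = (ρ k)⁻¹ * (M⁻¹ * ρ (α k) * M) := fun k => rfl
  have hX1 : ∀ k, X k = 1 := by
    have hker : (⊤ : Subgroup K) ≤ X.ker := by
      rw [← h.perf, Subgroup.commutator_le]
      intro a _ b _
      rw [MonoidHom.mem_ker, map_commutatorElement, commutatorElement_eq_one_iff_mul_comm]
      exact hcent a (X b)
    intro k
    exact hker (Subgroup.mem_top k)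
  have hk : ρ (α k) = M * ρ k * M⁻¹ := by
    have h1 := hX1 k
    rw [hX, inv_mul_eq_one] at h1
    rw [h1]
    group
  have h2 : U (pact s c) * ρ (α k) = raE (Cl.par c) * (M * (U c * ρ k) * M⁻¹) := by
    rw [hM', hk]
    group
  rw [h2, raE_val, Matrix.trace_smul, smul_eq_mul, Units.val_mul (M * (U c * ρ k)) M⁻¹,
    Matrix.trace_mul_comm, ← Units.val_mul]
  congr 3
  group

end Pool.Agent.Helper81.AN
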