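import Pool.Agent.Helper81.AN.Rot

/-!
# ALT-06: the support of the self-associate spin class functions

`L` a group of permutations of `ι` (`h0 : L → Perm ι` injective) which contains with every element all its
cycles (`hcyc`). Let `χ` be a class function on `Cl ι ⋊ L` with `χ(z x) = -χ(x)`. If `x` is even
(`BG.par x = 1`) and `χ(x) ≠ 0`, then the permutation part of `x` has odd order and `x` is conjugate by an
element of `Cl ι` to `z^e` times its permutation part.

PROOF. Let `x = c g`, `c ∈ Cl ι` with support `A`, `σ = h0 g`. If `x` is conjugate to `z x` then `χ(x) = 0`.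
(1) `|A|` is even. Let `O` be a cycle of `σ` (a set of points, possibly one point) with `|A ∩ O|` odd. Let `b` be an
element of `Cl ι` with support `A ∩ O` and let `τ ∈ L` be the cycle of `σ` on `O` (`hcyc`; `τ = 1` if `O` is a point),
`y = b τ`. We claim `y x = z x y`: write `x = ± (b τ) (b' σ')` with `supp b' = A \ O`, `σ' = τ⁻¹ σ`, which fixes `O`
pointwise. Then `b τ` commutes with `b' σ'` up to `z^(|A ∩ O| |A \ O|)` (`τ` fixes all points of `A \ O`, `σ'` fixes
all points of `A ∩ O`, `τ σ' = σ' τ`, and `Cl.comm_eq` for disjoint supports), and `|A \ O|` is odd. So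
`x` is conjugate to `z x`, contradiction. Hence `|A ∩ O|` is even for all cycles `O`.
(2) Conjugation of `x` by `a_j` changes the support of the `Cl`-part by `{j, σ j}` (`a_j c g a_j⁻¹ = a_j c a_{σ j} g`). As
`|A ∩ O|` is even for all cycles, one reaches the empty support: strong induction over `|A|`, or: the
map `B ↦ B + σ B` of `(ZMod 2)^ι` has as image all `A` with `|A ∩ O|` even for all `O`. So `x` is conjugate by
`Cl ι` to `z^e g`. [Linear algebra alternative: choose for each cycle a starting point and take partial sums.]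
(3) If the order of `σ` is even then some cycle `O` has even length `k`; with `c_O` of support `O`:
`c_O g c_O⁻¹ = c_O (pact σ c_O)⁻¹ g = z^(k-1) g` (`pact_cycle`), so `g` is conjugate to `z g` and `χ(z^e g) = 0`,
contradiction (`odd_order_iff`).
-/

set_option autoImplicit false

open Equiv

namespace Pool.Agent.Helper81.AN

open Pool.Agent.Helper42.INC

variable {ι : Type} [Fintype ι] [DecidableEq ι] {L : Type} [Group L] [Finite L] (h0 : L →* Perm ι)

omit [Finite L] in
/-- the support mod 2 of each cycle -/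
theorem move_to_zero (σ : Perm ι) (A : ι → ZMod 2)
    (hA : ∀ x, ∑ y, (if σ.SameCycle x y then A y else 0) = 0) :
    ∃ B : ι → ZMod 2, ∀ y, A (σ y) = B y + B (σ y) := by
  classical
  have := Fact.mk Nat.prime_two
  let T : (ι → ZMod 2) →ₗ[ZMod 2] (ι → ZMod 2) :=
    { toFun := fun B y => B y + B (σ y)
      map_add' := fun B B' => by
        funext y
        simp only [Pi.add_apply]
        ring
      map_smul' := fun c B => by
        funext y
        simp only [Pi.smul_apply, smul_eq_mul, RingHom.id_apply]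
        ring }
  by_contra hcon
  have hv : (fun y => A (σ y)) ∉ LinearMap.range T := by
    rintro ⟨B, hB⟩
    exact hcon ⟨B, fun y => (congrFun hB y).symm⟩
  obtain ⟨f, hf, hle⟩ := Submodule.exists_le_ker_of_notMem hv
  have hfe : ∀ g : ι → ZMod 2, f g = ∑ y, g y * f (Pi.single y 1) := by
    intro g
    conv_lhs => rw [pi_eq_sum_univ' g]
    rw [map_sum]
    refine Finset.sum_congr rfl fun y _ => ?_
    rw [map_smul, smul_eq_mul]
  have hinv : ∀ y, f (Pi.single (σ y) 1) = f (Pi.single y 1) := by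
    intro y
    have h1 : T (Pi.single (σ y) 1) = Pi.single (σ y) 1 + Pi.single y 1 := by
      funext w
      change (Pi.single (σ y) 1 : ι → ZMod 2) w + (Pi.single (σ y) 1 : ι → ZMod 2) (σ w) = _
      rw [Pi.add_apply]
      congr 1
      rw [Pi.single_apply, Pi.single_apply]
      congr 1
      rw [σ.injective.eq_iff]
    have h2 : f (T (Pi.single (σ y) 1)) = 0 := hle ⟨_, rfl⟩
    rw [h1, map_add] at h2
    exact CharTwo.add_eq_zero.1 h2
  have hcyc' : ∀ x y, σ.SameCycle x y → f (Pi.single x 1) = f (Pi.single y 1) := by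
    have hn : ∀ (n : ℕ) (x : ι), f (Pi.single ((σ ^ n) x) 1) = f (Pi.single x 1) := by
      intro n
      induction n with
      | zero => intro x; rfl
      | succ n ih =>
        intro x
        rw [pow_succ', Perm.mul_apply, hinv, ih]
    intro x y hxy
    obtain ⟨n, hn'⟩ := hxy.exists_nat_pow_eq
    rw [← hn', hn]
  apply hf
  rw [hfe]
  have h3 : ∑ y, A (σ y) * f (Pi.single y 1) = ∑ y, A y * f (Pi.single y 1) := by
    rw [← Equiv.sum_comp σ (fun y => A y * f (Pi.single y 1))]
    refine Finset.sum_congr rfl fun y _ => ?_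
    rw [hinv]
  rw [h3]
  refine Finset.sum_cancels_of_partition_cancels (Equiv.Perm.SameCycle.setoid σ) fun x _ => ?_
  have h4 : ∑ a ∈ Finset.univ with (Equiv.Perm.SameCycle.setoid σ) a x, A a * f (Pi.single a 1) =
      (∑ y, (if σ.SameCycle x y then A y else 0)) * f (Pi.single x 1) := by
    rw [Finset.sum_mul, Finset.sum_filter]
    refine Finset.sum_congr rfl fun y _ => ?_
    have h5 : (Equiv.Perm.SameCycle.setoid σ) y x ↔ σ.SameCycle x y := Equiv.Perm.sameCycle_comm
    by_cases h6 : σ.SameCycle x y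
    · rw [if_pos h6, if_pos (h5.2 h6), hcyc' x y h6]
    · rw [if_neg h6, if_neg (fun h7 => h6 (h5.1 h7)), zero_mul]
  rw [h4, hA, zero_mul]

omit [Fintype ι] in
private theorem exists_prodF (s : Finset ι) :
    ∃ P : Cl ι, (∀ σ : Perm ι, (∀ i ∈ s, σ i = i) → pact σ P = P) ∧
      ∀ i, Multiplicative.toAdd (Cl.supp P) i = if i ∈ s then 1 else 0 := by
  induction s using Finset.induction_on with
  | empty =>
    refine ⟨1, fun σ _ => map_one _, fun i => ?_⟩
    rw [map_one]
    simp
  | insert j s hj ih =>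
    obtain ⟨P, hP, hs⟩ := ih
    refine ⟨Cl.a j * P, fun σ h => ?_, fun i => ?_⟩
    · rw [map_mul, pact_a, hP σ (fun i hi => h i (Finset.mem_insert_of_mem hi)),
        h j (Finset.mem_insert_self _ _)]
    · rw [map_mul, toAdd_mul, Pi.add_apply, hs, Cl.supp_a, toAdd_ofAdd, Pi.single_apply]
      by_cases hij : i = j
      · subst hij
        rw [if_pos rfl, if_neg hj, if_pos (Finset.mem_insert_self _ _), add_zero]
      · rw [if_neg hij, zero_add]
        by_cases his : i ∈ s
        · rw [if_pos his, if_pos (Finset.mem_insert_of_mem his)]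
        · rw [if_neg his, if_neg]
          rw [Finset.mem_insert]
          tauto

omit [Finite L] in
private theorem pact_fix (σ : Perm ι) (c : Cl ι)
    (h : ∀ i, Multiplicative.toAdd (Cl.supp c) i ≠ 0 → σ i = i) : pact σ c = c := by
  classical
  obtain ⟨P, hP, hs⟩ := exists_prodF
    (Finset.univ.filter fun i => Multiplicative.toAdd (Cl.supp c) i ≠ 0)
  have h1 : Cl.supp c = Cl.supp P := by
    apply Multiplicative.toAdd.injective
    funext i
    rw [hs]
    have h01 : ∀ t : ZMod 2, t = if t ≠ 0 then 1 else 0 := by decide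
    by_cases hi : Multiplicative.toAdd (Cl.supp c) i ≠ 0
    · rw [if_pos (by simpa using hi)]
      have := h01 (Multiplicative.toAdd (Cl.supp c) i)
      rw [if_pos hi] at this
      exact this
    · rw [if_neg (by simpa using hi)]
      push Not at hi
      exact hi
  obtain ⟨e, he⟩ := Cl.eq_of_supp h1
  rw [he, map_mul, pact_zp, hP σ (fun i hi => h i (by simpa using hi))]

omit [Fintype ι] [DecidableEq ι] [Finite L] in
private theorem conj_zero (χ : BP h0 → ℂ) (hc : IsClass χ) (hz : ∀ x, χ (BG.z _ * x) = -χ x)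
    (x y : BP h0) (h : y * x = BP.l h0 Cl.z * (x * y)) : χ x = 0 := by
  have h1 : y * x * y⁻¹ = BG.z _ * x := by
    rw [h, BP.z_eq, ← mul_assoc, mul_inv_cancel_right]
  have h2 := hc y x
  rw [h1, hz] at h2
  have h3 : (2 : ℂ) * χ x = 0 := by
    linear_combination -h2
  exact (mul_eq_zero.1 h3).resolve_left two_ne_zero

omit [Finite L] in
/-- step (1) -/
theorem even_on_cycles (hinj : Function.Injective h0)
    (hcyc : ∀ g : L, ∀ c ∈ (h0 g).cycleFactorsFinset, c ∈ h0.range)
    (χ : BP h0 → ℂ) (hc : IsClass χ) (hz : ∀ x, χ (BG.z _ * x) = -χ x) (x : BP h0)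
    (hx : BG.par _ x = 1) (hne : χ x ≠ 0) (i : ι) :
    ∑ y, (if (h0 x.right).SameCycle i y then Multiplicative.toAdd (Cl.supp x.left) y else 0) =
      0 := by
  classical
  by_contra hcon
  apply hne
  set σ := h0 x.right with hσ
  set A := Multiplicative.toAdd (Cl.supp x.left) with hA
  have h01 : ∀ t : ZMod 2, t ≠ 0 → t = 1 := by decide
  have hO : ∑ y, (if σ.SameCycle i y then A y else 0) = 1 := h01 _ hcon
  have htot : ∑ y, A y = 0 := by
    rw [hA, ← Cl.par_eq]
    rw [BP.eq h0 x, map_mul, BP.par_l, BP.par_r, mul_one] at hx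
    exact hx
  -- the cycle
  obtain ⟨τ, hτ⟩ : ∃ τ : L, h0 τ = σ.cycleOf i := by
    by_cases hfix : σ i = i
    · refine ⟨1, ?_⟩
      rw [map_one]
      exact ((Equiv.Perm.cycleOf_eq_one_iff σ).2 hfix).symm
    · have h1 : σ.cycleOf i ∈ σ.cycleFactorsFinset :=
        Equiv.Perm.cycleOf_mem_cycleFactorsFinset_iff.2 (Equiv.Perm.mem_support.2 hfix)
      obtain ⟨τ, hτ⟩ := hcyc x.right _ h1
      exact ⟨τ, hτ⟩
  have hcomm : τ * x.right = x.right * τ := by
    apply hinj
    rw [map_mul, map_mul, hτ]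
    ext1 y
    rw [Equiv.Perm.mul_apply, Equiv.Perm.mul_apply, Equiv.Perm.cycleOf_apply,
      Equiv.Perm.cycleOf_apply]
    change (if σ.SameCycle i (σ y) then σ (σ y) else σ y) = σ (if σ.SameCycle i y then σ y else y)
    by_cases h1 : σ.SameCycle i y
    · rw [if_pos h1, if_pos (Equiv.Perm.sameCycle_apply_right.2 h1)]
    · rw [if_neg h1, if_neg (fun h2 => h1 (Equiv.Perm.sameCycle_apply_right.1 h2))]
  obtain ⟨b, hb⟩ := Cl.supp_surjective (ι := ι)
    (Multiplicative.ofAdd fun y => if σ.SameCycle i y then A y else 0)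
  have hb' : ∀ y, Multiplicative.toAdd (Cl.supp b) y = if σ.SameCycle i y then A y else 0 := by
    intro y
    rw [hb]
    rfl
  set c' : Cl ι := b⁻¹ * x.left with hc'
  have hc's : ∀ y, Multiplicative.toAdd (Cl.supp c') y = if σ.SameCycle i y then 0 else A y := by
    intro y
    rw [hc', map_mul, map_inv, toAdd_mul, toAdd_inv, Pi.add_apply, Pi.neg_apply, hb']
    change _ + A y = _
    split_ifs <;> ring
  have hsplit : x = (BP.l h0 b * BP.r h0 τ) * (BP.l h0 c' * BP.r h0 (τ⁻¹ * x.right)) := by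
    have h1 : pact (h0 τ) c' = c' := by
      apply pact_fix
      intro y hy
      rw [hc's] at hy
      rw [hτ, Equiv.Perm.cycleOf_apply, if_neg]
      intro h2
      rw [if_pos h2] at hy
      exact hy rfl
    have h2 : BP.r h0 τ * BP.l h0 c' = BP.l h0 c' * BP.r h0 τ := by
      rw [BP.r_mul_l, h1]
    calc x = BP.l h0 x.left * BP.r h0 x.right := BP.eq h0 x
      _ = BP.l h0 b * BP.l h0 c' * (BP.r h0 τ * BP.r h0 (τ⁻¹ * x.right)) := by
          rw [← map_mul, ← map_mul, hc', mul_inv_cancel_left, mul_inv_cancel_left]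
      _ = _ := by
          simp only [mul_assoc]
          congr 1
          rw [← mul_assoc, ← mul_assoc, h2]
  have hyy : (BP.l h0 b * BP.r h0 τ) * (BP.l h0 c' * BP.r h0 (τ⁻¹ * x.right)) =
      BP.l h0 Cl.z * ((BP.l h0 c' * BP.r h0 (τ⁻¹ * x.right)) * (BP.l h0 b * BP.r h0 τ)) := by
    have h1 : pact (h0 (τ⁻¹ * x.right)) b = b := by
      apply pact_fix
      intro y hy
      rw [hb'] at hy
      have h2 : σ.SameCycle i y := by
        by_contra h3
        rw [if_neg h3] at hy
        exact hy rfl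
      rw [map_mul, map_inv, hτ, Equiv.Perm.mul_apply]
      change (σ.cycleOf i)⁻¹ (σ y) = y
      rw [Equiv.Perm.inv_eq_iff_eq, Equiv.Perm.cycleOf_apply, if_pos h2]
    have h2 : BP.r h0 (τ⁻¹ * x.right) * BP.l h0 b = BP.l h0 b * BP.r h0 (τ⁻¹ * x.right) := by
      rw [BP.r_mul_l, h1]
    have h3 : b * c' = Cl.z * (c' * b) := by
      have h4 := Cl.comm_eq b c'
      have e1 : ∑ i, Multiplicative.toAdd (Cl.supp b) i = 1 := by
        rw [← hO]
        exact Finset.sum_congr rfl fun y _ => hb' y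
      have e2 : ∑ i, Multiplicative.toAdd (Cl.supp c') i = 1 := by
        have e3 : ∑ y, Multiplicative.toAdd (Cl.supp c') y +
            ∑ y, Multiplicative.toAdd (Cl.supp b) y = 0 := by
          rw [← Finset.sum_add_distrib, ← htot]
          refine Finset.sum_congr rfl fun y _ => ?_
          rw [hc's, hb']
          split_ifs <;> ring
        rw [e1] at e3
        have h5 : ∀ t : ZMod 2, t + 1 = 0 → t = 1 := by decide
        exact h5 _ e3
      have e3 : ∑ i, Multiplicative.toAdd (Cl.supp b) i * Multiplicative.toAdd (Cl.supp c') i = 0 := by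
        apply Finset.sum_eq_zero
        intro y _
        rw [hc's, hb']
        split_ifs <;> ring
      rw [e1, e2, e3, mul_one, add_zero] at h4
      rw [h4]
      rfl
    have h5 : BP.l h0 b * BP.l h0 c' = BP.l h0 Cl.z * (BP.l h0 c' * BP.l h0 b) := by
      rw [← map_mul, h3, map_mul, map_mul]
    have h1' : pact (h0 τ) c' = c' := by
      apply pact_fix
      intro y hy
      rw [hc's] at hy
      rw [hτ, Equiv.Perm.cycleOf_apply, if_neg]
      intro h2
      rw [if_pos h2] at hy
      exact hy rfl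
    have h2' : BP.r h0 τ * BP.l h0 c' = BP.l h0 c' * BP.r h0 τ := by
      rw [BP.r_mul_l, h1']
    have h6 : BP.r h0 (τ⁻¹ * x.right) * BP.r h0 τ = BP.r h0 τ * BP.r h0 (τ⁻¹ * x.right) := by
      rw [← map_mul, ← map_mul]
      congr 1
      rw [mul_inv_cancel_left, mul_assoc, ← hcomm, inv_mul_cancel_left]
    calc (BP.l h0 b * BP.r h0 τ) * (BP.l h0 c' * BP.r h0 (τ⁻¹ * x.right))
        = BP.l h0 b * (BP.r h0 τ * BP.l h0 c') * BP.r h0 (τ⁻¹ * x.right) := by
          simp only [mul_assoc]
      _ = (BP.l h0 b * BP.l h0 c') * (BP.r h0 τ * BP.r h0 (τ⁻¹ * x.right)) := by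
          rw [h2']
          simp only [mul_assoc]
      _ = BP.l h0 Cl.z * (BP.l h0 c' * (BP.l h0 b * BP.r h0 (τ⁻¹ * x.right)) * BP.r h0 τ) := by
          rw [h5, ← h6]
          simp only [mul_assoc]
      _ = _ := by
          rw [← h2]
          simp only [mul_assoc]
  set y := BP.l h0 b * BP.r h0 τ with hy
  set y' := BP.l h0 c' * BP.r h0 (τ⁻¹ * x.right) with hy'
  refine conj_zero h0 χ hc hz x y ?_
  have hzc : ∀ w : BP h0, BP.l h0 Cl.z * w = w * BP.l h0 Cl.z := by
    intro w
    have := (BG.cinv ((permH ι).comp h0)).comm w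
    rw [BP.z_eq] at this
    exact this
  calc y * x = y * (y * y') := by rw [← hsplit]
    _ = y * (BP.l h0 Cl.z * (y' * y)) := by rw [hyy]
    _ = BP.l h0 Cl.z * (y * y' * y) := by
        rw [← mul_assoc, ← hzc y]
        simp only [mul_assoc]
    _ = BP.l h0 Cl.z * (x * y) := by rw [← hsplit]

theorem supp_even (hinj : Function.Injective h0)
    (hcyc : ∀ g : L, ∀ c ∈ (h0 g).cycleFactorsFinset, c ∈ h0.range)
    (χ : BP h0 → ℂ) (hc : IsClass χ) (hz : ∀ x, χ (BG.z _ * x) = -χ x) (x : BP h0)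
    (hx : BG.par _ x = 1) (hne : χ x ≠ 0) :
    Odd (orderOf x.right) ∧ ∃ (c : Cl ι) (e : ZMod 2),
      x = BP.l h0 c * (BP.l h0 (Cl.zp e) * BP.r h0 x.right) * (BP.l h0 c)⁻¹ := by
  classical
  have h1 := even_on_cycles h0 hinj hcyc χ hc hz x hx hne
  obtain ⟨B, hB⟩ := move_to_zero (h0 x.right) _ h1
  obtain ⟨d, hd⟩ := Cl.supp_surjective (ι := ι) (Multiplicative.ofAdd B)
  have hsupp : Cl.supp x.left = Cl.supp (d * pact (h0 x.right) d⁻¹) := by
    apply Multiplicative.toAdd.injective
    funext y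
    obtain ⟨w, rfl⟩ := (h0 x.right).surjective y
    rw [hB w, map_mul, toAdd_mul, Pi.add_apply, supp_pact, map_inv, toAdd_inv, Pi.neg_apply, hd,
      toAdd_ofAdd]
    have h2 : ∀ s t : ZMod 2, s + t = t + -s := by decide
    exact h2 _ _
  obtain ⟨e, he⟩ := Cl.eq_of_supp hsupp
  have hxd : x = BP.l h0 d * (BP.l h0 (Cl.zp e) * BP.r h0 x.right) * (BP.l h0 d)⁻¹ := by
    have h3 : BP.l h0 x.left = BP.l h0 (Cl.zp e) * (BP.l h0 d * BP.l h0 (pact (h0 x.right) d⁻¹)) := by
      rw [← map_mul, ← map_mul, ← he]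
    calc x = BP.l h0 x.left * BP.r h0 x.right := BP.eq h0 x
      _ = BP.l h0 (Cl.zp e) * (BP.l h0 d * (BP.l h0 (pact (h0 x.right) d⁻¹) * BP.r h0 x.right)) := by
          rw [h3]
          simp only [mul_assoc]
      _ = BP.l h0 (Cl.zp e) * (BP.l h0 d * (BP.r h0 x.right * BP.l h0 d⁻¹)) := by
          rw [← BP.r_mul_l]
      _ = BP.l h0 (Cl.zp e * d) * (BP.r h0 x.right * BP.l h0 d⁻¹) := by
          rw [map_mul, mul_assoc]
      _ = _ := by
          rw [Cl.zp_comm, map_mul, map_inv]
          simp only [mul_assoc]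
  refine ⟨?_, d, e, hxd⟩
  rw [← orderOf_injective h0 hinj, odd_order_iff]
  intro i
  by_contra heven
  rw [Nat.not_odd_iff_even] at heven
  apply hne
  obtain ⟨c, hc2⟩ := Cl.supp_surjective (ι := ι)
    (Multiplicative.ofAdd fun y => if (h0 x.right).SameCycle i y then 1 else 0)
  have hcs : ∀ y, Multiplicative.toAdd (Cl.supp c) y =
      if (h0 x.right).SameCycle i y then 1 else 0 := by
    intro y
    rw [hc2]
    rfl
  have hpos : 0 < cyLen (h0 x.right) i := by
    unfold cyLen
    have : Nonempty {y : ι // (h0 x.right).SameCycle i y} := ⟨⟨i, Equiv.Perm.SameCycle.refl _ _⟩⟩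
    exact Nat.card_pos
  have hrot := pact_cycle (h0 x.right) i c hcs
  have hz1 : (Cl.zp ((cyLen (h0 x.right) i - 1 : ℕ) : ZMod 2) : Cl ι) = Cl.z := by
    have h3 : Odd (cyLen (h0 x.right) i - 1) := Nat.Even.sub_odd hpos heven odd_one
    have h4 : ((cyLen (h0 x.right) i - 1 : ℕ) : ZMod 2) = 1 := by
      rw [ZMod.natCast_eq_one_iff_odd]
      exact h3
    rw [h4]
    rfl
  rw [hz1] at hrot
  set v : BP h0 := BP.l h0 (Cl.zp e) * BP.r h0 x.right with hv
  have hχ : χ x = χ v := by
    conv_lhs => rw [hxd]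
    exact hc _ _
  rw [hχ]
  refine conj_zero h0 χ hc hz v (BP.l h0 c) ?_
  have h5 : BP.r h0 x.right * BP.l h0 c = BP.l h0 Cl.z * (BP.l h0 c * BP.r h0 x.right) := by
    rw [BP.r_mul_l, hrot, map_mul, mul_assoc]
  have h6 : BP.l h0 c * BP.l h0 (Cl.zp e) = BP.l h0 (Cl.zp e) * BP.l h0 c := by
    rw [← map_mul, ← map_mul, Cl.zp_comm]
  have h7 : BP.l h0 (Cl.zp e) * BP.l h0 Cl.z = BP.l h0 Cl.z * BP.l h0 (Cl.zp e) := by
    rw [← map_mul, ← map_mul, Cl.z_comm]
  have h8 : BP.l h0 Cl.z * BP.l h0 Cl.z = 1 := by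
    rw [← map_mul]
    have := Cl.z_sq (ι := ι)
    rw [pow_two] at this
    rw [this, map_one]
  calc BP.l h0 c * v = BP.l h0 (Cl.zp e) * (BP.l h0 c * BP.r h0 x.right) := by
        rw [hv, ← mul_assoc, h6, mul_assoc]
    _ = (BP.l h0 Cl.z * BP.l h0 Cl.z) * (BP.l h0 (Cl.zp e) * (BP.l h0 c * BP.r h0 x.right)) := by
        rw [h8, one_mul]
    _ = BP.l h0 Cl.z * (BP.l h0 (Cl.zp e) * (BP.l h0 Cl.z * (BP.l h0 c * BP.r h0 x.right))) := by
        rw [← mul_assoc (BP.l h0 (Cl.zp e)) (BP.l h0 Cl.z), h7]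
        simp only [mul_assoc]
    _ = BP.l h0 Cl.z * (v * BP.l h0 c) := by
        rw [← h5, hv]
        simp only [mul_assoc]

end Pool.Agent.Helper81.AN
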