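import Pool.Agent.Helper81.AN.TenDefs
import Pool.Agent.Helper42.INC.Schur

/-!
# AN-02: the tensor tool: irreducibility and injectivity

`Φ : X → (GL_d × Y) / (-1, z)`; for `ψ` an irreducible character of `Y` with `ψ(z) = -ψ(1)` the
function `x ↦ tr(A) ψ(y)`, `Φ(x) = [(A, y)]`, is an irreducible character of `X`, and different
`ψ` give different characters.

PROOF. Let `ρ : Y → GL(W)` afford `ψ`. By `irrZ_neg` and Schur, `ρ(z) = -1` (`ρ(z)` is scalar, see
`exists_central` in `Helper42/INC/Inflate.lean`, and `ψ(z) = -ψ(1)`).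
So `(A, y) ↦ A ⊗ ρ(y)` is trivial on `(-1, z)` and defines a representation of `QQ d z` on
`(Fin d → ℂ) ⊗ W` (take `TensorProduct.map (Matrix.toLin' A) (ρ y)`; the kernel of
`GL × Y → GL(..)` contains `NQ`, use `QuotientGroup.lift`), and by composition with `Φ` a
representation `R_ψ` of `X` with character `tr(A) ψ(y)` (`LinearMap.trace_tensorProduct'`).
Let `T : R_ψ' → R_ψ` be an intertwining map. By `hspan`, `T` commutes with `A ⊗ 1` for all
matrices `A`; with matrix units `E_ij` it follows that `T = 1 ⊗ T'`,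
`T' : W' → W`. By `hy` (for every `y` there is `x` with `Φ(x) = [(A, y)]`, and `A` is invertible)
`T'` intertwines `ρ'` and `ρ`. Hence `Hom_X(R_ψ', R_ψ) ≅ Hom_Y(ρ', ρ)`, and by `B_char`-type
arguments (`B χ χ' = dim Hom`, `Representation.card_inv_mul_sum_char_mul_char_eq_finrank`)
`B (χ_ψ) (χ_ψ') = B ψ ψ'`. This is all that is needed: `irr_of_norm_one` (or the direct
argument that the commutant is scalar) and `B_irr`.

ALTERNATIVE without `Hom`: it suffices to prove `B (χ_ψ) (χ_ψ') = B ψ ψ'` by a computation with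
sums: the set `{(A, y) : [(A, y)] ∈ range Φ}` is a subgroup `G` of `GL_d × Y`, finite, and its subgroup
`G1 = {A : (A, 1) ∈ G}` acts irreducibly on `ℂ^d` (its span is everything), so for every
`A`: `Σ_{A' ∈ G1} tr(A A') tr((A A')⁻¹) = |G1|`.
-/

set_option autoImplicit false

open Matrix
open scoped TensorProduct

namespace Pool.Agent.Helper81.AN

open Pool.Agent.Helper42.INC

/-- the natural representation of `GL_d` -/
noncomputable def glRep (d : ℕ) : Representation ℂ (GL (Fin d) ℂ) (Fin d → ℂ) where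
  toFun A := Matrix.toLin' (A : Matrix (Fin d) (Fin d) ℂ)
  map_one' := by
    rw [Units.val_one, Matrix.toLin'_one]
    rfl
  map_mul' A B := by
    rw [Units.val_mul, Matrix.toLin'_mul]
    rfl

theorem glRep_apply (d : ℕ) (A : GL (Fin d) ℂ) :
    glRep d A = Matrix.toLin' (A : Matrix (Fin d) (Fin d) ℂ) := rfl

theorem glRep_char (d : ℕ) (A : GL (Fin d) ℂ) :
    (glRep d).character A = (A : Matrix (Fin d) (Fin d) ℂ).trace := by
  unfold Representation.character
  rw [glRep_apply, Matrix.trace_toLin'_eq]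

/-- `ρ z = -1` -/
theorem rho_z {Y : Type} [Group Y] [Finite Y] {z : Y} (hz : CInv z) {W : Type} [AddCommGroup W]
    [Module ℂ W] [FiniteDimensional ℂ W] (ρ : Representation ℂ Y W) (hρ : ρ.IsIrreducible)
    (h : ρ.character z = -1 * ρ.character 1) : ρ z = -LinearMap.id := by
  let F : Representation.IntertwiningMap ρ ρ := ⟨ρ z, fun g => by
    change ρ z * ρ g = ρ g * ρ z
    rw [← map_mul, ← map_mul, hz.comm]⟩
  obtain ⟨a, ha⟩ :=
    (Representation.IsIrreducible.algebraMap_intertwiningMap_bijective_of_isAlgClosed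
      (ρ := ρ)).2 F
  have h1 : ρ z = a • LinearMap.id := by
    have : F.toLinearMap = a • LinearMap.id := by
      rw [← ha]; rfl
    exact this
  have hfin := finrank_ne_zero_of_irr ρ
  have h2 : a * (Module.finrank ℂ W : ℂ) = -1 * (Module.finrank ℂ W : ℂ) := by
    have h3 : ρ.character z = a * (Module.finrank ℂ W : ℂ) := by
      unfold Representation.character
      rw [h1, map_smul, LinearMap.trace_id, smul_eq_mul]
    rw [← h3, h, Representation.char_one]
  have h4 : a = -1 := mul_right_cancel₀ hfin h2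
  rw [h1, h4, neg_one_smul]

/-- the tensor product representation of the quotient group -/
noncomputable def tenRep {Y : Type} [Group Y] {z : Y} (hz : CInv z) (d : ℕ) {W : Type}
    [AddCommGroup W] [Module ℂ W] (ρ : Representation ℂ Y W) (h : ρ z = -LinearMap.id) :
    Representation ℂ (QQ d z) ((Fin d → ℂ) ⊗[ℂ] W) :=
  QuotientGroup.lift (NQ d z)
    (Representation.tprod ((glRep d).comp (MonoidHom.fst (GL (Fin d) ℂ) Y))
      (ρ.comp (MonoidHom.snd (GL (Fin d) ℂ) Y))) (by
    intro x hx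
    rcases (mem_NQ d z hz x).1 hx with rfl | rfl
    · exact one_mem _
    · rw [MonoidHom.mem_ker]
      have h1 : (Representation.tprod ((glRep d).comp (MonoidHom.fst (GL (Fin d) ℂ) Y))
          (ρ.comp (MonoidHom.snd (GL (Fin d) ℂ) Y))) (-1, z) =
          TensorProduct.map (glRep d (-1)) (ρ z) := rfl
      rw [h1, h, glRep_apply]
      have h2 : Matrix.toLin' (((-1 : GL (Fin d) ℂ) : GL (Fin d) ℂ) : Matrix (Fin d) (Fin d) ℂ) =
          -LinearMap.id := by
        rw [Units.val_neg, Units.val_one, map_neg, Matrix.toLin'_one]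
      rw [h2]
      ext v w
      simp [TensorProduct.neg_tmul, TensorProduct.tmul_neg])

theorem tenRep_char {Y : Type} [Group Y] {z : Y} (hz : CInv z) (d : ℕ) {W : Type}
    [AddCommGroup W] [Module ℂ W] [FiniteDimensional ℂ W] (ρ : Representation ℂ Y W)
    (h : ρ z = -LinearMap.id) (A : GL (Fin d) ℂ) (y : Y) :
    (tenRep hz d ρ h).character (qmk d z (A, y)) =
      (A : Matrix (Fin d) (Fin d) ℂ).trace * ρ.character y := by
  have h1 : (tenRep hz d ρ h).character (qmk d z (A, y)) =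
      (Representation.tprod ((glRep d).comp (MonoidHom.fst (GL (Fin d) ℂ) Y))
      (ρ.comp (MonoidHom.snd (GL (Fin d) ℂ) Y))).character (A, y) := rfl
  rw [h1, Representation.char_tensor, Pi.mul_apply]
  have h2 : Representation.character ((glRep d).comp (MonoidHom.fst (GL (Fin d) ℂ) Y)) (A, y) =
    (glRep d).character A := rfl
  rw [h2, glRep_char]
  rfl

/-- the map to `Y / ⟨z⟩` -/
theorem zpow_normal {Y : Type} [Group Y] {z : Y} (hz : CInv z) : (Subgroup.zpowers z).Normal := by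
  refine ⟨?_⟩
  rintro _ ⟨n, rfl⟩ g
  refine ⟨n, ?_⟩
  have h : Commute g z := (hz.comm g).symm
  have h2 : g * z ^ n = z ^ n * g := (h.zpow_right n).eq
  change z ^ n = g * z ^ n * g⁻¹
  rw [h2, mul_inv_cancel_right]

theorem mem_zp {Y : Type} [Group Y] {z : Y} (hz : CInv z) (y : Y) :
    y ∈ Subgroup.zpowers z ↔ y = 1 ∨ y = z := by
  constructor
  · rintro ⟨n, rfl⟩
    have h2 : z ^ (2 : ℤ) = 1 := by
      rw [zpow_two, hz.sq]
    rcases Int.even_or_odd' n with ⟨k, rfl | rfl⟩
    · left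
      change z ^ (2 * k) = 1
      rw [_root_.zpow_mul, h2, _root_.one_zpow]
    · right
      change z ^ (2 * k + 1) = z
      rw [_root_.zpow_add, _root_.zpow_mul, h2, _root_.one_zpow, one_mul, zpow_one]
  · rintro (rfl | rfl)
    · exact one_mem _
    · exact Subgroup.mem_zpowers _

section main

variable {X Y : Type} [Group X] [Finite X] [Group Y] [Finite Y] {z : Y} (hz : CInv z)
    (d : ℕ) (hd : 0 < d) (Φ : X →* QQ d z)

omit [Finite Y] in
include hz in
/-- averaging over the preimage of `GL_d` -/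
theorem ten_avg (hd : 0 < d) (hspan : Submodule.span ℂ {M : Matrix (Fin d) (Fin d) ℂ |
      ∃ (x : X) (A : GL (Fin d) ℂ),
      (A : Matrix (Fin d) (Fin d) ℂ) = M ∧ Φ x = qmk d z (A, 1)} = ⊤)
    (K : Subgroup X) [Fintype K] (hK : ∀ x, x ∈ K ↔ ∃ A : GL (Fin d) ℂ, Φ x = qmk d z (A, 1))
    {ψ ψ' : Y → ℂ} (hψ : ∀ y, ψ (z * y) = -ψ y) (hψ' : ∀ y, ψ' (z * y) = -ψ' y)
    (x : X) (A : GL (Fin d) ℂ) (y : Y) (hx : Φ x = qmk d z (A, y)) :
    ∑ m : K, tauQ ψ (Φ (m * x)) * tauQ ψ' (Φ (m * x)⁻¹) = (Nat.card K : ℂ) * (ψ y * ψ' y⁻¹) := by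
  classical
  -- the representation of K
  have hex : ∀ m : K, ∃ A : GL (Fin d) ℂ, Φ m = qmk d z (A, 1) := fun m => (hK m).1 m.2
  choose a ha using hex
  have huniq : ∀ A B : GL (Fin d) ℂ, qmk d z (A, 1) = qmk d z (B, 1) → A = B := by
    intro A B h
    rcases (qmk_eq d z hz _ _ _ _).1 h with h1 | h1
    · exact h1.1
    · exfalso
      apply hz.ne
      have := h1.2
      rw [mul_one] at this
      exact this.symm
  let aH : K →* GL (Fin d) ℂ :=
    { toFun := a
      map_one' := by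
        apply huniq
        rw [← ha, Subgroup.coe_one, map_one]
        exact (map_one (qmk d z)).symm
      map_mul' := by
        intro m m'
        apply huniq
        rw [← ha, Subgroup.coe_mul, map_mul, ha, ha, ← map_mul, Prod.mk_mul_mk, one_mul] }
  have haH : ∀ m, aH m = a m := fun _ => rfl
  let α : Representation ℂ K (Fin d → ℂ) := (glRep d).comp aH
  have hα : ∀ m, α m = Matrix.toLin' (a m : Matrix (Fin d) (Fin d) ℂ) := fun _ => rfl
  have hirr : α.IsIrreducible := by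
    rw [Helper42.INC.isIrreducible_iff]
    constructor
    · have : Nonempty (Fin d) := ⟨⟨0, hd⟩⟩
      infer_instance
    · intro W hW
      -- W is stable under all matrices
      have hall : ∀ M : Matrix (Fin d) (Fin d) ℂ, ∀ v ∈ W, Matrix.toLin' M v ∈ W := by
        intro M v hv
        have hM : M ∈ Submodule.span ℂ {M : Matrix (Fin d) (Fin d) ℂ |
            ∃ (x : X) (A : GL (Fin d) ℂ),
            (A : Matrix (Fin d) (Fin d) ℂ) = M ∧ Φ x = qmk d z (A, 1)} := by
          rw [hspan]; trivial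
        induction hM using Submodule.span_induction with
        | mem N hN =>
          obtain ⟨x, A, rfl, hxA⟩ := hN
          have hxK : x ∈ K := (hK x).2 ⟨A, hxA⟩
          have h1 : a ⟨x, hxK⟩ = A := by
            apply huniq
            rw [← ha, hxA]
          have h2 := hW ⟨x, hxK⟩ v hv
          rw [hα, h1] at h2
          exact h2
        | zero => simp
        | add N N' _ _ h1 h2 =>
          rw [map_add, LinearMap.add_apply]
          exact W.add_mem h1 h2
        | smul c N _ h1 =>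
          rw [map_smul, LinearMap.smul_apply]
          exact W.smul_mem c h1
      by_cases hbot : W = ⊥
      · exact Or.inl hbot
      · right
        obtain ⟨v, hv, hv0⟩ := (Submodule.ne_bot_iff W).1 hbot
        obtain ⟨j, hj⟩ : ∃ j, v j ≠ 0 := by
          by_contra hcon
          push Not at hcon
          exact hv0 (funext hcon)
        rw [eq_top_iff]
        intro w _
        have h1 := hall (Matrix.vecMulVec w (Pi.single j (v j)⁻¹)) v hv
        rw [Matrix.toLin'_apply] at h1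
        have h2 : Matrix.vecMulVec w (Pi.single j (v j)⁻¹) *ᵥ v = w := by
          ext i
          rw [Matrix.mulVec, dotProduct]
          rw [Finset.sum_eq_single j]
          · rw [Matrix.vecMulVec_apply, Pi.single_eq_same, mul_assoc, inv_mul_cancel₀ hj, mul_one]
          · intro k _ hk
            rw [Matrix.vecMulVec_apply, Pi.single_eq_of_ne hk, mul_zero, zero_mul]
          · intro h; exact absurd (Finset.mem_univ _) h
        rw [h2] at h1
        exact h1
  have hterm : ∀ m : K, tauQ ψ (Φ (m * x)) * tauQ ψ' (Φ (m * x)⁻¹) =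
      (ψ y * ψ' y⁻¹) * (LinearMap.trace ℂ (Fin d → ℂ)
        (Matrix.toLin' ((A⁻¹ : GL (Fin d) ℂ) : Matrix (Fin d) (Fin d) ℂ) ∘ₗ α m⁻¹) *
        LinearMap.trace ℂ (Fin d → ℂ) (α m ∘ₗ Matrix.toLin' (A : Matrix (Fin d) (Fin d) ℂ))) := by
    intro m
    have h1 : Φ (m * x) = qmk d z (a m * A, y) := by
      rw [map_mul, ha, hx, ← map_mul, Prod.mk_mul_mk, one_mul]
    have h2 : Φ (m * x)⁻¹ = qmk d z (A⁻¹ * a m⁻¹, y⁻¹) := by
      rw [map_inv, h1, ← map_inv]
      congr 1
      rw [Prod.inv_mk, _root_.mul_inv_rev]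
      congr 2
      rw [← haH, ← haH, map_inv]
    rw [h1, h2, tauQ_mk hz ψ hψ, tauQ_mk hz ψ' hψ']
    have h3 : LinearMap.trace ℂ (Fin d → ℂ) (α m ∘ₗ
        Matrix.toLin' (A : Matrix (Fin d) (Fin d) ℂ)) =
        ((a m * A : GL (Fin d) ℂ) : Matrix (Fin d) (Fin d) ℂ).trace := by
      rw [hα, ← Matrix.toLin'_mul, Matrix.trace_toLin'_eq, Units.val_mul]
    have h4 : LinearMap.trace ℂ (Fin d → ℂ)
        (Matrix.toLin' ((A⁻¹ : GL (Fin d) ℂ) : Matrix (Fin d) (Fin d) ℂ) ∘ₗ α m⁻¹) =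
        ((A⁻¹ * a m⁻¹ : GL (Fin d) ℂ) : Matrix (Fin d) (Fin d) ℂ).trace := by
      rw [hα, ← Matrix.toLin'_mul, Matrix.trace_toLin'_eq, Units.val_mul]
    rw [h3, h4]
    ring
  rw [Finset.sum_congr rfl (fun m _ => hterm m), ← Finset.mul_sum]
  have hs := schur_trace (M := K) α
    (Matrix.toLin' ((A⁻¹ : GL (Fin d) ℂ) : Matrix (Fin d) (Fin d) ℂ))
    (Matrix.toLin' (A : Matrix (Fin d) (Fin d) ℂ))
  rw [hs, ← Matrix.toLin'_mul, ← Units.val_mul, inv_mul_cancel, Units.val_one, Matrix.toLin'_one,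
    LinearMap.trace_id]
  have hf : (Module.finrank ℂ (Fin d → ℂ) : ℂ) ≠ 0 := by
    rw [Module.finrank_fin_fun]
    exact_mod_cast hd.ne'
  rw [div_mul_cancel₀ _ hf, mul_comm]

end main

theorem ten_B {X Y : Type} [Group X] [Finite X] [Group Y] [Finite Y] {z : Y} (hz : CInv z)
    (d : ℕ) (hd : 0 < d) (Φ : X →* QQ d z)
    (hy : ∀ y : Y, ∃ (x : X) (A : GL (Fin d) ℂ), Φ x = qmk d z (A, y))
    (hspan : Submodule.span ℂ {M : Matrix (Fin d) (Fin d) ℂ | ∃ (x : X) (A : GL (Fin d) ℂ),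
      (A : Matrix (Fin d) (Fin d) ℂ) = M ∧ Φ x = qmk d z (A, 1)} = ⊤)
    {ψ ψ' : Y → ℂ} (hψ : ψ ∈ IrrZ z (-1)) (hψ' : ψ' ∈ IrrZ z (-1)) :
    B (fun x => tauQ ψ (Φ x)) (fun x => tauQ ψ' (Φ x)) = B ψ ψ' := by
  classical
  have := Fintype.ofFinite X
  have := Fintype.ofFinite Y
  have hψz := irrZ_neg hz hψ
  have hψz' := irrZ_neg hz hψ'
  have hN : (Subgroup.zpowers z).Normal := zpow_normal hz
  -- the map to Y / ⟨z⟩
  let π : Y →* Y ⧸ Subgroup.zpowers z := QuotientGroup.mk' _
  have hπ : Function.Surjective π := QuotientGroup.mk'_surjective _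
  have hπeq : ∀ y y', π y = π y' ↔ y = y' ∨ y = z * y' := by
    intro y y'
    have h1 : π y = π y' ↔ y⁻¹ * y' ∈ Subgroup.zpowers z := QuotientGroup.eq
    rw [h1, mem_zp hz]
    constructor
    · rintro (h | h)
      · left; exact inv_mul_eq_one.1 h
      · right
        have h2 := inv_mul_eq_iff_eq_mul.1 h
        rw [h2, ← hz.comm, ← mul_assoc, hz.sq, one_mul]
    · rintro (rfl | rfl)
      · left; exact inv_mul_cancel _
      · right
        rw [inv_mul_eq_iff_eq_mul, ← hz.comm, ← mul_assoc, hz.sq, one_mul]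
  let κ : QQ d z →* Y ⧸ Subgroup.zpowers z :=
    QuotientGroup.lift (NQ d z) (π.comp (MonoidHom.snd (GL (Fin d) ℂ) Y)) (by
      intro x hx
      rcases (mem_NQ d z hz x).1 hx with rfl | rfl
      · exact one_mem _
      · rw [MonoidHom.mem_ker]
        change π z = 1
        rw [← map_one π, hπeq]
        right; rw [mul_one])
  have hκ : ∀ A y, κ (qmk d z (A, y)) = π y := fun _ _ => rfl
  have hqs : ∀ q : QQ d z, ∃ A y, q = qmk d z (A, y) := by
    intro q
    obtain ⟨⟨A, y⟩, h⟩ := QuotientGroup.mk'_surjective (NQ d z) q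
    exact ⟨A, y, h.symm⟩
  let g : X →* Y ⧸ Subgroup.zpowers z := κ.comp Φ
  have hg : Function.Surjective g := by
    intro q
    obtain ⟨y, rfl⟩ := hπ q
    obtain ⟨x, A, hx⟩ := hy y
    exact ⟨x, by change κ (Φ x) = π y; rw [hx, hκ]⟩
  -- the function on the quotient
  let F : Y ⧸ Subgroup.zpowers z → ℂ := fun q =>
    ψ (Function.surjInv hπ q) * ψ' (Function.surjInv hπ q)⁻¹
  have hF : ∀ y, F (π y) = ψ y * ψ' y⁻¹ := by
    intro y
    have h1 : π (Function.surjInv hπ (π y)) = π y := Function.surjInv_eq hπ (π y)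
    change ψ (Function.surjInv hπ (π y)) * ψ' (Function.surjInv hπ (π y))⁻¹ = _
    rcases (hπeq _ _).1 h1 with h | h
    · rw [h]
    · rw [h, hψz, _root_.mul_inv_rev, inv_eq_of_mul_eq_one_left hz.sq, ← hz.comm, hψz']
      ring
  -- sums over Y
  have hY : B ψ ψ' = B F 1 := by
    rw [← B_comp π hπ F 1, B_eq, B_eq]
    congr 1
    apply Finset.sum_congr rfl
    intro y _
    rw [hF]
    simp
  -- sums over X
  have hX : B (fun x => tauQ ψ (Φ x)) (fun x => tauQ ψ' (Φ x)) = B F 1 := by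
    rw [← B_comp g hg F 1, B_eq, B_eq]
    congr 1
    have hK : ∀ x, x ∈ g.ker ↔ ∃ A : GL (Fin d) ℂ, Φ x = qmk d z (A, 1) := by
      intro x
      rw [MonoidHom.mem_ker]
      constructor
      · intro h
        obtain ⟨A, y, hA⟩ := hqs (Φ x)
        have h1 : π y = π 1 := by
          rw [map_one, ← h]
          change π y = κ (Φ x)
          rw [hA, hκ]
        rcases (hπeq _ _).1 h1 with h | h
        · exact ⟨A, by rw [hA, h]⟩
        · refine ⟨-A, ?_⟩
          rw [hA, h, mul_one, qmk_eq d z hz]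
          right
          exact ⟨by rw [neg_neg], by rw [mul_one]⟩
      · rintro ⟨A, hA⟩
        change κ (Φ x) = 1
        rw [hA, hκ, map_one]
    have h1 : ∀ m : g.ker, ∑ x : X, tauQ ψ (Φ x) * tauQ ψ' (Φ x⁻¹) =
        ∑ x : X, tauQ ψ (Φ (m * x)) * tauQ ψ' (Φ (m * x)⁻¹) := by
      intro m
      exact (Equiv.sum_comp (Equiv.mulLeft (m : X))
        (fun x => tauQ ψ (Φ x) * tauQ ψ' (Φ x⁻¹))).symm
    have h2 : (Nat.card g.ker : ℂ) * ∑ x : X, tauQ ψ (Φ x) * tauQ ψ' (Φ x⁻¹) =
        ∑ x : X, ∑ m : g.ker, tauQ ψ (Φ (m * x)) * tauQ ψ' (Φ (m * x)⁻¹) := by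
      rw [Finset.sum_comm, ← Finset.sum_congr rfl (fun m _ => h1 m), Finset.sum_const,
        nsmul_eq_mul, Finset.card_univ, Nat.card_eq_fintype_card]
    have h3 : ∀ x : X, ∑ m : g.ker, tauQ ψ (Φ (m * x)) * tauQ ψ' (Φ (m * x)⁻¹) =
        (Nat.card g.ker : ℂ) * F (g x) := by
      intro x
      obtain ⟨A, y, hA⟩ := hqs (Φ x)
      rw [ten_avg hz d Φ hd hspan g.ker hK hψz hψz' x A y hA]
      have h4 : g x = π y := by
        change κ (Φ x) = π y
        rw [hA, hκ]
      rw [h4, hF]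
    rw [Finset.sum_congr rfl (fun x _ => h3 x), ← Finset.mul_sum] at h2
    have hc : (Nat.card g.ker : ℂ) ≠ 0 := by exact_mod_cast Nat.card_pos.ne'
    have h5 := mul_left_cancel₀ hc h2
    rw [h5]
    apply Finset.sum_congr rfl
    intro x _
    simp
  rw [hX, hY]

theorem ten_irr {X Y : Type} [Group X] [Finite X] [Group Y] [Finite Y] {z : Y} (hz : CInv z)
    (d : ℕ) (hd : 0 < d) (Φ : X →* QQ d z)
    (hy : ∀ y : Y, ∃ (x : X) (A : GL (Fin d) ℂ), Φ x = qmk d z (A, y))
    (hspan : Submodule.span ℂ {M : Matrix (Fin d) (Fin d) ℂ | ∃ (x : X) (A : GL (Fin d) ℂ),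
      (A : Matrix (Fin d) (Fin d) ℂ) = M ∧ Φ x = qmk d z (A, 1)} = ⊤)
    {ψ : Y → ℂ} (hψ : ψ ∈ IrrZ z (-1)) :
    (fun x => tauQ ψ (Φ x)) ∈ Irr X := by
  have hB := ten_B hz d hd Φ hy hspan hψ hψ
  have hψz := irrZ_neg hz hψ
  rw [B_irr_self hψ.1] at hB
  obtain ⟨⟨W, _, _, _, ρ, hρ, rfl⟩, hz1⟩ := hψ
  have hρz := rho_z hz ρ hρ hz1
  let R : Representation ℂ X ((Fin d → ℂ) ⊗[ℂ] W) := (tenRep hz d ρ hρz).comp Φ
  have hR : (fun x => tauQ ρ.character (Φ x)) = R.character := by
    ext x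
    obtain ⟨⟨A, y⟩, h⟩ := QuotientGroup.mk'_surjective (NQ d z) (Φ x)
    have h1 : qmk d z (A, y) = Φ x := h
    have h2 : R.character x = (tenRep hz d ρ hρz).character (Φ x) := rfl
    rw [h2, ← h1, tenRep_char, tauQ_mk hz _ hψz]
  rw [hR] at hB ⊢
  apply irr_of_norm_one
  · exact char_isClass R
  · rintro χ ⟨V, _, _, _, τ, _, rfl⟩
    exact B_char R τ
  · exact hB

end Pool.Agent.Helper81.AN
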