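import Pool.Agent.Helper81.AN.TrMap
import Pool.Agent.Helper81.AN.Idx2
import Pool.Agent.Helper81.AN.CliffRep

/-!
# ALT-47: transfer, spin characters, even number of points

PROOF. `n = |ι|` even, `w` of full support (`exists_full`), `X = BP h0`.
(1) For a class function `χ` on `X` with `χ(z x) = -χ(x)`: `par(x) χ(x) = sgX(x) χ(x)`: for `x = c g`: `w c g w⁻¹ = (w c w⁻¹) (w (pact (h0 g) w)⁻¹) g = u(par c) u(sign g) c g` (`omega_even`, `pact_omega`), so `χ(x) = χ(w x w⁻¹) = par(c) sign(g) χ(x)`. (`irrZ_neg` for `χ ∈ IrrZ z (-1)`.) So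
`lN p par = lN p sgX` and `lF p par = lF p sgX` (with `z = BG.z`, `ν = -1`). The same computation for class functions on `H = ker sgX` (`w ∈ H`): `par(x) θ(x) = θ(x)` for `x ∈ H`.
(2) `idx2` for `X`, `ε = sgX`, `z = BG.z`, `ν = -1`, `s := BP.r s`.
(3) `tr_map` with `d = dU ι = 2^(n/2)` (`exists_U`, `exists_ext`), `C0 = {1, z}` (`Subgroup.zpowers Cl.z`, order two; `2^(n+1) = d² 2`). `IrrU h0 C0 U` = the irreducible characters `θ` of `H` with `θ(z) = -θ(1)` (`tr (U z) = -d`). If `φ' = φ ∘ α` then `(e φ)(s x s⁻¹) = par(x) (e φ')(x) = (e φ')(x)`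
(`trace_alpha` with `(s x s⁻¹).left = pact (h0 s) x.left`, and if `t` lies over `x.right` then `α t` lies over `(s x s⁻¹).right`; then (1)). So `φ` is `α`-invariant iff `e φ` is `s`-invariant. Degrees: `deg(e φ) = 2^(n/2) deg φ`, squares: `2^n deg²`; `2` is a unit mod `p`. Hence
`cF d = #{θ ∈ Irr H, θ(z) = -θ(1), deg² = 2^n d, s-invariant}` etc., and (2) gives the result.
-/

set_option autoImplicit false
set_option linter.unusedSectionVars false

open Matrix Equiv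

namespace Pool.Agent.Helper81.AN

open Pool.Agent.Helper42.INC Pool.Agent.Helper7.MK Pool.Agent.Helper57.AN

section C0

variable {ι : Type} [Fintype ι] [DecidableEq ι]

/-- the subgroup generated by `z` -/
private def CZ (ι : Type) : Subgroup (Cl ι) where
  carrier := {c | ∃ e : ZMod 2, c = Cl.zp e}
  mul_mem' := by
    rintro a b ⟨e, rfl⟩ ⟨f, rfl⟩
    exact ⟨e + f, (Cl.zp_add' e f).symm⟩
  one_mem' := ⟨0, Cl.zp_zero.symm⟩
  inv_mem' := by
    rintro a ⟨e, rfl⟩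
    refine ⟨e, inv_eq_of_mul_eq_one_left ?_⟩
    rw [← Cl.zp_add', CharTwo.add_self_eq_zero, Cl.zp_zero]

private theorem zp_inj {e f : ZMod 2} (h : (Cl.zp e : Cl ι) = Cl.zp f) : e = f := by
  rcases Cl.z2cases e with rfl | rfl <;> rcases Cl.z2cases f with rfl | rfl
  · rfl
  · rw [Cl.zp_zero, Cl.zp_one] at h
    exact absurd h.symm Cl.z_ne_one
  · rw [Cl.zp_zero, Cl.zp_one] at h
    exact absurd h Cl.z_ne_one
  · rfl

private theorem card_CZ : Nat.card (CZ ι) = 2 := by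
  have hbij : Function.Bijective (fun q : ZMod 2 => (⟨Cl.zp q, q, rfl⟩ : CZ ι)) := by
    constructor
    · intro e f h
      exact zp_inj (congrArg Subtype.val h)
    · rintro ⟨c, e, hc⟩
      exact ⟨e, Subtype.ext hc.symm⟩
  rw [← Nat.card_congr (Equiv.ofBijective _ hbij), Nat.card_eq_fintype_card, ZMod.card]

end C0

section BPs

variable {ι : Type} [Fintype ι] [DecidableEq ι] {L : Type} [Group L] [Finite L] (h0 : L →* Perm ι)

private theorem sg_l (c : Cl ι) : sgX h0 (BP.l h0 c) = 1 := by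
  change Perm.sign (h0 (SemidirectProduct.rightHom (SemidirectProduct.inl c))) = 1
  rw [SemidirectProduct.rightHom_inl, map_one, map_one]

private theorem sg_r (g : L) : sgX h0 (BP.r h0 g) = Perm.sign (h0 g) := by
  change Perm.sign (h0 (SemidirectProduct.rightHom (SemidirectProduct.inr g))) = _
  rw [SemidirectProduct.rightHom_inr]

private theorem sg_x (x : BP h0) : sgX h0 x = Perm.sign (h0 x.right) := rfl

private theorem left_lr (c : Cl ι) (g : L) : (BP.l h0 c * BP.r h0 g).left = c := by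
  simp [BP.l, BP.r]

private theorem right_lr (c : Cl ι) (g : L) : (BP.l h0 c * BP.r h0 g).right = g := by
  simp [BP.l, BP.r]

private theorem conj_r (s : L) (x : BP h0) : BP.r h0 s * x * (BP.r h0 s)⁻¹ =
    BP.l h0 (pact (h0 s) x.left) * BP.r h0 (s * x.right * s⁻¹) := by
  conv_lhs => rw [BP.eq h0 x]
  rw [← mul_assoc (BP.r h0 s), BP.r_mul_l, map_mul, map_mul, map_inv]
  simp only [mul_assoc]

private theorem par_x (x : BP h0) : BG.par ((permH ι).comp h0) x = Cl.par x.left := by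
  conv_lhs => rw [BP.eq h0 x]
  rw [map_mul, BP.par_l, BP.par_r, mul_one]

/-- the elements of the Clifford group in the kernel -/
private def lH (c : Cl ι) : (sgX h0).ker := ⟨BP.l h0 c, sg_l h0 c⟩

private theorem lH_mul (a b : Cl ι) : lH h0 (a * b) = lH h0 a * lH h0 b :=
  Subtype.ext (map_mul (BP.l h0) a b)

private theorem lH_one : lH h0 1 = 1 := Subtype.ext (map_one (BP.l h0))

private theorem cinv_X : CInv (BP.l h0 Cl.z) := BG.cinv (h := (permH ι).comp h0)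

private theorem cinv_H : CInv (lH h0 Cl.z) := by
  refine ⟨fun y => Subtype.ext ((cinv_X h0).comm y), Subtype.ext (cinv_X h0).sq, fun h => ?_⟩
  exact (cinv_X h0).ne (congrArg Subtype.val h)

/-- conjugation with the element of full support -/
private theorem w_conj_x {w : Cl ι} (hw : Full w) (hn : Even (Fintype.card ι)) (x : BP h0) :
    BP.l h0 w * x * (BP.l h0 w)⁻¹ =
      BP.l h0 (Cl.u (BG.par ((permH ι).comp h0) x * sgX h0 x)) * x := by
  have h1 : x * (BP.l h0 w)⁻¹ =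
      BP.l h0 (x.left * (pact (h0 x.right) w)⁻¹) * BP.r h0 x.right := by
    conv_lhs => rw [BP.eq h0 x]
    rw [mul_assoc, ← map_inv, BP.r_mul_l, map_inv (pact (h0 x.right)), ← mul_assoc, ← map_mul]
  have h2 : w * (x.left * (pact (h0 x.right) w)⁻¹) =
      Cl.u (BG.par ((permH ι).comp h0) x * sgX h0 x) * x.left := by
    rw [pact_omega w hw, ← mul_assoc, omega_even w hw hn, _root_.mul_inv_rev, ← map_inv,
      Int.units_inv_eq_self, par_x, sg_x, map_mul]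
    have h3 : Cl.u (Cl.par x.left) * (x.left * w) * (w⁻¹ * Cl.u (Perm.sign (h0 x.right))) =
        Cl.u (Cl.par x.left) * (x.left * Cl.u (Perm.sign (h0 x.right))) := by group
    rw [h3, ← Cl.u_comm, mul_assoc]
  rw [mul_assoc, h1, ← mul_assoc, ← map_mul, h2, map_mul, mul_assoc, ← BP.eq h0 x]

private theorem tw_gen {f : BP h0 → ℂ} (hz : ∀ x, f (BP.l h0 Cl.z * x) = -f x) (e : ℤˣ) (x : BP h0) :
    f (BP.l h0 (Cl.u e) * x) = ((e : ℤ) : ℂ) * f x := by
  rcases Int.units_eq_one_or e with rfl | rfl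
  · simp
  · rw [Cl.u_neg, hz]
    simp

/-- the two twists agree -/
private theorem par_sg {w : Cl ι} (hw : Full w) (hn : Even (Fintype.card ι)) {χ : BP h0 → ℂ}
    (hχ : χ ∈ IrrZ (BP.l h0 Cl.z) (-1)) (x : BP h0) :
    (((BG.par ((permH ι).comp h0) x : ℤˣ) : ℤ) : ℂ) * χ x = (((sgX h0 x : ℤˣ) : ℤ) : ℂ) * χ x := by
  have h1 : χ (BP.l h0 w * x * (BP.l h0 w)⁻¹) = χ x := Irr.isClass hχ.1 _ _
  rw [w_conj_x h0 hw hn, tw_gen h0 (fun y => irrZ_neg (cinv_X h0) hχ y)] at h1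
  rcases Int.units_eq_one_or (BG.par ((permH ι).comp h0) x) with h2 | h2 <;>
    rcases Int.units_eq_one_or (sgX h0 x) with h3 | h3
  · rw [h2, h3]
  · rw [h2, h3] at h1 ⊢
    push_cast at h1 ⊢
    linear_combination -h1
  · rw [h2, h3] at h1 ⊢
    push_cast at h1 ⊢
    linear_combination h1
  · rw [h2, h3]

/-- on the kernel the parity is trivial -/
private theorem par_H {w : Cl ι} (hw : Full w) (hn : Even (Fintype.card ι))
    {θ : (sgX h0).ker → ℂ} (hθ : θ ∈ IrrZ (lH h0 Cl.z) (-1)) (x : (sgX h0).ker) :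
    (((BG.par ((permH ι).comp h0) x : ℤˣ) : ℤ) : ℂ) * θ x = θ x := by
  have h1 : θ (lH h0 w * x * (lH h0 w)⁻¹) = θ x := Irr.isClass hθ.1 _ _
  have h2 : lH h0 w * x * (lH h0 w)⁻¹ =
      lH h0 (Cl.u (BG.par ((permH ι).comp h0) x * sgX h0 x)) * x :=
    Subtype.ext (w_conj_x h0 hw hn x)
  have h4 : sgX h0 x = 1 := x.2
  rw [h2, h4, mul_one] at h1
  rcases Int.units_eq_one_or (BG.par ((permH ι).comp h0) x) with h3 | h3
  · rw [h3]
    simp
  · rw [h3, Cl.u_neg, irrZ_neg (cinv_H h0) hθ] at h1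
    rw [h3]
    push_cast
    linear_combination h1

private theorem tr_z {d : ℕ} {U : Cl ι →* GL (Fin d) ℂ} (hU : U Cl.z = -1) :
    (U Cl.z : Matrix (Fin d) (Fin d) ℂ) = -1 := by
  rw [hU]
  rfl

private theorem irrU_iff {d : ℕ} (hd : 0 < d) {U : Cl ι →* GL (Fin d) ℂ} (hU : U Cl.z = -1)
    (χ : (sgX h0).ker → ℂ) :
    χ ∈ IrrU h0 (CZ ι) U ↔ χ ∈ Irr (sgX h0).ker ∧
      ∀ t : (sgX h0).ker, (t : BP h0) = BG.z ((permH ι).comp h0) → χ t = (-1) * χ 1 := by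
  have hd' : (d : ℂ) ≠ 0 := by exact_mod_cast hd.ne'
  have htz : (U Cl.z : Matrix (Fin d) (Fin d) ℂ).trace = -d := by
    rw [tr_z hU, Matrix.trace_neg, Matrix.trace_one, Fintype.card_fin]
  have ht1 : (U 1 : Matrix (Fin d) (Fin d) ℂ).trace = d := by
    rw [map_one, Units.val_one, Matrix.trace_one, Fintype.card_fin]
  constructor
  · rintro ⟨hχ, h⟩
    refine ⟨hχ, fun t ht => ?_⟩
    have h1 := h Cl.z ⟨1, Cl.zp_one.symm⟩ t ht
    rw [htz] at h1
    apply mul_left_cancel₀ hd'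
    rw [h1]
    ring
  · rintro ⟨hχ, hz⟩
    refine ⟨hχ, ?_⟩
    rintro c ⟨e, hc⟩ x hx
    rcases Cl.z2cases e with rfl | rfl
    · rw [Cl.zp_zero] at hc
      subst hc
      have hxc : x = 1 := Subtype.ext (by rw [hx, map_one]; rfl)
      rw [hxc, ht1]
    · rw [Cl.zp_one] at hc
      subst hc
      rw [htz, hz x hx]
      ring

end BPs

private theorem card_gen {T X : Type} {R S : (T → ℂ) → Prop} {M : Set (X → ℂ)}
    (F : {θ : T → ℂ // R θ ∧ S θ} → X → ℂ) (hM : ∀ θ, F θ ∈ M) (hinj : Function.Injective F)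
    (hsurj : ∀ χ ∈ M, ∃ θ, F θ = χ) (P₁ P₂ : (T → ℂ) → Prop) (Q₁ Q₂ : (X → ℂ) → Prop)
    (h₁ : ∀ θ, P₁ θ.1 ↔ Q₁ (F θ)) (h₂ : ∀ θ, P₂ θ.1 ↔ Q₂ (F θ)) :
    Nat.card {θ : T → ℂ // R θ ∧ S θ ∧ P₁ θ ∧ P₂ θ} =
      Nat.card {χ : X → ℂ // χ ∈ M ∧ Q₁ χ ∧ Q₂ χ} := by
  refine Nat.card_congr (Equiv.ofBijective (fun θ : {θ : T → ℂ // R θ ∧ S θ ∧ P₁ θ ∧ P₂ θ} =>
    (⟨F ⟨θ.1, θ.2.1, θ.2.2.1⟩, hM _, (h₁ ⟨θ.1, θ.2.1, θ.2.2.1⟩).1 θ.2.2.2.1,
      (h₂ ⟨θ.1, θ.2.1, θ.2.2.1⟩).1 θ.2.2.2.2⟩ : {χ : X → ℂ // χ ∈ M ∧ Q₁ χ ∧ Q₂ χ})) ⟨?_, ?_⟩)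
  · intro a b h
    have h1 := hinj (congrArg (fun x : {χ : X → ℂ // χ ∈ M ∧ Q₁ χ ∧ Q₂ χ} => x.1) h)
    have h2 : a.1 = b.1 := congrArg (fun x : {θ : T → ℂ // R θ ∧ S θ} => x.1) h1
    exact Subtype.ext h2
  · rintro ⟨χ, hχ, hq1, hq2⟩
    obtain ⟨θ, rfl⟩ := hsurj χ hχ
    exact ⟨⟨θ.1, θ.2.1, θ.2.2, (h₁ θ).2 hq1, (h₂ θ).2 hq2⟩, rfl⟩

variable {ι : Type} [Fintype ι] [DecidableEq ι] {L : Type} [Group L] [Finite L] (h0 : L →* Perm ι)

theorem tr_even (p : ℕ) [Fact p.Prime] (h2 : p ≠ 2) (h8 : 8 ≤ Fintype.card ι)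
    (hn : Even (Fintype.card ι))
    (hinj : Function.Injective h0) {K : Type} [Group K] [Finite K] {π : K →* Perm ι}
    (h : Cov π) (z : K) (hz1 : z ≠ 1) (hz : ∀ k, π k = 1 ↔ (k = 1 ∨ k = z)) (s : L)
    (hs : Perm.sign (h0 s) = -1) (α : MulAut K) (hα : ∀ k, π (α k) = h0 s * π k * (h0 s)⁻¹)
    (d : ZMod p) :
    2 * cF p (h0.range.comap π) α z (-1) d =
      lN p (BG.par ((permH ι).comp h0)) (BG.z _) (-1) (2 ^ Fintype.card ι * d) ∧
    cN p (h0.range.comap π) α z (-1) d =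
      2 * lF p (BG.par ((permH ι).comp h0)) (BG.z _) (-1) (4 * (2 ^ Fintype.card ι * d)) := by
  classical
  obtain ⟨w, hw⟩ := exists_full (ι := ι)
  obtain ⟨U, hU, hspan⟩ := exists_U ι
  have hd : 0 < dU ι := Nat.two_pow_pos _
  obtain ⟨ρ, hρ, hρz⟩ := exists_ext h8 h z hz1 hz hd U hU hspan
  obtain ⟨m, hm⟩ := hn
  have hn : Even (Fintype.card ι) := ⟨m, hm⟩
  have hdU : dU ι = 2 ^ m := by
    unfold dU
    congr 1
    omega
  have hcard : 2 ^ (Fintype.card ι + 1) = dU ι ^ 2 * Nat.card (CZ ι) := by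
    rw [card_CZ, hdU, hm]
    ring
  obtain ⟨e, he1, he2⟩ := tr_map h0 hinj h z hz1 hz hd U hU hspan ρ hρ hρz s hs (CZ ι)
    (by
      rintro c ⟨e, rfl⟩ g
      exact Cl.zp_comm' e g)
    (by
      rintro c ⟨e, rfl⟩ σ hσ
      exact pact_zp σ e)
    (by
      rintro c ⟨e, rfl⟩
      rcases Cl.z2cases e with rfl | rfl
      · exact ⟨1, by rw [Cl.zp_zero, map_one, Units.val_one, Units.val_one, one_smul]⟩
      · exact ⟨-1, by rw [Cl.zp_one, tr_z hU, Units.val_neg, Units.val_one, neg_smul, one_smul]⟩)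
    hcard
  have hs' : sgX h0 (BP.r h0 s) = -1 := by rw [sg_r, hs]
  have hiff := irrU_iff h0 hd hU
  have hIz : ∀ θ : (sgX h0).ker → ℂ, θ ∈ IrrU h0 (CZ ι) U → θ ∈ IrrZ (lH h0 Cl.z) (-1) := by
    intro θ hθ
    have h1 := (hiff θ).1 hθ
    exact ⟨h1.1, h1.2 (lH h0 Cl.z) rfl⟩
  -- the two sign characters
  have hlF : ∀ D : ZMod p, lF p (BG.par ((permH ι).comp h0)) (BG.z _) (-1) D =
      lF p (sgX h0) (BG.z ((permH ι).comp h0)) (-1) D := by
    intro D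
    unfold lF
    refine Nat.card_congr (Equiv.subtypeEquivRight fun χ => ?_)
    constructor
    · rintro ⟨h1, h2, h3⟩
      exact ⟨h1, h2, fun x => by rw [← par_sg h0 hw hn h1, h3]⟩
    · rintro ⟨h1, h2, h3⟩
      exact ⟨h1, h2, fun x => by rw [par_sg h0 hw hn h1, h3]⟩
  have hlN : ∀ D : ZMod p, lN p (BG.par ((permH ι).comp h0)) (BG.z _) (-1) D =
      lN p (sgX h0) (BG.z ((permH ι).comp h0)) (-1) D := by
    intro D
    unfold lN
    refine Nat.card_congr (Equiv.subtypeEquivRight fun χ => ?_)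
    constructor
    · rintro ⟨h1, h2, h3⟩
      exact ⟨h1, h2, fun h4 => h3 fun x => by rw [par_sg h0 hw hn h1, h4]⟩
    · rintro ⟨h1, h2, h3⟩
      exact ⟨h1, h2, fun h4 => h3 fun x => by rw [← par_sg h0 hw hn h1, h4]⟩
  obtain ⟨F, hF⟩ : ∃ F : {θ : h0.range.comap π → ℂ // θ ∈ Irr (h0.range.comap π) ∧
      ∀ t : h0.range.comap π, (t : K) = z → θ t = (-1) * θ 1} → (sgX h0).ker → ℂ,
      ∀ θ, F θ = (e θ).1 := ⟨_, fun _ => rfl⟩
  have hM : ∀ θ, F θ ∈ {χ : (sgX h0).ker → ℂ | χ ∈ Irr (sgX h0).ker ∧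
      ∀ t : (sgX h0).ker, (t : BP h0) = BG.z ((permH ι).comp h0) → χ t = (-1) * χ 1} := by
    intro θ
    rw [hF]
    exact (hiff _).1 (e θ).2
  have hFinj : Function.Injective F := by
    intro θ θ' hh
    rw [hF, hF] at hh
    exact e.injective (Subtype.ext hh)
  have hFsurj : ∀ χ ∈ {χ : (sgX h0).ker → ℂ | χ ∈ Irr (sgX h0).ker ∧
      ∀ t : (sgX h0).ker, (t : BP h0) = BG.z ((permH ι).comp h0) → χ t = (-1) * χ 1},
      ∃ θ, F θ = χ := by
    intro χ hχ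
    refine ⟨e.symm ⟨χ, (hiff χ).2 hχ⟩, ?_⟩
    rw [hF, e.apply_symm_apply]
  -- degrees
  have hdeg : ∀ θ, deg (F θ) = dU ι * deg θ.1 := by
    intro θ
    apply deg_eq
    rw [hF, he2]
    push_cast
    rw [deg_cast θ.2.1]
  have hp2 : (2 : ZMod p) ≠ 0 := by
    intro h
    have h5 : ((2 : ℕ) : ZMod p) = 0 := by exact_mod_cast h
    rw [ZMod.natCast_eq_zero_iff] at h5
    have hp : p.Prime := Fact.out
    exact h2 ((Nat.prime_dvd_prime_iff_eq hp Nat.prime_two).1 h5)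
  have h₁ : ∀ θ : {θ : h0.range.comap π → ℂ // θ ∈ Irr (h0.range.comap π) ∧
      ∀ t : h0.range.comap π, (t : K) = z → θ t = (-1) * θ 1},
      (deg θ.1 : ZMod p) ^ 2 = d ↔
        (deg (F θ) : ZMod p) ^ 2 = 2 ^ Fintype.card ι * d := by
    intro θ
    have h3 : (deg (F θ) : ZMod p) ^ 2 = 2 ^ Fintype.card ι * (deg θ.1 : ZMod p) ^ 2 := by
      rw [hdeg, hdU, hm]
      push_cast
      ring
    rw [h3]
    exact ⟨fun h => by rw [h], fun h => mul_left_cancel₀ (pow_ne_zero _ hp2) h⟩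
  -- the automorphism
  have hαT : ∀ t : h0.range.comap π, α (t : K) ∈ h0.range.comap π := by
    intro t
    obtain ⟨l, hl⟩ := t.2
    refine ⟨s * l * s⁻¹, ?_⟩
    rw [map_mul, map_mul, map_inv, hl, hα]
  have hαi : ∀ k, π (α⁻¹ k) = (h0 s)⁻¹ * π k * h0 s := by
    intro k
    have h1 := hα (α⁻¹ k)
    rw [MulAut.apply_inv_self] at h1
    rw [h1]
    group
  have hαT' : ∀ t : h0.range.comap π, α⁻¹ (t : K) ∈ h0.range.comap π := by
    intro t
    obtain ⟨l, hl⟩ := t.2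
    refine ⟨s⁻¹ * l * s, ?_⟩
    rw [map_mul, map_mul, map_inv, hl, hαi]
  obtain ⟨αT, hαTc⟩ : ∃ αT : h0.range.comap π ≃* h0.range.comap π,
      ∀ t : h0.range.comap π, ((αT t : h0.range.comap π) : K) = α t :=
    ⟨{ toFun := fun t => ⟨α t, hαT t⟩
       invFun := fun t => ⟨α⁻¹ t, hαT' t⟩
       left_inv := fun t => Subtype.ext (MulAut.inv_apply_self _ α _)
       right_inv := fun t => Subtype.ext (MulAut.apply_inv_self _ α _)
       map_mul' := fun a b => Subtype.ext (map_mul α _ _) }, fun _ => rfl⟩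
  have hαz : α z = z := by
    have h1 : π (α z) = 1 := by
      rw [hα, (hz z).2 (Or.inr rfl), mul_one, mul_inv_cancel]
    rcases (hz _).1 h1 with h2 | h2
    · exact absurd ((map_eq_one_iff α α.injective).1 h2) hz1
    · exact h2
  obtain ⟨G, hG⟩ : ∃ G : {θ : h0.range.comap π → ℂ // θ ∈ Irr (h0.range.comap π) ∧
      ∀ t : h0.range.comap π, (t : K) = z → θ t = (-1) * θ 1} →
      {θ : h0.range.comap π → ℂ // θ ∈ Irr (h0.range.comap π) ∧
      ∀ t : h0.range.comap π, (t : K) = z → θ t = (-1) * θ 1},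
      ∀ θ t, (G θ).1 t = θ.1 (αT t) :=
    ⟨fun θ => ⟨fun t => θ.1 (αT t), irr_comp αT θ.2.1, fun t ht => by
      have h1 : ((αT t : h0.range.comap π) : K) = z := by rw [hαTc, ht, hαz]
      change θ.1 (αT t) = (-1) * θ.1 (αT 1)
      rw [θ.2.2 _ h1, map_one]⟩, fun _ _ => rfl⟩
  have key : ∀ θ (y y' : (sgX h0).ker), (y' : BP h0) = BP.r h0 s * y * (BP.r h0 s)⁻¹ →
      F θ y' = F (G θ) y := by
    intro θ y y' hy
    have hσ : Perm.sign (h0 (y : BP h0).right) = 1 := y.2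
    have h3 : h0 (y : BP h0).right ∈ π.range := by
      rw [h.range]
      exact Equiv.Perm.mem_alternatingGroup.2 hσ
    obtain ⟨k, hk⟩ := h3
    obtain ⟨t, ht⟩ : ∃ t : h0.range.comap π, (t : K) = k :=
      ⟨⟨k, (y : BP h0).right, hk.symm⟩, rfl⟩
    have h4 := he1 (G θ) y t (by rw [ht, hk])
    have h5 := he1 θ y' (αT t) (by
      rw [hαTc, hα, ht, hk, hy, conj_r, right_lr, map_mul, map_mul, map_inv])
    have h6 := par_H h0 hw hn (hIz _ (e (G θ)).2) y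
    rw [hF, hF, ← h6, h4, h5, hy, conj_r, left_lr, hαTc, hG,
      trace_alpha h hd U hU hspan ρ hρ (h0 s) hs α hα, par_x]
    ring
  have h₂ : ∀ θ : {θ : h0.range.comap π → ℂ // θ ∈ Irr (h0.range.comap π) ∧
      ∀ t : h0.range.comap π, (t : K) = z → θ t = (-1) * θ 1},
      (∀ t t' : h0.range.comap π, (t' : K) = α t → θ.1 t' = θ.1 t) ↔
        ∀ x y : (sgX h0).ker, (y : BP h0) = BP.r h0 s * x * (BP.r h0 s)⁻¹ → F θ y = F θ x := by
    intro θ
    constructor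
    · intro hinv x y hxy
      rw [key θ x y hxy]
      have h1 : G θ = θ := by
        apply Subtype.ext
        funext t
        rw [hG]
        exact hinv t (αT t) (hαTc t)
      rw [h1]
    · intro hinv t t' ht
      have h1 : F (G θ) = F θ := by
        funext x
        have h3 : BP.r h0 s * (x : BP h0) * (BP.r h0 s)⁻¹ ∈ (sgX h0).ker :=
          (MonoidHom.normal_ker (sgX h0)).conj_mem _ x.2 _
        rw [← key θ x ⟨_, h3⟩ rfl, hinv x ⟨_, h3⟩ rfl]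
      have h2 := hFinj h1
      have h3 : t' = αT t := Subtype.ext (by rw [ht, hαTc])
      rw [h3, ← hG, h2]
  have hzX : ∀ x, BG.z ((permH ι).comp h0) * x = x * BG.z ((permH ι).comp h0) := (cinv_X h0).comm
  obtain ⟨i1, i2⟩ := idx2 p h2 (sgX h0) (BG.z ((permH ι).comp h0)) hzX (sg_l h0 Cl.z) (-1)
    (BP.r h0 s) hs' (2 ^ Fintype.card ι * d)
  have c1 := card_gen F hM hFinj hFsurj (fun θ => (deg θ : ZMod p) ^ 2 = d)
    (fun θ => ∀ t t' : h0.range.comap π, (t' : K) = α t → θ t' = θ t)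
    (fun χ => (deg χ : ZMod p) ^ 2 = 2 ^ Fintype.card ι * d)
    (fun χ => ∀ x y : (sgX h0).ker, (y : BP h0) = BP.r h0 s * x * (BP.r h0 s)⁻¹ → χ y = χ x)
    h₁ h₂
  have c2 := card_gen F hM hFinj hFsurj (fun θ => (deg θ : ZMod p) ^ 2 = d)
    (fun θ => ¬ ∀ t t' : h0.range.comap π, (t' : K) = α t → θ t' = θ t)
    (fun χ => (deg χ : ZMod p) ^ 2 = 2 ^ Fintype.card ι * d)
    (fun χ => ¬ ∀ x y : (sgX h0).ker, (y : BP h0) = BP.r h0 s * x * (BP.r h0 s)⁻¹ → χ y = χ x)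
    h₁ (fun θ => not_congr (h₂ θ))
  constructor
  · rw [hlN, ← i1]
    unfold cF
    rw [c1]
    congr 1
    refine Nat.card_congr (Equiv.subtypeEquivRight fun χ => ?_)
    simp only [Set.mem_setOf_eq, and_assoc]
  · rw [hlF, ← i2]
    unfold cN
    rw [c2]
    refine Nat.card_congr (Equiv.subtypeEquivRight fun χ => ?_)
    simp only [Set.mem_setOf_eq, and_assoc]

end Pool.Agent.Helper81.AN
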