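import Pool.Agent.Helper81.AN.RhoAl
import Pool.Agent.Helper81.AN.Ten

/-!
# ALT-46: from the characters of the cover to the characters of `Cl ⋊ (even part of L)`

`X = Cl ι ⋊ L`, `sgX : X → {±1}` the sign of the permutation part, `H = ker sgX`, `T = π⁻¹(h0 L)`. `IrrU C0 U` = irreducible characters of `H` on which the central subgroup `C0` of `Cl ι` acts as in `U`.

PROOF. Apply `ten` to `X := H`, `Y := T`, `z := z_K ∈ T` (`CInv`: central, order two), and
`Φ : H → QQ d z_K`, `Φ(c, l) = [(U(c) ρ(k), k)]` for any `k ∈ T` with `π k = h0 l` (exists: `h0 l` is even, so in the range of `π`; two choices differ by `z_K`, `ρ(z_K) = -1`, so `Φ` is well defined). It is a homomorphism: `(c, l)(c', l') = (c pact(h0 l) c', l l')`,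
`U(c pact(π k) c') ρ(k k') = U(c) ρ(k) U(c') ρ(k)⁻¹ ρ(k) ρ(k') = (U(c) ρ(k)) (U(c') ρ(k'))`.
`hy`: for `k ∈ T`, `π k = h0 l`, `Φ(1, l) = [(ρ(k), k)]`, `(1, l) ∈ H`. `hspan`: `Φ(c, 1) = [(U(c), 1)]`. `C` = the elements `(c, 1)`, `c ∈ C0` (normal in `H`: `C0` is central in `Cl ι` and fixed by even permutations), `lam (c, 1)` = the scalar `U(c)` (`hscal`).
`hcard`: `|H| = 2^(n+1) |L| / 2` (`sgX` is onto: `s`), `|T| = 2 |h0(L) ∩ A| = |L|`, so `2 |H| = 2^(n+1) |L| = d² |C0| |T|`. The bijection `e` of `ten` is the required one: `IrrC C lam = IrrU`. (`(U c).trace = d * lam`.)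
-/

set_option autoImplicit false

open Matrix Equiv

namespace Pool.Agent.Helper81.AN

open Pool.Agent.Helper42.INC Pool.Agent.Helper57.AN

variable {ι : Type} [Fintype ι] [DecidableEq ι] {L : Type} [Group L] [Finite L] (h0 : L →* Perm ι)

/-- the sign of the permutation part -/
def sgX : BP h0 →* ℤˣ := (Perm.sign.comp h0).comp SemidirectProduct.rightHom

/-- characters of the even part on which `C0` acts as in `U` -/
def IrrU {d : ℕ} (C0 : Subgroup (Cl ι)) (U : Cl ι →* GL (Fin d) ℂ) :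
    Set ((sgX h0).ker → ℂ) :=
  {χ | χ ∈ Irr (sgX h0).ker ∧ ∀ c ∈ C0, ∀ x : (sgX h0).ker, (x : BP h0) = BP.l h0 c →
    (d : ℂ) * χ x = (U c : Matrix (Fin d) (Fin d) ℂ).trace * χ 1}

section aux

variable {h0}

/-- `z` is a central involution of the inverse image -/
private theorem h86_cinv {K : Type} [Group K] {π : K →* Perm ι}
    (h : Cov π) (z : K) (hz1 : z ≠ 1) (hz : ∀ k, π k = 1 ↔ (k = 1 ∨ k = z)) (T : Subgroup K)
    (hzT : z ∈ T) : CInv (⟨z, hzT⟩ : T) := by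
  have hπz : π z = 1 := (hz z).2 (Or.inr rfl)
  have hc : z ∈ Subgroup.center K := h.ker hπz
  refine ⟨fun y => Subtype.ext ?_, Subtype.ext ?_, fun h1 => hz1 (congrArg Subtype.val h1)⟩
  · exact (Subgroup.mem_center_iff.1 hc y).symm
  · change z * z = 1
    have h1 : π (z * z) = 1 := by rw [map_mul, hπz, one_mul]
    rcases (hz _).1 h1 with h2 | h2
    · exact h2
    · exact absurd (mul_eq_left.1 h2) hz1

/-- an element over `h0 l` -/
private theorem h86_over {K : Type} [Group K] {π : K →* Perm ι} (h : Cov π) (x : (sgX h0).ker) :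
    ∃ t : h0.range.comap π, π t = h0 (x : BP h0).right := by
  have h1 : Perm.sign (h0 (x : BP h0).right) = 1 := x.2
  have h2 : h0 (x : BP h0).right ∈ π.range := by
    rw [h.range, Perm.mem_alternatingGroup]
    exact h1
  obtain ⟨k, hk⟩ := h2
  exact ⟨⟨k, (x : BP h0).right, hk.symm⟩, hk⟩

private theorem h86_indep {K : Type} [Group K] {π : K →* Perm ι}
    (h : Cov π) (z : K) (hz1 : z ≠ 1) (hz : ∀ k, π k = 1 ↔ (k = 1 ∨ k = z)) (T : Subgroup K)
    (hzT : z ∈ T) {d : ℕ} (ρ : K →* GL (Fin d) ℂ) (hρz : ρ z = -1) (A : GL (Fin d) ℂ) (t t' : T)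
    (htt : π t = π t') :
    qmk d (⟨z, hzT⟩ : T) (A * ρ t, t) = qmk d (⟨z, hzT⟩ : T) (A * ρ t', t') := by
  rw [qmk_eq d _ (h86_cinv h z hz1 hz T hzT)]
  have h1 : π ((t : K) * (t' : K)⁻¹) = 1 := by rw [map_mul, map_inv, htt, mul_inv_cancel]
  rcases (hz _).1 h1 with h2 | h2
  · left
    have h3 : (t : K) = t' := mul_inv_eq_one.1 h2
    exact ⟨by rw [h3], Subtype.ext h3⟩
  · right
    have h3 : (t : K) = z * t' := mul_inv_eq_iff_eq_mul.1 h2
    refine ⟨?_, Subtype.ext h3⟩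
    rw [h3, map_mul, hρz]
    simp

private theorem h86_mul_left (x y : BP h0) : (x * y).left = x.left * pact (h0 x.right) y.left := rfl

private theorem h86_exists_phi {K : Type} [Group K] {π : K →* Perm ι}
    (h : Cov π) (z : K) (hz1 : z ≠ 1) (hz : ∀ k, π k = 1 ↔ (k = 1 ∨ k = z))
    (hzT : z ∈ h0.range.comap π) {d : ℕ} (U : Cl ι →* GL (Fin d) ℂ) (ρ : K →* GL (Fin d) ℂ)
    (hρ : ∀ k c, ρ k * U c * (ρ k)⁻¹ = U (pact (π k) c)) (hρz : ρ z = -1) :
    ∃ Φ : (sgX h0).ker →* QQ d (⟨z, hzT⟩ : h0.range.comap π),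
      ∀ (x : (sgX h0).ker) (t : h0.range.comap π), π t = h0 (x : BP h0).right →
        Φ x = qmk d (⟨z, hzT⟩ : h0.range.comap π) (U (x : BP h0).left * ρ t, t) := by
  choose τ hτ using (h86_over (h0 := h0) (π := π) h)
  have key : ∀ (x : (sgX h0).ker) (t : h0.range.comap π), π t = h0 (x : BP h0).right →
      qmk d (⟨z, hzT⟩ : h0.range.comap π) (U (x : BP h0).left * ρ (τ x), τ x) =
        qmk d (⟨z, hzT⟩ : h0.range.comap π) (U (x : BP h0).left * ρ t, t) := by
    intro x t ht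
    exact h86_indep h z hz1 hz _ hzT ρ hρz _ _ _ ((hτ x).trans ht.symm)
  refine ⟨MonoidHom.mk' (fun x => qmk d (⟨z, hzT⟩ : h0.range.comap π)
    (U (x : BP h0).left * ρ (τ x), τ x)) ?_, key⟩
  intro x y
  have h1 : π ((τ x * τ y : h0.range.comap π) : K) = h0 ((x * y : (sgX h0).ker) : BP h0).right := by
    rw [Subgroup.coe_mul, map_mul, hτ, hτ, Subgroup.coe_mul, SemidirectProduct.mul_right, map_mul]
  rw [key (x * y) (τ x * τ y) h1, ← map_mul]
  congr 1
  refine Prod.ext ?_ rfl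
  change U ((x : BP h0) * (y : BP h0)).left * ρ ((τ x : K) * (τ y : K)) =
    U (x : BP h0).left * ρ (τ x) * (U (y : BP h0).left * ρ (τ y))
  rw [h86_mul_left, ← hτ x, map_mul, ← hρ, map_mul]
  group

private theorem h86_mul_left' (x y : BP h0) (hx : x.right = 1) :
    (x * y).left = x.left * y.left := by
  rw [h86_mul_left, hx, map_one, pact_one]

private theorem h86_conj (x : BP h0) (hx : Perm.sign (h0 x.right) = 1) (c : Cl ι)
    (hc : ∀ g, c * g = g * c) (hp : ∀ σ : Perm ι, Perm.sign σ = 1 → pact σ c = c) :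
    x * BP.l h0 c * x⁻¹ = BP.l h0 c := by
  rw [mul_inv_eq_iff_eq_mul]
  have h1 : x = BP.l h0 x.left * BP.r h0 x.right := BP.eq h0 x
  calc x * BP.l h0 c = BP.l h0 x.left * (BP.r h0 x.right * BP.l h0 c) := by
        rw [← mul_assoc, ← h1]
    _ = BP.l h0 x.left * (BP.l h0 c * BP.r h0 x.right) := by
        rw [BP.r_mul_l, hp _ hx]
    _ = BP.l h0 (x.left * c) * BP.r h0 x.right := by
        rw [map_mul, mul_assoc]
    _ = BP.l h0 (c * x.left) * BP.r h0 x.right := by rw [hc]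
    _ = BP.l h0 c * x := by
        rw [map_mul, mul_assoc, ← h1]

private theorem h86_card_H (s : L) (hs : Perm.sign (h0 s) = -1) :
    2 * Nat.card (sgX h0).ker = 2 ^ (Fintype.card ι + 1) * Nat.card L := by
  have h1 := Subgroup.card_mul_index (sgX h0).ker
  rw [Subgroup.index_ker] at h1
  have h2 : (sgX h0).range = ⊤ := by
    rw [eq_top_iff]
    intro e _
    rcases Int.units_eq_one_or e with rfl | rfl
    · exact ⟨1, map_one _⟩
    · exact ⟨BP.r h0 s, hs⟩
  rw [h2, Subgroup.card_top] at h1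
  have h3 : Nat.card ℤˣ = 2 := by
    rw [Nat.card_eq_fintype_card]
    rfl
  rw [h3] at h1
  have h4 : Nat.card (BP h0) = Nat.card (Cl ι) * Nat.card L := SemidirectProduct.card
  rw [← Cl.card, ← h4, ← h1, mul_comm]

private theorem h86_card_T {K : Type} [Group K] [Finite K] {π : K →* Perm ι}
    (hinj : Function.Injective h0)
    (h : Cov π) (z : K) (hz1 : z ≠ 1) (hz : ∀ k, π k = 1 ↔ (k = 1 ∨ k = z)) (s : L)
    (hs : Perm.sign (h0 s) = -1) (hzT : z ∈ h0.range.comap π) :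
    Nat.card (h0.range.comap π) = Nat.card L := by
  have h1 := Subgroup.card_mul_index ((Perm.sign.comp h0).ker)
  rw [Subgroup.index_ker] at h1
  have h2 : (Perm.sign.comp h0).range = ⊤ := by
    rw [eq_top_iff]
    intro e _
    rcases Int.units_eq_one_or e with rfl | rfl
    · exact ⟨1, map_one _⟩
    · exact ⟨s, hs⟩
  rw [h2, Subgroup.card_top] at h1
  have h3 : Nat.card ℤˣ = 2 := by
    rw [Nat.card_eq_fintype_card]
    rfl
  rw [h3] at h1
  have h4 := Subgroup.card_mul_index ((π.comp (h0.range.comap π).subtype).ker)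
  rw [Subgroup.index_ker] at h4
  have h5 : (π.comp (h0.range.comap π).subtype).range = (Perm.sign.comp h0).ker.map h0 := by
    ext σ
    constructor
    · rintro ⟨t, rfl⟩
      obtain ⟨l, hl⟩ := t.2
      refine ⟨l, ?_, hl⟩
      change Perm.sign (h0 l) = 1
      rw [hl, ← Perm.mem_alternatingGroup, ← h.range]
      exact ⟨t, rfl⟩
    · rintro ⟨l, hl, rfl⟩
      have h6 : h0 l ∈ π.range := by
        rw [h.range, Perm.mem_alternatingGroup]
        exact hl
      obtain ⟨k, hk⟩ := h6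
      exact ⟨⟨k, l, hk.symm⟩, hk⟩
  have h6 : Nat.card (π.comp (h0.range.comap π).subtype).ker = 2 := by
    rw [Nat.card_eq_two_iff]
    refine ⟨⟨1, map_one _⟩, ⟨⟨z, hzT⟩, (hz z).2 (Or.inr rfl)⟩,
      fun h1 => hz1 (congrArg (fun t => t.1.1) h1).symm, ?_⟩
    ext ⟨t, ht⟩
    simp only [Set.mem_insert_iff, Set.mem_singleton_iff, Set.mem_univ, iff_true]
    rcases (hz t).1 ht with h1 | h1
    · exact Or.inl (Subtype.ext (Subtype.ext h1))
    · exact Or.inr (Subtype.ext (Subtype.ext h1))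
  rw [h5, h6, Subgroup.card_map_of_injective hinj] at h4
  omega

end aux

theorem tr_map (hinj : Function.Injective h0) {K : Type} [Group K] [Finite K] {π : K →* Perm ι}
    (h : Cov π) (z : K) (hz1 : z ≠ 1) (hz : ∀ k, π k = 1 ↔ (k = 1 ∨ k = z)) {d : ℕ} (hd : 0 < d)
    (U : Cl ι →* GL (Fin d) ℂ) (hU : U Cl.z = -1)
    (hspan : Submodule.span ℂ {M : Matrix (Fin d) (Fin d) ℂ |
      ∃ c : Cl ι, (U c : Matrix (Fin d) (Fin d) ℂ) = M} = ⊤) (ρ : K →* GL (Fin d) ℂ)
    (hρ : ∀ k c, ρ k * U c * (ρ k)⁻¹ = U (pact (π k) c)) (hρz : ρ z = -1) (s : L)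
    (hs : Perm.sign (h0 s) = -1) (C0 : Subgroup (Cl ι)) (hC1 : ∀ c ∈ C0, ∀ g, c * g = g * c)
    (hC2 : ∀ c ∈ C0, ∀ σ : Perm ι, Perm.sign σ = 1 → pact σ c = c)
    (hscal : ∀ c ∈ C0, ∃ ν : ℂˣ, (U c : Matrix (Fin d) (Fin d) ℂ) = (ν : ℂ) • 1)
    (hcard : 2 ^ (Fintype.card ι + 1) = d ^ 2 * Nat.card C0) :
    ∃ e : {θ : h0.range.comap π → ℂ // θ ∈ Irr (h0.range.comap π) ∧
        ∀ t : h0.range.comap π, (t : K) = z → θ t = (-1) * θ 1} ≃ IrrU h0 C0 U,
      (∀ θ (x : (sgX h0).ker) (t : h0.range.comap π), π t = h0 (x : BP h0).right →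
        (e θ).1 x = ((U (x : BP h0).left * ρ t : GL (Fin d) ℂ) :
          Matrix (Fin d) (Fin d) ℂ).trace * θ.1 t) ∧
      ∀ θ, (e θ).1 1 = d * θ.1 1 := by
  classical
  have hzT : z ∈ h0.range.comap π := by
    rw [Subgroup.mem_comap, (hz z).2 (Or.inr rfl)]
    exact one_mem _
  let zT : h0.range.comap π := ⟨z, hzT⟩
  obtain ⟨Φ, hΦ⟩ : ∃ Φ : (sgX h0).ker →* QQ d zT,
      ∀ (x : (sgX h0).ker) (t : h0.range.comap π), π t = h0 (x : BP h0).right →
        Φ x = qmk d zT (U (x : BP h0).left * ρ t, t) :=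
    h86_exists_phi (h0 := h0) h z hz1 hz hzT U ρ hρ hρz
  have hcinv : CInv zT := h86_cinv h z hz1 hz _ hzT
  -- the elements of the Clifford group in the kernel
  have hlH : ∀ c : Cl ι, BP.l h0 c ∈ (sgX h0).ker := by
    intro c
    change Perm.sign (h0 1) = 1
    rw [map_one, map_one]
  have hΦl : ∀ (c : Cl ι) (x : (sgX h0).ker), (x : BP h0) = BP.l h0 c →
      Φ x = qmk d zT (U c, 1) := by
    intro c x hx
    have h1 : π ((1 : h0.range.comap π) : K) = h0 (x : BP h0).right := by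
      rw [hx, Subgroup.coe_one, map_one]
      exact (map_one h0).symm
    rw [hΦ x 1 h1, hx, Subgroup.coe_one, map_one, mul_one]
    rfl
  -- the scalars
  choose! ν hν using hscal
  have hνinj : ∀ a b : ℂˣ, (a : ℂ) • (1 : Matrix (Fin d) (Fin d) ℂ) = (b : ℂ) • 1 → a = b := by
    intro a b hab
    have h1 := congrFun (congrFun hab ⟨0, hd⟩) ⟨0, hd⟩
    simp only [Matrix.smul_apply, Matrix.one_apply_eq, smul_eq_mul, mul_one] at h1
    exact Units.ext h1
  have hνmul : ∀ c ∈ C0, ∀ c' ∈ C0, ν (c * c') = ν c * ν c' := by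
    intro c hc c' hc'
    apply hνinj
    rw [← hν _ (mul_mem hc hc'), map_mul, Units.val_mul, hν c hc, hν c' hc', smul_mul_smul_comm,
      mul_one, Units.val_mul]
  -- the central subgroup
  set C : Subgroup (sgX h0).ker := (C0.map (BP.l h0)).subgroupOf (sgX h0).ker with hCdef
  have hCmem : ∀ x : C, ((x : (sgX h0).ker) : BP h0).left ∈ C0 ∧
      ((x : (sgX h0).ker) : BP h0).right = 1 ∧
      ((x : (sgX h0).ker) : BP h0) = BP.l h0 ((x : (sgX h0).ker) : BP h0).left := by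
    intro x
    obtain ⟨c, hc, hcx⟩ := x.2
    change BP.l h0 c = ((x : (sgX h0).ker) : BP h0) at hcx
    rw [← hcx]
    exact ⟨hc, rfl, rfl⟩
  have hCn : C.Normal := by
    refine ⟨fun c hc g => ?_⟩
    obtain ⟨c0, hc0, hcx⟩ := hc
    refine ⟨c0, hc0, ?_⟩
    have hcx' : BP.l h0 c0 = (c : BP h0) := hcx
    change BP.l h0 c0 = (g : BP h0) * (c : BP h0) * (g : BP h0)⁻¹
    rw [← hcx']
    exact (h86_conj (h0 := h0) (g : BP h0) g.2 c0 (hC1 c0 hc0) (hC2 c0 hc0)).symm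
  let lam : C →* ℂˣ := MonoidHom.mk' (fun x => ν ((x : (sgX h0).ker) : BP h0).left) (by
    intro x y
    rw [← hνmul _ (hCmem x).1 _ (hCmem y).1]
    congr 1
    exact h86_mul_left' (h0 := h0) _ _ (hCmem x).2.1)
  have hlam : ∀ x : C, lam x = ν ((x : (sgX h0).ker) : BP h0).left := fun _ => rfl
  have hscalU : ∀ c ∈ C0, U c = scal d (ν c) := by
    intro c hc
    apply Units.ext
    rw [hν c hc]
    change _ = algebraMap ℂ (Matrix (Fin d) (Fin d) ℂ) (ν c : ℂ)
    rw [Algebra.algebraMap_eq_smul_one]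
  have hΦC : ∀ c : C, Φ c = qmk d zT (scal d (lam c), 1) := by
    intro c
    rw [hlam, ← hscalU _ (hCmem c).1]
    exact hΦl _ _ (hCmem c).2.2
  have hy : ∀ y : h0.range.comap π, ∃ (x : (sgX h0).ker) (A : GL (Fin d) ℂ),
      Φ x = qmk d zT (A, y) := by
    intro y
    obtain ⟨l, hl⟩ := y.2
    have h1 : Perm.sign (h0 l) = 1 := by
      rw [hl, ← Perm.mem_alternatingGroup, ← h.range]
      exact ⟨y, rfl⟩
    exact ⟨⟨BP.r h0 l, h1⟩, _, hΦ ⟨BP.r h0 l, h1⟩ y hl.symm⟩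
  have hspan' : Submodule.span ℂ {M : Matrix (Fin d) (Fin d) ℂ |
      ∃ (x : (sgX h0).ker) (A : GL (Fin d) ℂ),
      (A : Matrix (Fin d) (Fin d) ℂ) = M ∧ Φ x = qmk d zT (A, 1)} = ⊤ := by
    rw [eq_top_iff, ← hspan]
    refine Submodule.span_mono ?_
    rintro M ⟨c, rfl⟩
    exact ⟨⟨BP.l h0 c, hlH c⟩, U c, rfl, hΦl c _ rfl⟩
  have hlinj : Function.Injective (BP.l h0) := SemidirectProduct.inl_injective
  have hCcard : Nat.card C = Nat.card C0 := by
    have hle : C0.map (BP.l h0) ≤ (sgX h0).ker := by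
      rintro _ ⟨c, _, rfl⟩
      exact hlH c
    rw [hCdef, Nat.card_congr (Subgroup.subgroupOfEquivOfLe hle).toEquiv,
      Subgroup.card_map_of_injective hlinj]
  have hcard' : 2 * Nat.card (sgX h0).ker =
      d ^ 2 * Nat.card (h0.range.comap π) * Nat.card C := by
    rw [h86_card_H (h0 := h0) s hs, h86_card_T (h0 := h0) hinj h z hz1 hz s hs hzT, hCcard, hcard]
    ring
  obtain ⟨e, he1, he2⟩ := ten hcinv d hd Φ hy hspan' C hCn lam hΦC hcard'
  -- the two index sets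
  have hdom : ∀ θ : h0.range.comap π → ℂ, (θ ∈ Irr (h0.range.comap π) ∧
      ∀ t : h0.range.comap π, (t : K) = z → θ t = (-1) * θ 1) ↔ θ ∈ IrrZ zT (-1) := by
    intro θ
    constructor
    · rintro ⟨h1, h2⟩
      exact ⟨h1, h2 zT rfl⟩
    · rintro ⟨h1, h2⟩
      refine ⟨h1, fun t ht => ?_⟩
      have h3 : t = zT := Subtype.ext ht
      rw [h3]
      exact h2
  have hcod : ∀ χ : (sgX h0).ker → ℂ, χ ∈ IrrC C lam ↔ χ ∈ IrrU h0 C0 U := by
    intro χ
    have hd0 : (d : ℂ) ≠ 0 := by exact_mod_cast hd.ne'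
    have htr : ∀ c ∈ C0, (U c : Matrix (Fin d) (Fin d) ℂ).trace = (d : ℂ) * (ν c : ℂ) := by
      intro c hc
      rw [hν c hc, Matrix.trace_smul, Matrix.trace_one, Fintype.card_fin, smul_eq_mul, mul_comm]
    constructor
    · rintro ⟨h1, h2⟩
      refine ⟨h1, fun c hc x hx => ?_⟩
      have h3 := h2 ⟨x, c, hc, hx.symm⟩
      rw [hlam] at h3
      change χ x = (ν (x : BP h0).left : ℂ) * χ 1 at h3
      have h4 : (x : BP h0).left = c := by rw [hx]; rfl
      rw [h3, h4, htr c hc, mul_assoc]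
    · rintro ⟨h1, h2⟩
      refine ⟨h1, fun x => ?_⟩
      have h3 := h2 _ (hCmem x).1 x (hCmem x).2.2
      rw [htr _ (hCmem x).1, mul_assoc] at h3
      rw [hlam]
      exact mul_left_cancel₀ hd0 h3
  let e1 : {θ : h0.range.comap π → ℂ // θ ∈ Irr (h0.range.comap π) ∧
      ∀ t : h0.range.comap π, (t : K) = z → θ t = (-1) * θ 1} ≃ IrrZ zT (-1) :=
    Equiv.subtypeEquivRight hdom
  let e2 : IrrC C lam ≃ IrrU h0 C0 U := Equiv.subtypeEquivRight hcod
  refine ⟨(e1.trans e).trans e2, ?_, ?_⟩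
  · intro θ x t ht
    exact he1 (e1 θ) x _ t (hΦ x t ht)
  · intro θ
    exact he2 (e1 θ)

end Pool.Agent.Helper81.AN
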