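import Pool.Agent.Helper81.AN.Rot

/-!
# ALT-42: permutations act on the basic representation, up to the parity

`U : Cl ι → GL_d(ℂ)`, `U z = -1`. For a permutation `σ` there is `M ∈ GL_d` with `U(σ c) = M U(c) M⁻¹` if `σ` is even, and `= par(c) M U(c) M⁻¹` if `σ` is odd.

PROOF. Write `A_i = U(a_i)`: `A_i² = 1`, `A_i A_j = - A_j A_i`. For a transposition `σ = (i j)`: `M = (A_i - A_j)/√2`, `M² = ½ (A_i² + A_j² - A_i A_j - A_j A_i) = 1`. `M A_k M⁻¹ = M A_k M`: for `k ≠ i, j`: `A_k` anticommutes with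
`M`: `= - A_k`; for `k = i`: `½ (A_i - A_j) A_i (A_i - A_j) = ½ (1 - A_j A_i)(A_i - A_j) = ½ (A_i - A_j - A_j - A_i ... )`: `(1 - A_j A_i) A_i = A_i - A_j`, `(1 - A_j A_i)(-A_j) = -A_j + A_j A_i A_j = -A_j - A_i`; sum `= -2 A_j`, so `M A_i M⁻¹ = - A_j`;
likewise `M A_j M⁻¹ = - A_i`. So `M A_k M⁻¹ = - A_(σ k)` for all `k`, i.e. `U(pact σ c) = par(c) M U(c) M⁻¹` for all `c` (`Cl.hom_ext`: both sides are homomorphisms in `c`). Composition:
`Equiv.Perm.swap_induction_on` (`par (pact σ c) = par c`, `Cl.par_act`; signs multiply).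
`two_swaps`: the product `M_{ij} M_{kl}` for the even permutation `(i j)(k l)`; needed for the double cover (ALT-44): for `i, j, k, l` different, `T_{ij} T_{kl} = - T_{kl} T_{ij}` where `T_{ij} = (A_i - A_j)/√2`.
-/

set_option autoImplicit false

open Matrix Equiv

namespace Pool.Agent.Helper81.AN

variable {ι : Type} [Fintype ι] [DecidableEq ι] {d : ℕ}

/-- the sign of the parity, if the permutation is odd -/
def pz (σ : Perm ι) (c : Cl ι) : ℤˣ := if Perm.sign σ = 1 then 1 else Cl.par c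

omit [Fintype ι] [DecidableEq ι] in
theorem U_sq (U : Cl ι →* GL (Fin d) ℂ) (i : ι) :
    (U (Cl.a i) : Matrix (Fin d) (Fin d) ℂ) * (U (Cl.a i) : Matrix (Fin d) (Fin d) ℂ) = 1 := by
  have h : U (Cl.a i) * U (Cl.a i) = 1 := by rw [← map_mul, Cl.aa, map_one]
  exact congrArg Units.val h

omit [Fintype ι] [DecidableEq ι] in
theorem U_anti (U : Cl ι →* GL (Fin d) ℂ) (hU : U Cl.z = -1) {i j : ι} (hij : i ≠ j) :
    (U (Cl.a i) : Matrix (Fin d) (Fin d) ℂ) * (U (Cl.a j) : Matrix (Fin d) (Fin d) ℂ) =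
      -((U (Cl.a j) : Matrix (Fin d) (Fin d) ℂ) * (U (Cl.a i) : Matrix (Fin d) (Fin d) ℂ)) := by
  have h : U (Cl.a i) * U (Cl.a j) = -1 * (U (Cl.a j) * U (Cl.a i)) := by
    rw [← map_mul, Cl.a_mul_a hij, map_mul, map_mul, hU]
  have h2 := congrArg Units.val h
  simpa using h2

omit [Fintype ι] in
/-- the operator of a transposition -/
theorem exists_T' (U : Cl ι →* GL (Fin d) ℂ) (hU : U Cl.z = -1) (i j : ι) (hij : i ≠ j) :
    ∃ T : GL (Fin d) ℂ, T * T = 1 ∧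
      (Real.sqrt 2 : ℂ) • (T : Matrix (Fin d) (Fin d) ℂ) =
        (U (Cl.a i) : Matrix (Fin d) (Fin d) ℂ) - (U (Cl.a j) : Matrix (Fin d) (Fin d) ℂ) ∧
      ∀ k, T * U (Cl.a k) * T⁻¹ = -U (Cl.a (swap i j k)) := by
  set A : Matrix (Fin d) (Fin d) ℂ := (U (Cl.a i) : Matrix (Fin d) (Fin d) ℂ) with hA
  set B : Matrix (Fin d) (Fin d) ℂ := (U (Cl.a j) : Matrix (Fin d) (Fin d) ℂ) with hB
  have hAA : A * A = 1 := U_sq U i
  have hBB : B * B = 1 := U_sq U j
  have hAB : A * B = -(B * A) := U_anti U hU hij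
  have hs : (Real.sqrt 2 : ℂ) * (Real.sqrt 2 : ℂ) = 2 := by
    rw [← Complex.ofReal_mul, Real.mul_self_sqrt (by norm_num)]
    norm_num
  have hs0 : (Real.sqrt 2 : ℂ) ≠ 0 := fun h => by
    rw [h, mul_zero] at hs
    exact two_ne_zero hs.symm
  set t : ℂ := (Real.sqrt 2 : ℂ)⁻¹ with ht
  have htt : t * t = 1 / 2 := by
    rw [ht, ← mul_inv, hs]
    norm_num
  have hC : (A - B) * (A - B) = (2 : ℂ) • 1 := by
    rw [sub_mul, mul_sub, mul_sub, hAA, hBB, hAB, sub_neg_eq_add, two_smul]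
    abel
  have hT : (t • (A - B)) * (t • (A - B)) = 1 := by
    rw [smul_mul_smul_comm, htt, hC, smul_smul]
    norm_num
  let T : GL (Fin d) ℂ := ⟨t • (A - B), t • (A - B), hT, hT⟩
  have hTv : (T : Matrix (Fin d) (Fin d) ℂ) = t • (A - B) := rfl
  refine ⟨T, Units.ext hT, ?_, fun k => ?_⟩
  · rw [hTv, smul_smul, ht, mul_inv_cancel₀ hs0, one_smul]
  · rw [mul_inv_eq_iff_eq_mul]
    apply Units.ext
    change (t • (A - B)) * (U (Cl.a k) : Matrix (Fin d) (Fin d) ℂ) =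
      -(U (Cl.a (swap i j k)) : Matrix (Fin d) (Fin d) ℂ) * (t • (A - B))
    rw [smul_mul_assoc, mul_smul_comm]
    congr 1
    by_cases hki : k = i
    · subst hki
      rw [swap_apply_left, ← hA, ← hB, sub_mul, mul_sub, neg_mul, neg_mul, hAA, hBB, sub_neg_eq_add]
      abel
    · by_cases hkj : k = j
      · subst hkj
        rw [swap_apply_right, ← hA, ← hB, sub_mul, mul_sub, neg_mul, neg_mul, hAA, hBB,
          sub_neg_eq_add]
        abel
      · rw [swap_apply_of_ne_of_ne hki hkj, sub_mul, mul_sub, neg_mul, neg_mul]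
        have e1 : A * (U (Cl.a k) : Matrix (Fin d) (Fin d) ℂ) =
            -((U (Cl.a k) : Matrix (Fin d) (Fin d) ℂ) * A) := U_anti U hU (Ne.symm hki)
        have e2 : B * (U (Cl.a k) : Matrix (Fin d) (Fin d) ℂ) =
            -((U (Cl.a k) : Matrix (Fin d) (Fin d) ℂ) * B) := U_anti U hU (Ne.symm hkj)
        rw [e1, e2]

omit [Fintype ι] [DecidableEq ι] in
theorem par_zeta : Cl.par (Cl.z : Cl ι) = 1 := Cl.lift_z _ _ _ _ _ _

omit [Fintype ι] [DecidableEq ι] in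
theorem par_gen (i : ι) : Cl.par (Cl.a i : Cl ι) = -1 := Cl.lift_a _ _ _ _ _ _ _

omit [Fintype ι] in
/-- a transposition on all elements -/
theorem swap_all (U : Cl ι →* GL (Fin d) ℂ) (hU : U Cl.z = -1) (i j : ι) (T : GL (Fin d) ℂ)
    (hT : ∀ k, T * U (Cl.a k) * T⁻¹ = -U (Cl.a (swap i j k))) (c : Cl ι) :
    ((U (pact (swap i j) c) : GL (Fin d) ℂ) : Matrix (Fin d) (Fin d) ℂ) =
      (((Cl.par c : ℤˣ) : ℤ) : ℂ) • ((T * U c * T⁻¹ : GL (Fin d) ℂ) : Matrix (Fin d) (Fin d) ℂ) := by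
  induction c using Cl.ind with
  | h1 =>
    rw [map_one, map_one, map_one, mul_one, mul_inv_cancel]
    simp
  | hz g hg =>
    have h1 : T * U (Cl.z * g) * T⁻¹ = -1 * (T * U g * T⁻¹) := by
      rw [map_mul, hU]
      simp
    rw [h1, map_mul, map_mul, map_mul, pact_z, hU, par_zeta, one_mul, Units.val_mul, hg,
      Units.val_mul (-1) (T * U g * T⁻¹), mul_smul_comm]
  | ha k g hg =>
    have h1 : T * U (Cl.a k * g) * T⁻¹ = (-U (Cl.a (swap i j k))) * (T * U g * T⁻¹) := by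
      rw [← hT, map_mul]
      group
    rw [h1, map_mul, map_mul, map_mul, pact_a, par_gen, Units.val_mul, hg,
      Units.val_mul _ (T * U g * T⁻¹), mul_smul_comm]
    simp

theorem exists_M (U : Cl ι →* GL (Fin d) ℂ) (hU : U Cl.z = -1) (σ : Perm ι) :
    ∃ M : GL (Fin d) ℂ, ∀ c : Cl ι, ((U (pact σ c) : GL (Fin d) ℂ) : Matrix (Fin d) (Fin d) ℂ) =
      (((pz σ c : ℤˣ) : ℤ) : ℂ) • ((M * U c * M⁻¹ : GL (Fin d) ℂ) : Matrix (Fin d) (Fin d) ℂ) := by
  induction σ using Equiv.Perm.swap_induction_on with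
  | one =>
    refine ⟨1, fun c => ?_⟩
    rw [pact_one, pz, map_one, if_pos rfl]
    simp
  | swap_mul f x y hxy ih =>
    obtain ⟨M, hM⟩ := ih
    obtain ⟨T, hTT, _, hT⟩ := exists_T' U hU x y hxy
    refine ⟨T * M, fun c => ?_⟩
    have h1 := swap_all U hU x y T hT (pact f c)
    have hp : Cl.par (pact f c) = Cl.par c := Cl.par_act _ _
    have h2 : ((T * U (pact f c) * T⁻¹ : GL (Fin d) ℂ) : Matrix (Fin d) (Fin d) ℂ) =
        (((pz f c : ℤˣ) : ℤ) : ℂ) •
          ((T * M * U c * (T * M)⁻¹ : GL (Fin d) ℂ) : Matrix (Fin d) (Fin d) ℂ) := by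
      have h3 : T * M * U c * (T * M)⁻¹ = T * (M * U c * M⁻¹) * T⁻¹ := by group
      rw [h3]
      simp only [Units.val_mul]
      rw [hM c]
      simp only [Units.val_mul, mul_smul_comm, smul_mul_assoc]
    rw [pact_mul, h1, h2, hp, smul_smul]
    congr 1
    have h4 : pz (swap x y * f) c = Cl.par c * pz f c := by
      unfold pz
      rw [map_mul, Equiv.Perm.sign_swap hxy]
      rcases Int.units_eq_one_or (Equiv.Perm.sign f) with h | h
      · rw [h, if_pos rfl, mul_one, mul_one, if_neg (by decide)]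
      · rw [h, if_pos (by decide), if_neg (by decide), Int.units_mul_self]
    rw [h4]
    push_cast
    ring

/-- the operator of a transposition -/
theorem exists_T (U : Cl ι →* GL (Fin d) ℂ) (hU : U Cl.z = -1) (i j : ι) (hij : i ≠ j) :
    ∃ T : GL (Fin d) ℂ, T * T = 1 ∧
      (Real.sqrt 2 : ℂ) • (T : Matrix (Fin d) (Fin d) ℂ) =
        (U (Cl.a i) : Matrix (Fin d) (Fin d) ℂ) - (U (Cl.a j) : Matrix (Fin d) (Fin d) ℂ) ∧
      ∀ k, T * U (Cl.a k) * T⁻¹ = -U (Cl.a (swap i j k)) := exists_T' U hU i j hij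

end Pool.Agent.Helper81.AN
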