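import Pool.Agent.Helper81.AN.ExpX
import Pool.Agent.Helper81.AN.Ortho
import Pool.Agent.Helper81.AN.PhiVal

/-!
# Project ALT: the functions `V`, definitions
-/

set_option autoImplicit false

open Equiv

namespace Pool.Agent.Helper81.AN

open Pool.Agent.Helper42.INC Pool.Agent.Helper7.MK

/-- the coefficients of the expansion `exp_X` -/
noncomputable def KK (S : Finset ℕ) (hS : 0 ∉ S) : (Fin S.card → ℕ) → ℤ := (exp_X S hS).choose

theorem KK_dvd (S : Finset ℕ) (hS : 0 ∉ S) (α : Fin S.card → ℕ) :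
    (2 : ℤ) ^ (Finset.univ.filter (fun j => α j = 0)).card ∣ KK S hS α :=
  (exp_X S hS).choose_spec.1 α

theorem KK_sum (S : Finset ℕ) (hS : 0 ∉ S) (α : Fin S.card → ℕ) (h : KK S hS α ≠ 0) :
    ∑ j, α j = ∑ s ∈ S, s :=
  (exp_X S hS).choose_spec.2.1 α h

theorem KK_Xc (S : Finset ℕ) (hS : 0 ∉ S) (l : List ℕ) (hl : ∀ m ∈ l, Odd m) :
    Xc l S = ∑ f : Fin l.length → Fin S.card,
      KK S hS (fun j => ∑ i, if f i = j then l.get i else 0) :=
  (exp_X S hS).choose_spec.2.2 l hl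

/-- sizes of the colour classes -/
def szc {ι : Type} [Fintype ι] {k : ℕ} (κ : ι → Fin k) (j : Fin k) : ℕ :=
  (Finset.univ.filter (fun x => κ x = j)).card

/-- the function on permutations: a sum over the invariant colourings -/
noncomputable def Yf {ι : Type} [Fintype ι] [DecidableEq ι] (S : Finset ℕ) (hS : 0 ∉ S)
    (σ : Perm ι) : ℤ :=
  ∑ κ : ι → Fin S.card, if ∀ x, κ (σ x) = κ x then KK S hS (szc κ) else 0

/-- on permutations of odd order it is the coefficient `Xc` -/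
theorem Yf_eq {ι : Type} [Fintype ι] [DecidableEq ι] (S : Finset ℕ) (hS : 0 ∉ S)
    (σ : Perm ι) (hσ : Odd (orderOf σ)) : Yf S hS σ = Xc (pl σ) S := by
  have h1 : ∀ m ∈ pl σ, Odd m := by
    intro m hm
    exact (odd_iff_parts σ).1 hσ m (Multiset.mem_toList.1 hm)
  rw [KK_Xc S hS (pl σ) h1, col_sum σ (pl σ) (Multiset.coe_toList _)]
  rfl

/-- pairs of strict partitions -/
abbrev II (v r : ℕ) : Type := SPn v × SPn r

/-- number of parts -/
def II.len {v r : ℕ} (i : II v r) : ℕ := i.1.1.card + i.2.1.card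

/-- the Young group -/
abbrev yh (v r : ℕ) : Perm (Fin v) × Perm (Fin r) →* Perm (Fin v ⊕ Fin r) :=
  Equiv.Perm.sumCongrHom (Fin v) (Fin r)

/-- the function `V` -/
noncomputable def VV {v r : ℕ} (i : II v r) (x : BP (yh v r)) : ℂ :=
  ((2 : ℂ) ^ (i.len / 2))⁻¹ * (Phi (yh v r) x * ((Yf i.1.1 i.1.2.1 x.right.1 : ℤ) : ℂ) *
    ((Yf i.2.1 i.2.2.1 x.right.2 : ℤ) : ℂ))

theorem yh_injective (v r : ℕ) : Function.Injective (yh v r) :=
  Equiv.Perm.sumCongrHom_injective

end Pool.Agent.Helper81.AN
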