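import Pool.Agent.Helper81.AN.VDefs
import Pool.Agent.Helper81.AN.VGen

/-!
# ALT-26: the functions `V`: symmetry, degree, orthogonality

PROOFS.
* `VV_z`, `VV_odd`: `Phi_z`, `Phi_odd` (the `Cl` part of `z x` changes, `x.right` does not).
* `yh_cyc`: for `g = (σ, τ)`, a cycle factor of `sumCongr σ τ` is `sumCongr c 1` or `sumCongr 1 c` with `c` a cycle factor of `σ` or `τ`. (A cycle
  `c` of `g` is supported in the left or in the right summand since `g` preserves them.)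
* `ncy_yh`: number of cycles of `sumCongr σ τ` = sum. (`inv_card` with `k = 2`: invariant functions on the sum are pairs; or cycle types.)
* `VV_r`: for `(σ, τ)` of odd order: `V = 2^(-⌊len/2⌋) 2^(ncy σ + ncy τ) Xc σ Xc τ` (`Phi_r`, `Yf_eq`; the order of a pair is odd iff both orders are odd; the order of
  `yh g` is that of `g`).
* `VV_deg`: at `1`: `pl 1` = list of `v` ones; `Xc_ones`: `= 2^(v + r) 2^(-⌊len/2⌋) g(S) g(S')`.
* `VV_B`: `norm_odd` (with `yh_cyc`, `yh_injective`; `|L| = v! r!`): `B (V i) (V j) = (v! r!)⁻¹ Σ_{(σ,τ) odd} 2^(-ncy) V i (σ,τ) V j (σ⁻¹,τ⁻¹)`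
  `= 2^(-⌊len i/2⌋ - ⌊len j/2⌋) (v!⁻¹ Σ_σ 2^(ncy σ) Xc S Xc T) (r!⁻¹ Σ_τ ...)` (`Xc` is the same for `σ⁻¹`: same cycle lengths), and `ortho`: zero unless `i = j`, then
  `2^(len i - 2 ⌊len i/2⌋)`.
-/

set_option autoImplicit false

open Equiv

namespace Pool.Agent.Helper81.AN

open Pool.Agent.Helper42.INC Pool.Agent.Helper7.MK

variable {v r : ℕ}

theorem VV_z (i : II v r) (x : BP (yh v r)) : VV i (BG.z _ * x) = -VV i x := by
  unfold VV
  have h : (BG.z _ * x : BP (yh v r)).right = x.right := by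
    rw [SemidirectProduct.mul_right]
    exact one_mul _
  rw [Phi_z, h]
  ring

theorem VV_odd (i : II v r) (x : BP (yh v r)) (hx : BG.par _ x = -1) : VV i x = 0 := by
  unfold VV
  rw [Phi_odd _ _ hx]
  ring

theorem yh_cyc (g : Perm (Fin v) × Perm (Fin r)) (c : Perm (Fin v ⊕ Fin r))
    (hc : c ∈ (yh v r g).cycleFactorsFinset) : c ∈ (yh v r).range := by
  apply Equiv.Perm.mem_sumCongrHom_range_of_perm_mapsTo_inl
  rw [Equiv.Perm.mem_cycleFactorsFinset_iff] at hc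
  rintro _ ⟨a, rfl⟩
  by_cases h : Sum.inl a ∈ c.support
  · rw [hc.2 _ h]
    exact ⟨g.1 a, rfl⟩
  · rw [Equiv.Perm.notMem_support] at h
    rw [h]
    exact ⟨a, rfl⟩

theorem ncy_yh (g : Perm (Fin v) × Perm (Fin r)) : ncy (yh v r g) = ncy g.1 + ncy g.2 := by
  have h1 := inv_card (yh v r g) 2
  have h2 := inv_card g.1 2
  have h3 := inv_card g.2 2
  have e : {B : Fin v ⊕ Fin r → Fin 2 // ∀ x, B (yh v r g x) = B x} ≃
      {B : Fin v → Fin 2 // ∀ x, B (g.1 x) = B x} × {B : Fin r → Fin 2 // ∀ x, B (g.2 x) = B x} :=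
    { toFun := fun B => (⟨fun x => B.1 (Sum.inl x), fun x => B.2 (Sum.inl x)⟩,
        ⟨fun x => B.1 (Sum.inr x), fun x => B.2 (Sum.inr x)⟩)
      invFun := fun q => ⟨Sum.elim q.1.1 q.2.1, by
        rintro (x | x)
        · exact q.1.2 x
        · exact q.2.2 x⟩
      left_inv := fun B => by
        apply Subtype.ext
        funext x
        rcases x with x | x <;> rfl
      right_inv := fun q => rfl }
  rw [Nat.card_congr e, Nat.card_prod, h2, h3, ← pow_add] at h1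
  exact (Nat.pow_right_injective (le_refl 2) h1).symm

theorem odd_yh (g : Perm (Fin v) × Perm (Fin r)) :
    Odd (orderOf (yh v r g)) ↔ Odd (orderOf g.1) ∧ Odd (orderOf g.2) := by
  rw [orderOf_injective _ (yh_injective v r), Prod.orderOf]
  constructor
  · intro h
    exact ⟨Odd.of_dvd_nat h (Nat.dvd_lcm_left _ _), Odd.of_dvd_nat h (Nat.dvd_lcm_right _ _)⟩
  · rintro ⟨h1, h2⟩
    exact Odd.of_dvd_nat (h1.mul h2) (Nat.lcm_dvd_mul _ _)

theorem VV_r (i : II v r) (g : Perm (Fin v) × Perm (Fin r)) (h1 : Odd (orderOf g.1))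
    (h2 : Odd (orderOf g.2)) :
    VV i (BP.r (yh v r) g) = ((2 : ℂ) ^ (i.len / 2))⁻¹ * (2 ^ (ncy g.1 + ncy g.2) *
      (((Xc (pl g.1) i.1.1 : ℤ) : ℂ) * ((Xc (pl g.2) i.2.1 : ℤ) : ℂ))) := by
  unfold VV
  have h : (BP.r (yh v r) g).right = g := rfl
  rw [Phi_r _ _ ((odd_yh g).2 ⟨h1, h2⟩), ncy_yh, h, Yf_eq _ _ _ h1, Yf_eq _ _ _ h2]
  ring

private theorem pl_one (n : ℕ) : pl (1 : Perm (Fin n)) = List.replicate n 1 := by
  have h1 : (1 : Perm (Fin n)).partition.parts = Multiset.replicate n 1 := by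
    rw [Equiv.Perm.parts_partition]
    simp
  unfold pl
  rw [h1, List.eq_replicate_iff]
  refine ⟨by simp, fun b hb => ?_⟩
  rw [Multiset.mem_toList] at hb
  exact Multiset.eq_of_mem_replicate hb

private theorem ncy_one (n : ℕ) : ncy (1 : Perm (Fin n)) = n := by
  unfold ncy
  rw [Equiv.Perm.parts_partition]
  simp

theorem VV_deg (i : II v r) :
    VV i 1 = ((2 : ℂ) ^ (i.len / 2))⁻¹ * (2 ^ (v + r) *
      ((gAux v i.1.1 : ℂ) * (gAux r i.2.1 : ℂ))) := by
  have h := VV_r i 1 (by simp) (by simp)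
  rw [map_one] at h
  have e1 : Xc (List.replicate v 1) i.1.1 = gAux v i.1.1 := by
    have := Xc_ones i.1.1 i.1.2.1
    rwa [i.1.2.2] at this
  have e2 : Xc (List.replicate r 1) i.2.1 = gAux r i.2.1 := by
    have := Xc_ones i.2.1 i.2.2.1
    rwa [i.2.2.2] at this
  rw [h, Prod.fst_one, Prod.snd_one, pl_one, pl_one, ncy_one, ncy_one, e1, e2]
  push_cast
  ring

private theorem pl_inv {n : ℕ} (σ : Perm (Fin n)) : pl σ⁻¹ = pl σ := by
  unfold pl
  congr 1
  rw [Equiv.Perm.parts_partition, Equiv.Perm.parts_partition, Equiv.Perm.cycleType_inv,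
    Equiv.Perm.support_inv]

private theorem ncy_inv {n : ℕ} (σ : Perm (Fin n)) : ncy σ⁻¹ = ncy σ := by
  unfold ncy
  rw [Equiv.Perm.parts_partition, Equiv.Perm.parts_partition, Equiv.Perm.cycleType_inv,
    Equiv.Perm.support_inv]

open Classical in
private theorem ortho_fin {n : ℕ} (S S' : SPn n) :
    ∑ σ : Perm (Fin n), (if Odd (orderOf σ) then
      (2 : ℂ) ^ ncy σ * (((Xc (pl σ) S.1 : ℤ) : ℂ) * ((Xc (pl σ) S'.1 : ℤ) : ℂ)) else 0) =
      if S = S' then (n.factorial : ℂ) * 2 ^ S.1.card else 0 := by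
  have hn : Fintype.card (Fin n) = n := Fintype.card_fin n
  obtain ⟨T, hT⟩ : ∃ T : SPn (Fintype.card (Fin n)), T.1 = S.1 :=
    ⟨⟨S.1, S.2.1, by rw [hn]; exact S.2.2⟩, rfl⟩
  obtain ⟨T', hT'⟩ : ∃ T : SPn (Fintype.card (Fin n)), T.1 = S'.1 :=
    ⟨⟨S'.1, S'.2.1, by rw [hn]; exact S'.2.2⟩, rfl⟩
  have h := ortho (ι := Fin n) T T'
  have h2 := congrArg (Rat.cast : ℚ → ℂ) h
  rw [Rat.cast_sum] at h2
  have e1 : ∀ σ : Perm (Fin n), (if Odd (orderOf σ) then
      (2 : ℂ) ^ ncy σ * (((Xc (pl σ) S.1 : ℤ) : ℂ) * ((Xc (pl σ) S'.1 : ℤ) : ℂ)) else 0) =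
      (((if Odd (orderOf σ) then
      (2 : ℚ) ^ ncy σ * (Xc (pl σ) T.1 * Xc (pl σ) T'.1) else 0 : ℚ)) : ℂ) := by
    intro σ
    rw [hT, hT']
    split_ifs <;> push_cast <;> rfl
  rw [Finset.sum_congr rfl fun σ _ => e1 σ, h2]
  by_cases hS : S = S'
  · have hTT : T = T' := Subtype.ext (by rw [hT, hT', hS])
    rw [if_pos hTT, if_pos hS, hT, hn]
    push_cast
    rfl
  · have hTT : T ≠ T' := fun h3 => hS (Subtype.ext (by rw [← hT, ← hT', h3]))
    rw [if_neg hS, if_neg hTT]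
    simp

open Classical in
theorem VV_B (i j : II v r) :
    B (VV i) (VV j) = if i = j then (if Odd i.len then 2 else 1) else 0 := by
  obtain ⟨a, b, ha, hb, hab⟩ := VV_gen i
  obtain ⟨a', b', ha', hb', hab'⟩ := VV_gen j
  have hcl : ∀ {f : BP (yh v r) → ℂ}, IsChar f → IsClass f := by
    rintro f ⟨V, _, _, _, ρ, rfl⟩ g x
    exact Representation.char_conj ρ x g
  have hc : IsClass (VV i) := by
    intro g x
    rw [hab, hab, hcl ha, hcl hb]
  have hc' : IsClass (VV j) := by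
    intro g x
    rw [hab', hab', hcl ha', hcl hb']
  rw [norm_odd (yh v r) (yh_injective v r) yh_cyc (VV i) (VV j) hc (VV_z i) (VV_odd i) hc' (VV_z j)]
  have e1 : ∀ g : Perm (Fin v) × Perm (Fin r), (if Odd (orderOf g) then
      ((2 : ℂ) ^ ncy (yh v r g))⁻¹ * (VV i (BP.r (yh v r) g) * VV j (BP.r (yh v r) g⁻¹)) else 0) =
      ((2 : ℂ) ^ (i.len / 2))⁻¹ * ((2 : ℂ) ^ (j.len / 2))⁻¹ *
      ((if Odd (orderOf g.1) then (2 : ℂ) ^ ncy g.1 *
        (((Xc (pl g.1) i.1.1 : ℤ) : ℂ) * ((Xc (pl g.1) j.1.1 : ℤ) : ℂ)) else 0) *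
      (if Odd (orderOf g.2) then (2 : ℂ) ^ ncy g.2 *
        (((Xc (pl g.2) i.2.1 : ℤ) : ℂ) * ((Xc (pl g.2) j.2.1 : ℤ) : ℂ)) else 0)) := by
    intro g
    by_cases h : Odd (orderOf g)
    · have h' : Odd (orderOf (yh v r g)) := by
        rw [orderOf_injective _ (yh_injective v r)]
        exact h
      obtain ⟨h1, h2⟩ := (odd_yh g).1 h'
      have h1' : Odd (orderOf (g⁻¹).1) := by
        rw [Prod.fst_inv, orderOf_inv]
        exact h1
      have h2' : Odd (orderOf (g⁻¹).2) := by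
        rw [Prod.snd_inv, orderOf_inv]
        exact h2
      rw [if_pos h, if_pos h1, if_pos h2, VV_r i g h1 h2, VV_r j g⁻¹ h1' h2', ncy_yh, Prod.fst_inv,
        Prod.snd_inv, pl_inv, pl_inv, ncy_inv, ncy_inv, pow_add]
      have n1 : (2 : ℂ) ^ ncy g.1 ≠ 0 := pow_ne_zero _ two_ne_zero
      have n2 : (2 : ℂ) ^ ncy g.2 ≠ 0 := pow_ne_zero _ two_ne_zero
      have n3 : (2 : ℂ) ^ (i.len / 2) ≠ 0 := pow_ne_zero _ two_ne_zero
      have n4 : (2 : ℂ) ^ (j.len / 2) ≠ 0 := pow_ne_zero _ two_ne_zero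
      field_simp
    · rw [if_neg h]
      have h' : ¬ (Odd (orderOf g.1) ∧ Odd (orderOf g.2)) := by
        rw [← odd_yh, orderOf_injective _ (yh_injective v r)]
        exact h
      by_cases h1 : Odd (orderOf g.1)
      · rw [if_neg (fun h2 => h' ⟨h1, h2⟩), mul_zero, mul_zero]
      · rw [if_neg h1, zero_mul, mul_zero]
  rw [Finset.sum_congr rfl fun g _ => e1 g, ← Finset.mul_sum, Fintype.sum_prod_type]
  simp only
  rw [← Finset.sum_mul_sum, ortho_fin, ortho_fin]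
  have hcard : (Nat.card (Perm (Fin v) × Perm (Fin r)) : ℂ) = (v.factorial : ℂ) * r.factorial := by
    rw [Nat.card_prod, Nat.card_eq_fintype_card, Nat.card_eq_fintype_card, Fintype.card_perm,
      Fintype.card_perm, Fintype.card_fin, Fintype.card_fin]
    push_cast
    rfl
  rw [hcard]
  have nv : (v.factorial : ℂ) ≠ 0 := by exact_mod_cast v.factorial_ne_zero
  have nr : (r.factorial : ℂ) ≠ 0 := by exact_mod_cast r.factorial_ne_zero
  by_cases hij : i = j
  · subst hij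
    rw [if_pos rfl, if_pos rfl, if_pos rfl]
    have hl : i.len = i.1.1.card + i.2.1.card := rfl
    have n3 : (2 : ℂ) ^ (i.len / 2) ≠ 0 := pow_ne_zero _ two_ne_zero
    have e2 : (2 : ℂ) ^ i.1.1.card * 2 ^ i.2.1.card =
        2 ^ (i.len / 2) * 2 ^ (i.len / 2) * (if Odd i.len then 2 else 1) := by
      rw [← pow_add, ← pow_add, ← hl]
      split_ifs with ho
      · rw [← pow_succ]
        congr 1
        obtain ⟨m, hm⟩ := ho
        omega
      · rw [mul_one]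
        congr 1
        obtain ⟨m, hm⟩ := Nat.not_odd_iff_even.1 ho
        omega
    calc _ = ((2 : ℂ) ^ (i.len / 2))⁻¹ * ((2 : ℂ) ^ (i.len / 2))⁻¹ *
        ((2 : ℂ) ^ i.1.1.card * 2 ^ i.2.1.card) := by
          field_simp
      _ = _ := by
          rw [e2]
          field_simp
  · rw [if_neg hij]
    by_cases h1 : i.1 = j.1
    · rw [if_neg (fun h2 => hij (Prod.ext h1 h2)), mul_zero, mul_zero, mul_zero]
    · rw [if_neg h1, zero_mul, mul_zero, mul_zero]

end Pool.Agent.Helper81.AN
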